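import Pool.Agent.POL.Defs2
import Pool.Agent.PW.RunBX

/-!
POL, row DIR (helper5): a run of interior leaves of a rotation of a closed word, in one of the two directions, is a run of
interior leaves of the direction false of another rotation.

* `hrf_false` : the direction false;
* `hrf_true` : the direction true: the rotation starts at the first step of the direction true;
* **`dir_run`**, `hasRun_RotC`.
-/

set_option autoImplicit false

namespace HexObs

namespace POL

open Finset TS SDN NTW NTA

variable {kc : ℕ} {R : Set (List (List Bool))} {w : List Bool} {c : Bool}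

/-- a run with a leaf before and a leaf behind it, folds with hysteresis -/
lemma hrf_of {m u : ℕ} {e : ℕ → ℕ} (hL : Lf false (kc + 5) w m u e) {l d : ℕ} (h1 : 1 ≤ l) (h2 : 1 ≤ d)
    (h3 : l + d + 1 ≤ m) (h4 : lws w e l d ∈ R) : w ∈ HRf kc R := by
  obtain ⟨e', hF, he⟩ := RD.fd_of_lf (show 1 ≤ kc + 5 by omega) (by omega) hL
  refine ⟨m, u, e', hF, l, d, h1, h2, h3, ?_⟩
  have h5 : lws w e' l d = lws w e l d := by
    unfold lws
    apply List.map_congr_left
    intro i hi
    rw [List.mem_range] at hi
    rw [he (l + i) (by omega) (by omega), he (l + i + 1) (by omega) (by omega)]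
  rwa [h5]

/-- the direction false -/
lemma hrf_false (h : HasRun false kc R w) : w ∈ HRf kc R := by
  obtain ⟨m, u, e, hL, l, d, h1, h2, h3, h4⟩ := h
  exact hrf_of hL (by omega) h2 h3 h4

/-- the part behind the first step of the direction true -/
lemma hrf_drop (h : HasRun true kc R w) : ∃ q, q ≤ w.length ∧ ∀ B : List Bool, w.drop q ++ B ∈ HRf kc R := by
  classical
  obtain ⟨m, u, e, hL, l, d, hl, hd, hm, hR⟩ := h
  have hRR : (4 : ℤ) < RR (kc + 5) := by
    unfold RR
    have h1 : (2 : ℤ) ^ 5 ≤ 2 ^ (kc + 5) := pow_le_pow_right₀ (by norm_num) (by omega)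
    norm_num at h1
    omega
  have hbig := hL.big 0 (by omega)
  have hmon : ∀ j, j ≤ m → e j ≤ w.length := fun j hj => (hL.monoA hj le_rfl).trans hL.le
  have hex : ∃ q, q ≤ w.length ∧ DirA.vert (dx up w q) := by
    by_contra hc
    push Not at hc
    have h1 : ∀ i, i < w.length → ¬ DirA.vert (dx up w i) := fun i hi => hc i hi.le
    have h2 := DirA.zz_lvl h1 (e 0) (hmon 0 (by omega))
    have h3 := DirA.zz_lvl h1 (e 1) (hmon 1 (by omega))
    simp only [zero_add, add_zero] at hbig
    rw [h2, h3] at hbig
    unfold Tight.sg at hbig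
    split_ifs at hbig <;> omega
  obtain ⟨hq, hv⟩ := Nat.find_spec hex
  have hmin : ∀ i, i < Nat.find hex → ¬ DirA.vert (dx up w i) := fun i hi h => Nat.find_min hex hi ⟨by omega, h⟩
  set q := Nat.find hex
  obtain ⟨σ, hσ, h1, h2, h3⟩ := RD.drop_dir hq hv
  refine ⟨q, hq, fun B => ?_⟩
  -- the folds
  obtain ⟨m', rfl⟩ : ∃ m', m = m' + 1 := ⟨m - 1, by omega⟩
  obtain ⟨c, e', hc, hH, he⟩ := RD.hyst_tail (q := q) hRR (fun i hi => by
    have b1 := DirA.zz_lvl hmin i hi
    have b2 := DirA.zz_lvl hmin q le_rfl
    show |lvl true (vx oo up w i) - lvl true (vx oo up w q)| ≤ 2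
    rw [b1, b2, abs_le]
    split_ifs <;> constructor <;> omega) hL
  obtain ⟨u', hH'⟩ := RD.hyst_sgn (f := fun i => lvl false (vx oo up (w.drop q ++ B) (0 + i)))
    (c := lvl true (vx oo up w q)) hσ (fun i hi => by
    show lvl true (vx oo up w (q + i)) = _
    rw [h1 i, zero_add, vx_append (by rw [List.length_drop]; omega)]
    rfl) hH
  obtain ⟨M, U, E, hE⟩ := SDN.lf_exists false (kc + 5) (w.drop q ++ B)
  obtain ⟨s, hs⟩ := PW.hyst_window (F := fun i => lvl false (vx oo up (w.drop q ++ B) i)) (a := 0) hE hH' (by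
    rw [List.length_append, List.length_drop]
    omega)
  have hld := hs (l - c + d) (by omega) (by omega)
  have hle : ∀ j, j ≤ m' + 1 - c → e' j ≤ (w.drop q).length := by
    intro j hj
    rw [List.length_drop]
    exact (hH.monoA hj le_rfl).trans hH.le
  refine hrf_of hE (l := l - c + s) (d := d) (by omega) hd (by omega) ?_
  have h4 : lws (w.drop q ++ B) E (l - c + s) d = lws w e l d := by
    unfold lws
    apply List.map_congr_left
    intro i hi
    rw [List.mem_range] at hi
    have e1 := he (l - c + i) (by omega) (by omega)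
    have e2 := he (l - c + i + 1) (by omega) (by omega)
    rw [show l - c + i + c = l + i by omega] at e1
    rw [show l - c + i + 1 + c = l + i + 1 by omega] at e2
    have e3 : e' (l - c + i) < e' (l - c + i + 1) := hH.lt (l - c + i) (by omega)
    have g1 := (hs (l - c + i) (by omega) (by omega)).2
    have g2 := (hs (l - c + i + 1) (by omega) (by omega)).2
    rw [show l - c + i + s = l - c + s + i by omega] at g1
    rw [show l - c + i + 1 + s = l - c + s + i + 1 by omega] at g2
    rw [e1, e2, RD.lw_dropQ (by omega), g1, g2]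
    exact PW.lw_infix (A := []) e3 (hle _ (by omega))
  rw [h4]
  exact hR

/-- **a run in one of the two directions is a run of the direction false of another rotation** -/
theorem dir_run {dir : Bool} {t X Y : List Bool} (h1 : t = X ++ Y) (h2 : Y ++ X = w ++ [c]) (h : HasRun dir kc R w) :
    ∃ (X' Y' w' : List Bool) (c' : Bool), t = X' ++ Y' ∧ Y' ++ X' = w' ++ [c'] ∧ w' ∈ HRf kc R := by
  cases dir
  · exact ⟨X, Y, w, c, h1, h2, hrf_false h⟩
  · obtain ⟨q, hq, hB⟩ := hrf_drop h
    -- the rotation by q of Y ++ X is a rotation of t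
    obtain ⟨n, hn⟩ : ∃ n, n = (X.length + q) % t.length := ⟨_, rfl⟩
    have h3 : (Y ++ X).rotate q = t.drop n ++ t.take n := by
      rw [← List.rotate_append_length_eq X Y, List.rotate_rotate, ← h1, hn, ← List.rotate_eq_drop_append_take_mod]
    have h4 : (Y ++ X).rotate q = w.drop q ++ ([c] ++ w.take q) := by
      rw [h2, List.rotate_eq_drop_append_take (by rw [List.length_append]; omega), List.drop_append_of_le_length hq,
        List.take_append_of_le_length hq, List.append_assoc]
    have hne : [c] ++ w.take q ≠ [] := by simp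
    refine ⟨t.take n, t.drop n, w.drop q ++ ([c] ++ w.take q).dropLast, ([c] ++ w.take q).getLast hne,
      (List.take_append_drop n t).symm, ?_, hB _⟩
    rw [← h3, h4, List.append_assoc, List.dropLast_append_getLast]

/-- the closed words with a run in one of the two directions -/
theorem hasRun_RotC {N K : ℕ} {dir : Bool} {t : List Bool} (ht : t ∈ WC N K)
    (h : ∃ (X Y w : List Bool) (c : Bool), t = X ++ Y ∧ Y ++ X = w ++ [c] ∧ HasRun dir kc R w) :
    t ∈ RotC N K (HRf kc R) := by
  obtain ⟨X, Y, w, c, h1, h2, h3⟩ := h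
  obtain ⟨X', Y', w', c', g1, g2, g3⟩ := dir_run h1 h2 h3
  exact ⟨ht, X', Y', w', c', g1, g2, g3⟩

end POL

end HexObs
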