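import Pool.Agent.NTA.TIDefs

/-!
POL: ensembles of words whose normalisation depends on the index, with an abstract norm of the runs; the crowded runs are the
runs of interior leaves of a walk in a box (closed under initial and final parts).
-/

set_option autoImplicit false

namespace HexObs

namespace POL

open Finset TS SDN NTW NTA

open scoped ENNReal

/-- the runs of m interior leaves of a walk in a box -/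
def RBx (kc mu m : ℕ) : Set (List (List Bool)) :=
  {gs | ∃ (dir : Bool) (t : List Bool) (m' u : ℕ) (e : ℕ → ℕ) (l x y : ℕ), t ∈ SA ∧ Lf dir (kc + 5) t m' u e ∧
    Bx (kc + 5 + mu) t x y ∧ x ≤ e l ∧ e (l + m) ≤ y ∧ 1 ≤ l ∧ l + m + 1 ≤ m' ∧ lws t e l m = gs}

/-- ensembles E a of words of the boxes 2 ^ K with the normalisation nu a; SR kc R δ: the class R of runs has the norm δ at
the scale kc + 5; the constants do not depend on a -/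
structure EnsQ {ι : Type} (E : ι → ℕ → Set (List Bool)) (nu : ι → ℕ → ℝ≥0∞)
    (SR : ℕ → Set (List (List Bool)) → ℝ → Prop) : Prop where
  sub : ∀ a K, E a K ⊆ WL K
  run : ∃ (C : ℝ) (k0 : ℕ), 1 ≤ C ∧ ∀ (a : ι) (dir : Bool) (kc J : ℕ) (R : Set (List (List Bool))) (δ : ℝ), k0 ≤ kc →
    6 ≤ J → 0 < δ → SR kc R δ →
    gf {t | t ∈ E a (kc + J) ∧ HasRun dir kc R t} ≤ ENNReal.ofReal (C ^ J * δ) * nu a (kc + J)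
  mono : ∀ (kc : ℕ) (R : Set (List (List Bool))) (δ δ' : ℝ), SR kc R δ → δ ≤ δ' → SR kc R δ'
  crowd : ∀ mu : ℕ, ∃ (k0 m0 : ℕ) (C0 : ℝ), 0 < C0 ∧ ∀ kc m : ℕ, k0 ≤ kc → m0 ≤ m → SR kc (RBx kc mu m) (C0 / 2 ^ m)
  fill : ∃ (K : ℝ) (a0 a1 k0 : ℕ), 1 ≤ K ∧ ∀ (kc mu m1 J : ℕ) (S : Set (List Bool)) (δ : ℝ), k0 ≤ kc → 0 ≤ δ →
    SmD DmJ kc S δ → SR kc (RFill kc mu m1 (2 * J + a0) S) ((K * 2 ^ mu) ^ (m1 + a1) * δ ^ J)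
  crude : ∃ C : ℝ, 1 ≤ C ∧ ∀ (a : ι) (K : ℕ), gf (E a K) ≤ ENNReal.ofReal (C ^ (K + 1)) * nu a K
  low : ∃ C : ℝ, 1 ≤ C ∧ ∀ (a : ι) (K : ℕ), ENNReal.ofReal (1 / C ^ (K + 1)) ≤ nu a K

/-- the tail of the lengths of the infixes -/
def TailQ (m : ℕ → ℝ) : Prop := ∀ {ι : Type} (E : ι → ℕ → Set (List Bool)) (nu : ι → ℕ → ℝ≥0∞)
  (SR : ℕ → Set (List (List Bool)) → ℝ → Prop), EnsQ E nu SR → ∃ C : ℝ, 1 ≤ C ∧ ∀ Q : ℕ, ∃ A : ℝ, 1 ≤ A ∧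
  ∀ (a : ι) (K l : ℕ) (lam : ℝ), l ≤ K → 1 ≤ lam →
    gf {t | t ∈ E a K ∧ ∃ u z, Bx (l + 2) t u z ∧ lam * m l ≤ (z : ℝ) - u} ≤
      ENNReal.ofReal (A / lam ^ Q * C ^ (K - l)) * nu a K

/-- one step of the descent -/
def StepB : Prop := ∀ (kc μ m0 J0 x y : ℕ) (h S1 : ℝ) (t : List Bool), t ∈ SA → 6 ≤ m0 → 0 ≤ h → 0 ≤ S1 →
  (∀ dir, ¬ HasRun dir kc (RBx kc μ m0) t) →
  (∀ dir, ¬ HasRun dir kc (RFill kc (μ + 3) m0 (J0 + 1) (LongL kc (μ + 3) h)) t) →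
  (∀ x' y', Bx (kc + 6) t x' y' → (y' : ℝ) - x' ≤ S1) → Bx (kc + 5 + μ) t x y →
  (y : ℝ) - x ≤ 2 * (m0 + 5) * (h + 1) + (J0 + 6) ^ 2 * (2 ^ (μ + 5) * (S1 + 1))

/-- one step of the descent with its numbers: the box 2 ^ (kc + 8 ν + 6), then the box 2 ^ (kc + 6) -/
def StepS : Prop := ∀ {m : ℕ → ℝ}, MLow m → ∀ {ν J0 N q kc : ℕ} {y S2 : ℝ} {t : List Bool},
  t ∈ SA → 6 ≤ N → (512 : ℝ) * (J0 + 6) ^ 2 ≤ 2 ^ ν →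
  y = 2 ^ q * m (kc + 4 + 8 * ν) / (32 * (N + 5) * m (kc + 5)) → 0 ≤ S2 → 2 * S2 + 5 ≤ y * m (kc + 5) →
  1 ≤ 2 ^ ν * 2 ^ q * m (kc + 4) →
  (∀ dir, ¬ HasRun dir kc (RBx kc (8 * ν + 1) N) t) →
  (∀ dir, ¬ HasRun dir kc (RFill kc (8 * ν + 1 + 3) N (J0 + 1) (LongL kc (8 * ν + 1 + 3)
    (y * m (kc + 5) + 2 * S2 + 4))) t) →
  ∀ x z, Bx (kc + 5 + (8 * ν + 1)) t x z → 2 ^ q * m (kc + 4 + 8 * ν) ≤ (z : ℝ) - x →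
  ∃ x1 z1, Bx (kc + 6) t x1 z1 ∧ 2 ^ (q + ν) * m (kc + 4) ≤ (z1 : ℝ) - x1

end POL

end HexObs
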