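import Pool.Agent.NTA.TITail
import Pool.Agent.POL.EnsDefs

/-!
POL / EnsQ (helper32, after NTA/TIDefs, TIMain, TITail): the tail of the lengths of the infixes at every scale for ensembles
whose normalisation depends on the index, with the weaker norm `C0 / 2 ^ m` of the crowded runs and the runs with
`2 J + a0` special leaves of the norm `δ ^ J`.
-/

set_option autoImplicit false

namespace HexObs

namespace POL

open Finset TS SDN NTW NTA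

open scoped ENNReal

namespace TQ

open TI TIx TN

variable {ι : Type}

/-- the bad runs at the scale kc + 5 -/
def BadQ (E : Set (List Bool)) (m : ℕ → ℝ) (η : ℝ) (Q ν J0 kc q : ℕ) : Set (List Bool) :=
  ({t | t ∈ E ∧ HasRun false kc (RBx kc (8 * ν + 1) ((Q + 1) * q)) t} ∪
    {t | t ∈ E ∧ HasRun true kc (RBx kc (8 * ν + 1) ((Q + 1) * q)) t}) ∪
  ({t | t ∈ E ∧ HasRun false kc (RFill kc (8 * ν + 1 + 3) ((Q + 1) * q) (J0 + 1)
      (BrR (2 ^ (kc + 4)) (2 ^ (kc + (8 * ν + 1 + 3) + 2)) ∩ T2.Sp (T2.ee η (kc + 5)) (yy m ν Q kc q * m (kc + 5)))) t} ∪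
    {t | t ∈ E ∧ HasRun true kc (RFill kc (8 * ν + 1 + 3) ((Q + 1) * q) (J0 + 1)
      (BrR (2 ^ (kc + 4)) (2 ^ (kc + (8 * ν + 1 + 3) + 2)) ∩ T2.Sp (T2.ee η (kc + 5)) (yy m ν Q kc q * m (kc + 5)))) t})

/-- the covering of the long infixes by the bad runs and the deep events -/
lemma coverQ {m : ℕ → ℝ} {E : Set (List Bool)} {η β : ℝ} {Q ν J0 k l p I M : ℕ}
    (hstep : ∀ {ν J0 N q kc : ℕ} {y S2 : ℝ} {t : List Bool},
      t ∈ SA → 6 ≤ N → (512 : ℝ) * (J0 + 6) ^ 2 ≤ 2 ^ ν →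
      y = 2 ^ q * m (kc + 4 + 8 * ν) / (32 * (N + 5) * m (kc + 5)) → 0 ≤ S2 → 2 * S2 + 5 ≤ y * m (kc + 5) →
      1 ≤ 2 ^ ν * 2 ^ q * m (kc + 4) →
      (∀ dir, ¬ HasRun dir kc (RBx kc (8 * ν + 1) N) t) →
      (∀ dir, ¬ HasRun dir kc (RFill kc (8 * ν + 1 + 3) N (J0 + 1) (LongL kc (8 * ν + 1 + 3)
        (y * m (kc + 5) + 2 * S2 + 4))) t) →
      ∀ x z, Bx (kc + 5 + (8 * ν + 1)) t x z → 2 ^ q * m (kc + 4 + 8 * ν) ≤ (z : ℝ) - x →
      ∃ x1 z1, Bx (kc + 6) t x1 z1 ∧ 2 ^ (q + ν) * m (kc + 4) ≤ (z1 : ℝ) - x1)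
    (hν : 1 ≤ ν) (hJ : (512 : ℝ) * (J0 + 6) ^ 2 ≤ 2 ^ ν) (hlk : l ≤ k)
    (hI : ∀ i, i < I → 8 * ν * (i + 1) + 4 ≤ l)
    (hsc : ∀ i kc q, i < I → l = kc + 4 + 8 * ν * (i + 1) → q = p + ν * i → 6 ≤ (Q + 1) * q ∧
      k ≤ M * (kc + 5) ∧ 1 ≤ 2 ^ ν * 2 ^ q * m (kc + 4) ∧
      2 * (2 : ℝ) ^ (β * ((T2.ff η (kc + 5) + 2 : ℕ) : ℝ)) + 5 ≤ yy m ν Q kc q * m (kc + 5))
    (hls : ∀ (kc mu m0 J : ℕ) (dir : Bool) (y : ℝ) (t : List Bool), k ≤ M * (kc + 5) → kc + 5 ≤ k + 5 →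
      t ∈ WL k → t ∉ DeepM η β (2 * M) k →
      HasRun dir kc (RFill kc mu m0 J (LongL kc mu (y + 2 * (2 : ℝ) ^ (β * ((T2.ff η (kc + 5) + 2 : ℕ) : ℝ)) + 4))) t →
      HasRun dir kc (RFill kc mu m0 J (BrR (2 ^ (kc + 4)) (2 ^ (kc + mu + 2)) ∩ T2.Sp (T2.ee η (kc + 5)) y)) t)
    (hE : E ⊆ WL k)
    (hend : 8 * ν * I ≤ l ∧ k ≤ 2 * M * (l - 8 * ν * I + 5) ∧
      (2 : ℝ) ^ (β * ((l - 8 * ν * I + 5 : ℕ) : ℝ)) ≤ 2 ^ (p + ν * I) * m (l - 8 * ν * I)) :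
    LB E l (2 ^ p * m l) ⊆
      (⋃ i ∈ range I, BadQ E m η Q ν J0 (l - 8 * ν * (i + 1) - 4) (p + ν * i)) ∪ DeepM η β (2 * M) k := by
  rintro t ⟨htE, x0, z0, hb0, hlen⟩
  by_contra hcon
  rw [Set.mem_union, not_or] at hcon
  obtain ⟨hnb', hnd⟩ := hcon
  have ht := hE htE
  have hP : ∀ i, i ≤ I → ∃ x z, Bx (l - 8 * ν * i + 2) t x z ∧ 2 ^ (p + ν * i) * m (l - 8 * ν * i) ≤ (z : ℝ) - x := by
    intro i
    induction i with
    | zero =>
      intro _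
      refine ⟨x0, z0, hb0, ?_⟩
      simpa using hlen
    | succ i ih =>
      intro hi
      obtain ⟨x, z, hb, hxz⟩ := ih (by omega)
      obtain ⟨kc, hkc⟩ : ∃ kc, kc = l - 8 * ν * (i + 1) - 4 := ⟨_, rfl⟩
      have hIi := hI i (by omega)
      have hk : l = kc + 4 + 8 * ν * (i + 1) := by omega
      have hki : l - 8 * ν * i = kc + 4 + 8 * ν := by
        have : 8 * ν * (i + 1) = 8 * ν * i + 8 * ν := by ring
        omega
      have hki1 : l - 8 * ν * (i + 1) = kc + 4 := by omega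
      obtain ⟨q, hq⟩ : ∃ q, q = p + ν * i := ⟨_, rfl⟩
      obtain ⟨a2, a3, a4, a6⟩ := hsc i kc q (by omega) hk hq
      rw [hki1]
      rw [hki, ← hq] at hxz
      rw [hki] at hb
      have hq1 : p + ν * (i + 1) = q + ν := by rw [hq]; ring
      rw [hq1]
      have hnot : t ∉ BadQ E m η Q ν J0 kc q := by
        intro hmem
        apply hnb'
        rw [Set.mem_iUnion₂]
        refine ⟨i, Finset.mem_range.2 (by omega), ?_⟩
        rw [← hkc, ← hq]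
        exact hmem
      have hnc : ∀ dir, ¬ HasRun dir kc (RBx kc (8 * ν + 1) ((Q + 1) * q)) t := by
        intro dir hr
        apply hnot
        left
        cases dir
        · exact Or.inl ⟨htE, hr⟩
        · exact Or.inr ⟨htE, hr⟩
      have hnf : ∀ dir, ¬ HasRun dir kc (RFill kc (8 * ν + 1 + 3) ((Q + 1) * q) (J0 + 1) (LongL kc (8 * ν + 1 + 3)
          (yy m ν Q kc q * m (kc + 5) + 2 * (2 : ℝ) ^ (β * ((T2.ff η (kc + 5) + 2 : ℕ) : ℝ)) + 4))) t := by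
        intro dir hr
        have hr' := hls kc (8 * ν + 1 + 3) ((Q + 1) * q) (J0 + 1) dir (yy m ν Q kc q * m (kc + 5)) t a3 (by
          have : 8 ≤ 8 * ν * (i + 1) := TI.a3 hν
          omega) ht hnd hr
        apply hnot
        right
        cases dir
        · exact Or.inl ⟨htE, hr'⟩
        · exact Or.inr ⟨htE, hr'⟩
      rw [show kc + 4 + 8 * ν + 2 = kc + 5 + (8 * ν + 1) by ring] at hb
      exact hstep (N := (Q + 1) * q) (q := q) (kc := kc) (y := yy m ν Q kc q)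
        (S2 := (2 : ℝ) ^ (β * ((T2.ff η (kc + 5) + 2 : ℕ) : ℝ))) ht.1 a2 hJ rfl (by positivity) a6 a4 hnc hnf
        x z hb hxz
  obtain ⟨x, z, hb, hxz⟩ := hP I le_rfl
  obtain ⟨b1, b2, b3⟩ := hend
  apply hnd
  refine ⟨ht, l - 8 * ν * I + 5, b2, by omega, Or.inr ⟨(t.drop x).take (z - x), ?_, ?_, ?_⟩⟩
  · exact (List.take_prefix _ _).isInfix.trans (List.drop_suffix _ _).isInfix
  · obtain ⟨l', hl'⟩ : ∃ l', l' = l - 8 * ν * I := ⟨_, rfl⟩
    rw [← hl'] at hb ⊢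
    have h3 : (t.drop x).take (z - x) ∈ WL (l' + 3 + 2) := by
      apply T2.infix_WL ht.1 hb.1 hb.2.1
      intro dir i j hi hi' hj hj'
      have := hb.2.2 dir i j hi hi' hj hj'
      unfold row
      have hp : (1 : ℤ) ≤ 2 ^ (l' + 2) := by exact_mod_cast Nat.one_le_two_pow
      rw [show l' + 3 = l' + 2 + 1 by ring, pow_succ]
      omega
    exact h3
  · have h4 : ((t.drop x).take (z - x)).length = z - x := by
      rw [List.length_take, List.length_drop]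
      have := hb.1
      have := hb.2.1
      omega
    rw [h4, Nat.cast_sub hb.1]
    exact b3.trans hxz

/-- the weight of the bad runs -/
lemma bad_gfQ {E : ι → ℕ → Set (List Bool)} {nu : ι → ℕ → ℝ≥0∞} {SR : ℕ → Set (List (List Bool)) → ℝ → Prop}
    {m : ℕ → ℝ} {η Ce C0 : ℝ} {Q ν J0 k kc J q : ℕ} {a : ι} (hCe : 0 ≤ Ce) (hC0 : 0 < C0) (hk : k = kc + J)
    (hrun : ∀ (dir : Bool) (R : Set (List (List Bool))) (δ : ℝ), 0 < δ → SR kc R δ →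
      gf {t | t ∈ E a (kc + J) ∧ HasRun dir kc R t} ≤ ENNReal.ofReal (Ce ^ J * δ) * nu a (kc + J))
    (hc : SR kc (RBx kc (8 * ν + 1) ((Q + 1) * q)) (C0 / 2 ^ ((Q + 1) * q)))
    (hf : SR kc (RFill kc (8 * ν + 1 + 3) ((Q + 1) * q) (J0 + 1)
      (BrR (2 ^ (kc + 4)) (2 ^ (kc + (8 * ν + 1 + 3) + 2)) ∩ T2.Sp (T2.ee η (kc + 5)) (yy m ν Q kc q * m (kc + 5))))
      (1 / 2 ^ ((Q + 1) * q))) :
    gf (BadQ (E a k) m η Q ν J0 kc q) ≤ ENNReal.ofReal (2 * (C0 + 1) * Ce ^ J / 2 ^ ((Q + 1) * q)) * nu a k := by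
  subst hk
  have h1 := fun dir => hrun dir _ _ (by positivity) hc
  have h2 := fun dir => hrun dir _ _ (by positivity) hf
  refine (gf_union_le _ _).trans ((add_le_add (gf_union_le _ _) (gf_union_le _ _)).trans
    ((add_le_add (add_le_add (h1 false) (h1 true)) (add_le_add (h2 false) (h2 true))).trans (le_of_eq ?_)))
  rw [← add_mul, ← add_mul, ← add_mul, ← ENNReal.ofReal_add (by positivity) (by positivity),
    ← ENNReal.ofReal_add (by positivity) (by positivity), ← ENNReal.ofReal_add (by positivity) (by positivity)]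
  congr 2
  ring

lemma a5Q {qe Q ν : ℕ} (h : 8 * qe ≤ Q) (hν : 1 ≤ ν) : qe * (8 * ν) + 1 ≤ (Q + 1) * ν := by
  have h1 : 8 * qe * ν ≤ Q * ν := Nat.mul_le_mul_right ν h
  have e : qe * (8 * ν) = 8 * qe * ν := by ring
  rw [e, add_mul, one_mul]
  omega

/-- **the tail of the lengths of the infixes, long infixes** -/
theorem tq_big {m : ℕ → ℝ} {E : ι → ℕ → Set (List Bool)} {nu : ι → ℕ → ℝ≥0∞}
    {SR : ℕ → Set (List (List Bool)) → ℝ → Prop} (hm : MLow m) (hu : MUp m) (hp : MPow m)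
    (hL : LongN m) (hB : TB m) (hsS : StepS) (hE : EnsQ E nu SR) : ∃ C : ℝ, 1 ≤ C ∧ ∃ Q2 : ℕ, ∀ Q : ℕ, Q2 ≤ Q →
    ∃ (A : ℝ) (p0 : ℕ), 1 ≤ A ∧ ∀ (x : ι) (k l p : ℕ), l ≤ k → p0 ≤ p →
      gf (LB (E x k) l (2 ^ p * m l)) ≤ ENNReal.ofReal (A / 2 ^ (p * Q) * C ^ (k - l)) * nu x k := by
  obtain ⟨c2, η, ε, hc2, hη, hη8, hε, Q1, hlong⟩ := hL
  obtain ⟨Ce, ke, hCe, hrun⟩ := hE.run
  obtain ⟨Kf, a0, a1, kfi, hKf, hfill⟩ := hE.fill
  obtain ⟨Cr, hCr, hcrude⟩ := hE.crude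
  obtain ⟨Cl, hCl, hlow⟩ := hE.low
  obtain ⟨Cm, hCm, hmup⟩ := mup_pow hu
  obtain ⟨qe, hqe⟩ := pow_unbounded_of_one_lt Ce (one_lt_two (α := ℝ))
  obtain ⟨kf, hkf⟩ := pow_unbounded_of_one_lt Kf (one_lt_two (α := ℝ))
  obtain ⟨qm, hqm⟩ := pow_unbounded_of_one_lt Cm (one_lt_two (α := ℝ))
  obtain ⟨ql, hql⟩ := pow_unbounded_of_one_lt Cl (one_lt_two (α := ℝ))
  obtain ⟨e2, he2⟩ : ∃ e2 : ℝ, e2 = min (ε / 8) (1 / 64) := ⟨_, rfl⟩
  have he20 : 0 < e2 := by rw [he2]; exact lt_min (by positivity) (by norm_num)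
  have he2ε : e2 ≤ ε / 8 := by rw [he2]; exact min_le_left _ _
  have he264 : e2 ≤ 1 / 64 := by rw [he2]; exact min_le_right _ _
  obtain ⟨e, he⟩ : ∃ e : ℝ, e = min (η / 3) (e2 / 4) := ⟨_, rfl⟩
  have he0 : 0 < e := by rw [he]; exact lt_min (by positivity) (by positivity)
  have heη : 3 * e ≤ η := by
    have : e ≤ η / 3 := by rw [he]; exact min_le_left _ _
    linarith
  have hee2 : 4 * e ≤ e2 := by
    have : e ≤ e2 / 4 := by rw [he]; exact min_le_right _ _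
    linarith
  obtain ⟨C, hC⟩ : ∃ C : ℝ, C = max Ce (2 * Cr ^ 2) := ⟨_, rfl⟩
  have hCCe : Ce ≤ C := by rw [hC]; exact le_max_left _ _
  have hCCr : 2 * Cr ^ 2 ≤ C := by rw [hC]; exact le_max_right _ _
  have hC1 : 1 ≤ C := hCe.trans hCCe
  refine ⟨C, hC1, max (max Q1 (8 * qe)) 1, fun Q hQ => ?_⟩
  have hQ1 : Q1 ≤ Q := ((le_max_left _ _).trans (le_max_left _ _)).trans hQ
  have hQe : 8 * qe ≤ Q := ((le_max_right _ _).trans (le_max_left _ _)).trans hQ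
  have hQ0 : 1 ≤ Q := (le_max_right _ _).trans hQ
  obtain ⟨a, ha⟩ := exists_nat_ge ((2 * (Q + 2) * (8 + kf) : ℝ) / c2)
  rw [div_le_iff₀ hc2, mul_comm _ c2] at ha
  obtain ⟨ν, hν, hJ⟩ := choose_nu (2 * a) (a0 + 7)
  obtain ⟨J0, hJ0⟩ : ∃ J0, J0 = 2 * a * (ν + 1) + 1 + a0 := ⟨_, rfl⟩
  have hJ' : (512 : ℝ) * (J0 + 6) ^ 2 ≤ 2 ^ ν := by
    rw [hJ0]
    push_cast at hJ ⊢
    refine le_trans (le_of_eq ?_) hJ
    ring
  obtain ⟨kr, mc, C0, hC0, hcrowd⟩ := hE.crowd (8 * ν + 1)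
  obtain ⟨r0, CQ, C4, c5, hCQ, hC4, hc5, hTB⟩ := tbk_of_tb hB Q
  obtain ⟨y0, b1, hlg⟩ := hlong Q hQ1 (8 * ν + 1) r0 CQ C4 c5 hCQ hC4 hc5
  obtain ⟨l0, hl0⟩ := hp e he0
  obtain ⟨l1, hl1⟩ := ff_num hη hη8 he0 heη
  obtain ⟨M, hM⟩ : ∃ M : ℕ, M = 2 * (6 * Q + 4) := ⟨_, rfl⟩
  obtain ⟨K1, hK1⟩ := longSpM (β := 4 / 3 + e) (M := M) hη hη8
  obtain ⟨K2, hK2⟩ := deepM (η := η) (β := 4 / 3 + e) (Q := ((3 * Q + 2 * ql + 1 : ℕ) : ℝ)) (M := 2 * M) hη hη8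
    (by linarith) (by positivity) (by omega)
  obtain ⟨c, hc⟩ : ∃ c : ℝ, c = 1 / 2 := ⟨_, rfl⟩
  have hc0 : 0 < c := by rw [hc]; positivity
  -- the scales
  have hm0 := hm.pos 0
  obtain ⟨Ka, hKa⟩ := lin_ge (50 / 3) he20
  obtain ⟨Kc, hKc⟩ := exp_ge (100 * 4 ^ 5 / m 0) one_pos
  obtain ⟨Kd, hKd⟩ := lin_ge ((qm : ℝ) * (8 * ν)) (show 0 < 3 * ε / 8 by positivity)
  obtain ⟨K0, hK0⟩ : ∃ K0, K0 = 2 * (ke + kr + b1 + l0 + l1 + kfi) + 64 * ν + 64 + K1 + K2 + Ka + Kc + Kd := ⟨_, rfl⟩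
  obtain ⟨pa, hpa⟩ := lin_exp (32 * ((Q : ℝ) + 1)) 160 hc0
  obtain ⟨pb, hpb⟩ := exp_ge y0 (show (0 : ℝ) < 1 / 2 by norm_num)
  obtain ⟨pd, hpd⟩ := exp_ge ((100 * 4 ^ (K0 + 5) + 1) / m 0) one_pos
  obtain ⟨p0, hp0⟩ : ∃ p0, p0 = pa + pb + pd + 6 + a1 + mc := ⟨_, rfl⟩
  obtain ⟨Cf, hCf⟩ : ∃ Cf : ℝ, Cf = 4 * (C0 + 1) * Ce ^ (8 * ν + 4) + 1 := ⟨_, rfl⟩
  obtain ⟨A, hA⟩ : ∃ A : ℝ, A = max Cr Cf := ⟨_, rfl⟩
  have hA1 : Cr ≤ A := by rw [hA]; exact le_max_left _ _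
  have hA2 : Cf ≤ A := by rw [hA]; exact le_max_right _ _
  have hCe0 : 0 ≤ Ce := by linarith
  refine ⟨A, p0, hCr.trans hA1, fun x k l p hlk hpp => ?_⟩
  have hpm : 100 * 4 ^ (K0 + 5) + 1 ≤ 2 ^ p * m 0 := by
    have h1 := hpd p (by omega)
    rw [one_mul, Real.rpow_natCast, div_le_iff₀ hm0] at h1
    exact h1
  rcases lt_or_ge (100 * 4 ^ (l + 5) : ℝ) (2 ^ p * m l) with hbig | hbig
  · -- no such words
    rw [LB_empty (hE.sub x k) hbig]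
    exact zero_le
  have hml : m 0 ≤ m l := mlow_mono hm (Nat.zero_le l)
  have hlK : K0 ≤ l := by
    by_contra hcon
    rw [not_le] at hcon
    have h1 : (100 : ℝ) * 4 ^ (l + 5) ≤ 100 * 4 ^ (K0 + 5) := by
      have : (4 : ℝ) ^ (l + 5) ≤ 4 ^ (K0 + 5) := pow_le_pow_right₀ (by norm_num) (by omega)
      linarith
    have h2 : 2 ^ p * m 0 ≤ 2 ^ p * m l := by gcongr
    linarith
  have hp3 : p ≤ 3 * l := by
    have h1 := hKc l (by omega)
    rw [one_mul, Real.rpow_natCast, div_le_iff₀ hm0] at h1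
    have h2 : 2 ^ p * m 0 ≤ 2 ^ p * m l := by gcongr
    have h3 : 2 ^ p * m 0 ≤ 2 ^ (3 * l) * m 0 := by
      calc 2 ^ p * m 0 ≤ 100 * 4 ^ (l + 5) := h2.trans hbig
        _ = 100 * 4 ^ 5 * 4 ^ l := by rw [pow_add]; ring
        _ ≤ 2 ^ l * m 0 * 4 ^ l := by gcongr
        _ = 2 ^ (3 * l) * m 0 := by
            have e4 : (4 : ℝ) ^ l = 2 ^ l * 2 ^ l := by rw [← mul_pow]; norm_num
            rw [e4, show 3 * l = l + l + l by ring, pow_add, pow_add]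
            ring
    have h4 : (2 : ℝ) ^ p ≤ 2 ^ (3 * l) := le_of_mul_le_mul_right h3 hm0
    exact (pow_le_pow_iff_right₀ (by norm_num)).1 h4
  rcases le_or_gt ((6 * Q + 4) * l) k with hkl | hkl
  · -- the crude range
    have h1 : LB (E x k) l (2 ^ p * m l) ⊆ E x k := fun t ht => ht.1
    refine (gf_mono h1).trans ((hcrude x k).trans (mul_le_mul_left (ENNReal.ofReal_le_ofReal ?_) _))
    refine (crude_num hCr hCCr hkl hlk hp3).trans ?_
    gcongr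
  have hlr : (0 : ℝ) ≤ l := Nat.cast_nonneg _
  -- the number of steps
  have hex : ∃ i : ℕ, e2 * l ≤ ((p + ν * i : ℕ) : ℝ) := by
    obtain ⟨i, hi⟩ := exists_nat_ge (e2 * l)
    refine ⟨i, hi.trans ?_⟩
    have : i ≤ p + ν * i := (Nat.le_mul_of_pos_left i hν).trans (Nat.le_add_left _ _)
    exact_mod_cast this
  classical
  obtain ⟨I, hI⟩ : ∃ I, I = Nat.find hex := ⟨_, rfl⟩
  have hI1 : e2 * l ≤ ((p + ν * I : ℕ) : ℝ) := by
    rw [hI]
    exact Nat.find_spec hex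
  have hI2 : ∀ i, i < I → ((p + ν * i : ℕ) : ℝ) < e2 * l := by
    intro i hi
    rw [hI] at hi
    have := Nat.find_min hex hi
    rwa [not_le] at this
  have hI4 : ∀ i, i < I → 4 * (8 * ν * (i + 1)) ≤ l := by
    intro i hi
    exact TI.a1 hlr he264 (hI2 i hi) (by exact_mod_cast (by omega : 64 * ν ≤ l))
  have hkc : ∀ i kc : ℕ, i < I → l = kc + 4 + 8 * ν * (i + 1) → l ≤ 2 * kc := by
    intro i kc hi hk
    have := hI4 i hi
    omega
  have hkM : ∀ b : ℕ, l ≤ 2 * b → k ≤ M * b := by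
    intro b hb
    rw [hM]
    calc k ≤ (6 * Q + 4) * l := hkl.le
      _ ≤ (6 * Q + 4) * (2 * b) := Nat.mul_le_mul_left _ hb
      _ = _ := by ring
  -- the numbers of one step
  have hnum : ∀ i kc q : ℕ, i < I → l = kc + 4 + 8 * ν * (i + 1) → q = p + ν * i →
      (2 : ℝ) ^ ((1 - c) * q) ≤ yy m ν Q kc q ∧ yy m ν Q kc q ≤ 2 ^ (ε * ((kc + 5 : ℕ) : ℝ)) ∧
      1 ≤ 2 ^ ν * 2 ^ q * m (kc + 4) ∧
      2 * (2 : ℝ) ^ ((4 / 3 + e) * ((T2.ff η (kc + 5) + 2 : ℕ) : ℝ)) + 5 ≤ yy m ν Q kc q * m (kc + 5) := by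
    intro i kc q hi hk hq
    have hk2 := hkc i kc hi hk
    have hqp : p ≤ q := by rw [hq]; exact Nat.le_add_right _ _
    have hMb := hm.pos (kc + 5)
    have hM0 := hm.pos (kc + 4 + 8 * ν)
    have hMM : m (kc + 5) ≤ m (kc + 4 + 8 * ν) := mlow_mono hm (by omega)
    have hpa' := hpa q (by omega)
    have hq32 : 32 * ((Q + 1 : ℝ) * q + 5) ≤ (2 : ℝ) ^ (c * q) := by linarith
    have hcq : (2 : ℝ) ^ (c * q) ≤ 2 ^ q := by
      rw [← Real.rpow_natCast]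
      apply Real.rpow_le_rpow_of_exponent_le (by norm_num)
      exact mul_le_of_le_one_left (Nat.cast_nonneg _) (by rw [hc]; norm_num)
    have hN0 : (0 : ℝ) < 32 * ((((Q + 1) * q : ℕ) : ℝ) + 5) := by positivity
    have hyM : yy m ν Q kc q * m (kc + 5) = 2 ^ q * m (kc + 4 + 8 * ν) / (32 * ((((Q + 1) * q : ℕ) : ℝ) + 5)) := by
      unfold yy
      field_simp
    refine ⟨?_, ?_, ?_, ?_⟩
    · exact y_big (N := (Q + 1) * q) (Q := Q) (q := q) (P := 2 ^ q) (M0 := m (kc + 4 + 8 * ν)) (Mb := m (kc + 5)) rfl rfl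
        hMb hMM rfl hq32
    · have h1 : m (kc + 4 + 8 * ν) ≤ Cm ^ (8 * ν) * m (kc + 5) := by
        have h2 := hmup (kc + 5) (8 * ν - 1)
        rw [show kc + 5 + (8 * ν - 1) = kc + 4 + 8 * ν by omega] at h2
        refine h2.trans ?_
        have h3 : Cm ^ (8 * ν - 1) ≤ Cm ^ (8 * ν) := pow_le_pow_right₀ hCm (by omega)
        gcongr
      refine (y_up (N := (Q + 1) * q) (P := 2 ^ q) (M0 := m (kc + 4 + 8 * ν)) (Mb := m (kc + 5)) (C := Cm ^ (8 * ν))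
        (by positivity) hMb h1 (by positivity) rfl).trans ?_
      have h4 : Cm ^ (8 * ν) ≤ (2 : ℝ) ^ ((qm : ℝ) * (8 * ν)) := by
        calc Cm ^ (8 * ν) ≤ (2 ^ qm) ^ (8 * ν) := pow_le_pow_left₀ (by linarith) hqm.le _
          _ = _ := by
              rw [← pow_mul, ← Real.rpow_natCast]
              congr 1
              push_cast
              ring
      have h5 : (2 : ℝ) ^ q ≤ (2 : ℝ) ^ (e2 * l) := by
        rw [← Real.rpow_natCast]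
        apply Real.rpow_le_rpow_of_exponent_le (by norm_num)
        rw [hq]
        exact (hI2 i hi).le
      calc (2 : ℝ) ^ q * Cm ^ (8 * ν) ≤ (2 : ℝ) ^ (e2 * l) * (2 : ℝ) ^ ((qm : ℝ) * (8 * ν)) := by gcongr
        _ = (2 : ℝ) ^ (e2 * l + (qm : ℝ) * (8 * ν)) := by rw [Real.rpow_add (by norm_num)]
        _ ≤ _ := by
            apply Real.rpow_le_rpow_of_exponent_le (by norm_num)
            exact TI.a2 he2ε hε (hKd l (by omega)) (by exact_mod_cast hk2)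
    · have h1 : m 0 ≤ m (kc + 4) := mlow_mono hm (Nat.zero_le _)
      have h2 : (2 : ℝ) ^ p ≤ 2 ^ q := pow_le_pow_right₀ (by norm_num) hqp
      have h3 : (1 : ℝ) ≤ 2 ^ ν := one_le_pow₀ (by norm_num)
      have h4 : (1 : ℝ) ≤ 2 ^ p * m 0 := by
        have : (0 : ℝ) ≤ 100 * 4 ^ (K0 + 5) := by positivity
        linarith
      calc (1 : ℝ) ≤ 1 * (2 ^ p * m 0) := by linarith
        _ ≤ 2 ^ ν * (2 ^ q * m (kc + 4)) := by gcongr
        _ = _ := by ring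
    · refine (hl1 (kc + 4 + 8 * ν) (kc + 5) (by omega) (by omega)).trans ((hl0 (kc + 4 + 8 * ν) (by omega)).trans ?_)
      rw [hyM, le_div_iff₀ hN0]
      have h1 : 32 * ((((Q + 1) * q : ℕ) : ℝ) + 5) ≤ 2 ^ q := by
        refine le_trans (le_of_eq ?_) (hq32.trans hcq)
        push_cast
        ring
      calc m (kc + 4 + 8 * ν) * (32 * ((((Q + 1) * q : ℕ) : ℝ) + 5)) ≤ m (kc + 4 + 8 * ν) * 2 ^ q := by gcongr
        _ = _ := by ring
  -- the weights of the bad runs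
  have hbad : ∀ i, i < I → gf (BadQ (E x k) m η Q ν J0 (l - 8 * ν * (i + 1) - 4) (p + ν * i)) ≤
      ENNReal.ofReal (2 * (C0 + 1) * Ce ^ (8 * ν + 4) * C ^ (k - l) / 2 ^ ((Q + 1) * p) *
        (Ce ^ (8 * ν) / 2 ^ ((Q + 1) * ν)) ^ i) * nu x k := by
    intro i hi
    obtain ⟨kc, hkce⟩ : ∃ kc, kc = l - 8 * ν * (i + 1) - 4 := ⟨_, rfl⟩
    obtain ⟨q, hq⟩ : ∃ q, q = p + ν * i := ⟨_, rfl⟩
    have hIi := hI4 i hi
    have hk : l = kc + 4 + 8 * ν * (i + 1) := by omega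
    have hk2 := hkc i kc hi hk
    have hqp : p ≤ q := by rw [hq]; exact Nat.le_add_right _ _
    rw [← hkce, ← hq]
    obtain ⟨n1, n2, n3, n5⟩ := hnum i kc q hi hk hq
    have hyhalf : (2 : ℝ) ^ (1 / 2 * (q : ℝ)) ≤ yy m ν Q kc q := by
      refine le_trans (le_of_eq ?_) n1
      rw [hc]
      norm_num
    have hy0 : y0 ≤ yy m ν Q kc q := (hpb q (by omega)).trans hyhalf
    have hypos : 0 < yy m ν Q kc q := lt_of_lt_of_le (by positivity) hyhalf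
    have hy1 : 1 ≤ yy m ν Q kc q := (Real.one_le_rpow (by norm_num) (by positivity)).trans hyhalf
    have hqQ : q ≤ (Q + 1) * q := Nat.le_mul_of_pos_left q (Nat.succ_pos Q)
    have hcr := hcrowd kc ((Q + 1) * q) (by omega) (by omega)
    have hSD := hlg (kc + 5) (by omega) 1 (yy m ν Q kc q) one_pos hy0 n2 (Real.one_le_rpow hy1 (by positivity))
      (hTB (kc + 5))
    have hSD' : SmD DmJ kc (BrR (2 ^ (kc + 4)) (2 ^ (kc + (8 * ν + 1 + 3) + 2)) ∩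
        T2.Sp (T2.ee η (kc + 5)) (yy m ν Q kc q * m (kc + 5))) (yy m ν Q kc q ^ (-c2)) := by
      refine SmD_anti hSD ?_
      rintro g ⟨⟨h, a1, a2, a3⟩, hg⟩
      refine ⟨⟨h, a1, a2.trans ?_, a3⟩, hg⟩
      exact Nat.pow_le_pow_right (by norm_num) (by omega)
    have hfl := hfill kc (8 * ν + 1 + 3) ((Q + 1) * q) (a * (ν + 1) + 1) _ _ (by omega) (by positivity) hSD'
    have hfl' := hE.mono _ _ _ _ hfl ((fill_num' hKf hkf.le hc2 ha (by omega) hyhalf).trans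
      (one_div_le_one_div_of_le (by positivity) (pow_le_pow_left₀ (by norm_num) (by norm_num) _) :
        (1 : ℝ) / 4 ^ ((Q + 1) * q) ≤ 1 / 2 ^ ((Q + 1) * q)))
    rw [show 2 * (a * (ν + 1) + 1) + a0 = J0 + 1 by rw [hJ0]; ring] at hfl'
    have h9 := bad_gfQ (E := E) (nu := nu) (SR := SR) (m := m) (η := η) (Ce := Ce) (C0 := C0) (Q := Q) (ν := ν)
      (J0 := J0) (k := k) (kc := kc) (J := (k - l) + (4 + 8 * ν * (i + 1))) (q := q) (a := x) hCe0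
      hC0 (by omega) (fun dir R δ hδ hR => hrun x dir kc _ R δ (by omega) (by
        have := TI.a3 (i := i) hν
        omega) hδ hR) hcr hfl'
    refine h9.trans (mul_le_mul_left (ENNReal.ofReal_le_ofReal ?_) _)
    have e1 : Ce ^ ((k - l) + (4 + 8 * ν * (i + 1))) ≤ C ^ (k - l) * (Ce ^ (8 * ν + 4) * (Ce ^ (8 * ν)) ^ i) := by
      rw [← pow_mul, ← pow_add, pow_add Ce (k - l)]
      have : Ce ^ (4 + 8 * ν * (i + 1)) = Ce ^ (8 * ν + 4 + 8 * ν * i) := by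
        congr 1
        ring
      rw [this]
      gcongr
    have e2' : (2 : ℝ) ^ ((Q + 1) * q) = 2 ^ ((Q + 1) * p) * (2 ^ ((Q + 1) * ν)) ^ i := by
      rw [← pow_mul, ← pow_add, hq]
      congr 1
      ring
    rw [e2', div_pow]
    calc 2 * (C0 + 1) * Ce ^ ((k - l) + (4 + 8 * ν * (i + 1))) / (2 ^ ((Q + 1) * p) * (2 ^ ((Q + 1) * ν)) ^ i)
        ≤ 2 * (C0 + 1) * (C ^ (k - l) * (Ce ^ (8 * ν + 4) * (Ce ^ (8 * ν)) ^ i)) /
          (2 ^ ((Q + 1) * p) * (2 ^ ((Q + 1) * ν)) ^ i) := by gcongr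
      _ = _ := by field_simp
  -- the deep events
  have hdeep : gf (DeepM η (4 / 3 + e) (2 * M) k) ≤ ENNReal.ofReal (1 / 2 ^ (p * Q)) * nu x k := by
    have h1 := hK2 k (by omega)
    refine h1.trans (le_trans ?_ (mul_le_mul_right (hlow x k) _))
    rw [← ENNReal.ofReal_mul (show (0 : ℝ) ≤ 1 / 2 ^ (p * Q) by positivity)]
    refine ENNReal.ofReal_le_ofReal ?_
    have h3 : (2 : ℝ) ^ (-(((3 * Q + 2 * ql + 1 : ℕ) : ℝ) * k)) = 1 / 2 ^ ((3 * Q + 2 * ql + 1) * k) := by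
      rw [Real.rpow_neg (by norm_num), one_div]
      congr 1
      rw [← Real.rpow_natCast]
      congr 1
      push_cast
      ring
    have h4 : Cl ^ (k + 1) ≤ 2 ^ (ql * (k + 1)) := by
      rw [pow_mul]
      exact pow_le_pow_left₀ (by linarith) hql.le _
    have h5 : (2 : ℝ) ^ (p * Q) * Cl ^ (k + 1) ≤ 2 ^ ((3 * Q + 2 * ql + 1) * k) := by
      calc (2 : ℝ) ^ (p * Q) * Cl ^ (k + 1) ≤ 2 ^ (p * Q) * 2 ^ (ql * (k + 1)) := by gcongr
        _ = 2 ^ (p * Q + ql * (k + 1)) := by rw [pow_add]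
        _ ≤ _ := by
            refine pow_le_pow_right₀ (by norm_num) ?_
            have h6 : p * Q ≤ 3 * k * Q := Nat.mul_le_mul_right _ (hp3.trans (Nat.mul_le_mul_left 3 hlk))
            have h7 : ql * (k + 1) ≤ 2 * ql * k := by
              have : 1 ≤ k := by omega
              calc ql * (k + 1) ≤ ql * (2 * k) := Nat.mul_le_mul_left _ (by omega)
                _ = _ := by ring
            calc p * Q + ql * (k + 1) ≤ 3 * k * Q + 2 * ql * k := add_le_add h6 h7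
              _ ≤ 3 * k * Q + 2 * ql * k + k := Nat.le_add_right _ _
              _ = _ := by ring
    rw [h3, one_div_mul_one_div]
    exact one_div_le_one_div_of_le (by positivity) h5
  -- the covering
  have hcov := coverQ (m := m) (E := E x k) (η := η) (β := 4 / 3 + e) (Q := Q) (ν := ν) (J0 := J0)
    (k := k) (l := l) (p := p) (I := I) (M := M) (fun {_ _ _ _ _} {_ _} {_} => hsS hm) hν hJ' hlk
    (fun i hi => by have := hI4 i hi; omega)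
    (fun i kc q hi hk hq => by
      obtain ⟨n1, n2, n3, n5⟩ := hnum i kc q hi hk hq
      have hk2 := hkc i kc hi hk
      have hqp : p ≤ q := by rw [hq]; exact Nat.le_add_right _ _
      have hqQ : q ≤ (Q + 1) * q := Nat.le_mul_of_pos_left q (Nat.succ_pos Q)
      exact ⟨by omega, hkM _ (by omega), n3, n5⟩)
    (fun kc mu m0 J dir y t b1' b2 b4 b5 b6 => hK1 k kc mu m0 J dir y t (by omega) b1' b2 b4 b5 b6)
    (hE.sub x k)
    (by
      have h1 : 4 * (8 * ν * I) ≤ l := by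
        rcases Nat.eq_zero_or_pos I with h0 | h0
        · rw [h0]
          omega
        · have h2 := hI4 (I - 1) (by omega)
          rwa [show I - 1 + 1 = I by omega] at h2
      refine ⟨by omega, ?_, ?_⟩
      · refine (hkM (l - 8 * ν * I + 5) (by omega)).trans ?_
        exact Nat.mul_le_mul_right _ (Nat.le_mul_of_pos_left M (show 0 < 2 by norm_num))
      · refine end_num he0 (by linarith) hee2 (by omega) (hKa l (by omega)) ?_ (hl0 _ (by omega))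
        refine le_trans (Real.rpow_le_rpow_of_exponent_le (by norm_num) hI1) (le_of_eq ?_)
        rw [Real.rpow_natCast])
  -- the sum
  refine (gf_mono hcov).trans ((gf_union_le _ _).trans ((add_le_add (gf_bU _ _) hdeep).trans ?_))
  have hx : Ce ^ (8 * ν) / 2 ^ ((Q + 1) * ν) ≤ 1 / 2 := by
    rw [div_le_div_iff₀ (by positivity) (by norm_num), one_mul]
    have h1 : Ce ^ (8 * ν) ≤ 2 ^ (qe * (8 * ν)) := by
      rw [pow_mul 2]
      exact pow_le_pow_left₀ hCe0 hqe.le _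
    calc Ce ^ (8 * ν) * 2 ≤ 2 ^ (qe * (8 * ν)) * 2 := by gcongr
      _ = 2 ^ (qe * (8 * ν) + 1) := by rw [pow_succ]
      _ ≤ _ := pow_le_pow_right₀ (by norm_num) (a5Q hQe hν)
  have hsum : ∑ i ∈ range I, gf (BadQ (E x k) m η Q ν J0 (l - 8 * ν * (i + 1) - 4) (p + ν * i)) ≤
      ENNReal.ofReal (2 * (2 * (C0 + 1) * Ce ^ (8 * ν + 4) * C ^ (k - l) / 2 ^ ((Q + 1) * p))) * nu x k := by
    refine (Finset.sum_le_sum fun i hi => hbad i (Finset.mem_range.1 hi)).trans ?_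
    rw [← Finset.sum_mul, ← ENNReal.ofReal_sum_of_nonneg (fun i _ => by positivity)]
    exact mul_le_mul_left (ENNReal.ofReal_le_ofReal (geo_le (by positivity) (by positivity) hx I)) _
  refine (add_le_add hsum le_rfl).trans ?_
  rw [← add_mul, ← ENNReal.ofReal_add (by positivity) (by positivity)]
  refine mul_le_mul_left (ENNReal.ofReal_le_ofReal ?_) _
  have h1 : (2 : ℝ) ^ (p * Q) ≤ 2 ^ ((Q + 1) * p) := by
    refine pow_le_pow_right₀ (by norm_num) ?_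
    calc p * Q = Q * p := mul_comm _ _
      _ ≤ (Q + 1) * p := Nat.mul_le_mul_right _ (Nat.le_succ _)
  have h2 : 1 ≤ C ^ (k - l) := one_le_pow₀ hC1
  calc 2 * (2 * (C0 + 1) * Ce ^ (8 * ν + 4) * C ^ (k - l) / 2 ^ ((Q + 1) * p)) + 1 / 2 ^ (p * Q)
      ≤ 2 * (2 * (C0 + 1) * Ce ^ (8 * ν + 4) * C ^ (k - l) / 2 ^ (p * Q)) + C ^ (k - l) / 2 ^ (p * Q) := by gcongr
    _ = Cf / 2 ^ (p * Q) * C ^ (k - l) := by
        rw [hCf]
        field_simp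
        ring
    _ ≤ A / 2 ^ (p * Q) * C ^ (k - l) := by gcongr

/-- the infixes with at least m l letters -/
theorem tq_small {m : ℕ → ℝ} {E : ι → ℕ → Set (List Bool)} {nu : ι → ℕ → ℝ≥0∞}
    {SR : ℕ → Set (List (List Bool)) → ℝ → Prop} (hm : MLow m) (hstep : StepB) (hE : EnsQ E nu SR) {C A1 : ℝ} {p0 Q : ℕ}
    (hC : 1 ≤ C) (hA1 : 1 ≤ A1)
    (h : ∀ (x : ι) (k l p : ℕ), l ≤ k → p0 ≤ p →
      gf (LB (E x k) l (2 ^ p * m l)) ≤ ENNReal.ofReal (A1 / 2 ^ (p * Q) * C ^ (k - l)) * nu x k)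
    (hrC : ∃ ke : ℕ, ∀ (a : ι) (dir : Bool) (kc J : ℕ) (R : Set (List (List Bool))) (δ : ℝ), ke ≤ kc →
      6 ≤ J → 0 < δ → SR kc R δ → gf {t | t ∈ E a (kc + J) ∧ HasRun dir kc R t} ≤ ENNReal.ofReal (C ^ J * δ) * nu a (kc + J))
    (hcC : ∀ (a : ι) (K : ℕ), gf (E a K) ≤ ENNReal.ofReal (C ^ (K + 1)) * nu a K) :
    ∃ A2 : ℝ, 1 ≤ A2 ∧ ∀ (x : ι) (k l : ℕ), l ≤ k →
      gf (LB (E x k) l (m l)) ≤ ENNReal.ofReal (A2 * C ^ (k - l)) * nu x k := by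
  obtain ⟨ke, hrun⟩ := hrC
  obtain ⟨Kf, a0, a1, kfi, hKf, hfill⟩ := hE.fill
  obtain ⟨Kb, hKb, hbox⟩ := smD_boxT
  obtain ⟨ν, hν⟩ : ∃ ν, ν = a0 + 1 + 6 + 9 + p0 := ⟨_, rfl⟩
  obtain ⟨kr, mc, C0, hC0, hcrowd⟩ := hE.crowd (8 * ν + 1)
  obtain ⟨m0, hm0⟩ : ∃ m0, m0 = mc + 6 := ⟨_, rfl⟩
  have hmp := hm.pos 0
  obtain ⟨La, hLa⟩ := exp_ge (8 * ((m0 : ℝ) + 5) / m 0 + 1) one_pos
  obtain ⟨Lb, hLb⟩ := exp_ge (1 / m 0) one_pos
  obtain ⟨L1, hL1⟩ : ∃ L1, L1 = La + Lb + ke + kr + kfi + 8 * ν + 4 := ⟨_, rfl⟩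
  have hmge : ∀ l : ℕ, (2 : ℝ) ^ l * m 0 ≤ m l := by
    intro l
    have h1 := hm.low 0 l
    rw [zero_add] at h1
    refine le_trans ?_ h1
    refine mul_le_mul_of_nonneg_right ?_ hmp.le
    rw [← Real.rpow_natCast]
    apply Real.rpow_le_rpow_of_exponent_le (by norm_num)
    have : (0 : ℝ) ≤ l := Nat.cast_nonneg _
    linarith
  obtain ⟨F, hF⟩ : ∃ F : ℝ, F = (Kf * 2 ^ (8 * ν + 1 + 3)) ^ (m0 + a1) * (Kb * 2 ^ (8 * ν + 1 + 3)) ^ 1 := ⟨_, rfl⟩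
  have hF0 : 0 < F := by rw [hF]; positivity
  obtain ⟨G, hG⟩ : ∃ G : ℝ, G = 2 * (C0 / 2 ^ m0 + F) * C ^ (8 * ν + 4) := ⟨_, rfl⟩
  have hG0 : 0 ≤ G := by rw [hG]; positivity
  refine ⟨G + A1 * C ^ (8 * ν) + C ^ (L1 + 1), ?_, fun x k l hlk => ?_⟩
  · have b1 : 1 ≤ C ^ (L1 + 1) := one_le_pow₀ hC
    have b2 : 0 ≤ A1 * C ^ (8 * ν) := by positivity
    linarith
  rcases Nat.lt_or_ge l L1 with hl | hl
  · -- small scales
    have h1 : LB (E x k) l (m l) ⊆ E x k := fun t ht => ht.1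
    refine (gf_mono h1).trans ((hcC x k).trans (mul_le_mul_left (ENNReal.ofReal_le_ofReal ?_) _))
    have b2 : 0 ≤ A1 * C ^ (8 * ν) := by positivity
    calc C ^ (k + 1) = C ^ (l + 1) * C ^ (k - l) := by rw [← pow_add]; congr 1; omega
      _ ≤ C ^ (L1 + 1) * C ^ (k - l) := by
          have := pow_le_pow_right₀ hC (show l + 1 ≤ L1 + 1 by omega)
          gcongr
      _ ≤ _ := by
          have : 0 ≤ C ^ (k - l) := by positivity
          nlinarith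
  obtain ⟨kc, hkc⟩ : ∃ kc, l = kc + 4 + 8 * ν := ⟨l - 4 - 8 * ν, by omega⟩
  -- the covering
  have hS : SmD DmJ kc (LongL kc (8 * ν + 1 + 3) 0) (Kb * 2 ^ (8 * ν + 1 + 3)) :=
    SmD_anti (hbox kc (8 * ν + 1 + 3)) fun g hg => hg.1
  have hfl := hfill kc (8 * ν + 1 + 3) m0 1 _ _ (by omega) (by positivity) hS
  rw [← hF, show 2 * 1 + a0 = a0 + 1 + 1 by ring] at hfl
  have hcr := hcrowd kc m0 (by omega) (by omega)
  have hM1 : 2 ^ (10 * ν) * m (kc + 4) ≤ m l := by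
    rw [hkc]
    refine le_trans (le_of_eq ?_) (hm.low (kc + 4) (8 * ν))
    rw [← Real.rpow_natCast]
    congr 2
    push_cast
    ring
  have hcov : LB (E x k) l (m l) ⊆
      (({t | t ∈ E x k ∧ HasRun false kc (RBx kc (8 * ν + 1) m0) t} ∪
        {t | t ∈ E x k ∧ HasRun true kc (RBx kc (8 * ν + 1) m0) t}) ∪
      ({t | t ∈ E x k ∧ HasRun false kc (RFill kc (8 * ν + 1 + 3) m0 (a0 + 1 + 1) (LongL kc (8 * ν + 1 + 3) 0)) t} ∪
        {t | t ∈ E x k ∧ HasRun true kc (RFill kc (8 * ν + 1 + 3) m0 (a0 + 1 + 1) (LongL kc (8 * ν + 1 + 3) 0)) t})) ∪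
      LB (E x k) (kc + 4) (2 ^ p0 * m (kc + 4)) := by
    rintro t ⟨htE, u, z, hb, hlen⟩
    by_contra hcon
    rw [Set.mem_union, not_or, Set.mem_union, not_or] at hcon
    obtain ⟨⟨hn1, hn2⟩, hn3⟩ := hcon
    have hnc : ∀ dir, ¬ HasRun dir kc (RBx kc (8 * ν + 1) m0) t := by
      intro dir hr
      apply hn1
      cases dir
      · exact Or.inl ⟨htE, hr⟩
      · exact Or.inr ⟨htE, hr⟩
    have hnf : ∀ dir, ¬ HasRun dir kc (RFill kc (8 * ν + 1 + 3) m0 (a0 + 1 + 1) (LongL kc (8 * ν + 1 + 3) 0)) t := by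
      intro dir hr
      apply hn2
      cases dir
      · exact Or.inl ⟨htE, hr⟩
      · exact Or.inr ⟨htE, hr⟩
    have hx1 : 1 ≤ 2 ^ p0 * m (kc + 4) := by
      have b1 := hLb (kc + 4) (by omega)
      rw [one_mul, Real.rpow_natCast, div_le_iff₀ hmp] at b1
      have b2 := hmge (kc + 4)
      have b3 : (1 : ℝ) ≤ 2 ^ p0 := one_le_pow₀ (by norm_num)
      nlinarith
    have hx2 : 8 * ((m0 : ℝ) + 5) < m l := by
      have b1 := hLa l (by omega)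
      rw [one_mul, Real.rpow_natCast] at b1
      have b2 : 8 * ((m0 : ℝ) + 5) / m 0 < 2 ^ l := by linarith
      rw [div_lt_iff₀ hmp] at b2
      exact b2.trans_le (hmge l)
    have h5 := hstep kc (8 * ν + 1) m0 (a0 + 1) u z 0 (2 ^ p0 * m (kc + 4)) t (hE.sub x k htE).1 (by omega)
      le_rfl (by linarith) hnc hnf (fun x' z' hb' => by
        by_contra hc
        rw [not_le] at hc
        exact hn3 ⟨htE, x', z', hb', hc.le⟩) (by
        rw [hkc] at hb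
        rwa [show kc + 4 + 8 * ν + 2 = kc + 5 + (8 * ν + 1) by ring] at hb)
    have h6 := first_num (m0 := m0) hν.ge hM1 hx1 hx2
    linarith
  obtain ⟨J, hJ⟩ : ∃ J, k = kc + J := ⟨k - kc, by omega⟩
  have h1 := fun dir => hrun x dir kc J _ _ (by omega) (by omega) (by positivity) hcr
  have h2 := fun dir => hrun x dir kc J _ _ (by omega) (by omega) hF0 hfl
  rw [← hJ] at h1 h2
  have h3 := h x k (kc + 4) p0 (by omega) le_rfl
  refine (gf_mono hcov).trans ((gf_union_le _ _).trans ((add_le_add ((gf_union_le _ _).trans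
    (add_le_add (gf_union_le _ _) (gf_union_le _ _))) le_rfl).trans ((add_le_add (add_le_add (add_le_add (h1 false) (h1 true))
      (add_le_add (h2 false) (h2 true))) h3).trans ?_)))
  rw [← add_mul, ← add_mul, ← add_mul, ← add_mul, ← ENNReal.ofReal_add (by positivity) (by positivity),
    ← ENNReal.ofReal_add (by positivity) (by positivity), ← ENNReal.ofReal_add (by positivity) (by positivity),
    ← ENNReal.ofReal_add (by positivity) (by positivity)]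
  refine mul_le_mul_left (ENNReal.ofReal_le_ofReal ?_) _
  have e1 : C ^ J = C ^ (8 * ν + 4) * C ^ (k - l) := by rw [← pow_add]; congr 1; omega
  have e2 : C ^ (k - (kc + 4)) = C ^ (8 * ν) * C ^ (k - l) := by rw [← pow_add]; congr 1; omega
  have e3 : A1 / 2 ^ (p0 * Q) ≤ A1 := div_le_self (by linarith) (one_le_pow₀ (by norm_num))
  rw [e1, e2, hG]
  have b1 : 0 ≤ C ^ (k - l) := by positivity
  have b2 : 0 ≤ C ^ (L1 + 1) := by positivity
  calc C ^ (8 * ν + 4) * C ^ (k - l) * (C0 / 2 ^ m0) + C ^ (8 * ν + 4) * C ^ (k - l) * (C0 / 2 ^ m0) +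
        (C ^ (8 * ν + 4) * C ^ (k - l) * F + C ^ (8 * ν + 4) * C ^ (k - l) * F) +
        A1 / 2 ^ (p0 * Q) * (C ^ (8 * ν) * C ^ (k - l))
      ≤ C ^ (8 * ν + 4) * C ^ (k - l) * (C0 / 2 ^ m0) + C ^ (8 * ν + 4) * C ^ (k - l) * (C0 / 2 ^ m0) +
        (C ^ (8 * ν + 4) * C ^ (k - l) * F + C ^ (8 * ν + 4) * C ^ (k - l) * F) +
        A1 * (C ^ (8 * ν) * C ^ (k - l)) := by gcongr
    _ = (2 * (C0 / 2 ^ m0 + F) * C ^ (8 * ν + 4) + A1 * C ^ (8 * ν)) * C ^ (k - l) := by ring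
    _ ≤ _ := by
        refine mul_le_mul_of_nonneg_right ?_ b1
        linarith

end TQ

open TQ TIx TI in
/-- **the tail of the lengths of the infixes at every scale** -/
theorem infix_tailQ {m : ℕ → ℝ} (hm : MLow m) (hu : MUp m) (hp : MPow m)
    (hL : LongN m) (hB : TB m) (hsB : StepB) (hsS : StepS) : TailQ m := by
  intro ι E nu SR hE
  obtain ⟨C1, hC1, Q2, hbig⟩ := tq_big hm hu hp hL hB hsS hE
  obtain ⟨Ce, ke, hCe, hrun⟩ := hE.run
  obtain ⟨Cr, hCr, hcrude⟩ := hE.crude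
  obtain ⟨C, hC⟩ : ∃ C, C = max C1 (max Ce Cr) := ⟨_, rfl⟩
  have hCC1 : C1 ≤ C := by rw [hC]; exact le_max_left _ _
  have hCCe : Ce ≤ C := by rw [hC]; exact (le_max_left _ _).trans (le_max_right _ _)
  have hCCr : Cr ≤ C := by rw [hC]; exact (le_max_right _ _).trans (le_max_right _ _)
  have hC0 : 1 ≤ C := hC1.trans hCC1
  refine ⟨C, hC0, fun Q0 => ?_⟩
  obtain ⟨Q, hQ⟩ : ∃ Q, Q = max Q0 Q2 := ⟨_, rfl⟩
  have hQ0 : Q0 ≤ Q := by rw [hQ]; exact le_max_left _ _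
  obtain ⟨A1, p0, hA1, h1⟩ := hbig Q (by rw [hQ]; exact le_max_right _ _)
  have h1' : ∀ (x : ι) (k l p : ℕ), l ≤ k → p0 ≤ p →
      gf (LB (E x k) l (2 ^ p * m l)) ≤ ENNReal.ofReal (A1 / 2 ^ (p * Q) * C ^ (k - l)) * nu x k := by
    intro x k l p hlk hpp
    refine (h1 x k l p hlk hpp).trans (mul_le_mul_left (ENNReal.ofReal_le_ofReal ?_) _)
    gcongr
  obtain ⟨A2, hA2, h2⟩ := tq_small hm hsB hE hC0 hA1 h1' ⟨ke, fun a dir kc J R δ b1 b2 b3 b4 => by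
      refine (hrun a dir kc J R δ b1 b2 b3 b4).trans (mul_le_mul_left (ENNReal.ofReal_le_ofReal ?_) _)
      gcongr⟩ (fun a K => by
      refine (hcrude a K).trans (mul_le_mul_left (ENNReal.ofReal_le_ofReal ?_) _)
      gcongr)
  refine ⟨A1 * 2 ^ Q + A2 * 2 ^ (p0 * Q), ?_, fun x K l lam hlK hlam => ?_⟩
  · have b1 : (1 : ℝ) ≤ 2 ^ Q := one_le_pow₀ (by norm_num)
    have b2 : 0 ≤ A2 * 2 ^ (p0 * Q) := by positivity
    nlinarith
  have hml := hm.pos l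
  have hCk : 0 ≤ C ^ (K - l) := by positivity
  have hlQ : 0 < lam ^ Q := by positivity
  have hfin : ∀ B : ℝ, 0 ≤ B → B ≤ A1 * 2 ^ Q + A2 * 2 ^ (p0 * Q) → B / lam ^ Q * C ^ (K - l) ≤
      (A1 * 2 ^ Q + A2 * 2 ^ (p0 * Q)) / lam ^ Q0 * C ^ (K - l) := by
    intro B hB0 hB1
    refine mul_le_mul_of_nonneg_right ?_ hCk
    have b3 : lam ^ Q0 ≤ lam ^ Q := pow_le_pow_right₀ hlam hQ0
    calc B / lam ^ Q ≤ (A1 * 2 ^ Q + A2 * 2 ^ (p0 * Q)) / lam ^ Q := by gcongr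
      _ ≤ _ := by gcongr
  obtain ⟨p, hp1, hp2⟩ := exists_nat_pow_near hlam one_lt_two
  have hsub : ∀ y : ℝ, y ≤ lam → {t | t ∈ E x K ∧ ∃ u z, Bx (l + 2) t u z ∧ lam * m l ≤ (z : ℝ) - u} ⊆
      LB (E x K) l (y * m l) := by
    rintro y hy t ⟨htE, u, z, hb, hz⟩
    refine ⟨htE, u, z, hb, le_trans ?_ hz⟩
    gcongr
  rcases Nat.lt_or_ge p p0 with hpp | hpp
  · have h3 := hsub 1 hlam
    rw [one_mul] at h3
    refine (gf_mono h3).trans ((h2 x K l hlK).trans (mul_le_mul_left (ENNReal.ofReal_le_ofReal ?_) _))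
    have b1 : lam ^ Q ≤ 2 ^ (p0 * Q) := by
      rw [pow_mul]
      refine pow_le_pow_left₀ (by linarith) ?_ Q
      exact hp2.le.trans (pow_le_pow_right₀ (by norm_num) hpp)
    refine le_trans ?_ (hfin (A2 * 2 ^ (p0 * Q)) (by positivity) (by
      have : 0 ≤ A1 * 2 ^ Q := by positivity
      linarith))
    refine mul_le_mul_of_nonneg_right ?_ hCk
    rw [le_div_iff₀ hlQ]
    gcongr
  · refine (gf_mono (hsub (2 ^ p) hp1)).trans ((h1' x K l p hlK hpp).trans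
      (mul_le_mul_left (ENNReal.ofReal_le_ofReal ?_) _))
    refine le_trans ?_ (hfin (A1 * 2 ^ Q) (by positivity) (by
      have : 0 ≤ A2 * 2 ^ (p0 * Q) := by positivity
      linarith))
    refine mul_le_mul_of_nonneg_right ?_ hCk
    rw [div_le_div_iff₀ (by positivity) hlQ]
    have b1 : lam ^ Q ≤ 2 ^ Q * 2 ^ (p * Q) := by
      calc lam ^ Q ≤ (2 ^ (p + 1)) ^ Q := pow_le_pow_left₀ (by linarith) hp2.le Q
        _ = _ := by rw [← pow_mul, add_mul, one_mul, pow_add, mul_comm]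
    calc A1 * lam ^ Q ≤ A1 * (2 ^ Q * 2 ^ (p * Q)) := by gcongr
      _ = _ := by ring

end POL

end HexObs
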