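import Pool.Agent.POL.Sel

/-!
POL, the MASTER theorem: **closed words with a window of M leaves of the scale kc between a run of R1 and a run of R2**. Root
and label are found inside the window.
-/

set_option autoImplicit false

namespace HexObs

namespace POL

open Finset TS SDN NTW NTA SIM JNT

open scoped ENNReal Classical

/-- the box and the rotations -/
lemma WC.rot {N K : ℕ} {t : List Bool} (h : t ∈ WC N K) (hN : 1 ≤ N) (a : ℕ) : t.rotate a ∈ WC N K := by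
  refine ⟨Cy.rot h.1 a, fun X' Y' h' => ?_⟩
  intro i hi dir
  have h1 : Y' ++ X' = t.rotate (a + X'.length) := by
    rw [← List.rotate_rotate, h', rotate_app]
  have h2 : t.rotate (a + X'.length) = t.rotate ((a + X'.length) % t.length) := (List.rotate_mod t _).symm
  obtain ⟨z, hz⟩ : ∃ z, z = (a + X'.length) % t.length := ⟨_, rfl⟩
  have hzl : z < t.length := by
    rw [hz]
    exact Nat.mod_lt _ (by rw [h.1.1]; omega)
  have h3 : t.rotate z = t.drop z ++ t.take z := List.rotate_eq_drop_append_take hzl.le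
  rw [h1, h2, ← hz, h3]
  exact h.2 (t.take z) (t.drop z) (List.take_append_drop z t).symm i hi dir

/-- the open word -/
lemma WC.open_WL {N K : ℕ} {w : List Bool} {c : Bool} (h : w ++ [c] ∈ WC N K) : w ∈ WL K := by
  have hlen : w.length + 1 = N := by
    have := h.1.1
    simpa using this
  refine ⟨⟨fun _ _ _ => Set.mem_univ _, fun i k hik hk he => ?_⟩, fun i hi dir => ?_⟩
  · have h1 := h.1.2.2.2 i k (by omega) (by omega) (by
      rw [vx_append (by omega), vx_append (by omega)]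
      exact he)
    omega
  · have h1 := h.2 [] (w ++ [c]) rfl i (by omega) dir
    rw [List.append_nil, vx_append (by omega)] at h1
    exact h1

/-- one level: root-good leaves of the depth D -/
lemma level_le {Kr Cr : ℝ} {ke : ℕ} (hKr : 1 ≤ Kr) (hCr : 1 ≤ Cr)
    (hroot : ∀ (N n1 b0 : ℕ) (T : Set (List Bool)) (x : ℝ≥0∞), 1 ≤ n1 → (∀ a, gf {t | JNT.labN t = a ∧ t ∈ T} ≤ x) →
      gf (RC N n1 b0 T) ≤ ENNReal.ofReal (Kr * (N * 2 ^ b0 / (n1 * Ub b0))) * x)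
    (hRE : ∀ (kc J q : ℕ) (R : Set (List (List Bool))) (δ : ℝ) (a : ℕ × Pt), ke + q ≤ kc → 6 ≤ J → 0 < δ →
      SmRL labN DmJ kc R δ → gf {t | labN t = a ∧ t ∈ TwoF (kc - q + 5) (kc + J) ∧ t ∈ ERw kc J R} ≤
        ENNReal.ofReal (Cr ^ (J + q) * δ * Ub (kc + J)))
    {s1 s2 N kc J D : ℕ} {R : Set (List (List Bool))} {x : ℝ} (hD : ke + (s1 + s2) * (D + 1) + 10 ≤ kc) (hJ : 6 ≤ J)
    (hx : 0 < x) (hR : SmRL labN DmJ kc R x) :
    gf (RC N (2 ^ (kc - 4 - s1 * (D + 1))) (kc - 3) (TwoF (kc - 5 - (s1 + s2) * (D + 1)) (kc + J) ∩ ERw kc J R)) ≤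
      ENNReal.ofReal (N * ((Kr * 2 ^ (4 + s1) * Cr ^ (10 + (s1 + s2)) * (2 * Cr)) ^ J *
        ((2 ^ s1 * Cr ^ (s1 + s2)) ^ D * x))) := by
  obtain ⟨S, hS⟩ : ∃ S, S = (s1 + s2) * (D + 1) := ⟨_, rfl⟩
  have hs1S : s1 * (D + 1) ≤ S := by rw [hS]; exact Nat.mul_le_mul_right _ (by omega)
  have h1 : ∀ a, gf {t | JNT.labN t = a ∧ t ∈ (TwoF (kc - 5 - (s1 + s2) * (D + 1)) (kc + J) ∩ ERw kc J R)} ≤
      ENNReal.ofReal (Cr ^ (J + (10 + S)) * x * Ub (kc + J)) := by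
    intro a
    refine (gf_mono fun t ht => ?_).trans (hRE kc J (10 + S) R x a (by rw [hS]; omega) hJ hx hR)
    refine ⟨ht.1, ?_, ht.2.2⟩
    rw [show kc - (10 + S) + 5 = kc - 5 - (s1 + s2) * (D + 1) by rw [hS]; rw [hS] at hs1S; omega]
    exact ht.2.1
  refine (hroot N _ (kc - 3) _ _ Nat.one_le_two_pow h1).trans ?_
  have hU := Ub_pos (kc - 3)
  have hU2 : Ub (kc + J) ≤ 2 ^ (J + 3) * Ub (kc - 3) := by
    have := Ub_add (kc - 3) (J + 3)
    rwa [show kc - 3 + (J + 3) = kc + J by rw [← hS] at hD; omega] at this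
  rw [← ENNReal.ofReal_mul (by positivity)]
  refine ENNReal.ofReal_le_ofReal ?_
  have hp : (2 : ℝ) ^ (kc - 3) = 2 ^ (1 + s1 * (D + 1)) * 2 ^ (kc - 4 - s1 * (D + 1)) := by
    rw [← pow_add]
    congr 1
    rw [← hS] at hD
    omega
  have e1 : (N : ℝ) * 2 ^ (kc - 3) / (((2 ^ (kc - 4 - s1 * (D + 1)) : ℕ) : ℝ) * Ub (kc - 3)) =
      N * 2 ^ (1 + s1 * (D + 1)) / Ub (kc - 3) := by
    rw [hp]
    push_cast
    field_simp
  rw [e1]
  have hCr0 : 0 < Cr := by linarith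
  have hKr0 : 0 < Kr := by linarith
  have hN0 : (0 : ℝ) ≤ N := Nat.cast_nonneg _
  have e2 : Kr * (N * 2 ^ (1 + s1 * (D + 1)) / Ub (kc - 3)) * (Cr ^ (J + (10 + S)) * x * Ub (kc + J)) ≤
      Kr * (N * 2 ^ (1 + s1 * (D + 1)) / Ub (kc - 3)) * (Cr ^ (J + (10 + S)) * x * (2 ^ (J + 3) * Ub (kc - 3))) := by
    gcongr
  refine e2.trans ?_
  have e3 : Kr * (N * 2 ^ (1 + s1 * (D + 1)) / Ub (kc - 3)) * (Cr ^ (J + (10 + S)) * x * (2 ^ (J + 3) * Ub (kc - 3))) =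
      N * ((Kr * 2 ^ (4 + s1) * Cr ^ (10 + (s1 + s2))) * (2 * Cr) ^ J * ((2 ^ s1 * Cr ^ (s1 + s2)) ^ D * x)) := by
    rw [hS]
    field_simp
    ring
  rw [e3]
  have hB : 1 ≤ Kr * 2 ^ (4 + s1) * Cr ^ (10 + (s1 + s2)) := by
    have a1 : (1 : ℝ) ≤ 2 ^ (4 + s1) := one_le_pow₀ (by norm_num)
    have a2 : 1 ≤ Cr ^ (10 + (s1 + s2)) := one_le_pow₀ hCr
    exact one_le_mul_of_one_le_of_one_le (one_le_mul_of_one_le_of_one_le hKr a1) a2
  have hB2 : Kr * 2 ^ (4 + s1) * Cr ^ (10 + (s1 + s2)) ≤ (Kr * 2 ^ (4 + s1) * Cr ^ (10 + (s1 + s2))) ^ J := by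
    calc _ = (Kr * 2 ^ (4 + s1) * Cr ^ (10 + (s1 + s2))) ^ 1 := (pow_one _).symm
      _ ≤ _ := pow_le_pow_right₀ hB (by omega)
  rw [mul_pow (Kr * 2 ^ (4 + s1) * Cr ^ (10 + (s1 + s2))) (2 * Cr)]
  gcongr

/-- **MASTER** -/
theorem master (hNA : NormAll) (hRE : REq) (hRR : RootRun) : ∃ (s3 M k0 : ℕ) (C : ℝ), 1 ≤ C ∧ 6 ≤ M ∧
    ∀ (N kc J D0 : ℕ) (R1 R2 : Set (List (List Bool))) (d1 d2 : ℝ), 1 ≤ N → k0 ≤ kc → 6 ≤ J → 1 ≤ D0 →
      s3 * (D0 + 1) ≤ kc → 0 < d1 → 0 < d2 → SmR DmJ kc R1 d1 → SmR DmJ kc R2 d2 →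
      gf (RotC N (kc + J) (HRf kc (WinR kc J M R1 R2))) ≤
        ENNReal.ofReal ((C ^ (J + D0) * d2 + C ^ (J + 1) / 2 ^ D0 * (d1 + d2)) * (N / w4 mM (kc + J))) := by
  obtain ⟨s1, s2, s3, hs1, hs2, hs3, hNA⟩ := hNA
  obtain ⟨Cr, ke, hCr, hRE⟩ := hRE
  obtain ⟨Kr, hKr, hroot⟩ := root_le
  obtain ⟨Cu, ku, hCu, hunl⟩ := unl
  obtain ⟨Cm, hCm, hup⟩ := TI.mup_pow (w4_up mup_M)
  have hCr0 : 0 < Cr := by linarith
  have hCu0 : 0 < Cu := by linarith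
  have hCm0 : 0 < Cm := by linarith
  have hKr0 : 0 < Kr := by linarith
  obtain ⟨Cx, hCx⟩ : ∃ Cx, Cx = 2 ^ s1 * Cr ^ (s1 + s2) * Cu := ⟨_, rfl⟩
  have hp1 : (1 : ℝ) ≤ 2 ^ s1 := one_le_pow₀ (by norm_num)
  have hp2 : 1 ≤ Cr ^ (s1 + s2) := one_le_pow₀ hCr
  have hp3 : 1 ≤ 2 ^ s1 * Cr ^ (s1 + s2) := one_le_mul_of_one_le_of_one_le hp1 hp2
  have hCx1 : 1 ≤ Cx := by rw [hCx]; exact one_le_mul_of_one_le_of_one_le hp3 hCu
  have hCxa : 2 ^ s1 * Cr ^ (s1 + s2) ≤ Cx := by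
    rw [hCx]
    exact le_mul_of_one_le_right (by linarith) hCu
  have hCxb : Cu ≤ Cx := by
    rw [hCx]
    exact le_mul_of_one_le_left hCu0.le hp3
  obtain ⟨M, kn, C, hC, hM, hNA⟩ := hNA Cx hCx1
  have hC0 : 0 < C := by linarith
  obtain ⟨A, hA⟩ : ∃ A, A = Kr * 2 ^ (4 + s1) * Cr ^ (10 + (s1 + s2)) * (2 * Cr) * (2 * Cu ^ 2) := ⟨_, rfl⟩
  obtain ⟨A1, hA1⟩ : ∃ A1, A1 = Kr * 2 ^ (4 + s1) * Cr ^ (10 + (s1 + s2)) * (2 * Cr) := ⟨_, rfl⟩
  have hA11 : 1 ≤ A1 := by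
    rw [hA1]
    have a1 : (1 : ℝ) ≤ 2 ^ (4 + s1) := one_le_pow₀ (by norm_num)
    have a2 : 1 ≤ Cr ^ (10 + (s1 + s2)) := one_le_pow₀ hCr
    exact one_le_mul_of_one_le_of_one_le (one_le_mul_of_one_le_of_one_le (one_le_mul_of_one_le_of_one_le hKr a1) a2)
      (by linarith)
  have hCu2 : 1 ≤ 2 * Cu ^ 2 := by
    have : 1 ≤ Cu ^ 2 := one_le_pow₀ hCu
    linarith
  have hAA : A = A1 * (2 * Cu ^ 2) := by rw [hA, hA1]
  have hA1A : A1 ≤ A := by rw [hAA]; exact le_mul_of_one_le_right (by linarith) hCu2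
  have hA2A : 2 * Cu ^ 2 ≤ A := by rw [hAA]; exact le_mul_of_one_le_left (by linarith) hA11
  have hA0 : 1 ≤ A := hA11.trans hA1A
  refine ⟨s3, M, kn + ku + 2 * (ke + 10), A * Cm * C, ?_, hM,
    fun N kc J D0 R1 R2 d1 d2 hN hk hJ hD0 hDk hd1 hd2 hR1 hR2 => ?_⟩
  · exact one_le_mul_of_one_le_of_one_le (one_le_mul_of_one_le_of_one_le hA0 hCm) hC
  obtain ⟨I, G, x, y, hG, hy, hx0, hxi, hyR, hsum⟩ := hNA kc J D0 R1 R2 d1 d2 (by omega) hJ hD0 hDk hd1 hd2 hR1 hR2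
  have hwk := w4_pos mlow_M kc
  have hwK := w4_pos mlow_M (kc + J)
  have hNR : (0 : ℝ) < N := by exact_mod_cast hN
  have hDi : ∀ i ≤ I, ke + (s1 + s2) * (D0 * 2 ^ i + 1) + 10 ≤ kc := by
    intro i hi
    have h1 := (hG i hi).1
    have h2 : 2 * ((s1 + s2) * (D0 * 2 ^ i + 1)) ≤ kc := by
      calc 2 * ((s1 + s2) * (D0 * 2 ^ i + 1)) = 2 * (s1 + s2) * (D0 * 2 ^ i + 1) := by ring
        _ ≤ s3 * (D0 * 2 ^ i + 1) := Nat.mul_le_mul_right _ hs3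
        _ ≤ kc := h1
    omega
  obtain ⟨Rr, hRr⟩ : ∃ Rr : ℕ → Set (List (List Bool)), Rr = fun i => if i = 0 then RA kc J M R2 (G 0) else
    RB kc J M R1 R2 (G (i - 1)) (G i) := ⟨_, rfl⟩
  have hRrx : ∀ i ≤ I, SmRL labN DmJ kc (Rr i) (x i) := by
    intro i hi
    rw [hRr]
    dsimp only
    by_cases h0 : i = 0
    · rw [if_pos h0, h0]
      exact hx0
    · rw [if_neg h0]
      exact hxi i (by omega) hi
  obtain ⟨T, hT⟩ : ∃ T : ℕ → Set (List Bool), T = fun i => RC N (2 ^ (kc - 4 - s1 * (D0 * 2 ^ i + 1))) (kc - 3)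
    (TwoF (kc - 5 - (s1 + s2) * (D0 * 2 ^ i + 1)) (kc + J) ∩ ERw kc J (Rr i)) := ⟨_, rfl⟩
  have hTx : ∀ i ≤ I, gf (T i) ≤ ENNReal.ofReal (N * (A ^ J * (Cx ^ (D0 * 2 ^ i) * x i))) := by
    intro i hi
    have hxp := (hG i hi).2.2
    rw [hT]
    refine (level_le hKr hCr hroot hRE (N := N) (hDi i hi) hJ hxp (hRrx i hi)).trans (ENNReal.ofReal_le_ofReal ?_)
    rw [← hA1]
    gcongr
  obtain ⟨B, hB⟩ : ∃ B : Set (List Bool), B = {w | w ∈ WL (kc + J) ∧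
    w ∈ HRf kc {gs | (∀ x ∈ gs, x ∈ BrR (2 ^ (kc + 4)) (2 ^ (kc + J + 2))) → gs ∈ RZ kc J M R1 (G I)}} := ⟨_, rfl⟩
  obtain ⟨E, hE⟩ : ∃ E : Set (List Bool), E = {t | t ∈ Cy N ∧
    ∃ (X Y w : List Bool) (c : Bool), t = X ++ Y ∧ Y ++ X = w ++ [c] ∧ w ∈ B} := ⟨_, rfl⟩
  have hEle : gf E ≤ ENNReal.ofReal (N * (A ^ J * (Cx ^ kc * y))) := by
    refine (rot_triv B hN fun t ht => by rw [hE] at ht; exact ht).trans ?_
    have h1 : gf B ≤ ENNReal.ofReal (Cu ^ (kc + J + 1) * y) := by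
      rw [hB]
      exact hunl kc J _ y (by omega) hJ hy hyR
    have h2 : (2 : ℝ≥0∞) * (N : ℝ≥0∞) = ENNReal.ofReal (2 * N) := by
      rw [ENNReal.ofReal_mul (by norm_num), ENNReal.ofReal_natCast]
      norm_num
    rw [h2]
    refine (mul_le_mul' le_rfl h1).trans ?_
    rw [← ENNReal.ofReal_mul (by positivity)]
    refine ENNReal.ofReal_le_ofReal ?_
    have e1 : 2 * Cu ^ (J + 1) ≤ (2 * Cu ^ 2) ^ J := by
      rw [mul_pow, ← pow_mul]
      have f1 : (2 : ℝ) ≤ 2 ^ J := by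
        calc (2 : ℝ) = 2 ^ 1 := (pow_one _).symm
          _ ≤ 2 ^ J := pow_le_pow_right₀ (by norm_num) (by omega)
      have f2 : Cu ^ (J + 1) ≤ Cu ^ (2 * J) := pow_le_pow_right₀ hCu (by omega)
      gcongr
    have e2 : Cu ^ kc ≤ Cx ^ kc := pow_le_pow_left₀ hCu0.le hCxb _
    have e3 : (2 * Cu ^ 2) ^ J ≤ A ^ J := pow_le_pow_left₀ (by positivity) hA2A _
    calc 2 * (N : ℝ) * (Cu ^ (kc + J + 1) * y) = N * ((2 * Cu ^ (J + 1)) * (Cu ^ kc * y)) := by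
          rw [show kc + J + 1 = kc + (J + 1) by ring, pow_add]
          ring
      _ ≤ N * (A ^ J * (Cx ^ kc * y)) := by
          have := e1.trans e3
          gcongr
  -- the cover
  have hcov : RotC N (kc + J) (HRf kc (WinR kc J M R1 R2)) ⊆ (⋃ i ∈ range (I + 1), T i) ∪ E := by
    rintro t ⟨hWC, X, Y, w, c, ht, hw, m, u, e, hF, l, d, hl, hd, hm, r1, ps, r2, he, hr1, hr1n, hr2, hr2n, hps⟩
    have hWr : w ++ [c] ∈ WC N (kc + J) := by
      have h1 := WC.rot hWC hN X.length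
      rwa [ht, rotate_app, hw] at h1
    by_cases hex : ∃ i ≤ I, 3 ≤ (ps.filter fun g => decide (g ∈ G i)).length
    · classical
      obtain ⟨i0, hi0⟩ : ∃ i0, i0 = Nat.find hex := ⟨_, rfl⟩
      have hsp := Nat.find_spec hex
      rw [← hi0] at hsp
      left
      rw [Set.mem_iUnion₂]
      refine ⟨i0, Finset.mem_range.2 (by omega), ?_⟩
      rw [hT]
      refine ⟨hWC.1, X, Y, ht, ?_⟩
      rw [hw]
      have hGi := (hG i0 hsp.1).2.1
      have hDD := hDi i0 hsp.1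
      rcases Nat.eq_zero_or_pos i0 with h0 | h0
      · rw [hRr]
        dsimp only
        rw [if_pos h0]
        have := sel_first hRR hs1 hs2 hWr hF (by omega) hl hm he hGi hps hr2 hr2n hsp.2
        rw [h0] at this ⊢
        exact this
      · rw [hRr]
        dsimp only
        rw [if_neg (by omega)]
        have hlt := Nat.find_min hex (m := i0 - 1) (by omega)
        rw [not_and_or] at hlt
        have h2 : (ps.filter fun g => decide (g ∈ G (i0 - 1))).length ≤ 2 := by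
          rcases hlt with h | h
          · exact absurd (by omega : i0 - 1 ≤ I) h
          · omega
        exact sel_next hRR hs1 hs2 hWr hF (by omega) hl hm he hGi hps hr1 hr1n hr2 hr2n hsp.2 h2
    · right
      have hlast : (ps.filter fun g => decide (g ∈ G I)).length ≤ 2 := by
        by_contra hcon
        exact hex ⟨I, le_rfl, by omega⟩
      rw [hE]
      refine ⟨hWC.1, X, Y, w, c, ht, hw, ?_⟩
      rw [hB]
      have hlen : d = r1.length + (ps.length + r2.length) := by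
        have := lws_len w e l d
        rw [he, List.length_append, List.length_append] at this
        omega
      have hr1p : 0 < r1.length := List.length_pos_iff.2 hr1n
      have hrun : lws w e l (r1.length + ps.length) = r1 ++ ps := by
        have h1 := lws_takeE w e l d (r1.length + ps.length) (by omega)
        rw [he, ← List.append_assoc] at h1
        rw [← h1, ← List.length_append, List.take_left]
      refine ⟨WC.open_WL hWr, m, u, e, hF, l, r1.length + ps.length, hl, by omega, by omega, ?_⟩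
      rw [hrun]
      intro hbox
      have hb := bad_part (List.Sublist.refl ps) hlast
      exact ⟨r1, ps, rfl, hr1, hr1n, hbox, hps, by omega⟩
  refine (gf_mono hcov).trans ((gf_union_le _ _).trans ?_)
  have h1 : gf (⋃ i ∈ range (I + 1), T i) ≤ ∑ i ∈ range (I + 1), ENNReal.ofReal (N * (A ^ J * (Cx ^ (D0 * 2 ^ i) * x i))) := by
    refine (ENNReal.tsum_biUnion_le wE _ _).trans (Finset.sum_le_sum fun i hi => hTx i ?_)
    have := Finset.mem_range.1 hi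
    omega
  refine (add_le_add h1 hEle).trans ?_
  have hCx0 : 0 < Cx := by linarith
  have hA00 : 0 < A := by linarith
  have hxp : ∀ i ∈ range (I + 1), 0 ≤ (N : ℝ) * (A ^ J * (Cx ^ (D0 * 2 ^ i) * x i)) := by
    intro i hi
    have h2 := (hG i (by have := Finset.mem_range.1 hi; omega)).2.2
    positivity
  rw [← ENNReal.ofReal_sum_of_nonneg hxp, ← ENNReal.ofReal_add (Finset.sum_nonneg hxp) (by positivity)]
  refine ENNReal.ofReal_le_ofReal ?_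
  have e1 : ∑ i ∈ range (I + 1), (N : ℝ) * (A ^ J * (Cx ^ (D0 * 2 ^ i) * x i)) + N * (A ^ J * (Cx ^ kc * y)) =
      N * A ^ J * (∑ i ∈ range (I + 1), Cx ^ (D0 * 2 ^ i) * x i + Cx ^ kc * y) := by
    rw [mul_add, Finset.mul_sum]
    congr 1
    · exact Finset.sum_congr rfl fun i _ => by ring
    · ring
  rw [e1]
  have e2 : 1 / w4 mM kc ≤ Cm ^ J / w4 mM (kc + J) := by
    rw [div_le_div_iff₀ hwk hwK, one_mul]
    exact hup kc J
  have hd12 : 0 < d1 + d2 := by linarith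
  have e3 : (A * Cm) ^ J * C ^ (J + D0) ≤ (A * Cm * C) ^ (J + D0) := by
    have f1 : (A * Cm) ^ J ≤ (A * Cm) ^ (J + D0) :=
      pow_le_pow_right₀ (one_le_mul_of_one_le_of_one_le hA0 hCm) (by omega)
    rw [mul_pow (A * Cm) C]
    gcongr
  have e4 : (A * Cm) ^ J * C ^ (J + 1) ≤ (A * Cm * C) ^ (J + 1) := by
    have f1 : (A * Cm) ^ J ≤ (A * Cm) ^ (J + 1) :=
      pow_le_pow_right₀ (one_le_mul_of_one_le_of_one_le hA0 hCm) (by omega)
    rw [mul_pow (A * Cm) C]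
    gcongr
  calc (N : ℝ) * A ^ J * (∑ i ∈ range (I + 1), Cx ^ (D0 * 2 ^ i) * x i + Cx ^ kc * y)
      ≤ N * A ^ J * ((C ^ (J + D0) * d2 + C ^ (J + 1) / 2 ^ D0 * (d1 + d2)) / w4 mM kc) := by gcongr
    _ = N * A ^ J * (C ^ (J + D0) * d2 + C ^ (J + 1) / 2 ^ D0 * (d1 + d2)) * (1 / w4 mM kc) := by ring
    _ ≤ N * A ^ J * (C ^ (J + D0) * d2 + C ^ (J + 1) / 2 ^ D0 * (d1 + d2)) * (Cm ^ J / w4 mM (kc + J)) := by gcongr
    _ = ((A * Cm) ^ J * C ^ (J + D0) * d2 + (A * Cm) ^ J * C ^ (J + 1) / 2 ^ D0 * (d1 + d2)) * (N / w4 mM (kc + J)) := by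
        rw [mul_pow]
        ring
    _ ≤ _ := by gcongr

end POL

end HexObs
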