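import Pool.Agent.POL.REc
import Pool.Agent.JNT.EventM

/-!
POL (polygons): the event theorem for words with two closed ends of a finer scale, a given label, no hypothesis.
-/

set_option autoImplicit false

namespace HexObs

namespace POL

open Finset TS SDN SDN.CN NTm NTW NTA EN JNT SIM

open scoped ENNReal

/-- **the event theorem for words with two closed ends of a finer scale, a given label** -/
theorem rec_lab {Λ : Type} {lab : List Bool → Λ} (hLA : LabA lab) : REc lab := by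
  obtain ⟨Ci, δi, hI⟩ := inp_exists
  exact rec_of geoRunM hLA (chainL_of lab dmP (ssA hI) ss3P ssDP)

/-- a given number of letters and a given end -/
theorem rec_N : REc labN := rec_lab labA_N

/-- a given end -/
theorem rec_E : REc labE := rec_lab labA_E

/-- the literal RE of the words between two folds of a finer scale, q ≤ kc - k0 -/
def REk {Λ : Type} (lab : List Bool → Λ) : Prop := ∃ (C : ℝ) (k0 : ℕ), 1 ≤ C ∧
  ∀ (kc J q : ℕ) (R : Set (List (List Bool))) (δ : ℝ) (a : Λ), k0 + q ≤ kc → 6 ≤ J → 0 < δ → SmRL lab DmJ kc R δ →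
    gf {t | lab t = a ∧ t ∈ TwoF (kc - q + 5) (kc + J) ∧ t ∈ ERw kc J R} ≤
      ENNReal.ofReal (C ^ (J + q) * δ * Ub (kc + J))

theorem rek_of {Λ : Type} {lab : List Bool → Λ} (h : REc lab) : REk lab := by
  obtain ⟨C, k0, hC, h⟩ := h
  refine ⟨C, k0, hC, fun kc J q R δ a h1 h2 h3 h4 => (gf_mono ?_).trans (h kc J q R δ a h1 h2 h3 h4)⟩
  rintro t ⟨t1, t2, t3⟩
  exact ⟨t1, (two_closed t2).1, (two_closed t2).2, t3⟩

theorem re_N : REk labN := rek_of rec_N

theorem re_E : REk labE := rek_of rec_E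

/-- no label -/
theorem labA_one : LabA (fun _ : List Bool => ()) := fun _ _ _ _ _ _ _ _ _ _ _ => rfl

/-- **the event theorem for words with two closed ends of a finer scale, no label** -/
theorem rec_one : ∃ (C : ℝ) (k0 : ℕ), 1 ≤ C ∧
    ∀ (kc J q : ℕ) (R : Set (List (List Bool))) (δ : ℝ), k0 + q ≤ kc → 6 ≤ J → 0 < δ → SmR DmJ kc R δ →
      gf {t | ClS (RR (kc - q + 5)) t ∧ ClE (RR (kc - q + 5)) t ∧ t ∈ ERw kc J R} ≤
        ENNReal.ofReal (C ^ (J + q) * δ * Ub (kc + J)) := by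
  obtain ⟨C, k0, hC, h⟩ := rec_lab labA_one
  refine ⟨C, k0, hC, fun kc J q R δ h1 h2 h3 h4 => (gf_mono ?_).trans (h kc J q R δ () h1 h2 h3 (smRL_of_smR h4))⟩
  intro t ht
  exact ⟨rfl, ht⟩

/-- the words between two folds of a finer scale, no label -/
theorem re_one : ∃ (C : ℝ) (k0 : ℕ), 1 ≤ C ∧
    ∀ (kc J q : ℕ) (R : Set (List (List Bool))) (δ : ℝ), k0 + q ≤ kc → 6 ≤ J → 0 < δ → SmR DmJ kc R δ →
      gf {t | t ∈ TwoF (kc - q + 5) (kc + J) ∧ t ∈ ERw kc J R} ≤ ENNReal.ofReal (C ^ (J + q) * δ * Ub (kc + J)) := by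
  obtain ⟨C, k0, hC, h⟩ := rec_one
  refine ⟨C, k0, hC, fun kc J q R δ h1 h2 h3 h4 => (gf_mono ?_).trans (h kc J q R δ h1 h2 h3 h4)⟩
  rintro t ⟨t2, t3⟩
  exact ⟨(two_closed t2).1, (two_closed t2).2, t3⟩

end POL

end HexObs
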