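import Pool.Agent.POL.Defs2
import Pool.Agent.SIM.TopHW

/-!
POL, U4a: the runs of interior leaves depend on a common factor of two words only.
-/

set_option autoImplicit false

namespace HexObs

namespace POL

open Finset TS SDN NTW NTA SIM JNT

/-- the levels of a factor -/
lemma factor_lev {X M Y : List Bool} {k : ℕ} (hk : dx up (X ++ (M ++ Y)) X.length = dD false k) {i : ℕ}
    (hi : i ≤ M.length) : Tight.sg k (lev (X ++ (M ++ Y)) (X.length + i)) =
      Tight.sg k (lev (X ++ (M ++ Y)) X.length) + lev M i := by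
  obtain ⟨c, -, -, -, -, c5⟩ := drop_fr hk
  have h1 := c5 i
  rw [List.drop_left, lev_append (by omega), xD_lev, xD_lev] at h1
  omega

/-- the levels of a common factor, up to the sign -/
theorem common_lev {X M Y X' Y' : List Bool} {k k' : ℕ} (hk : dx up (X ++ (M ++ Y)) X.length = dD false k)
    (hk' : dx up (X' ++ (M ++ Y')) X'.length = dD false k') :
    ∃ w0 : ℕ, ∀ a i j, i ≤ M.length → j ≤ M.length →
      Tight.sg (a + w0) (lev (X' ++ (M ++ Y')) (X'.length + i)) -
          Tight.sg (a + w0) (lev (X' ++ (M ++ Y')) (X'.length + j)) =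
        Tight.sg a (lev (X ++ (M ++ Y)) (X.length + i)) - Tight.sg a (lev (X ++ (M ++ Y)) (X.length + j)) := by
  refine ⟨k + k', fun a i j hi hj => ?_⟩
  have h1 := factor_lev hk hi
  have h2 := factor_lev hk hj
  have h3 := factor_lev hk' hi
  have h4 := factor_lev hk' hj
  unfold Tight.sg at *
  by_cases ha : Even a <;> by_cases hb : Even k <;> by_cases hc : Even k' <;>
    simp only [Nat.even_add, ha, hb, hc, if_true, if_false, iff_true, iff_false, true_iff, false_iff, not_true,
      not_false_iff] at * <;> omega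

/-- the word of a leaf inside a factor -/
lemma lw_factor {X M Y : List Bool} {p q : ℕ} (hpq : p < q) (hq : q ≤ M.length) :
    lw (X ++ (M ++ Y)) (X.length + p) (X.length + q) = lw M p q := by
  unfold lw
  have h1 : (X ++ (M ++ Y)).drop (X.length + p + 1) = M.drop (p + 1) ++ Y := by
    rw [show X.length + p + 1 = X.length + (p + 1) by omega, ← List.drop_drop, List.drop_left,
      List.drop_append_of_le_length (by omega)]
  have h2 : tf (X ++ (M ++ Y)) (X.length + q - 1) = tf M (q - 1) := by
    rw [show X.length + q - 1 = X.length + (q - 1) by omega, tf_append_right, tf_append_left (by omega)]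
  rw [h1, h2, show X.length + q - (X.length + p) - 2 = q - p - 2 by omega,
    List.take_append_of_le_length (by rw [List.length_drop]; omega)]

/-- **U4a, transfer**: the folds of a run of interior leaves -/
theorem transfer {b : ℕ} {X M Y X' Y' : List Bool} {k k' m u m' u' : ℕ} {e e' : ℕ → ℕ}
    (hk : dx up (X ++ (M ++ Y)) X.length = dD false k) (hk' : dx up (X' ++ (M ++ Y')) X'.length = dD false k')
    (hF : Fd b (X ++ (M ++ Y)) m u e) (hF' : Fd b (X' ++ (M ++ Y')) m' u' e') {l d : ℕ} (hl : 1 ≤ l)
    (hld : l + d + 1 ≤ m) (h1 : X.length ≤ e (l - 1)) (h2 : e (l + d + 1) ≤ X.length + M.length) :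
    ∃ l', 1 ≤ l' ∧ l' + d + 1 ≤ m' ∧ (∀ i, i ≤ d → e' (l' + i) + X.length = e (l + i) + X'.length) ∧
      (∀ a i j, i ≤ M.length → j ≤ M.length →
        Tight.sg (u' + (l' + a)) (lev (X' ++ (M ++ Y')) (X'.length + i)) -
            Tight.sg (u' + (l' + a)) (lev (X' ++ (M ++ Y')) (X'.length + j)) =
          Tight.sg (u + (l + a)) (lev (X ++ (M ++ Y)) (X.length + i)) -
            Tight.sg (u + (l + a)) (lev (X ++ (M ++ Y)) (X.length + j))) ∧
      ∀ i j, i < j → j ≤ d → lw (X' ++ (M ++ Y')) (e' (l' + i)) (e' (l' + j)) =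
        lw (X ++ (M ++ Y)) (e (l + i)) (e (l + j)) := by
  obtain ⟨w0, hw⟩ := common_lev hk hk'
  obtain ⟨s, hs⟩ : ∃ s, s = X ++ (M ++ Y) := ⟨_, rfl⟩
  obtain ⟨t, ht⟩ : ∃ t, t = X' ++ (M ++ Y') := ⟨_, rfl⟩
  have hW := HW.of_fd hF
  have hW' := HW.of_fd hF'
  obtain ⟨hm, hG, -, -, -, -⟩ := hF
  obtain ⟨hm', hG', -, -, -, -⟩ := hF'
  have hlt : (X' ++ (M ++ Y')).length = X'.length + (M.length + Y'.length) := by
    rw [List.length_append, List.length_append]
  rw [← hs] at hW hG hw
  rw [← ht] at hW' hG' hw hlt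
  -- the folds of s in the factor
  obtain ⟨n, hn⟩ : ∃ n : ℕ → ℕ, ∀ j, l - 1 ≤ j → j ≤ l + d + 1 → e j = X.length + n j ∧ n j ≤ M.length := by
    refine ⟨fun j => e j - X.length, fun j j1 j2 => ?_⟩
    have a1 := hW.mono (j := l - 1) (k := j) j1 (by omega)
    have a2 := hW.mono (j := j) (k := l + d + 1) j2 (by omega)
    show e j = X.length + (e j - X.length) ∧ e j - X.length ≤ M.length
    omega
  have hsgp : ∀ a (y : ℤ), Tight.sg (a + 1) y = -Tight.sg a y := fun a y => Tight.sg_succ a y
  -- step A
  have hA : ∀ j, l ≤ j → j ≤ l + d → ∃ v, 1 ≤ v ∧ v + 1 ≤ m' ∧ e' v = X'.length + n j ∧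
      ∀ y, Tight.sg (u' + v) y = Tight.sg (u + j + w0) y := by
    intro j j1 j2
    obtain ⟨i, rfl⟩ : ∃ i, j = i + 1 := ⟨j - 1, by omega⟩
    obtain ⟨p1, p2⟩ := hn i (by omega) (by omega)
    obtain ⟨q1, q2⟩ := hn (i + 1) (by omega) (by omega)
    obtain ⟨r1, r2⟩ := hn (i + 1 + 1) (by omega) (by omega)
    have l1 := hW.lt i (by omega)
    have l2 := hW.lt (i + 1) (by omega)
    have b1 := hW.big i (by omega)
    have b2 := hW.big (i + 1) (by omega)
    rw [p1, q1] at b1
    rw [q1, r1, ← add_assoc, hsgp, hsgp] at b2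
    have w1 := hw (u + i) (n (i + 1)) (n i) q2 p2
    have w2 := hw (u + i) (n (i + 1)) (n (i + 1 + 1)) q2 r2
    obtain ⟨v, t1, t2, t3, t4, t5⟩ := hW'.top (i := X'.length + n i) (x := X'.length + n (i + 1))
      (j := X'.length + n (i + 1 + 1)) (s := u + i + w0) (by omega) (by omega) (by omega) (by omega) (by omega)
    obtain ⟨p, hp⟩ : ∃ p, e' (v + 1) = X'.length + p := ⟨e' (v + 1) - X'.length, by omega⟩
    have w3 := hw (u + i) (n (i + 1)) p q2 (by omega)
    rw [hp] at t5
    have hpn : p = n (i + 1) := by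
      rcases lt_trichotomy p (n (i + 1)) with h3 | h3 | h3
      · exfalso
        have c1 := hW.hi i (by omega) (X.length + p) (by omega) (by omega)
        rw [q1] at c1
        rcases Nat.lt_or_ge (e' (v + 1 + 1)) (X'.length + n (i + 1)) with h4 | h4
        · have c2 := hW'.lt (v + 1) (by omega)
          obtain ⟨p', hp'⟩ : ∃ p', e' (v + 1 + 1) = X'.length + p' := ⟨e' (v + 1 + 1) - X'.length, by omega⟩
          have c3 := hW'.big (v + 1) (by omega)
          rw [hp, hp', ← add_assoc, hsgp, hsgp, t2, t2] at c3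
          have c4 := hW.small i (by omega) (X.length + p) (X.length + p') (by omega) (by omega) (by omega)
          have w4 := hw (u + i) p p' (by omega) (by omega)
          omega
        · have c2 := hG'.lo (v + 1) (by omega) (by omega) (X'.length + n (i + 1)) (by omega) h4
          rw [hp, ← add_assoc, hsgp, hsgp, t2, t2] at c2
          omega
      · exact h3
      · exfalso
        have c1 := hG.lo (i + 1) (by omega) (by omega) (X.length + p) (by omega) (by omega)
        rw [q1, ← add_assoc, hsgp, hsgp] at c1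
        omega
    refine ⟨v + 1, by omega, by omega, by rw [hp, hpn], fun y => ?_⟩
    rw [← add_assoc, hsgp, t2, show u + (i + 1) + w0 = u + i + w0 + 1 by omega, hsgp]
  obtain ⟨l', a1, a2, a3, a4⟩ := hA l le_rfl (by omega)
  -- step B
  have hB : ∀ i, i ≤ d → l' + i + 1 ≤ m' ∧ e' (l' + i) = X'.length + n (l + i) ∧
      ∀ y, Tight.sg (u' + (l' + i)) y = Tight.sg (u + (l + i) + w0) y := by
    intro i
    induction i with
    | zero => intro _; exact ⟨a2, a3, a4⟩
    | succ i ih =>
      intro hi
      obtain ⟨b1, b2, b3⟩ := ih (by omega)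
      obtain ⟨v, c1, c2, c3, c4⟩ := hA (l + (i + 1)) (by omega) (by omega)
      obtain ⟨p1, p2⟩ := hn (l + i) (by omega) (by omega)
      obtain ⟨q1, q2⟩ := hn (l + (i + 1)) (by omega) (by omega)
      have l1 := hW.lt (l + i) (by omega)
      rw [show l + i + 1 = l + (i + 1) by omega] at l1
      have h3 : l' + i < v := by
        by_contra h4
        have := hW'.mono (j := v) (k := l' + i) (by omega) (by omega)
        omega
      have h4 : v = l' + (i + 1) := by
        by_contra h5
        have d1 := hW'.lt (l' + i) (by omega)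
        have d2 := hW'.lt (l' + i + 1) (by omega)
        have d3 := hW'.mono (j := l' + i + 1 + 1) (k := v) (by omega) (by omega)
        obtain ⟨p, hp⟩ : ∃ p, e' (l' + i + 1) = X'.length + p := ⟨e' (l' + i + 1) - X'.length, by omega⟩
        obtain ⟨p', hp'⟩ : ∃ p', e' (l' + i + 1 + 1) = X'.length + p' :=
          ⟨e' (l' + i + 1 + 1) - X'.length, by omega⟩
        have d4 := hW'.big (l' + i + 1) (by omega)
        rw [hp, hp', show u' + (l' + i + 1) = u' + (l' + i) + 1 by omega, hsgp, hsgp, b3, b3] at d4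
        have d5 := hW.small (l + i) (by omega) (X.length + p) (X.length + p') (by omega) (by omega) (by
          rw [show l + i + 1 = l + (i + 1) by omega]
          omega)
        have w4 := hw (u + (l + i)) p p' (by omega) (by omega)
        omega
      subst h4
      exact ⟨by omega, c3, c4⟩
  refine ⟨l', a1, (hB d le_rfl).1, ?_, ?_, ?_⟩
  · intro i hi
    rw [(hB i hi).2.1, (hn (l + i) (by omega) (by omega)).1]
    omega
  · intro a i j hi hj
    have key : ∀ y, Tight.sg (u' + (l' + a)) y = Tight.sg (u + (l + a) + w0) y := by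
      intro y
      have h3 := a4 y
      unfold Tight.sg at h3 ⊢
      by_cases c1 : Even u' <;> by_cases c2 : Even l' <;> by_cases c3 : Even a <;> by_cases c4 : Even u <;>
        by_cases c5 : Even l <;> by_cases c6 : Even w0 <;>
        simp only [Nat.even_add, c1, c2, c3, c4, c5, c6, if_true, if_false, iff_true, iff_false, true_iff, false_iff,
          not_true, not_false_iff] at h3 ⊢ <;> omega
    rw [key, key, ← hs, ← ht, hw _ i j hi hj]
  · intro i j hij hj
    obtain ⟨p1, p2⟩ := hn (l + i) (by omega) (by omega)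
    obtain ⟨q1, q2⟩ := hn (l + j) (by omega) (by omega)
    have h3 : n (l + i) < n (l + j) := by
      have h4 := hW.mono (j := l + i + 1) (k := l + j) (by omega) (by omega)
      have h5 := hW.lt (l + i) (by omega)
      omega
    rw [(hB i (by omega)).2.1, (hB j hj).2.1, p1, q1, lw_factor h3 q2, lw_factor h3 q2]

end POL

end HexObs
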