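import Pool.Agent.POL.RootG
import Pool.Agent.POL.Transf
import Pool.Agent.NTW.EqEvent

/-!
POL, U4d: the root of a closed word, a marked run of leaves survives.
-/

set_option autoImplicit false

namespace HexObs

namespace POL

open Finset TS SDN NTW NTA SIM JNT

/-- the word of an interior piece -/
theorem mid_pos {t : List Bool} {m u : ℕ} {e : ℕ → ℕ} (ht : t ∈ SA) (h : FoldG t m u e) {q : ℕ} (h1 : 1 ≤ q)
    (h2 : q + 2 ≤ m) : ∃ M : ℕ, lw t (e q) (e (q + 1)) ∈ Brd M ∧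
      3 * (M : ℤ) + 1 = Tight.sg (u + q) (lev t (e (q + 1))) - Tight.sg (u + q) (lev t (e q)) ∧
      PosL t u e q (lw t (e q) (e (q + 1))) := by
  obtain ⟨i, rfl⟩ : ∃ i, q = i + 1 := ⟨q - 1, by omega⟩
  have m1 := h.lt i (by omega)
  have m1' := h.lt (i + 1) (by omega)
  have m2' := h.lt (i + 1 + 1) (by omega)
  have hstep : ∀ (k : ℕ) (j : ℕ), Tight.sg k (lev t (j + 1)) ≤ Tight.sg k (lev t j) + 2 := by
    intro k j
    have h := xD_step_le (dD_mem false k) t j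
    rw [xD_dD, xD_dD] at h
    exact h
  have two : ∀ j, j < m → e j + 2 ≤ e (j + 1) := by
    intro j hj
    have h1 := h.lt j hj
    by_contra hc
    have h2 : e (j + 1) = e j + 1 := by omega
    have h3 := h.gap j hj
    have h4 := hstep (u + j) (e j)
    rw [h2] at h3
    omega
  have m2 := two (i + 1) (by omega)
  have m3 := two (i + 1 + 1) (by omega)
  have m4 : e (i + 1 + 1 + 1) ≤ t.length := (QF.fold_mono h (by omega) le_rfl).trans h.le
  obtain ⟨a, ha⟩ : ∃ a, e (i + 1) = a + 1 := ⟨e (i + 1) - 1, by omega⟩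
  obtain ⟨D, hDdef⟩ : ∃ D, D = dD false (u + (i + 1)) := ⟨_, rfl⟩
  have hD : D ∈ dirs := by
    rw [hDdef]
    exact dD_mem _ _
  have hx : ∀ l, xD D t l = Tight.sg (u + (i + 1)) (lev t l) := fun l => by
    rw [hDdef]
    exact xD_dD _ _ _ _
  have hx1 : ∀ l, xD D t l = -Tight.sg (u + i) (lev t l) := by
    intro l
    rw [hx, ← add_assoc, Tight.sg_succ]
  have hx2 : ∀ l, Tight.sg (u + (i + 1 + 1)) (lev t l) = -xD D t l := by
    intro l
    rw [hx, ← add_assoc, Tight.sg_succ]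
  have k0 : xD D t (a + 1) ≤ xD D t a := by
    have := h.hi i (by omega) a (by omega) (by omega)
    rw [hx1, hx1, ← ha]
    omega
  have k1 : ∀ l, a + 1 < l → l ≤ e (i + 1 + 1) → xD D t (a + 1) < xD D t l ∧ xD D t l ≤ xD D t (e (i + 1 + 1)) := by
    intro l l1 l2
    rw [hx, hx, hx, ← ha]
    exact ⟨h.lo (i + 1) (by omega) (by omega) l (by omega) l2, h.hi (i + 1) (by omega) l (by omega) l2⟩
  have k2 : xD D t (a + 1) + 4 ≤ xD D t (e (i + 1 + 1)) := by
    have := h.gap (i + 1) (by omega)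
    rw [hx, hx, ← ha]
    omega
  have k3 : ∀ l, e (i + 1 + 1) < l → l ≤ e (i + 1 + 1 + 1) → xD D t l < xD D t (e (i + 1 + 1)) := by
    intro l l1 l2
    have := h.lo (i + 1 + 1) (by omega) (by omega) l l1 l2
    simp only [hx2] at this
    omega
  obtain ⟨c, M, r1, r2, r3, r4, r5, r6, r7, r8, r9, r10, r11, r12⟩ := leaf_core hD ht (e := a)
    (e' := e (i + 1 + 1)) (by omega) (by omega) k0 k1 k2 (k3 _ (by omega) (by omega)) (k3 _ (by omega) (by omega))
  rw [← ha] at r6 r7 r9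
  have hc : nrm c = 1 := mem_dirs.1 r1
  refine ⟨M, r6, ?_, e (i + 1) + 1, by omega, by omega, by omega, by omega, ?_⟩
  · rw [← hx, ← hx, ha]
    omega
  · intro j j1 j2
    have key : ∀ k, k ≤ (lw t (e (i + 1)) (e (i + 1 + 1))).length → Tight.sg (u + (i + 1)) (lev t (e (i + 1) + 1 + k)) =
        Tight.sg (u + (i + 1)) (lev t (e (i + 1) + 1)) + lev (lw t (e (i + 1)) (e (i + 1 + 1))) k := by
      intro k hk
      have h3 := r8 k
      rw [← r9 k hk] at h3
      rw [← hx, ← hx, ha]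
      unfold xD lev
      rw [show a + 1 + 1 = a + 2 by omega, h3, ip_add_left, ← r2, ip_mulE, hc, one_mul, ha]
    have a1 := key j j2
    have a2 := key 1 (by omega)
    have h4 : ∀ x y : ℤ, Tight.sg (u + (i + 1)) (x - y) = Tight.sg (u + (i + 1)) x - Tight.sg (u + (i + 1)) y := by
      intro x y
      unfold Tight.sg
      split_ifs <;> ring
    rw [h4]
    omega

lemma lws_lenR (t : List Bool) (e : ℕ → ℕ) (l d : ℕ) : (lws t e l d).length = d := by
  unfold lws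
  simp

lemma lws_getR (t : List Bool) (e : ℕ → ℕ) (l d : ℕ) (i : ℕ) (hi : i < (lws t e l d).length) :
    (lws t e l d)[i] = lw t (e (l + i)) (e (l + i + 1)) := by
  unfold lws
  simp

section run

variable {kc J : ℕ} {R : Set (List (List Bool))} {X M Y X' Y' : List Bool} {k k' m u : ℕ} {e : ℕ → ℕ}

/-- the folds of the new word -/
theorem new_fd (hk : dx up (X ++ (M ++ Y)) X.length = dD false k) (hk' : dx up (X' ++ (M ++ Y')) X'.length = dD false k')
    (hF : Fd (kc + 5) (X ++ (M ++ Y)) m u e) (ht : X' ++ (M ++ Y') ∈ SA) {l : ℕ} (hl : l < m)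
    (h1 : X.length ≤ e l) (h2 : e (l + 1) ≤ X.length + M.length) : ∃ m' u' e', Fd (kc + 5) (X' ++ (M ++ Y')) m' u' e' := by
  rcases fd_exists (b := kc + 5) (by omega) ht with h3 | h3
  · exfalso
    obtain ⟨w0, hw⟩ := common_lev hk hk'
    have hW := HW.of_fd hF
    have a1 := hW.lt l hl
    obtain ⟨p, hp⟩ : ∃ p, e l = X.length + p := ⟨e l - X.length, by omega⟩
    obtain ⟨q, hq⟩ : ∃ q, e (l + 1) = X.length + q := ⟨e (l + 1) - X.length, by omega⟩
    have a2 := hW.big l hl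
    rw [hp, hq, ← hw (u + l) q p (by omega) (by omega)] at a2
    have hlt : (X' ++ (M ++ Y')).length = X'.length + (M.length + Y'.length) := by
      rw [List.length_append, List.length_append]
    have a3 := h3 (X'.length + q) (X'.length + p) (by omega) (by omega)
    have a4 := h3 (X'.length + p) (X'.length + q) (by omega) (by omega)
    have := sg_lt_of (a := u + l + w0) a3 a4
    omega
  · exact h3

/-- **a plain run survives** -/
theorem erw_of (hk : dx up (X ++ (M ++ Y)) X.length = dD false k) (hk' : dx up (X' ++ (M ++ Y')) X'.length = dD false k')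
    (hF : Fd (kc + 5) (X ++ (M ++ Y)) m u e) (ht : X' ++ (M ++ Y') ∈ WL (kc + J)) {l d : ℕ} (hl : 1 ≤ l) (hd : 1 ≤ d)
    (hld : l + d + 1 ≤ m) (h1 : X.length ≤ e (l - 1)) (h2 : e (l + d + 1) ≤ X.length + M.length)
    (hR : lws (X ++ (M ++ Y)) e l d ∈ R) : X' ++ (M ++ Y') ∈ ERw kc J R := by
  have hW := HW.of_fd hF
  have a1 := hW.mono (j := l - 1) (k := l) (by omega) (by omega)
  have a2 := hW.mono (j := l + 1) (k := l + d + 1) (by omega) (by omega)
  obtain ⟨m', u', e', hF'⟩ := new_fd hk hk' hF ht.1 (l := l) (by omega) (by omega) (by omega)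
  obtain ⟨l', b1, b2, b3, b4, b5⟩ := transfer hk hk' hF hF' hl hld h1 h2
  refine ⟨ht, m', u', e', ⟨hF'.1, hF'.2.1, hF'.2.2.1, hF'.2.2.2.2.1, hF'.2.2.2.2.2⟩, l', d, hd, by omega, ?_⟩
  intro ms m1 m2 m3 _ _
  have h3 : ms = lws (X ++ (M ++ Y)) e l d := by
    apply List.ext_getElem
    · rw [m1, lws_lenR]
    · intro i i1 i2
      rw [m3 i i1 (by omega) (by omega), lws_getR]
      have h4 := b5 i (i + 1) (by omega) (by omega)
      rw [← add_assoc, ← add_assoc] at h4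
      exact h4
  rw [h3]
  exact hR

end run

/-! ### merged leaves -/

lemma sg_two (a ρ : ℕ) (y : ℤ) : Tight.sg (a + 2 * ρ) y = Tight.sg a y := by
  unfold Tight.sg
  have h : Even (2 * ρ) := even_two_mul ρ
  simp only [Nat.even_add, h, iff_true]

/-- the folds without the folds inside a merged leaf -/
theorem fw_merge {b m u : ℕ} {t : List Bool} {e : ℕ → ℕ} (hb : 1 ≤ b) (hF : Fd b t m u e) {l1 ρ : ℕ} (h1 : 1 ≤ l1)
    (h2 : l1 + 1 + 2 * ρ + 1 ≤ m)
    (hlo : ∀ i, e l1 < i → i ≤ e (l1 + 1 + 2 * ρ) → Tight.sg (u + l1) (lev t (e l1)) < Tight.sg (u + l1) (lev t i))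
    (hhi : ∀ i, e l1 ≤ i → i ≤ e (l1 + 1 + 2 * ρ) →
      Tight.sg (u + l1) (lev t i) ≤ Tight.sg (u + l1) (lev t (e (l1 + 1 + 2 * ρ))))
    {E : ℕ → ℕ} (hE1 : ∀ i, i ≤ l1 → E i = e i) (hE2 : ∀ i, l1 < i → E i = e (i + 2 * ρ)) :
    Fw b t (m - 2 * ρ) u E := by
  have hW := HW.of_fd hF
  obtain ⟨hm, hG, hbig, hsm, hst, hfin⟩ := hF
  have hR4 := RR_ge hb
  have hEm : E (m - 2 * ρ) = e m := by
    rw [hE2 _ (by omega)]
    congr 1
    omega
  have hE0 : E 0 = e 0 := hE1 0 (by omega)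
  have c3 : ∀ j, l1 < j → E j = e (j + 2 * ρ) ∧ E (j + 1) = e (j + 2 * ρ + 1) ∧
      ∀ y, Tight.sg (u + j) y = Tight.sg (u + (j + 2 * ρ)) y := by
    intro j hj
    refine ⟨hE2 j hj, ?_, fun y => ?_⟩
    · rw [hE2 _ (by omega)]
      congr 1
      omega
    · rw [← add_assoc, sg_two]
  have hEl : E l1 = e l1 := hE1 l1 le_rfl
  have hEl' : E (l1 + 1) = e (l1 + 1 + 2 * ρ) := hE2 _ (by omega)
  have hbg : ∀ j, j < m - 2 * ρ → RR b ≤ Tight.sg (u + j) (lev t (E (j + 1))) - Tight.sg (u + j) (lev t (E j)) := by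
    intro j hj
    rcases lt_trichotomy j l1 with h3 | h3 | h3
    · rw [hE1 j h3.le, hE1 (j + 1) h3]
      exact hbig j (by omega)
    · subst h3
      rw [hEl, hEl']
      have a1 := hhi (e (j + 1)) (hG.lt j (by omega)).le (hW.mono (by omega) (by omega))
      have a2 := hbig j (by omega)
      omega
    · obtain ⟨d1, d2, d3⟩ := c3 j h3
      rw [d1, d2, d3, d3]
      exact hbig _ (by omega)
  refine ⟨by omega, ⟨?_, by rw [hEm]; exact hG.le, ?_, ?_, ?_, ?_, ?_, ?_⟩, fun j hj => hbg j hj, ?_, ?_⟩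
  · intro j hj
    rcases lt_trichotomy j l1 with h3 | h3 | h3
    · rw [hE1 j h3.le, hE1 (j + 1) h3]
      exact hG.lt j (by omega)
    · subst h3
      rw [hEl, hEl']
      exact (hG.lt j (by omega)).trans_le (hW.mono (by omega) (by omega))
    · obtain ⟨d1, d2, -⟩ := c3 j h3
      rw [d1, d2]
      exact hG.lt _ (by omega)
  · intro i i1 i2
    rw [hE0] at i1 ⊢
    rw [hE1 1 h1] at i2
    exact hG.lo0 i i1 i2
  · intro j j1 j2 i i1 i2
    rcases lt_trichotomy j l1 with h3 | h3 | h3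
    · rw [hE1 j h3.le] at i1 ⊢
      rw [hE1 (j + 1) h3] at i2
      exact hG.lo j j1 (by omega) i i1 i2
    · subst h3
      rw [hEl] at i1 ⊢
      rw [hEl'] at i2
      exact hlo i i1 i2
    · obtain ⟨d1, d2, d3⟩ := c3 j h3
      rw [d1] at i1 ⊢
      rw [d2] at i2
      rw [d3, d3]
      exact hG.lo _ (by omega) (by omega) i i1 i2
  · intro j j2 i i1 i2
    rcases lt_trichotomy j l1 with h3 | h3 | h3
    · rw [hE1 j h3.le] at i1
      rw [hE1 (j + 1) h3] at i2 ⊢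
      exact hG.hi j (by omega) i i1 i2
    · subst h3
      rw [hEl] at i1
      rw [hEl'] at i2 ⊢
      exact hhi i i1 i2
    · obtain ⟨d1, d2, d3⟩ := c3 j h3
      rw [d1] at i1
      rw [d2] at i2 ⊢
      rw [d3, d3]
      exact hG.hi _ (by omega) i i1 i2
  · intro j hj
    have := hbg j hj
    omega
  · intro i hi
    rw [hE0] at hi ⊢
    exact hG.beg i hi
  · intro i i1 i2
    rw [hEm] at i1 ⊢
    have h3 : ∀ y, Tight.sg (u + (m - 2 * ρ - 1)) y = Tight.sg (u + (m - 1)) y := by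
      intro y
      rw [← sg_two _ ρ]
      congr 1
      omega
    rw [h3, h3]
    exact hG.fin i i1 i2
  · intro i i' i1 i2
    rw [hE0] at i1 i2
    exact hst i i' i1 i2
  · intro i i' i1 i2 i3 i4
    rw [hEm] at i1 i3
    exact hfin i i' i1 i2 i3 i4

section run

variable {kc J : ℕ} {R : Set (List (List Bool))} {X M Y X' Y' : List Bool} {k k' m u : ℕ} {e : ℕ → ℕ}

/-- **a run with a merged leaf survives** -/
theorem erw_ofM (hk : dx up (X ++ (M ++ Y)) X.length = dD false k)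
    (hk' : dx up (X' ++ (M ++ Y')) X'.length = dD false k')
    (hF : Fd (kc + 5) (X ++ (M ++ Y)) m u e) (ht : X' ++ (M ++ Y') ∈ WL (kc + J)) {l d0 d ρ : ℕ} (hl : 1 ≤ l)
    (hld : l + (d0 + (1 + 2 * ρ) + d) + 1 ≤ m) (h1 : X.length ≤ e (l - 1))
    (h2 : e (l + (d0 + (1 + 2 * ρ) + d) + 1) ≤ X.length + M.length)
    (hM : Mrg (X ++ (M ++ Y)) u e (l + d0) (l + d0 + 1 + 2 * ρ))
    (hR : lws (X ++ (M ++ Y)) e l d0 ++ (lw (X ++ (M ++ Y)) (e (l + d0)) (e (l + d0 + 1 + 2 * ρ)) ::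
      lws (X ++ (M ++ Y)) e (l + d0 + 1 + 2 * ρ) d) ∈ R) : X' ++ (M ++ Y') ∈ ERw kc J R := by
  have hW := HW.of_fd hF
  have a1 := hW.mono (j := l - 1) (k := l) (by omega) (by omega)
  have a2 := hW.mono (j := l + 1) (k := l + (d0 + (1 + 2 * ρ) + d) + 1) (by omega) (by omega)
  obtain ⟨m', u', e', hF'⟩ := new_fd hk hk' hF ht.1 (l := l) (by omega) (by omega) (by omega)
  obtain ⟨l', b1, b2, b3, b4, b5⟩ := transfer hk hk' hF hF' hl hld h1 h2
  have c0 := b3 d0 (by omega)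
  have c1 := b3 (d0 + (1 + 2 * ρ)) (by omega)
  rw [show l + (d0 + (1 + 2 * ρ)) = l + d0 + 1 + 2 * ρ by omega,
    show l' + (d0 + (1 + 2 * ρ)) = l' + d0 + 1 + 2 * ρ by omega] at c1
  have a3 := hW.mono (j := l) (k := l + d0) (by omega) (by omega)
  have a4 := hW.mono (j := l + d0 + 1 + 2 * ρ) (k := l + (d0 + (1 + 2 * ρ) + d) + 1) (by omega) (by omega)
  obtain ⟨-, -, hM1, hM2⟩ := hM
  obtain ⟨p0, hp0⟩ : ∃ p0, e (l + d0) = X.length + p0 := ⟨e (l + d0) - X.length, by omega⟩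
  have a5 := hW.mono (j := l - 1) (k := l + d0 + 1 + 2 * ρ) (by omega) (by omega)
  obtain ⟨p1, hp1⟩ : ∃ p1, e (l + d0 + 1 + 2 * ρ) = X.length + p1 := ⟨e (l + d0 + 1 + 2 * ρ) - X.length, by omega⟩
  have hp2 : e' (l' + d0) = X'.length + p0 := by omega
  have hp3 : e' (l' + d0 + 1 + 2 * ρ) = X'.length + p1 := by omega
  have hp1M : p1 ≤ M.length := by omega
  rw [hp0, hp1] at hM1 hM2
  obtain ⟨E, hE⟩ : ∃ E : ℕ → ℕ, E = fun i => if i ≤ l' + d0 then e' i else e' (i + 2 * ρ) := ⟨_, rfl⟩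
  have hE1 : ∀ i, i ≤ l' + d0 → E i = e' i := by
    intro i hi
    rw [hE]
    exact if_pos hi
  have hE2 : ∀ i, l' + d0 < i → E i = e' (i + 2 * ρ) := by
    intro i hi
    rw [hE]
    exact if_neg (by omega)
  have hFw : Fw (kc + 5) (X' ++ (M ++ Y')) (m' - 2 * ρ) u' E := by
    refine fw_merge (by omega) hF' (l1 := l' + d0) (ρ := ρ) (by omega) (by omega) ?_ ?_ hE1 hE2
    · intro i i1 i2
      rw [hp2] at i1 ⊢
      rw [hp3] at i2
      obtain ⟨p, rfl⟩ : ∃ p, i = X'.length + p := ⟨i - X'.length, by omega⟩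
      have h3 := b4 d0 p p0 (by omega) (by omega)
      have h4 := hM1 (X.length + p) (by omega) (by omega)
      omega
    · intro i i1 i2
      rw [hp2] at i1
      rw [hp3] at i2 ⊢
      obtain ⟨p, rfl⟩ : ∃ p, i = X'.length + p := ⟨i - X'.length, by omega⟩
      have h3 := b4 d0 p p1 (by omega) (by omega)
      have h4 := hM2 (X.length + p) (by omega) (by omega)
      omega
  refine ⟨ht, m' - 2 * ρ, u', E, hFw, l', d0 + 1 + d, by omega, by omega, ?_⟩
  intro ms m1 m2 m3 _ _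
  have h3 : ms = lws (X ++ (M ++ Y)) e l d0 ++ (lw (X ++ (M ++ Y)) (e (l + d0)) (e (l + d0 + 1 + 2 * ρ)) ::
      lws (X ++ (M ++ Y)) e (l + d0 + 1 + 2 * ρ) d) := by
    apply List.ext_getElem
    · rw [m1, List.length_append, lws_lenR, List.length_cons, lws_lenR]
      omega
    · intro i i1 i2
      rw [m3 i i1 (by omega) (by omega)]
      rcases lt_trichotomy i d0 with h4 | h4 | h4
      · rw [List.getElem_append_left (by rw [lws_lenR]; exact h4), lws_getR, hE1 _ (by omega), hE1 _ (by omega)]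
        have h5 := b5 i (i + 1) (by omega) (by omega)
        rw [← add_assoc, ← add_assoc] at h5
        exact h5
      · subst h4
        rw [List.getElem_append_right (by rw [lws_lenR])]
        simp only [lws_lenR, Nat.sub_self, List.getElem_cons_zero]
        rw [hE1 _ (by omega), hE2 _ (by omega)]
        have h5 := b5 i (i + (1 + 2 * ρ)) (by omega) (by omega)
        rw [show l + (i + (1 + 2 * ρ)) = l + i + 1 + 2 * ρ by omega,
          show l' + (i + (1 + 2 * ρ)) = l' + i + 1 + 2 * ρ by omega] at h5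
        exact h5
      · obtain ⟨j, rfl⟩ : ∃ j, i = d0 + (j + 1) := ⟨i - d0 - 1, by omega⟩
        rw [List.getElem_append_right (by rw [lws_lenR]; omega)]
        simp only [lws_lenR, Nat.add_sub_cancel_left, List.getElem_cons_succ]
        rw [lws_getR, hE2 _ (by omega), hE2 _ (by omega)]
        have h5 := b5 (d0 + (j + 1) + 2 * ρ) (d0 + (j + 1) + 1 + 2 * ρ) (by omega) (by omega)
        rw [show l' + (d0 + (j + 1) + 2 * ρ) = l' + (d0 + (j + 1)) + 2 * ρ by omega,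
          show l' + (d0 + (j + 1) + 1 + 2 * ρ) = l' + (d0 + (j + 1)) + 1 + 2 * ρ by omega,
          show l + (d0 + (j + 1) + 2 * ρ) = l + d0 + 1 + 2 * ρ + j by omega,
          show l + (d0 + (j + 1) + 1 + 2 * ρ) = l + d0 + 1 + 2 * ρ + j + 1 by omega] at h5
        exact h5
  rw [h3]
  exact hR

end run

/-! ### The root -/

lemma dx_zero_dD (t : List Bool) : dx up t 0 = dD false 1 := by
  have h : dD false 1 = up := by decide
  rw [h]
  rfl

/-- the root of a closed word, a property S of the new word that depends on the part behind or before the root -/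
theorem root_win {N K kc s1 s2 D m u a : ℕ} {w : List Bool} {c : Bool} {e : ℕ → ℕ} {S : Set (List Bool)}
    (ht : w ++ [c] ∈ WC N K) (hF : Fd (kc + 5) w m u e) (ha : 1 ≤ a) (ham : a + 2 ≤ m)
    (hrt : lw w (e a) (e (a + 1)) ∈ RtS s1 s2 kc D) (hk : (s1 + s2) * (D + 1) + 10 ≤ kc)
    (hS : (∀ X M Y' : List Bool, w = X ++ (M ++ []) → X.length ≤ e (a + 1) →
        (∃ k, dx up (X ++ (M ++ [])) X.length = dD false k) → [] ++ (M ++ Y') ∈ WL K → [] ++ (M ++ Y') ∈ S) ∨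
      (∀ X' M Y : List Bool, w = [] ++ (M ++ Y) → e a ≤ M.length →
        (∃ k, dx up (X' ++ (M ++ [])) X'.length = dD false k) → X' ++ (M ++ []) ∈ WL K → X' ++ (M ++ []) ∈ S)) :
    WinC (2 ^ (kc - 4 - s1 * (D + 1))) (kc - 3) (TwoF (kc - 5 - (s1 + s2) * (D + 1)) K ∩ S) (w ++ [c]) := by
  have hwSA : w ∈ SA := cy_take ht.1 (by simp)
  obtain ⟨h1, h2⟩ := hrt
  obtain ⟨hh, b1, b2, b3⟩ := mid_pos hwSA hF.2.1 ha ham
  have hbig := hF.2.2.1 a (by omega)
  have hhh : 2 ^ (kc + 4) ≤ hh := by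
    unfold RR at hbig
    have h3 : (2 : ℤ) ^ (kc + 5) = 2 * 2 ^ (kc + 4) := by ring
    have h4 : (1 : ℤ) ≤ 2 ^ (kc + 4) := one_le_pow₀ (by norm_num)
    have h5 : (2 : ℤ) ^ (kc + 4) ≤ hh := by omega
    exact_mod_cast h5
  have hW := HW.of_fd hF
  have hle : e (a + 1) ≤ w.length := (hW.mono (j := a + 1) (k := m) (by omega) le_rfl).trans hF.2.1.le
  obtain ⟨A, hA⟩ : ∃ A, A = s1 * (D + 1) := ⟨_, rfl⟩
  obtain ⟨B, hB⟩ : ∃ B, B = s2 * (D + 1) := ⟨_, rfl⟩
  have hAB : (s1 + s2) * (D + 1) = A + B := by rw [hA, hB]; ring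
  rw [hAB] at hk h1 ⊢
  rw [← hA] at h2 ⊢
  rw [← hB] at h1
  obtain ⟨X, H, Y, h, c1, c2, c3, c4, c5, c6, c7, c8⟩ := root ht b3 hle b1 hhh h1 h2 (by omega) (by omega)
    (b := kc - 5 - (A + B)) (by omega) le_rfl
  refine ⟨X, H, Y ++ [c], h, ?_, c2, ?_, ?_⟩
  · rw [c1]
    simp only [List.append_assoc]
  · rw [show kc - 4 - A = kc - 3 - A - 1 by omega]
    exact c3
  · intro L P R' hL hR' hP hH
    obtain ⟨d1, d2, d3, d4⟩ := c8 L P R' hL hR' hP hH
    refine ⟨?_, d2, ?_⟩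
    · rw [show kc - 3 = kc - 3 - A + A by omega]
      exact d1
    · have e1 : w = (X ++ (L ++ P)) ++ ((R' ++ Y) ++ []) := by
        rw [c1, hH]
        simp only [List.append_assoc, List.append_nil]
      have e2 : R' ++ ((Y ++ [c]) ++ (X ++ L)) = [] ++ ((R' ++ Y) ++ ([c] ++ (X ++ L))) := by
        simp only [List.append_assoc, List.nil_append]
      have e3 : w = [] ++ ((X ++ L) ++ (P ++ (R' ++ Y))) := by
        rw [c1, hH]
        simp only [List.append_assoc, List.nil_append]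
      have e4 : R' ++ ((Y ++ [c]) ++ (X ++ L)) = (R' ++ (Y ++ [c])) ++ ((X ++ L) ++ []) := by
        simp only [List.append_assoc, List.append_nil]
      rcases hS with hS | hS
      · rw [e2]
        refine hS _ _ _ e1 ?_ ⟨u + a, ?_⟩ ?_
        · rw [hH] at c6
          simp only [List.length_append] at c6 ⊢
          omega
        · rw [← e1]
          exact d3
        · rw [← e2]
          exact d2.1
      · rw [e4]
        refine hS _ _ _ e3 ?_ ⟨u + a, ?_⟩ ?_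
        · rw [List.length_append]
          omega
        · rw [← e4]
          exact d4
        · rw [← e4]
          exact d2.1

/-- **U4d**: the root and a plain run behind it or before it -/
theorem root_run {N K kc s1 s2 D m u a l d : ℕ} {w : List Bool} {c : Bool} {e : ℕ → ℕ} {R : Set (List (List Bool))}
    (ht : w ++ [c] ∈ WC N K) (hF : Fd (kc + 5) w m u e) (ha : 1 ≤ a) (ham : a + 2 ≤ m)
    (hrt : lw w (e a) (e (a + 1)) ∈ RtS s1 s2 kc D) (hk : (s1 + s2) * (D + 1) + 10 ≤ kc) (hkK : kc ≤ K) (hd : 1 ≤ d)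
    (hp : (a + 2 ≤ l ∧ l + d + 1 ≤ m) ∨ (1 ≤ l ∧ l + d + 1 ≤ a)) (hR : lws w e l d ∈ R) :
    WinC (2 ^ (kc - 4 - s1 * (D + 1))) (kc - 3) (TwoF (kc - 5 - (s1 + s2) * (D + 1)) K ∩ ERw kc (K - kc) R)
      (w ++ [c]) := by
  have hW := HW.of_fd hF
  have hK : kc + (K - kc) = K := by omega
  refine root_win ht hF ha ham hrt hk ?_
  rcases hp with ⟨h1, h2⟩ | ⟨h1, h2⟩
  · left
    rintro X M Y' rfl hX ⟨k, hk1⟩ hT
    refine erw_of hk1 (k' := 1) (dx_zero_dD _) hF (by rw [hK]; exact hT) (l := l) (d := d) (by omega) hd h2 ?_ ?_ hR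
    · exact hX.trans (hW.mono (by omega) (by omega))
    · have h3 := hW.mono (j := l + d + 1) (k := m) h2 le_rfl
      have h4 := hW.le
      rw [List.append_nil, List.length_append] at h4
      omega
  · right
    rintro X' M Y rfl hX ⟨k, hk1⟩ hT
    refine erw_of (X := []) (k := 1) (dx_zero_dD _) hk1 hF (by rw [hK]; exact hT) (l := l) (d := d) h1 hd (by omega)
      (by simp) ?_ hR
    have h3 := hW.mono (j := l + d + 1) (k := a) h2 (by omega)
    simp only [List.length_nil, zero_add]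
    omega

/-- the root and a run with a merged leaf, behind it or before it -/
theorem root_runG {N K kc s1 s2 D m u a l d0 d ρ : ℕ} {w : List Bool} {c : Bool} {e : ℕ → ℕ}
    {R : Set (List (List Bool))} (ht : w ++ [c] ∈ WC N K) (hF : Fd (kc + 5) w m u e) (ha : 1 ≤ a) (ham : a + 2 ≤ m)
    (hrt : lw w (e a) (e (a + 1)) ∈ RtS s1 s2 kc D) (hk : (s1 + s2) * (D + 1) + 10 ≤ kc) (hkK : kc ≤ K)
    (hp : (a + 2 ≤ l ∧ l + (d0 + (1 + 2 * ρ) + d) + 1 ≤ m) ∨ (1 ≤ l ∧ l + (d0 + (1 + 2 * ρ) + d) + 1 ≤ a))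
    (hM : Mrg w u e (l + d0) (l + d0 + 1 + 2 * ρ))
    (hR : lws w e l d0 ++ (lw w (e (l + d0)) (e (l + d0 + 1 + 2 * ρ)) :: lws w e (l + d0 + 1 + 2 * ρ) d) ∈ R) :
    WinC (2 ^ (kc - 4 - s1 * (D + 1))) (kc - 3) (TwoF (kc - 5 - (s1 + s2) * (D + 1)) K ∩ ERw kc (K - kc) R)
      (w ++ [c]) := by
  have hW := HW.of_fd hF
  have hK : kc + (K - kc) = K := by omega
  refine root_win ht hF ha ham hrt hk ?_
  rcases hp with ⟨h1, h2⟩ | ⟨h1, h2⟩
  · left
    rintro X M Y' rfl hX ⟨k, hk1⟩ hT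
    refine erw_ofM hk1 (k' := 1) (dx_zero_dD _) hF (by rw [hK]; exact hT) (by omega) h2 ?_ ?_ hM hR
    · exact hX.trans (hW.mono (by omega) (by omega))
    · have h3 := hW.mono (j := l + (d0 + (1 + 2 * ρ) + d) + 1) (k := m) h2 le_rfl
      have h4 := hW.le
      rw [List.append_nil, List.length_append] at h4
      omega
  · right
    rintro X' M Y rfl hX ⟨k, hk1⟩ hT
    refine erw_ofM (X := []) (k := 1) (dx_zero_dD _) hk1 hF (by rw [hK]; exact hT) h1 (by omega)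
      (by simp) ?_ hM hR
    have h3 := hW.mono (j := l + (d0 + (1 + 2 * ρ) + d) + 1) (k := a) h2 (by omega)
    simp only [List.length_nil, zero_add]
    omega

/-- **U4d, merged leaf first, the root behind the run; or merged leaf last, the root before the run** -/
theorem root_runM {N K kc s1 s2 D m u a l1 l2 d : ℕ} {w : List Bool} {c : Bool} {e : ℕ → ℕ}
    {R : Set (List (List Bool))} (ht : w ++ [c] ∈ WC N K) (hF : Fd (kc + 5) w m u e) (ha : 1 ≤ a) (ham : a + 2 ≤ m)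
    (hrt : lw w (e a) (e (a + 1)) ∈ RtS s1 s2 kc D) (hk : (s1 + s2) * (D + 1) + 10 ≤ kc) (hkK : kc ≤ K)
    (hM : Mrg w u e l1 l2)
    (hp : (1 ≤ l1 ∧ l2 + d + 1 ≤ a ∧ lw w (e l1) (e l2) :: lws w e l2 d ∈ R) ∨
      (a + 2 + d ≤ l1 ∧ l2 + 1 ≤ m ∧ lws w e (l1 - d) d ++ [lw w (e l1) (e l2)] ∈ R)) :
    WinC (2 ^ (kc - 4 - s1 * (D + 1))) (kc - 3) (TwoF (kc - 5 - (s1 + s2) * (D + 1)) K ∩ ERw kc (K - kc) R)
      (w ++ [c]) := by
  have hM0 := hM
  obtain ⟨m1, m2, -, -⟩ := hM0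
  obtain ⟨ρ, rfl⟩ : ∃ ρ, l2 = l1 + 1 + 2 * ρ := ⟨(l2 - l1) / 2, by omega⟩
  rcases hp with ⟨h1, h2, h3⟩ | ⟨h1, h2, h3⟩
  · refine root_runG ht hF ha ham hrt hk hkK (l := l1) (d0 := 0) (d := d) (ρ := ρ) (Or.inr ⟨h1, by omega⟩) hM ?_
    exact h3
  · obtain ⟨l, rfl⟩ : ∃ l, l1 = l + d := ⟨l1 - d, by omega⟩
    rw [Nat.add_sub_cancel] at h3
    refine root_runG ht hF ha ham hrt hk hkK (l := l) (d0 := d) (d := 0) (ρ := ρ) (Or.inl ⟨by omega, by omega⟩) hM ?_
    exact h3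

end POL

end HexObs
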