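import Pool.Agent.POL.EnsDefs

/-!
POL: one step of the descent with the runs of interior leaves in a box.
-/

set_option autoImplicit false

namespace HexObs

namespace POL

open Finset TS SDN NTW NTA NTA.TN

open scoped ENNReal

/-- a run in a box is in the class -/
lemma mem_RBx {dir : Bool} {kc mu m m' u l x y : ℕ} {t : List Bool} {e : ℕ → ℕ} (ht : t ∈ SA) (hF : Lf dir (kc + 5) t m' u e)
    (hbx : Bx (kc + 5 + mu) t x y) (hx : x ≤ e l) (hy : e (l + m) ≤ y) (hl : 1 ≤ l) (hm : l + m + 1 ≤ m') :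
    lws t e l m ∈ RBx kc mu m := ⟨dir, t, m', u, e, l, x, y, ht, hF, hbx, hx, hy, hl, hm, rfl⟩

/-- a bad run or a partition in the direction dir -/
theorem run_or_partX (dir : Bool) (kc μ m0 J0 x y : ℕ) (h : ℝ) (t : List Bool) (ht : t ∈ SA)
    (hbx : Bx (kc + 5 + μ) t x y) (hxy : x < y) (hm0 : 6 ≤ m0) :
    HasRun dir kc (RBx kc μ m0) t ∨
      HasRun dir kc (RFill kc (μ + 3) m0 (J0 + 1) (LongL kc (μ + 3) h)) t ∨
      Part (fun i => lvl dir (vx oo up t i)) x y (RR (kc + 5)) (m0 + 5) (J0 + 6) (h + 1) := by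
  classical
  obtain ⟨m, u, e, hF⟩ := lf_exists dir (kc + 5) t
  obtain ⟨l, d, hld, hP⟩ := part_run hF hxy hbx.2.1
  by_cases hd : m0 < d
  · -- the crowd
    left
    obtain ⟨l1, l2, l3, l4⟩ : 2 ≤ l ∧ l + d + 1 ≤ m ∧ x ≤ e l ∧ e (l + d) ≤ y := by
      rcases hld with h0 | h0
      · omega
      · exact h0
    exact ⟨m, u, e, hF, l, m0, l1, by omega, by omega,
      mem_RBx ht hF hbx l3 ((lf_mono hF (by omega) (by omega)).trans l4) (by omega) (by omega)⟩
  right
  rw [not_lt] at hd
  by_cases hJ : ((range d).filter (fun i => 1 ≤ i ∧ lw t (e (l + i)) (e (l + i + 1)) ∈ {g : List Bool | h ≤ g.length})).card ≤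
      J0
  · right
    refine hP m0 J0 {g : List Bool | h ≤ g.length} h ?_ hd hJ
    intro g hg
    rw [Set.mem_ofPred_eq, not_le] at hg
    exact hg.le
  · left
    rw [not_le] at hJ
    have hd1 : 1 ≤ d := by
      rcases Nat.eq_zero_or_pos d with h0 | h0
      · rw [h0] at hJ
        simp at hJ
      · exact h0
    obtain ⟨l1, l2, l3, l4⟩ : 2 ≤ l ∧ l + d + 1 ≤ m ∧ x ≤ e l ∧ e (l + d) ≤ y := by
      rcases hld with h0 | h0
      · omega
      · exact h0
    have hbr := run_box ht hF hbx l3 l4 (by omega) l2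
    have hbr' : ∀ g ∈ lws t e l d, g ∈ BrR (2 ^ (kc + 4)) (2 ^ (kc + (μ + 3) + 2)) := by
      intro g hg
      obtain ⟨a, a1, a2, a3⟩ := hbr g hg
      refine ⟨a, a1, a2.trans ?_, a3⟩
      rw [show kc + (μ + 3) + 2 = kc + 5 + μ by ring]
    refine ⟨m, u, e, hF, l, d, l1, hd1, l2, ?_, hbr', ?_⟩
    · rw [PE.lws_length]
      exact hd
    · have h1 : ((lws t e l d).tail.filter (fun g => decide (g ∈ LongL kc (μ + 3) h))).length =
          ((range d).filter (fun i => 1 ≤ i ∧ lw t (e (l + i)) (e (l + i + 1)) ∈ {g : List Bool | h ≤ g.length})).card := by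
        unfold lws
        rw [card_filter_le_length]
        apply congrArg
        apply Finset.filter_congr
        intro i hi
        rw [Finset.mem_range] at hi
        rw [decide_eq_true_eq]
        refine and_congr_right fun _ => ?_
        constructor
        · intro h2
          exact h2.2
        · intro h2
          refine ⟨hbr' _ ?_, h2⟩
          unfold lws
          exact List.mem_map.2 ⟨i, List.mem_range.2 hi, rfl⟩
      rw [h1]
      omega

/-- **one step of the descent** -/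
theorem stepB : StepB := by
  intro kc μ m0 J0 x y h S1 t ht hm0 hh hS1 hc hf hS hbx
  rcases Nat.lt_or_ge x y with hxy | hxy
  · have hP : ∀ dir, Part (fun i => lvl dir (vx oo up t i)) x y (RR (kc + 5)) (m0 + 5) (J0 + 6) (h + 1) := by
      intro dir
      rcases run_or_partX dir kc μ m0 J0 x y h t ht hbx hxy hm0 with h1 | h1 | h1
      · exact absurd h1 (hc dir)
      · exact absurd h1 (hf dir)
      · exact h1
    have := step_box (b := kc + 5) (by omega) hbx (by linarith) hS1 (fun x' y' _ _ hb => hS x' y' hb) (hP false) (hP true)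
    push_cast at this
    exact this
  · have h1 : (y : ℝ) ≤ x := by exact_mod_cast hxy
    have h2 : (0 : ℝ) ≤ 2 * (m0 + 5) * (h + 1) := by positivity
    have h3 : (0 : ℝ) ≤ (J0 + 6) ^ 2 * (2 ^ (μ + 5) * (S1 + 1)) := by positivity
    linarith

/-- **one step of the descent with its numbers** -/
theorem stepS : StepS := by
  intro m hm ν J0 N q kc y S2 t ht hN hJ hy hS0 hS2 h1 hc hf x z hb hlen
  by_contra hcon
  push Not at hcon
  have hM0 := hm.pos (kc + 4 + 8 * ν)
  have hMb := hm.pos (kc + 5)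
  have hM1 := hm.pos (kc + 4)
  have hyM : 0 ≤ y * m (kc + 5) := by linarith
  have h2 := stepB kc (8 * ν + 1) N J0 x z (y * m (kc + 5) + 2 * S2 + 4) (2 ^ ν * 2 ^ q * m (kc + 4)) t ht hN
    (by linarith) (by linarith) hc hf (fun x' z' hb' => by
      have := hcon x' z' hb'
      rw [pow_add] at this
      linarith) hb
  have h3 : (2 : ℝ) ^ (10 * ν) * m (kc + 4) ≤ m (kc + 4 + 8 * ν) := by
    refine le_trans (le_of_eq ?_) (hm.low (kc + 4) (8 * ν))
    rw [← Real.rpow_natCast]
    congr 2
    push_cast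
    ring
  have h4 := step_num (N := N) (J0 := J0) (ν := ν) (P := 2 ^ q) (M0 := m (kc + 4 + 8 * ν)) (M1 := m (kc + 4)) (y := y)
    (Mb := m (kc + 5)) (S2 := S2) (by positivity) hM0 hMb h3 h1 hJ hy hS2
  linarith

end POL

end HexObs
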