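import Pool.Agent.POL.Ens
import Pool.Agent.POL.EnsQ
import Pool.Agent.POL.StepX
import Pool.Agent.POL.Dir
import Pool.Agent.POL.Master
import Pool.Agent.POL.REM
import Pool.Agent.POL.RootRun
import Pool.Agent.EN.ExtM

/-!
POL: the closed words in a small box, for the mean length of the pieces; only the norms of the windows are left.
-/

set_option autoImplicit false

namespace HexObs

namespace POL

open Finset TS SDN NTW NTA JNT

open scoped ENNReal

theorem dirC : DirC := ⟨0, fun _ _ _ _ _ _ _ _ _ _ _ _ h1 h2 h3 => dir_run h1 h2 h3⟩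

theorem req : REq := re_N

theorem rootRun : RootRun := fun _ _ _ _ _ _ _ _ _ _ _ _ _ _ _ _ _ ht hF hk hkK ha ham hrt hd hp hR =>
  root_run ht hF ha ham hrt hk hkK hd hp hR

/-- the tail of the lengths of the infixes, index dependent normalisation -/
theorem tailQ_M : TailQ mM := infix_tailQ mlow_M mup_M mpow_M longN_M tb_M stepB stepS

theorem masterP_of (hNA : NormAll) : MasterP (w4 mM) := by
  obtain ⟨s3, M, k0, C, hC, hM, h⟩ := master hNA req rootRun
  have hC0 : 0 < C := by linarith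
  refine ⟨2 * C ^ 2, k0 + s3 * 2, M, by nlinarith [one_le_pow₀ hC (n := 2)], fun N kc J R1 R2 δ hN hk hJ hδ _ _ h1 h2 => ?_⟩
  refine (h N kc J 1 R1 R2 δ δ hN (by omega) hJ le_rfl (by omega) hδ hδ h1 h2).trans (ENNReal.ofReal_le_ofReal ?_)
  have hw := w4_pos mlow_M (kc + J)
  have h3 : (2 : ℝ) * C ^ (J + 1) ≤ (2 * C ^ 2) ^ J := by
    rw [mul_pow, ← pow_mul]
    have h5 : (2 : ℝ) ≤ 2 ^ J := by
      calc (2 : ℝ) = 2 ^ 1 := (pow_one 2).symm
        _ ≤ 2 ^ J := pow_le_pow_right₀ (by norm_num) (by omega)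
    have h6 : C ^ (J + 1) ≤ C ^ (2 * J) := pow_le_pow_right₀ hC (by omega)
    gcongr
  calc (C ^ (J + 1) * δ + C ^ (J + 1) / 2 ^ 1 * (δ + δ)) * (N / w4 mM (kc + J))
      = 2 * C ^ (J + 1) * δ * (N / w4 mM (kc + J)) := by ring
    _ ≤ (2 * C ^ 2) ^ J * δ * (N / w4 mM (kc + J)) := by gcongr
    _ = (2 * C ^ 2) ^ J * δ * N / w4 mM (kc + J) := by ring

/-- **the closed words in a small box** -/
theorem small_of (hNA : NormAll) : ∀ Q : ℕ, ∃ A : ℝ, 1 ≤ A ∧ ∀ (N K : ℕ) (lam : ℝ), 1 ≤ N → 1 ≤ lam →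
    lam * mM K + 1 ≤ N → gf (WC N K) ≤ ENNReal.ofReal (A / lam ^ Q * (N / w4 mM K)) := by
  obtain ⟨Cw, hCw, hup⟩ := w4_up mup_M
  exact closed_small (w4_pos mlow_M) hCw hup tailQ_M (masterP_of hNA) dirC

end POL

end HexObs
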