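import Pool.Agent.POL.Sel
import Pool.Agent.POL.RootRun

/-!
POL, U4d: the literal of the cut at a root-good leaf, for a run with a merged leaf.
-/

set_option autoImplicit false

namespace HexObs

namespace POL

open Finset TS SDN NTW NTA SIM JNT

open scoped ENNReal Classical

/-- **RootRunM**: the run with a merged leaf -/
theorem rootRunM (s1 s2 N K kc D a m u l1 l2 d : ℕ) (w : List Bool) (c : Bool) (e : ℕ → ℕ) (R : Set (List (List Bool)))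
    (_ : 1 ≤ s1) (_ : 1 ≤ s2) (ht : w ++ [c] ∈ WC N K) (hF : Fd (kc + 5) w m u e)
    (hk : (s1 + s2) * (D + 1) + 10 ≤ kc) (hkK : kc ≤ K) (ha : 1 ≤ a) (ham : a + 2 ≤ m)
    (hrt : lw w (e a) (e (a + 1)) ∈ RtS s1 s2 kc D) (hl1 : 1 ≤ l1) (hM : Mrg w u e l1 l2) (hl2 : l2 + 1 ≤ m)
    (hp : (l2 + d + 1 ≤ a ∧ lw w (e l1) (e l2) :: lws w e l2 d ∈ R) ∨
      (a + 2 + d ≤ l1 ∧ lws w e (l1 - d) d ++ [lw w (e l1) (e l2)] ∈ R)) :
    WinC (2 ^ (kc - 4 - s1 * (D + 1))) (kc - 3) (TwoF (kc - 5 - (s1 + s2) * (D + 1)) K ∩ ERw kc (K - kc) R)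
      (w ++ [c]) := by
  refine root_runM (l1 := l1) (l2 := l2) (d := d) ht hF ha ham hrt hk hkK hM ?_
  rcases hp with ⟨h1, h2⟩ | ⟨h1, h2⟩
  · exact Or.inl ⟨hl1, h1, h2⟩
  · exact Or.inr ⟨h1, hl2, h2⟩

end POL

end HexObs
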