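import Pool.Agent.POL.BigA
import Pool.Agent.POL.EnsM
import Pool.Agent.POL.RootLit

/-!
POL, the closed words with a large extent, part 2: **the layers of the upper bound**.
-/

set_option autoImplicit false

namespace HexObs

namespace POL

open Finset TS SDN NTW NTA SIM JNT

open scoped ENNReal

/-- tall leaves without backtracks of the scale kc + 6 -/
def RTt (kc J c : ℕ) : Set (List (List Bool)) :=
  {gs | ∃ g ∈ {g : List Bool | g ∈ CL (kc + 6) ∧ 2 ^ (kc + J) ≤ c * hgt g}, gs = [g]}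

lemma lws_brr {w : List Bool} {kc J m u l d : ℕ} {e : ℕ → ℕ} (hw : w ∈ WL (kc + J)) (h : Fd (kc + 5) w m u e)
    (h1 : 1 ≤ l) (h2 : l + d + 1 ≤ m) : ∀ x ∈ lws w e l d, x ∈ BrR (2 ^ (kc + 4)) (2 ^ (kc + J + 2)) := by
  intro x hx
  obtain ⟨i, hi, rfl⟩ := List.mem_iff_getElem.1 hx
  have hi' : i < d := by rwa [lws_len] at hi
  rw [lws_getE w e l d i hi]
  exact leafB hw h (by omega) (by omega)

/-- many leaves of the scale kc + 5 -/
lemma in_A {w : List Bool} {kc J m u M : ℕ} {e : ℕ → ℕ} (hw : w ∈ WL (kc + J)) (h : Fd (kc + 5) w m u e)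
    (hm : M + 4 ≤ m) : w ∈ HRf kc (WinR kc J M (Sgl kc J) (Sgl kc J)) := by
  refine ⟨m, u, e, h, 1, M + 2, le_rfl, by omega, by omega, ?_⟩
  have hb := lws_brr hw h (l := 1) (d := M + 2) le_rfl (by omega)
  have hlen := lws_len w e 1 (M + 2)
  generalize lws w e 1 (M + 2) = ms at hb hlen
  obtain ⟨g0, t, rfl⟩ := List.exists_cons_of_length_pos (by omega : 0 < ms.length)
  rw [List.length_cons] at hlen
  have h1 : t ≠ [] := by
    rintro rfl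
    simp at hlen
  refine ⟨[g0], t.dropLast, [t.getLast h1], ?_, ⟨g0, rfl, hb _ (by simp)⟩, by simp,
    ⟨_, rfl, hb _ (List.mem_cons_of_mem _ (List.getLast_mem h1))⟩, by simp, by rw [List.length_dropLast]; omega⟩
  rw [List.dropLast_append_getLast h1]
  rfl

lemma rTt_norm {Kt : ℝ} {st : ℕ} (htall : ∀ k V : ℕ,
    SmD DmJ k {g | g ∈ CL (k + 5 + 1) ∧ g ∈ HB (2 ^ (k + 4)) ∧ V * 2 ^ (k + st) ≤ hgt g} (Kt / 4 ^ V)) {kc J c : ℕ}
    (hc : 2 ≤ c) : SmR DmJ kc (RTt kc J c) (Kt / 4 ^ (2 ^ (J - st) / c)) := by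
  refine smR_hb (NTA.SmR_mono ?_ (smR_single (htall kc (2 ^ (J - st) / c))))
  rintro gs ⟨g, ⟨⟨h1, h2⟩, h3⟩, rfl⟩
  refine ⟨g, ⟨h1, h3, ?_⟩, rfl⟩
  rcases Nat.lt_or_ge J st with h4 | h4
  · rw [show J - st = 0 by omega, pow_zero, Nat.div_eq_of_lt (by omega), zero_mul]
    exact Nat.zero_le _
  · have h5 : 2 ^ (J - st) / c * c ≤ 2 ^ (J - st) := Nat.div_mul_le_self _ _
    have h6 : 2 ^ (J - st) * 2 ^ (kc + st) = 2 ^ (kc + J) := by
      rw [← pow_add]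
      congr 1
      omega
    have h7 : c * (2 ^ (J - st) / c * 2 ^ (kc + st)) ≤ c * hgt g := by
      calc c * (2 ^ (J - st) / c * 2 ^ (kc + st)) = 2 ^ (J - st) / c * c * 2 ^ (kc + st) := by ring
        _ ≤ 2 ^ (J - st) * 2 ^ (kc + st) := Nat.mul_le_mul_right _ h5
        _ = 2 ^ (kc + J) := h6
        _ ≤ c * hgt g := h2
    exact Nat.le_of_mul_le_mul_left h7 (by omega)

/-- many leaves at the scale B - 1 -/
theorem layA (hNA : NormAll) : ∃ (M k0 : ℕ) (A : ℝ), 1 ≤ A ∧ ∀ N B : ℕ, 1 ≤ N → k0 ≤ B →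
    gf (RotC N B (HRf (B - 6) (WinR (B - 6) 6 M (Sgl (B - 6) 6) (Sgl (B - 6) 6)))) ≤
      ENNReal.ofReal (A * (N / w4 mM B)) := by
  obtain ⟨s3, M, k0, C, hC, hM, h⟩ := master hNA req rootRun
  obtain ⟨Kb, hKb, hbox⟩ := EN.smD_box
  have hC0 : 0 < C := by linarith
  have hKb0 : 0 < Kb := by linarith
  obtain ⟨A, hA⟩ : ∃ A, A = C ^ (6 + 1) * (Kb * 2 ^ 6) + C ^ (6 + 1) / 2 ^ 1 * (Kb * 2 ^ 6 + Kb * 2 ^ 6) := ⟨_, rfl⟩
  have hA1 : 1 ≤ A := by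
    have h1 : 1 ≤ C ^ (6 + 1) := one_le_pow₀ hC
    have h2 : 1 ≤ C ^ (6 + 1) * (Kb * 2 ^ 6) := one_le_mul_of_one_le_of_one_le h1 (by linarith)
    have h3 : 0 ≤ C ^ (6 + 1) / 2 ^ 1 * (Kb * 2 ^ 6 + Kb * 2 ^ 6) := by positivity
    rw [hA]
    exact le_add_of_le_of_nonneg h2 h3
  refine ⟨M, k0 + s3 * 2 + 6, A, hA1, fun N B hN hB => ?_⟩
  obtain ⟨kc, rfl⟩ : ∃ kc, B = kc + 6 := ⟨B - 6, by omega⟩
  rw [Nat.add_sub_cancel]
  have hS : SmR DmJ kc (Sgl kc 6) (Kb * 2 ^ 6) := by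
    have h1 := smR_single (hbox kc 6)
    refine NTA.SmR_mono ?_ h1
    rintro r ⟨g, rfl, hg⟩
    exact ⟨g, hg, rfl⟩
  refine (h N kc 6 1 (Sgl kc 6) (Sgl kc 6) (Kb * 2 ^ 6) (Kb * 2 ^ 6) hN (by omega) le_rfl le_rfl (by omega)
    (by positivity) (by positivity) hS hS).trans (le_of_eq ?_)
  rw [hA]

/-- many leaves at the scale B - J + 5, few leaves at the next scale -/
theorem layB (hNA : NormAll2) : ∃ M2 q k0 : ℕ, 2 ≤ q ∧ ∀ Mb : ℕ, M2 ≤ Mb → ∃ A : ℝ, 1 ≤ A ∧ ∀ N B J : ℕ, 1 ≤ N →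
    k0 + q * J ≤ B → 6 ≤ J → gf (RotC N B (HRm (B - J) (RunTl (B - J) J Mb))) ≤
      ENNReal.ofReal (A * (N / w4 mM B) * (1 / 2) ^ J) := by
  obtain ⟨s3, M, k0, C, hC, hM, h⟩ := master2 hNA req rootRun rootRunM
  obtain ⟨Kt, st, hKt, htall⟩ := tall_coarse 1
  have hC0 : 0 < C := by linarith
  have hKt0 : 0 < Kt := by linarith
  obtain ⟨L, hL⟩ : ∃ L : ℕ, 2 * C ^ 2 ≤ 2 ^ L :=
    pow_unbounded_of_one_lt (2 * C ^ 2) (by norm_num : (1 : ℝ) < 2) |>.imp fun _ h => h.le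
  have hL1 : 1 ≤ L := by
    by_contra hc
    have h1 : L = 0 := by omega
    subst h1
    rw [pow_zero] at hL
    have : 1 ≤ C ^ 2 := one_le_pow₀ hC
    linarith
  refine ⟨M + 2, s3 * (L + 1) + 2, k0 + 1, by omega, fun Mb hMb => ?_⟩
  obtain ⟨c, hc⟩ : ∃ c, c = 8 * (2 * Mb + 10) ^ 2 := ⟨_, rfl⟩
  have hc2 : 2 ≤ c := by
    rw [hc]
    have : 1 ≤ (2 * Mb + 10) ^ 2 := Nat.one_le_pow _ _ (by omega)
    omega
  have hx1 : 1 ≤ 2 * C ^ (1 + L) := by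
    have : 1 ≤ C ^ (1 + L) := one_le_pow₀ hC
    linarith
  obtain ⟨A, hA, hdx⟩ := dexp hx1 (le_refl 1) (show 1 ≤ c by omega) st
  refine ⟨A * Kt + 1, by nlinarith, fun N B J hN hB hJ => ?_⟩
  have hJB : J ≤ (s3 * (L + 1) + 2) * J := Nat.le_mul_of_pos_left _ (by omega)
  obtain ⟨kc, rfl⟩ : ∃ kc, B = kc + J := ⟨B - J, by omega⟩
  rw [Nat.add_sub_cancel]
  have hkc : k0 + 1 + (s3 * (L + 1) + 1) * J ≤ kc := by
    have : (s3 * (L + 1) + 2) * J = (s3 * (L + 1) + 1) * J + J := by ring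
    omega
  have hk0 : k0 ≤ kc := by omega
  have hs3 : s3 * (L * J + 1) ≤ kc := by
    have h1 : s3 * (L * J + 1) ≤ s3 * (L + 1) * J := by
      calc s3 * (L * J + 1) ≤ s3 * (L * J + J) := Nat.mul_le_mul_left _ (by omega)
        _ = s3 * (L + 1) * J := by ring
    have h2 : s3 * (L + 1) * J ≤ (s3 * (L + 1) + 1) * J := Nat.mul_le_mul_right _ (by omega)
    omega
  have hLJ : 1 ≤ L * J := Nat.one_le_iff_ne_zero.2 (Nat.mul_ne_zero (by omega) (by omega))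
  have hsub : HRm kc (RunTl kc J Mb) ⊆ HRm kc (TlR (M + 2) (RTt kc J c)) := by
    refine (hrm_mono ?_).trans (hrm_shrink (n := Mb) (by omega) hMb)
    rintro gs ⟨g, ms, h1, h2, h3, h4, -⟩
    exact ⟨g, ms, h1, h2, g, ⟨h3, by rw [hc]; exact h4⟩, rfl⟩
  have hrot : RotC N (kc + J) (HRm kc (RunTl kc J Mb)) ⊆ RotC N (kc + J) (HRm kc (TlR (M + 2) (RTt kc J c))) := by
    rintro t ⟨h1, X, Y, w, b, h2, h3, h4⟩
    exact ⟨h1, X, Y, w, b, h2, h3, hsub h4⟩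
  obtain ⟨V, hV⟩ : ∃ V, V = 2 ^ (J - st) / c := ⟨_, rfl⟩
  have hnorm := rTt_norm htall (kc := kc) (J := J) hc2
  rw [← hV] at hnorm
  have hdJ := hdx J
  rw [Nat.div_one, ← hV] at hdJ
  refine (gf_mono hrot).trans ((h N kc J (L * J) (RTt kc J c) (Kt / 4 ^ V) hN hk0 hJ hLJ hs3 (by positivity) hnorm).trans
    (ENNReal.ofReal_le_ofReal ?_))
  have hw := w4_pos mlow_M (kc + J)
  have e1 : C ^ (J + L * J) * (Kt / 4 ^ V) ≤ A * Kt * (1 / 2) ^ J := by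
    have e2 : C ^ (J + L * J) = (2 * C ^ (1 + L)) ^ J * (1 / 2) ^ J := by
      rw [← mul_pow, show J + L * J = (1 + L) * J by ring, pow_mul]
      congr 1
      ring
    rw [e2]
    calc (2 * C ^ (1 + L)) ^ J * (1 / 2) ^ J * (Kt / 4 ^ V) ≤ (A * 4 ^ V) * (1 / 2) ^ J * (Kt / 4 ^ V) := by gcongr
      _ = A * Kt * (1 / 2) ^ J := by field_simp
  have e3 : C ^ (J + 1) / 2 ^ (L * J) ≤ (1 / 2) ^ J := by
    rw [div_le_iff₀ (by positivity)]
    calc C ^ (J + 1) ≤ C ^ (2 * J) := pow_le_pow_right₀ hC (by omega)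
      _ = (1 / 2) ^ J * (2 * C ^ 2) ^ J := by
          rw [← mul_pow, pow_mul]
          congr 1
          ring
      _ ≤ (1 / 2) ^ J * (2 ^ L) ^ J := by gcongr
      _ = (1 / 2) ^ J * 2 ^ (L * J) := by rw [← pow_mul]
  calc (C ^ (J + L * J) * (Kt / 4 ^ V) + C ^ (J + 1) / 2 ^ (L * J)) * (N / w4 mM (kc + J))
      ≤ (A * Kt * (1 / 2) ^ J + (1 / 2) ^ J) * (N / w4 mM (kc + J)) := by gcongr
    _ = (A * Kt + 1) * (N / w4 mM (kc + J)) * (1 / 2) ^ J := by ring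

/-- few leaves at a scale much smaller than the box -/
theorem layC {q T : ℕ} (hq : 2 ≤ q) (hT : 1 ≤ T) : ∃ (s k0 : ℕ) (A : ℝ), 1 ≤ A ∧ 5 ≤ s ∧ ∀ N B : ℕ, 1 ≤ N → k0 ≤ B →
    gf {t | t ∈ Cy N ∧ ∃ (X Y w : List Bool) (c : Bool), t = X ++ Y ∧ Y ++ X = w ++ [c] ∧
      w ∈ ER (B - B / q) (B / q) (RunT (B - B / q) s (2 ^ (B / q - (s + 2)) / T))} ≤
      ENNReal.ofReal (A * (N / w4 mM B)) := by
  obtain ⟨s0, K, hK, hR⟩ := runTall
  obtain ⟨C, k0, hC, hE⟩ := TL.evER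
  obtain ⟨D, hD, hDX⟩ := Xb_pow
  obtain ⟨Cm, hCm, hup⟩ := TI.mup_pow (w4_up mup_M)
  obtain ⟨x, hx0, hx⟩ : ∃ x : ℝ, 0 < x ∧ Xb 0 = ENNReal.ofReal x :=
    ⟨(Xb 0).toReal, ENNReal.toReal_pos (Xb_ne_zero 0) (Xb_ne_top 0), (ENNReal.ofReal_toReal (Xb_ne_top 0)).symm⟩
  have hC0 : 0 < C := by linarith
  have hD0 : 0 < D := by linarith
  have hCm0 : 0 < Cm := by linarith
  have hK0 : 0 < K := by linarith
  obtain ⟨s, hs⟩ : ∃ s, s = s0 + 5 := ⟨_, rfl⟩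
  have hw0 := w4_pos mlow_M 0
  obtain ⟨Y, hY⟩ : ∃ Y, Y = C * 2 * D ^ 2 * Cm := ⟨_, rfl⟩
  have hY1 : 1 ≤ Y := by
    rw [hY]
    exact one_le_mul_of_one_le_of_one_le (one_le_mul_of_one_le_of_one_le (by linarith) (one_le_pow₀ hD)) hCm
  obtain ⟨A, hA, hdx⟩ := dexp hY1 (show 1 ≤ q by omega) hT (s + 2)
  refine ⟨s, 2 * k0 + 6 * q, 4 * K * x ^ 2 * w4 mM 0 * A + 1, ?_, by omega, fun N B hN hB => ?_⟩
  · have : 0 ≤ 4 * K * x ^ 2 * w4 mM 0 * A := by positivity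
    linarith
  obtain ⟨J, hJ⟩ : ∃ J, J = B / q := ⟨_, rfl⟩
  have hJ6 : 6 ≤ J := by
    rw [hJ, Nat.le_div_iff_mul_le (by omega)]
    omega
  have hJB : 2 * J ≤ B := by
    have h1 : J * q ≤ B := by
      rw [hJ]
      exact Nat.div_mul_le_self _ _
    have h2 : J * 2 ≤ J * q := Nat.mul_le_mul_left _ hq
    omega
  obtain ⟨V, hV⟩ : ∃ V, V = 2 ^ (B / q - (s + 2)) / T := ⟨_, rfl⟩
  have hdB := hdx B
  rw [← hV] at hdB ⊢
  rw [← hJ]
  obtain ⟨kc, rfl⟩ : ∃ kc, B = kc + J := ⟨B - J, by omega⟩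
  rw [Nat.add_sub_cancel]
  have hwB := w4_pos mlow_M (kc + J)
  have hU := Ub_pos (kc + J)
  have hU2 : Ub (kc + J) ≤ 2 ^ (kc + J + 1) := NTA.LQ.Ub_le (kc + J)
  have hNR : (0 : ℝ) < N := by exact_mod_cast hN
  have hRs : SmR DmJ kc (RunT kc s V) (K / 4 ^ V) := by
    refine SIM.SmR_mono ?_ (hR kc V)
    rintro gs ⟨g, h1, h2, h3, h4⟩
    refine ⟨g, h1, h2, h3, le_trans ?_ h4⟩
    exact Nat.mul_le_mul_left _ (Nat.pow_le_pow_right (by norm_num) (by omega))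
  have h1 := hE kc J (RunT kc s V) (K / 4 ^ V) (by omega) hJ6 (by positivity) hRs
  have h2 : Xb (kc + J) ≤ ENNReal.ofReal (D ^ (kc + J) * x) := by
    have := hDX 0 (kc + J)
    rw [Nat.zero_add, hx, ← ENNReal.ofReal_mul (by positivity)] at this
    exact this
  have h3 : gf (ER kc J (RunT kc s V)) ≤
      ENNReal.ofReal (C ^ J * (K / 4 ^ V) * Ub (kc + J) * (D ^ (kc + J) * x) ^ 2) := by
    refine h1.trans ((mul_le_mul' le_rfl (pow_le_pow_left' h2 2)).trans ?_)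
    rw [← ENNReal.ofReal_pow (by positivity), ← ENNReal.ofReal_mul (by positivity)]
  refine (rot_triv (ER kc J (RunT kc s V)) hN fun t ht => ht).trans ?_
  have h4 : (2 : ℝ≥0∞) * (N : ℝ≥0∞) = ENNReal.ofReal (2 * N) := by
    rw [ENNReal.ofReal_mul (by norm_num), ENNReal.ofReal_natCast]
    norm_num
  rw [h4]
  refine (mul_le_mul' le_rfl h3).trans ?_
  rw [← ENNReal.ofReal_mul (by positivity)]
  refine ENNReal.ofReal_le_ofReal ?_
  have e1 : 1 ≤ Cm ^ (kc + J) * w4 mM 0 / w4 mM (kc + J) := by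
    rw [le_div_iff₀ hwB, one_mul]
    have := hup 0 (kc + J)
    rwa [Nat.zero_add] at this
  have e2 : C ^ J ≤ C ^ (kc + J) := pow_le_pow_right₀ hC (by omega)
  have e3 : C ^ J * (K / 4 ^ V) * Ub (kc + J) * (D ^ (kc + J) * x) ^ 2 ≤
      C ^ (kc + J) * (K / 4 ^ V) * 2 ^ (kc + J + 1) * (D ^ (kc + J) * x) ^ 2 := by gcongr
  have e4 : (2 : ℝ) * N * (C ^ (kc + J) * (K / 4 ^ V) * 2 ^ (kc + J + 1) * (D ^ (kc + J) * x) ^ 2) *
      (Cm ^ (kc + J) * w4 mM 0 / w4 mM (kc + J)) =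
      4 * K * x ^ 2 * w4 mM 0 * (Y ^ (kc + J) / 4 ^ V) * (N / w4 mM (kc + J)) := by
    have e6 : (D ^ (kc + J) * x) ^ 2 = (D ^ 2) ^ (kc + J) * x ^ 2 := by
      rw [mul_pow, ← pow_mul, ← pow_mul, mul_comm (kc + J) 2]
    rw [hY, e6, mul_pow (C * 2 * D ^ 2) Cm, mul_pow (C * 2) (D ^ 2), mul_pow C 2, pow_succ]
    field_simp
    ring
  have e5 : Y ^ (kc + J) / 4 ^ V ≤ A := by
    rw [div_le_iff₀ (by positivity)]
    exact hdB
  calc 2 * (N : ℝ) * (C ^ J * (K / 4 ^ V) * Ub (kc + J) * (D ^ (kc + J) * x) ^ 2)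
      ≤ 2 * N * (C ^ (kc + J) * (K / 4 ^ V) * 2 ^ (kc + J + 1) * (D ^ (kc + J) * x) ^ 2) := by gcongr
    _ ≤ 2 * N * (C ^ (kc + J) * (K / 4 ^ V) * 2 ^ (kc + J + 1) * (D ^ (kc + J) * x) ^ 2) *
        (Cm ^ (kc + J) * w4 mM 0 / w4 mM (kc + J)) := le_mul_of_one_le_right (by positivity) e1
    _ = 4 * K * x ^ 2 * w4 mM 0 * (Y ^ (kc + J) / 4 ^ V) * (N / w4 mM (kc + J)) := e4
    _ ≤ 4 * K * x ^ 2 * w4 mM 0 * A * (N / w4 mM (kc + J)) := by gcongr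
    _ ≤ (4 * K * x ^ 2 * w4 mM 0 * A + 1) * (N / w4 mM (kc + J)) := by
        have : 0 ≤ (N : ℝ) / w4 mM (kc + J) := by positivity
        linarith

/-- the leaf chains of the scale b = B - J + 5 with at least T leaves -/
def ManyL (w : List Bool) (B T J : ℕ) : Prop :=
  ∃ (m u : ℕ) (e : ℕ → ℕ), Fd (B - J + 5) w m u e ∧ u % 2 = 1 ∧ e 0 = 0 ∧ e m = w.length ∧ T ≤ m

/-- the selection of the scale -/
lemma sel_scale {P : ℕ → Prop} {Jm : ℕ} (h6 : ¬ P 6) (hJm : 6 ≤ Jm) :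
    (∃ J, 7 ≤ J ∧ J ≤ Jm ∧ P J ∧ ¬ P (J - 1)) ∨ ¬ P Jm := by
  classical
  by_cases hex : ∃ J, 7 ≤ J ∧ J ≤ Jm ∧ P J
  · left
    obtain ⟨h1, h2, h3⟩ := Nat.find_spec hex
    refine ⟨Nat.find hex, h1, h2, h3, fun h4 => ?_⟩
    rcases Nat.lt_or_ge 7 (Nat.find hex) with h5 | h5
    · exact Nat.find_min hex (m := Nat.find hex - 1) (by omega) ⟨by omega, by omega, h4⟩
    · rw [show Nat.find hex - 1 = 6 by omega] at h4
      exact h6 h4
  · right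
    intro h
    rcases Nat.lt_or_ge 6 Jm with h7 | h7
    · exact hex ⟨Jm, by omega, le_rfl, h⟩
    · rw [show Jm = 6 by omega] at h
      exact h6 h

/-- **the layers of the upper bound** -/
theorem upU_of (hNA : NormAll2) : ∃ (C : ℝ) (k0 : ℕ), 0 ≤ C ∧ ∀ N K : ℕ, 1 ≤ N → k0 ≤ K →
    gf (WC N (K + 1) \ WC N K) ≤ ENNReal.ofReal (C * (N : ℝ) / w4 mM (K + 1)) := by
  obtain ⟨M1, k1, A1, hA1, hA⟩ := layA (normAll_of hNA)
  obtain ⟨M2, q, k2, hq, hB⟩ := layB hNA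
  obtain ⟨Mb, hMb⟩ : ∃ Mb, Mb = M1 + M2 + 4 := ⟨_, rfl⟩
  obtain ⟨A2, hA2, hB⟩ := hB Mb (by omega)
  obtain ⟨T, hT⟩ : ∃ T, T = 2 * Mb + 10 := ⟨_, rfl⟩
  obtain ⟨s, k3, A3, hA3, hs, hC⟩ := layC (q := 2 * q) (T := T) (by omega) (by omega)
  refine ⟨A1 + 2 * A2 + A3, k1 + 2 * k2 + k3 + 14 * q + 36 * T ^ 2 + 2 * q * (T + s + 2), by linarith,
    fun N K hN hK => ?_⟩
  obtain ⟨B, hBK⟩ : ∃ B, B = K + 1 := ⟨_, rfl⟩
  obtain ⟨Jm, hJm⟩ : ∃ Jm, Jm = B / (2 * q) := ⟨_, rfl⟩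
  have h14 : 14 * q ≤ B := by omega
  have hJ7 : 7 ≤ Jm := by
    rw [hJm, Nat.le_div_iff_mul_le (by omega)]
    omega
  have hJT : T + s + 2 ≤ Jm := by
    rw [hJm, Nat.le_div_iff_mul_le (by omega)]
    have : (T + s + 2) * (2 * q) = 2 * q * (T + s + 2) := by ring
    omega
  have hqJ : 2 * (q * Jm) ≤ B := by
    have h1 : Jm * (2 * q) ≤ B := by
      rw [hJm]
      exact Nat.div_mul_le_self _ _
    have : Jm * (2 * q) = 2 * (q * Jm) := by ring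
    omega
  have hJq : 2 * Jm ≤ q * Jm := Nat.mul_le_mul_right _ hq
  rw [← hBK]
  have hcov : WC N B \ WC N K ⊆ RotC N B (HRf (B - 6) (WinR (B - 6) 6 M1 (Sgl (B - 6) 6) (Sgl (B - 6) 6))) ∪
      ((⋃ J ∈ Icc 7 Jm, RotC N B (HRm (B - J) (RunTl (B - J) J Mb))) ∪
        {t | t ∈ Cy N ∧ ∃ (X Y w : List Bool) (c : Bool), t = X ++ Y ∧ Y ++ X = w ++ [c] ∧
          w ∈ ER (B - B / (2 * q)) (B / (2 * q)) (RunT (B - B / (2 * q)) s (2 ^ (B / (2 * q) - (s + 2)) / T))}) := by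
    rintro t ⟨ht, htK⟩
    obtain ⟨X, Y, w, c, τ, hX, hY, hw, hbot, hfd⟩ := bot_wc ht (by omega) htK
    have hRR : ∀ b, b ≤ K → RR b ≤ 3 * 2 ^ K := by
      intro b hb
      have h1 : (2 : ℤ) ^ b ≤ 2 ^ K := pow_le_pow_right₀ (by norm_num) hb
      unfold RR
      linarith
    by_cases h6 : ManyL w B T 6
    · left
      obtain ⟨m, u, e, hF, -, -, -, hm⟩ := h6
      obtain ⟨kc, hkc⟩ : ∃ kc, B = kc + 6 := ⟨B - 6, by omega⟩
      rw [show B - 6 = kc by omega] at hF ⊢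
      refine ⟨ht, X, Y, w, c, hX, hY, in_A (J := 6) (by rw [← hkc]; exact hw) hF (by omega)⟩
    right
    rcases sel_scale h6 (show 6 ≤ Jm by omega) with ⟨J, j1, j2, hP, hnP⟩ | hnP
    · left
      rw [Set.mem_iUnion₂]
      refine ⟨J, Finset.mem_Icc.2 ⟨j1, j2⟩, ?_⟩
      obtain ⟨m, u, e, hF, hu, h0, hem, hm⟩ := hP
      obtain ⟨kc, hkc⟩ : ∃ kc, B = kc + J := ⟨B - J, by omega⟩
      rw [show B - J = kc by omega] at hF ⊢
      obtain ⟨m2, u2, e2, hF2, hu2, h20, hem2⟩ := hfd (kc + 6) (by omega) (hRR _ (by omega))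
      have hm2 : m2 < T := by
        by_contra hcon
        refine hnP ⟨m2, u2, e2, ?_, hu2, h20, hem2, by omega⟩
        rwa [show B - (J - 1) + 5 = kc + 6 by omega]
      rw [hkc] at ht ⊢
      refine few_rot (H := 3 * 2 ^ K) (τ := τ) (by omega) ?_ ?_ ht hX hY hbot hF hu h0 hem hF2 h20 (by omega) (by omega)
      · rw [← hT, ← hkc]
        have h1 : B < 2 ^ B := Nat.lt_two_pow_self
        omega
      · have h1 : (2 : ℤ) ^ (kc + J - 2) ≤ 2 ^ K := pow_le_pow_right₀ (by norm_num) (by omega)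
        linarith
    · right
      refine ⟨ht.1, X, Y, w, c, hX, hY, ?_⟩
      rw [← hJm]
      obtain ⟨kc, hkc⟩ : ∃ kc, B = kc + Jm := ⟨B - Jm, by omega⟩
      obtain ⟨m, u, e, hF, hu, h0, hem⟩ := hfd (kc + 5) (by omega) (hRR _ (by omega))
      have hm : m < T := by
        by_contra hcon
        refine hnP ⟨m, u, e, ?_, hu, h0, hem, by omega⟩
        rwa [show B - Jm + 5 = kc + 5 by omega]
      rw [show B - Jm = kc by omega]
      obtain ⟨l, hl, h1⟩ := tall_ex hF h0 (i := τ) (i' := 0) hbot.le (Nat.zero_le _)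
      have h2 := hbot.top
      rw [lev_zero, sub_zero] at h1
      have h3 : (3 : ℤ) * 2 ^ K ≤ T * RG w u e l := by
        have h4 := fd_RG hF hl
        have h5 := RR_pos (kc + 5)
        have h6 : (m : ℤ) * RG w u e l ≤ T * RG w u e l := by
          refine mul_le_mul_of_nonneg_right ?_ (by omega)
          exact_mod_cast hm.le
        have h7 := le_abs_self (lev w τ)
        linarith
      obtain ⟨V, hV⟩ : ∃ V, V = 2 ^ (Jm - (s + 2)) / T := ⟨_, rfl⟩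
      rw [← hV]
      have hV1 : 1 ≤ V := by
        rw [hV, Nat.one_le_div_iff (by omega)]
        have h4 : Jm - (s + 2) < 2 ^ (Jm - (s + 2)) := Nat.lt_two_pow_self
        omega
      refine er_tall (by rw [← hkc]; exact hw) hF hl ?_ hV1 hs
      rw [fd_abs hF hl]
      have h5 : (V : ℤ) * T ≤ 2 ^ (Jm - (s + 2)) := by
        have h6 : V * T ≤ 2 ^ (Jm - (s + 2)) := by
          rw [hV]
          exact Nat.div_mul_le_self _ _
        exact_mod_cast h6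
      have h8 : (T : ℤ) * (3 * ((V : ℤ) * 2 ^ (kc + s + 1))) ≤ T * RG w u e l := by
        calc (T : ℤ) * (3 * ((V : ℤ) * 2 ^ (kc + s + 1))) = 3 * ((V * T) * 2 ^ (kc + s + 1)) := by ring
          _ ≤ 3 * (2 ^ (Jm - (s + 2)) * 2 ^ (kc + s + 1)) := by gcongr
          _ = 3 * 2 ^ K := by
              rw [← pow_add]
              congr 2
              omega
          _ ≤ T * RG w u e l := h3
      exact le_of_mul_le_mul_left h8 (by exact_mod_cast (show 0 < T by omega))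
  have hw := w4_pos mlow_M B
  have hX0 : 0 ≤ (N : ℝ) / w4 mM B := by positivity
  have g2 : gf (⋃ J ∈ Icc 7 Jm, RotC N B (HRm (B - J) (RunTl (B - J) J Mb))) ≤
      ENNReal.ofReal (2 * A2 * (N / w4 mM B)) := by
    have h1 : ∑ J ∈ Icc 7 Jm, (1 / 2 : ℝ) ^ J ≤ 2 := by
      exact (summable_geometric_two.sum_le_tsum _ (fun _ _ => by positivity)).trans (le_of_eq tsum_geometric_two)
    refine (ENNReal.tsum_biUnion_le wE _ _).trans ((Finset.sum_le_sum fun J hJ => hB N B J hN ?_ ?_).trans ?_)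
    · have h2 := (Finset.mem_Icc.1 hJ).2
      have h3 : q * J ≤ q * Jm := Nat.mul_le_mul_left _ h2
      omega
    · have := (Finset.mem_Icc.1 hJ).1
      omega
    · rw [← ENNReal.ofReal_sum_of_nonneg (fun _ _ => by positivity), ← Finset.mul_sum]
      refine ENNReal.ofReal_le_ofReal ?_
      calc A2 * (N / w4 mM B) * ∑ J ∈ Icc 7 Jm, (1 / 2 : ℝ) ^ J ≤ A2 * (N / w4 mM B) * 2 := by gcongr
        _ = 2 * A2 * (N / w4 mM B) := by ring
  refine (gf_mono hcov).trans ((gf_union_le _ _).trans ((add_le_add (hA N B hN (by omega)) ((gf_union_le _ _).trans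
    (add_le_add g2 (hC N B hN (by omega))))).trans ?_))
  rw [← ENNReal.ofReal_add (by positivity) (by positivity), ← ENNReal.ofReal_add (by positivity) (by positivity)]
  refine ENNReal.ofReal_le_ofReal (le_of_eq ?_)
  ring

end POL

end HexObs
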