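import Pool.Agent.POL.Master

/-!
POL: the choice of the root and of the label for a run with a merged leaf.
-/

set_option autoImplicit false

namespace HexObs

namespace POL

open Finset TS SDN NTW NTA SIM JNT

open scoped ENNReal Classical

/-- runs: a run of R1, then a part of the window with a good leaf -/
def RAr (k J M : ℕ) (R1 : Set (List (List Bool))) (G : Set (List Bool)) : Set (List (List Bool)) :=
  {gs | ∃ r ps : List (List Bool), gs = r ++ ps ∧ r ∈ R1 ∧ r ≠ [] ∧ (∀ x ∈ gs, x ∈ BrR (2 ^ (k + 4)) (2 ^ (k + J + 2))) ∧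
    ps.length ≤ M ∧ ∃ g ∈ ps, g ∈ G}

/-- the norms of all classes of runs of the window, the classes of the good leaves first -/
def NormAll2 : Prop := ∃ s1 s2 s3 : ℕ, 1 ≤ s1 ∧ 1 ≤ s2 ∧ 2 * (s1 + s2) ≤ s3 ∧ ∀ Cx : ℝ, 1 ≤ Cx →
  ∃ (M k0 : ℕ) (C : ℝ), 1 ≤ C ∧ 6 ≤ M ∧ ∀ k D0 : ℕ, k0 ≤ k → 1 ≤ D0 → s3 * (D0 + 1) ≤ k →
    ∃ (I : ℕ) (G : ℕ → Set (List Bool)), (∀ i ≤ I, s3 * (D0 * 2 ^ i + 1) ≤ k ∧ G i ⊆ RtS s1 s2 k (D0 * 2 ^ i)) ∧
      ∀ (J : ℕ) (R1 R2 : Set (List (List Bool))) (d1 d2 : ℝ), 6 ≤ J → 0 < d1 → 0 < d2 →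
      SmR DmJ k R1 d1 → SmR DmJ k R2 d2 → ∃ (x : ℕ → ℝ) (x1 y : ℝ), (∀ i ≤ I, 0 < x i) ∧ 0 < x1 ∧ 0 < y ∧
        SmRL labN DmJ k (RA k J M R2 (G 0)) (x 0) ∧ SmRL labN DmJ k (RAr k J M R1 (G 0)) x1 ∧
        (∀ i, 1 ≤ i → i ≤ I → SmRL labN DmJ k (RB k J M R1 R2 (G (i - 1)) (G i)) (x i)) ∧
        SmR DmJ k (RZ k J M R1 (G I)) y ∧
        Cx ^ D0 * x 0 ≤ C ^ (J + D0) * d2 / w4 mM k ∧ Cx ^ D0 * x1 ≤ C ^ (J + D0) * d1 / w4 mM k ∧
        ∑ i ∈ Icc 1 I, Cx ^ (D0 * 2 ^ i) * x i + Cx ^ k * y ≤ C ^ (J + 1) / 2 ^ D0 * (d1 + d2) / w4 mM k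

lemma range_icc (I : ℕ) : range (I + 1) = insert 0 (Icc 1 I) := by
  ext i
  simp only [Finset.mem_range, Finset.mem_insert, Finset.mem_Icc]
  omega

theorem normAll_of (h : NormAll2) : NormAll := by
  obtain ⟨s1, s2, s3, h1, h2, h3, h⟩ := h
  refine ⟨s1, s2, s3, h1, h2, h3, fun Cx hCx => ?_⟩
  obtain ⟨M, k0, C, hC, hM, h⟩ := h Cx hCx
  refine ⟨M, k0, C, hC, hM, fun k J D0 R1 R2 d1 d2 hk hJ hD hDk hd1 hd2 hR1 hR2 => ?_⟩
  obtain ⟨I, G, hG, h⟩ := h k D0 hk hD hDk
  obtain ⟨x, x1, y, hx, hx1, hy, n1, n2, n3, n4, e1, e2, e3⟩ := h J R1 R2 d1 d2 hJ hd1 hd2 hR1 hR2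
  refine ⟨I, G, x, y, fun i hi => ⟨(hG i hi).1, (hG i hi).2, hx i hi⟩, hy, n1, n3, n4, ?_⟩
  rw [range_icc, Finset.sum_insert (by simp), pow_zero, mul_one, add_assoc, add_div]
  exact add_le_add e1 e3

/-- the closed words cut at a root-good leaf, with a merged leaf -/
def RootRunM : Prop := ∀ (s1 s2 N K kc D a m u l1 l2 d : ℕ) (w : List Bool) (c : Bool) (e : ℕ → ℕ)
  (R : Set (List (List Bool))), 1 ≤ s1 → 1 ≤ s2 → w ++ [c] ∈ WC N K → Fd (kc + 5) w m u e →
  (s1 + s2) * (D + 1) + 10 ≤ kc → kc ≤ K → 1 ≤ a → a + 2 ≤ m → lw w (e a) (e (a + 1)) ∈ RtS s1 s2 kc D →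
  1 ≤ l1 → Mrg w u e l1 l2 → l2 + 1 ≤ m →
  ((l2 + d + 1 ≤ a ∧ lw w (e l1) (e l2) :: lws w e l2 d ∈ R) ∨
    (a + 2 + d ≤ l1 ∧ lws w e (l1 - d) d ++ [lw w (e l1) (e l2)] ∈ R)) →
  WinC (2 ^ (kc - 4 - s1 * (D + 1))) (kc - 3) (TwoF (kc - 5 - (s1 + s2) * (D + 1)) K ∩ ERw kc (K - kc) R) (w ++ [c])

/-- a leaf of a run -/
lemma leaf_at {w : List Bool} {e : ℕ → ℕ} {l d j : ℕ} {ps : List (List Bool)} (he : lws w e l d = ps)
    (hj : j < ps.length) : lw w (e (l + j)) (e (l + j + 1)) = ps[j] := by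
  subst he
  exact (lws_getE w e l d j hj).symm

/-- the single leaves of the box -/
def Sgl (kc J : ℕ) : Set (List (List Bool)) := {r | ∃ g, r = [g] ∧ g ∈ BrR (2 ^ (kc + 4)) (2 ^ (kc + J + 2))}

section

variable {s1 s2 N kc J M m u l l1 l2 : ℕ} {w : List Bool} {c : Bool} {e : ℕ → ℕ}
  {ps : List (List Bool)} {g0 g1 : List Bool}

/-- the plain part: next levels and last level -/
lemma sel_plain {I : ℕ} {D : ℕ → ℕ} {G : ℕ → Set (List Bool)} (hRR : RootRun) (hs1 : 1 ≤ s1) (hs2 : 1 ≤ s2)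
    (hc : w ++ [c] ∈ WC N (kc + J)) (hF : Fd (kc + 5) w m u e) (hD : ∀ i ≤ I, (s1 + s2) * (D i + 1) + 10 ≤ kc)
    (hG : ∀ i ≤ I, G i ⊆ RtS s1 s2 kc (D i)) (hl : 1 ≤ l) (hm : l + (M + 2) + 1 ≤ m)
    (he : lws w e l (M + 2) = [g0] ++ (ps ++ [g1])) (hps : ps.length = M)
    (hfirst : (ps.filter fun g => decide (g ∈ G 0)).length ≤ 2) :
    (∃ i, 1 ≤ i ∧ i ≤ I ∧ WinC (2 ^ (kc - 4 - s1 * (D i + 1))) (kc - 3)
      (TwoF (kc - 5 - (s1 + s2) * (D i + 1)) (kc + J) ∩
        ERw kc J (RB kc J M (Sgl kc J) (Sgl kc J) (G (i - 1)) (G i))) (w ++ [c])) ∨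
    (w ∈ HRf kc {gs | (∀ x ∈ gs, x ∈ BrR (2 ^ (kc + 4)) (2 ^ (kc + J + 2))) → gs ∈ RZ kc J M (Sgl kc J) (G I)}) := by
  by_cases hex : ∃ i ≤ I, 3 ≤ (ps.filter fun g => decide (g ∈ G i)).length
  · left
    obtain ⟨i0, hi0⟩ : ∃ i0, i0 = Nat.find hex := ⟨_, rfl⟩
    have hsp := Nat.find_spec hex
    rw [← hi0] at hsp
    have h0 : 1 ≤ i0 := by
      rcases Nat.eq_zero_or_pos i0 with h0 | h0
      · rw [h0] at hsp
        omega
      · exact h0
    have hlt := Nat.find_min hex (m := i0 - 1) (by omega)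
    rw [not_and_or] at hlt
    have h2 : (ps.filter fun g => decide (g ∈ G (i0 - 1))).length ≤ 2 := by
      rcases hlt with h | h
      · exact absurd (by omega : i0 - 1 ≤ I) h
      · omega
    refine ⟨i0, h0, hsp.1, ?_⟩
    obtain ⟨j1, j3, a1, a3, h13, b1, b3⟩ := three_pos hsp.2
    rcases Nat.lt_or_ge (2 * j1) (M + 3) with hcase | hcase
    · refine cut_after hRR hs1 hs2 hc hF (hD i0 hsp.1) hl hm he (hG i0 hsp.1) (j := j1) (by omega)
        (of_decide_eq_true b1) fun hbox => ?_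
      have hb := bad_part (List.drop_sublist (j1 + 2) ps) h2
      rw [List.length_drop] at hb
      refine ⟨ps.drop (j1 + 2), [g1], by simp, hbox, ?_, ⟨ps[j3], ?_, of_decide_eq_true b3⟩, by omega,
        Or.inl ⟨⟨g1, rfl, hbox g1 (by simp)⟩, rfl⟩⟩
      · rw [List.length_drop]
        omega
      · rw [List.mem_iff_getElem]
        refine ⟨j3 - (j1 + 2), by rw [List.length_drop]; omega, ?_⟩
        rw [List.getElem_drop]
        congr 1
        omega
    · refine cut_before hRR hs1 hs2 hc hF (hD i0 hsp.1) hl hm he (hG i0 hsp.1) (j := j3) (by omega) a3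
        (of_decide_eq_true b3) fun hbox => ?_
      have hb := bad_part (List.take_sublist (j3 - 1) ps) h2
      rw [List.length_take] at hb
      refine ⟨ps.take (j3 - 1), [g0], by simp, hbox, ?_, ⟨ps[j1], ?_, of_decide_eq_true b1⟩, by omega,
        Or.inr ⟨⟨g0, rfl, hbox g0 (by simp)⟩, rfl⟩⟩
      · rw [List.length_take]
        omega
      · rw [List.mem_iff_getElem]
        refine ⟨j1, by rw [List.length_take]; omega, ?_⟩
        rw [List.getElem_take]
  · right
    have hlast : (ps.filter fun g => decide (g ∈ G I)).length ≤ 2 := by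
      by_contra hcon
      exact hex ⟨I, le_rfl, by omega⟩
    have hrun : lws w e l (M + 1) = [g0] ++ ps := by
      have h1 := lws_takeE w e l (M + 2) (M + 1) (by omega)
      rw [he, ← List.append_assoc] at h1
      rw [← h1]
      have : ([g0] ++ ps).length = M + 1 := by
        rw [List.length_append, hps]
        simp [Nat.add_comm]
      rw [← this, List.take_left]
    refine ⟨m, u, e, hF, l, M + 1, hl, by omega, by omega, ?_⟩
    rw [hrun]
    intro hbox
    have hb := bad_part (List.Sublist.refl ps) hlast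
    exact ⟨[g0], ps, rfl, ⟨g0, rfl, hbox g0 (by simp)⟩, by simp, hbox, hps, by omega⟩

end

/-- **the choice for a run with a merged leaf**: first level, next levels, last level -/
theorem selM {s1 s2 N kc J M I : ℕ} {D : ℕ → ℕ} {G : ℕ → Set (List Bool)} {RT : Set (List (List Bool))} {w : List Bool}
    {c : Bool} (hRR : RootRun) (hRM : RootRunM) (hs1 : 1 ≤ s1) (hs2 : 1 ≤ s2) (hc : w ++ [c] ∈ WC N (kc + J))
    (hD : ∀ i ≤ I, (s1 + s2) * (D i + 1) + 10 ≤ kc) (hG : ∀ i ≤ I, G i ⊆ RtS s1 s2 kc (D i))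
    (hw : w ∈ HRm kc {gs | ∃ (g : List Bool) (ms : List (List Bool)), ms.length = M + 2 ∧ (gs = g :: ms ∨ gs = ms ++ [g]) ∧
      [g] ∈ RT}) (hM : 3 ≤ M) :
    (∃ R, (R = RA kc J M RT (G 0) ∨ R = RAr kc J M RT (G 0)) ∧
      WinC (2 ^ (kc - 4 - s1 * (D 0 + 1))) (kc - 3) (TwoF (kc - 5 - (s1 + s2) * (D 0 + 1)) (kc + J) ∩ ERw kc J R)
        (w ++ [c])) ∨
    (∃ i, 1 ≤ i ∧ i ≤ I ∧ WinC (2 ^ (kc - 4 - s1 * (D i + 1))) (kc - 3)
      (TwoF (kc - 5 - (s1 + s2) * (D i + 1)) (kc + J) ∩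
        ERw kc J (RB kc J M (Sgl kc J) (Sgl kc J) (G (i - 1)) (G i))) (w ++ [c])) ∨
    (w ∈ HRf kc {gs | (∀ x ∈ gs, x ∈ BrR (2 ^ (kc + 4)) (2 ^ (kc + J + 2))) → gs ∈ RZ kc J M (Sgl kc J) (G I)}) := by
  have hsplit : ∀ ms : List (List Bool), ms.length = M + 2 → ∃ g0 ps g1, ms = [g0] ++ (ps ++ [g1]) ∧ ps.length = M := by
    intro ms hms
    obtain ⟨g0, t, rfl⟩ := List.exists_cons_of_length_pos (by omega : 0 < ms.length)
    rw [List.length_cons] at hms
    have h1 : t ≠ [] := by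
      rintro rfl
      simp at hms
    refine ⟨g0, t.dropLast, t.getLast h1, ?_, by rw [List.length_dropLast]; omega⟩
    rw [List.dropLast_append_getLast h1]
    rfl
  obtain ⟨m, u, e, hF, l1, l2, d, hl1, hMg, hm2, hor⟩ := hw
  have h12 := hMg.1
  have hK : kc + J - kc = J := by omega
  -- the plain part and the first level
  have key : ∀ (l : ℕ) (g0 g1 : List Bool) (ps : List (List Bool)), 1 ≤ l → l + (M + 2) + 1 ≤ m →
      lws w e l (M + 2) = [g0] ++ (ps ++ [g1]) → ps.length = M →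
      (3 ≤ (ps.filter fun g => decide (g ∈ G 0)).length → ∃ R, (R = RA kc J M RT (G 0) ∨ R = RAr kc J M RT (G 0)) ∧
        WinC (2 ^ (kc - 4 - s1 * (D 0 + 1))) (kc - 3) (TwoF (kc - 5 - (s1 + s2) * (D 0 + 1)) (kc + J) ∩ ERw kc J R)
          (w ++ [c])) →
      (∃ R, (R = RA kc J M RT (G 0) ∨ R = RAr kc J M RT (G 0)) ∧
        WinC (2 ^ (kc - 4 - s1 * (D 0 + 1))) (kc - 3) (TwoF (kc - 5 - (s1 + s2) * (D 0 + 1)) (kc + J) ∩ ERw kc J R)
          (w ++ [c])) ∨
      (∃ i, 1 ≤ i ∧ i ≤ I ∧ WinC (2 ^ (kc - 4 - s1 * (D i + 1))) (kc - 3)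
        (TwoF (kc - 5 - (s1 + s2) * (D i + 1)) (kc + J) ∩
          ERw kc J (RB kc J M (Sgl kc J) (Sgl kc J) (G (i - 1)) (G i))) (w ++ [c])) ∨
      (w ∈ HRf kc {gs | (∀ x ∈ gs, x ∈ BrR (2 ^ (kc + 4)) (2 ^ (kc + J + 2))) → gs ∈ RZ kc J M (Sgl kc J) (G I)}) := by
    intro l g0 g1 ps b1 b2 b3 b4 b5
    rcases Nat.lt_or_ge 2 (ps.filter fun g => decide (g ∈ G 0)).length with h | h
    · exact Or.inl (b5 (by omega))
    · exact Or.inr (sel_plain hRR hs1 hs2 hc hF hD hG b1 b2 b3 b4 h)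
  have hD0 := hD 0 (Nat.zero_le _)
  have hG0 := hG 0 (Nat.zero_le _)
  rcases hor with ⟨hmd, g, ms, hms, hgs, hgT⟩ | ⟨hmd, g, ms, hms, hgs, hgT⟩
  · rcases hgs with hgs | hgs
    · -- the merged leaf, then M + 2 plain leaves
      rw [List.cons.injEq] at hgs
      obtain ⟨hg, hpl⟩ := hgs
      have hd : d = M + 2 := by rw [← lws_len w e l2 d, hpl, hms]
      subst hd
      obtain ⟨g0, ps, g1, hsp, hps⟩ := hsplit ms hms
      rw [hsp] at hpl
      refine key l2 g0 g1 ps (by omega) (by omega) hpl hps fun h3 => ?_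
      obtain ⟨j1, j3, a1, a3, h13, q1, q3⟩ := three_pos h3
      refine ⟨_, Or.inr rfl, ?_⟩
      have hleaf : lw w (e (l2 + (1 + j3))) (e (l2 + (1 + j3) + 1)) = ps[j3] := by
        rw [leaf_at hpl (by simp only [List.length_append, List.length_singleton]; omega)]
        rw [List.getElem_append_right (by simp)]
        simp only [List.length_singleton, Nat.add_sub_cancel_left]
        rw [List.getElem_append_left]
      have hrun : lws w e l2 j3 = [g0] ++ ps.take (j3 - 1) := by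
        have h1 := lws_takeE w e l2 (M + 2) j3 (by omega)
        rw [← h1, hpl, List.take_append, List.take_of_length_le (by simp; omega), List.length_singleton,
          List.take_append_of_le_length (by omega)]
      have h1 := hRM s1 s2 N (kc + J) kc (D 0) (l2 + (1 + j3)) m u l1 l2 j3 w c e
        {gs | (∀ x ∈ gs, x ∈ BrR (2 ^ (kc + 4)) (2 ^ (kc + J + 2))) → gs ∈ RAr kc J M RT (G 0)} hs1 hs2 hc hF hD0
        (by omega) (by omega) (by omega) (by rw [hleaf]; exact hG0 (of_decide_eq_true q3)) hl1 hMg (by omega)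
        (Or.inl ⟨by omega, fun hbox => ?_⟩)
      · rw [hK] at h1
        exact winC_mono (Set.inter_subset_inter_right _ erw_box) h1
      · rw [hg, hrun] at hbox ⊢
        refine ⟨[g], [g0] ++ ps.take (j3 - 1), rfl, hgT, by simp, hbox, ?_, ps[j1], ?_, of_decide_eq_true q1⟩
        · rw [List.length_append, List.length_take, List.length_singleton]
          omega
        · rw [List.mem_append]
          right
          rw [List.mem_iff_getElem]
          refine ⟨j1, by rw [List.length_take]; omega, ?_⟩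
          rw [List.getElem_take]
    · -- the merged leaf, M + 1 plain leaves, a tall plain leaf
      have hd : d = M + 2 := by
        have h1 := congrArg List.length hgs
        rw [List.length_cons, lws_len, List.length_append, hms, List.length_singleton] at h1
        omega
      subst hd
      obtain ⟨x0, xs, rfl⟩ := List.exists_cons_of_length_pos (by omega : 0 < ms.length)
      rw [List.length_cons] at hms
      rw [List.cons_append, List.cons.injEq] at hgs
      obtain ⟨g0, ps, rfl⟩ := List.exists_cons_of_length_pos (by omega : 0 < xs.length)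
      rw [List.length_cons] at hms
      have hpl : lws w e l2 (M + 2) = [g0] ++ (ps ++ [g]) := by
        rw [hgs.2]
        rfl
      refine key l2 g0 g ps (by omega) (by omega) hpl (by omega) fun h3 => ?_
      obtain ⟨j1, j3, a1, a3, h13, q1, q3⟩ := three_pos h3
      refine ⟨_, Or.inl rfl, ?_⟩
      refine cut_after hRR hs1 hs2 hc hF hD0 (by omega) (by omega) hpl hG0 (j := j1) (by omega)
        (of_decide_eq_true q1) fun hbox => ?_
      refine ⟨ps.drop (j1 + 2), [g], rfl, hgT, by simp, hbox, ?_, ps[j3], ?_, of_decide_eq_true q3⟩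
      · rw [List.length_drop]
        omega
      · rw [List.mem_iff_getElem]
        refine ⟨j3 - (j1 + 2), by rw [List.length_drop]; omega, ?_⟩
        rw [List.getElem_drop]
        congr 1
        omega
  · rcases hgs with hgs | hgs
    · -- a tall plain leaf, M + 1 plain leaves, the merged leaf
      have hd : d = M + 2 := by
        have h1 := congrArg List.length hgs
        simp only [List.length_append, lws_len, List.length_cons, hms, List.length_nil] at h1
        omega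
      subst hd
      have hms0 : ms ≠ [] := by
        rintro rfl
        simp at hms
      obtain ⟨x0, xs, hx⟩ : ∃ xs x0, ms = xs ++ [x0] := ⟨_, _, (List.dropLast_append_getLast hms0).symm⟩
      subst hx
      rw [List.length_append, List.length_singleton] at hms
      rw [← List.cons_append] at hgs
      have hpl0 := (List.append_inj' hgs rfl).1
      have hx00 : x0 ≠ [] := by
        rintro rfl
        simp at hms
      obtain ⟨g1, ps, hx1⟩ : ∃ g1 ps, x0 = ps ++ [g1] := ⟨_, _, (List.dropLast_append_getLast hx00).symm⟩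
      subst hx1
      rw [List.length_append, List.length_singleton] at hms
      have hpl : lws w e (l1 - (M + 2)) (M + 2) = [g] ++ (ps ++ [g1]) := hpl0
      refine key (l1 - (M + 2)) g g1 ps (by omega) (by omega) hpl (by omega) fun h3 => ?_
      obtain ⟨j1, j3, a1, a3, h13, q1, q3⟩ := three_pos h3
      refine ⟨_, Or.inr rfl, ?_⟩
      refine cut_before hRR hs1 hs2 hc hF hD0 (by omega) (by omega) hpl hG0 (j := j3) (by omega) a3
        (of_decide_eq_true q3) fun hbox => ?_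
      refine ⟨[g], ps.take (j3 - 1), rfl, hgT, by simp, hbox, ?_, ps[j1], ?_, of_decide_eq_true q1⟩
      · rw [List.length_take]
        omega
      · rw [List.mem_iff_getElem]
        refine ⟨j1, by rw [List.length_take]; omega, ?_⟩
        rw [List.getElem_take]
    · -- M + 2 plain leaves, then the merged leaf
      have hap := List.append_inj' hgs rfl
      have hpl := hap.1
      have hg : lw w (e l1) (e l2) = g := by simpa using hap.2
      have hd : d = M + 2 := by rw [← lws_len w e (l1 - d) d, hpl, hms]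
      subst hd
      obtain ⟨g0, ps, g1, hsp, hps⟩ := hsplit ms hms
      rw [hsp] at hpl
      refine key (l1 - (M + 2)) g0 g1 ps (by omega) (by omega) hpl hps fun h3 => ?_
      obtain ⟨j1, j3, a1, a3, h13, q1, q3⟩ := three_pos h3
      refine ⟨_, Or.inl rfl, ?_⟩
      have hleaf : lw w (e (l1 - (M + 2) + (1 + j1))) (e (l1 - (M + 2) + (1 + j1) + 1)) = ps[j1] := by
        rw [leaf_at hpl (by simp only [List.length_append, List.length_singleton]; omega)]
        rw [List.getElem_append_right (by simp)]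
        simp only [List.length_singleton, Nat.add_sub_cancel_left]
        rw [List.getElem_append_left]
      have hrun : lws w e (l1 - (M - 1 - j1)) (M - 1 - j1) = ps.drop (j1 + 2) ++ [g1] := by
        have h1 := lws_dropE w e (l1 - (M + 2)) (M + 2) (1 + (j1 + 2))
        have h2 : ([g0] ++ (ps ++ [g1])).drop (1 + (j1 + 2)) = ps.drop (j1 + 2) ++ [g1] := by
          rw [Nat.add_comm 1 (j1 + 2), List.singleton_append, List.drop_succ_cons, List.drop_append_of_le_length (by omega)]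
        rw [hpl, h2] at h1
        rw [h1]
        congr 1 <;> omega
      have h1 := hRM s1 s2 N (kc + J) kc (D 0) (l1 - (M + 2) + (1 + j1)) m u l1 l2 (M - 1 - j1) w c e
        {gs | (∀ x ∈ gs, x ∈ BrR (2 ^ (kc + 4)) (2 ^ (kc + J + 2))) → gs ∈ RA kc J M RT (G 0)} hs1 hs2 hc hF hD0
        (by omega) (by omega) (by omega) (by rw [hleaf]; exact hG0 (of_decide_eq_true q1)) hl1 hMg (by omega)
        (Or.inr ⟨by omega, fun hbox => ?_⟩)
      · rw [hK] at h1
        exact winC_mono (Set.inter_subset_inter_right _ erw_box) h1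
      · rw [hg, hrun] at hbox ⊢
        refine ⟨ps.drop (j1 + 2) ++ [g1], [g], rfl, hgT, by simp, hbox, ?_, ps[j3], ?_, of_decide_eq_true q3⟩
        · rw [List.length_append, List.length_drop, List.length_singleton]
          omega
        · rw [List.mem_append]
          left
          rw [List.mem_iff_getElem]
          refine ⟨j3 - (j1 + 2), by rw [List.length_drop]; omega, ?_⟩
          rw [List.getElem_drop]
          congr 1
          omega

end POL

end HexObs
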