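import Pool.Agent.POL.GB2
import Pool.Agent.POL.Sel2
import Pool.Agent.JNT.EndM
import Pool.Agent.JNT.JoBM

/-!
POL, U5: the literals NormAll2 and NormAll of the MASTER theorem (helper25).
-/

set_option autoImplicit false

namespace HexObs

namespace POL

open Finset TS SDN NTW NTA EN JNT

open scoped ENNReal Classical

/-- the literal from the generic statement -/
theorem normAll2_of (h : NormG labN (w4 mM)) : NormAll2 := by
  obtain ⟨s1, s2, s3, h1, h2, h3, h⟩ := h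
  refine ⟨s1, s2, s3, h1, h2, h3, fun Cx hCx => ?_⟩
  obtain ⟨M, k0, C, hC, hM, h⟩ := h Cx hCx
  refine ⟨M, k0, C, hC, hM, fun k D0 hk hD hDk => ?_⟩
  obtain ⟨I, G, hG, h⟩ := h k D0 hk hD hDk
  refine ⟨I, G, hG, fun J R1 R2 d1 d2 hJ hd1 hd2 hR1 hR2 => ?_⟩
  obtain ⟨x, x1, y, hx, hx1, hy, n1, n2, n3, n4, e1, e2, e3⟩ := h J R1 R2 d1 d2 hJ hd1 hd2 hR1 hR2
  refine ⟨x, x1, y, hx, hx1, hy, SmRL.anti n1 ?_, SmRL.anti n2 ?_, fun i hi1 hi => SmRL.anti (n3 i hi1 hi) ?_,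
    smR_anti ?_ n4, e1, e2, e3⟩
  · rintro gs ⟨ps, r, k1, k2, k3, k4, k5, k6⟩
    exact ⟨ps, r, k1, k2, k3, k4, k5, k6⟩
  · rintro gs ⟨r, ps, k1, k2, k3, k4, k5, k6⟩
    exact ⟨r, ps, k1, k2, k3, k4, k5, k6⟩
  · rintro gs ⟨ps, r, k1, k2, k3, k4, k5, k6⟩
    refine ⟨ps, r, k1, k2, k3, k4, ?_, k6⟩
    refine le_trans k5 (le_of_eq ?_)
    congr 3
  · rintro gs ⟨r, ps, k1, k2, k3, k4, k5, k6⟩
    refine ⟨r, ps, k1, k2, k3, k4, k5, ?_⟩
    refine le_trans k6 (le_of_eq ?_)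
    congr 3

/-- **NormAll2, no hypothesis** -/
theorem normAll2 : NormAll2 :=
  normAll2_of (normG_of labM_N (w4_pos mlow_M) (w4_up mup_M) (joG_N joB_M))

/-- **NormAll, no hypothesis** -/
theorem normAll : NormAll := normAll_of normAll2

end POL

end HexObs
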