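import Pool.Agent.POL.SumUp
import Pool.Agent.POL.Big
import Pool.Agent.POL.NormLit
import Pool.Agent.VF.MeanZ
import Pool.Agent.VF.SharpZ

/-!
POL / Fin (helper32): the upper half without hypotheses, P1 (every length), and the final statement from the lower half.
-/

set_option autoImplicit false

namespace HexObs

namespace POL

open Finset TS SDN NTW NTA SIM JNT

open scoped ENNReal

theorem upS : UpS mM := by
  obtain ⟨A, hA, h⟩ := small_of normAll 0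
  refine ⟨A, 0, by linarith, fun N K _ hN => ?_⟩
  have hm := mlow_M.pos K
  have hN1 : 1 ≤ N := by
    have : (0 : ℝ) < N := by linarith
    exact_mod_cast this
  refine (h N K 1 hN1 le_rfl (by rw [one_mul]; exact hN)).trans (ENNReal.ofReal_le_ofReal (le_of_eq ?_))
  rw [pow_zero, div_one, mul_div_assoc]

theorem upU : UpU mM := upU_of normAll2

/-- **the upper half** -/
theorem upper : ∃ (C : ℝ) (N0 : ℕ), 0 ≤ C ∧ ∀ N : ℕ, N0 ≤ N →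
    gf (POLP.PCy N) ≤ ENNReal.ofReal (C * (N : ℝ) ^ (-(3 / 2) : ℝ)) ∧
    ∑' t : POLP.PCy N, wE (t : List Bool) * ENNReal.ofReal (POLP.RgC N t) ≤ ENNReal.ofReal C := by
  obtain ⟨c1, hc1, hlow⟩ := VF.mLow VF.sharpZ
  obtain ⟨C2, hC2, hup⟩ := VF.mUp VF.sharpZ
  exact sumUp hc1 hC2 hlow hup upU upS

/-- **P1**: the upper bound at every length -/
theorem P1 : ∃ C : ℝ, 0 < C ∧ ∀ N : ℕ, 1 ≤ N → gf (Cy N) ≤ ENNReal.ofReal (C * (N : ℝ) ^ (-(3 / 2) : ℝ)) := by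
  obtain ⟨C, N0, hC, h⟩ := upper
  obtain ⟨M, hM⟩ : ∃ M : ℝ, M = ∑ N ∈ range N0, ((POLP.PCy N).ncard : ℝ) * xc ^ N * (N : ℝ) ^ (3 / 2 : ℝ) := ⟨_, rfl⟩
  have hx := xc_pos
  have hM0 : 0 ≤ M := by
    rw [hM]
    exact Finset.sum_nonneg fun _ _ => by positivity
  refine ⟨C + M + 1, by positivity, fun N hN => ?_⟩
  have hN0 : (0 : ℝ) < N := by exact_mod_cast hN
  have hp : 0 ≤ (N : ℝ) ^ (-(3 / 2) : ℝ) := by positivity
  rcases Nat.lt_or_ge N N0 with hlt | hge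
  · rw [Cy_eq, POLP.gf_PCy]
    apply ENNReal.ofReal_le_ofReal
    have h1 : ((POLP.PCy N).ncard : ℝ) * xc ^ N * (N : ℝ) ^ (3 / 2 : ℝ) ≤ M := by
      rw [hM]
      exact Finset.single_le_sum (f := fun N => ((POLP.PCy N).ncard : ℝ) * xc ^ N * (N : ℝ) ^ (3 / 2 : ℝ))
        (fun _ _ => by positivity) (Finset.mem_range.2 hlt)
    have h4 : (N : ℝ) ^ (3 / 2 : ℝ) * (N : ℝ) ^ (-(3 / 2) : ℝ) = 1 := by
      rw [← Real.rpow_add hN0]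
      norm_num
    calc ((POLP.PCy N).ncard : ℝ) * xc ^ N
        = ((POLP.PCy N).ncard : ℝ) * xc ^ N * (N : ℝ) ^ (3 / 2 : ℝ) * (N : ℝ) ^ (-(3 / 2) : ℝ) := by
          linear_combination (-(((POLP.PCy N).ncard : ℝ) * xc ^ N)) * h4
      _ ≤ M * (N : ℝ) ^ (-(3 / 2) : ℝ) := mul_le_mul_of_nonneg_right h1 hp
      _ ≤ (C + M + 1) * (N : ℝ) ^ (-(3 / 2) : ℝ) := mul_le_mul_of_nonneg_right (by linarith) hp
  · refine (h N hge).1.trans (ENNReal.ofReal_le_ofReal ?_)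
    exact mul_le_mul_of_nonneg_right (by linarith) hp

/-- the lower half: the literal of the last open row -/
def LowH : Prop := ∃ (c : ℝ) (N0 : ℕ), 0 < c ∧ ∀ N : ℕ, N0 ≤ N → Even N → ∃ G ⊆ POLP.PCy N,
  ENNReal.ofReal (c * (N : ℝ) ^ (-(3 / 2) : ℝ)) ≤ gf G ∧ ∀ t ∈ G, c * (N : ℝ) ^ (3 / 2 : ℝ) ≤ POLP.RgC N t

/-- **the public statement** from the lower half and the number of the walks -/
theorem fin_of (hL : LowH) {a A : ℝ} (ha : 0 < a)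
    (hA : ∀ n : ℕ, 1 ≤ n → a * (muB ^ n * (n : ℝ) ^ ((11 : ℝ) / 32)) ≤ (aB n : ℝ) ∧
      (aB n : ℝ) ≤ A * (muB ^ n * (n : ℝ) ^ ((11 : ℝ) / 32))) :
    ∃ c' C' : ℝ, 0 < c' ∧ ∀ f : ℕ → Fin 3 → ℂ, MS.Hex f → ∀ n : ℕ, 9 ≤ n → ¬ Even n →
      (c' * (n : ℝ) ^ (-(3 / 2) : ℝ) * POLP.mu ^ n ≤ ((PGX.Pol f n).card : ℝ) ∧
        ((PGX.Pol f n).card : ℝ) ≤ C' * (n : ℝ) ^ (-(3 / 2) : ℝ) * POLP.mu ^ n) ∧
      (c' * (n : ℝ) ^ (3 / 2 : ℝ) ≤ (∑ s ∈ PGX.Pol f n, POLP.RgP f s) / ((PGX.Pol f n).card : ℝ) ∧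
        (∑ s ∈ PGX.Pol f n, POLP.RgP f s) / ((PGX.Pol f n).card : ℝ) ≤ C' * (n : ℝ) ^ (3 / 2 : ℝ)) ∧
      (c' * (n : ℝ) ^ (-(59 / 32) : ℝ) ≤ ((PGX.Pol f n).card : ℝ) / ((MS.SW f n).card : ℝ) ∧
        ((PGX.Pol f n).card : ℝ) / ((MS.SW f n).card : ℝ) ≤ C' * (n : ℝ) ^ (-(59 / 32) : ℝ)) := by
  obtain ⟨c, N1, hc, hlow⟩ := hL
  obtain ⟨C, N2, hC, hup⟩ := upper
  exact POLP.final_of (N0 := max N1 N2) hc hC ha hA
    (fun N hN he => hlow N (le_trans (le_max_left _ _) hN) he)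
    (fun N hN _ => hup N (le_trans (le_max_right _ _) hN))

end POL

end HexObs

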