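import Pool.Agent.JNT.EvDefs
import Pool.Agent.SIM.MidM
import Pool.Agent.SIM.TailWin

/-!
POL (polygon counts): definitions. Closed words, their boxes, the class of the runs with coarse leaves, the windows for the
root. Direction false, levels lev, see doc nu34/POL (helper94).
-/

set_option autoImplicit false

namespace HexObs

namespace POL

open Finset TS SDN NTW NTA SIM JNT

open scoped ENNReal

/-- closed words: the self-avoiding polygons with N edges, with a first edge (in the direction up) -/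
def Cy (N : ℕ) : Set (List Bool) :=
  {t | t.length = N ∧ vx oo up t N = oo ∧ dx up t N = up ∧ ∀ i j, i < N → j < N → vx oo up t i = vx oo up t j → i = j}

/-- closed words whose rotations are in the box of radius 2 ^ K -/
def WC (N K : ℕ) : Set (List Bool) :=
  {t | t ∈ Cy N ∧ ∀ X Y : List Bool, t = X ++ Y → ∀ i, i ≤ N → ∀ dir, |row dir (vx oo up (Y ++ X) i)| ≤ 2 ^ K}

/-- folds as in Fd, the backtracks inside the leaves are not bounded -/
def Fw (b : ℕ) (t : List Bool) (m u : ℕ) (e : ℕ → ℕ) : Prop :=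
  1 ≤ m ∧ FoldG t m u e ∧ (∀ j, j < m → RR b ≤ RG t u e j) ∧
  (∀ i i', i ≤ e 0 → i' ≤ e 0 → lev t i - lev t i' < RR b) ∧
  (∀ i i', e m ≤ i → i ≤ t.length → e m ≤ i' → i' ≤ t.length → lev t i - lev t i' < RR b)

/-- walks of the box with a marked run in R, the backtracks inside the leaves are not bounded -/
def ERw (kc J : ℕ) (R : Set (List (List Bool))) : Set (List Bool) :=
  {t | t ∈ WL (kc + J) ∧ ∃ (m u : ℕ) (e : ℕ → ℕ), Fw (kc + 5) t m u e ∧ ∃ l d : ℕ, 1 ≤ d ∧ l + d ≤ m ∧
    ∀ ms : List (List Bool), ms.length = d → (∀ (i : ℕ) (hi : i < ms.length), PosL t u e (l + i) ms[i]) →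
      (∀ (i : ℕ) (hi : i < ms.length), 1 ≤ l + i → l + i + 2 ≤ m → ms[i] = lw t (e (l + i)) (e (l + i + 1))) →
      ms.IsChain LFold → (∀ g ∈ ms, g ∈ BrR (2 ^ (kc + 4)) (2 ^ (kc + J + 2))) → ms ∈ R}

/-- the event theorem for the words between two folds of a finer scale, a given label -/
def RE {Λ : Type} (lab : List Bool → Λ) : Prop := ∃ (C : ℝ) (k0 : ℕ), 1 ≤ C ∧
  ∀ (kc J q : ℕ) (R : Set (List (List Bool))) (δ : ℝ) (a : Λ), k0 ≤ kc → 6 ≤ J → q ≤ kc → 0 < δ → SmRL lab DmJ kc R δ →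
    gf {t | lab t = a ∧ t ∈ TwoF (kc - q + 5) (kc + J) ∧ t ∈ ERw kc J R} ≤
      ENNReal.ofReal (C ^ (J + q) * δ * Ub (kc + J))

/-- the closed word t has a bridge H of height h, n1 ≤ h, such that for any decomposition of H around an irreducible piece P
the piece P is not higher than 2 ^ b0 and the rest of the closed word is in T -/
def WinC (n1 b0 : ℕ) (T : Set (List Bool)) (t : List Bool) : Prop :=
  ∃ (X H Y : List Bool) (h : ℕ), t = X ++ (H ++ Y) ∧ H ∈ Brd h ∧ n1 ≤ h ∧
    ∀ L P R : List Bool, L ∈ BU → R ∈ BU → P ∈ IU → H = L ++ (P ++ R) → hgt P ≤ 2 ^ b0 ∧ R ++ (Y ++ (X ++ L)) ∈ T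

end POL

end HexObs
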