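import Pool.Agent.POL.CloDefs
import Pool.Agent.NTA.C1Of
import Pool.Agent.NTW.Wide

/-!
POL, row L2: arcs as folds of two bridges; the number of letters of the arcs (helper51; arc_split' = PW.arc_split without
the box).
-/

set_option autoImplicit false

namespace HexObs

namespace POL

open Finset TS SDN CMP LP PW

open scoped ENNReal

private lemma la_ip : ∀ d ∈ dirs, -2 ≤ ip d up ∧ ip d up ≤ 2 ∧ (ip d up = 2 → d = up) ∧ (ip d up = -2 → d = -up) := by
  decide

private lemma la_turn : ∀ b : Bool, turn b up ≠ -up := by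
  decide

/-- an arc is the fold of two bridges (no box). -/
lemma arc_split' {T h : ℕ} (hh : 1 ≤ h) {t : List Bool}
    (hinj : ∀ i k, i < k → k ≤ t.length → vx oo up t i ≠ vx oo up t k)
    (hlev : ∀ i, 1 ≤ i → i ≤ t.length → 0 < lev t i ∧ lev t i < 3 * T + 2) (hend : lev t t.length = 2)
    (hd : dx up t t.length = -up) {i1 : ℕ} (hi1 : 1 ≤ i1) (hi2 : i1 ≤ t.length) (hi3 : 3 * (h : ℤ) + 2 ≤ lev t i1) :
    ∃ (T0 : ℕ) (g g' : List Bool), h + 1 ≤ T0 ∧ T0 ≤ T ∧ g ∈ Brd T0 ∧ g' ∈ Brd (T0 - 1) ∧ LFold g g' ∧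
      t = g.dropLast ++ (!lst g) :: (!lst g) :: g' := by
  have hmod : ∀ i, lev t i % 3 = if Even i then 0 else 2 := by
    intro i
    have h := HexObs.lev_mod t i
    split_ifs at h ⊢ <;> omega
  have hmod2 : ∀ i, lev t i % 3 = 0 ∨ lev t i % 3 = 2 := by
    intro i
    have := hmod i
    split_ifs at this
    · exact Or.inl this
    · exact Or.inr this
  obtain ⟨e0, _, he2, he3, he4⟩ := Tight.last_argmax (fun i => lev t i) (Nat.zero_le t.length)
  have hmax : 3 * (h : ℤ) + 2 ≤ lev t e0 := hi3.trans (he3 i1 (Nat.zero_le _) hi2)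
  have he0 : 1 ≤ e0 := by
    rcases Nat.eq_zero_or_pos e0 with h0 | h0
    · rw [h0, lev_zero] at hmax
      omega
    · exact h0
  have hen : e0 < t.length := by
    rcases Nat.lt_or_ge e0 t.length with h1 | h1
    · exact h1
    · have h2 : e0 = t.length := le_antisymm he2 h1
      rw [h2, hend] at hmax
      omega
  -- the largest level is a multiple of 3
  have hm3 : lev t e0 % 3 = 0 := by
    by_contra hcon
    have hodd : ¬ Even e0 := by
      intro h1
      have := hmod e0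
      rw [if_pos h1] at this
      exact hcon this
    have h1 := hmod e0
    rw [if_neg hodd] at h1
    have h2 := hmod (e0 + 1)
    rw [if_pos (Nat.even_add_one.2 hodd)] at h2
    obtain ⟨k, hk⟩ : ∃ k, e0 = k + 1 := ⟨e0 - 1, by omega⟩
    have hke : Even k := by
      rw [hk, Nat.even_add_one, not_not] at hodd
      exact hodd
    have h3 := hmod k
    rw [if_pos hke] at h3
    have s1 := lev_succ t e0
    have s2 := lev_succ t k
    rw [← hk] at s2
    have g1 := la_ip _ (dx_mem upd t e0)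
    have g2 := la_ip _ (dx_mem upd t k)
    have m1 := he4 (e0 + 1) (by omega) (by omega)
    have m2 := he3 k (Nat.zero_le _) (by omega)
    have d1 : dx up t e0 = -up := g1.2.2.2 (by omega)
    have d2 : dx up t k = up := g2.2.2.1 (by omega)
    have d3 : dx up t e0 = turn (tf t k) (dx up t k) := by rw [hk]; rfl
    rw [d1, d2] at d3
    exact la_turn _ d3.symm
  obtain ⟨T0, hT0⟩ : ∃ T0 : ℕ, lev t e0 = 3 * (T0 : ℤ) := ⟨(lev t e0 / 3).toNat, by
    have h0 := (hlev e0 he0 he2).1
    omega⟩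
  have hT0h : h + 1 ≤ T0 := by omega
  have hT0T : T0 ≤ T := by
    have := (hlev e0 he0 he2).2
    omega
  obtain ⟨e, ee0, ee1⟩ : ∃ e : ℕ → ℕ, e 0 = e0 ∧ e 1 = t.length :=
    ⟨fun k => if k = 0 then e0 else t.length, if_pos rfl, if_neg (by decide)⟩
  have hne : ¬ Even 1 := by decide
  have hne0 : ¬ Even (1 + 0) := by decide
  have hev : Even (1 + 1) := by decide
  obtain ⟨u, us, g1, g2, g3, g4, _, _⟩ := leaves_aux (a := 1) (b := T0) (T := T0) (by omega) 1 1 ((T0 : ℤ) + 1) t
    e hinj (by rw [if_neg hne]; exact hd) ee1 (by rw [ee0]; exact he0)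
    (by
      intro k hk
      have : k = 0 := by omega
      subst this
      show e 0 < e 1
      rw [ee0, ee1]
      exact hen)
    (by
      intro j h1 h2
      rw [ee0] at h2 ⊢
      exact ⟨(hlev j h1 (by omega)).1, he3 j (Nat.zero_le _) (by omega)⟩)
    (by
      intro k hk j h1 h2
      have : k = 0 := by omega
      subst this
      have h2' : j ≤ e 1 := h2
      show Tight.sg 0 (lev t (e 0)) < Tight.sg 0 (lev t j) ∧ Tight.sg 0 (lev t j) ≤ Tight.sg 0 (lev t (e 1))
      rw [ee0] at h1 ⊢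
      rw [ee1] at h2' ⊢
      rw [Tight.sg_zero, Tight.sg_zero, Tight.sg_zero, hend]
      have m1 := he4 j h1 h2'
      have m2 := (hlev j (by omega) h2').1
      have m3 := hmod2 j
      constructor <;> omega)
    (by
      intro k hk
      have hk2 : k = 0 ∨ k = 1 := by omega
      rcases hk2 with rfl | rfl
      · rw [if_neg hne0, ee0]
        unfold Lv
        rw [if_neg hne, hT0]
        push_cast
        constructor <;> omega
      · rw [if_pos hev, ee1]
        unfold Lv
        rw [if_neg hne, hend]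
        constructor <;> omega)
    hev
    (by
      show Lv 1 ((T0 : ℤ) + 1) (lev t (e 1)) = 3 * (T0 : ℤ)
      rw [ee1]
      unfold Lv
      rw [if_neg hne, hend]
      ring)
  obtain ⟨g', rfl⟩ : ∃ g', us = [g'] := by
    rw [List.length_cons] at g1
    exact List.length_eq_one_iff.1 (by omega)
  have e1 : decide (Even 1) = false := by decide
  rw [e1] at g4
  obtain ⟨h1, b1, b2, b3, b4⟩ := g4
  obtain ⟨h2, c1, c2⟩ := b4
  push_cast at b3
  have k1 : h1 = T0 := by omega
  have k2 : h2 = T0 - 1 := by omega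
  rw [k1] at b1
  rw [k2] at c1
  refine ⟨T0, u, g', hT0h, hT0T, b1, c1, ?_, g2.symm⟩
  rw [List.isChain_cons_cons] at g3
  exact g3.1


/-- the arcs -/
def Ark (S : ℕ) : Set (List Bool) := {t | (∀ i, 1 ≤ i → i ≤ t.length → 0 < lev t i ∧ lev t i < 3 * (S : ℤ) + 2) ∧
  (∀ i k, i < k → k ≤ t.length → vx oo up t i ≠ vx oo up t k) ∧ lev t t.length = 2 ∧ dx up t t.length = -up}

lemma ark_of {S a : ℕ} {t : List Bool} (h : t ∈ Arc (St S) ∅ oo up (foot oo up a)) : t ∈ Ark S := by
  obtain ⟨⟨⟨h1, h2⟩, h3, h4⟩, h5⟩ := h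
  refine ⟨fun i hi hl => mem_St.1 (h1 i hi hl).1, h2, ?_, h4⟩
  have h6 : ip (tip oo up t - oo) up = lev t (t.length + 1) := lev_sub t _
  rw [lev_succ, h4] at h6
  have h7 : ip (-up) up = -2 := by decide
  have h8 : ip (foot oo up a - oo) up = 0 := by
    unfold foot hz rotR ip up oo
    simp
    ring
  rw [h5, h8] at h6
  omega

/-- arcs that leave the strip of height S -/
lemma ark_high {S T a : ℕ} {t : List Bool} (h : t ∈ NTW.Wide.AW S T a) :
    t ∈ Ark T ∧ ∃ i, 1 ≤ i ∧ i ≤ t.length ∧ 3 * (S : ℤ) + 2 ≤ lev t i := by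
  obtain ⟨h1, h2⟩ := h
  refine ⟨ark_of h1, ?_⟩
  by_contra hc
  push Not at hc
  apply h2
  have h0 := ark_of h1
  obtain ⟨⟨⟨g1, g2⟩, g3, g4⟩, g5⟩ := h1
  refine ⟨⟨⟨fun i hi hl => ⟨mem_St.2 ⟨(h0.1 i hi hl).1, hc i hi hl⟩, fun h => h⟩, g2⟩, ?_, g4⟩, g5⟩
  intro hm
  apply g3
  have h3 := mem_St.1 (show vx oo up t (t.length + 1) ∈ St S from hm)
  have h4 : lev t (t.length + 1) = 0 := by
    rw [lev_succ, h0.2.2.2, h0.2.2.1]
    decide
  omega

end POL

end HexObs
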