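import Pool.Agent.POL.L4Defs

/-!
POL, L4: the sums over the five parts of a marked closed word with one additional mark, mean length of the bridges, no
hypothesis.
-/

set_option autoImplicit false

namespace HexObs

namespace POL

open Finset TS NTA JNT

open scoped ENNReal

namespace Sm

open scoped Classical in
/-- the weight of the words of a set -/
noncomputable def iw (S : Set (List Bool)) (t : List Bool) : ℝ≥0∞ := if t ∈ S then wE t else 0

open scoped Classical in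
lemma iw_sum (S : Set (List Bool)) : ∑' t, iw S t = gf S := by
  unfold gf iw
  rw [_root_.tsum_subtype S (fun t => wE t)]
  exact tsum_congr fun t => by rw [Set.indicator_apply]

open scoped Classical in
lemma iw_of {S : Set (List Bool)} {t : List Bool} (h : t ∈ S) : iw S t = wE t := if_pos h

open scoped Classical in
lemma iw_le (S : Set (List Bool)) (t : List Bool) : iw S t ≤ wE t := by
  unfold iw
  split_ifs
  · exact le_rfl
  · exact zero_le

open scoped Classical in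
/-- the number of marks is at most the number of the tuples -/
lemma cnt_le {ι : Type} [Nonempty ι] (len : ι → ℕ) (q : ι → Prop) (n : ℕ) (p : ℕ → Prop)
    (h : ∀ c, p c → ∃ i, q i ∧ len i = c) : (cnt n p : ℝ≥0∞) ≤ ∑' i, (if q i then 1 else 0) := by
  choose! f hf using h
  obtain ⟨s, hs⟩ : ∃ s, s = (range (n + 1)).filter p := ⟨_, rfl⟩
  have hinj : Set.InjOn f (s : Set ℕ) := by
    intro i hi j hj hij
    rw [hs, mem_coe, mem_filter] at hi hj
    rw [← (hf i hi.2).2, ← (hf j hj.2).2, hij]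
  have h1 : (cnt n p : ℝ≥0∞) = ∑ c ∈ s, (if q (f c) then (1 : ℝ≥0∞) else 0) := by
    rw [Finset.sum_congr rfl fun c hc => if_pos (hf c (by rw [hs, mem_filter] at hc; exact hc.2)).1]
    unfold cnt
    rw [← hs]
    simp
  rw [h1, ← Finset.sum_image (f := fun i => if q i then (1 : ℝ≥0∞) else 0) hinj]
  exact ENNReal.sum_le_tsum _

open scoped Classical in
/-- the sum over the words is a sum over the tuples -/
lemma push {ι β : Type} (f : ι → β) (q : ι → Prop) (G : β → ℝ≥0∞) :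
    ∑' b, G b * ∑' i, (if f i = b ∧ q i then 1 else 0) = ∑' i, (if q i then G (f i) else 0) := by
  calc ∑' b, G b * ∑' i, (if f i = b ∧ q i then (1 : ℝ≥0∞) else 0) = ∑' b, ∑' i, (if f i = b ∧ q i then G b else 0) := by
        refine tsum_congr fun b => ?_
        rw [← ENNReal.tsum_mul_left]
        refine tsum_congr fun i => ?_
        by_cases h : f i = b ∧ q i
        · rw [if_pos h, if_pos h, mul_one]
        · rw [if_neg h, if_neg h, mul_zero]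
    _ = ∑' i, ∑' b, (if f i = b ∧ q i then G b else 0) := ENNReal.tsum_comm
    _ = _ := by
        refine tsum_congr fun i => ?_
        rw [tsum_eq_single (f i)]
        · by_cases h : q i
          · rw [if_pos ⟨rfl, h⟩, if_pos h]
          · rw [if_neg fun h' => h h'.2, if_neg h]
        · intro b hb
          exact if_neg fun h' => hb h'.1.symm

open scoped Classical in
lemma cnt_push {ι β : Type} [Nonempty ι] (f : ι → β) (q : ι → Prop) (len : ι → ℕ) (G : β → ℝ≥0∞) (n : β → ℕ)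
    (p : β → ℕ → Prop) (h : ∀ b c, p b c → ∃ i, (f i = b ∧ q i) ∧ len i = c) :
    ∑' b, G b * (cnt (n b) (p b) : ℝ≥0∞) ≤ ∑' i, (if q i then G (f i) else 0) := by
  rw [← push]
  refine ENNReal.tsum_le_tsum fun b => mul_le_mul' le_rfl ((cnt_le len _ _ _ (h b)).trans (le_of_eq (tsum_congr fun i => ?_)))
  by_cases h1 : f i = b ∧ q i
  · rw [if_pos h1, if_pos h1]
  · rw [if_neg h1, if_neg h1]

open scoped Classical in
/-- two bridges of the same height -/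
lemma two_mass (M : ℕ) : ∑' P : List Bool, ∑' Q : List Bool,
    (if (P ∈ BU ∧ Q ∈ BU) ∧ (hgt P = hgt Q ∧ hgt P ≤ M) then wE P * wE Q else 0) ≤ ENNReal.ofReal (U2 M) := by
  calc ∑' P : List Bool, ∑' Q : List Bool,
        (if (P ∈ BU ∧ Q ∈ BU) ∧ (hgt P = hgt Q ∧ hgt P ≤ M) then wE P * wE Q else 0)
      ≤ ∑' P : List Bool, ∑' Q : List Bool, ∑ h ∈ range (M + 1), iw (Brd h) P * iw (Brd h) Q := by
        refine ENNReal.tsum_le_tsum fun P => ENNReal.tsum_le_tsum fun Q => ?_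
        split_ifs with h
        · obtain ⟨⟨h1, h2⟩, h3, h4⟩ := h
          refine le_trans ?_ (Finset.single_le_sum (f := fun h => iw (Brd h) P * iw (Brd h) Q) (fun _ _ => zero_le)
            (mem_range.2 (Nat.lt_succ_of_le h4) : hgt P ∈ range (M + 1)))
          rw [iw_of (BU_hgt h1), iw_of (by rw [h3]; exact BU_hgt h2)]
        · exact zero_le
    _ = ∑ h ∈ range (M + 1), ∑' P : List Bool, ∑' Q : List Bool, iw (Brd h) P * iw (Brd h) Q := by
        rw [← Summable.tsum_finsetSum fun _ _ => ENNReal.summable]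
        exact tsum_congr fun P => Summable.tsum_finsetSum fun _ _ => ENNReal.summable
    _ = ∑ h ∈ range (M + 1), ENNReal.ofReal (uu h ^ 2) := by
        refine Finset.sum_congr rfl fun h _ => ?_
        simp only [ENNReal.tsum_mul_left, ENNReal.tsum_mul_right]
        rw [iw_sum, gf_Brd, PW.AT.BT_uu', ← ENNReal.ofReal_mul (uu_pos h).le, sq]
    _ = ENNReal.ofReal (U2 M) := by
        unfold U2
        rw [ENNReal.ofReal_sum_of_nonneg fun _ _ => sq_nonneg _]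

/-- the order of the sums -/
lemma reo (f : List Bool → List Bool → List Bool → List Bool → List Bool → ℝ≥0∞) :
    ∑' Z', ∑' T1, ∑' D, ∑' T2, ∑' Z, f Z' T1 D T2 Z = ∑' T1, ∑' D, ∑' T2, ∑' Z', ∑' Z, f Z' T1 D T2 Z := by
  rw [ENNReal.tsum_comm]
  refine tsum_congr fun T1 => ?_
  rw [ENNReal.tsum_comm]
  refine tsum_congr fun D => ?_
  rw [ENNReal.tsum_comm]

/-- the order of the sums, down strand and lower up strand first -/
lemma reo4 (f : List Bool → List Bool → List Bool → List Bool → List Bool → ℝ≥0∞) :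
    ∑' Z', ∑' T1, ∑' D, ∑' T2, ∑' Z, f Z' T1 D T2 Z = ∑' D, ∑' Z, ∑' Z', ∑' T1, ∑' T2, f Z' T1 D T2 Z := by
  calc ∑' Z', ∑' T1, ∑' D, ∑' T2, ∑' Z, f Z' T1 D T2 Z = ∑' Z', ∑' D, ∑' T1, ∑' T2, ∑' Z, f Z' T1 D T2 Z :=
        tsum_congr fun Z' => ENNReal.tsum_comm
    _ = ∑' D, ∑' Z', ∑' T1, ∑' T2, ∑' Z, f Z' T1 D T2 Z := ENNReal.tsum_comm
    _ = ∑' D, ∑' Z', ∑' Z, ∑' T1, ∑' T2, f Z' T1 D T2 Z := by
        refine tsum_congr fun D => tsum_congr fun Z' => ?_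
        exact (tsum_congr fun T1 => ENNReal.tsum_comm).trans ENNReal.tsum_comm
    _ = _ := tsum_congr fun D => ENNReal.tsum_comm

/-- the down strands -/
def DS (k : ℕ) : Set (List Bool) := {D | D ∈ BU ∧ hgt D ≤ 2 ^ (k + 2)}

lemma gf_DS (k : ℕ) : gf (DS k) ≤ ENNReal.ofReal (4 * Ub k) := by
  refine (gf_mono ?_).trans ((NTm.low_mass (2 ^ (k + 2))).trans (ENNReal.ofReal_le_ofReal ((UU_s k 2).trans (by norm_num))))
  rintro D ⟨h1, h2⟩
  exact ⟨hgt D, h2, BU_hgt h1⟩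

open scoped Classical in
/-- the sums with independent factors -/
lemma s5_gen {AT : Set (List Bool)} {k N : ℕ} (g1 g2 : List Bool → ℝ≥0∞) (W : List Bool → List Bool → ℝ≥0∞) (κ : ℝ≥0∞)
    (hκ : ∀ (v : Pt) (b : ℕ), ∑' Z' : List Bool, ∑' Z : List Bool, (if (Z' ∈ HB (2 ^ k) ∧ hgt Z' ≤ 2 ^ (k + 1)) ∧
      (Z ∈ HB (2 ^ k) ∧ hgt Z ≤ 2 ^ (k + 1)) ∧ en Z' + en Z = v ∧ Z'.length + Z.length = b then
        wE Z' * wE Z * W Z' Z else 0) ≤ κ) :
    S5 AT k N (fun Z' T1 _ T2 Z => g1 T1 * (g2 T2 * W Z' Z)) ≤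
      (∑' T1, iw AT T1 * g1 T1) * (gf (DS k) * ((∑' T2, iw AT T2 * g2 T2) * κ)) := by
  unfold S5
  rw [reo]
  calc ∑' T1 : List Bool, ∑' D : List Bool, ∑' T2 : List Bool, ∑' Z' : List Bool, ∑' Z : List Bool,
        (if Tup AT k Z' T1 D T2 Z ∧ Cl N Z' T1 D T2 Z then
          wE Z' * wE T1 * wE D * wE T2 * wE Z * (g1 T1 * (g2 T2 * W Z' Z)) else 0)
      ≤ ∑' T1 : List Bool, ∑' D : List Bool, ∑' T2 : List Bool, (iw AT T1 * g1 T1) * (iw (DS k) D * ((iw AT T2 * g2 T2) *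
        ∑' Z' : List Bool, ∑' Z : List Bool, (if (Z' ∈ HB (2 ^ k) ∧ hgt Z' ≤ 2 ^ (k + 1)) ∧
          (Z ∈ HB (2 ^ k) ∧ hgt Z ≤ 2 ^ (k + 1)) ∧ en Z' + en Z = en D + en T2 - en T1 ∧
          Z'.length + Z.length = N - (T1.length + D.length + T2.length) then wE Z' * wE Z * W Z' Z else 0))) := by
        refine ENNReal.tsum_le_tsum fun T1 => ENNReal.tsum_le_tsum fun D => ENNReal.tsum_le_tsum fun T2 => ?_
        simp only [← ENNReal.tsum_mul_left]
        refine ENNReal.tsum_le_tsum fun Z' => ENNReal.tsum_le_tsum fun Z => ?_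
        by_cases h : Tup AT k Z' T1 D T2 Z ∧ Cl N Z' T1 D T2 Z
        · obtain ⟨⟨h1, h2, h3, h4, h5⟩, h6, h7⟩ := id h
          rw [if_pos h, if_pos ⟨h1, h5, h6, by omega⟩, iw_of h2, iw_of h4, iw_of (show D ∈ DS k from h3)]
          refine le_of_eq ?_
          ring
        · rw [if_neg h]
          exact zero_le
    _ ≤ ∑' T1 : List Bool, ∑' D : List Bool, ∑' T2 : List Bool,
        (iw AT T1 * g1 T1) * (iw (DS k) D * ((iw AT T2 * g2 T2) * κ)) :=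
        ENNReal.tsum_le_tsum fun T1 => ENNReal.tsum_le_tsum fun D => ENNReal.tsum_le_tsum fun T2 =>
          mul_le_mul' le_rfl (mul_le_mul' le_rfl (mul_le_mul' le_rfl (hκ _ _)))
    _ = _ := by
        simp only [ENNReal.tsum_mul_left, ENNReal.tsum_mul_right]
        rw [iw_sum]

/-- the bridges of half the height -/
lemma HB_pred {k : ℕ} {Z : List Bool} (h : Z ∈ HB (2 ^ k)) : Z ∈ HB (2 ^ (k - 1)) := by
  obtain ⟨h0, h1, h2⟩ := h
  exact ⟨h0, (Nat.pow_le_pow_right (by norm_num) (by omega : k - 1 ≤ k)).trans h1, h2⟩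

lemma HB_BU {n : ℕ} {Z : List Bool} (h : Z ∈ HB n) : Z ∈ BU := by
  obtain ⟨h0, h1, h2⟩ := h
  exact ⟨h0, h2⟩

/-- the joint bound at the scale k - 1 -/
lemma pair_pred {m : ℕ → ℝ} (hm : ∀ k, 0 < m k) (hu : MUp m) (hJ : JoB m) : ∃ C : ℝ, 0 < C ∧ ∀ (k : ℕ) (v : Pt) (b : ℕ),
    pairs (2 ^ (k - 1)) v b ≤ ENNReal.ofReal (C * (Ub k ^ 2 / (4 ^ k * m k))) := by
  obtain ⟨C, hC, hJ⟩ := hJ
  obtain ⟨Cm, hCm, hmu⟩ := hu
  refine ⟨C * (4 * Cm), by positivity, fun k v b => (hJ (k - 1) v b).trans (ENNReal.ofReal_le_ofReal ?_)⟩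
  have hU := Ub_pos k
  have hmk := hm k
  have hm1 := hm (k - 1)
  have hU1 := Ub_pos (k - 1)
  have hU2 : Ub (k - 1) ≤ Ub k := Ub_mono (by omega)
  have h1 : m k ≤ Cm * m (k - 1) := by
    rcases Nat.eq_zero_or_pos k with h0 | h0
    · rw [h0, Nat.zero_sub]
      exact le_mul_of_one_le_left (hm 0).le hCm
    · have h2 := hmu (k - 1)
      rwa [Nat.sub_add_cancel h0] at h2
  have h3 : (4 : ℝ) ^ k ≤ 4 * 4 ^ (k - 1) := by
    rw [← pow_succ']
    exact pow_le_pow_right₀ (by norm_num) (by omega)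
  have h4 : 4 ^ k * m k ≤ 4 * Cm * (4 ^ (k - 1) * m (k - 1)) := by
    calc (4 : ℝ) ^ k * m k ≤ (4 * 4 ^ (k - 1)) * (Cm * m (k - 1)) := mul_le_mul h3 h1 hmk.le (by positivity)
      _ = _ := by ring
  have h5 : Ub (k - 1) ^ 2 / (4 ^ (k - 1) * m (k - 1)) ≤ 4 * Cm * (Ub k ^ 2 / (4 ^ k * m k)) := by
    rw [div_le_iff₀ (by positivity), mul_assoc (4 * Cm), div_mul_eq_mul_div, mul_div_assoc', le_div_iff₀ (by positivity)]
    have h6 : Ub (k - 1) ^ 2 ≤ Ub k ^ 2 := pow_le_pow_left₀ hU1.le hU2 2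
    calc Ub (k - 1) ^ 2 * (4 ^ k * m k) ≤ Ub k ^ 2 * (4 * Cm * (4 ^ (k - 1) * m (k - 1))) :=
          mul_le_mul h6 h4 (by positivity) (by positivity)
      _ = _ := by ring
  calc C * (Ub (k - 1) ^ 2 / (4 ^ (k - 1) * m (k - 1))) ≤ C * (4 * Cm * (Ub k ^ 2 / (4 ^ k * m k))) :=
        mul_le_mul_of_nonneg_left h5 hC.le
    _ = _ := by ring

open scoped Classical in
/-- another arc inside of an arc -/
lemma na_sum {AT : Set (List Bool)} {k : ℕ} : ∑' T, iw AT T * (cnt T.length (NA AT k T) : ℝ≥0∞) ≤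
    ENNReal.ofReal (U2 (2 ^ k)) * gf AT := by
  refine (ENNReal.tsum_le_tsum fun T => mul_le_mul' (iw_le AT T) le_rfl).trans ?_
  refine (cnt_push (ι := (List Bool × List Bool) × List Bool) (fun i => i.1.1 ++ (i.2 ++ i.1.2))
    (fun i => ((i.1.1 ∈ BU ∧ i.1.2 ∈ BU) ∧ (hgt i.1.1 = hgt i.1.2 ∧ hgt i.1.1 ≤ 2 ^ k)) ∧ i.2 ∈ AT) (fun i => i.1.1.length)
    wE (fun T => T.length) (fun T => NA AT k T) ?_).trans ?_
  · rintro T c ⟨P, T', Q, h1, h2, h3, h4, h5⟩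
    exact ⟨((P, Q), T'), ⟨h1.symm, ⟨h3, h4⟩, h5⟩, h2⟩
  · rw [ENNReal.tsum_prod']
    calc _ = ∑' pq : List Bool × List Bool, (if (pq.1 ∈ BU ∧ pq.2 ∈ BU) ∧ (hgt pq.1 = hgt pq.2 ∧ hgt pq.1 ≤ 2 ^ k) then
          wE pq.1 * wE pq.2 else 0) * ∑' T', iw AT T' := by
          refine tsum_congr fun pq => ?_
          rw [← ENNReal.tsum_mul_left]
          refine tsum_congr fun T' => ?_
          by_cases h1 : (pq.1 ∈ BU ∧ pq.2 ∈ BU) ∧ (hgt pq.1 = hgt pq.2 ∧ hgt pq.1 ≤ 2 ^ k)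
          · rw [if_pos h1]
            by_cases h2 : T' ∈ AT
            · rw [if_pos ⟨h1, h2⟩, iw_of h2, wE_append, wE_append]
              ring
            · rw [if_neg fun h => h2 h.2, iw, if_neg h2, mul_zero]
          · rw [if_neg h1, if_neg fun h => h1 h.1, zero_mul]
      _ ≤ ENNReal.ofReal (U2 (2 ^ k)) * gf AT := by
          rw [ENNReal.tsum_mul_right, iw_sum, ENNReal.tsum_prod']
          exact mul_le_mul' (two_mass (2 ^ k)) le_rfl

open scoped Classical in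
/-- the seven words, first order -/
lemma seven {AT : Set (List Bool)} {k : ℕ} (κ : ℝ≥0∞) (hκ : ∀ (v : Pt) (b : ℕ), pairs (2 ^ (k - 1)) v b ≤ κ)
    (V : List Bool → List Bool → List Bool → List Bool → List Bool → Pt)
    (B : List Bool → List Bool → List Bool → List Bool → List Bool → ℕ) :
    ∑' P : List Bool, ∑' Q : List Bool, ∑' T1 : List Bool, ∑' D : List Bool, ∑' T2 : List Bool, ∑' Z' : List Bool,
      ∑' Z : List Bool, (if (P ∈ BU ∧ Q ∈ BU) ∧ (hgt P = hgt Q ∧ hgt P ≤ 2 ^ k) then wE P * wE Q else 0) *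
        (iw AT T1 * (iw (DS k) D * (iw AT T2 * (if Z' ∈ HB (2 ^ (k - 1)) ∧ Z ∈ HB (2 ^ (k - 1)) ∧
          en Z' + en Z = V P Q T1 D T2 ∧ Z'.length + Z.length = B P Q T1 D T2 then wE Z' * wE Z else 0)))) ≤
      ENNReal.ofReal (U2 (2 ^ k)) * (gf AT * (gf (DS k) * (gf AT * κ))) := by
  calc _ ≤ ∑' P : List Bool, ∑' Q : List Bool, ∑' T1 : List Bool, ∑' D : List Bool, ∑' T2 : List Bool,
        (if (P ∈ BU ∧ Q ∈ BU) ∧ (hgt P = hgt Q ∧ hgt P ≤ 2 ^ k) then wE P * wE Q else 0) *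
        (iw AT T1 * (iw (DS k) D * (iw AT T2 * κ))) := by
        refine ENNReal.tsum_le_tsum fun P => ENNReal.tsum_le_tsum fun Q => ENNReal.tsum_le_tsum fun T1 =>
          ENNReal.tsum_le_tsum fun D => ENNReal.tsum_le_tsum fun T2 => ?_
        simp only [ENNReal.tsum_mul_left]
        exact mul_le_mul' le_rfl (mul_le_mul' le_rfl (mul_le_mul' le_rfl (mul_le_mul' le_rfl (hκ _ _))))
    _ ≤ _ := by
        simp only [ENNReal.tsum_mul_left, ENNReal.tsum_mul_right]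
        rw [iw_sum, iw_sum]
        exact mul_le_mul' (two_mass (2 ^ k)) le_rfl

/-- from closedness to the displacement of the pair, the top -/
lemma cl_top {N : ℕ} {Z'' P Q D' T1 T2 Z : List Bool} (hZ : Z'' ∈ BU) (hQ : Q ∈ BU)
    (h : Cl N (Z'' ++ P) T1 (Q ++ D') T2 Z) : en Z'' + en Z = en Q + en D' + en T2 - en T1 - en P ∧
      Z''.length + Z.length = N - (P.length + Q.length + T1.length + D'.length + T2.length) := by
  obtain ⟨h1, h2⟩ := h
  rw [en_app hZ, en_app hQ] at h1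
  rw [List.length_append, List.length_append] at h2
  refine ⟨?_, by omega⟩
  rw [← h1]
  abel

/-- from closedness to the displacement of the pair, the bottom -/
lemma cl_bot {N : ℕ} {Z' P Q D' T1 T2 Z'' : List Bool} (hD : D' ∈ BU) (hQ : Q ∈ BU)
    (h : Cl N Z' T1 (D' ++ P) T2 (Q ++ Z'')) : en Z' + en Z'' = en D' + en P + en T2 - en T1 - en Q ∧
      Z'.length + Z''.length = N - (P.length + Q.length + T1.length + D'.length + T2.length) := by
  obtain ⟨h1, h2⟩ := h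
  rw [en_app hQ, en_app hD] at h1
  rw [List.length_append, List.length_append] at h2
  refine ⟨?_, by omega⟩
  have h3 : en Z' + en Z'' = en Z' + (en Q + en Z'') - en Q := by abel
  rw [h3, h1]

open scoped Classical in
/-- another arc around the top arc -/
lemma nb1_sum {AT : Set (List Bool)} {k N : ℕ} {κ : ℝ≥0∞} (hκ : ∀ (v : Pt) (b : ℕ), pairs (2 ^ (k - 1)) v b ≤ κ) :
    S5 AT k N (fun Z' _ D _ _ => (cnt Z'.length (NB1 k Z' D) : ℝ≥0∞)) ≤
      ENNReal.ofReal (U2 (2 ^ k)) * (gf AT * (gf (DS k) * (gf AT * κ))) := by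
  obtain ⟨G, hG⟩ : ∃ G : List Bool × List Bool → ℝ≥0∞, G = fun b => ∑' T1 : List Bool, ∑' T2 : List Bool, ∑' Z : List Bool,
    (if Tup AT k b.1 T1 b.2 T2 Z ∧ Cl N b.1 T1 b.2 T2 Z then wE b.1 * wE T1 * wE b.2 * wE T2 * wE Z else 0) := ⟨_, rfl⟩
  have e1 : S5 AT k N (fun Z' _ D _ _ => (cnt Z'.length (NB1 k Z' D) : ℝ≥0∞)) =
      ∑' b, G b * (cnt b.1.length (NB1 k b.1 b.2) : ℝ≥0∞) := by
    rw [ENNReal.tsum_prod']
    unfold S5
    refine tsum_congr fun Z' => ?_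
    rw [ENNReal.tsum_comm]
    refine tsum_congr fun D => ?_
    rw [hG]
    simp only [← ENNReal.tsum_mul_right]
    refine tsum_congr fun T1 => tsum_congr fun T2 => tsum_congr fun Z => ?_
    split_ifs
    · rfl
    · rw [zero_mul]
  rw [e1]
  refine (cnt_push (ι := (List Bool × List Bool) × (List Bool × List Bool)) (fun i => (i.2.1 ++ i.1.1, i.1.2 ++ i.2.2))
    (fun i => ((i.1.1 ∈ BU ∧ i.1.2 ∈ BU) ∧ (hgt i.1.1 = hgt i.1.2 ∧ hgt i.1.1 ≤ 2 ^ k)) ∧ i.2.1 ∈ HB (2 ^ (k - 1)) ∧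
      i.2.2 ∈ BU) (fun i => i.1.1.length) G (fun b => b.1.length) (fun b => NB1 k b.1 b.2) ?_).trans ?_
  · rintro ⟨Z', D⟩ c ⟨Z'', P, Q, D', h1, h2, h3, h4, h5, h6, h7⟩
    exact ⟨((P, Q), (Z'', D')), ⟨Prod.ext h1.symm h2.symm, ⟨h4, h5⟩, h6, h7⟩, h3⟩
  · refine le_trans ?_ (seven (AT := AT) κ hκ (fun P Q T1 D T2 => en Q + en D + en T2 - en T1 - en P)
      (fun P Q T1 D T2 => N - (P.length + Q.length + T1.length + D.length + T2.length)))
    rw [ENNReal.tsum_prod', ENNReal.tsum_prod']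
    refine ENNReal.tsum_le_tsum fun P => ENNReal.tsum_le_tsum fun Q => ?_
    rw [← reo, ENNReal.tsum_prod']
    refine ENNReal.tsum_le_tsum fun Z'' => ?_
    rw [ENNReal.tsum_comm]
    refine ENNReal.tsum_le_tsum fun D' => ?_
    simp only
    by_cases h : ((P ∈ BU ∧ Q ∈ BU) ∧ (hgt P = hgt Q ∧ hgt P ≤ 2 ^ k)) ∧ Z'' ∈ HB (2 ^ (k - 1)) ∧ D' ∈ BU
    swap
    · rw [if_neg h]
      exact zero_le
    obtain ⟨hPQ, hZ, hD⟩ := id h
    rw [if_pos h, hG]
    simp only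
    refine ENNReal.tsum_le_tsum fun T1 => ENNReal.tsum_le_tsum fun T2 => ENNReal.tsum_le_tsum fun Z => ?_
    by_cases h8 : Tup AT k (Z'' ++ P) T1 (Q ++ D') T2 Z ∧ Cl N (Z'' ++ P) T1 (Q ++ D') T2 Z
    swap
    · rw [if_neg h8]
      exact zero_le
    obtain ⟨⟨h1, h2, h3, h4, h5⟩, h6⟩ := id h8
    obtain ⟨h9, h10⟩ := cl_top (HB_BU hZ) hPQ.1.2 h6
    have h11 : hgt (Q ++ D') = hgt Q + hgt D' := SIM.CS.happ hPQ.1.2 hD
    have h12 : D' ∈ DS k := ⟨hD, by have := h3.2; omega⟩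
    rw [if_pos h8, if_pos hPQ, if_pos ⟨hZ, HB_pred h5.1, h9, h10⟩, iw_of h2, iw_of h4, iw_of h12, wE_append, wE_append]
    refine le_of_eq ?_
    ring

open scoped Classical in
/-- another arc around the bottom arc -/
lemma nb4_sum {AT : Set (List Bool)} {k N : ℕ} {κ : ℝ≥0∞} (hκ : ∀ (v : Pt) (b : ℕ), pairs (2 ^ (k - 1)) v b ≤ κ) :
    S5 AT k N (fun _ _ D _ Z => (cnt Z.length (NB4 k D Z) : ℝ≥0∞)) ≤
      ENNReal.ofReal (U2 (2 ^ k)) * (gf AT * (gf (DS k) * (gf AT * κ))) := by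
  obtain ⟨G, hG⟩ : ∃ G : List Bool × List Bool → ℝ≥0∞, G = fun b => ∑' Z' : List Bool, ∑' T1 : List Bool, ∑' T2 : List Bool,
    (if Tup AT k Z' T1 b.1 T2 b.2 ∧ Cl N Z' T1 b.1 T2 b.2 then wE Z' * wE T1 * wE b.1 * wE T2 * wE b.2 else 0) := ⟨_, rfl⟩
  have e1 : S5 AT k N (fun _ _ D _ Z => (cnt Z.length (NB4 k D Z) : ℝ≥0∞)) =
      ∑' b, G b * (cnt b.2.length (NB4 k b.1 b.2) : ℝ≥0∞) := by
    rw [ENNReal.tsum_prod']
    unfold S5
    rw [reo4]
    refine tsum_congr fun D => tsum_congr fun Z => ?_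
    rw [hG]
    simp only [← ENNReal.tsum_mul_right]
    refine tsum_congr fun Z' => tsum_congr fun T1 => tsum_congr fun T2 => ?_
    split_ifs
    · rfl
    · rw [zero_mul]
  rw [e1]
  refine (cnt_push (ι := (List Bool × List Bool) × (List Bool × List Bool)) (fun i => (i.2.1 ++ i.1.1, i.1.2 ++ i.2.2))
    (fun i => ((i.1.1 ∈ BU ∧ i.1.2 ∈ BU) ∧ (hgt i.1.1 = hgt i.1.2 ∧ hgt i.1.1 ≤ 2 ^ k)) ∧ i.2.2 ∈ HB (2 ^ (k - 1)) ∧
      i.2.1 ∈ BU) (fun i => i.1.2.length) G (fun b => b.2.length) (fun b => NB4 k b.1 b.2) ?_).trans ?_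
  · rintro ⟨D, Z⟩ c ⟨D', P, Q, Z'', h1, h2, h3, h4, h5, h6, h7⟩
    exact ⟨((P, Q), (D', Z'')), ⟨Prod.ext h1.symm h2.symm, ⟨h4, h5⟩, h6, h7⟩, h3⟩
  · refine le_trans ?_ (seven (AT := AT) κ hκ (fun P Q T1 D T2 => en D + en P + en T2 - en T1 - en Q)
      (fun P Q T1 D T2 => N - (P.length + Q.length + T1.length + D.length + T2.length)))
    rw [ENNReal.tsum_prod', ENNReal.tsum_prod']
    refine ENNReal.tsum_le_tsum fun P => ENNReal.tsum_le_tsum fun Q => ?_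
    rw [← reo, reo4, ENNReal.tsum_prod']
    refine ENNReal.tsum_le_tsum fun D' => ENNReal.tsum_le_tsum fun Z'' => ?_
    simp only
    by_cases h : ((P ∈ BU ∧ Q ∈ BU) ∧ (hgt P = hgt Q ∧ hgt P ≤ 2 ^ k)) ∧ Z'' ∈ HB (2 ^ (k - 1)) ∧ D' ∈ BU
    swap
    · rw [if_neg h]
      exact zero_le
    obtain ⟨hPQ, hZ, hD⟩ := id h
    rw [if_pos h, hG]
    simp only
    refine ENNReal.tsum_le_tsum fun Z' => ENNReal.tsum_le_tsum fun T1 => ENNReal.tsum_le_tsum fun T2 => ?_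
    by_cases h8 : Tup AT k Z' T1 (D' ++ P) T2 (Q ++ Z'') ∧ Cl N Z' T1 (D' ++ P) T2 (Q ++ Z'')
    swap
    · rw [if_neg h8]
      exact zero_le
    obtain ⟨⟨h1, h2, h3, h4, h5⟩, h6⟩ := id h8
    obtain ⟨h9, h10⟩ := cl_bot hD hPQ.1.2 h6
    have h11 : hgt (D' ++ P) = hgt D' + hgt P := SIM.CS.happ hD hPQ.1.1
    have h12 : D' ∈ DS k := ⟨hD, by have := h3.2; omega⟩
    rw [if_pos h8, if_pos hPQ, if_pos ⟨HB_pred h1.1, hZ, h9, h10⟩, iw_of h2, iw_of h4, iw_of h12, wE_append, wE_append]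
    refine le_of_eq ?_
    ring

open scoped Classical in
/-- the number of cuts of the two up strands -/
lemma nc_pair {Ce x : ℝ} {k : ℕ} (hCe : ∀ (v : Pt) (b : ℕ),
    ∑' Z : List Bool, ∑' Z' : List Bool, (if (Z ∈ HB (2 ^ k) ∧ hgt Z ≤ 2 ^ (k + 1)) ∧ Z' ∈ HB (2 ^ k) ∧ en Z + en Z' = v ∧
      Z.length + Z'.length = b then wE Z * wE Z' * nc Z else 0) ≤ ENNReal.ofReal (Ce * 2 ^ 1 * Ub k * x)) (hCe0 : 0 ≤ Ce)
    (hx : 0 ≤ x) (v : Pt) (b : ℕ) :
    ∑' Z' : List Bool, ∑' Z : List Bool, (if (Z' ∈ HB (2 ^ k) ∧ hgt Z' ≤ 2 ^ (k + 1)) ∧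
      (Z ∈ HB (2 ^ k) ∧ hgt Z ≤ 2 ^ (k + 1)) ∧ en Z' + en Z = v ∧ Z'.length + Z.length = b then
        wE Z' * wE Z * ((nc Z' : ℝ≥0∞) + nc Z) else 0) ≤ ENNReal.ofReal (4 * Ce * Ub k * x) := by
  have hU := Ub_pos k
  calc _ ≤ ∑' Z' : List Bool, ∑' Z : List Bool, ((if (Z' ∈ HB (2 ^ k) ∧ hgt Z' ≤ 2 ^ (k + 1)) ∧ Z ∈ HB (2 ^ k) ∧
        en Z' + en Z = v ∧ Z'.length + Z.length = b then wE Z' * wE Z * nc Z' else 0) +
      (if (Z ∈ HB (2 ^ k) ∧ hgt Z ≤ 2 ^ (k + 1)) ∧ Z' ∈ HB (2 ^ k) ∧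
        en Z + en Z' = v ∧ Z.length + Z'.length = b then wE Z * wE Z' * nc Z else 0)) := by
        refine ENNReal.tsum_le_tsum fun Z' => ENNReal.tsum_le_tsum fun Z => ?_
        by_cases h : (Z' ∈ HB (2 ^ k) ∧ hgt Z' ≤ 2 ^ (k + 1)) ∧ (Z ∈ HB (2 ^ k) ∧ hgt Z ≤ 2 ^ (k + 1)) ∧ en Z' + en Z = v ∧
          Z'.length + Z.length = b
        · obtain ⟨h1, h2, h3, h4⟩ := id h
          rw [if_pos h, if_pos ⟨h1, h2.1, h3, h4⟩, if_pos ⟨h2, h1.1, by rw [add_comm]; exact h3, by omega⟩]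
          refine le_of_eq ?_
          ring
        · rw [if_neg h]
          exact zero_le
    _ ≤ ENNReal.ofReal (Ce * 2 ^ 1 * Ub k * x) + ENNReal.ofReal (Ce * 2 ^ 1 * Ub k * x) := by
        simp only [ENNReal.tsum_add]
        refine add_le_add (hCe v b) ?_
        rw [ENNReal.tsum_comm]
        exact hCe v b
    _ = ENNReal.ofReal (4 * Ce * Ub k * x) := by
        rw [← ENNReal.ofReal_add (by positivity) (by positivity)]
        congr 1
        ring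

end Sm

open Sm

open scoped Classical in
/-- **the sums with one additional mark**, from the joint bound -/
theorem sums_of {m : ℕ → ℝ} (hm : ∀ k, 0 < m k) (hu : MUp m) (hJ : JoB m) : Sums5 m := by
  obtain ⟨Cp, hCp, hp⟩ := pair_pred hm hu hJ
  obtain ⟨Ce, hCe, he⟩ := extra_of hm hu hJ
  refine ⟨16 * Ce + 4 * Cp, by positivity, fun AT x k N hx hAT => ?_⟩
  have hU := Ub_pos k
  have hmk := hm k
  have hU2 : 0 ≤ U2 (2 ^ k) := by
    unfold U2
    positivity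
  obtain ⟨y, hy⟩ : ∃ y : ℝ, y = Ub k ^ 2 / (4 ^ k * m k) := ⟨_, rfl⟩
  have hy0 : 0 ≤ y := by rw [hy]; positivity
  rw [← hy]
  have hp' : ∀ (v : Pt) (b : ℕ), pairs (2 ^ (k - 1)) v b ≤ ENNReal.ofReal (Cp * y) := by
    rw [hy]
    exact hp k
  have hpp : ∀ (v : Pt) (b : ℕ), ∑' Z' : List Bool, ∑' Z : List Bool, (if (Z' ∈ HB (2 ^ k) ∧ hgt Z' ≤ 2 ^ (k + 1)) ∧
      (Z ∈ HB (2 ^ k) ∧ hgt Z ≤ 2 ^ (k + 1)) ∧ en Z' + en Z = v ∧ Z'.length + Z.length = b then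
        wE Z' * wE Z * (1 : ℝ≥0∞) else 0) ≤ ENNReal.ofReal (Cp * y) := by
    intro v b
    refine le_trans (ENNReal.tsum_le_tsum fun Z' => ENNReal.tsum_le_tsum fun Z => ?_) (hp' v b)
    by_cases h : (Z' ∈ HB (2 ^ k) ∧ hgt Z' ≤ 2 ^ (k + 1)) ∧ (Z ∈ HB (2 ^ k) ∧ hgt Z ≤ 2 ^ (k + 1)) ∧ en Z' + en Z = v ∧
      Z'.length + Z.length = b
    · rw [if_pos h, if_pos ⟨HB_pred h.1.1, HB_pred h.2.1.1, h.2.2⟩, mul_one]
    · rw [if_neg h]
      exact zero_le
  have hD := gf_DS k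
  have hone : ∑' T, iw AT T * (1 : ℝ≥0∞) ≤ ENNReal.ofReal x := by
    simp only [mul_one]
    rw [iw_sum]
    exact hAT
  have hna : ∑' T, iw AT T * (cnt T.length (NA AT k T) : ℝ≥0∞) ≤ ENNReal.ofReal (U2 (2 ^ k)) * ENNReal.ofReal x :=
    na_sum.trans (mul_le_mul' le_rfl hAT)
  have hfin : ENNReal.ofReal (U2 (2 ^ k)) * (ENNReal.ofReal x * (ENNReal.ofReal (4 * Ub k) * (ENNReal.ofReal x *
      ENNReal.ofReal (Cp * y)))) ≤ ENNReal.ofReal ((16 * Ce + 4 * Cp) * U2 (2 ^ k) * (x ^ 2 * Ub k * y)) := by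
    rw [← ENNReal.ofReal_mul hx, ← ENNReal.ofReal_mul (by positivity), ← ENNReal.ofReal_mul hx, ← ENNReal.ofReal_mul hU2]
    refine ENNReal.ofReal_le_ofReal ?_
    have h1 : 0 ≤ 16 * Ce * U2 (2 ^ k) * (x ^ 2 * Ub k * y) := by positivity
    linarith [h1]
  refine ⟨?_, ?_, ?_, ?_, ?_⟩
  · have h1 := s5_gen (AT := AT) (k := k) (N := N) (fun _ => 1) (fun _ => 1) (fun Z' Z => (nc Z' : ℝ≥0∞) + nc Z) _
      (nc_pair (fun v b => he k 1 v b) hCe.le (by positivity))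
    simp only [one_mul] at h1
    refine h1.trans ((mul_le_mul' hone (mul_le_mul' hD (mul_le_mul' hone le_rfl))).trans ?_)
    rw [← hy, ← ENNReal.ofReal_mul hx, ← ENNReal.ofReal_mul (by positivity), ← ENNReal.ofReal_mul hx]
    refine ENNReal.ofReal_le_ofReal ?_
    have h2 : 0 ≤ 4 * Cp * Ub k * (x ^ 2 * Ub k * y) := by positivity
    linarith [h2]
  · have h1 := s5_gen (AT := AT) (k := k) (N := N) (fun T1 => (cnt T1.length (NA AT k T1) : ℝ≥0∞)) (fun _ => 1) (fun _ _ => 1) _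
      hpp
    simp only [mul_one] at h1
    refine h1.trans (le_trans ?_ hfin)
    have h2 : (∑' T1, iw AT T1 * (cnt T1.length (NA AT k T1) : ℝ≥0∞)) * (gf (DS k) * ((∑' T2, iw AT T2) *
        ENNReal.ofReal (Cp * y))) ≤ (ENNReal.ofReal (U2 (2 ^ k)) * ENNReal.ofReal x) * (ENNReal.ofReal (4 * Ub k) *
        (ENNReal.ofReal x * ENNReal.ofReal (Cp * y))) := by
      rw [iw_sum]
      exact mul_le_mul' hna (mul_le_mul' hD (mul_le_mul' hAT le_rfl))
    refine h2.trans (le_of_eq ?_)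
    ring
  · refine (nb1_sum hp').trans (le_trans ?_ hfin)
    exact mul_le_mul' le_rfl (mul_le_mul' hAT (mul_le_mul' hD (mul_le_mul' hAT le_rfl)))
  · have h1 := s5_gen (AT := AT) (k := k) (N := N) (fun _ => 1) (fun T2 => (cnt T2.length (NA AT k T2) : ℝ≥0∞)) (fun _ _ => 1) _
      hpp
    simp only [one_mul, mul_one] at h1
    refine h1.trans (le_trans ?_ hfin)
    have h2 : (∑' T1, iw AT T1) * (gf (DS k) * ((∑' T2, iw AT T2 * (cnt T2.length (NA AT k T2) : ℝ≥0∞)) *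
        ENNReal.ofReal (Cp * y))) ≤ ENNReal.ofReal x * (ENNReal.ofReal (4 * Ub k) *
        ((ENNReal.ofReal (U2 (2 ^ k)) * ENNReal.ofReal x) * ENNReal.ofReal (Cp * y))) := by
      rw [iw_sum]
      exact mul_le_mul' hAT (mul_le_mul' hD (mul_le_mul' hna le_rfl))
    refine h2.trans (le_of_eq ?_)
    ring
  · refine (nb4_sum hp').trans (le_trans ?_ hfin)
    exact mul_le_mul' le_rfl (mul_le_mul' hAT (mul_le_mul' hD (mul_le_mul' hAT le_rfl)))

/-- **the sums with one additional mark**, mean length of the bridges, no hypothesis -/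
theorem sums5 : Sums5 (fun k => PW.mZ (2 ^ k)) := sums_of (fun k => mlow_M.pos k) mup_M joB_M

end POL

end HexObs
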