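import Pool.Agent.POL.L4Defs
import Pool.Agent.NTA.TIDefs

/-!
POL, L5: the numbers of the lower half, and a scale for every number of letters (helper51).
-/

set_option autoImplicit false

namespace HexObs

namespace POL

open Finset TS NTA JNT

/-- a scale for every number of letters -/
lemma scale_ex {m : ℕ → ℝ} {c C : ℝ} (hc : 0 < c) (h1 : ∀ k : ℕ, c * 2 ^ (4 / 3 * (k : ℝ)) ≤ m k)
    (h2 : ∀ k, m (k + 1) ≤ C * m k) (k0 : ℕ) :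
    ∃ N0 : ℕ, ∀ N : ℕ, N0 ≤ N → ∃ k, k0 ≤ k ∧ m k ≤ N ∧ (N : ℝ) ≤ C * m k := by
  refine ⟨⌈m k0⌉₊, fun N hN => ?_⟩
  have h0 : m k0 ≤ N := (Nat.le_ceil _).trans (by exact_mod_cast hN)
  have hex : ∃ k, k0 ≤ k ∧ (N : ℝ) < m k := by
    obtain ⟨k, hk⟩ := pow_unbounded_of_one_lt ((N : ℝ) / c) (by norm_num : (1 : ℝ) < 2)
    refine ⟨max k0 k, le_max_left _ _, lt_of_lt_of_le ?_ (h1 _)⟩
    rw [div_lt_iff₀ hc] at hk
    refine lt_of_lt_of_le hk ?_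
    rw [mul_comm]
    refine mul_le_mul_of_nonneg_left ?_ hc.le
    rw [← Real.rpow_natCast]
    refine Real.rpow_le_rpow_of_exponent_le (by norm_num) ?_
    have h3 : (k : ℝ) ≤ ((max k0 k : ℕ) : ℝ) := by exact_mod_cast le_max_right _ _
    have h4 : (0 : ℝ) ≤ k := Nat.cast_nonneg k
    linarith
  classical
  obtain ⟨k, hk⟩ : ∃ k, k = Nat.find hex := ⟨_, rfl⟩
  have hk1 := Nat.find_spec hex
  rw [← hk] at hk1
  have hk2 : k0 < k := by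
    rcases Nat.lt_or_ge k0 k with h | h
    · exact h
    · exfalso
      have h3 : k = k0 := le_antisymm h hk1.1
      rw [h3] at hk1
      linarith [hk1.2]
  have hk3 := Nat.find_min hex (m := k - 1) (by omega)
  push Not at hk3
  refine ⟨k - 1, by omega, hk3 (by omega), ?_⟩
  have h3 := h2 (k - 1)
  rw [Nat.sub_add_cancel (by omega)] at h3
  exact hk1.2.le.trans h3

/-- the numbers -/
lemma num5 {m : ℕ → ℝ} {c1 C1 c3 c C : ℝ} (hc1 : 0 < c1) (hC1 : 0 < C1) (hc3 : 0 < c3) (hc : 0 < c) (hC : 0 < C)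
    (hlow : ∀ k : ℕ, c1 * 2 ^ (4 / 3 * (k : ℝ)) ≤ m k) (hup : ∀ k : ℕ, m k ≤ C1 * 2 ^ (4 / 3 * (k : ℝ)))
    (hU2 : ∀ M, 0 < U2 M) (hnum : ∀ k : ℕ, c3 * (Real.sqrt ((2 : ℝ) ^ k) * U2 (2 ^ k) ^ 2) ≤ Ub k ^ 2) (j s k N : ℕ)
    (hmN : m k ≤ N) :
    c * C ^ 2 * c3 * c1 ^ (5 / 2 : ℝ) / (4 ^ s * 2 ^ (4 / 3 * (s : ℝ)) * C1) * (N : ℝ) ^ (-(3 / 2) : ℝ) ≤
      c * N * ((C * (2 : ℝ) ^ (-(((k - j : ℕ) : ℝ) / 4))) ^ 2 * Ub (k + s) ^ 2 /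
        (4 ^ (k + s) * m (k + s) * U2 (2 ^ (k + s)) ^ 2)) := by
  obtain ⟨y, hy⟩ : ∃ y : ℝ, y = (2 : ℝ) ^ (4 / 3 * (k : ℝ)) := ⟨_, rfl⟩
  have hy0 : 0 < y := by rw [hy]; positivity
  have h1 : c1 * y ≤ N := by rw [hy]; exact (hlow k).trans hmN
  have hN : (0 : ℝ) < N := lt_of_lt_of_le (by positivity) h1
  obtain ⟨p, hp⟩ : ∃ p : ℝ, p = (2 : ℝ) ^ (-(((k - j : ℕ) : ℝ) / 4)) := ⟨_, rfl⟩
  have hp0 : 0 < p := by rw [hp]; positivity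
  rw [← hp]
  have hu := hU2 (2 ^ (k + s))
  have hmks : 0 < m (k + s) := lt_of_lt_of_le (by positivity) (hlow (k + s))
  have hps : 1 ≤ p ^ 2 * Real.sqrt ((2 : ℝ) ^ (k + s)) := by
    have e1 : p ^ 2 * Real.sqrt ((2 : ℝ) ^ (k + s)) = (2 : ℝ) ^ (-(((k - j : ℕ) : ℝ) / 2) + ((k + s : ℕ) : ℝ) / 2) := by
      rw [hp, ← Real.rpow_natCast, ← Real.rpow_mul (by norm_num), Real.sqrt_eq_rpow, ← Real.rpow_natCast,
        ← Real.rpow_mul (by norm_num), ← Real.rpow_add (by norm_num)]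
      congr 1
      push_cast
      ring
    rw [e1]
    refine Real.one_le_rpow (by norm_num) ?_
    have h2 : ((k - j : ℕ) : ℝ) ≤ k := by exact_mod_cast Nat.sub_le k j
    have h3 : (0 : ℝ) ≤ s := Nat.cast_nonneg s
    push_cast at h2 ⊢
    linarith
  have A : C ^ 2 * c3 / (4 ^ (k + s) * m (k + s)) ≤ (C * p) ^ 2 * Ub (k + s) ^ 2 /
      (4 ^ (k + s) * m (k + s) * U2 (2 ^ (k + s)) ^ 2) := by
    rw [div_le_div_iff₀ (by positivity) (by positivity)]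
    have h2 : c3 * U2 (2 ^ (k + s)) ^ 2 ≤ p ^ 2 * Ub (k + s) ^ 2 := by
      calc c3 * U2 (2 ^ (k + s)) ^ 2 ≤ (p ^ 2 * Real.sqrt ((2 : ℝ) ^ (k + s))) * (c3 * U2 (2 ^ (k + s)) ^ 2) :=
            le_mul_of_one_le_left (by positivity) hps
        _ = p ^ 2 * (c3 * (Real.sqrt ((2 : ℝ) ^ (k + s)) * U2 (2 ^ (k + s)) ^ 2)) := by ring
        _ ≤ _ := mul_le_mul_of_nonneg_left (hnum (k + s)) (by positivity)
    calc C ^ 2 * c3 * (4 ^ (k + s) * m (k + s) * U2 (2 ^ (k + s)) ^ 2)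
        = C ^ 2 * (4 ^ (k + s) * m (k + s)) * (c3 * U2 (2 ^ (k + s)) ^ 2) := by ring
      _ ≤ C ^ 2 * (4 ^ (k + s) * m (k + s)) * (p ^ 2 * Ub (k + s) ^ 2) := mul_le_mul_of_nonneg_left h2 (by positivity)
      _ = _ := by ring
  have B : 4 ^ (k + s) * m (k + s) ≤ 4 ^ s * 2 ^ (4 / 3 * (s : ℝ)) * C1 * y ^ (5 / 2 : ℝ) := by
    have e4 : (4 : ℝ) ^ k = y ^ (3 / 2 : ℝ) := by
      rw [hy, ← Real.rpow_mul (by norm_num), show (4 : ℝ) = 2 ^ 2 by norm_num, ← pow_mul, ← Real.rpow_natCast]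
      congr 1
      push_cast
      ring
    have e5 : y ^ (5 / 2 : ℝ) = y ^ (3 / 2 : ℝ) * y := by
      nth_rewrite 3 [← Real.rpow_one y]
      rw [← Real.rpow_add hy0]
      norm_num
    have e6 : (2 : ℝ) ^ (4 / 3 * ((k + s : ℕ) : ℝ)) = y * 2 ^ (4 / 3 * (s : ℝ)) := by
      rw [hy, ← Real.rpow_add (by norm_num)]
      congr 1
      push_cast
      ring
    calc 4 ^ (k + s) * m (k + s) ≤ 4 ^ (k + s) * (C1 * (2 : ℝ) ^ (4 / 3 * ((k + s : ℕ) : ℝ))) :=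
          mul_le_mul_of_nonneg_left (hup (k + s)) (by positivity)
      _ = _ := by
          rw [e6, pow_add, e4, e5]
          ring
  have D : c1 ^ (5 / 2 : ℝ) * y ^ (5 / 2 : ℝ) ≤ (N : ℝ) ^ (5 / 2 : ℝ) := by
    rw [← Real.mul_rpow hc1.le hy0.le]
    exact Real.rpow_le_rpow (by positivity) h1 (by norm_num)
  have e7 : (N : ℝ) ^ (-(3 / 2) : ℝ) * (N : ℝ) ^ (5 / 2 : ℝ) = N := by
    rw [← Real.rpow_add hN]
    norm_num
  have hs4 : (0 : ℝ) < 4 ^ s * 2 ^ (4 / 3 * (s : ℝ)) * C1 := by positivity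
  have hNn : (0 : ℝ) < (N : ℝ) ^ (-(3 / 2) : ℝ) := by positivity
  calc c * C ^ 2 * c3 * c1 ^ (5 / 2 : ℝ) / (4 ^ s * 2 ^ (4 / 3 * (s : ℝ)) * C1) * (N : ℝ) ^ (-(3 / 2) : ℝ)
      = c * C ^ 2 * c3 * (c1 ^ (5 / 2 : ℝ) * y ^ (5 / 2 : ℝ)) * (N : ℝ) ^ (-(3 / 2) : ℝ) /
          (4 ^ s * 2 ^ (4 / 3 * (s : ℝ)) * C1 * y ^ (5 / 2 : ℝ)) := by
        field_simp
    _ ≤ c * C ^ 2 * c3 * (N : ℝ) ^ (5 / 2 : ℝ) * (N : ℝ) ^ (-(3 / 2) : ℝ) / (4 ^ (k + s) * m (k + s)) := by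
        refine div_le_div₀ (by positivity) ?_ (by positivity) B
        refine mul_le_mul_of_nonneg_right (mul_le_mul_of_nonneg_left D (by positivity)) hNn.le
    _ = c * N * (C ^ 2 * c3 / (4 ^ (k + s) * m (k + s))) := by
        rw [mul_assoc, mul_comm ((N : ℝ) ^ (5 / 2 : ℝ)), e7]
        ring
    _ ≤ _ := mul_le_mul_of_nonneg_left A (by positivity)

end POL

end HexObs
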