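import Pool.Agent.POL.Defs
import Pool.Agent.NTA.StepA

/-!
POL (polygon counts): definitions, part 2: root-good leaves, interior runs, merged leaves, windows inside a run.
-/

set_option autoImplicit false

namespace HexObs

namespace POL

open Finset TS SDN NTW NTA SIM JNT

open scoped ENNReal

/-- root-good leaves of the depth D at the scale kc: a cut in each of two windows over the foot -/
def RtS (s1 s2 kc D : ℕ) : Set (List Bool) :=
  {g | g ∉ NoCutH (kc - 5 - (s1 + s2) * (D + 1)) (s2 * (D + 1)) ∧ g ∉ NoCutH (kc - 3 - s1 * (D + 1)) (s1 * (D + 1))}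

/-- words with a run of R between the second and the last but one leaf of the scale kc + 5 -/
def HRf (kc : ℕ) (R : Set (List (List Bool))) : Set (List Bool) :=
  {w | ∃ (m u : ℕ) (e : ℕ → ℕ), Fd (kc + 5) w m u e ∧ ∃ l d : ℕ, 1 ≤ l ∧ 1 ≤ d ∧ l + d + 1 ≤ m ∧ lws w e l d ∈ R}

/-- the leaves l1, ..., l2 - 1 form together one monotone leaf of a coarser scale -/
def Mrg (w : List Bool) (u : ℕ) (e : ℕ → ℕ) (l1 l2 : ℕ) : Prop :=
  l1 < l2 ∧ (l2 - l1) % 2 = 1 ∧
  (∀ i, e l1 < i → i ≤ e l2 → Tight.sg (u + l1) (lev w (e l1)) < Tight.sg (u + l1) (lev w i)) ∧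
  (∀ i, e l1 ≤ i → i ≤ e l2 → Tight.sg (u + l1) (lev w i) ≤ Tight.sg (u + l1) (lev w (e l2)))

/-- words with a run of R that consists of a merged leaf and of the plain leaves behind it or before it -/
def HRm (kc : ℕ) (R : Set (List (List Bool))) : Set (List Bool) :=
  {w | ∃ (m u : ℕ) (e : ℕ → ℕ), Fd (kc + 5) w m u e ∧ ∃ l1 l2 d : ℕ, 1 ≤ l1 ∧ Mrg w u e l1 l2 ∧ l2 + 1 ≤ m ∧
    ((l2 + d + 1 ≤ m ∧ lw w (e l1) (e l2) :: lws w e l2 d ∈ R) ∨
      (d + 1 ≤ l1 ∧ lws w e (l1 - d) d ++ [lw w (e l1) (e l2)] ∈ R))}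

/-- closed words with a rotation whose word without the last letter is in B -/
def RotC (N K : ℕ) (B : Set (List Bool)) : Set (List Bool) :=
  {t | t ∈ WC N K ∧ ∃ (X Y w : List Bool) (c : Bool), t = X ++ Y ∧ Y ++ X = w ++ [c] ∧ w ∈ B}

/-- runs with a window of M0 leaves between a run of R1 and a run of R2 (kc, J: not used) -/
def WinR (_kc _J M0 : ℕ) (R1 R2 : Set (List (List Bool))) : Set (List (List Bool)) :=
  {gs | ∃ r1 ps r2 : List (List Bool), gs = r1 ++ (ps ++ r2) ∧ r1 ∈ R1 ∧ r1 ≠ [] ∧ r2 ∈ R2 ∧ r2 ≠ [] ∧ ps.length = M0}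

/-- closed words with a rotation with a window for the root in T -/
def RC (N n1 b0 : ℕ) (T : Set (List Bool)) : Set (List Bool) :=
  {t | t ∈ Cy N ∧ ∃ X Y : List Bool, t = X ++ Y ∧ WinC n1 b0 T (Y ++ X)}

end POL

end HexObs
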