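import Pool.Agent.POL.PubW
import Pool.Agent.POL.Defs2
import Pool.Agent.JNT.EndX

/-!
POL / SumUp (helper32): the sums over the scales: (U) the layers and (S) one box give the upper half of `final_of`.
-/

set_option autoImplicit false

namespace HexObs

namespace POL

open Finset TS SDN NTW NTA SIM JNT

open scoped ENNReal

theorem Cy_eq (N : ℕ) : Cy N = POLP.PCy N := rfl

/-- the layers -/
def UpU (m : ℕ → ℝ) : Prop := ∃ (C : ℝ) (k0 : ℕ), 0 ≤ C ∧ ∀ N K : ℕ, 1 ≤ N → k0 ≤ K →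
  gf (WC N (K + 1) \ WC N K) ≤ ENNReal.ofReal (C * (N : ℝ) / w4 m (K + 1))

/-- one box -/
def UpS (m : ℕ → ℝ) : Prop := ∃ (A : ℝ) (k0 : ℕ), 0 ≤ A ∧ ∀ N K : ℕ, k0 ≤ K → m K + 1 ≤ (N : ℝ) →
  gf (WC N K) ≤ ENNReal.ofReal (A * (N : ℝ) / w4 m K)

/-- the sum over the layers -/
lemma geo_sum {q : ℝ} (h0 : 0 ≤ q) (h1 : q ≤ 1 / 2) (B : ℝ) (hB : 0 ≤ B) :
    ∑' j : ℕ, ENNReal.ofReal (B * q ^ j) ≤ ENNReal.ofReal (2 * B) := by
  have hq : q < 1 := by linarith
  have hs : Summable fun j : ℕ => B * q ^ j := (summable_geometric_of_lt_one h0 hq).mul_left B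
  rw [← ENNReal.ofReal_tsum_of_nonneg (fun j => by positivity) hs, tsum_mul_left, tsum_geometric_of_lt_one h0 hq]
  apply ENNReal.ofReal_le_ofReal
  have h2 : (1 - q)⁻¹ ≤ 2 := by
    rw [inv_le_comm₀ (by linarith) (by norm_num)]
    linarith
  nlinarith

/-- the walk of a closed word stays in a finite box -/
lemma row_le (t : List Bool) (dir : Bool) (i : ℕ) : |row dir (vx oo up t i)| ≤ 2 * i + 2 := by
  have h : ∀ i : ℕ, |lvl dir (vx oo up t i)| ≤ 2 * i := by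
    intro i
    induction i with
    | zero => cases dir <;> simp [vx, vs, oo, lvl, ip]
    | succ i ih =>
      have e1 : vx oo up t (i + 1) = vx oo up t i + dx up t i := rfl
      have hup : up ∈ dirs := by decide
      have hd := dx_mem hup t i
      have h3 : ∀ g ∈ dirs, |lvl dir g| ≤ 2 := by cases dir <;> decide
      have h4 : lvl dir (vx oo up t i + dx up t i) = lvl dir (vx oo up t i) + lvl dir (dx up t i) := by
        unfold lvl ip
        simp only [Prod.fst_add, Prod.snd_add]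
        ring
      rw [e1, h4]
      refine (abs_add_le _ _).trans ?_
      have := h3 _ hd
      push_cast
      linarith
  have h1 := h i
  unfold row
  rw [abs_le] at h1 ⊢
  omega

lemma WC_mono {N K K' : ℕ} (h : K ≤ K') : WC N K ⊆ WC N K' := by
  rintro t ⟨h1, h2⟩
  refine ⟨h1, fun X Y hXY i hi dir => (h2 X Y hXY i hi dir).trans ?_⟩
  exact pow_le_pow_right₀ (by norm_num) h

lemma Cy_WC {N : ℕ} {t : List Bool} (ht : t ∈ Cy N) : t ∈ WC N (N + 2) := by
  refine ⟨ht, fun X Y _ i hi dir => (row_le _ dir i).trans ?_⟩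
  have h1 : N + 1 < 2 ^ (N + 1) := Nat.lt_two_pow_self
  have h2 : 2 * i + 2 ≤ 2 ^ (N + 2) := by
    have : 2 ^ (N + 2) = 2 * 2 ^ (N + 1) := by rw [pow_succ]; ring
    omega
  exact_mod_cast h2

/-- closed words are in the box or in one of the layers -/
lemma Cy_cover (N k : ℕ) : Cy N ⊆ WC N k ∪ ⋃ j : ℕ, (WC N (k + j + 1) \ WC N (k + j)) := by
  intro t ht
  by_contra hc
  rw [Set.mem_union, not_or] at hc
  obtain ⟨h1, h2⟩ := hc
  have h3 : ∀ j, t ∉ WC N (k + j) := by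
    intro j
    induction j with
    | zero => exact h1
    | succ j ih =>
      intro h4
      exact h2 (Set.mem_iUnion.2 ⟨j, h4, ih⟩)
  exact h3 (N + 2) (WC_mono (by omega) (Cy_WC ht))

lemma nrm_box {v w : Pt} {R : ℤ} (h0 : 1 ≤ R) (hv : ∀ dir, |row dir v| ≤ R) (hw : ∀ dir, |row dir w| ≤ R) :
    nrm (v - w) ≤ 100 * R ^ 2 := by
  have e : 3 * nrm (v - w) = lvl false (v - w) ^ 2 + lvl false (v - w) * lvl true (v - w) + lvl true (v - w) ^ 2 := by
    simp only [lvl, hd, ip, nrm, up, Bool.false_eq_true, if_false, if_true]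
    ring
  have es : ∀ dir, lvl dir (v - w) = lvl dir v - lvl dir w := by
    intro dir
    unfold lvl ip
    simp only [Prod.fst_sub, Prod.snd_sub]
    ring
  have k : ∀ dir, |lvl dir (v - w)| ≤ 10 * R := by
    intro dir
    rw [es dir]
    have a := hv dir
    have b := hw dir
    unfold row at a b
    rw [abs_le] at a b ⊢
    omega
  have k0 := k false
  have k1 := k true
  have s0 : lvl false (v - w) ^ 2 ≤ (10 * R) ^ 2 := sq_le_sq' (by linarith [(abs_le.1 k0).1]) (abs_le.1 k0).2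
  have s1 : lvl true (v - w) ^ 2 ≤ (10 * R) ^ 2 := sq_le_sq' (by linarith [(abs_le.1 k1).1]) (abs_le.1 k1).2
  nlinarith [sq_nonneg (lvl false (v - w) - lvl true (v - w))]

lemma WC_nrm {N K : ℕ} {t : List Bool} (ht : t ∈ WC N K) (i j : ℕ) (hi : i < N) (hj : j < N) :
    ((nrm (vx oo up t i - vx oo up t j) : ℤ) : ℝ) ≤ 100 * 4 ^ K := by
  have h := ht.2 [] t rfl
  rw [List.append_nil] at h
  have h1 := nrm_box (R := 2 ^ K) (by exact_mod_cast Nat.one_le_two_pow) (fun dir => h i hi.le dir)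
    (fun dir => h j hj.le dir)
  have h2 : ((2 : ℤ) ^ K) ^ 2 = 4 ^ K := by
    rw [← pow_mul, mul_comm, pow_mul]
    norm_num
  rw [h2] at h1
  exact_mod_cast h1

lemma two_rpow_ge {a : ℝ} (ha : 1 ≤ a) : 2 ≤ (2 : ℝ) ^ a := by
  calc (2 : ℝ) = 2 ^ (1 : ℝ) := (Real.rpow_one 2).symm
    _ ≤ 2 ^ a := Real.rpow_le_rpow_of_exponent_le (by norm_num) ha

/-- **the upper half of `final_of`** -/
theorem sumUp {m : ℕ → ℝ} {c1 C2 : ℝ} (hc1 : 0 < c1) (hC2 : 0 < C2)
    (hlow : ∀ k : ℕ, c1 * 2 ^ (4 / 3 * (k : ℝ)) ≤ m k) (hup : ∀ k : ℕ, m k ≤ C2 * 2 ^ (4 / 3 * (k : ℝ)))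
    (hU : UpU m) (hS : UpS m) : ∃ (C : ℝ) (N0 : ℕ), 0 ≤ C ∧ ∀ N : ℕ, N0 ≤ N →
      gf (POLP.PCy N) ≤ ENNReal.ofReal (C * (N : ℝ) ^ (-(3 / 2) : ℝ)) ∧
      ∑' t : POLP.PCy N, wE (t : List Bool) * ENNReal.ofReal (POLP.RgC N t) ≤ ENNReal.ofReal C := by
  obtain ⟨CU, kU, hCU, hU⟩ := hU
  obtain ⟨A, kS, hA, hS⟩ := hS
  obtain ⟨D, hD⟩ : ∃ D, D = max A CU := ⟨_, rfl⟩
  have hDA : A ≤ D := by rw [hD]; exact le_max_left _ _
  have hDC : CU ≤ D := by rw [hD]; exact le_max_right _ _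
  have hD0 : 0 ≤ D := hA.trans hDA
  obtain ⟨r, hr⟩ : ∃ r : ℝ, r = 2 ^ (4 / 3 : ℝ) := ⟨_, rfl⟩
  have hr2 : 2 ≤ r := by rw [hr]; exact two_rpow_ge (by norm_num)
  obtain ⟨T, hT⟩ : ∃ T : ℝ, T = 2 * C2 * r := ⟨_, rfl⟩
  have hT0 : 0 < T := by rw [hT]; positivity
  obtain ⟨N1, hN1⟩ := exists_nat_ge (C2 * 2 ^ (4 / 3 * ((kU + kS + 1 : ℕ) : ℝ)) + 2)
  refine ⟨max (2 * D / c1 * T ^ (5 / 2 : ℝ)) (100 * D / c1 * T), N1 + 2, le_max_of_le_right (by positivity), ?_⟩
  intro N hN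
  have hN2 : (2 : ℝ) ≤ N := by exact_mod_cast (by omega : 2 ≤ N)
  have hN0 : (0 : ℝ) < N := by linarith
  have hNN1 : (N1 : ℝ) ≤ N := by exact_mod_cast (by omega : N1 ≤ N)
  -- the scale
  have hex : ∃ k : ℕ, (N : ℝ) < C2 * 2 ^ (4 / 3 * (k : ℝ)) + 1 := by
    obtain ⟨k, hk⟩ := pow_unbounded_of_one_lt ((N : ℝ) / C2) (one_lt_two (α := ℝ))
    refine ⟨k, ?_⟩
    rw [div_lt_iff₀ hC2] at hk
    have h1 : (2 : ℝ) ^ k ≤ 2 ^ (4 / 3 * (k : ℝ)) := by
      rw [← Real.rpow_natCast]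
      apply Real.rpow_le_rpow_of_exponent_le (by norm_num)
      have : (0 : ℝ) ≤ k := Nat.cast_nonneg _
      linarith
    nlinarith
  classical
  obtain ⟨k', hk'⟩ : ∃ k', k' = Nat.find hex := ⟨_, rfl⟩
  have hk1 : (N : ℝ) < C2 * 2 ^ (4 / 3 * (k' : ℝ)) + 1 := by rw [hk']; exact Nat.find_spec hex
  have hk2 : ∀ k, k < k' → C2 * 2 ^ (4 / 3 * (k : ℝ)) + 1 ≤ (N : ℝ) := by
    intro k hk
    rw [hk'] at hk
    have := Nat.find_min hex hk
    rwa [not_lt] at this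
  have hk3 : kU + kS + 1 < k' := by
    by_contra hc
    rw [not_lt] at hc
    have h1 : (2 : ℝ) ^ (4 / 3 * (k' : ℝ)) ≤ 2 ^ (4 / 3 * ((kU + kS + 1 : ℕ) : ℝ)) := by
      apply Real.rpow_le_rpow_of_exponent_le (by norm_num)
      have : (k' : ℝ) ≤ ((kU + kS + 1 : ℕ) : ℝ) := by exact_mod_cast hc
      linarith
    have h2 := mul_le_mul_of_nonneg_left h1 hC2.le
    linarith
  obtain ⟨k, rfl⟩ : ∃ k, k' = k + 1 := ⟨k' - 1, by omega⟩
  have hkN := hk2 k (by omega)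
  obtain ⟨X, hX⟩ : ∃ X : ℝ, X = 2 ^ (4 / 3 * (k : ℝ)) := ⟨_, rfl⟩
  have hX0 : 0 < X := by rw [hX]; positivity
  rw [← hX] at hkN
  have hXr : (2 : ℝ) ^ (4 / 3 * ((k + 1 : ℕ) : ℝ)) = X * r := by
    rw [hX, hr, ← Real.rpow_add (by norm_num)]
    congr 1
    push_cast
    ring
  rw [hXr] at hk1
  have hNX : (N : ℝ) ≤ T * X := by
    rw [hT]
    nlinarith
  obtain ⟨P, hP⟩ : ∃ P : ℝ, P = 2 ^ (10 / 3 * (k : ℝ)) := ⟨_, rfl⟩
  have hP0 : 0 < P := by rw [hP]; positivity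
  have hPX : P = X ^ (5 / 2 : ℝ) := by
    rw [hP, hX, ← Real.rpow_mul (by norm_num)]
    congr 1
    ring
  have h4X : X * 4 ^ k = P := by
    rw [hX, hP, show (4 : ℝ) ^ k = 2 ^ (2 * (k : ℝ)) by
      rw [Real.rpow_mul (by norm_num), Real.rpow_natCast]
      norm_num, ← Real.rpow_add (by norm_num)]
    congr 1
    ring
  obtain ⟨q, hq⟩ : ∃ q : ℝ, q = (2 ^ (10 / 3 : ℝ))⁻¹ := ⟨_, rfl⟩
  have hq0 : 0 < q := by rw [hq]; positivity
  have hq4 : 4 * q ≤ 1 / 2 := by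
    have e : (2 : ℝ) ^ (10 / 3 : ℝ) = 4 * 2 ^ (4 / 3 : ℝ) := by
      rw [show (4 : ℝ) = 2 ^ (2 : ℝ) by norm_num, ← Real.rpow_add (by norm_num)]
      congr 1
      norm_num
    rw [hq, e, ← hr, mul_inv]
    rw [← mul_assoc, mul_inv_cancel₀ (by norm_num), one_mul, ← one_div]
    exact one_div_le_one_div_of_le (by norm_num) hr2
  -- the weights of the layers
  have hw : ∀ i : ℕ, D * (N : ℝ) / w4 m (k + i) ≤ D * (N : ℝ) / (c1 * P) * q ^ i := by
    intro i
    have h1 := hlow (k + i)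
    have e1 : c1 * P * (2 ^ (10 / 3 : ℝ)) ^ i = c1 * 2 ^ (4 / 3 * ((k + i : ℕ) : ℝ)) * 4 ^ (k + i) := by
      rw [hP, show (4 : ℝ) ^ (k + i) = 2 ^ (2 * ((k + i : ℕ) : ℝ)) by
        rw [Real.rpow_mul (by norm_num), Real.rpow_natCast]
        norm_num, mul_assoc c1, mul_assoc c1, ← Real.rpow_add (by norm_num), ← Real.rpow_natCast (2 ^ (10 / 3 : ℝ)) i,
        ← Real.rpow_mul (by norm_num), ← Real.rpow_add (by norm_num)]
      congr 2
      push_cast
      ring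
    have h2 : c1 * P * (2 ^ (10 / 3 : ℝ)) ^ i ≤ w4 m (k + i) := by
      rw [e1]
      unfold w4
      exact mul_le_mul_of_nonneg_right h1 (by positivity)
    calc D * (N : ℝ) / w4 m (k + i) ≤ D * (N : ℝ) / (c1 * P * (2 ^ (10 / 3 : ℝ)) ^ i) :=
          div_le_div_of_nonneg_left (by positivity) (by positivity) h2
      _ = D * (N : ℝ) / (c1 * P) * q ^ i := by
          rw [hq, inv_pow]
          field_simp
  obtain ⟨E, hE⟩ : ∃ E : ℕ → Set (List Bool), E = fun i => Nat.casesOn i (WC N k) fun j => WC N (k + j + 1) \ WC N (k + j) :=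
    ⟨_, rfl⟩
  have hE0 : E 0 = WC N k := by subst hE; rfl
  have hE1 : ∀ j, E (j + 1) = WC N (k + j + 1) \ WC N (k + j) := fun j => by subst hE; rfl
  have hgE : ∀ i, gf (E i) ≤ ENNReal.ofReal (D * (N : ℝ) / (c1 * P) * q ^ i) := by
    intro i
    refine le_trans ?_ (ENNReal.ofReal_le_ofReal (hw i))
    have hm0 : ∀ K, 0 < w4 m K := fun K => by
      unfold w4
      exact mul_pos (lt_of_lt_of_le (by positivity) (hlow K)) (by positivity)
    rcases i with _ | j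
    · rw [hE0, add_zero]
      refine (hS N k (by omega) ?_).trans (ENNReal.ofReal_le_ofReal ?_)
      · have := hup k
        rw [← hX] at this
        linarith
      · have := hm0 k
        gcongr
    · rw [hE1]
      refine (hU N (k + j) (by omega) (by omega)).trans (ENNReal.ofReal_le_ofReal ?_)
      have := hm0 (k + (j + 1))
      rw [← add_assoc] at this ⊢
      gcongr
  have hcov : POLP.PCy N ⊆ ⋃ i, E i := by
    intro t ht
    rcases Cy_cover N k ht with h | h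
    · exact Set.mem_iUnion.2 ⟨0, by rw [hE0]; exact h⟩
    · obtain ⟨j, hj⟩ := Set.mem_iUnion.1 h
      exact Set.mem_iUnion.2 ⟨j + 1, by rw [hE1]; exact hj⟩
  have hq12 : q ≤ 1 / 2 := by linarith
  have hB0 : 0 ≤ D * (N : ℝ) / (c1 * P) := by positivity
  constructor
  · -- the count
    have h1 : gf (POLP.PCy N) ≤ ∑' i, gf (E i) := by
      refine (gf_mono hcov).trans ?_
      unfold gf
      exact ENNReal.tsum_iUnion_le_tsum _ _
    refine h1.trans ((ENNReal.tsum_le_tsum hgE).trans ((geo_sum hq0.le hq12 _ hB0).trans (ENNReal.ofReal_le_ofReal ?_)))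
    have h2 : (N : ℝ) ^ (5 / 2 : ℝ) ≤ T ^ (5 / 2 : ℝ) * P := by
      rw [hPX, ← Real.mul_rpow hT0.le hX0.le]
      exact Real.rpow_le_rpow hN0.le hNX (by norm_num)
    have h3 : (N : ℝ) = (N : ℝ) ^ (5 / 2 : ℝ) * (N : ℝ) ^ (-(3 / 2) : ℝ) := by
      rw [← Real.rpow_add hN0]
      norm_num
    calc 2 * (D * (N : ℝ) / (c1 * P)) = 2 * D / c1 * ((N : ℝ) / P) := by field_simp
      _ ≤ 2 * D / c1 * (T ^ (5 / 2 : ℝ) * (N : ℝ) ^ (-(3 / 2) : ℝ)) := by
          refine mul_le_mul_of_nonneg_left ?_ (by positivity)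
          rw [div_le_iff₀ hP0]
          calc (N : ℝ) = (N : ℝ) ^ (5 / 2 : ℝ) * (N : ℝ) ^ (-(3 / 2) : ℝ) := h3
            _ ≤ T ^ (5 / 2 : ℝ) * P * (N : ℝ) ^ (-(3 / 2) : ℝ) := by gcongr
            _ = _ := by ring
      _ = 2 * D / c1 * T ^ (5 / 2 : ℝ) * (N : ℝ) ^ (-(3 / 2) : ℝ) := by ring
      _ ≤ _ := by
          gcongr
          exact le_max_left _ _
  · -- the radius of gyration
    have h1 := POLP.layers_of (N := N) (by omega) hcov (B := 100 * 4 ^ k) (by positivity) (by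
      intro i t ht a b ha hb
      have h2 := ht.2
      rcases i with _ | j
      · rw [hE0] at h2
        have := WC_nrm h2 a b ha hb
        rw [pow_zero, mul_one]
        exact this
      · rw [hE1] at h2
        have := WC_nrm h2.1 a b ha hb
        refine this.trans (le_of_eq ?_)
        rw [show k + j + 1 = k + (j + 1) by ring, pow_add]
        ring)
    refine h1.trans ?_
    have h2 : ∑' K : ℕ, (4 : ℝ≥0∞) ^ K * gf (POLP.PCy N ∩ E K) ≤ ENNReal.ofReal (2 * (D * (N : ℝ) / (c1 * P))) := by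
      refine le_trans (ENNReal.tsum_le_tsum fun K => ?_) (geo_sum (q := 4 * q) (by positivity) hq4 _ hB0)
      have h4 : (4 : ℝ≥0∞) ^ K = ENNReal.ofReal (4 ^ K) := by
        rw [ENNReal.ofReal_pow (by norm_num)]
        norm_num
      rw [h4]
      calc ENNReal.ofReal (4 ^ K) * gf (POLP.PCy N ∩ E K)
          ≤ ENNReal.ofReal (4 ^ K) * ENNReal.ofReal (D * (N : ℝ) / (c1 * P) * q ^ K) := by
            refine mul_le_mul_right ((gf_mono Set.inter_subset_right).trans (hgE K)) _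
        _ = ENNReal.ofReal (D * (N : ℝ) / (c1 * P) * (4 * q) ^ K) := by
            rw [← ENNReal.ofReal_mul (by positivity), mul_pow]
            congr 1
            ring
    refine (mul_le_mul_right h2 _).trans ?_
    rw [← ENNReal.ofReal_mul (by positivity)]
    apply ENNReal.ofReal_le_ofReal
    calc 100 * 4 ^ k / 2 * (2 * (D * (N : ℝ) / (c1 * P))) = 100 * D / c1 * ((N : ℝ) * 4 ^ k / P) := by
          field_simp
      _ ≤ 100 * D / c1 * T := by
          refine mul_le_mul_of_nonneg_left ?_ (by positivity)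
          rw [div_le_iff₀ hP0, ← h4X]
          have : (0 : ℝ) < 4 ^ k := by positivity
          nlinarith
      _ ≤ _ := le_max_right _ _

end POL

end HexObs
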