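import Pool.Agent.POL.L3Sum
import Pool.Agent.POL.L4
import Pool.Agent.POL.Num5
import Pool.Agent.POL.SumUp
import Pool.Agent.JNT.NarM
import Pool.Agent.VF.MeanZ
import Pool.Agent.VF.SharpZ

/-!
POL, row L5: **the lower half**: the number of the closed words with N letters (helper51).
-/

set_option autoImplicit false

namespace HexObs

namespace POL

open Finset TS SDN NTA JNT RP

open scoped ENNReal

/-- **the lower half with a property of the first part** -/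
theorem low_cls {P : ℝ → ℕ → List Bool → Prop} (hP : TDP (fun k => PW.mZ (2 ^ k)) P) :
    ∃ (κ c A : ℝ) (N0 : ℕ), 0 < κ ∧ 0 < c ∧ 0 < A ∧ ∀ N : ℕ, N0 ≤ N → Even N →
      ∃ k : ℕ, PW.mZ (2 ^ k) ≤ N ∧ (N : ℝ) ≤ A * PW.mZ (2 ^ k) ∧
        ENNReal.ofReal (c * (N : ℝ) ^ (-(3 / 2) : ℝ)) ≤ gf {t | t ∈ Cy N ∧ ∃ (c0 : ℕ) (Z' X D Y Z : List Bool),
          t.rotate c0 = Z' ++ (X ++ (D ++ (Y ++ Z))) ∧ Z' ∈ BU ∧ dx up X X.length = -up ∧ D ∈ BU ∧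
            dx up Y Y.length = -up ∧ Z ∈ BU ∧ P κ k Z' ∧ 1 / 2 * PW.mZ (2 ^ k) ≤ (Z.length : ℝ)} := by
  obtain ⟨η, L, C, hη, hL, hC, hup, harc⟩ := arcs_M
  obtain ⟨A, hA, hAm⟩ := mup_M
  obtain ⟨c1, hc1, hlow⟩ := VF.mLow VF.sharpZ
  obtain ⟨C1, hC1, hupm⟩ := VF.mUp VF.sharpZ
  obtain ⟨c3, hc3, hnum⟩ := num_low
  obtain ⟨σ, κ, j, s, k0, hσ, hκ, hj, hs, h3⟩ := l3P mlow_M tdW_M hP lowNar_M hη hL hC harc hA
  obtain ⟨c, hc, h4⟩ := l4G σ hσ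
  obtain ⟨N0, hN0⟩ := scale_ex hc1 hlow hAm k0
  refine ⟨κ, c * C ^ 2 * c3 * c1 ^ (5 / 2 : ℝ) / (4 ^ s * 2 ^ (4 / 3 * (s : ℝ)) * C1), A, N0, hκ, by positivity,
    by linarith, fun N hN hev => ?_⟩
  obtain ⟨k, hk, hk1, hk2⟩ := hN0 N hN
  refine ⟨k, hk1, hk2, ?_⟩
  obtain ⟨d, G, g1, g2⟩ := h3 k N hk (Nat.even_iff.1 hev) hk1 hk2
  refine (ENNReal.ofReal_le_ofReal (num5 hc1 hC1 hc3 hc hC hlow hupm U2_pos hnum j s k N hk1)).trans ?_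
  have hik : (2 : ℤ) ^ (k - j) ≤ 2 ^ k := pow_le_pow_right₀ (by norm_num) (Nat.sub_le k j)
  have hks : (2 : ℤ) ^ (k + 3) ≤ 2 ^ (k + s) := pow_le_pow_right₀ (by norm_num) (by omega)
  have hk8 : (2 : ℤ) ^ (k + 3) = 8 * 2 ^ k := by rw [pow_add]; ring
  have hpk : (1 : ℤ) ≤ 2 ^ k := one_le_pow₀ (by norm_num)
  refine (h4 (AT (fun k => PW.mZ (2 ^ k)) (k - j) d (η / 80) L) (C * (2 : ℝ) ^ (-(((k - j : ℕ) : ℝ) / 4))) (k + s) N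
    (3 * ((2 * 2 ^ (k - j) : ℕ) : ℤ) + 1) G (by positivity) (fun X hX => arkW (at_ark hX)) ?_ (hup _ _ _ (by omega))
    (fun Z' X D Y Z hG => (g1 Z' X D Y Z hG).1) g2).trans (gf_mono ?_)
  · push_cast
    linarith
  · rintro t ⟨h1, c0, Z', X, D, Y, Z, hG, h2⟩
    obtain ⟨⟨h5, -⟩, h6, h7⟩ := g1 Z' X D Y Z hG
    obtain ⟨⟨⟨a, -, ha⟩, -⟩, hX, ⟨hD, -⟩, hY, ⟨⟨b, -, hb⟩, -⟩⟩ := h5
    exact ⟨h1, c0, Z', X, D, Y, Z, h2, ⟨a, ha⟩, (at_ark hX).2.2.2, hD, (at_ark hY).2.2.2, ⟨b, hb⟩, h6, h7⟩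

/-- **the number of the closed words from below**, no hypothesis -/
theorem low_cy : ∃ (c : ℝ) (N0 : ℕ), 0 < c ∧ ∀ N : ℕ, N0 ≤ N → Even N →
    ENNReal.ofReal (c * (N : ℝ) ^ (-(3 / 2) : ℝ)) ≤ gf (POLP.PCy N) := by
  have hP : TDP (fun k => PW.mZ (2 ^ k)) (fun _ _ _ => True) := by
    intro H e v he hv
    obtain ⟨c, k0, hc, h⟩ := tdW_M H e v he hv
    exact ⟨c, 1, k0, hc, one_pos, fun k h' hk _ hH => (h k h' hk hH).trans (gf_mono fun D hD => ⟨hD, trivial⟩)⟩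
  obtain ⟨κ, c, A, N0, -, hc, -, h⟩ := low_cls hP
  refine ⟨c, N0, hc, fun N hN he => ?_⟩
  obtain ⟨k, -, -, h1⟩ := h N hN he
  rw [← Cy_eq]
  exact h1.trans (gf_mono fun t ht => ht.1)

end POL

end HexObs
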