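import Pool.Agent.NTW.FoldEx
import Pool.Agent.HexObs.Rot
import Pool.Agent.POL.Defs

/-!
# POL/Bot: a closed word seen from the bottom (helper5)

* `rot_vx` : the vertices of a rotation of a closed word;
* `fd_bot` : a word that starts at the bottom, ends at the bottom and goes high has a chain of folds from its start to its
  end, at every scale;
* **`bot_lin`** : every closed word has a rotation of this kind, in the direction in which it is largest.
-/

set_option autoImplicit false

namespace HexObs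

namespace POL

open Finset TS SDN NTW

/-! ### 1. The folds of a word that starts and ends at the bottom -/

/-- the word starts upwards, does not come to the bottom before the top, ends at the bottom (level -1) -/
structure BotW (w : List Bool) (H : ℤ) (τ : ℕ) : Prop where
  sa : w ∈ SA
  le : τ ≤ w.length
  top : H ≤ lev w τ
  nn : ∀ i, i ≤ τ → 0 ≤ lev w i
  hi : ∀ i, i ≤ w.length → lev w i ≤ lev w τ
  lo : ∀ i, i ≤ w.length → -1 ≤ lev w i
  last : lev w w.length = -1

lemma lev_one (w : List Bool) : lev w 1 = 2 := by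
  rw [show (1 : ℕ) = 0 + 1 from rfl, lev_succ, lev_zero]
  rfl

theorem fd_bot {w : List Bool} {H : ℤ} {τ : ℕ} (h : BotW w H τ) {b : ℕ} (hb : 1 ≤ b) (hR : RR b ≤ H) :
    ∃ m u e, Fd b w m u e ∧ u % 2 = 1 ∧ e 0 = 0 ∧ e m = w.length := by
  have hR4 := RR_ge hb
  have hlast := h.last
  have htop := h.top
  rcases fd_exists hb h.sa with h1 | ⟨m, u, e, h1⟩
  · have h2 := h1 τ w.length h.le le_rfl
    omega
  obtain ⟨hm, hF, hbig, hsm, hst, hfin⟩ := h1
  have hmono : ∀ j, j ≤ m → e j ≤ e m := by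
    have key : ∀ d j, j + d = m → e j ≤ e m := by
      intro d
      induction d with
      | zero => intro j hj; rw [Nat.add_zero] at hj; rw [hj]
      | succ d ih =>
        intro j hj
        exact (hF.lt j (by omega)).le.trans (ih (j + 1) (by omega))
    exact fun j hj => key (m - j) j (by omega)
  have hlt0 : e 0 < e 1 := hF.lt 0 hm
  have hb0 := hbig 0 hm
  simp only [Nat.add_zero, Nat.zero_add] at hb0
  have h0 := lev_zero w
  have he1 : e 1 ≤ w.length := (hmono 1 hm).trans hF.le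
  rcases Nat.even_or_odd u with hu | hu
  · exfalso
    rw [Tight.sg_even hu, Tight.sg_even hu] at hb0
    have h1 := hst (e 0) 0 le_rfl (Nat.zero_le _)
    have h2 : τ < e 1 := by
      by_contra hcon
      have := h.nn (e 1) (by omega)
      omega
    rcases Nat.lt_or_ge τ (e 0) with h3 | h3
    · have h4 := hF.beg τ h3
      rw [Tight.sg_even hu, Tight.sg_even hu] at h4
      omega
    · have h4 := hF.lo0 τ h3 h2.le
      rw [Tight.sg_even hu, Tight.sg_even hu] at h4
      omega
  have hu' : ¬ Even u := Nat.not_even_iff_odd.2 hu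
  refine ⟨m, u, e, ⟨hm, hF, hbig, hsm, hst, hfin⟩, Nat.odd_iff.1 hu, ?_, ?_⟩
  · by_contra hcon
    have h1 := hF.beg 0 (by omega)
    rw [Tight.sg_odd hu', Tight.sg_odd hu'] at h1
    have h2 : τ < e 0 := by
      by_contra hcon
      have := h.nn (e 0) (by omega)
      omega
    have h3 := hst τ 0 h2.le (Nat.zero_le _)
    omega
  · by_contra hcon
    have hem : e m < w.length := lt_of_le_of_ne hF.le hcon
    have h1 := hF.fin w.length hem le_rfl
    have h2 := hfin (e m) w.length le_rfl hF.le hF.le le_rfl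
    have h3 := hbig (m - 1) (by omega)
    rw [show m - 1 + 1 = m by omega] at h3
    have h4 := h.lo (e (m - 1)) ((hmono (m - 1) (by omega)).trans hF.le)
    have h5 := h.lo (e m) hF.le
    rcases Nat.even_or_odd (u + (m - 1)) with hv | hv
    · rw [Tight.sg_even hv, Tight.sg_even hv] at h1
      omega
    · rw [Tight.sg_odd (Nat.not_even_iff_odd.2 hv), Tight.sg_odd (Nat.not_even_iff_odd.2 hv)] at h3
      omega

/-! ### 2. Rotations of a closed word -/

/-- the letters of the periodic continuation -/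
def pt (s : List Bool) (i : ℕ) : Bool := tf s (i % s.length)

/-- the vertices of the periodic continuation -/
def pv (s : List Bool) (i : ℕ) : Pt := vs oo up (pt s) i

/-- the headings of the periodic continuation -/
def pd (s : List Bool) (i : ℕ) : Pt := ds up (pt s) i

lemma pt_eq {s : List Bool} {i : ℕ} (hi : i < s.length) : pt s i = tf s i := by
  unfold pt
  rw [Nat.mod_eq_of_lt hi]

lemma pt_per (s : List Bool) (i : ℕ) : pt s (s.length + i) = pt s i := by
  unfold pt
  rw [Nat.add_mod_left]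

lemma pv_eq {s : List Bool} {i : ℕ} (hi : i ≤ s.length + 1) : pv s i = vx oo up s i :=
  vs_congr i fun k hk => pt_eq (by omega)

lemma pd_eq {s : List Bool} {i : ℕ} (hi : i ≤ s.length) : pd s i = dx up s i :=
  ds_congr i fun k hk => pt_eq (by omega)

lemma pd_mem (s : List Bool) (i : ℕ) : pd s i ∈ dirs := ds_mem upd i

lemma pv_succ (s : List Bool) (i : ℕ) : pv s (i + 1) = pv s i + pd s i := rfl

lemma pd_succ (s : List Bool) (i : ℕ) : pd s (i + 1) = turn (pt s i) (pd s i) := rfl

lemma cl_pd (s : List Bool) (i : ℕ) : cl (pd s i) = if Even i then cl up else - cl up := cl_ds i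

/-- the word closes -/
def Clo (s : List Bool) : Prop := vx oo up s s.length = oo ∧ dx up s s.length = up

lemma pv_per {s : List Bool} (h : Clo s) (i : ℕ) : pv s (s.length + i) = pv s i := by
  obtain ⟨h1, h2⟩ := h
  unfold pv
  rw [vs_shift]
  rw [← pv_eq (by omega)] at h1
  rw [← pd_eq le_rfl] at h2
  unfold pv at h1
  unfold pd at h2
  rw [h1, h2]
  exact vs_congr i fun k _ => pt_per s k

lemma pd_per {s : List Bool} (h : Clo s) (i : ℕ) : pd s (s.length + i) = pd s i := by
  obtain ⟨-, h2⟩ := h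
  unfold pd
  rw [ds_shift]
  rw [← pd_eq le_rfl] at h2
  unfold pd at h2
  rw [h2]
  exact ds_congr i fun k _ => pt_per s k

lemma pv_mul {s : List Bool} (h : Clo s) (q i : ℕ) : pv s (s.length * q + i) = pv s i := by
  induction q with
  | zero => rw [Nat.mul_zero, Nat.zero_add]
  | succ q ih => rw [show s.length * (q + 1) + i = s.length + (s.length * q + i) by ring, pv_per h, ih]

lemma pv_mod {s : List Bool} (h : Clo s) (i : ℕ) : pv s i = pv s (i % s.length) := by
  conv_lhs => rw [← Nat.div_add_mod i s.length]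
  rw [pv_mul h]

lemma tf_rotate {s : List Bool} {a k : ℕ} (hk : k < s.length) : tf (s.rotate a) k = pt s (a + k) := by
  unfold tf pt
  have h1 : k < (s.rotate a).length := by rwa [List.length_rotate]
  rw [List.getD_eq_getElem _ _ h1, List.getElem_rotate, Nat.add_comm k a]
  unfold tf
  rw [List.getD_eq_getElem _ _ (Nat.mod_lt _ (by omega))]

lemma rotTo_pd (s : List Bool) (a : ℕ) : mulE (rotTo (pd s a) up) (pd s a) = up := rotTo_apply up (pd_mem s a)

lemma nrm_rotTo_pd (s : List Bool) (a : ℕ) : nrm (rotTo (pd s a) up) = 1 := nrm_rotTo (pd_mem s a) upd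

/-- **the vertices of a rotation** -/
theorem rot_vx {s : List Bool} {a i : ℕ} (hi : i ≤ s.length + 1) :
    vx oo up (s.rotate a) i = mulE (rotTo (pd s a) up) (pv s (a + i) - pv s a) := by
  have h1 : vx oo up (s.rotate a) i = vs oo up (fun k => pt s (a + k)) i :=
    vs_congr i fun k hk => tf_rotate (by omega)
  have h2 := vs_mulE (rotTo (pd s a) up) (pv s a) oo (pd s a) (fun k => pt s (a + k)) i
  rw [rotTo_pd] at h2
  rw [h1, h2]
  unfold pv
  rw [vs_shift]
  show (0 : Pt) + _ = _
  rw [zero_add]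
  rfl

theorem rot_dx {s : List Bool} {a i : ℕ} (hi : i ≤ s.length) :
    dx up (s.rotate a) i = mulE (rotTo (pd s a) up) (pd s (a + i)) := by
  have h1 : dx up (s.rotate a) i = ds up (fun k => pt s (a + k)) i :=
    ds_congr i fun k hk => tf_rotate (by omega)
  have h2 := ds_mulE (rotTo (pd s a) up) (pd s a) (fun k => pt s (a + k)) i
  rw [rotTo_pd] at h2
  rw [h1, h2]
  unfold pd
  rw [ds_shift]

theorem rot_lev {s : List Bool} {a i : ℕ} (hi : i ≤ s.length + 1) :
    lev (s.rotate a) i = ip (pv s (a + i)) (pd s a) - ip (pv s a) (pd s a) := by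
  have h1 : ip (mulE (rotTo (pd s a) up) (pv s (a + i) - pv s a)) (mulE (rotTo (pd s a) up) (pd s a)) =
      ip (pv s (a + i)) (pd s a) - ip (pv s a) (pd s a) := by
    rw [ip_mulE, nrm_rotTo_pd, one_mul, ip_sub_left]
  rw [rotTo_pd] at h1
  unfold lev
  rw [rot_vx hi, h1]

variable {N : ℕ} {s : List Bool}

lemma Cy.clo (h : s ∈ Cy N) : Clo s := by
  obtain ⟨h1, h2, h3, -⟩ := h
  subst h1
  exact ⟨h2, h3⟩

lemma Cy.pv_inj (h : s ∈ Cy N) (hN : 0 < N) {i j : ℕ} (hij : pv s i = pv s j) : i % N = j % N := by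
  have hc := Cy.clo h
  obtain ⟨h1, h2, h3, h4⟩ := h
  subst h1
  have h0 := hN
  rw [pv_mod hc i, pv_mod hc j, pv_eq (by have := Nat.mod_lt i h0; omega), pv_eq (by have := Nat.mod_lt j h0; omega)] at hij
  exact h4 _ _ (Nat.mod_lt i h0) (Nat.mod_lt j h0) hij

/-- rotations of closed words -/
theorem Cy.rot (h : s ∈ Cy N) (a : ℕ) : s.rotate a ∈ Cy N := by
  have hc := Cy.clo h
  rcases Nat.eq_zero_or_pos N with h0 | h0
  · obtain ⟨h1, -⟩ := id h
    rw [h0, List.length_eq_zero_iff] at h1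
    rw [h1, List.rotate_nil, ← h1]
    exact h
  have hinj := @Cy.pv_inj N s h h0
  obtain ⟨h1, h2, h3, h4⟩ := h
  subst h1
  have hp : pv s (a + s.length) = pv s a := by rw [Nat.add_comm, pv_per hc]
  have hd : pd s (a + s.length) = pd s a := by rw [Nat.add_comm, pd_per hc]
  refine ⟨List.length_rotate s a, ?_, ?_, ?_⟩
  · rw [rot_vx (by omega), hp, sub_self]
    simp [mulE, oo]
  · rw [rot_dx le_rfl, hd, rotTo_pd]
  · intro i j hi hj hij
    rw [rot_vx (by omega), rot_vx (by omega)] at hij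
    have h5 := hinj (sub_left_injective (mulE_inj (nrm_rotTo_pd s a) hij))
    have h6 : i ≡ j [MOD s.length] := Nat.ModEq.add_left_cancel' a h5
    unfold Nat.ModEq at h6
    rwa [Nat.mod_eq_of_lt hi, Nat.mod_eq_of_lt hj] at h6

/-! ### 3. The bottom in a direction -/

lemma dir_even : ∀ d ∈ dirs, ∀ x ∈ dirs, cl x = cl d → (ip x d = 2 ∧ x = d) ∨ ip x d = -1 := by
  decide

lemma dir_odd : ∀ d ∈ dirs, ∀ x ∈ dirs, cl x = - cl d → (ip x d = -2 ∧ x = -d) ∨ ip x d = 1 := by
  decide

lemma turn_ne : ∀ d ∈ dirs, ∀ b : Bool, turn b (-d) ≠ d := by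
  decide

/-- **the rotation at the last bottom before the top** -/
theorem bot_rot (hs : s ∈ Cy N) (hN : 0 < N) {d : Pt} (hd : d ∈ dirs) (hcl : cl d = cl up) {H : ℤ} (hH : 1 ≤ H)
    (hbig : ∃ i j, H + 1 ≤ ip (pv s i) d - ip (pv s j) d) :
    ∃ a w c τ, s.rotate a = w ++ [c] ∧ BotW w H τ := by
  have hc := Cy.clo hs
  have hlen := hs.1
  obtain ⟨h, hh⟩ : ∃ h : ℕ → ℤ, h = fun i => ip (pv s i) d := ⟨_, rfl⟩
  have hp : ∀ i, h (N + i) = h i := by
    intro i
    rw [hh]
    simp only
    rw [← hlen, pv_per hc]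
  have hmod : ∀ i, h i = h (i % N) := by
    intro i
    rw [hh]
    simp only
    rw [pv_mod hc i, hlen]
  have hstep : ∀ i, h (i + 1) = h i + ip (pd s i) d := by
    intro i
    rw [hh]
    simp only
    rw [pv_succ, ip_add_left]
  -- the top and the bottom value
  obtain ⟨i0, hi0, htop0⟩ := (range N).exists_max_image h ⟨0, mem_range.2 hN⟩
  obtain ⟨i1, hi1, hbot0⟩ := (range N).exists_min_image h ⟨0, mem_range.2 hN⟩
  have htop : ∀ i, h i ≤ h i0 := fun i => by rw [hmod i]; exact htop0 _ (mem_range.2 (Nat.mod_lt _ hN))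
  have hbot : ∀ i, h i1 ≤ h i := fun i => by rw [hmod i]; exact hbot0 _ (mem_range.2 (Nat.mod_lt _ hN))
  rw [mem_range] at hi0 hi1
  have hrg : H + 1 ≤ h i0 - h i1 := by
    obtain ⟨i, j, hij⟩ := hbig
    have h1 := htop i
    have h2 := hbot j
    have h3 : H + 1 ≤ h i - h j := by rw [hh]; exact hij
    omega
  -- the last bottom in the window
  obtain ⟨F, hF⟩ : ∃ F : Finset ℕ, F = (Ico i0 (i0 + N)).filter fun i => h i = h i1 := ⟨_, rfl⟩
  have hFne : F.Nonempty := by
    rcases Nat.lt_or_ge i1 i0 with h1 | h1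
    · refine ⟨N + i1, ?_⟩
      rw [hF, mem_filter, mem_Ico]
      exact ⟨⟨by omega, by omega⟩, hp i1⟩
    · refine ⟨i1, ?_⟩
      rw [hF, mem_filter, mem_Ico]
      exact ⟨⟨h1, by omega⟩, rfl⟩
  obtain ⟨j, hjF, hjmax⟩ := F.exists_max_image id hFne
  rw [hF, mem_filter, mem_Ico] at hjF
  obtain ⟨⟨hj1, hj2⟩, hj3⟩ := hjF
  have hafter : ∀ i, j < i → i ≤ i0 + N → h i1 + 1 ≤ h i := by
    intro i h1 h2
    have h3 := hbot i
    rcases Nat.lt_or_ge i (i0 + N) with h4 | h4
    · by_contra hcon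
      have h5 : i ∈ F := by
        rw [hF, mem_filter, mem_Ico]
        exact ⟨⟨by omega, h4⟩, by omega⟩
      have := hjmax i h5
      simp only [id] at this
      omega
    · have h5 : i = N + i0 := by omega
      rw [h5, hp]
      omega
  have hj0 : j ≠ i0 := by
    intro h1
    rw [h1] at hj3
    omega
  have hpd := pd_mem s
  -- j is odd
  have hjodd : ¬ Even j := by
    intro hev
    have h1 : cl (pd s j) = cl d := by rw [cl_pd, if_pos hev, hcl]
    have h2 := hstep j
    have h3 := hbot (j + 1)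
    rcases dir_even d hd _ (hpd j) h1 with ⟨-, h4⟩ | h4
    · obtain ⟨j', hj'⟩ : ∃ j', j = j' + 1 := ⟨j - 1, by omega⟩
      have hodd : ¬ Even j' := by
        rw [hj', Nat.even_add_one] at hev
        exact hev
      have h5 : cl (pd s j') = - cl d := by rw [cl_pd, if_neg hodd, hcl]
      have h6 := hstep j'
      have h7 := hbot j'
      rw [← hj'] at h6
      rcases dir_odd d hd _ (hpd j') h5 with ⟨-, h8⟩ | h8
      · refine turn_ne d hd (pt s j') ?_
        rw [← h8, ← pd_succ, ← hj', h4]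
      · omega
    · omega
  have h1 : cl (pd s j) = - cl d := by rw [cl_pd, if_neg hjodd, hcl]
  have h2 := hstep j
  have h3 := hbot (j + 1)
  have h4 : h (j + 1) = h i1 + 1 := by
    rcases dir_odd d hd _ (hpd j) h1 with ⟨h5, -⟩ | h5 <;> omega
  have h5 : j + 1 < i0 + N := by
    by_contra hcon
    have h6 : j + 1 = N + i0 := by omega
    rw [h6, hp] at h4
    omega
  have hda : pd s (j + 1) = d := by
    have h6 : cl (pd s (j + 1)) = cl d := by rw [cl_pd, if_pos (Nat.even_add_one.2 hjodd), hcl]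
    have h7 := hstep (j + 1)
    have h8 := hafter (j + 1 + 1) (by omega) (by omega)
    rcases dir_even d hd _ (hpd (j + 1)) h6 with ⟨-, h9⟩ | h9
    · exact h9
    · omega
  have hrot := Cy.rot hs (j + 1)
  have hrl : (s.rotate (j + 1)).length = N := by rw [List.length_rotate, hlen]
  have hne : s.rotate (j + 1) ≠ [] := by
    intro h6
    rw [h6, List.length_nil] at hrl
    omega
  have hwc := List.dropLast_append_getLast hne
  obtain ⟨w, hw⟩ : ∃ w, w = (s.rotate (j + 1)).dropLast := ⟨_, rfl⟩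
  rw [← hw] at hwc
  have hwl : w.length + 1 = N := by
    rw [hw, List.length_dropLast, hrl]
    omega
  have hlev : ∀ i, i ≤ N → lev w i = h (j + 1 + i) - h (j + 1) := by
    intro i hi
    rw [← lev_append (s := w) (t := [(s.rotate (j + 1)).getLast hne]) (by omega), hwc, rot_lev (by omega), hda, hh]
  refine ⟨j + 1, w, _, i0 + N - (j + 1), hwc.symm, ?_, by omega, ?_, ?_, ?_, ?_, ?_⟩
  · refine ⟨fun i _ _ => Set.mem_univ _, fun i k hik hk heq => ?_⟩
    rw [← vx_append (s := [(s.rotate (j + 1)).getLast hne]) (t := w) (by omega),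
      ← vx_append (s := [(s.rotate (j + 1)).getLast hne]) (t := w) (by omega), hwc] at heq
    have := hrot.2.2.2 i k (by omega) (by omega) heq
    omega
  · rw [hlev _ (by omega), h4, show j + 1 + (i0 + N - (j + 1)) = N + i0 by omega, hp]
    omega
  · intro i hi
    rw [hlev _ (by omega), h4]
    have := hafter (j + 1 + i) (by omega) (by omega)
    omega
  · intro i hi
    rw [hlev _ (by omega), hlev _ (by omega), show j + 1 + (i0 + N - (j + 1)) = N + i0 by omega, hp]
    have := htop (j + 1 + i)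
    omega
  · intro i hi
    rw [hlev _ (by omega), h4]
    have := hbot (j + 1 + i)
    omega
  · rw [hlev _ (by omega), h4, show j + 1 + w.length = N + j by omega, hp]
    omega

/-- the box of radius 2 ^ K -/
def InB (K : ℕ) (s : List Bool) : Prop := ∀ i, i ≤ s.length → ∀ dir, |row dir (vx oo up s i)| ≤ 2 ^ K

/-- **linearization at the bottom** -/
theorem bot_lin {K K' : ℕ} {t : List Bool} (ht : t ∈ Cy N) (hN : 0 < N) (hbox : ∀ X Y, t = X ++ Y → InB K (Y ++ X))
    (hbig : ∃ X Y, t = X ++ Y ∧ ¬ InB K' (Y ++ X)) :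
    ∃ X Y w c τ, t = X ++ Y ∧ Y ++ X = w ++ [c] ∧ w ∈ WL K ∧ BotW w (3 * 2 ^ K') τ ∧
      ∀ b : ℕ, 1 ≤ b → RR b ≤ 3 * 2 ^ K' → ∃ m u e, Fd b w m u e ∧ u % 2 = 1 ∧ e 0 = 0 ∧ e m = w.length := by
  obtain ⟨X0, Y0, h1, h2⟩ := hbig
  have hs : Y0 ++ X0 ∈ Cy N := by
    have h3 := Cy.rot ht X0.length
    rwa [h1, List.rotate_append_length_eq] at h3
  unfold InB at h2
  push Not at h2
  obtain ⟨i, hi, dir, h3⟩ := h2
  have hdd : hd dir ∈ dirs := by
    cases dir <;> decide
  have hcl : cl (hd dir) = cl up := by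
    cases dir <;> decide
  have e1 : row dir (vx oo up (Y0 ++ X0) i) = ip (pv (Y0 ++ X0) i) (hd dir) / 3 := by
    unfold row lvl
    rw [pv_eq (by omega)]
  have e0 : ip (pv (Y0 ++ X0) 0) (hd dir) = 0 := by
    show ip oo (hd dir) = 0
    cases dir <;> decide
  rw [e1] at h3
  have hK : (1 : ℤ) ≤ 2 ^ K' := one_le_pow₀ (by norm_num)
  have hbg : ∃ i j, 3 * (2 : ℤ) ^ K' + 1 ≤ ip (pv (Y0 ++ X0) i) (hd dir) - ip (pv (Y0 ++ X0) j) (hd dir) := by
    rcases lt_abs.1 h3 with h4 | h4
    · exact ⟨i, 0, by rw [e0]; omega⟩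
    · exact ⟨0, i, by rw [e0]; omega⟩
  obtain ⟨a, w, c, τ, h4, h5⟩ := bot_rot hs hN hdd hcl (H := 3 * 2 ^ K') (by omega) hbg
  obtain ⟨n, hn⟩ : ∃ n, n = (X0.length + a) % t.length := ⟨_, rfl⟩
  have hlen := ht.1
  have hnl : n < t.length := by
    rw [hn]
    exact Nat.mod_lt _ (by omega)
  have h6 : (Y0 ++ X0).rotate a = t.drop n ++ t.take n := by
    rw [← List.rotate_append_length_eq X0 Y0, List.rotate_rotate, ← h1, hn,
      ← List.rotate_eq_drop_append_take_mod]
  rw [h6] at h4
  refine ⟨t.take n, t.drop n, w, c, τ, (List.take_append_drop n t).symm, h4, ⟨h5.sa, ?_⟩, h5,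
    fun b hb hR => fd_bot h5 hb hR⟩
  have h7 := hbox (t.take n) (t.drop n) (List.take_append_drop n t).symm
  rw [h4] at h7
  intro i hi dir
  have h8 := h7 i (by rw [List.length_append]; omega) dir
  rwa [vx_append (by omega)] at h8

/-- **linearization at the bottom, for the class WC** -/
theorem bot_wc {K K' : ℕ} {t : List Bool} (ht : t ∈ WC N K) (hN : 0 < N) (hbig : t ∉ WC N K') :
    ∃ X Y w c τ, t = X ++ Y ∧ Y ++ X = w ++ [c] ∧ w ∈ WL K ∧ BotW w (3 * 2 ^ K') τ ∧
      ∀ b : ℕ, 1 ≤ b → RR b ≤ 3 * 2 ^ K' → ∃ m u e, Fd b w m u e ∧ u % 2 = 1 ∧ e 0 = 0 ∧ e m = w.length := by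
  obtain ⟨h1, h2⟩ := ht
  have hl : ∀ X Y : List Bool, t = X ++ Y → (Y ++ X).length = N := by
    intro X Y h3
    rw [← h1.1, h3, List.length_append, List.length_append, Nat.add_comm]
  refine bot_lin h1 hN (fun X Y h3 i hi dir => h2 X Y h3 i (by rwa [hl X Y h3] at hi) dir) ?_
  by_contra hcon
  push Not at hcon
  exact hbig ⟨h1, fun X Y h3 i hi dir => hcon X Y h3 i (by rwa [hl X Y h3]) dir⟩

end POL

end HexObs
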