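import Pool.Agent.POL.PubF
import Pool.Agent.POL.Bot

/-!
POL: the radius of gyration of a rotation of a closed word (helper59).
-/

set_option autoImplicit false

namespace HexObs

namespace POL

open Finset POLP

/-- the sum over one period -/
lemma sum_per {N : ℕ} {f : ℕ → ℝ} (hf : ∀ i, f (N + i) = f i) (a : ℕ) : ∑ i ∈ range N, f (a + i) = ∑ i ∈ range N, f i := by
  induction a with
  | zero => simp
  | succ a ih =>
    have h1 := Finset.sum_range_succ (fun i => f (a + i)) N
    have h2 := Finset.sum_range_succ' (fun i => f (a + i)) N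
    rw [h1] at h2
    have h3 : f (a + N) = f (a + 0) := by rw [add_comm, hf, add_zero]
    rw [h3] at h2
    rw [← ih]
    have h4 : ∑ i ∈ range N, f (a + 1 + i) = ∑ i ∈ range N, f (a + (i + 1)) :=
      Finset.sum_congr rfl fun i _ => by rw [show a + 1 + i = a + (i + 1) by ring]
    rw [h4]
    linarith

/-- **the radius of gyration of a rotation** -/
theorem rgC_rot {N : ℕ} {t : List Bool} (ht : t ∈ Cy N) (a : ℕ) : RgC N (t.rotate a) = RgC N t := by
  have hc := Cy.clo ht
  have hlen := ht.1
  unfold RgC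
  congr 1
  obtain ⟨g, hg⟩ : ∃ g : ℕ → ℕ → ℝ, g = fun i j => ((nrm (pv t i - pv t j) : ℤ) : ℝ) := ⟨_, rfl⟩
  have hp : ∀ i, pv t (N + i) = pv t i := fun i => by rw [← hlen, pv_per hc]
  have h1 : ∀ i ∈ range N, ∀ j ∈ range N, ((nrm (vx oo up (t.rotate a) i - vx oo up (t.rotate a) j) : ℤ) : ℝ) =
      g (a + i) (a + j) := by
    intro i hi j hj
    rw [Finset.mem_range] at hi hj
    rw [rot_vx (by omega), rot_vx (by omega), hg]
    simp only
    have h2 : mulE (rotTo (pd t a) up) (pv t (a + i) - pv t a) - mulE (rotTo (pd t a) up) (pv t (a + j) - pv t a) =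
        mulE (rotTo (pd t a) up) (pv t (a + i) - pv t (a + j)) := by
      simp only [mulE, Prod.fst_sub, Prod.snd_sub, Prod.mk_sub_mk]
      ext <;> simp <;> ring
    rw [h2, nrm_mulE, nrm_rotTo_pd, one_mul]
  have h2 : ∀ i ∈ range N, ∀ j ∈ range N, ((nrm (vx oo up t i - vx oo up t j) : ℤ) : ℝ) = g i j := by
    intro i hi j hj
    rw [Finset.mem_range] at hi hj
    rw [hg]
    simp only
    rw [pv_eq (by omega), pv_eq (by omega)]
  rw [Finset.sum_congr rfl fun i hi => Finset.sum_congr rfl fun j hj => h1 i hi j hj,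
    Finset.sum_congr rfl fun i hi => Finset.sum_congr rfl fun j hj => h2 i hi j hj]
  have h3 : ∀ i, ∑ j ∈ range N, g i (a + j) = ∑ j ∈ range N, g i j := fun i =>
    sum_per (f := fun j => g i j) (fun j => by rw [hg]; simp only; rw [hp]) a
  rw [Finset.sum_congr rfl fun i _ => h3 (a + i)]
  exact sum_per (f := fun i => ∑ j ∈ range N, g i j) (fun i => by rw [hg]; simp only; rw [hp]) a

end POL

end HexObs
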