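import Pool.Agent.POL.LongZ
import Pool.Agent.POL.Low5
import Pool.Agent.POL.RgRot

/-!
POL, row L5: **the lower half with the radius of gyration** (helper51).
-/

set_option autoImplicit false

namespace HexObs

namespace POL

open Finset TS SDN NTA JNT RP POLP

open scoped ENNReal

/-- short narrow bridges with a long last part, no hypothesis -/
theorem tdL_M : TDP (fun k => PW.mZ (2 ^ k)) (LG fun k => PW.mZ (2 ^ k)) := tdL mlow_M mup_M markov_M lowNar_M

/-- the radius of gyration of a word with two distant parts -/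
lemma rg_two {N a b p q : ℕ} {t : List Bool} {r : ℝ} (hN : 0 < N) (ha : a + p ≤ N) (hb : b + q ≤ N)
    (h : ∀ i j, i < p → j < q → r ≤ ((nrm (vx oo up t (a + i) - vx oo up t (b + j)) : ℤ) : ℝ)) :
    p * q * r / (2 * (N : ℝ) ^ 2) ≤ RgC N t := by
  have h0 : ∀ v : Pt, (0 : ℝ) ≤ ((nrm v : ℤ) : ℝ) := fun v => by
    have := nrm_nonneg' v
    exact_mod_cast this
  have h1 : (p * q * r : ℝ) ≤ ∑ i ∈ range N, ∑ j ∈ range N, ((nrm (vx oo up t i - vx oo up t j) : ℤ) : ℝ) := by
    calc (p * q * r : ℝ) = ∑ _i ∈ range p, ∑ _j ∈ range q, r := by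
          simp
          ring
      _ ≤ ∑ i ∈ range p, ∑ j ∈ range q, ((nrm (vx oo up t (a + i) - vx oo up t (b + j)) : ℤ) : ℝ) :=
          Finset.sum_le_sum fun i hi => Finset.sum_le_sum fun j hj => h i j (Finset.mem_range.1 hi) (Finset.mem_range.1 hj)
      _ ≤ ∑ i ∈ range p, ∑ j ∈ range N, ((nrm (vx oo up t (a + i) - vx oo up t j) : ℤ) : ℝ) := by
          refine Finset.sum_le_sum fun i _ => ?_
          have e : ∑ j ∈ range q, ((nrm (vx oo up t (a + i) - vx oo up t (b + j)) : ℤ) : ℝ) =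
              ∑ j ∈ (range q).image (fun j => b + j), ((nrm (vx oo up t (a + i) - vx oo up t j) : ℤ) : ℝ) :=
            (Finset.sum_image (f := fun j => ((nrm (vx oo up t (a + i) - vx oo up t j) : ℤ) : ℝ))
              (fun x _ y _ hxy => by simpa using hxy)).symm
          rw [e]
          refine Finset.sum_le_sum_of_subset_of_nonneg ?_ fun _ _ _ => h0 _
          intro x hx
          rw [Finset.mem_image] at hx
          obtain ⟨y, hy, rfl⟩ := hx
          rw [Finset.mem_range] at hy ⊢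
          omega
      _ = ∑ i ∈ (range p).image (fun i => a + i), ∑ j ∈ range N, ((nrm (vx oo up t i - vx oo up t j) : ℤ) : ℝ) :=
          (Finset.sum_image (f := fun i => ∑ j ∈ range N, ((nrm (vx oo up t i - vx oo up t j) : ℤ) : ℝ))
            (fun x _ y _ hxy => by simpa using hxy)).symm
      _ ≤ _ := by
          refine Finset.sum_le_sum_of_subset_of_nonneg ?_ fun _ _ _ => Finset.sum_nonneg fun _ _ => h0 _
          intro x hx
          rw [Finset.mem_image] at hx
          obtain ⟨y, hy, rfl⟩ := hx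
          rw [Finset.mem_range] at hy ⊢
          omega
  have hN0 : (0 : ℝ) < N := by exact_mod_cast hN
  unfold RgC
  rw [div_eq_mul_one_div, mul_comm]
  exact mul_le_mul_of_nonneg_left h1 (by positivity)

/-- two levels -/
lemma nrm_lev {p q : Pt} {h : ℕ} (hh : 3 * (h : ℤ) ≤ ip p up - ip q up) : 2 * (h : ℝ) ^ 2 ≤ ((nrm (p - q) : ℤ) : ℝ) := by
  have h1 : (ip (p - q) up) ^ 2 ≤ 4 * nrm (p - q) := by
    obtain ⟨x, y⟩ := p - q
    unfold ip nrm up
    simp only
    nlinarith [sq_nonneg x]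
  rw [ip_sub'] at h1
  have h3 : (3 * (h : ℤ)) ^ 2 ≤ (ip p up - ip q up) ^ 2 := pow_le_pow_left₀ (by positivity) hh 2
  have h4 : 2 * (h : ℤ) ^ 2 ≤ nrm (p - q) := by nlinarith
  exact_mod_cast h4

/-- **the radius of gyration of the marked closed words** -/
theorem rg_low {N k : ℕ} {w M Z1 X D Y Z : List Bool} (hw : w ∈ Cy N) (he : w = (M ++ Z1) ++ (X ++ (D ++ (Y ++ Z))))
    (hM : M ∈ BU) (hZ1 : Z1 ∈ BU) (hX : dx up X X.length = -up) (hD : D ∈ BU) (hY : dx up Y Y.length = -up) (hZ : Z ∈ BU)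
    (hN : 0 < N) (hk : 2 ^ k ≤ hgt M) :
    (Z1.length : ℝ) * Z.length * (2 * 4 ^ k) / (2 * (N : ℝ) ^ 2) ≤ RgC N w := by
  have bM := BUb hM
  have b1 := BUb hZ1
  have bD := BUb hD
  have bZ := BUb hZ
  have bMZ := Brd_append bM b1
  obtain ⟨-, -, m3, m4⟩ := mem_Brd.1 bM
  obtain ⟨z1, -, -, -⟩ := mem_Brd.1 b1
  obtain ⟨y1, -, y3, y4⟩ := mem_Brd.1 bZ
  have hP := pos5 (mem_Brd.1 bMZ).2.2.1 hX (mem_Brd.1 bD).2.2.1 hY y3
  rw [← he] at hP
  obtain ⟨hl, hc, -, -⟩ := hw
  have hlen : N = (M ++ Z1).length + (X.length + (D.length + (Y.length + Z.length))) := by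
    rw [← hl, he]
    simp only [List.length_append]
  have e5 := hP.p5 Z.length le_rfl
  rw [← hlen, hc] at e5
  refine rg_two (a := M.length) (b := (M ++ Z1).length + (X.length + (D.length + Y.length))) hN ?_ (by omega) fun i j hi hj => ?_
  · rw [hlen, List.length_append]
    omega
  · have e1 : vx oo up w (M.length + i) = vx oo up M M.length + vx oo up Z1 i := by
      rw [hP.p1 (M.length + i) (by rw [List.length_append]; omega), vx_cat m3]
    have e2 := hP.p5 j hj.le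
    have e3 : vx oo up w ((M ++ Z1).length + (X.length + (D.length + Y.length)) + j) = vx oo up Z j - vx oo up Z Z.length := by
      rw [show (M ++ Z1).length + (X.length + (D.length + Y.length)) + j =
        (M ++ Z1).length + (X.length + (D.length + (Y.length + j))) by ring, e2]
      have h0 : en (M ++ Z1) + (en X - (en D + en Y)) = -vx oo up Z Z.length := by
        have h1 : (0 : Pt) = en (M ++ Z1) + (en X - (en D + en Y)) + vx oo up Z Z.length := by
          refine (e5 : (0 : Pt) = _).trans ?_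
          abel
        exact eq_neg_of_add_eq_zero_left h1.symm
      rw [show en (M ++ Z1) + (en X - (en D + (en Y - vx oo up Z j))) =
        en (M ++ Z1) + (en X - (en D + en Y)) + vx oo up Z j by abel, h0]
      abel
    rw [e1, e3]
    have h2 := nrm_lev (h := 2 ^ k) (p := vx oo up M M.length + vx oo up Z1 i) (q := vx oo up Z j - vx oo up Z Z.length) ?_
    · refine le_trans (le_of_eq ?_) h2
      push_cast
      rw [← pow_mul, show (4 : ℝ) = 2 ^ 2 by norm_num, ← pow_mul, mul_comm 2 k]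
    · rw [ip_add', ip_sub', ip_vx, ip_vx, ip_vx, ip_vx, m4, y4]
      have h3 : 0 ≤ lev Z1 i := by
        rcases Nat.eq_zero_or_pos i with h0 | h0
        · rw [h0, lev_zero]
        · exact (z1 i h0 hi.le).1.le
      have h4 : lev Z j ≤ 3 * hgt Z := by
        rcases Nat.eq_zero_or_pos j with h0 | h0
        · rw [h0, lev_zero]
          positivity
        · exact (y1 j h0 hj.le).2
      have h5 : (2 : ℤ) ^ k ≤ hgt M := by exact_mod_cast hk
      push_cast
      linarith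

/-- **the lower half of the final statement**, no hypothesis -/
theorem lowH : ∃ (c : ℝ) (N0 : ℕ), 0 < c ∧ ∀ N : ℕ, N0 ≤ N → Even N → ∃ G ⊆ PCy N,
    ENNReal.ofReal (c * (N : ℝ) ^ (-(3 / 2) : ℝ)) ≤ gf G ∧ ∀ t ∈ G, c * (N : ℝ) ^ (3 / 2 : ℝ) ≤ RgC N t := by
  obtain ⟨κ, c, A, N0, hκ, hc, hA, h⟩ := low_cls tdL_M
  obtain ⟨C1, hC1, hupm⟩ := VF.mUp VF.sharpZ
  obtain ⟨c', hc'⟩ : ∃ c' : ℝ, c' = κ / (2 * A ^ 2 * (A * C1) ^ (3 / 2 : ℝ)) := ⟨_, rfl⟩
  have hc'0 : 0 < c' := by rw [hc']; positivity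
  refine ⟨min c c', max N0 1, lt_min hc hc'0, fun N hN he => ?_⟩
  have hN1 : 1 ≤ N := (le_max_right _ _).trans hN
  have hNp : (0 : ℝ) < N := by exact_mod_cast hN1
  obtain ⟨k, hk1, hk2, h1⟩ := h N ((le_max_left _ _).trans hN) he
  refine ⟨_, ?_, le_trans (ENNReal.ofReal_le_ofReal ?_) h1, ?_⟩
  · intro t ht
    rw [← Cy_eq]
    exact ht.1
  · exact mul_le_mul_of_nonneg_right (min_le_left _ _) (by positivity)
  · rintro t ⟨ht, c0, Z', X, D, Y, Z, e, g1, g2, g3, g4, g5, ⟨M, Z1, q1, q2, q3, q4, q5⟩, g7⟩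
    have hw : t.rotate c0 ∈ Cy N := Cy.rot ht c0
    rw [← rgC_rot ht c0]
    rw [q1] at e
    refine le_trans ?_ (rg_low hw e q2 q3 g2 g3 g4 g5 hN1 q4)
    have hmk : 0 < PW.mZ (2 ^ k) := mlow_M.pos k
    have h2 : (N : ℝ) ^ (3 / 2 : ℝ) ≤ (A * C1) ^ (3 / 2 : ℝ) * 4 ^ k := by
      have e4 : (4 : ℝ) ^ k = ((2 : ℝ) ^ (4 / 3 * (k : ℝ))) ^ (3 / 2 : ℝ) := by
        rw [← Real.rpow_mul (by norm_num), show (4 : ℝ) = 2 ^ 2 by norm_num, ← pow_mul, ← Real.rpow_natCast]
        congr 1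
        push_cast
        ring
      rw [e4, ← Real.mul_rpow (by positivity) (by positivity)]
      refine Real.rpow_le_rpow hNp.le ?_ (by norm_num)
      calc (N : ℝ) ≤ A * PW.mZ (2 ^ k) := hk2
        _ ≤ A * (C1 * 2 ^ (4 / 3 * (k : ℝ))) := mul_le_mul_of_nonneg_left (hupm k) hA.le
        _ = _ := by ring
    have h3 : (κ * PW.mZ (2 ^ k)) * (1 / 2 * PW.mZ (2 ^ k)) * (2 * 4 ^ k) / (2 * (N : ℝ) ^ 2) ≤
        (Z1.length : ℝ) * Z.length * (2 * 4 ^ k) / (2 * (N : ℝ) ^ 2) := by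
      have := mul_le_mul q5 g7 (by positivity) (Nat.cast_nonneg _)
      gcongr
    refine le_trans ?_ h3
    calc min c c' * (N : ℝ) ^ (3 / 2 : ℝ) ≤ c' * ((A * C1) ^ (3 / 2 : ℝ) * 4 ^ k) :=
          mul_le_mul (min_le_right _ _) h2 (by positivity) hc'0.le
      _ = κ / (2 * A ^ 2) * 4 ^ k := by
          rw [hc']
          field_simp
      _ ≤ _ := by
          rw [le_div_iff₀ (by positivity)]
          have h5 : (N : ℝ) ^ 2 ≤ A ^ 2 * PW.mZ (2 ^ k) ^ 2 := by
            rw [← mul_pow]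
            exact pow_le_pow_left₀ hNp.le hk2 2
          calc κ / (2 * A ^ 2) * 4 ^ k * (2 * (N : ℝ) ^ 2) ≤ κ / (2 * A ^ 2) * 4 ^ k * (2 * (A ^ 2 * PW.mZ (2 ^ k) ^ 2)) := by
                gcongr
            _ = _ := by
                field_simp

end POL

end HexObs
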