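import Pool.Agent.POL.Fin
import Pool.Agent.POL.LowH

/-!
POL / FinH (helper32): the mean squared radius of gyration of the self-avoiding polygons at every length, with constants.
-/

set_option autoImplicit false

namespace HexObs

namespace POL

open Finset TS SDN NTW NTA SIM JNT

open scoped ENNReal

/-- **the size of the polygons** -/
theorem sizeH : ∃ c C : ℝ, 0 < c ∧ ∀ f : ℕ → Fin 3 → ℂ, MS.Hex f → ∀ n : ℕ, 9 ≤ n → ¬ Even n →
    c * (n : ℝ) ^ (3 / 2 : ℝ) ≤ (∑ s ∈ PGX.Pol f n, POLP.RgP f s) / ((PGX.Pol f n).card : ℝ) ∧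
      (∑ s ∈ PGX.Pol f n, POLP.RgP f s) / ((PGX.Pol f n).card : ℝ) ≤ C * (n : ℝ) ^ (3 / 2 : ℝ) := by
  obtain ⟨c, N1, hc, hlow⟩ := lowH
  obtain ⟨C, N2, hC, hup⟩ := upper
  obtain ⟨M, hM⟩ : ∃ M, M = max (max N1 N2) 1 := ⟨_, rfl⟩
  have hg : ∀ N : ℕ, M ≤ N → Even N → ENNReal.ofReal (c * (N : ℝ) ^ (-(3 / 2) : ℝ)) ≤ gf (POLP.PCy N) ∧
      ENNReal.ofReal (c * c) ≤ ∑' t : POLP.PCy N, wE (t : List Bool) * ENNReal.ofReal (POLP.RgC N t) := by
    intro N hN he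
    obtain ⟨G, hG, h1, h2⟩ := hlow N (by omega) he
    exact POLP.good_of hc (by omega) hG h1 h2
  obtain ⟨C2, hC2, p3⟩ := POLP.mean_up hc hC (N0 := M) (fun N hN he => (hg N hN he).1)
    (fun N hN _ => (hup N (by omega)).2)
  obtain ⟨c2, hc2, p4⟩ := POLP.mean_low (c := c * c) (by positivity) hC (N0 := M)
    (fun N hN _ => (hup N (by omega)).1) (fun N hN he => (hg N hN he).2)
  refine ⟨c2, C2, hc2, fun f hf n hn ho => ?_⟩
  have hP : (0 : ℝ) < ((PGX.Pol f n).card : ℝ) := by exact_mod_cast PGX.card_Pol_pos hf hn ho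
  refine ⟨?_, ?_⟩
  · rw [le_div_iff₀ hP]
    exact p4 f hf n hn ho
  · rw [div_le_iff₀ hP]
    exact p3 f hf n hn ho

end POL

end HexObs

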