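import Pool.Agent.POL.Tube
import Pool.Agent.NTA.PtFC

/-!
POL, row L2: short narrow bridges of any height up to H 2 ^ k (helper51).
-/

set_option autoImplicit false

namespace HexObs

namespace POL

open Finset TS SDN NTA EN RP JNT

open scoped ENNReal

/-- dependent products from below -/
lemma dep_ge {P A : Set (List Bool)} {Q : List Bool → Set (List Bool)} {c : ℝ≥0∞}
    (h : ∀ a ∈ A, ∀ u ∈ Q a, a ++ u ∈ P)
    (hu : ∀ a ∈ A, ∀ u ∈ Q a, ∀ a' ∈ A, ∀ u' ∈ Q a', a ++ u = a' ++ u' → a = a')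
    (hc : ∀ a ∈ A, c ≤ gf (Q a)) : gf A * c ≤ gf P := by
  calc gf A * c = ∑' a : A, wE a * c := by
        unfold gf
        rw [ENNReal.tsum_mul_right]
    _ ≤ ∑' a : A, wE a * gf (Q a) := ENNReal.tsum_le_tsum fun a => mul_le_mul' le_rfl (hc a a.2)
    _ = ∑' a : A, ∑' b : Q a, wE a * wE b := by
        refine tsum_congr fun a => ?_
        unfold gf
        rw [ENNReal.tsum_mul_left]
    _ = ∑' p : (Σ a : A, Q a), wE p.1 * wE p.2 :=
        (ENNReal.tsum_sigma (fun (a : A) (b : Q a) => wE (a : List Bool) * wE (b : List Bool))).symm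
    _ ≤ gf P := by
        unfold gf
        let φ : (Σ a : A, Q a) → P := fun p => ⟨(p.1 : List Bool) ++ (p.2 : List Bool), h _ p.1.2 _ p.2.2⟩
        have hφ : Function.Injective φ := by
          rintro ⟨⟨a, ha⟩, ⟨b, hb⟩⟩ ⟨⟨a', ha'⟩, ⟨b', hb'⟩⟩ hp
          have h1 : a ++ b = a' ++ b' := congrArg (fun q : P => (q : List Bool)) hp
          have h2 : a = a' := hu a ha b hb a' ha' b' hb' h1
          subst h2
          have h3 : b = b' := List.append_cancel_left h1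
          subst h3
          rfl
        refine le_trans (le_of_eq (tsum_congr fun p => ?_)) (ENNReal.tsum_comp_le_tsum_of_injective hφ
          (fun t : P => wE t))
        exact (wE_append _ _).symm

/-- the short narrow first cut pieces of the scale i -/
def FN (m : ℕ → ℝ) (i : ℕ) (w A : ℝ) : Set (List Bool) :=
  {a | (∃ j, a ∈ FC (2 ^ i) j) ∧ hgt a ≤ 2 ^ (i + 1) ∧ (∀ j, j ≤ a.length → |(lat a j : ℝ)| ≤ w * 2 ^ i) ∧
    (a.length : ℝ) ≤ A * m i}

lemma nb_le (m : ℕ → ℝ) (i : ℕ) (w A : ℝ) : gf (NB m i w A) ≤ gf (FN m i w A) * ENNReal.ofReal (UU (2 ^ (i + 1))) := by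
  have h1 : NB m i w A ⊆ {X | ∃ a ∈ FN m i w A, ∃ u ∈ {u | ∃ n, n ≤ 2 ^ (i + 1) ∧ u ∈ Brd n}, X = a ++ u} := by
    rintro X ⟨⟨n, hX⟩, h2, h3, h4, h5⟩
    rw [hgt_eq hX] at h2 h3
    obtain ⟨j, a, u, hsj, hjn, ha, hu, e⟩ := FC_dec h2 hX
    refine ⟨a, ⟨⟨j, ha⟩, by rw [hgt_eq ha.1]; omega, fun l hl => ?_, ?_⟩, u, ⟨n - j, by omega, hu⟩, e⟩
    · have h6 := h4 l (by rw [e, List.length_append]; omega)
      rwa [e, lat_append (by omega)] at h6
    · refine le_trans ?_ h5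
      rw [e, List.length_append]
      push_cast
      linarith [(Nat.cast_nonneg u.length : (0 : ℝ) ≤ u.length)]
  refine (gf_mono h1).trans ((gf_le_mul fun t ht => ht).trans ?_)
  exact mul_le_mul_right (PtC.gf_BU_le _) _

/-- the first cut pieces have a positive weight -/
theorem fn_low {m : ℕ → ℝ} (hm : MLow m) (hd : MUp m) (hM : Mk m) {w : ℝ} (hw : 0 < w) : ∃ (c A : ℝ) (i0 : ℕ),
    0 < c ∧ 0 < A ∧ ∀ i : ℕ, i0 ≤ i → ENNReal.ofReal c ≤ gf (FN m i w A) ∧ ENNReal.ofReal (c * Ub i) ≤ gf (NB m i w A) := by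
  obtain ⟨c, A, i0, hc, hA, h⟩ := narrow hm hd hM hw
  refine ⟨c / 2, A, i0, by positivity, hA, fun i hi => ⟨?_, ?_⟩⟩
  · have h1 := (h i hi).trans (nb_le m i w A)
    have hU := Ub_pos i
    have h2 : UU (2 ^ (i + 1)) ≤ 2 * Ub i := Ub_succ i
    have h3 : ENNReal.ofReal (c / 2) * ENNReal.ofReal (2 * Ub i) ≤ gf (FN m i w A) * ENNReal.ofReal (2 * Ub i) := by
      rw [← ENNReal.ofReal_mul (by positivity)]
      refine (le_of_eq (by congr 1; ring)).trans (h1.trans (mul_le_mul_right (ENNReal.ofReal_le_ofReal h2) _))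
    exact (ENNReal.mul_le_mul_iff_left (by simpa using hU) ENNReal.ofReal_ne_top).1 h3
  · refine (ENNReal.ofReal_le_ofReal ?_).trans (h i hi)
    have := Ub_pos i
    nlinarith

/-- the class of the induction -/
def CL (m : ℕ → ℝ) (i : ℕ) (w A A2 : ℝ) (n h : ℕ) : Set (List Bool) :=
  {D | D ∈ BU ∧ h ≤ hgt D ∧ hgt D ≤ h + 4 * 2 ^ i ∧ (∀ j, j ≤ D.length → |(lat D j : ℝ)| ≤ (n + 2) * (w * 2 ^ i)) ∧
    (D.length : ℝ) ≤ (n * A + A2) * m i}

lemma BUb {s : List Bool} (hs : s ∈ BU) : s ∈ Brd (hgt s) := by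
  obtain ⟨n, hn⟩ := hs
  rw [hgt_eq hn]
  exact hn

lemma cl_step {m : ℕ → ℝ} {i : ℕ} {w A A2 : ℝ} (hw : 0 < w) (hA : 0 ≤ A) (hmi : 0 < m i) {p v : ℝ} (hp : 0 ≤ p)
    (hF : ENNReal.ofReal p ≤ gf (FN m i w A)) {n : ℕ}
    (ih : ∀ h, h ≤ (n + 2) * 2 ^ i → ENNReal.ofReal v ≤ gf (CL m i w A A2 n h)) (h : ℕ) (hh : h ≤ (n + 1 + 2) * 2 ^ i)
    (h2 : 2 * 2 ^ i < h) : ENNReal.ofReal (p * v) ≤ gf (CL m i w A A2 (n + 1) h) := by
  rw [ENNReal.ofReal_mul hp]
  refine (mul_le_mul_left hF _).trans (dep_ge (Q := fun a => CL m i w A A2 n (h - hgt a)) ?_ ?_ ?_)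
  · rintro a ⟨⟨j, ha⟩, a2, a3, a4⟩ D ⟨d1, d2, d3, d4, d5⟩
    have hj := hgt_eq ha.1
    have hs := ha.2.1
    have hD := BUb d1
    have hap := Brd_append ha.1 hD
    have ha3 := (mem_Brd.1 ha.1).2.2.1
    have hat : hgt a ≤ 2 * 2 ^ i := by rw [pow_succ] at a2; omega
    have hlw : 0 < w * 2 ^ i := by positivity
    refine ⟨⟨_, hap⟩, ?_, ?_, fun l hl => ?_, ?_⟩
    · rw [hgt_eq hap]
      omega
    · rw [hgt_eq hap]
      omega
    · rw [List.length_append] at hl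
      rcases Nat.lt_or_ge a.length l with hl2 | hl2
      · obtain ⟨l', rfl⟩ : ∃ l', l = a.length + l' := ⟨l - a.length, by omega⟩
        rw [lat_cat ha3]
        have e1 := a3 a.length le_rfl
        have e2 := d4 l' (by omega)
        push_cast
        refine (abs_add_le _ _).trans ?_
        unfold latE
        linarith
      · rw [lat_append (by omega)]
        have e1 := a3 l hl2
        push_cast
        have : (0 : ℝ) ≤ n := Nat.cast_nonneg n
        nlinarith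
    · rw [List.length_append]
      push_cast
      linarith
  · rintro a ⟨⟨j, ha⟩, -⟩ D ⟨d1, -⟩ a' ⟨⟨j', ha'⟩, -⟩ D' ⟨d1', -⟩ he
    exact (FC_unique ha ha' (BUb d1) (BUb d1') he).1
  · rintro a ⟨⟨j, ha⟩, a2, -⟩
    have hj := hgt_eq ha.1
    have hs := ha.2.1
    refine ih _ ?_
    have e : (n + 1 + 2) * 2 ^ i = (n + 2) * 2 ^ i + 2 ^ i := by ring
    omega

lemma cl_all {m : ℕ → ℝ} {i : ℕ} {w A A2 : ℝ} (hw : 0 < w) (hA : 0 ≤ A) (hmi : 0 < m i) {p v : ℝ} (hp : 0 ≤ p)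
    (hp1 : p ≤ 1) (hv : 0 ≤ v) (hF : ENNReal.ofReal p ≤ gf (FN m i w A)) (h0 : ∀ h, h ≤ 2 * 2 ^ i →
      ENNReal.ofReal v ≤ gf (CL m i w A A2 0 h)) (n : ℕ) :
    ∀ h, h ≤ (n + 2) * 2 ^ i → ENNReal.ofReal (p ^ n * v) ≤ gf (CL m i w A A2 n h) := by
  have mono : ∀ n h, CL m i w A A2 0 h ⊆ CL m i w A A2 n h := by
    rintro n h D ⟨d1, d2, d3, d4, d5⟩
    have hlw : 0 < w * 2 ^ i := by positivity
    have hn : (0 : ℝ) ≤ n := Nat.cast_nonneg n
    refine ⟨d1, d2, d3, fun j hj => (d4 j hj).trans ?_, d5.trans ?_⟩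
    · push_cast
      nlinarith
    · push_cast
      have : 0 ≤ (n : ℝ) * A * m i := by positivity
      nlinarith
  induction n with
  | zero =>
    intro h hh
    rw [pow_zero, one_mul]
    exact h0 h (by simpa using hh)
  | succ n ih =>
    intro h hh
    rcases Nat.lt_or_ge (2 * 2 ^ i) h with h2 | h2
    · have := cl_step hw hA hmi hp hF (A2 := A2) (v := p ^ n * v) ih h (by simpa [add_assoc] using hh) h2
      rw [pow_succ', mul_assoc]
      exact this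
    · refine ((ENNReal.ofReal_le_ofReal ?_).trans (h0 h h2)).trans (gf_mono (mono _ h))
      have : p ^ (n + 1) ≤ 1 := pow_le_one₀ hp hp1
      nlinarith

lemma Ub_iter (k j : ℕ) : Ub (k + j) ≤ 2 ^ j * Ub k := by
  induction j with
  | zero => simp
  | succ j ih =>
    calc Ub (k + (j + 1)) ≤ 2 * Ub (k + j) := Ub_succ (k + j)
      _ ≤ 2 * (2 ^ j * Ub k) := by linarith
      _ = _ := by ring

/-- **short narrow bridges of every height up to H 2 ^ k** -/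
theorem tdW {m : ℕ → ℝ} (hm : MLow m) (hd : MUp m) (hM : Mk m) : TDW m := by
  intro H e v he hv
  obtain ⟨w, hw⟩ : ∃ w : ℝ, w = v / (H + 2) := ⟨_, rfl⟩
  have hH0 : (0 : ℝ) ≤ H := Nat.cast_nonneg H
  have hw0 : 0 < w := by rw [hw]; positivity
  obtain ⟨c0, A, i0, hc0, hA, hN⟩ := fn_low hm hd hM hw0
  obtain ⟨Cm, hCm, hu⟩ := id hd
  obtain ⟨p, hp⟩ : ∃ p : ℝ, p = min c0 1 := ⟨_, rfl⟩
  have hp0 : 0 < p := by rw [hp]; exact lt_min hc0 one_pos
  have hp1 : p ≤ 1 := by rw [hp]; exact min_le_right _ _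
  obtain ⟨G, hG⟩ : ∃ G : ℝ, G = H * A + A * Cm := ⟨_, rfl⟩
  have hG0 : 0 < G := by rw [hG]; positivity
  -- the scale of the pieces
  obtain ⟨j, hj1, hj2⟩ : ∃ j : ℕ, 4 ≤ v * 2 ^ j ∧ G ≤ e * (2 : ℝ) ^ ((j : ℝ) / 4) := by
    obtain ⟨j1, hj1⟩ := pow_unbounded_of_one_lt (4 / v) (by norm_num : (1 : ℝ) < 2)
    obtain ⟨j2, hj2⟩ := pow_unbounded_of_one_lt (G / e) (by norm_num : (1 : ℝ) < 2)
    refine ⟨max j1 (4 * j2), ?_, ?_⟩
    · have h1 : (2 : ℝ) ^ j1 ≤ 2 ^ (max j1 (4 * j2)) := pow_le_pow_right₀ (by norm_num) (le_max_left _ _)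
      rw [div_lt_iff₀ hv] at hj1
      nlinarith
    · have h1 : (2 : ℝ) ^ j2 ≤ (2 : ℝ) ^ ((max j1 (4 * j2) : ℕ) / 4 : ℝ) := by
        rw [← Real.rpow_natCast]
        apply Real.rpow_le_rpow_of_exponent_le (by norm_num)
        rw [le_div_iff₀ (by norm_num)]
        have : ((4 * j2 : ℕ) : ℝ) ≤ ((max j1 (4 * j2) : ℕ) : ℝ) := by exact_mod_cast le_max_right _ _
        push_cast at this ⊢
        linarith
      rw [div_lt_iff₀ he] at hj2
      calc G ≤ 2 ^ j2 * e := hj2.le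
        _ ≤ (2 : ℝ) ^ ((max j1 (4 * j2) : ℕ) / 4 : ℝ) * e := mul_le_mul_of_nonneg_right h1 he.le
        _ = _ := by ring
  obtain ⟨n, hn⟩ : ∃ n : ℕ, n = H * 2 ^ j := ⟨_, rfl⟩
  refine ⟨p ^ n * c0 / 2 ^ j, i0 + j, by positivity, fun k h hk hh => ?_⟩
  obtain ⟨i, rfl⟩ : ∃ i, k = i + j := ⟨k - j, by omega⟩
  have hi0 : i0 ≤ i := by omega
  have hmi := hm.pos i
  have hUi := Ub_pos i
  have hnR : (n : ℝ) = H * 2 ^ j := by rw [hn]; push_cast; ring
  have hall := cl_all (A2 := A * Cm) hw0 hA.le hmi hp0.le hp1 (v := c0 * Ub i) (by positivity)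
    ((ENNReal.ofReal_le_ofReal (by rw [hp]; exact min_le_left _ _)).trans (hN i hi0).1) ?_ n h ?_
  · refine (ENNReal.ofReal_le_ofReal ?_).trans (hall.trans (gf_mono ?_))
    · have h1 := Ub_iter i j
      calc p ^ n * c0 / 2 ^ j * Ub (i + j) ≤ p ^ n * c0 / 2 ^ j * (2 ^ j * Ub i) :=
            mul_le_mul_of_nonneg_left h1 (by positivity)
        _ = p ^ n * (c0 * Ub i) := by field_simp
    · rintro D ⟨d1, d2, d3, d4, d5⟩
      have e2 : (2 : ℝ) ^ (i + j) = 2 ^ i * 2 ^ j := pow_add _ _ _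
      have hpi : (0 : ℝ) < 2 ^ i := by positivity
      have hpj : (1 : ℝ) ≤ 2 ^ j := one_le_pow₀ (by norm_num)
      refine ⟨d1, d2, ?_, fun l hl => (d4 l hl).trans ?_, d5.trans ?_⟩
      · have h3 : (hgt D : ℝ) ≤ h + 4 * 2 ^ i := by exact_mod_cast d3
        rw [e2]
        nlinarith
      · rw [e2, hnR, hw]
        have h3 : (H * 2 ^ j + 2 : ℝ) ≤ (H + 2) * 2 ^ j := by nlinarith
        calc ((H : ℝ) * 2 ^ j + 2) * (v / (H + 2) * 2 ^ i) ≤ ((H + 2) * 2 ^ j) * (v / (H + 2) * 2 ^ i) :=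
              mul_le_mul_of_nonneg_right h3 (by positivity)
          _ = v * (2 ^ i * 2 ^ j) := by field_simp
      · have h3 := hm.low i j
        have h4 : (2 : ℝ) ^ (5 / 4 * (j : ℝ)) = 2 ^ j * (2 : ℝ) ^ ((j : ℝ) / 4) := by
          rw [← Real.rpow_natCast, ← Real.rpow_add (by norm_num)]
          congr 1
          ring
        rw [h4] at h3
        have h5 : ((n : ℝ) * A + A * Cm) ≤ 2 ^ j * G := by
          rw [hnR, hG]
          have : A * Cm ≤ 2 ^ j * (A * Cm) := le_mul_of_one_le_left (by positivity) hpj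
          nlinarith
        calc ((n : ℝ) * A + A * Cm) * m i ≤ 2 ^ j * G * m i := mul_le_mul_of_nonneg_right h5 hmi.le
          _ ≤ 2 ^ j * (e * (2 : ℝ) ^ ((j : ℝ) / 4)) * m i := by gcongr
          _ = e * (2 ^ j * (2 : ℝ) ^ ((j : ℝ) / 4) * m i) := by ring
          _ ≤ e * m (i + j) := mul_le_mul_of_nonneg_left h3 he.le
  · -- the base
    intro h' hh'
    have h1 := (hN (i + 1) (by omega)).2
    refine (ENNReal.ofReal_le_ofReal ?_).trans (h1.trans (gf_mono ?_))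
    · exact mul_le_mul_of_nonneg_left (UU_mono (Nat.pow_le_pow_right (by norm_num) (by omega))) hc0.le
    · rintro D ⟨d1, d2, d3, d4, d5⟩
      refine ⟨d1, ?_, ?_, fun l hl => (d4 l hl).trans ?_, d5.trans ?_⟩
      · rw [pow_succ] at d2
        omega
      · have : 2 ^ (i + 1 + 1) = 4 * 2 ^ i := by ring
        omega
      · apply le_of_eq
        push_cast
        ring
      · push_cast
        have h3 := mul_le_mul_of_nonneg_left (hu i) hA.le
        calc A * m (i + 1) ≤ A * (Cm * m i) := h3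
          _ = _ := by ring
  · rw [hn]
    have : H * 2 ^ (i + j) = H * 2 ^ j * 2 ^ i := by ring
    nlinarith [Nat.zero_le (2 ^ i)]

end POL

end HexObs
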