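import Pool.Agent.POL.ArcW
import Pool.Agent.POL.TallD
import Pool.Agent.NTA.TbM

/-!
POL, row L2: the weights of the short narrow bridges and of the short arcs for the mean length (helper51).
-/

set_option autoImplicit false

namespace HexObs

namespace POL

open NTA

open scoped ENNReal

/-- **the short narrow bridges** -/
theorem tdW_M : TDW (fun k => PW.mZ (2 ^ k)) := tdW mlow_M mup_M markov_M

/-- **the short arcs with the foot in a window** -/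
theorem arcs_M : ∃ (η L C : ℝ), 0 < η ∧ 0 < L ∧ 0 < C ∧
    (∀ (δ : ℝ) (i d : ℕ), 5 ≤ i →
      gf (AT (fun k => PW.mZ (2 ^ k)) i d δ L) ≤ ENNReal.ofReal (C * (2 : ℝ) ^ (-((i : ℝ) / 4)))) ∧
    ∀ δ : ℝ, 0 < δ → ∃ (c : ℝ) (i0 : ℕ), 0 < c ∧ ∀ i : ℕ, i0 ≤ i → ∃ d : ℕ, η * 2 ^ i ≤ d ∧
      ENNReal.ofReal (c * (2 : ℝ) ^ (-((i : ℝ) / 4))) ≤ gf (AT (fun k => PW.mZ (2 ^ k)) i d δ L) :=
  arcs mlow_M mup_M tb_M (longQ mlow_M mup_M tb_M)

end POL

end HexObs
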