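import Pool.Agent.POL.Defs
import Pool.Agent.SIM.TopHW

/-!
POL, U4d: the root of a closed word. A leaf with cuts in two windows over its foot gives a bridge H such that the closed word
without any irreducible piece of H has its first fold at its start and its last fold at its end.
-/

set_option autoImplicit false

namespace HexObs

namespace POL

open Finset TS SDN NTW NTA SIM JNT

/-- the frames of the rotation of a closed word -/
theorem cy_frame {N : ℕ} {X Y : List Bool} (h : X ++ Y ∈ Cy N) :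
    ∃ c : Pt, nrm c = 1 ∧ mulE c up = dx up (X ++ Y) X.length ∧
      (∀ i, i ≤ Y.length → vx oo up (X ++ Y) (X.length + i) =
        vx oo up (X ++ Y) X.length + mulE c (vx oo up (Y ++ X) i)) ∧
      (∀ j, j ≤ X.length → vx oo up (X ++ Y) j =
        vx oo up (X ++ Y) X.length + mulE c (vx oo up (Y ++ X) (Y.length + j))) ∧
      dx up (Y ++ X) N = up ∧ mulE c (dx up (Y ++ X) Y.length) = up := by
  obtain ⟨h1, h2, h3, -⟩ := h
  have hN : X.length + Y.length = N := by rw [← h1, List.length_append]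
  obtain ⟨c, c1, c2, c3⟩ := drop_frame' (X ++ Y) X.length
  rw [List.drop_left] at c3
  obtain ⟨c', d1, d2, d3⟩ := drop_frame' (Y ++ X) Y.length
  rw [List.drop_left] at d3
  have hc : nrm c = 1 := mem_dirs.1 c1
  -- directions
  have e1 : ∀ i, dx up (X ++ Y) (X.length + i) = mulE c (dx up Y i) := by
    intro i
    rw [dx_drop, List.drop_left, c2, dx_mulE]
  have e2 : ∀ i, dx up (Y ++ X) (Y.length + i) = mulE c' (dx up X i) := by
    intro i
    rw [dx_drop, List.drop_left, d2, dx_mulE]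
  have e3 : dx up Y Y.length = mulE c' up := by
    rw [← d2, dx_append le_rfl]
  have e4 : mulE c (mulE c' up) = up := by
    rw [← e3, ← e1, hN, h3]
  have e5 : mulE c c' = (1, 0) := by
    have hu : nrm up = 1 := mem_dirs.1 up_dirs
    apply mulE_inj hu
    rw [mulE_comm up, mulE_comm up, mulE_one, ← mulE_assoc, e4]
  have hoo : (oo : Pt) = 0 := rfl
  have e6 : vx oo up (X ++ Y) X.length + mulE c (vx oo up Y Y.length) = 0 := by
    rw [← c3, hN, h2, hoo]
  refine ⟨c, hc, c2.symm, ?_, ?_, ?_, by rw [d2, e4]⟩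
  · intro i hi
    rw [c3, vx_append (t := Y) (s := X) (by omega)]
  · intro j hj
    rw [d3, mulE_add, mulE_assoc, e5, mulE_one, vx_append (t := Y) (s := X) (by omega), ← add_assoc, e6, zero_add,
      vx_append (by omega)]
  · have e7 : dx up X X.length = mulE c up := by
      rw [← c2, dx_append le_rfl]
    have e8 := e2 X.length
    rw [show Y.length + X.length = N by omega, e7, mulE_assoc, mulE_comm c', e5, mulE_one] at e8
    exact e8

/-- the rotations of a closed word are closed words -/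
theorem cy_rot {N : ℕ} {X Y : List Bool} (h : X ++ Y ∈ Cy N) : Y ++ X ∈ Cy N := by
  obtain ⟨c, c1, -, c3, c4, c5, -⟩ := cy_frame h
  obtain ⟨h1, h2, h3, h4⟩ := h
  have hN : X.length + Y.length = N := by rw [← h1, List.length_append]
  have hoo : (oo : Pt) = 0 := rfl
  have m0 : mulE c 0 = 0 := by
    simp [mulE]
  refine ⟨by rw [List.length_append]; omega, ?_, c5, ?_⟩
  · have e1 := c4 X.length le_rfl
    rw [show Y.length + X.length = N by omega] at e1
    have e2 : mulE c (vx oo up (Y ++ X) N) = mulE c 0 := by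
      rw [m0]
      exact left_eq_add.1 e1
    rw [mulE_inj c1 e2, hoo]
  · have key : ∀ i, i < N → ∃ k, k < N ∧ vx oo up (X ++ Y) k =
        vx oo up (X ++ Y) X.length + mulE c (vx oo up (Y ++ X) i) ∧
        ((i < Y.length ∧ k = X.length + i) ∨ (Y.length ≤ i ∧ i = Y.length + k ∧ k < X.length)) := by
      intro i hi
      rcases Nat.lt_or_ge i Y.length with h5 | h5
      · exact ⟨X.length + i, by omega, c3 i h5.le, Or.inl ⟨h5, rfl⟩⟩
      · obtain ⟨k, rfl⟩ : ∃ k, i = Y.length + k := ⟨i - Y.length, by omega⟩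
        exact ⟨k, by omega, c4 k (by omega), Or.inr ⟨h5, rfl, by omega⟩⟩
    intro i j hi hj hij
    obtain ⟨k, k1, k2, k3⟩ := key i hi
    obtain ⟨l, l1, l2, l3⟩ := key j hj
    have e1 : vx oo up (X ++ Y) k = vx oo up (X ++ Y) l := by rw [k2, l2, hij]
    have e2 := h4 k l k1 l1 e1
    omega

/-- a proper beginning of a closed word is a self-avoiding word -/
theorem cy_take {N : ℕ} {Z P : List Bool} (h : Z ++ P ∈ Cy N) (hP : P ≠ []) : Z ∈ SA := by
  obtain ⟨h1, -, -, h4⟩ := h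
  have hN : Z.length + P.length = N := by rw [← h1, List.length_append]
  have hP1 : 1 ≤ P.length := List.length_pos_iff.2 hP
  refine ⟨fun _ _ _ => Set.mem_univ _, ?_⟩
  intro i k hik hk heq
  have e1 : ∀ j, j ≤ Z.length → vx oo up Z j = vx oo up (Z ++ P) j := fun j hj => (vx_append (by omega)).symm
  rw [e1 i (by omega), e1 k hk] at heq
  have := h4 i k (by omega) (by omega) heq
  omega

/-- a word whose last part goes up ends at a fold -/
lemma topE_of {b K : ℕ} {t : List Bool} (ht : t ∈ WL K) {o n a : ℕ} (hlen : t.length = o + n) (han : a ≤ n)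
    {f : ℕ → ℤ} {y : ℤ} (hf : ∀ i, i ≤ n → lev t (o + i) = f i - y) (hb : 1 ≤ b)
    (hR : RR b ≤ f n - f a) (hmax : ∀ i, a ≤ i → i ≤ n → f i ≤ f n) : t ∈ TopE b K := by
  have hR4 := RR_ge hb
  obtain ⟨d, d1, d2, d3⟩ := FoldA.last_max (fun i => - f (a + i)) (n - a)
  have d2' := d2 0 (by omega)
  simp only [add_zero] at d2'
  have hdp : a + d < n := by
    rcases Nat.lt_or_ge (a + d) n with h6 | h6
    · exact h6
    · exfalso
      have : a + d = n := by omega
      rw [this] at d2'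
      omega
  refine ⟨ht, 1, o + (a + d), by omega, ?_, ?_, ?_⟩
  · rw [hlen, Tight.sg_one, Tight.sg_one, hf n le_rfl, hf (a + d) hdp.le]
    omega
  · intro i i1 i2
    obtain ⟨k, rfl⟩ : ∃ k, i = o + k := ⟨i - o, by omega⟩
    rw [hlen, Tight.sg_one, Tight.sg_one, hf n le_rfl, hf k (by omega)]
    have := hmax k (by omega) (by omega)
    omega
  · intro i i1 i2
    obtain ⟨k, rfl⟩ : ∃ k, i = o + k := ⟨i - o, by omega⟩
    rw [Tight.sg_one, Tight.sg_one, hf (a + d) hdp.le, hf k (by omega)]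
    have := d3 (k - a) (by omega) (by omega)
    rw [show a + (k - a) = k by omega] at this
    omega

/-- **the cuts of one leaf over its foot**: the leaf is in [v + 1, z] -/
theorem leaf_cutH {kc : ℕ} {t : List Bool} {u l : ℕ} {e : ℕ → ℕ} {g : List Bool} (hpos : PosL t u e l g) {hh : ℕ}
    (hg : g ∈ Brd hh) (hD1 : 2 ^ (kc + 4) ≤ hh) :
    ∃ v z : ℕ, e l ≤ v + 1 ∧ v ≤ e l + 1 ∧ z ≤ e (l + 1) ∧ e (l + 1) ≤ z + 1 ∧
      ∀ c r, c + r ≤ kc + 3 → g ∉ NoCutH c r → ∃ p H : ℕ, CutAt (dD false (u + l)) t (v + 1) z p ∧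
        xD (dD false (u + l)) t p - xD (dD false (u + l)) t (v + 1) = 3 * H - 2 ∧ 2 ^ c ≤ H ∧ H ≤ 2 ^ (c + r) ∧
        3 * 2 ^ (kc + 3) ≤ xD (dD false (u + l)) t z - xD (dD false (u + l)) t p := by
  obtain ⟨v, v1, v2, v3, v4, v5⟩ := hpos
  obtain ⟨D, hD⟩ : ∃ D, D = dD false (u + l) := ⟨_, rfl⟩
  have hDm : D ∈ dirs := by rw [hD]; exact dD_mem _ _
  have hxD' : ∀ k, xD D t k = Tight.sg (u + l) (lev t k) := by
    intro k
    rw [hD, xD_lev]
  obtain ⟨z, hz⟩ : ∃ z, z = v + g.length := ⟨_, rfl⟩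
  have hlev : ∀ k, 1 ≤ k → k ≤ g.length → lev g k - lev g 1 = xD D t (v + k) - xD D t (v + 1) := by
    intro k k1 k2
    rw [v5 k k1 k2, hxD', hxD']
    unfold Tight.sg
    split_ifs <;> ring
  have hpk : 2 ^ (kc + 4) = 2 * 2 ^ (kc + 3) := by ring
  rw [← hD]
  refine ⟨v, z, v1, v2, by omega, by omega, ?_⟩
  intro c r hcr hno
  obtain ⟨A, B, hA, hB, hgAB, w1, w2⟩ : ∃ A B : List Bool, A ∈ BU ∧ B ∈ BU ∧ g = A ++ B ∧ 2 ^ c ≤ hgt A ∧
      hgt A ≤ 2 ^ (c + r) := by
    by_contra hn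
    push Not at hn
    apply hno
    intro A B hA hB hgAB h3
    exact hn A B hA hB hgAB.symm h3
  have hw3 : 2 ^ (c + r) ≤ 2 ^ (kc + 3) := Nat.pow_le_pow_right (by norm_num) hcr
  have hadd : hgt A + hgt B = hh := by
    obtain ⟨a, ha⟩ := hA
    obtain ⟨b, hb⟩ := hB
    rw [hgt_eq ha, hgt_eq hb]
    rw [hgAB] at hg
    exact Brd_height (Brd_append ha hb) hg
  have hA0 : A ≠ [] := by
    rintro rfl
    have h3 : hgt ([] : List Bool) = 0 := hgt_eq nil_mem_Brd
    have h4 : 0 < 2 ^ c := by positivity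
    omega
  have hB0 : B ≠ [] := by
    rintro rfl
    have h3 : hgt ([] : List Bool) = 0 := hgt_eq nil_mem_Brd
    have h4 : 0 < 2 ^ (kc + 3) := by positivity
    omega
  rw [hgAB] at hlev
  obtain ⟨c1, c2, c3⟩ := cut_of_split hDm hA hB hA0 hB0 hlev
  rw [← hgAB, ← hz] at c1 c2
  refine ⟨v + A.length, hgt A, c1, c3, w1, w2, ?_⟩
  rw [c2]
  have h5 : 2 ^ (kc + 3) ≤ hgt B := by omega
  have h6 : ((2 ^ (kc + 3) : ℕ) : ℤ) ≤ (hgt B : ℤ) := by exact_mod_cast h5
  push_cast at h6
  omega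

/-- **the closed word without an irreducible piece between two cuts of a leaf** -/
theorem two_of_cut {N K b k : ℕ} {w : List Bool} {c : Bool} (ht : w ++ [c] ∈ WC N K) (hb : 1 ≤ b) {s z p q : ℕ}
    (hz : z ≤ w.length) (hp : CutAt (dD false k) w s z p) (hq : CutAt (dD false k) w s z q) (hpq : p ≤ q)
    (hRp : RR b ≤ xD (dD false k) w p - xD (dD false k) w s)
    (hRq : RR b ≤ xD (dD false k) w z - xD (dD false k) w q)
    {L P R : List Bool} (hL : L ∈ BU) (hP : P ∈ BU) (hR : R ∈ BU) (hP0 : P ≠ [])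
    (hH : (w.drop p).take (q - p) = L ++ (P ++ R)) :
    R ++ ((w.drop q ++ [c]) ++ (w.take p ++ L)) ∈ TwoF b K ∧
      dx up w (w.take p ++ (L ++ P)).length = dD false k ∧
      dx up (R ++ ((w.drop q ++ [c]) ++ (w.take p ++ L))) (R ++ (w.drop q ++ [c])).length = dD false k := by
  have hbox := ht.2
  have hcy := ht.1
  have hlen : (w ++ [c]).length = N := hcy.1
  have hlen' : w.length + 1 = N := by
    rw [← hlen, List.length_append]
    rfl
  have hwSA : w ∈ SA := cy_take hcy (by simp)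
  have hwWL : w ∈ WL K := by
    refine ⟨hwSA, fun i hi dir => ?_⟩
    have h1 := hbox [] (w ++ [c]) (by simp) i (by omega) dir
    rw [List.append_nil, vx_append (by omega)] at h1
    exact h1
  obtain ⟨D, hD⟩ : ∃ D, D = dD false k := ⟨_, rfl⟩
  rw [← hD] at hp hq hRp hRq
  have hLP : L ++ P ∈ BU := by
    obtain ⟨x, hx⟩ := hL
    obtain ⟨y, hy⟩ := hP
    exact ⟨_, Brd_append hx hy⟩
  have hPR : P ++ R ∈ BU := by
    obtain ⟨x, hx⟩ := hP
    obtain ⟨y, hy⟩ := hR
    exact ⟨_, Brd_append hx hy⟩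
  obtain ⟨a1, a2, a3, a4, -⟩ := cut_inner hz hp hq hpq hL hPR hH
  obtain ⟨b1, b2, b3, b4, b5⟩ := cut_inner hz hp hq hpq (A := L ++ P) (B := R) hLP hR (by
    rw [hH, List.append_assoc])
  -- the rotation
  obtain ⟨τ, hτ⟩ : ∃ τ, τ = p + (L ++ P).length := ⟨_, rfl⟩
  rw [← hτ] at b1 b2 b3 b4 b5
  have hqz : q < z := hq.2.1
  have hXl : (w.take τ).length = τ := by
    rw [List.length_take]
    omega
  have hsplit : w ++ [c] = w.take τ ++ (R ++ (w.drop q ++ [c])) := by
    have h1 : w = w.take τ ++ w.drop τ := (List.take_append_drop τ w).symm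
    rw [b5] at h1
    calc w ++ [c] = (w.take τ ++ (R ++ w.drop q)) ++ [c] := by rw [← h1]
      _ = _ := by simp only [List.append_assoc]
  have hbox2 := hbox _ _ hsplit
  rw [hsplit] at hcy
  have hrot := cy_rot hcy
  obtain ⟨cc, e1, e2, e3, e4, -, e6⟩ := cy_frame hcy
  obtain ⟨Q, hQ⟩ : ∃ Q, Q = R ++ (w.drop q ++ [c]) := ⟨_, rfl⟩
  rw [← hQ] at hrot e2 e3 e4 e6 hbox2 hsplit hcy
  have hwt : w.take τ = (w.take p ++ L) ++ P := by
    rw [b4, List.append_assoc]
  have hT : R ++ ((w.drop q ++ [c]) ++ (w.take p ++ L)) = Q ++ (w.take p ++ L) := by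
    rw [hQ]
    simp only [List.append_assoc]
  rw [hT]
  obtain ⟨T, hTd⟩ : ∃ T, T = Q ++ (w.take p ++ L) := ⟨_, rfl⟩
  have hTP : Q ++ w.take τ = T ++ P := by
    rw [hTd, hwt]
    simp only [List.append_assoc]
  rw [← hTd]
  have hTl : T.length = Q.length + (p + L.length) := by
    rw [hTd, List.length_append, List.length_append, List.length_take]
    omega
  have hP1 : 1 ≤ P.length := List.length_pos_iff.2 hP0
  have hNl : Q.length + τ = N := by
    rw [← hrot.1, List.length_append, hXl]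
  have hτ' : τ = p + L.length + P.length := by
    rw [hτ, List.length_append]
    omega
  have hTv : ∀ i, i ≤ T.length → vx oo up T i = vx oo up (Q ++ w.take τ) i := by
    intro i hi
    rw [hTP, vx_append (by omega)]
  have hTWL : T ∈ WL K := by
    refine ⟨?_, fun i hi dir => ?_⟩
    · rw [hTP] at hrot
      exact cy_take hrot hP0
    · rw [hTv i hi]
      exact hbox2 i (by omega) dir
  have hdτ : dx up (w.take τ ++ Q) (w.take τ).length = D := by
    rw [← hsplit, hXl, dx_append (by omega)]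
    exact b1.2.2.1
  rw [hdτ] at e2
  -- levels
  have hlev : ∀ i, i ≤ p + L.length → lev T (Q.length + i) = xD D w i - xD D w τ := by
    intro i hi
    have h1 := e4 i (by omega)
    rw [hXl, ← hsplit, vx_append (by omega), vx_append (by omega)] at h1
    unfold lev xD
    rw [hTv _ (by omega), h1, ip_add_left, ← e2, ip_mulE, e1, one_mul]
    ring
  have hTop : T ∈ TopE b K := by
    refine topE_of hTWL hTl (a := s) (by have := a1.1; omega) hlev hb ?_ ?_
    · have h0 : (0 : ℤ) ≤ 3 * (hgt L : ℤ) := by positivity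
      omega
    · intro i i1 i2
      exact a1.2.2.2.1 i i1 i2
  have hBot : T ∈ BotS b (K + 1) := by
    have hb2 : w.drop τ ∈ BotS b (K + 1) := by
      have h4 : xD D w τ ≤ xD D w q := by
        rcases Nat.lt_or_ge τ q with h5 | h5
        · exact (b1.2.2.2.2 q h5 hqz.le).le
        · have : τ = q := by omega
          rw [this]
      have h6 : RR b ≤ xD D w z - xD D w τ := by omega
      rw [hD] at b1 h6
      exact bot_mem hwWL hz b1 h6
    obtain ⟨-, a, f1, f2, f3⟩ := hb2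
    have hpre : T = w.drop τ ++ ([c] ++ (w.take p ++ L)) := by
      rw [hTd, hQ, b5]
      simp only [List.append_assoc]
    refine ⟨⟨hTWL.1, fun i hi dir => (hTWL.2 i hi dir).trans ?_⟩, a, ?_, ?_, ?_⟩
    · exact pow_le_pow_right₀ (by norm_num) (by omega)
    · rw [hpre, List.length_append]
      omega
    · rw [hpre, lev_append (by omega)]
      exact f2
    · intro i i1 i2
      rw [hpre, lev_append (by omega)]
      exact f3 i i1 i2
  obtain ⟨m, u, e, g1, g2, g3⟩ := topE_botS hb hTop hBot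
  refine ⟨⟨hTWL, m, u, e, g1, g2, g3⟩, ?_, ?_⟩
  · have h1 : (w.take p ++ (L ++ P)).length = τ := by
      rw [List.length_append, List.length_take, List.length_append]
      omega
    rw [h1, b1.2.2.1, hD]
  · have h1 : dx up T Q.length = dx up (Q ++ w.take τ) Q.length := by
      rw [hTP, dx_append (by omega)]
    rw [← hQ, h1, ← hD]
    have hcd : cc ∈ dirs := mem_dirs.2 e1
    have hv : ∀ v : Pt, mulE cc v = up → v = D := by
      intro v hv
      rw [hD] at e2 ⊢
      unfold dD at e2 ⊢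
      by_cases hk : Even k
      · rw [if_pos hk] at e2 ⊢
        have h2 := (rot_up cc hcd).2 e2
        rw [h2] at hv
        have h3 : mulE (-1, 0) (-up) = up := by decide
        exact mulE_inj (u := (-1, 0)) (by decide) (hv.trans h3.symm)
      · rw [if_neg hk] at e2 ⊢
        have h2 := (rot_up cc hcd).1 e2
        rw [h2, mulE_one] at hv
        exact hv
    exact hv _ e6

/-- **U4d, the root**: a leaf of the closed word with cuts in two windows over its foot -/
theorem root {N K kc b e1 r1 e2 r2 u a hh : ℕ} {w g : List Bool} {c : Bool} {e : ℕ → ℕ} (ht : w ++ [c] ∈ WC N K)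
    (hpos : PosL w u e a g) (hle : e (a + 1) ≤ w.length) (hg : g ∈ Brd hh) (hD : 2 ^ (kc + 4) ≤ hh)
    (h1 : g ∉ NoCutH e1 r1) (h2 : g ∉ NoCutH e2 r2) (h12 : e1 + r1 + 2 ≤ e2) (h2k : e2 + r2 ≤ kc + 3) (hb : 1 ≤ b)
    (hbe : b ≤ e1) :
    ∃ (X H Y : List Bool) (h : ℕ), w = X ++ (H ++ Y) ∧ H ∈ Brd h ∧ 2 ^ (e2 - 1) ≤ h ∧ h ≤ 2 ^ (e2 + r2) ∧
      e a ≤ X.length ∧ X.length + H.length ≤ e (a + 1) ∧ dx up w X.length = dD false (u + a) ∧
      ∀ L P R : List Bool, L ∈ BU → R ∈ BU → P ∈ IU → H = L ++ (P ++ R) →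
        hgt P ≤ 2 ^ (e2 + r2) ∧ R ++ ((Y ++ [c]) ++ (X ++ L)) ∈ TwoF b K ∧
          dx up w (X ++ (L ++ P)).length = dD false (u + a) ∧
          dx up (R ++ ((Y ++ [c]) ++ (X ++ L))) (R ++ (Y ++ [c])).length = dD false (u + a) := by
  have hwSA : w ∈ SA := cy_take ht.1 (by simp)
  obtain ⟨v, z, v1, v2, v3, v4, v5⟩ := leaf_cutH hpos hg hD
  obtain ⟨p, A1, p1, p2, p3, p4, p5⟩ := v5 e1 r1 (by omega) h1
  obtain ⟨q, A2, q1, q2, q3, q4, q5⟩ := v5 e2 r2 h2k h2
  have hpw1 : (2 : ℕ) ^ (e1 + r1) * 4 ≤ 2 ^ e2 := by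
    calc (2 : ℕ) ^ (e1 + r1) * 4 = 2 ^ (e1 + r1 + 2) := by ring
      _ ≤ 2 ^ e2 := Nat.pow_le_pow_right (by norm_num) h12
  have hpw2 : (2 : ℕ) ^ e2 = 2 * 2 ^ (e2 - 1) := by
    rw [← pow_succ']
    congr 1
    omega
  have hpw0 : 0 < (2 : ℕ) ^ (e1 + r1) := by positivity
  have hlt : p < q := by
    refine cut_lt p1 q1 ?_
    have : (A1 : ℤ) < A2 := by exact_mod_cast (by omega : A1 < A2)
    omega
  obtain ⟨n, n1, n2⟩ := cut_mid hwSA (by omega) p1 q1 hlt.le
  have hn : n + A1 = A2 := by omega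
  have hzl : z ≤ w.length := by omega
  have hXl : (w.take p).length = p := by
    rw [List.length_take]
    have := p1.2.1
    omega
  have hHl : ((w.drop p).take (q - p)).length = q - p := by
    rw [List.length_take, List.length_drop]
    have := q1.2.1
    omega
  have hRb : RR b ≤ 3 * 2 ^ e1 - 2 := by
    unfold RR
    have : (2 : ℤ) ^ b ≤ 2 ^ e1 := pow_le_pow_right₀ (by norm_num) hbe
    omega
  have hA1 : (2 : ℤ) ^ e1 ≤ A1 := by exact_mod_cast p3
  have hk3 : (2 : ℤ) ^ b ≤ 2 ^ (kc + 3) := pow_le_pow_right₀ (by norm_num) (by omega)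
  refine ⟨w.take p, (w.drop p).take (q - p), w.drop q, n, ?_, n1, by omega, by omega, ?_, ?_, ?_, ?_⟩
  · have h3 : w = w.take p ++ w.drop p := (List.take_append_drop p w).symm
    have h4 : w.drop p = (w.drop p).take (q - p) ++ w.drop q := by
      have h5 := (List.take_append_drop (q - p) (w.drop p)).symm
      rw [List.drop_drop, Nat.add_sub_cancel' hlt.le] at h5
      exact h5
    rw [← h4]
    exact h3
  · rw [hXl]
    have := p1.1
    omega
  · rw [hXl, hHl]
    have := q1.2.1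
    omega
  · rw [hXl]
    exact p1.2.2.1
  · intro L P R hL hR hP hH
    obtain ⟨r, hr⟩ := hP
    have hPB : P ∈ BU := ⟨r, hr.1⟩
    have hP0 : P ≠ [] := hr.2.1
    refine ⟨?_, ?_⟩
    · obtain ⟨x, hx⟩ := hL
      obtain ⟨y, hy⟩ := hR
      rw [hH] at n1
      have h3 := Brd_height (Brd_append hx (Brd_append hr.1 hy)) n1
      rw [hgt_eq hr.1]
      omega
    · refine two_of_cut ht hb hzl p1 q1 hlt.le ?_ ?_ hL hPB hR hP0 hH
      · omega
      · unfold RR
        omega

end POL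

end HexObs
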