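import Pool.Agent.POL.Bot
import Pool.Agent.POL.Defs2
import Pool.Agent.JNT.Dir
import Pool.Agent.JNT.Win
import Pool.Agent.SIM.CutSum

/-!
POL, U1: **the sum over the root**: closed words of N letters with a bridge H of height at least n1 (in some rotation); the
average over the N letters as starting point and over the pieces of H.
-/

set_option autoImplicit false

namespace HexObs

namespace POL

open Finset TS SDN NTW NTA SIM JNT

open scoped ENNReal Classical

/-- the pieces at the start of s -/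
noncomputable def gR (b0 : ℕ) (T : Set (List Bool)) (s : List Bool) : ℝ≥0∞ := ∑' P : List Bool, ∑' r : List Bool,
  (if (P ∈ IU ∧ hgt P ≤ 2 ^ b0 ∧ r ∈ T) ∧ P ++ r = s then (hgt P : ℝ≥0∞) else 0)

lemma rotate_app (X Y : List Bool) : (X ++ Y).rotate X.length = Y ++ X := by
  rw [List.rotate_append_length_eq]

/-- one closed word -/
lemma point_rot {n1 b0 : ℕ} {T : Set (List Bool)} {t : List Bool} (h : WinC n1 b0 T t) :
    (n1 : ℝ≥0∞) ≤ ∑ a ∈ range t.length, gR b0 T (t.rotate a) := by
  obtain ⟨X, H, Y, h1, he, hH, hn, hw⟩ := h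
  calc (n1 : ℝ≥0∞) ≤ (h1 : ℝ≥0∞) := by exact_mod_cast hn
    _ ≤ ∑' A : List Bool, ∑' P : List Bool, ∑' B : List Bool,
        (if A ∈ BU ∧ P ∈ IU ∧ B ∈ BU ∧ H = A ++ (P ++ B) then (hgt P : ℝ≥0∞) else 0) := CS.hsum h1 H hH
    _ ≤ ∑' A : List Bool, ∑ a ∈ range t.length,
        (if A = H.take (a - X.length) ∧ A.length = a - X.length ∧ X.length ≤ a then gR b0 T (t.rotate a) else 0) := by
        refine ENNReal.tsum_le_tsum fun A => ?_
        by_cases hA : A ∈ BU ∧ ∃ P ∈ IU, ∃ B ∈ BU, H = A ++ (P ++ B)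
        · obtain ⟨hAU, P0, hP0, B0, hB0, e0⟩ := hA
          have hP0' : 0 < P0.length := List.length_pos_iff.2 (iu_ne hP0)
          have hlen : X.length + A.length < t.length := by
            rw [he, e0]
            simp only [List.length_append]
            omega
          refine le_trans ?_ (Finset.single_le_sum (f := fun a => if A = H.take (a - X.length) ∧
            A.length = a - X.length ∧ X.length ≤ a then gR b0 T (t.rotate a) else 0) (fun _ _ => zero_le)
            (Finset.mem_range.2 hlen))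
          have htake : A = H.take (X.length + A.length - X.length) := by
            rw [Nat.add_sub_cancel_left, e0, List.take_left]
          rw [if_pos ⟨htake, (Nat.add_sub_cancel_left _ _).symm, Nat.le_add_right _ _⟩]
          unfold gR
          refine ENNReal.tsum_le_tsum fun P => ?_
          refine le_trans ?_ (ENNReal.tsum_comp_le_tsum_of_injective (f := fun B : List Bool => B ++ (Y ++ (X ++ A)))
            (fun a b hab => List.append_cancel_right hab) _)
          refine ENNReal.tsum_le_tsum fun B => ?_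
          by_cases hc : A ∈ BU ∧ P ∈ IU ∧ B ∈ BU ∧ H = A ++ (P ++ B)
          · obtain ⟨c1, c2, c3, c4⟩ := hc
            obtain ⟨d1, d2⟩ := hw A P B c1 c3 c2 c4
            rw [if_pos ⟨c1, c2, c3, c4⟩, if_pos]
            refine ⟨⟨c2, d1, d2⟩, ?_⟩
            have e2 : t = (X ++ A) ++ (P ++ (B ++ Y)) := by
              rw [he, c4]
              simp only [List.append_assoc]
            have e3 : X.length + A.length = (X ++ A).length := List.length_append.symm
            rw [e2, e3, rotate_app]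
            simp only [List.append_assoc]
          · rw [if_neg hc]
            exact zero_le
        · refine le_trans (le_of_eq (ENNReal.tsum_eq_zero.2 fun P => ENNReal.tsum_eq_zero.2 fun B => if_neg ?_)) zero_le
          rintro ⟨c1, c2, c3, c4⟩
          exact hA ⟨c1, P, c2, B, c3, c4⟩
    _ = ∑ a ∈ range t.length, ∑' A : List Bool,
        (if A = H.take (a - X.length) ∧ A.length = a - X.length ∧ X.length ≤ a then gR b0 T (t.rotate a) else 0) :=
        Summable.tsum_finsetSum fun _ _ => ENNReal.summable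
    _ ≤ _ := by
        refine Finset.sum_le_sum fun a _ => ?_
        rw [tsum_eq_single (H.take (a - X.length))]
        · split_ifs
          · exact le_rfl
          · exact zero_le
        · intro A hA
          rw [if_neg]
          rintro ⟨c1, -⟩
          exact hA c1

/-- the sum over all starting points does not depend on the rotation -/
lemma sum_rot {t : List Bool} (c : ℕ) (g : List Bool → ℝ≥0∞) :
    ∑ a ∈ range t.length, g ((t.rotate c).rotate a) ≤ ∑ a ∈ range t.length, g (t.rotate a) := by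
  rcases Nat.eq_zero_or_pos t.length with h0 | h0
  · rw [h0]
    simp
  have h1 : ∀ a, g ((t.rotate c).rotate a) = g (t.rotate ((c + a) % t.length)) := by
    intro a
    rw [List.rotate_rotate, List.rotate_mod]
  have hinj : Set.InjOn (fun a => (c + a) % t.length) (range t.length : Set ℕ) := by
    intro a ha b hb hab
    rw [Finset.mem_coe, Finset.mem_range] at ha hb
    have h2 : c + a ≡ c + b [MOD t.length] := hab
    have h3 := Nat.ModEq.add_left_cancel' c h2
    have h4 : a % t.length = b % t.length := h3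
    rwa [Nat.mod_eq_of_lt ha, Nat.mod_eq_of_lt hb] at h4
  calc ∑ a ∈ range t.length, g ((t.rotate c).rotate a)
      = ∑ a ∈ range t.length, (fun b => g (t.rotate b)) ((c + a) % t.length) := Finset.sum_congr rfl fun a _ => h1 a
    _ = ∑ b ∈ (range t.length).image (fun a => (c + a) % t.length), g (t.rotate b) :=
        (Finset.sum_image (f := fun b => g (t.rotate b)) hinj).symm
    _ ≤ _ := by
        refine Finset.sum_le_sum_of_subset ?_
        intro b hb
        rw [Finset.mem_image] at hb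
        obtain ⟨a, -, rfl⟩ := hb
        exact Finset.mem_range.2 (Nat.mod_lt _ h0)

lemma Cy.len {N : ℕ} {s : List Bool} (h : s ∈ Cy N) : s.length = N := h.1

lemma Cy.labN {N : ℕ} {s : List Bool} (h : s ∈ Cy N) : JNT.labN s = (N, oo) := by
  unfold JNT.labN
  rw [h.1, h.2.1]

/-- one rotation of all closed words -/
lemma shift_le {N : ℕ} (a : ℕ) (g : List Bool → ℝ≥0∞) :
    ∑' t : Cy N, wE t.1 * g (t.1.rotate a) ≤ ∑' s : Cy N, wE s.1 * g s.1 := by
  have h1 : ∀ t : Cy N, wE t.1 * g (t.1.rotate a) =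
      (fun s : Cy N => wE s.1 * g s.1) (⟨t.1.rotate a, Cy.rot t.2 a⟩ : Cy N) := by
    intro t
    have h2 : wE (t.1.rotate a) = wE t.1 := by
      unfold wE
      rw [List.length_rotate]
    show wE t.1 * g (t.1.rotate a) = wE (t.1.rotate a) * g (t.1.rotate a)
    rw [h2]
  simp only [h1]
  refine ENNReal.tsum_comp_le_tsum_of_injective (f := fun t : Cy N => (⟨t.1.rotate a, Cy.rot t.2 a⟩ : Cy N)) ?_ _
  intro t t' h
  have h2 : t.1.rotate a = t'.1.rotate a := congrArg Subtype.val h
  exact Subtype.ext (List.rotate_injective a h2)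

/-- the sum over the pieces at the start -/
lemma start_le {N b0 : ℕ} {T : Set (List Bool)} {x : ℝ≥0∞} (hx : ∀ a, gf {t | JNT.labN t = a ∧ t ∈ T} ≤ x) :
    ∑' s : Cy N, wE s.1 * gR b0 T s.1 ≤
      (∑' P : List Bool, (if P ∈ IU ∧ hgt P ≤ 2 ^ b0 then wE P * (hgt P : ℝ≥0∞) else 0)) * x := by
  have hP : ∀ P : List Bool, gf {r | r ∈ T ∧ P ++ r ∈ Cy N} ≤ x := by
    intro P
    by_cases hex : ∃ r0, r0 ∈ T ∧ P ++ r0 ∈ Cy N
    · obtain ⟨r0, h0, h1⟩ := hex
      refine (gf_mono fun r hr => ?_).trans (hx (JNT.labN r0))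
      refine ⟨labR_N P _ _ ?_, hr.1⟩
      rw [Cy.labN hr.2, Cy.labN h1]
    · have he : {r | r ∈ T ∧ P ++ r ∈ Cy N} = ∅ := by
        refine Set.eq_empty_of_forall_notMem fun r hr => hex ⟨r, hr.1, hr.2⟩
      rw [he]
      unfold gf
      simp
  have hg : ∀ P : List Bool, gf {r | r ∈ T ∧ P ++ r ∈ Cy N} =
      ∑' r : List Bool, (if r ∈ T ∧ P ++ r ∈ Cy N then wE r else 0) := by
    intro P
    unfold gf
    rw [_root_.tsum_subtype _ (fun t => wE t)]
    exact tsum_congr fun t => by rw [Set.indicator_apply]; rfl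
  unfold gR
  simp only [← ENNReal.tsum_mul_left]
  rw [ENNReal.tsum_comm, ← ENNReal.tsum_mul_right]
  refine ENNReal.tsum_le_tsum fun P => ?_
  by_cases hc : P ∈ IU ∧ hgt P ≤ 2 ^ b0
  · rw [if_pos hc]
    refine le_trans ?_ (mul_le_mul' le_rfl (hP P))
    rw [hg, ← ENNReal.tsum_mul_left, ENNReal.tsum_comm]
    refine ENNReal.tsum_le_tsum fun r => ?_
    by_cases hd : r ∈ T ∧ P ++ r ∈ Cy N
    · rw [if_pos hd, tsum_eq_single (⟨P ++ r, hd.2⟩ : Cy N)]
      · rw [if_pos ⟨⟨hc.1, hc.2, hd.1⟩, rfl⟩, wE_append]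
        refine le_of_eq ?_
        ring
      · intro s hs
        rw [if_neg, mul_zero]
        rintro ⟨-, h3⟩
        exact hs (Subtype.ext h3.symm)
    · refine le_of_eq_of_le (ENNReal.tsum_eq_zero.2 fun s => ?_) zero_le
      rw [if_neg, mul_zero]
      rintro ⟨h2, h3⟩
      exact hd ⟨h2.2.2, by rw [h3]; exact s.2⟩
  · rw [if_neg hc]
    refine le_of_eq_of_le (ENNReal.tsum_eq_zero.2 fun s => ENNReal.tsum_eq_zero.2 fun r => ?_) zero_le
    rw [if_neg, mul_zero]
    rintro ⟨h2, -⟩
    exact hc ⟨h2.1, h2.2.1⟩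

/-- **the sum over the root** -/
theorem root_le : ∃ K : ℝ, 1 ≤ K ∧ ∀ (N n1 b0 : ℕ) (T : Set (List Bool)) (x : ℝ≥0∞), 1 ≤ n1 →
    (∀ a, gf {t | JNT.labN t = a ∧ t ∈ T} ≤ x) →
    gf (RC N n1 b0 T) ≤ ENNReal.ofReal (K * (N * 2 ^ b0 / (n1 * Ub b0))) * x := by
  obtain ⟨K, hK, hP⟩ := piece_mass
  refine ⟨K, hK, fun N n1 b0 T x hn hx => ?_⟩
  have hU := Ub_pos b0
  have hn0 : (0 : ℝ) < n1 := by exact_mod_cast hn
  have h1 : (n1 : ℝ≥0∞) * gf (RC N n1 b0 T) ≤ (N : ℝ≥0∞) * (ENNReal.ofReal (K * 2 ^ b0 / Ub b0) * x) := by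
    calc (n1 : ℝ≥0∞) * gf (RC N n1 b0 T) = ∑' t : RC N n1 b0 T, wE t.1 * (n1 : ℝ≥0∞) := by
          unfold gf
          rw [ENNReal.tsum_mul_right, mul_comm]
      _ ≤ ∑' t : RC N n1 b0 T, wE t.1 * ∑ a ∈ range N, gR b0 T (t.1.rotate a) := by
          refine ENNReal.tsum_le_tsum fun t => mul_le_mul' le_rfl ?_
          obtain ⟨hC, X, Y, he, hw⟩ := t.2
          have h2 := point_rot hw
          have h3 : Y ++ X = t.1.rotate X.length := by rw [he, rotate_app]
          have h4 : (Y ++ X).length = t.1.length := by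
            rw [h3, List.length_rotate]
          rw [h4, h3] at h2
          have h5 := sum_rot (t := t.1) X.length (gR b0 T)
          rw [hC.1] at h2 h5
          exact h2.trans h5
      _ ≤ ∑' t : Cy N, wE t.1 * ∑ a ∈ range N, gR b0 T (t.1.rotate a) :=
          ENNReal.tsum_mono_subtype (fun t => wE t * ∑ a ∈ range N, gR b0 T (t.rotate a)) (fun t ht => ht.1)
      _ = ∑ a ∈ range N, ∑' t : Cy N, wE t.1 * gR b0 T (t.1.rotate a) := by
          simp only [Finset.mul_sum]
          exact Summable.tsum_finsetSum fun _ _ => ENNReal.summable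
      _ ≤ ∑ a ∈ range N, (ENNReal.ofReal (K * 2 ^ b0 / Ub b0) * x) := by
          refine Finset.sum_le_sum fun a _ => (shift_le a _).trans ((start_le hx).trans ?_)
          exact mul_le_mul' (hP b0) le_rfl
      _ = _ := by
          rw [Finset.sum_const, Finset.card_range, nsmul_eq_mul]
  have hn1 : (n1 : ℝ≥0∞) ≠ 0 := by exact_mod_cast (by omega : n1 ≠ 0)
  have hn2 : (n1 : ℝ≥0∞) ≠ ⊤ := ENNReal.natCast_ne_top n1
  have h4 : gf (RC N n1 b0 T) ≤ (n1 : ℝ≥0∞)⁻¹ * ((N : ℝ≥0∞) * (ENNReal.ofReal (K * 2 ^ b0 / Ub b0) * x)) := by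
    calc gf (RC N n1 b0 T) = (n1 : ℝ≥0∞)⁻¹ * ((n1 : ℝ≥0∞) * gf (RC N n1 b0 T)) := by
          rw [← mul_assoc, ENNReal.inv_mul_cancel hn1 hn2, one_mul]
      _ ≤ _ := mul_le_mul' le_rfl h1
  refine h4.trans (le_of_eq ?_)
  rw [← mul_assoc, ← mul_assoc, ← ENNReal.ofReal_natCast n1, ← ENNReal.ofReal_natCast N,
    ← ENNReal.ofReal_inv_of_pos hn0, ← ENNReal.ofReal_mul (by positivity), ← ENNReal.ofReal_mul (by positivity)]
  congr 2
  field_simp

end POL

end HexObs
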