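import Pool.Agent.POL.FinA
import Pool.Agent.TPC.AN
import Pool.Agent.TPC.XUp
import Pool.Agent.TPC.XLow

/-!
POL / FinC (helper32): the number of the self-avoiding polygons and the closing probability, no hypothesis.
-/

set_option autoImplicit false

namespace HexObs

namespace POL

theorem finC : ∃ c C : ℝ, 0 < c ∧ ∀ f : ℕ → Fin 3 → ℂ, MS.Hex f → ∀ n : ℕ, 9 ≤ n → ¬ Even n →
      (c * (n : ℝ) ^ (-(3 / 2) : ℝ) * POLP.mu ^ n ≤ ((PGX.Pol f n).card : ℝ) ∧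
        ((PGX.Pol f n).card : ℝ) ≤ C * (n : ℝ) ^ (-(3 / 2) : ℝ) * POLP.mu ^ n) ∧
      (c * (n : ℝ) ^ (-(59 / 32) : ℝ) ≤ ((PGX.Pol f n).card : ℝ) / ((MS.SW f n).card : ℝ) ∧
        ((PGX.Pol f n).card : ℝ) / ((MS.SW f n).card : ℝ) ≤ C * (n : ℝ) ^ (-(59 / 32) : ℝ)) :=
  finA_of (TPC.an_const TPC.xUp TPC.xLow)

end POL

end HexObs

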