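import Pool.Agent.POL.L3

/-!
POL, row L3: the sum over the marked closed words from below (helper51).
-/

set_option autoImplicit false

namespace HexObs

namespace POL

open Finset TS SDN NTA JNT RP

open scoped ENNReal

open scoped Classical in
lemma gfi (S : Set (List Bool)) : gf S = ∑' t : List Bool, (if t ∈ S then wE t else 0) := by
  unfold gf
  rw [tsum_subtype S (fun t => wE t)]
  refine tsum_congr fun t => ?_
  by_cases h : t ∈ S
  · rw [Set.indicator_of_mem h, if_pos h]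
  · rw [Set.indicator_of_notMem h, if_neg h]

open scoped Classical in
/-- the sum over the five parts -/
noncomputable def SG (G : List Bool → List Bool → List Bool → List Bool → List Bool → Prop) : ℝ≥0∞ :=
  ∑' Z' : List Bool, ∑' X : List Bool, ∑' D : List Bool, ∑' Y : List Bool, ∑' Z : List Bool,
    (if G Z' X D Y Z then wE Z' * wE X * wE D * wE Y * wE Z else 0)

open scoped Classical in
/-- product lower bound -/
lemma sg_ge {G : List Bool → List Bool → List Bool → List Bool → List Bool → Prop} {S1 S2 S3 S4 : Set (List Bool)} {q : ℝ≥0∞}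
    (Q : List Bool → List Bool → List Bool → List Bool → Set (List Bool))
    (hG : ∀ Z' ∈ S1, ∀ X ∈ S2, ∀ D ∈ S3, ∀ Y ∈ S4, ∀ Z ∈ Q Z' X D Y, G Z' X D Y Z)
    (hq : ∀ Z' ∈ S1, ∀ X ∈ S2, ∀ D ∈ S3, ∀ Y ∈ S4, q ≤ gf (Q Z' X D Y)) :
    gf S1 * (gf S2 * (gf S3 * (gf S4 * q))) ≤ SG G := by
  have h1 : gf S1 * (gf S2 * (gf S3 * (gf S4 * q))) = ∑' Z' : List Bool, ∑' X : List Bool, ∑' D : List Bool, ∑' Y : List Bool,
      (if Z' ∈ S1 then wE Z' else 0) * ((if X ∈ S2 then wE X else 0) * ((if D ∈ S3 then wE D else 0) *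
        ((if Y ∈ S4 then wE Y else 0) * q))) := by
    simp only [ENNReal.tsum_mul_left, ENNReal.tsum_mul_right, ← gfi]
  rw [h1]
  unfold SG
  refine ENNReal.tsum_le_tsum fun Z' => ENNReal.tsum_le_tsum fun X => ENNReal.tsum_le_tsum fun D =>
    ENNReal.tsum_le_tsum fun Y => ?_
  by_cases c1 : Z' ∈ S1
  · by_cases c2 : X ∈ S2
    · by_cases c3 : D ∈ S3
      · by_cases c4 : Y ∈ S4
        · rw [if_pos c1, if_pos c2, if_pos c3, if_pos c4]
          calc wE Z' * (wE X * (wE D * (wE Y * q))) ≤ wE Z' * (wE X * (wE D * (wE Y * gf (Q Z' X D Y)))) := by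
                gcongr
                exact hq Z' c1 X c2 D c3 Y c4
            _ = ∑' Z : List Bool, wE Z' * wE X * wE D * wE Y * (if Z ∈ Q Z' X D Y then wE Z else 0) := by
                rw [ENNReal.tsum_mul_left, ← gfi]
                ring
            _ ≤ _ := by
                refine ENNReal.tsum_le_tsum fun Z => ?_
                by_cases c5 : Z ∈ Q Z' X D Y
                · rw [if_pos c5, if_pos (hG Z' c1 X c2 D c3 Y c4 Z c5)]
                · rw [if_neg c5, mul_zero]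
                  exact zero_le
        · rw [if_neg c4]
          simp
      · rw [if_neg c3]
        simp
    · rw [if_neg c2]
      simp
  · rw [if_neg c1]
    simp

/-- the lengths of four parts -/
lemma four_len {m : ℕ → ℝ} {k i d h1 h3 N : ℕ} {v δ L : ℝ} (hL : L * m i ≤ 1 / 8 * m k) (hN : m k ≤ N) (hmk : 0 < m k)
    {Z' X D Y : List Bool} (h1' : Z' ∈ TD m k h1 (1 / 8) v) (h2 : X ∈ AT m i d δ L) (h3' : D ∈ TD m k h3 (1 / 8) v)
    (h4 : Y ∈ AT m i d δ L) : Z'.length + X.length + D.length + Y.length ≤ N ∧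
      1 / 2 * m k ≤ ((N - (Z'.length + X.length + D.length + Y.length) : ℕ) : ℝ) := by
  have a1 := h1'.2.2.2.2
  have a3 := h3'.2.2.2.2
  obtain ⟨_, _, _, _, a2⟩ := h2
  obtain ⟨_, _, _, _, a4⟩ := h4
  have h5 : ((Z'.length + X.length + D.length + Y.length : ℕ) : ℝ) ≤ 1 / 2 * m k := by
    push_cast
    linarith
  have h6 : Z'.length + X.length + D.length + Y.length ≤ N := by
    have : ((Z'.length + X.length + D.length + Y.length : ℕ) : ℝ) ≤ N := by linarith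
    exact_mod_cast this
  refine ⟨h6, ?_⟩
  rw [Nat.cast_sub h6]
  linarith

/-- the weight of the short narrow bridges with the property P -/
def TDP (m : ℕ → ℝ) (P : ℝ → ℕ → List Bool → Prop) : Prop := ∀ (H : ℕ) (e v : ℝ), 0 < e → 0 < v →
  ∃ (c κ : ℝ) (k0 : ℕ), 0 < c ∧ 0 < κ ∧ ∀ k h : ℕ, k0 ≤ k → 2 ^ (k + 3) ≤ h → h ≤ H * 2 ^ k →
    ENNReal.ofReal (c * Ub k) ≤ gf {D | D ∈ TD m k h e v ∧ P κ k D}

/-- **row L3 with a property of the first part**: the marked closed words with N letters -/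
theorem l3P {m : ℕ → ℝ} {P : ℝ → ℕ → List Bool → Prop} (hm : MLow m) (hT : TDW m) (hP : TDP m P) (hN : LowNar m) {η L C : ℝ} (hη : 0 < η) (hL : 0 < L) (hC : 0 < C)
    (harc : ∀ δ : ℝ, 0 < δ → ∃ (c : ℝ) (i0 : ℕ), 0 < c ∧ ∀ i : ℕ, i0 ≤ i → ∃ d : ℕ, η * 2 ^ i ≤ d ∧
      ENNReal.ofReal (c * (2 : ℝ) ^ (-((i : ℝ) / 4))) ≤ gf (AT m i d δ L)) {A : ℝ} (hA : 1 ≤ A) :
    ∃ (σ κ : ℝ) (j s k0 : ℕ), 0 < σ ∧ 0 < κ ∧ j + 6 ≤ k0 ∧ 3 ≤ s ∧ ∀ k N : ℕ, k0 ≤ k → N % 2 = 0 → m k ≤ N →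
      (N : ℝ) ≤ A * m k → ∃ (d : ℕ) (G : List Bool → List Bool → List Bool → List Bool → List Bool → Prop),
        (∀ Z' X D Y Z, G Z' X D Y Z → (Tup (AT m (k - j) d (η / 80) L) (k + s) Z' X D Y Z ∧
          Z' ++ (X ++ (D ++ (Y ++ Z))) ∈ Cy N) ∧ P κ k Z' ∧ 1 / 2 * m k ≤ Z.length) ∧
        ENNReal.ofReal (σ * ((C * (2 : ℝ) ^ (-(((k - j : ℕ) : ℝ) / 4))) ^ 2 * Ub (k + s) *
          (Ub (k + s) ^ 2 / (4 ^ (k + s) * m (k + s))))) ≤ SG G := by
  -- the scale of the arcs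
  obtain ⟨j, hj, hj2⟩ : ∃ j : ℕ, 8 * L ≤ (2 : ℝ) ^ j ∧ η ≤ 40 * 2 ^ j := by
    obtain ⟨j, hj⟩ := pow_unbounded_of_one_lt (8 * L + η) (by norm_num : (1 : ℝ) < 2)
    exact ⟨j, by linarith, by linarith⟩
  obtain ⟨w, hw⟩ : ∃ w : ℝ, w = η / (20 * 2 ^ j) := ⟨_, rfl⟩
  have hpj : (0 : ℝ) < 2 ^ j := by positivity
  have hw0 : 0 < w := by rw [hw]; positivity
  have hw2 : w ≤ 2 := by
    rw [hw, div_le_iff₀ (by positivity)]
    linarith
  obtain ⟨H0, hH⟩ := hN w (1 / 2) A hw0 (by norm_num) (by linarith)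
  obtain ⟨s, hs3, hsH⟩ : ∃ s : ℕ, 3 ≤ s ∧ H0 ≤ 2 ^ s := ⟨H0 + 3, by omega, by
    have : H0 + 3 < 2 ^ (H0 + 3) := Nat.lt_two_pow_self
    omega⟩
  obtain ⟨c5, k5, hc5, h5⟩ := hH (2 ^ s) hsH
  obtain ⟨v, hv⟩ : ∃ v : ℝ, v = w / 4 := ⟨_, rfl⟩
  have hv0 : 0 < v := by rw [hv]; positivity
  have hv1 : v ≤ 1 / 2 := by rw [hv]; linarith
  obtain ⟨c1, k1, hc1, h1⟩ := hT (3 * 2 ^ s) (1 / 8) v (by norm_num) hv0
  obtain ⟨cP, κ, kP, hcP, hκ, hP1⟩ := hP (3 * 2 ^ s) (1 / 8) v (by norm_num) hv0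
  obtain ⟨ca, i0, hca, h2⟩ := harc (η / 80) (by positivity)
  refine ⟨cP * c1 * ca ^ 2 * c5 / (C ^ 2 * 8 ^ s), κ, j, s, max (max k1 k5) (max kP (i0 + j + 6)), by positivity, hκ,
    le_trans (by omega) ((le_max_right _ _).trans (le_max_right _ _)), hs3, fun k N hk hev hN1 hN2 => ?_⟩
  have hk1 : k1 ≤ k := (le_max_left _ _).trans ((le_max_left _ _).trans hk)
  have hk5 : k5 ≤ k := (le_max_right _ _).trans ((le_max_left _ _).trans hk)
  have hkP : kP ≤ k := (le_max_left _ _).trans ((le_max_right _ _).trans hk)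
  have hk6 : i0 + j + 6 ≤ k := (le_max_right _ _).trans ((le_max_right _ _).trans hk)
  obtain ⟨i, hi⟩ : ∃ i, i = k - j := ⟨_, rfl⟩
  have hki : k = i + j := by omega
  obtain ⟨d, hd1, hd2⟩ := h2 i (by omega)
  rw [← hi]
  have hmk := hm.pos k
  have hUk := Ub_pos k
  have hpk : (0 : ℝ) < 2 ^ k := by positivity
  have hwi : 20 * w * 2 ^ k = η * 2 ^ i := by
    rw [hw, hki, pow_add]
    field_simp
  have hLm : L * m i ≤ 1 / 8 * m k := by
    have h3 := hm.low i j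
    rw [← hki] at h3
    have h4 : (2 : ℝ) ^ j ≤ (2 : ℝ) ^ (5 / 4 * (j : ℝ)) := by
      rw [← Real.rpow_natCast]
      refine Real.rpow_le_rpow_of_exponent_le (by norm_num) ?_
      have : (0 : ℝ) ≤ j := Nat.cast_nonneg j
      linarith
    have hmi := hm.pos i
    have h5 : 8 * L * m i ≤ m k := (mul_le_mul_of_nonneg_right (hj.trans h4) hmi.le).trans h3
    linarith
  obtain ⟨q', hq'⟩ : ∃ q' : ℕ, q' = 2 ^ (k + s - 1) := ⟨_, rfl⟩
  have hq1 : 2 ^ (k + s) = 2 * q' := by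
    rw [hq', ← pow_succ']
    congr 1
    omega
  have hq2 : 2 ^ (k + s + 1) = 4 * q' := by
    rw [pow_succ, hq1]
    ring
  have hsk : 2 ^ s * 2 ^ k = 2 * q' := by rw [← hq1, pow_add]; ring
  have hsm : v * 2 ^ k ≤ q' := by
    have h1 : (2 : ℝ) ^ k ≤ 2 * q' := by
      have h2 : (2 : ℕ) ^ k ≤ 2 ^ (k + s) := Nat.pow_le_pow_right (by norm_num) (by omega)
      rw [hq1] at h2
      exact_mod_cast h2
    nlinarith
  obtain ⟨AA, hAA⟩ : ∃ AA, AA = AT m i d (η / 80) L := ⟨_, rfl⟩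
  obtain ⟨S1, hS1⟩ : ∃ S1 : Set (List Bool), S1 = {D | D ∈ TD m k (2 ^ (k + s)) (1 / 8) v ∧ P κ k D} := ⟨_, rfl⟩
  obtain ⟨S3, hS3⟩ : ∃ S3, S3 = TD m k (2 ^ (k + s + 1) + 2 ^ (k + s - 1)) (1 / 8) v := ⟨_, rfl⟩
  have g1 : ENNReal.ofReal (cP * Ub k) ≤ gf S1 := by
    rw [hS1]
    refine hP1 k _ hkP (Nat.pow_le_pow_right (by norm_num) (by omega)) ?_
    rw [hq1, mul_assoc, hsk]
    omega
  have g3 : ENNReal.ofReal (c1 * Ub k) ≤ gf S3 := by
    rw [hS3]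
    refine h1 k _ hk1 ?_
    rw [hq2, ← hq', mul_assoc, hsk]
    omega
  rw [← hAA] at hd2
  refine ⟨d, fun Z' X D Y Z => G5 m AA k (2 ^ (k + s)) (2 ^ (k + s + 1) + 2 ^ (k + s - 1)) (1 / 8) v w N Z' X D Y Z ∧ P κ k Z',
    ?_, ?_⟩
  · rintro Z' X D Y Z ⟨hG, hGP⟩
    rw [hAA] at hG
    refine ⟨g5_cy (by omega) hw0 hη hv hv1 rfl hwi hd1 (by omega) (fun Z' X D Y b1 b2 b3 b4 =>
      (four_len hLm hN1 hmk b1 b2 b3 b4).1) hG, hGP, ?_⟩
    obtain ⟨b1, b2, b3, b4, -, b5, -⟩ := hG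
    rw [b5]
    exact (four_len hLm hN1 hmk b1 b2 b3 b4).2
  · have hsum := sg_ge (G := fun Z' X D Y Z => G5 m AA k (2 ^ (k + s)) (2 ^ (k + s + 1) + 2 ^ (k + s - 1)) (1 / 8) v w N
      Z' X D Y Z ∧ P κ k Z') (S1 := S1) (S2 := AA)
      (S3 := S3) (S4 := AA) (q := ENNReal.ofReal (c5 * (Ub k / (4 ^ k * m k))))
      (fun Z' X D Y => {Z | Z ∈ EndB (hgt D - hgt Z') (latE D + latE Y - latE X - latE Z') ∧
        Z.length = N - (Z'.length + X.length + D.length + Y.length) ∧ ∀ i, i ≤ Z.length → |(lat Z i : ℝ)| ≤ 20 * w * 2 ^ k})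
      ?_ ?_
    · refine le_trans ?_ hsum
      refine le_trans ?_ (mul_le_mul' g1 (mul_le_mul' hd2 (mul_le_mul' g3 (mul_le_mul' hd2 le_rfl))))
      obtain ⟨p, hp⟩ : ∃ p : ℝ, p = (2 : ℝ) ^ (-((i : ℝ) / 4)) := ⟨_, rfl⟩
      have hp0 : 0 < p := by rw [hp]; positivity
      rw [← hp, ← ENNReal.ofReal_mul (by positivity), ← ENNReal.ofReal_mul (by positivity),
        ← ENNReal.ofReal_mul (by positivity), ← ENNReal.ofReal_mul (by positivity)]
      apply ENNReal.ofReal_le_ofReal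
      have u1 := Ub_iter k s
      have u2 : (4 : ℝ) ^ k * m k ≤ 4 ^ (k + s) * m (k + s) := by
        have h3 := hm.low k s
        have h4 : (1 : ℝ) ≤ (2 : ℝ) ^ (5 / 4 * (s : ℝ)) := Real.one_le_rpow (by norm_num) (by positivity)
        have h5 : m k ≤ m (k + s) := by nlinarith
        exact mul_le_mul (pow_le_pow_right₀ (by norm_num) (by omega)) h5 hmk.le (by positivity)
      have u0 := Ub_pos (k + s)
      have u3 : Ub (k + s) ^ 2 / (4 ^ (k + s) * m (k + s)) ≤ (2 ^ s * Ub k) ^ 2 / (4 ^ k * m k) := by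
        refine div_le_div₀ (by positivity) (pow_le_pow_left₀ u0.le u1 2) (by positivity) u2
      have e8 : (8 : ℝ) ^ s = 2 ^ s * (2 ^ s) ^ 2 := by
        rw [← pow_mul, ← pow_add, show (8 : ℝ) = 2 ^ 3 by norm_num, ← pow_mul]
        congr 1
        ring
      have h8 : (0 : ℝ) < 2 ^ s := by positivity
      have hmks := hm.pos (k + s)
      calc cP * c1 * ca ^ 2 * c5 / (C ^ 2 * 8 ^ s) * ((C * p) ^ 2 * Ub (k + s) * (Ub (k + s) ^ 2 / (4 ^ (k + s) * m (k + s))))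
          ≤ cP * c1 * ca ^ 2 * c5 / (C ^ 2 * 8 ^ s) * ((C * p) ^ 2 * (2 ^ s * Ub k) * ((2 ^ s * Ub k) ^ 2 / (4 ^ k * m k))) := by
            gcongr
        _ = cP * Ub k * (ca * p * (c1 * Ub k * (ca * p * (c5 * (Ub k / (4 ^ k * m k)))))) := by
            rw [e8]
            field_simp
    · intro Z' z1 X x1 D d1 Y y1 Z hZ
      rw [hS1] at z1
      rw [hS3] at d1
      exact ⟨⟨z1.1, x1, d1, y1, hZ.1, hZ.2.1, hZ.2.2⟩, z1.2⟩
    · intro Z' z1 X x1 D d1 Y y1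
      rw [hS1] at z1
      replace z1 := z1.1
      rw [hS3] at d1
      rw [hAA] at x1 y1
      obtain ⟨l1, l2⟩ := four_len hLm hN1 hmk z1 x1 d1 y1
      rw [hq1] at z1
      rw [hq2, ← hq'] at d1
      obtain ⟨zb, z2, z3, z4, z5⟩ := z1
      obtain ⟨db, d2, d3, d4, d5⟩ := d1
      have hBZ := BUb zb
      have hBD := BUb db
      have hAX := at_ark x1
      have hAY := at_ark y1
      obtain ⟨a, ha1, ha2, ha3, ha4⟩ := x1
      obtain ⟨b, hb1, hb2, hb3, hb4⟩ := y1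
      have la := foot_lat ha3.1
      have lb := foot_lat hb3.1
      have hz3 : hgt Z' ≤ 3 * q' := by
        have h1 : (hgt Z' : ℝ) ≤ ((2 * q' : ℕ) : ℝ) + q' := by linarith
        have h2 : hgt Z' ≤ 2 * q' + q' := by exact_mod_cast h1
        omega
      have hd3 : hgt D ≤ 6 * q' := by
        have h1 : (hgt D : ℝ) ≤ ((4 * q' + q' : ℕ) : ℝ) + q' := by linarith
        have h2 : hgt D ≤ 4 * q' + q' + q' := by exact_mod_cast h1
        omega
      have p1 := LocalT.par_end hBZ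
      have p3 := LocalT.par_end hBD
      have o1 := ev_len hBZ
      have o3 := ev_len hBD
      have o2 := od_len hAX
      have o4 := od_len hAY
      refine h5 k _ _ _ hk5 ?_ ?_ ?_ ?_ ?_ l2 ?_
      · rw [hsk]
        omega
      · rw [hsk]
        omega
      · rw [la, lb, Int.even_iff]
        have : ((hgt D - hgt Z' : ℕ) : ℤ) = hgt D - hgt Z' := by
          rw [Nat.cast_sub (by omega)]
        rw [this]
        omega
      · rw [la, lb]
        have b1 := z4 Z'.length le_rfl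
        have b3 := d4 D.length le_rfl
        have h1 : (a : ℝ) - b ≤ η / 80 * 2 ^ i := by
          have : (d : ℝ) ≤ b := by exact_mod_cast hb1
          linarith
        have h2 : (b : ℝ) - a ≤ η / 80 * 2 ^ i := by
          have : (d : ℝ) ≤ a := by exact_mod_cast ha1
          linarith
        have h3 : η / 80 * 2 ^ i = w * 2 ^ k / 4 := by
          have : η / 80 * 2 ^ i = η * 2 ^ i / 80 := by ring
          rw [this, ← hwi]
          ring
        rw [h3] at h1 h2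
        rw [hv] at b1 b3
        rw [abs_le] at b1 b3 ⊢
        unfold latE
        push_cast
        constructor
        · linarith
        · linarith
      · rw [Nat.even_iff]
        omega
      · refine le_trans ?_ hN2
        exact_mod_cast Nat.sub_le _ _

/-- **row L3**: the marked closed words with N letters -/
theorem l3 {m : ℕ → ℝ} (hm : MLow m) (hT : TDW m) (hN : LowNar m) {η L C : ℝ} (hη : 0 < η) (hL : 0 < L) (hC : 0 < C)
    (harc : ∀ δ : ℝ, 0 < δ → ∃ (c : ℝ) (i0 : ℕ), 0 < c ∧ ∀ i : ℕ, i0 ≤ i → ∃ d : ℕ, η * 2 ^ i ≤ d ∧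
      ENNReal.ofReal (c * (2 : ℝ) ^ (-((i : ℝ) / 4))) ≤ gf (AT m i d δ L)) {A : ℝ} (hA : 1 ≤ A) :
    ∃ (σ : ℝ) (j s k0 : ℕ), 0 < σ ∧ j + 6 ≤ k0 ∧ 3 ≤ s ∧ ∀ k N : ℕ, k0 ≤ k → N % 2 = 0 → m k ≤ N → (N : ℝ) ≤ A * m k →
      ∃ (d : ℕ) (G : List Bool → List Bool → List Bool → List Bool → List Bool → Prop),
        (∀ Z' X D Y Z, G Z' X D Y Z → Tup (AT m (k - j) d (η / 80) L) (k + s) Z' X D Y Z ∧
          Z' ++ (X ++ (D ++ (Y ++ Z))) ∈ Cy N) ∧
        ENNReal.ofReal (σ * ((C * (2 : ℝ) ^ (-(((k - j : ℕ) : ℝ) / 4))) ^ 2 * Ub (k + s) *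
          (Ub (k + s) ^ 2 / (4 ^ (k + s) * m (k + s))))) ≤ SG G := by
  have hP : TDP m (fun _ _ _ => True) := by
    intro H e v he hv
    obtain ⟨c, k0, hc, h⟩ := hT H e v he hv
    refine ⟨c, 1, k0, hc, one_pos, fun k h' hk _ hH => ?_⟩
    refine (h k h' hk hH).trans (gf_mono fun D hD => ?_)
    exact ⟨hD, trivial⟩
  obtain ⟨σ, κ, j, s, k0, hσ, -, hj, hs, h⟩ := l3P hm hT hP hN hη hL hC harc hA
  refine ⟨σ, j, s, k0, hσ, hj, hs, fun k N h1 h2 h3 h4 => ?_⟩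
  obtain ⟨d, G, g1, g2⟩ := h k N h1 h2 h3 h4
  exact ⟨d, G, fun Z' X D Y Z hG => (g1 Z' X D Y Z hG).1, g2⟩

end POL

end HexObs
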