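import Pool.Agent.JNT.Defs
import Pool.Agent.RSWP.DefsL

/-!
POL: the literal of the closing words (row L2). A closing word goes up (B), turns over an arc (X), goes down (D), turns over
an arc (Y) and goes up (A); T is the scale of A, B and the arcs, u the half width of the tubes.
-/

set_option autoImplicit false

namespace HexObs

namespace POL

open Finset TS

open scoped ENNReal

open Classical in
/-- the number of cuts of a bridge -/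
noncomputable def nct (g : List Bool) : ℕ := ((range (g.length + 1)).filter fun j => g.take j ∈ BU ∧ g.drop j ∈ BU).card

/-- the five parts of a closing word -/
structure CloP (m : ℕ → ℝ) (k T H : ℕ) (e u K : ℝ) (B X D Y A : List Bool) : Prop where
  bB : B ∈ BU
  bD : D ∈ BU
  bA : A ∈ BU
  hB : 4 * T ≤ hgt B ∧ hgt B ≤ 5 * T
  hA : 4 * T ≤ hgt A ∧ hgt A ≤ 5 * T
  hD : H * 2 ^ k + hgt A + hgt B ≤ hgt D ∧ hgt D ≤ (H + 1) * 2 ^ k + hgt A + hgt B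
  tB : ∀ i, i ≤ B.length → |(lat B i : ℝ)| ≤ u
  tD : ∀ i, i ≤ D.length → |(lat D i : ℝ)| ≤ u
  tA : ∀ i, i ≤ A.length → |(lat A i : ℝ)| ≤ u
  arcs : ∃ a b : ℕ, X ∈ Arc (St (2 * T)) ∅ oo up (foot oo up a) ∧ Y ∈ Arc (St (2 * T)) ∅ oo up (foot oo up b) ∧
    40 * u ≤ a ∧ |(2 : ℝ) * a - 2 * b| ≤ u
  len : (B.length + X.length + D.length + Y.length + A.length : ℝ) ≤ e * m k
  cB : (nct B : ℝ) ≤ K * Ub k
  cA : (nct A : ℝ) ≤ K * Ub k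

/-- the closing words -/
def Rk (m : ℕ → ℝ) (k T H : ℕ) (e u K : ℝ) : Set (List Bool) :=
  {R | ∃ B X D Y A, CloP m k T H e u K B X D Y A ∧ R = B ++ (X ++ (D ++ (Y ++ A)))}

/-- row L2: the weight of the closing words -/
def CloW (m : ℕ → ℝ) : Prop := ∀ e : ℝ, 0 < e → ∃ (j : ℕ) (w : ℝ), 0 < w ∧ ∀ H : ℕ, 1 ≤ H →
  ∃ (c K : ℝ) (k0 : ℕ), 0 < c ∧ 0 < K ∧ j ≤ k0 ∧ ∀ k : ℕ, k0 ≤ k →
    ENNReal.ofReal (c * Ub k) ≤ gf (Rk m k (2 ^ (k - j)) H e (w * 2 ^ k) K)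

/-- short narrow bridges of height h up to h + v 2 ^ k -/
def TD (m : ℕ → ℝ) (k h : ℕ) (e v : ℝ) : Set (List Bool) :=
  {D | D ∈ BU ∧ h ≤ hgt D ∧ (hgt D : ℝ) ≤ h + v * 2 ^ k ∧ (∀ i, i ≤ D.length → |(lat D i : ℝ)| ≤ v * 2 ^ k) ∧
    (D.length : ℝ) ≤ e * m k}

/-- the weight of the short narrow bridges -/
def TDW (m : ℕ → ℝ) : Prop := ∀ (H : ℕ) (e v : ℝ), 0 < e → 0 < v → ∃ (c : ℝ) (k0 : ℕ), 0 < c ∧ ∀ k h : ℕ, k0 ≤ k →
  h ≤ H * 2 ^ k → ENNReal.ofReal (c * Ub k) ≤ gf (TD m k h e v)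

end POL

end HexObs
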