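import Pool.Agent.PGX.Tail
import Pool.Agent.CovL.Words

/-!
POL / Pub (helper32): the closed turn words and the public polygons (`PGX.Pol`): a bijection up to the first
direction, with all the distances.
-/

set_option autoImplicit false

open Finset ENNReal

namespace HexObs.POLP

open HexObs HexObs.PHWDict

/-- closed turn words with `N` letters (literal of 94's `Cy`) -/
def PCy (N : ℕ) : Set (List Bool) :=
  {t | t.length = N ∧ vx oo up t N = oo ∧ dx up t N = up ∧
    ∀ i j, i < N → j < N → vx oo up t i = vx oo up t j → i = j}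

/-- words with `n - 1` letters, distinct vertices `0, ..., n`, the last one at distance one from the first one -/
def AC (n : ℕ) : Set (List Bool) := {t | t ∈ AA n ∧ nrm (vx oo up t n) = 1}

/-- the classes modulo 3 of the vertices and of the directions -/
lemma par_class (t : List Bool) (i : ℕ) :
    ((vx oo up t i).1 - (vx oo up t i).2) % 3 = (if Even i then 0 else 2) ∧
      ((dx up t i).1 - (dx up t i).2) % 3 = (if Even i then 2 else 1) := by
  induction i with
  | zero =>
    rw [if_pos Even.zero, if_pos Even.zero]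
    exact ⟨rfl, rfl⟩
  | succ i ih =>
    obtain ⟨h1, h2⟩ := ih
    have e1 : vx oo up t (i + 1) = vx oo up t i + dx up t i := rfl
    have e2 : dx up t (i + 1) = turn (tf t i) (dx up t i) := rfl
    rw [e1, e2]
    constructor
    · rw [Prod.fst_add, Prod.snd_add]
      by_cases hi : Even i
      · rw [if_pos hi] at h1 h2
        rw [if_neg (by rw [Nat.even_add_one]; exact not_not.2 hi)]
        omega
      · rw [if_neg hi] at h1 h2
        rw [if_pos (by rw [Nat.even_add_one]; exact hi)]
        omega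
    · by_cases hi : Even i
      · rw [if_pos hi] at h2
        rw [if_neg (by rw [Nat.even_add_one]; exact not_not.2 hi)]
        cases tf t i <;> simp only [turn, rotL, rotR, if_true, if_false, Bool.false_eq_true] <;> omega
      · rw [if_neg hi] at h2
        rw [if_pos (by rw [Nat.even_add_one]; exact hi)]
        cases tf t i <;> simp only [turn, rotL, rotR, if_true, if_false, Bool.false_eq_true] <;> omega

lemma turn_class : ∀ g ∈ dirs, ∀ e ∈ dirs, (g.1 - g.2) % 3 = 2 → (e.1 - e.2) % 3 = 1 → g + e ≠ 0 →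
    e = rotL g ∨ e = rotR g := by decide

lemma turn_class' : ∀ g ∈ dirs, ∀ e ∈ dirs, (g.1 - g.2) % 3 = 1 → (e.1 - e.2) % 3 = 2 → g + e ≠ 0 →
    e = rotL g ∨ e = rotR g := by decide

lemma rot_ne : ∀ g ∈ dirs, rotR g ≠ rotL g := by decide

/-- the letter of a turn -/
lemma letter {g e : Pt} (h : e = rotL g ∨ e = rotR g) : turn (decide (e = rotL g)) g = e :=
  HexMu.turn_decide h

/-- the closing letters -/
def clo (t : List Bool) : List Bool :=
  t ++ [decide (-(vx oo up t (t.length + 1)) = rotL (dx up t t.length)),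
    decide (up = rotL (-(vx oo up t (t.length + 1))))]

lemma clo_length (t : List Bool) : (clo t).length = t.length + 2 := by
  unfold clo
  rw [List.length_append]
  rfl

lemma tf_clo0 (t : List Bool) : tf (clo t) t.length =
    decide (-(vx oo up t (t.length + 1)) = rotL (dx up t t.length)) := by
  unfold clo
  have := tf_append_right (t := t) (s := [decide (-(vx oo up t (t.length + 1)) = rotL (dx up t t.length)),
    decide (up = rotL (-(vx oo up t (t.length + 1))))]) 0
  rw [add_zero] at this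
  rw [this]
  rfl

lemma tf_clo1 (t : List Bool) : tf (clo t) (t.length + 1) =
    decide (up = rotL (-(vx oo up t (t.length + 1)))) := by
  unfold clo
  rw [tf_append_right (t := t) 1]
  rfl

lemma clo_mem {n : ℕ} (hn : 3 ≤ n) (ho : ¬ Even n) {t : List Bool} (ht : t ∈ AC n) : clo t ∈ PCy (n + 1) := by
  obtain ⟨⟨h1, h2⟩, h3⟩ := ht
  have hl : t.length + 1 = n := h1
  have hup : up ∈ dirs := by decide
  obtain ⟨c1, c2⟩ := par_class t n
  obtain ⟨d1, d2⟩ := par_class t t.length
  have hev : Even t.length := by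
    rw [← hl, Nat.even_add_one] at ho
    exact not_not.1 ho
  rw [if_neg ho] at c1
  rw [if_pos hev] at d2
  have hv : vx oo up t n = vx oo up t t.length + dx up t t.length := by rw [← hl]; rfl
  obtain ⟨e, he⟩ : ∃ e, e = -(vx oo up t n) := ⟨_, rfl⟩
  have he1 : (e.1 - e.2) % 3 = 1 := by
    rw [he, Prod.fst_neg, Prod.snd_neg]
    omega
  have hed : e ∈ dirs := by
    rw [mem_dirs, he, nrm_neg]
    exact h3
  have hg := dx_mem hup t t.length
  have hA : e = rotL (dx up t t.length) ∨ e = rotR (dx up t t.length) := by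
    refine turn_class _ hg _ hed d2 he1 ?_
    intro h0
    apply h2 0 t.length (by omega) (by omega)
    rw [he, hv] at h0
    have : vx oo up t t.length = 0 := by
      have h4 : dx up t t.length + -(vx oo up t t.length + dx up t t.length) = -(vx oo up t t.length) := by abel
      rw [h4] at h0
      exact neg_eq_zero.1 h0
    rw [this]
    rfl
  have hB : up = rotL e ∨ up = rotR e := by
    refine turn_class' _ hed _ hup he1 (by decide) ?_
    intro h0
    apply h2 1 n (by omega) (by omega)
    have h4 : vx oo up t n = up := by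
      rw [he] at h0
      have : up - vx oo up t n = 0 := by rw [← h0]; abel
      exact (sub_eq_zero.1 this).symm
    rw [h4]
    rfl
  have hvx : ∀ i, i ≤ n → vx oo up (clo t) i = vx oo up t i := fun i hi => vx_append (by omega)
  have hdx : dx up (clo t) t.length = dx up t t.length := dx_append (le_refl _)
  have hdn : dx up (clo t) (t.length + 1) = e := by
    have e2 : dx up (clo t) (t.length + 1) = turn (tf (clo t) t.length) (dx up (clo t) t.length) := rfl
    rw [e2, hdx, tf_clo0, hl, ← he]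
    exact letter hA
  have hvn : vx oo up (clo t) (n + 1) = oo := by
    have e2 : vx oo up (clo t) (n + 1) = vx oo up (clo t) n + dx up (clo t) n := rfl
    rw [e2, hvx n le_rfl, ← hl, hdn, hl, he, add_neg_cancel]
    rfl
  have hdn2 : dx up (clo t) (n + 1) = up := by
    have e2 : dx up (clo t) (n + 1) = turn (tf (clo t) n) (dx up (clo t) n) := rfl
    rw [e2, ← hl, hdn, tf_clo1, hl, ← he]
    exact letter hB
  refine ⟨by rw [clo_length]; omega, hvn, hdn2, ?_⟩
  intro i j hi hj hij
  rw [hvx i (by omega), hvx j (by omega)] at hij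
  rcases lt_trichotomy i j with h | h | h
  · exact absurd hij (h2 i j h (by omega))
  · exact h
  · exact absurd hij.symm (h2 j i h (by omega))

lemma clo_surj {n : ℕ} (hn : 1 ≤ n) {u : List Bool} (hu : u ∈ PCy (n + 1)) : ∃ t ∈ AC n, clo t = u := by
  obtain ⟨h1, h2, h3, h4⟩ := hu
  have hup : up ∈ dirs := by decide
  obtain ⟨t, a, b, rfl⟩ : ∃ (t : List Bool) (a b : Bool), u = t ++ [a, b] := by
    have hne : u ≠ [] := by
      rintro rfl
      simp at h1
    have hne' : u.dropLast ≠ [] := by
      intro h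
      have := congrArg List.length h
      rw [List.length_dropLast, h1] at this
      simp at this
      omega
    refine ⟨u.dropLast.dropLast, u.dropLast.getLast hne', u.getLast hne, ?_⟩
    have e1 := List.dropLast_append_getLast hne
    have e2 := List.dropLast_append_getLast hne'
    conv_lhs => rw [← e1, ← e2]
    simp
  have hl : t.length + 1 = n := by
    rw [List.length_append] at h1
    simp only [List.length_cons, List.length_nil] at h1
    omega
  have hvx : ∀ i, i ≤ n → vx oo up (t ++ [a, b]) i = vx oo up t i := fun i hi => vx_append (by omega)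
  have hdx : dx up (t ++ [a, b]) t.length = dx up t t.length := dx_append (le_refl _)
  have ha : tf (t ++ [a, b]) t.length = a := by
    have := tf_append_right (t := t) (s := [a, b]) 0
    rw [add_zero] at this
    rw [this]
    rfl
  have hb : tf (t ++ [a, b]) (t.length + 1) = b := by
    rw [tf_append_right (t := t) 1]
    rfl
  have k1 : dx up (t ++ [a, b]) n = turn a (dx up t t.length) := by
    have e2 : dx up (t ++ [a, b]) (t.length + 1) =
      turn (tf (t ++ [a, b]) t.length) (dx up (t ++ [a, b]) t.length) := rfl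
    rw [← hl, e2, ha, hdx]
  have k2 : dx up (t ++ [a, b]) (n + 1) = turn b (dx up (t ++ [a, b]) n) := by
    have e2 : dx up (t ++ [a, b]) (n + 1) = turn (tf (t ++ [a, b]) n) (dx up (t ++ [a, b]) n) := rfl
    rw [e2, ← hl, hb]
  have k3 : dx up (t ++ [a, b]) n = -(vx oo up t n) := by
    have e2 : vx oo up (t ++ [a, b]) (n + 1) = vx oo up (t ++ [a, b]) n + dx up (t ++ [a, b]) n := rfl
    rw [e2, hvx n le_rfl] at h2
    have h5 : vx oo up t n + dx up (t ++ [a, b]) n = 0 := h2
    rw [← neg_eq_of_add_eq_zero_right h5]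
  have hg := dx_mem hup t t.length
  have hg2 := dx_mem hup (t ++ [a, b]) n
  refine ⟨t, ⟨⟨hl, ?_⟩, ?_⟩, ?_⟩
  · intro i k hik hk he
    rw [← hvx i (by omega), ← hvx k hk] at he
    have := h4 i k (by omega) (by omega) he
    omega
  · rw [← nrm_neg, ← k3]
    exact mem_dirs.1 hg2
  · unfold clo
    rw [hl]
    have e1 : decide (-(vx oo up t n) = rotL (dx up t t.length)) = a := by
      rw [← k3, k1]
      cases a
      · exact decide_eq_false (rot_ne _ hg)
      · exact decide_eq_true rfl
    have e2 : decide (up = rotL (-(vx oo up t n))) = b := by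
      rw [← k3]
      rw [k2] at h3
      cases b
      · refine decide_eq_false ?_
        intro h5
        exact rot_ne _ hg2 (h3.trans h5)
      · exact decide_eq_true h3.symm
    rw [e1, e2]

lemma clo_inj {t t' : List Bool} (h : clo t = clo t') : t = t' := by
  unfold clo at h
  exact List.append_inj_left' h rfl

lemma AA_fin (n : ℕ) : (AA n).Finite :=
  (List.finite_length_le Bool n).subset (fun t ht => by
    have : t.length + 1 = n := ht.1
    show t.length ≤ n
    omega)

lemma AC_fin (n : ℕ) : (AC n).Finite := (AA_fin n).subset fun _ h => h.1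

lemma PCy_fin (N : ℕ) : (PCy N).Finite :=
  (List.finite_length_eq Bool N).subset (fun _ h => h.1)

/-- the turn word without the free last letter -/
noncomputable def tv {n : ℕ} (s : Fin n → Fin 3) : List Bool := HexMu.tword (SawNu.encHex.word s)

lemma wd_tv {n : ℕ} (s : Fin n → Fin 3) : CovL.wd s = tv s ++ [true] := rfl

lemma tv_length {n : ℕ} (hn : 1 ≤ n) (s : Fin n → Fin 3) : (tv s).length + 1 = n := by
  have := CovL.wd_length hn s
  rw [wd_tv, List.length_append] at this
  exact this

lemma vx_wd {n : ℕ} (hn : 1 ≤ n) (s : Fin n → Fin 3) {i : ℕ} (hi : i ≤ n) :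
    vx oo up (CovL.wd s) i = vx oo up (tv s) i := by
  rw [wd_tv]
  exact vx_append (by have := tv_length hn s; omega)

lemma tv_mem {f : ℕ → Fin 3 → ℂ} (hf : MS.Hex f) {n : ℕ} (hn : 1 ≤ n) {s : Fin n → Fin 3} (hs : s ∈ MS.SW f n) :
    tv s ∈ AA n := by
  have h1 := (CovL.wd_pos hf hn hs).2
  refine ⟨tv_length hn s, ?_⟩
  intro i k hik hk he
  rw [← vx_wd hn s (by omega), ← vx_wd hn s hk] at he
  exact h1.inj i k hik (by rw [CovL.wd_length hn s]; exact hk) he

lemma dist_tv {f : ℕ → Fin 3 → ℂ} (hf : MS.Hex f) {n : ℕ} (hn : 1 ≤ n) {s : Fin n → Fin 3} (hs : s ∈ MS.SW f n)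
    {i j : ℕ} (hi : i ≤ n) (hj : j ≤ n) :
    ‖MS.pw f s i - MS.pw f s j‖ ^ 2 = ((nrm (vx oo up (tv s) i - vx oo up (tv s) j) : ℤ) : ℝ) := by
  rw [(CovL.wd_pos hf hn hs).1.2 i j hi hj, vx_wd hn s hi, vx_wd hn s hj]

/-- the coded walks are the pairs (first direction, turn word) -/
theorem image_SW {f : ℕ → Fin 3 → ℂ} (hf : MS.Hex f) {m : ℕ} :
    (MS.SW f (m + 1)).image (fun s => (s 0, tv s)) = (univ : Finset (Fin 3)) ×ˢ (AA_fin (m + 1)).toFinset := by
  classical
  refine Finset.eq_of_subset_of_card_le ?_ ?_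
  · intro p hp
    obtain ⟨s, hs, rfl⟩ := Finset.mem_image.1 hp
    rw [Finset.mem_product]
    exact ⟨Finset.mem_univ _, (Set.Finite.mem_toFinset _).2 (tv_mem hf (by omega) hs)⟩
  · rw [Finset.card_image_of_injOn, Finset.card_product, Finset.card_univ, Fintype.card_fin]
    · rw [PGX.card_SW_eq hf, WS_eq (by omega : 1 ≤ m + 1), Set.ncard_eq_toFinset_card _ (AA_fin (m + 1))]
    · intro s hs s' hs' h
      simp only [Prod.mk.injEq] at h
      exact CovL.wd_inj hf hs hs' (by rw [wd_tv, wd_tv, h.2]) h.1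

lemma sw_inj {f : ℕ → Fin 3 → ℂ} (hf : MS.Hex f) {m : ℕ} :
    Set.InjOn (fun s : Fin (m + 1) → Fin 3 => (s 0, tv s)) (MS.SW f (m + 1) : Set (Fin (m + 1) → Fin 3)) := by
  intro s hs s' hs' h
  simp only [Prod.mk.injEq] at h
  exact CovL.wd_inj hf hs hs' (by rw [wd_tv, wd_tv, h.2]) h.1

lemma pol_iff {f : ℕ → Fin 3 → ℂ} (hf : MS.Hex f) {n : ℕ} (hn : 1 ≤ n) {s : Fin n → Fin 3} (hs : s ∈ MS.SW f n) :
    ‖MS.pw f s n‖ = 1 ↔ nrm (vx oo up (tv s) n) = 1 := by
  have h := dist_tv hf hn hs (le_refl n) (Nat.zero_le n)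
  have h0 : MS.pw f s 0 = 0 := by
    unfold MS.pw
    rw [Finset.filter_false_of_mem (fun i _ => Nat.not_lt_zero _), Finset.sum_empty]
  have h1 : vx oo up (tv s) n - vx oo up (tv s) 0 = vx oo up (tv s) n := by
    have : vx oo up (tv s) 0 = 0 := rfl
    rw [this, sub_zero]
  rw [h0, sub_zero, h1] at h
  constructor
  · intro h2
    rw [h2] at h
    have h3 : ((nrm (vx oo up (tv s) n) : ℤ) : ℝ) = ((1 : ℤ) : ℝ) := by rw [← h]; norm_num
    exact_mod_cast h3
  · intro h2
    rw [h2] at h
    have h3 := norm_nonneg (MS.pw f s n)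
    have h4 : ‖MS.pw f s n‖ ^ 2 = 1 := by rw [h]; norm_num
    nlinarith

/-- the closed word of a polygon -/
noncomputable def cw {n : ℕ} (s : Fin n → Fin 3) : List Bool := clo (tv s)

lemma vx_cw {n : ℕ} (hn : 1 ≤ n) (s : Fin n → Fin 3) {i : ℕ} (hi : i ≤ n) :
    vx oo up (cw s) i = vx oo up (tv s) i := by
  unfold cw clo
  exact vx_append (by have := tv_length hn s; omega)

lemma dist_cw {f : ℕ → Fin 3 → ℂ} (hf : MS.Hex f) {n : ℕ} (hn : 1 ≤ n) {s : Fin n → Fin 3} (hs : s ∈ MS.SW f n)
    {i j : ℕ} (hi : i ≤ n) (hj : j ≤ n) :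
    ‖MS.pw f s i - MS.pw f s j‖ ^ 2 = ((nrm (vx oo up (cw s) i - vx oo up (cw s) j) : ℤ) : ℝ) := by
  rw [dist_tv hf hn hs hi hj, vx_cw hn s hi, vx_cw hn s hj]

/-- **the dictionary**: polygons = (first direction, closed word) -/
theorem sum_Pol {f : ℕ → Fin 3 → ℂ} (hf : MS.Hex f) {n : ℕ} (hn : 3 ≤ n) (ho : ¬ Even n)
    (F : (Fin n → Fin 3) → ℝ) (G : List Bool → ℝ) (hFG : ∀ s ∈ PGX.Pol f n, F s = G (cw s)) :
    ∑ s ∈ PGX.Pol f n, F s = 3 * ∑ t ∈ (PCy_fin (n + 1)).toFinset, G t := by
  classical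
  obtain ⟨m, rfl⟩ : ∃ m, n = m + 1 := ⟨n - 1, by omega⟩
  have h3 : (3 : ℝ) * ∑ t ∈ (PCy_fin (m + 1 + 1)).toFinset, G t =
      ∑ p ∈ (univ : Finset (Fin 3)) ×ˢ (PCy_fin (m + 1 + 1)).toFinset, G p.2 := by
    rw [Finset.sum_product]
    simp
  rw [h3]
  refine Finset.sum_bij (fun s _ => (s 0, cw s)) ?_ ?_ ?_ ?_
  · intro s hs
    obtain ⟨h1, h2⟩ := Finset.mem_filter.1 hs
    rw [Finset.mem_product]
    exact ⟨Finset.mem_univ _, (Set.Finite.mem_toFinset _).2
      (clo_mem hn ho ⟨tv_mem hf (by omega) h1, (pol_iff hf (by omega) h1).1 h2⟩)⟩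
  · intro s hs s' hs' h
    simp only [Prod.mk.injEq] at h
    have h1 := (Finset.mem_filter.1 hs).1
    have h1' := (Finset.mem_filter.1 hs').1
    refine sw_inj hf h1 h1' ?_
    simp only [Prod.mk.injEq]
    exact ⟨h.1, clo_inj h.2⟩
  · rintro ⟨a, u⟩ hp
    rw [Finset.mem_product] at hp
    obtain ⟨t, ht, rfl⟩ := clo_surj (by omega : 1 ≤ m + 1) ((Set.Finite.mem_toFinset _).1 hp.2)
    have hm : (a, t) ∈ (MS.SW f (m + 1)).image (fun s => (s 0, tv s)) := by
      rw [image_SW hf, Finset.mem_product]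
      exact ⟨Finset.mem_univ _, (Set.Finite.mem_toFinset _).2 ht.1⟩
    obtain ⟨s, hs, he⟩ := Finset.mem_image.1 hm
    simp only [Prod.mk.injEq] at he
    refine ⟨s, Finset.mem_filter.2 ⟨hs, ?_⟩, ?_⟩
    · rw [pol_iff hf (by omega) hs, he.2]
      exact ht.2
    · simp only [Prod.mk.injEq]
      exact ⟨he.1, by unfold cw; rw [he.2]⟩
  · exact fun s hs => hFG s hs

/-- the number of the polygons -/
theorem card_Pol {f : ℕ → Fin 3 → ℂ} (hf : MS.Hex f) {n : ℕ} (hn : 3 ≤ n) (ho : ¬ Even n) :
    (PGX.Pol f n).card = 3 * (PCy (n + 1)).ncard := by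
  have h := sum_Pol hf hn ho (fun _ => 1) (fun _ => 1) (fun _ _ => rfl)
  rw [Finset.sum_const, Finset.sum_const, nsmul_eq_mul, nsmul_eq_mul, mul_one, mul_one] at h
  rw [Set.ncard_eq_toFinset_card _ (PCy_fin (n + 1))]
  exact_mod_cast h

/-- the generating function at a fixed length -/
theorem gf_PCy (N : ℕ) : gf (PCy N) = ENNReal.ofReal (((PCy N).ncard : ℝ) * xc ^ N) := by
  unfold gf
  have := (PCy_fin N).fintype
  rw [tsum_fintype]
  have h2 : ∀ t : PCy N, wE (t : List Bool) = ENNReal.ofReal (xc ^ N) := by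
    rintro ⟨t, ht⟩
    unfold wE
    rw [ht.1]
  rw [Finset.sum_congr rfl fun t _ => h2 t, Finset.sum_const, nsmul_eq_mul, Finset.card_univ,
    Set.ncard_eq_toFinset_card' (PCy N), Set.toFinset_card, ENNReal.ofReal_mul (Nat.cast_nonneg _),
    ENNReal.ofReal_natCast]

end HexObs.POLP
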