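import Pool.Agent.POL.CloDefs
import Pool.Agent.JNT.Long
import Pool.Agent.BAR.HCut

/-!
POL, row L2: short bridges in a narrow tube, one scale (helper51).
-/

set_option autoImplicit false

namespace HexObs

namespace POL

open Finset TS SDN NTA EN RP JNT

open scoped ENNReal

/-- mean length: Markov -/
def Mk (m : ℕ → ℝ) : Prop := ∃ C : ℝ, 0 < C ∧ ∀ (k : ℕ) (y : ℝ), 0 < y →
  NTm.TL (2 ^ k) y ≤ ENNReal.ofReal (C * m k / y * Ub k)

/-- short narrow bridges of the scale i -/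
def NB (m : ℕ → ℝ) (i : ℕ) (w A : ℝ) : Set (List Bool) :=
  {D | D ∈ BU ∧ 2 ^ i ≤ hgt D ∧ hgt D ≤ 2 ^ (i + 1) ∧ (∀ j, j ≤ D.length → |(lat D j : ℝ)| ≤ w * 2 ^ i) ∧
    (D.length : ℝ) ≤ A * m i}

/-- bridges of height h in a narrow tube -/
lemma tube_low {w : ℝ} (hw : 0 < w) (hw1 : w ≤ 1) : ∃ (c : ℝ) (t0 : ℕ), 0 < c ∧ ∀ h : ℕ, t0 ≤ h →
    ENNReal.ofReal (c * uu h) ≤ gf {Z | Z ∈ Brd h ∧ ∀ j, j ≤ Z.length → |(lat Z j : ℝ)| ≤ w * h} := by
  obtain ⟨c, t0, hc, hloc⟩ := localTube 1 (η := w / 4) (by linarith)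
  obtain ⟨t1, ht1⟩ := exists_nat_ge (32 / w)
  refine ⟨c * (w / 16), max (max t0 t1) 1, by positivity, fun h ht => ?_⟩
  have h0 : t0 ≤ h := (le_max_left _ _).trans ((le_max_left _ _).trans ht)
  have h1 : t1 ≤ h := (le_max_right _ _).trans ((le_max_left _ _).trans ht)
  have hh1 : 1 ≤ h := (le_max_right _ _).trans ht
  have hh : (0 : ℝ) < h := by exact_mod_cast hh1
  have hwh : 32 ≤ w * h := by
    have h2 : (t1 : ℝ) ≤ h := by exact_mod_cast h1
    have h3 := ht1.trans h2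
    rw [div_le_iff₀ hw] at h3
    linarith
  obtain ⟨q, hq⟩ : ∃ q : ℕ, q = ⌊w * h / 8⌋₊ := ⟨_, rfl⟩
  have hq1 : (q : ℝ) ≤ w * h / 8 := by
    rw [hq]
    exact Nat.floor_le (by positivity)
  have hq2 : w * h / 16 ≤ q := by
    have h2 := Nat.lt_floor_add_one (w * h / 8)
    rw [← hq] at h2
    linarith
  obtain ⟨r, hr⟩ : ∃ r : ℤ, r = ((h % 2 : ℕ) : ℤ) := ⟨_, rfl⟩
  have hr0 : 0 ≤ r ∧ r ≤ 1 := by
    rw [hr]
    omega
  obtain ⟨f, hf⟩ : ∃ f : ℕ → Set (List Bool), f = fun j : ℕ =>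
    {Z | (Z ∈ Brd h ∧ ∀ j, j ≤ Z.length → |(lat Z j : ℝ)| ≤ w * h) ∧ latE Z = r + 2 * (j : ℤ)} := ⟨_, rfl⟩
  have hsub : (⋃ j ∈ range q, f j) ⊆ {Z | Z ∈ Brd h ∧ ∀ j, j ≤ Z.length → |(lat Z j : ℝ)| ≤ w * h} := by
    intro Z hZ
    rw [Set.mem_iUnion₂] at hZ
    obtain ⟨j, _, hj⟩ := hZ
    rw [hf] at hj
    exact hj.1
  have hdis : ∀ i j, ∀ Z, Z ∈ f i → Z ∈ f j → i = j := by
    intro i j Z hi hj
    rw [hf] at hi hj
    have h3 := hi.2
    have h4 := hj.2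
    omega
  have hge : ∀ j ∈ range q, ENNReal.ofReal (c * (uu h / h)) ≤ gf (f j) := by
    intro j hj
    rw [Finset.mem_range] at hj
    have hj1 : (j : ℝ) + 1 ≤ q := by exact_mod_cast hj
    have hx0 : (0 : ℤ) ≤ r + 2 * j := by omega
    have hx1 : ((r + 2 * j : ℤ) : ℝ) ≤ w * h / 2 := by
      have h3 : ((r : ℤ) : ℝ) ≤ 1 := by exact_mod_cast hr0.2
      push_cast
      linarith
    have hx : |(r + 2 * (j : ℤ))| ≤ ((1 : ℕ) : ℤ) * (h : ℤ) := by
      rw [abs_of_nonneg hx0]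
      have h3 : ((r + 2 * j : ℤ) : ℝ) ≤ h := by nlinarith
      have h4 : (r + 2 * j : ℤ) ≤ (h : ℤ) := by exact_mod_cast h3
      push_cast
      linarith
    have hev : Even (r + 2 * (j : ℤ) - (h : ℤ)) := by
      rw [Int.even_iff]
      omega
    refine (hloc h (r + 2 * j) h0 hev hx).trans (gf_mono ?_)
    rintro Z ⟨⟨h3, h4⟩, h5⟩
    rw [hf]
    refine ⟨⟨h3, fun i hi => ?_⟩, h4⟩
    obtain ⟨h6, h7⟩ := h5 i hi
    rw [min_eq_left hx0] at h6
    rw [max_eq_right hx0] at h7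
    rw [Int.cast_zero] at h6
    rw [abs_le]
    constructor
    · nlinarith
    · nlinarith
  calc ENNReal.ofReal (c * (w / 16) * uu h) ≤ ENNReal.ofReal ((q : ℝ) * (c * (uu h / h))) := by
        apply ENNReal.ofReal_le_ofReal
        have h3 : 0 < uu h := uu_pos h
        have h4 : c * (w / 16) * uu h = w * h / 16 * (c * (uu h / h)) := by
          field_simp
        rw [h4]
        exact mul_le_mul_of_nonneg_right hq2 (by positivity)
    _ = ∑ _j ∈ range q, ENNReal.ofReal (c * (uu h / h)) := by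
        rw [Finset.sum_const, Finset.card_range, nsmul_eq_mul, ENNReal.ofReal_mul (by positivity),
          ENNReal.ofReal_natCast]
    _ ≤ ∑ j ∈ range q, gf (f j) := Finset.sum_le_sum hge
    _ ≤ gf (⋃ j ∈ range q, f j) := BAR.gf_bi_eq _ _ fun i j w hi hj => hdis i j w hi hj
    _ ≤ _ := gf_mono hsub

/-- **the short narrow bridges of one scale** -/
theorem narrow {m : ℕ → ℝ} (hm : MLow m) (hd : MUp m) (hM : Mk m) {w : ℝ} (hw : 0 < w) : ∃ (c A : ℝ) (i0 : ℕ),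
    0 < c ∧ 0 < A ∧ ∀ i : ℕ, i0 ≤ i → ENNReal.ofReal (c * Ub i) ≤ gf (NB m i w A) := by
  obtain ⟨v, hv⟩ : ∃ v : ℝ, v = min (w / 2) 1 := ⟨_, rfl⟩
  have hv0 : 0 < v := by rw [hv]; exact lt_min (by linarith) one_pos
  have hv1 : v ≤ 1 := by rw [hv]; exact min_le_right _ _
  have hvw : v ≤ w / 2 := by rw [hv]; exact min_le_left _ _
  obtain ⟨c, t0, hc, hb⟩ := tube_low hv0 hv1
  have hC : 0 < 6 + CW := LocalT.C0_pos
  obtain ⟨Cm, hCm, hu⟩ := hd
  obtain ⟨CM, hCM, hmk⟩ := hM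
  obtain ⟨a, ha⟩ : ∃ a : ℝ, a = c * (2 * (6 + CW))⁻¹ := ⟨_, rfl⟩
  have ha0 : 0 < a := by rw [ha]; positivity
  obtain ⟨A, hA⟩ : ∃ A : ℝ, A = 4 * CM * Cm / a := ⟨_, rfl⟩
  have hA0 : 0 < A := by rw [hA]; positivity
  refine ⟨a / 2, A, t0, by positivity, hA0, fun i hi => ?_⟩
  have hU : 0 < Ub i := Ub_pos i
  have hmi := hm.pos i
  have hi2 : t0 ≤ 2 ^ i := hi.trans Nat.lt_two_pow_self.le
  -- the narrow bridges
  obtain ⟨F, hF⟩ : ∃ F : ℕ → Set (List Bool), F = fun h =>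
    {Z | Z ∈ Brd h ∧ ∀ j, j ≤ Z.length → |(lat Z j : ℝ)| ≤ v * h} := ⟨_, rfl⟩
  have h1 : ENNReal.ofReal (a * Ub i) ≤ ∑ h ∈ Ico (2 ^ i) (2 ^ (i + 1)), gf (F h) := by
    calc ENNReal.ofReal (a * Ub i)
        = ENNReal.ofReal (((2 ^ i : ℕ) : ℝ) * (c * ((2 * (6 + CW))⁻¹ * (Ub i / 2 ^ i)))) := by
          congr 1
          rw [ha]
          push_cast
          field_simp
      _ = ∑ _h ∈ Ico (2 ^ i) (2 ^ (i + 1)), ENNReal.ofReal (c * ((2 * (6 + CW))⁻¹ * (Ub i / 2 ^ i))) := by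
          rw [Finset.sum_const, Nat.card_Ico, nsmul_eq_mul, ENNReal.ofReal_mul (by positivity), ENNReal.ofReal_natCast]
          congr 2
          rw [pow_succ]
          omega
      _ ≤ _ := by
          refine Finset.sum_le_sum fun h hh => ?_
          rw [Finset.mem_Ico] at hh
          rw [hF]
          refine (ENNReal.ofReal_le_ofReal ?_).trans (hb h (hi2.trans hh.1))
          exact mul_le_mul_of_nonneg_left (uu_scale hh.1 hh.2) hc.le
  have h2 : ∑ h ∈ Ico (2 ^ i) (2 ^ (i + 1)), gf (F h) ≤ gf (⋃ h ∈ Ico (2 ^ i) (2 ^ (i + 1)), F h) := by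
    refine BAR.gf_bi_eq _ _ fun x y Z hx hy => ?_
    rw [hF] at hx hy
    have e1 := hgt_eq hx.1
    have e2 := hgt_eq hy.1
    omega
  have h3 : (⋃ h ∈ Ico (2 ^ i) (2 ^ (i + 1)), F h) ⊆ NB m i w A ∪
      ⋃ h ∈ range (2 ^ (i + 1) + 1), {Z | Z ∈ Brd h ∧ A * m i ≤ (Z.length : ℝ)} := by
    intro Z hZ
    rw [Set.mem_iUnion₂] at hZ
    obtain ⟨h, hh, hZ⟩ := hZ
    rw [Finset.mem_Ico] at hh
    rw [hF] at hZ
    rcases le_or_gt (Z.length : ℝ) (A * m i) with h4 | h4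
    · left
      refine ⟨⟨h, hZ.1⟩, by rw [hgt_eq hZ.1]; exact hh.1, by rw [hgt_eq hZ.1]; exact hh.2.le, fun j hj => ?_, h4⟩
      refine (hZ.2 j hj).trans ?_
      have h5 : (h : ℝ) ≤ 2 * 2 ^ i := by
        have : ((h : ℕ) : ℝ) ≤ ((2 ^ (i + 1) : ℕ) : ℝ) := by exact_mod_cast hh.2.le
        rw [pow_succ] at this
        push_cast at this
        linarith
      calc v * h ≤ w / 2 * (2 * 2 ^ i) := mul_le_mul hvw h5 (Nat.cast_nonneg _) (by positivity)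
        _ = w * 2 ^ i := by ring
    · right
      rw [Set.mem_iUnion₂]
      exact ⟨h, Finset.mem_range.2 (by omega), hZ.1, h4.le⟩
  have h4 : gf (⋃ h ∈ range (2 ^ (i + 1) + 1), {Z | Z ∈ Brd h ∧ A * m i ≤ (Z.length : ℝ)}) ≤
      ENNReal.ofReal (a / 2 * Ub i) := by
    refine (BAR.gf_bi_le _ _).trans ((hmk (i + 1) (A * m i) (by positivity)).trans (ENNReal.ofReal_le_ofReal ?_))
    have h5 : CM * m (i + 1) / (A * m i) ≤ CM * Cm / A := by
      rw [div_le_div_iff₀ (by positivity) (by positivity)]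
      have h4 := mul_le_mul_of_nonneg_left (hu i) (show 0 ≤ CM * A by positivity)
      calc CM * m (i + 1) * A = CM * A * m (i + 1) := by ring
        _ ≤ CM * A * (Cm * m i) := h4
        _ = _ := by ring
    have h6 : Ub (i + 1) ≤ 2 * Ub i := Ub_succ i
    calc CM * m (i + 1) / (A * m i) * Ub (i + 1) ≤ CM * Cm / A * (2 * Ub i) :=
          mul_le_mul h5 h6 (Ub_pos _).le (by positivity)
      _ = a / 2 * Ub i := by
          rw [hA]
          field_simp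
          ring
  have hfin := h1.trans (h2.trans ((gf_mono h3).trans ((gf_union_le _ _).trans (add_le_add le_rfl h4))))
  have e1 : a * Ub i = a / 2 * Ub i + a / 2 * Ub i := by ring
  rw [e1, ENNReal.ofReal_add (by positivity) (by positivity)] at hfin
  exact (ENNReal.add_le_add_iff_right ENNReal.ofReal_ne_top).1 hfin

end POL

end HexObs
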