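import Pool.Agent.POL.ArcA
import Pool.Agent.POL.Tube

/-!
POL, row ARC: the class of the short arcs with the foot in a window (helper51).
-/

set_option autoImplicit false

namespace HexObs

namespace POL

open Finset TS SDN NTA NTA.C1 NTW

open scoped ENNReal

/-- short arcs with the foot in a window -/
def AT (m : ℕ → ℝ) (i d : ℕ) (δ L : ℝ) : Set (List Bool) :=
  {t | ∃ a : ℕ, d ≤ a ∧ (a : ℝ) ≤ d + δ * 2 ^ i ∧ t ∈ NTW.Wide.AW (2 ^ i) (2 * 2 ^ i) a ∧ (t.length : ℝ) ≤ L * m i}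

/-- back from the two leaves to the arc -/
def unA (x : ℕ × (List Bool × List Bool)) : List Bool :=
  x.2.1.dropLast ++ (!lst x.2.1) :: (!lst x.2.1) :: x.2.2.dropLast.dropLast

lemma wE_pow (t : List Bool) : wE t = ENNReal.ofReal (xc ^ t.length) := rfl

/-- arcs against pairs of leaves -/
lemma arc_pair {i : ℕ} {t : List Bool} (ht : t ∈ Ark (2 ^ (i + 6)))
    (hj : ∃ j, 1 ≤ j ∧ j ≤ t.length ∧ 3 * ((2 ^ (i + 5) : ℕ) : ℤ) + 2 ≤ lev t j) :
    ∃ x, unA x = t ∧ wE t ≤ ENNReal.ofReal (1 / xc) * pw (2 ^ (i + 5)) (2 ^ (i + 8)) x ∧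
      x.2.1.length + x.2.2.length = t.length + 1 := by
  have hx := xc_pos
  obtain ⟨h1, h2, h3, h4⟩ := ht
  obtain ⟨j, hj1, hj2, hj3⟩ := hj
  obtain ⟨T0, g, g', a1, a2, a3, a4, a5, a6⟩ := arc_split' (T := 2 ^ (i + 6)) (h := 2 ^ (i + 5)) Nat.one_le_two_pow h2
    (fun l hl1 hl2 => h1 l hl1 hl2) h3 h4 hj1 hj2 hj3
  have hT0 : 1 ≤ T0 := le_trans (Nat.le_add_left 1 _) a1
  have hu : [false, true] ∈ Brd 1 := step_mem_Brd true
  have b1 : g' ++ [false, true] ∈ Brd T0 := by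
    have h5 := Brd_append a4 hu
    have e : T0 - 1 + 1 = T0 := by omega
    rw [e] at h5
    exact h5
  have b2 : LFold g (g' ++ [false, true]) := PW.LFold_beyond hT0 a3 a4 hu a5
  have hg : 1 ≤ g.length := by
    rcases Nat.eq_zero_or_pos g.length with h0 | h0
    · exfalso
      rw [List.length_eq_zero_iff] at h0
      subst h0
      have := Brd_height a3 nil_mem_Brd
      omega
    · exact h0
  have hlen : g.length + (g' ++ [false, true]).length = t.length + 1 := by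
    rw [a6]
    simp only [List.length_append, List.length_dropLast, List.length_cons, List.length_nil]
    omega
  refine ⟨(T0, (g, g' ++ [false, true])), ?_, ?_, hlen⟩
  · rw [a6]
    unfold unA
    simp
  · unfold pw
    have hp : 2 ^ (i + 6) ≤ 2 ^ (i + 8) := Nat.pow_le_pow_right (by norm_num) (by omega)
    rw [if_pos ⟨⟨by omega, by omega⟩, a3, b1, b2⟩]
    apply le_of_eq
    show wE t = ENNReal.ofReal (1 / xc) * (wE g * wE (g' ++ [false, true]))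
    rw [← wE_append, wE_pow, wE_pow, List.length_append, hlen, ← ENNReal.ofReal_mul (by positivity), pow_succ]
    congr 1
    field_simp

/-- the mass of a class of arcs -/
lemma arc_gf {i : ℕ} {A : Set (List Bool)} (hA : ∀ t ∈ A, t ∈ Ark (2 ^ (i + 6)) ∧
      ∃ j, 1 ≤ j ∧ j ≤ t.length ∧ 3 * ((2 ^ (i + 5) : ℕ) : ℤ) + 2 ≤ lev t j) :
    gf A ≤ ENNReal.ofReal (1 / xc) * ∑' x, pw (2 ^ (i + 5)) (2 ^ (i + 8)) x := by
  rw [← Rec8.sw_one, ← ENNReal.tsum_mul_left]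
  refine Rec8.sw_cover A (fun _ => 1) _ unA fun t ht => ?_
  obtain ⟨x, h1, h2, -⟩ := arc_pair (hA t ht).1 (hA t ht).2
  exact ⟨x, h1, by rw [mul_one]; exact h2⟩

/-- the mass of a class of long arcs -/
lemma arc_long {i : ℕ} {A : Set (List Bool)} (hA : ∀ t ∈ A, t ∈ Ark (2 ^ (i + 6)) ∧
      ∃ j, 1 ≤ j ∧ j ≤ t.length ∧ 3 * ((2 ^ (i + 5) : ℕ) : ℤ) + 2 ≤ lev t j) {y : ℝ} (hy : ∀ t ∈ A, 2 * y ≤ (t.length : ℝ)) :
    gf A ≤ ENNReal.ofReal (1 / xc) * (∑' x : ℕ × (List Bool × List Bool), (if y ≤ (x.2.1.length : ℝ) then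
      pw (2 ^ (i + 5)) (2 ^ (i + 8)) x else 0) + ∑' x : ℕ × (List Bool × List Bool),
        (if y ≤ (x.2.2.length : ℝ) then pw (2 ^ (i + 5)) (2 ^ (i + 8)) x else 0)) := by
  rw [← Rec8.sw_one, ← ENNReal.tsum_add, ← ENNReal.tsum_mul_left]
  refine Rec8.sw_cover A (fun _ => 1) _ unA fun t ht => ?_
  obtain ⟨x, h1, h2, h3⟩ := arc_pair (hA t ht).1 (hA t ht).2
  refine ⟨x, h1, ?_⟩
  rw [mul_one]
  refine h2.trans (mul_le_mul_right ?_ _)
  have h4 := hy t ht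
  have h5 : (x.2.1.length : ℝ) + x.2.2.length = t.length + 1 := by exact_mod_cast h3
  rcases le_or_gt y (x.2.1.length : ℝ) with h6 | h6
  · rw [if_pos h6]
    exact le_self_add
  · rw [if_neg (not_le.2 h6), if_pos (by linarith), zero_add]

lemma pow_quarter (i : ℕ) : ((2 ^ i : ℕ) : ℝ) ^ (-(1 / 4) : ℝ) = (2 : ℝ) ^ (-((i : ℝ) / 4)) := by
  push_cast
  rw [← Real.rpow_natCast, ← Real.rpow_mul (by norm_num)]
  congr 1
  ring

lemma foot_inj {a b : ℕ} (h : foot oo up a = foot oo up b) : a = b := by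
  unfold foot hz rotR up oo at h
  have h1 := congrArg Prod.fst h
  simp at h1
  omega

/-- the scale of the leaves -/
lemma q5 (i : ℕ) : (2 : ℝ) ^ (-((i : ℝ) / 4)) ≤ 3 * (2 : ℝ) ^ (-(((i + 5 : ℕ) : ℝ) / 4)) := by
  have e : (2 : ℝ) ^ (-((i : ℝ) / 4)) = (2 : ℝ) ^ (5 / 4 : ℝ) * (2 : ℝ) ^ (-(((i + 5 : ℕ) : ℝ) / 4)) := by
    rw [← Real.rpow_add (by norm_num)]
    congr 1
    push_cast
    ring
  rw [e]
  refine mul_le_mul_of_nonneg_right ?_ (by positivity)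
  have h1 : ((3 : ℝ) ^ (4 : ℕ)) ^ (1 / 4 : ℝ) = 3 := by
    rw [← Real.rpow_natCast, ← Real.rpow_mul (by norm_num)]
    norm_num
  have h2 : ((2 : ℝ) ^ (5 : ℕ)) ^ (1 / 4 : ℝ) = (2 : ℝ) ^ (5 / 4 : ℝ) := by
    rw [← Real.rpow_natCast, ← Real.rpow_mul (by norm_num)]
    norm_num
  rw [← h1, ← h2]
  exact Real.rpow_le_rpow (by norm_num) (by norm_num) (by norm_num)

/-- **row ARC** -/
theorem arcs {m : ℕ → ℝ} (hm : MLow m) (hu : MUp m) (hB : TB m) (hQ : LongQ m) : ∃ (η L C : ℝ), 0 < η ∧ 0 < L ∧ 0 < C ∧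
    (∀ (δ : ℝ) (i d : ℕ), 5 ≤ i → gf (AT m i d δ L) ≤ ENNReal.ofReal (C * (2 : ℝ) ^ (-((i : ℝ) / 4)))) ∧
    ∀ δ : ℝ, 0 < δ → ∃ (c : ℝ) (i0 : ℕ), 0 < c ∧ ∀ i : ℕ, i0 ≤ i → ∃ d : ℕ, η * 2 ^ i ≤ d ∧
      ENNReal.ofReal (c * (2 : ℝ) ^ (-((i : ℝ) / 4))) ≤ gf (AT m i d δ L) := by
  classical
  have hx := xc_pos
  obtain ⟨η, c, K, T0, hη, hc, hK, hT0, hw⟩ := NTW.Wide.wide
  obtain ⟨Ka, hKa, hmass⟩ := arc_mass
  obtain ⟨R, hR, htail⟩ := arc_tail hm hu hB hQ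
  obtain ⟨lam, hlam⟩ : ∃ lam : ℝ, lam = 1 + 12 * R / (xc * c) := ⟨_, rfl⟩
  have hlam1 : 1 ≤ lam := by
    rw [hlam]
    have : 0 ≤ 12 * R / (xc * c) := by positivity
    linarith
  have hlam2 : 1 / xc * (R * 3 / lam ^ 2 + R * 3 / lam ^ 2) ≤ c / 2 := by
    have h1 : 12 * R / (xc * c) ≤ lam ^ 2 := by
      have : 12 * R / (xc * c) ≤ lam := by rw [hlam]; linarith
      nlinarith
    rw [div_le_iff₀ (by positivity)] at h1
    have h2 : 1 / xc * (R * 3 / lam ^ 2 + R * 3 / lam ^ 2) = 6 * R / (xc * lam ^ 2) := by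
      field_simp
      ring
    rw [h2, div_le_iff₀ (by positivity)]
    nlinarith
  -- the arcs of a scale are pairs of leaves
  have hcls : ∀ (i a : ℕ) (t : List Bool), t ∈ NTW.Wide.AW (2 ^ (i + 5)) (2 * 2 ^ (i + 5)) a → t ∈ Ark (2 ^ (i + 6)) ∧
      ∃ j, 1 ≤ j ∧ j ≤ t.length ∧ 3 * ((2 ^ (i + 5) : ℕ) : ℤ) + 2 ≤ lev t j := by
    intro i a t ht
    have e : 2 * 2 ^ (i + 5) = 2 ^ (i + 6) := by ring
    rw [e] at ht
    exact ark_high ht
  have hmono : ∀ i : ℕ, m i ≤ m (i + 5) := by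
    intro i
    have h1 := hm.low i 5
    have h2 : (1 : ℝ) ≤ (2 : ℝ) ^ (5 / 4 * ((5 : ℕ) : ℝ)) := Real.one_le_rpow (by norm_num) (by norm_num)
    have h3 := hm.pos i
    nlinarith
  refine ⟨η, 2 * lam, 3 * Ka / xc, hη, by positivity, by positivity, ?_, fun δ hδ => ?_⟩
  · intro δ i d hi
    obtain ⟨i, rfl⟩ : ∃ i', i = i' + 5 := ⟨i - 5, by omega⟩
    refine (arc_gf (i := i) (A := AT m (i + 5) d δ (2 * lam)) ?_).trans ?_
    · rintro t ⟨a, -, -, h, -⟩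
      exact hcls i a t h
    · refine (mul_le_mul_right (hmass i) _).trans ?_
      rw [← ENNReal.ofReal_mul (by positivity)]
      apply ENNReal.ofReal_le_ofReal
      have h1 := q5 i
      calc 1 / xc * (Ka * (2 : ℝ) ^ (-((i : ℝ) / 4))) ≤ 1 / xc * (Ka * (3 * (2 : ℝ) ^ (-(((i + 5 : ℕ) : ℝ) / 4)))) := by
            gcongr
        _ = _ := by ring
  -- the windows
  obtain ⟨nw, hnw⟩ : ∃ nw : ℕ, nw = ⌈2 * K / δ⌉₊ + 1 := ⟨_, rfl⟩
  have hnw0 : (0 : ℝ) < nw := by rw [hnw]; positivity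
  obtain ⟨t1, ht1⟩ := exists_nat_ge (2 / δ)
  refine ⟨c / (4 * nw), max (max T0 t1) 5, by positivity, fun i hi => ?_⟩
  have hiT : T0 ≤ i := (le_max_left _ _).trans ((le_max_left _ _).trans hi)
  have hit : t1 ≤ i := (le_max_right _ _).trans ((le_max_left _ _).trans hi)
  have hi5 : 5 ≤ i := (le_max_right _ _).trans hi
  have hi2 : i < 2 ^ i := Nat.lt_two_pow_self
  have hTT : T0 ≤ 2 ^ i := by omega
  obtain ⟨T, hT⟩ : ∃ T : ℕ, T = 2 ^ i := ⟨_, rfl⟩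
  have hTr : (T : ℝ) = 2 ^ i := by rw [hT]; push_cast; rfl
  have hT1 : (0 : ℝ) < T := by rw [hTr]; positivity
  have hδT : 2 ≤ δ * T := by
    have h1 : (t1 : ℝ) ≤ T := by
      have : t1 ≤ T := by rw [hT]; omega
      exact_mod_cast this
    have h2 := ht1.trans h1
    rw [div_le_iff₀ hδ] at h2
    linarith
  obtain ⟨q, hq⟩ : ∃ q : ℕ, q = ⌊δ * T⌋₊ := ⟨_, rfl⟩
  have hq1 : (q : ℝ) ≤ δ * T := by rw [hq]; exact Nat.floor_le (by positivity)
  have hq2 : δ * T / 2 ≤ q := by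
    have h2 := Nat.lt_floor_add_one (δ * T)
    rw [← hq] at h2
    linarith
  have hq0 : 1 ≤ q := by
    by_contra h
    have : q = 0 := by omega
    rw [this] at hq2
    push_cast at hq2
    linarith
  obtain ⟨d0, hd0⟩ : ∃ d0 : ℕ, d0 = ⌈η * T⌉₊ := ⟨_, rfl⟩
  have hd1 : η * T ≤ d0 := by rw [hd0]; exact Nat.le_ceil _
  obtain ⟨I, hI⟩ : ∃ I : Finset ℕ, I = (range (K * T)).filter (fun k : ℕ => η * T ≤ (k : ℝ) + 1) := ⟨_, rfl⟩
  have hwide := hw T (by rw [hT]; exact hTT)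
  rw [← hI, hT, pow_quarter, ← hT] at hwide
  obtain ⟨p, hp⟩ : ∃ p : ℝ, p = (2 : ℝ) ^ (-((i : ℝ) / 4)) := ⟨_, rfl⟩
  have hp0 : 0 < p := by rw [hp]; positivity
  rw [← hp] at hwide ⊢
  -- long arcs
  obtain ⟨Lo, hLo⟩ : ∃ Lo : ℕ → Set (List Bool), Lo = fun k =>
    {t | t ∈ NTW.Wide.AW T (2 * T) (k + 1) ∧ 2 * lam * m i < (t.length : ℝ)} := ⟨_, rfl⟩
  obtain ⟨Sh, hSh⟩ : ∃ Sh : ℕ → Set (List Bool), Sh = fun k =>
    {t | t ∈ NTW.Wide.AW T (2 * T) (k + 1) ∧ (t.length : ℝ) ≤ 2 * lam * m i} := ⟨_, rfl⟩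
  have hsplit : ∑ k ∈ I, gf (NTW.Wide.AW T (2 * T) (k + 1)) ≤ ∑ k ∈ I, gf (Sh k) + ∑ k ∈ I, gf (Lo k) := by
    rw [← Finset.sum_add_distrib]
    refine Finset.sum_le_sum fun k _ => (gf_mono ?_).trans (gf_union_le _ _)
    intro t ht
    rw [hSh, hLo]
    rcases le_or_gt (t.length : ℝ) (2 * lam * m i) with h | h
    · exact Or.inl ⟨ht, h⟩
    · exact Or.inr ⟨ht, h⟩
  have hdisj : ∀ k l t, t ∈ NTW.Wide.AW T (2 * T) (k + 1) → t ∈ NTW.Wide.AW T (2 * T) (l + 1) → k = l := by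
    intro k l t h1 h2
    have e1 := h1.1.2
    have e2 := h2.1.2
    have e3 := foot_inj (a := k + 1) (b := l + 1) (e1.symm.trans e2)
    omega
  have hlong : ∑ k ∈ I, gf (Lo k) ≤ ENNReal.ofReal (c / 2 * p) := by
    obtain ⟨i', rfl⟩ : ∃ i', i = i' + 5 := ⟨i - 5, by omega⟩
    refine (BAR.gf_bi_eq I Lo fun k l t h1 h2 => ?_).trans ?_
    · rw [hLo] at h1 h2
      exact hdisj k l t h1.1 h2.1
    · refine (arc_long (i := i') (y := lam * m i') ?_ ?_).trans ?_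
      · intro t ht
        rw [Set.mem_iUnion₂] at ht
        obtain ⟨k, -, hk⟩ := ht
        rw [hLo] at hk
        have h1 := hk.1
        rw [hT] at h1
        exact hcls i' _ t h1
      · intro t ht
        rw [Set.mem_iUnion₂] at ht
        obtain ⟨k, -, hk⟩ := ht
        rw [hLo] at hk
        have h1 := hk.2
        have h2 := hmono i'
        nlinarith
      · obtain ⟨r1, r2⟩ := htail i' lam hlam1
        refine (mul_le_mul_right (add_le_add r1 r2) _).trans ?_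
        rw [← ENNReal.ofReal_add (by positivity) (by positivity), ← ENNReal.ofReal_mul (by positivity)]
        apply ENNReal.ofReal_le_ofReal
        have h1 := q5 i'
        rw [← hp] at h1
        calc 1 / xc * (R * (2 : ℝ) ^ (-((i' : ℝ) / 4)) / lam ^ 2 + R * (2 : ℝ) ^ (-((i' : ℝ) / 4)) / lam ^ 2)
            ≤ 1 / xc * (R * (3 * p) / lam ^ 2 + R * (3 * p) / lam ^ 2) := by gcongr
          _ = 1 / xc * (R * 3 / lam ^ 2 + R * 3 / lam ^ 2) * p := by ring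
          _ ≤ _ := mul_le_mul_of_nonneg_right hlam2 hp0.le
  have hshort : ENNReal.ofReal (c / 2 * p) ≤ ∑ k ∈ I, gf (Sh k) := by
    have h1 := hwide.trans (hsplit.trans (add_le_add le_rfl hlong))
    have e1 : c * p = c / 2 * p + c / 2 * p := by ring
    rw [e1, ENNReal.ofReal_add (by positivity) (by positivity)] at h1
    exact (ENNReal.add_le_add_iff_right ENNReal.ofReal_ne_top).1 h1
  -- the windows
  have hwin : ∑ k ∈ I, gf (Sh k) ≤ ∑ r ∈ range nw, gf (AT m i (d0 + r * q) δ (2 * lam)) := by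
    refine (BAR.gf_bi_eq I Sh fun k l t h1 h2 => ?_).trans ((gf_mono ?_).trans (BAR.gf_bi_le _ _))
    · rw [hSh] at h1 h2
      exact hdisj k l t h1.1 h2.1
    · intro t ht
      rw [Set.mem_iUnion₂] at ht ⊢
      obtain ⟨k, hk, hkt⟩ := ht
      rw [hI, Finset.mem_filter, Finset.mem_range] at hk
      rw [hSh] at hkt
      have hk1 : d0 ≤ k + 1 := by
        rw [hd0]
        exact Nat.ceil_le.2 (by push_cast; exact hk.2)
      obtain ⟨r, hr⟩ : ∃ r, r = (k + 1 - d0) / q := ⟨_, rfl⟩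
      have hr1 : r * q ≤ k + 1 - d0 := by rw [hr]; exact Nat.div_mul_le_self _ _
      have hr2 : k + 1 - d0 < r * q + q := by
        rw [hr]
        exact Nat.lt_div_mul_add hq0
      have hrn : r < nw := by
        have h1 : (r : ℝ) * q ≤ K * T := by
          have : r * q ≤ K * T := by omega
          exact_mod_cast this
        have h2 : (r : ℝ) * (δ * T / 2) ≤ K * T := (mul_le_mul_of_nonneg_left hq2 (Nat.cast_nonneg r)).trans h1
        have h3 : (r : ℝ) ≤ 2 * K / δ := by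
          rw [le_div_iff₀ hδ]
          have h4 : (r : ℝ) * δ * T ≤ 2 * K * T := by nlinarith
          exact le_of_mul_le_mul_right h4 hT1
        have h4 : (r : ℝ) ≤ (⌈2 * K / δ⌉₊ : ℝ) := h3.trans (Nat.le_ceil _)
        have h5 : r ≤ ⌈2 * K / δ⌉₊ := by exact_mod_cast h4
        omega
      refine ⟨r, Finset.mem_range.2 hrn, k + 1, by omega, ?_, ?_, hkt.2⟩
      · have h1 : k + 1 ≤ d0 + r * q + q := by omega
        have h2 : ((k + 1 : ℕ) : ℝ) ≤ ((d0 + r * q : ℕ) : ℝ) + q := by exact_mod_cast h1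
        rw [← hTr]
        linarith
      · have h1 := hkt.1
        rw [hT] at h1
        exact h1
  by_contra hcon
  push Not at hcon
  have h1 : ∀ r ∈ range nw, gf (AT m i (d0 + r * q) δ (2 * lam)) ≤ ENNReal.ofReal (c / (4 * nw) * p) := by
    intro r _
    refine (hcon (d0 + r * q) ?_).le
    rw [← hTr]
    push_cast
    have : (0 : ℝ) ≤ (r : ℝ) * q := by positivity
    linarith
  have h2 := hshort.trans (hwin.trans (Finset.sum_le_sum h1))
  rw [Finset.sum_const, Finset.card_range, nsmul_eq_mul, ← ENNReal.ofReal_natCast, ← ENNReal.ofReal_mul (by positivity),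
    ENNReal.ofReal_le_ofReal_iff (by positivity)] at h2
  have h3 : (nw : ℝ) * (c / (4 * nw) * p) = c / 4 * p := by field_simp
  rw [h3] at h2
  have : 0 < c * p := by positivity
  linarith

end POL

end HexObs
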