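import Pool.Agent.POL.Coarse
import Pool.Agent.NTW.QDefs

/-!
POL, row U4c: sums of the ranges of the leaves.
-/

set_option autoImplicit false

namespace HexObs

namespace POL

open Finset TS SDN NTW

variable {b m u : ℕ} {t : List Bool} {e : ℕ → ℕ}

/-- inside a leaf -/
lemma fd_leaf (h : Fd b t m u e) {l : ℕ} (hl : l < m) {i i' : ℕ} (h1 : e l ≤ i) (h2 : i ≤ e (l + 1)) (h3 : e l ≤ i')
    (h4 : i' ≤ e (l + 1)) : |lev t i - lev t i'| ≤ RG t u e l := by
  have hG := h.2.1
  have hlo : ∀ i, e l ≤ i → i ≤ e (l + 1) → Tight.sg (u + l) (lev t (e l)) ≤ Tight.sg (u + l) (lev t i) := by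
    intro i i1 i2
    rcases Nat.eq_zero_or_pos l with rfl | h0
    · exact hG.lo0 i i1 i2
    · rcases Nat.lt_or_ge (e l) i with h3 | h3
      · exact (hG.lo l h0 hl i h3 i2).le
      · rw [show i = e l by omega]
  have a1 := hlo i h1 h2
  have a2 := hlo i' h3 h4
  have a3 := hG.hi l hl i h1 h2
  have a4 := hG.hi l hl i' h3 h4
  unfold RG
  rw [abs_le]
  unfold Tight.sg at a1 a2 a3 a4 ⊢
  split_ifs at a1 a2 a3 a4 ⊢ <;> constructor <;> omega

lemma fd_RG (h : Fd b t m u e) {l : ℕ} (hl : l < m) : RR b ≤ RG t u e l := h.2.2.1 l hl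

/-- the ends of a leaf -/
lemma fd_abs (h : Fd b t m u e) {l : ℕ} (hl : l < m) : |lev t (e (l + 1)) - lev t (e l)| = RG t u e l := by
  have h1 := fd_RG h hl
  have h2 := RR_pos b
  unfold RG at h1 ⊢
  unfold Tight.sg at h1 ⊢
  split_ifs at h1 ⊢
  · rw [abs_of_nonpos (by omega)]
    ring
  · rw [abs_of_nonneg (by omega)]

/-- behind the last fold -/
lemma fd_tail (h : Fd b t m u e) {i : ℕ} (h1 : e m ≤ i) (h2 : i ≤ t.length) :
    |lev t i - lev t (e m)| ≤ RG t u e (m - 1) ∧ |lev t i - lev t (e (m - 1))| ≤ RG t u e (m - 1) := by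
  have hG := h.2.1
  have hm := h.1
  have hR := fd_RG h (l := m - 1) (by omega)
  have hle := hG.le
  have h3 := h.2.2.2.2.2 i (e m) h1 h2 le_rfl hle
  have h4 := h.2.2.2.2.2 (e m) i le_rfl hle h1 h2
  have h5 : Tight.sg (u + (m - 1)) (lev t i) ≤ Tight.sg (u + (m - 1)) (lev t (e m)) := by
    rcases Nat.lt_or_ge (e m) i with h6 | h6
    · exact (hG.fin i h6 h2).le
    · rw [show i = e m by omega]
  have hR1 := RR_pos b
  unfold RG at hR ⊢
  rw [show m - 1 + 1 = m by omega] at hR ⊢
  rw [abs_le, abs_le]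
  unfold Tight.sg at h5 hR ⊢
  split_ifs at h5 hR ⊢ <;> refine ⟨⟨?_, ?_⟩, ⟨?_, ?_⟩⟩ <;> omega

/-- between two folds -/
lemma fd_ends (h : Fd b t m u e) {X : ℤ} {p q : ℕ} (hpq : p ≤ q) (hq : q ≤ m) (hX : ∀ l, p ≤ l → l < q → RG t u e l ≤ X) :
    |lev t (e q) - lev t (e p)| ≤ (q - p : ℕ) * X := by
  obtain ⟨d, rfl⟩ := Nat.exists_eq_add_of_le hpq
  clear hpq
  induction d with
  | zero => simp
  | succ d ih =>
    have h1 := ih (by omega) fun l h2 h3 => hX l h2 (by omega)
    have h2 := fd_abs h (l := p + d) (by omega)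
    have h3 := hX (p + d) (by omega) (by omega)
    rw [show p + d - p = d by omega] at h1
    rw [show p + (d + 1) - p = d + 1 by omega, show p + (d + 1) = p + d + 1 from rfl]
    push_cast
    have h4 := abs_sub_le (lev t (e (p + d + 1))) (lev t (e (p + d))) (lev t (e p))
    linarith

/-- **the range of a word that starts with its first fold** -/
theorem range_le (h : Fd b t m u e) (h0 : e 0 = 0) {X : ℤ} (hX : ∀ l, l < m → RG t u e l ≤ X) {i i' : ℕ} (hi : i ≤ t.length)
    (hi' : i' ≤ t.length) : |lev t i - lev t i'| ≤ m * X := by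
  wlog hii : i ≤ i' generalizing i i'
  · rw [abs_sub_comm]
    exact this hi' hi (by omega)
  have hm := h.1
  have hX0 : 0 ≤ X := by
    have h1 := fd_RG h (l := 0) (by omega)
    have h2 := hX 0 (by omega)
    have h3 := RR_pos b
    omega
  -- the leaf of i
  have hloc : ∀ i, i ≤ e m → ∃ l, l < m ∧ e l ≤ i ∧ i ≤ e (l + 1) := by
    intro i hi
    rcases Nat.eq_zero_or_pos i with rfl | h1
    · exact ⟨0, by omega, by omega, by omega⟩
    · obtain ⟨l, h2, h3, h4⟩ := Co.loc (e := e) (m := m) (x := i) (by omega) hi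
      exact ⟨l, h2, h3.le, h4⟩
  -- the level of i' seen from the beginning and the end of its leaf
  have hplace : ∀ i, i ≤ t.length → ∃ l, l < m ∧ e l ≤ i ∧ (i ≤ e (l + 1) ∨ l + 1 = m ∧ e m ≤ i) ∧
      |lev t i - lev t (e l)| ≤ X ∧ |lev t i - lev t (e (l + 1))| ≤ X := by
    intro i hi
    rcases Nat.lt_or_ge i (e m) with h1 | h1
    · obtain ⟨l, h2, h3, h4⟩ := hloc i h1.le
      have h5 := hX l h2
      have h6 := h.2.1.lt l h2
      exact ⟨l, h2, h3, Or.inl h4, (fd_leaf h h2 h3 h4 le_rfl h6.le).trans h5, (fd_leaf h h2 h3 h4 h6.le le_rfl).trans h5⟩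
    · have h5 := hX (m - 1) (by omega)
      have h6 := h.2.1.lt (m - 1) (by omega)
      have h7 := fd_tail h h1 hi
      rw [show m - 1 + 1 = m by omega] at h6
      refine ⟨m - 1, by omega, by omega, Or.inr ⟨by omega, h1⟩, h7.2.trans h5, ?_⟩
      rw [show m - 1 + 1 = m by omega]
      exact h7.1.trans h5
  obtain ⟨l, l1, l2, l3, l4, l5⟩ := hplace i hi
  obtain ⟨l', l1', l2', l3', l4', l5'⟩ := hplace i' hi'
  have hmX : X ≤ m * X := by
    have : (1 : ℤ) ≤ m := by exact_mod_cast hm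
    nlinarith
  rcases Nat.lt_trichotomy l l' with h1 | h1 | h1
  · have h2 := fd_ends h (p := l + 1) (q := l') (X := X) (by omega) l1'.le fun j _ j2 => hX j (by omega)
    have h3 : ((l' - (l + 1) : ℕ) : ℤ) + 2 ≤ m := by
      have : l' - (l + 1) + 2 ≤ m := by omega
      exact_mod_cast this
    have h4 := abs_sub_le (lev t i) (lev t (e (l + 1))) (lev t i')
    have h5 := abs_sub_le (lev t (e (l + 1))) (lev t (e l')) (lev t i')
    rw [abs_sub_comm (lev t (e (l + 1))) (lev t (e l'))] at h5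
    rw [abs_sub_comm (lev t (e l')) (lev t i')] at h5
    nlinarith
  · subst h1
    refine le_trans ?_ hmX
    rcases l3 with l3 | ⟨l3, l3'⟩
    · rcases l3' with l3'' | ⟨l3'', l3'''⟩
      · exact (fd_leaf h l1 l2 l3 l2' l3'').trans (hX l l1)
      · -- i in the last leaf, i' behind it
        have h7 := h.2.1
        have h8 := fd_RG h l1
        have h9 := fd_tail h l3''' hi'
        have a1 := hX l l1
        have hlo : Tight.sg (u + l) (lev t (e l)) ≤ Tight.sg (u + l) (lev t i) := by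
          rcases Nat.eq_zero_or_pos l with rfl | h0
          · exact h7.lo0 i l2 l3
          · rcases Nat.lt_or_ge (e l) i with h3 | h3
            · exact (h7.lo l h0 l1 i h3 l3).le
            · rw [show i = e l by omega]
        have hhi := h7.hi l l1 i l2 l3
        have b1 := h.2.2.2.2.2 i' (e m) l3''' hi' le_rfl h7.le
        have b2 := h.2.2.2.2.2 (e m) i' le_rfl h7.le l3''' hi'
        have b3 : Tight.sg (u + l) (lev t i') ≤ Tight.sg (u + l) (lev t (e (l + 1))) := by
          rcases Nat.lt_or_ge (e m) i' with h6 | h6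
          · have := h7.fin i' h6 hi'
            rw [show m - 1 = l by omega, ← l3''] at this
            exact this.le
          · rw [show i' = e (l + 1) by rw [l3'']; omega]
        rw [← l3''] at b1 b2
        unfold RG at a1 h8
        rw [abs_le]
        unfold Tight.sg at a1 h8 hlo hhi b3
        split_ifs at a1 h8 hlo hhi b3 <;> constructor <;> omega
    · -- both behind
      have c1 := h.2.2.2.2.2 i i' l3' hi (by omega) hi'
      have c2 := h.2.2.2.2.2 i' i (by omega) hi' l3' hi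
      have c3 := fd_RG h l1
      have c4 := hX l l1
      rw [abs_le]
      constructor <;> omega
  · rcases l3' with l3'' | ⟨l3'', -⟩
    · have h2 := fd_mono h (i := l' + 1) (j := l) (by omega) l1.le
      have h3 : i = i' := by omega
      rw [h3, sub_self, abs_zero]
      omega
    · exfalso
      omega

/-- **a tall leaf** -/
theorem tall_ex (h : Fd b t m u e) (h0 : e 0 = 0) {i i' : ℕ} (hi : i ≤ t.length) (hi' : i' ≤ t.length) :
    ∃ l, l < m ∧ |lev t i - lev t i'| ≤ m * RG t u e l := by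
  by_contra hc
  push Not at hc
  have hm := h.1
  obtain ⟨l, hl, hmax⟩ : ∃ l ∈ range m, ∀ l' ∈ range m, RG t u e l' ≤ RG t u e l :=
    (range m).exists_max_image _ ⟨0, mem_range.2 (by omega)⟩
  have h1 := hc l (mem_range.1 hl)
  have h2 := range_le h h0 (X := RG t u e l) (fun l' hl' => hmax l' (mem_range.2 hl')) hi hi'
  omega

/-- a tall leaf between two folds -/
theorem tall_between (h : Fd b t m u e) {p q : ℕ} (hpq : p < q) (hq : q ≤ m) :
    ∃ l, p ≤ l ∧ l < q ∧ |lev t (e q) - lev t (e p)| ≤ (q - p : ℕ) * RG t u e l := by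
  obtain ⟨l, hl, hmax⟩ : ∃ l ∈ Ico p q, ∀ l' ∈ Ico p q, RG t u e l' ≤ RG t u e l :=
    (Ico p q).exists_max_image _ ⟨p, by rw [mem_Ico]; omega⟩
  rw [mem_Ico] at hl
  exact ⟨l, hl.1, hl.2, fd_ends h hpq.le hq fun l' h1 h2 => hmax l' (by rw [mem_Ico]; omega)⟩

end POL

end HexObs
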