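import Pool.Agent.POL.Place
import Pool.Agent.POL.Ranges
import Pool.Agent.SIM.TopHW

/-!
POL, row U4c: many leaves at the scale k + 5, few at the scale k + 6: a run of M leaves behind a tall leaf.
-/

set_option autoImplicit false

namespace HexObs

namespace POL

open Finset TS SDN NTW

/-- runs of M leaves of the scale k + 5 with a tall leaf (backtracks of the scale k + 6) before or behind them -/
def RunTl (k J M : ℕ) : Set (List (List Bool)) :=
  {gs | ∃ (g : List Bool) (ms : List (List Bool)), ms.length = M ∧ (gs = g :: ms ∨ gs = ms ++ [g]) ∧ g ∈ CL (k + 6) ∧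
    2 ^ (k + J) ≤ 8 * (2 * M + 10) ^ 2 * hgt g ∧ ∀ x ∈ ms, x ∈ CL (k + 5)}

/-! ### 1. Vertical edges -/

lemma lvF_succ (s : List Bool) (i : ℕ) : lvF s (i + 1) = lvF s i + ip (pd s i) up := by
  unfold lvF
  rw [pv_succ, ip_add_left]

lemma lvF_even {s : List Bool} {i : ℕ} (h : Even i) : (ip (pd s i) up = 2 ∧ pd s i = up) ∨ ip (pd s i) up = -1 :=
  dir_even up upd _ (pd_mem s i) (by rw [cl_pd, if_pos h])

lemma lvF_odd {s : List Bool} {i : ℕ} (h : ¬ Even i) : (ip (pd s i) up = -2 ∧ pd s i = -up) ∨ ip (pd s i) up = 1 :=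
  dir_odd up upd _ (pd_mem s i) (by rw [cl_pd, if_neg h])

lemma lvF_abs (s : List Bool) (i : ℕ) : |lvF s (i + 1) - lvF s i| ≤ 2 := by
  rw [lvF_succ, abs_le]
  by_cases h : Even i
  · rcases lvF_even (s := s) h with ⟨h1, -⟩ | h1 <;> constructor <;> omega
  · rcases lvF_odd (s := s) h with ⟨h1, -⟩ | h1 <;> constructor <;> omega

/-- a vertical edge upwards -/
lemma vert_up {s : List Bool} {x y : ℕ} (hxy : x ≤ y) (h : 2 ≤ lvF s y - lvF s x) : ∃ a, x ≤ a ∧ a < y ∧ pd s a = up := by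
  by_contra hc
  have key : ∀ n, x + n ≤ y → lvF s (x + n) + (if Even (x + n) then 0 else 1) ≤ lvF s x + (if Even x then 0 else 1) := by
    intro n
    induction n with
    | zero => intro _; exact le_rfl
    | succ n ih =>
      intro hn
      have h1 := ih (by omega)
      have h2 : pd s (x + n) ≠ up := fun h3 => hc ⟨x + n, by omega, by omega, h3⟩
      rw [← add_assoc, lvF_succ]
      by_cases h4 : Even (x + n)
      · have h5 : ¬ Even (x + n + 1) := by rw [Nat.even_add_one]; exact fun h6 => h6 h4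
        rw [if_pos h4] at h1
        rw [if_neg h5]
        rcases lvF_even (s := s) h4 with ⟨-, h6⟩ | h6
        · exact absurd h6 h2
        · omega
      · have h5 : Even (x + n + 1) := by rw [Nat.even_add_one]; exact h4
        rw [if_neg h4] at h1
        rw [if_pos h5]
        rcases lvF_odd (s := s) h4 with ⟨h6, -⟩ | h6 <;> omega
  have h1 := key (y - x) (by omega)
  rw [show x + (y - x) = y by omega] at h1
  split_ifs at h1 <;> omega

/-- a vertical edge downwards -/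
lemma vert_down {s : List Bool} {x y : ℕ} (hxy : x ≤ y) (h : 2 ≤ lvF s x - lvF s y) : ∃ a, x ≤ a ∧ a < y ∧ pd s a = -up := by
  by_contra hc
  have key : ∀ n, x + n ≤ y → lvF s x + (if Even x then 0 else 1) ≤ lvF s (x + n) + (if Even (x + n) then 0 else 1) := by
    intro n
    induction n with
    | zero => intro _; exact le_rfl
    | succ n ih =>
      intro hn
      have h1 := ih (by omega)
      have h2 : pd s (x + n) ≠ -up := fun h3 => hc ⟨x + n, by omega, by omega, h3⟩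
      rw [← add_assoc, lvF_succ]
      by_cases h4 : Even (x + n)
      · have h5 : ¬ Even (x + n + 1) := by rw [Nat.even_add_one]; exact fun h6 => h6 h4
        rw [if_pos h4] at h1
        rw [if_neg h5]
        rcases lvF_even (s := s) h4 with ⟨h6, -⟩ | h6 <;> omega
      · have h5 : Even (x + n + 1) := by rw [Nat.even_add_one]; exact h4
        rw [if_neg h4] at h1
        rw [if_pos h5]
        rcases lvF_odd (s := s) h4 with ⟨-, h6⟩ | h6
        · exact absurd h6 h2
        · omega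
  have h1 := key (y - x) (by omega)
  rw [show x + (y - x) = y by omega] at h1
  split_ifs at h1 <;> omega

/-! ### 2. The word that starts at a vertical edge of a closed word -/

/-- **the word from a vertical edge** -/
lemma cut_word {s : List Bool} {N a : ℕ} (hs : s ∈ Cy N) (hN : 0 < N) (ha : pd s a = up ∨ pd s a = -up) :
    ∃ (w : List Bool) (c : Bool) (ε : ℕ), s.rotate a = w ++ [c] ∧ w ∈ SA ∧ w.length + 1 = N ∧
      ∀ i, i ≤ w.length → lev w i = Tight.sg (ε + 1) (lvF s (a + i) - lvF s a) := by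
  have hrot := Cy.rot hs a
  have hlen := hs.1
  have hrl : (s.rotate a).length = N := by rw [List.length_rotate, hlen]
  have hne : s.rotate a ≠ [] := by
    intro h6
    rw [h6, List.length_nil] at hrl
    omega
  have hwc := List.dropLast_append_getLast hne
  obtain ⟨w, hw⟩ : ∃ w, w = (s.rotate a).dropLast := ⟨_, rfl⟩
  rw [← hw] at hwc
  have hwl : w.length + 1 = N := by
    rw [hw, List.length_dropLast, hrl]
    omega
  have hlev : ∀ i, i ≤ w.length → lev w i = ip (pv s (a + i)) (pd s a) - ip (pv s a) (pd s a) := by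
    intro i hi
    rw [← lev_append (s := w) (t := [(s.rotate a).getLast hne]) (by omega), hwc, rot_lev (by omega)]
  have hSA : w ∈ SA := by
    refine ⟨fun i _ _ => Set.mem_univ _, fun i k hik hk heq => ?_⟩
    rw [← vx_append (s := [(s.rotate a).getLast hne]) (t := w) (by omega),
      ← vx_append (s := [(s.rotate a).getLast hne]) (t := w) (by omega), hwc] at heq
    have := hrot.2.2.2 i k (by omega) (by omega) heq
    omega
  rcases ha with ha | ha
  · refine ⟨w, _, 0, hwc.symm, hSA, hwl, fun i hi => ?_⟩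
    rw [hlev i hi, ha, Nat.zero_add, Tight.sg_one]
    rfl
  · refine ⟨w, _, 1, hwc.symm, hSA, hwl, fun i hi => ?_⟩
    rw [hlev i hi, ha, ip_neg_right, ip_neg_right, Tight.sg_even (by decide)]
    unfold lvF
    ring

/-- an interior leaf has no large backtracks -/
lemma fd_lw_cl {b m u : ℕ} {t : List Bool} {e : ℕ → ℕ} (ht : t ∈ SA) (hb : 1 ≤ b) (h : Fd b t m u e) {j : ℕ} (h1 : 1 ≤ j)
    (h2 : j + 2 ≤ m) : lw t (e j) (e (j + 1)) ∈ CL b := by
  obtain ⟨e', he, hL⟩ := fd_lf h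
  have hp := SIM.posL_lw ht hb hL h1 h2
  obtain ⟨n, hn, -⟩ := lw_brd ht hb hL h1 h2
  rw [he j h1, he (j + 1) (by omega)] at hp hn
  have hp' : PosL t u e j (lw t (e j) (e (j + 1))) := by
    unfold PosL at hp ⊢
    rw [he j h1, he (j + 1) (by omega)] at hp
    exact hp
  exact (fd_cl h (by omega) hp' hn).1

/-! ### 3. The run behind a merged leaf of the cyclic chain -/

/-- **the run of the M leaves behind the merged leaf [P, Q)** -/
theorem run_at {k J M N P Q m v : ℕ} {s : List Bool} {E : ℕ → ℕ} (hs : s ∈ Cy N) (hN : 0 < N)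
    (hC : CC (lvF s) (k + 5) v E) (hper : ∀ j, 1 ≤ j → E (j + m) = E j + N) (hP : 3 ≤ P) (hPQ : P < Q)
    (hpar : (Q - P) % 2 = 1) (hm : Q - P + M + 3 ≤ m)
    (hM1 : ∀ i, E P < i → i ≤ E Q → Tight.sg (v + P) (lvF s (E P)) < Tight.sg (v + P) (lvF s i))
    (hM2 : ∀ i, E P ≤ i → i ≤ E Q → Tight.sg (v + P) (lvF s i) ≤ Tight.sg (v + P) (lvF s (E Q)))
    (hM3 : ∀ i i', E P ≤ i → i ≤ i' → i' ≤ E Q →
      Tight.sg (v + P) (lvF s i) - Tight.sg (v + P) (lvF s i') < RR (k + 6))
    (hG : 3 * 2 ^ (k + J) ≤ 8 * (2 * (M : ℤ) + 10) ^ 2 *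
      (Tight.sg (v + P) (lvF s (E Q)) - Tight.sg (v + P) (lvF s (E P)) - 1)) :
    ∃ (a : ℕ) (w : List Bool) (c : Bool), s.rotate a = w ++ [c] ∧ w ∈ HRm k (RunTl k J M) := by
  have hR : (94 : ℤ) ≤ RR (k + 5) := by
    unfold RR
    have h6 : (2 : ℤ) ^ 5 ≤ 2 ^ (k + 5) := pow_le_pow_right₀ (by norm_num) (by omega)
    norm_num at h6
    omega
  -- a vertical edge in the leaf P - 2
  obtain ⟨a, a1, a2, a3⟩ : ∃ a, E (P - 2) + 1 ≤ a ∧ a ≤ E (P - 1) ∧ (pd s a = up ∨ pd s a = -up) := by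
    have h1 := hC.lt (P - 2) (by omega)
    have h2 := hC.big (P - 2) (by omega)
    have h3 := lvF_abs s (E (P - 2))
    rw [show P - 2 + 1 = P - 1 by omega] at h1 h2
    rw [abs_le] at h3
    rcases Nat.even_or_odd (v + (P - 2)) with h4 | h4
    · rw [Tight.sg_even h4, Tight.sg_even h4] at h2
      obtain ⟨a, b1, b2, b3⟩ := vert_down (s := s) (x := E (P - 2) + 1) (y := E (P - 1)) h1 (by omega)
      exact ⟨a, b1, b2.le, Or.inr b3⟩
    · rw [Tight.sg_odd (Nat.not_even_iff_odd.2 h4), Tight.sg_odd (Nat.not_even_iff_odd.2 h4)] at h2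
      obtain ⟨a, b1, b2, b3⟩ := vert_up (s := s) (x := E (P - 2) + 1) (y := E (P - 1)) h1 (by omega)
      exact ⟨a, b1, b2.le, Or.inl b3⟩
  obtain ⟨w, c, ε, hwc, hSA, hwl, hlev⟩ := cut_word hs hN a3
  refine ⟨a, w, c, hwc, ?_⟩
  have hend : E (Q + M + 1) ≤ a + w.length := by
    have h1 := hper (P - 2) (by omega)
    have h2 := hC.mono (i := Q + M + 1) (j := P - 2 + m) (by omega) (by omega)
    omega
  have hwin := hC.mono (i := P - 1) (j := P) (by omega) (by omega)
  have hwin2 := hC.mono (i := P) (j := P + 1) (by omega) (by omega)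
  have hwin3 := hC.mono (i := P + 1) (j := Q + M + 1) (by omega) (by omega)
  rcases fd_exists (b := k + 5) (by omega) hSA with hno | ⟨m', u', e', hF⟩
  · exfalso
    have h1 := hno (E P - a) (E (P + 1) - a) (by omega) (by omega)
    have h2 := hno (E (P + 1) - a) (E P - a) (by omega) (by omega)
    rw [hlev _ (by omega), hlev _ (by omega), show a + (E P - a) = E P by omega,
      show a + (E (P + 1) - a) = E (P + 1) by omega] at h1 h2
    have h3 := hC.big P (by omega)
    rw [sg_sb, sg_sb] at h1 h2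
    unfold Tight.sg at h1 h2 h3
    split_ifs at h1 h2 h3 <;> omega
  obtain ⟨l, l1, l2, l3⟩ := place hC hlev hF (p := P) (r := Q + M) (by omega) (by omega) a2 hend
  have hlv : ∀ (κ i : ℕ), i ≤ w.length → Tight.sg κ (lev w i) = Tight.sg (κ + ε) (lvF s (a + i)) - Tight.sg (κ + ε) (lvF s a) := by
    intro κ i hi
    rw [hlev i hi, sg_sg, sg_sb]
  obtain ⟨q, hq⟩ : ∃ q, q = Q - P := ⟨_, rfl⟩
  have hA := l3 0 (by omega)
  have hB := l3 q (by omega)
  rw [Nat.add_zero, Nat.add_zero] at hA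
  rw [show P + q = Q by omega] at hB
  obtain ⟨hA1, hA2⟩ := hA
  obtain ⟨hB1, hB2⟩ := hB
  have hle : ∀ j, j ≤ m' → e' j ≤ w.length := by
    intro j hj
    have h1 := fd_mono hF hj le_rfl
    have h2 := hF.2.1.le
    omega
  have hBw := hle (l + q) (by omega)
  have hκ : ∀ x : ℤ, Tight.sg (u' + l + ε) x = Tight.sg (v + P) x := fun x => sg_of_mod (by omega) x
  have hMrg : Mrg w u' e' l (l + q) := by
    refine ⟨by omega, by omega, ?_, ?_⟩
    · intro i i1 i2
      rw [hlv _ _ (by omega), hlv _ _ (by omega), hκ, hκ, hκ, show a + e' l = E P by omega]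
      have := hM1 (a + i) (by omega) (by omega)
      omega
    · intro i i1 i2
      rw [hlv _ _ (by omega), hlv _ _ (by omega), hκ, hκ, hκ, show a + e' (l + q) = E Q by omega]
      have := hM2 (a + i) (by omega) (by omega)
      omega
  obtain ⟨c1, c2⟩ := mrg_cl (b2 := k + 6) hSA (by omega) hF l1 hMrg (by omega) (by
    intro i i' i1 i2 i3
    rw [hlv _ _ (by omega), hlv _ _ (by omega), hκ, hκ, hκ]
    have := hM3 (a + i) (a + i') (by omega) (by omega) (by omega)
    omega)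
  refine ⟨m', u', e', hF, l, l + q, M, l1, hMrg, by omega, Or.inl ⟨by omega, ?_⟩⟩
  refine ⟨_, _, ?_, Or.inl rfl, c1, ?_, ?_⟩
  · unfold lws
    rw [List.length_map, List.length_range]
  · rw [hlv _ _ hBw, hlv _ _ (hle l (by omega)), hκ, hκ, hκ, show a + e' l = E P by omega,
      show a + e' (l + q) = E Q by omega] at c2
    have h1 : Tight.sg (v + P) (lvF s (E Q)) - Tight.sg (v + P) (lvF s (E P)) - 1 =
        3 * (hgt (lw w (e' l) (e' (l + q))) : ℤ) := by omega
    rw [h1] at hG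
    have h2 : (2 : ℤ) ^ (k + J) ≤ 8 * (2 * (M : ℤ) + 10) ^ 2 * (hgt (lw w (e' l) (e' (l + q))) : ℤ) := by nlinarith
    exact_mod_cast h2
  · intro x hx
    unfold lws at hx
    rw [List.mem_map] at hx
    obtain ⟨i, hi, rfl⟩ := hx
    rw [List.mem_range] at hi
    exact fd_lw_cl hSA (by omega) hF (by omega) (by omega)

/-! ### 4. A tall leaf outside -/

lemma cc_ends {F : ℕ → ℤ} {b v : ℕ} {E : ℕ → ℕ} (hC : CC F b v E) {X : ℤ} {p q : ℕ} (hp : 1 ≤ p) (hpq : p ≤ q)
    (hX : ∀ l, p ≤ l → l < q → Tight.sg (v + l) (F (E (l + 1))) - Tight.sg (v + l) (F (E l)) ≤ X) :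
    |F (E q) - F (E p)| ≤ (q - p : ℕ) * X := by
  obtain ⟨d, rfl⟩ := Nat.exists_eq_add_of_le hpq
  clear hpq
  induction d with
  | zero => simp
  | succ d ih =>
    have h1 := ih fun l h2 h3 => hX l h2 (by omega)
    have h2 := hC.big (p + d) (by omega)
    have h3 := hX (p + d) (by omega) (by omega)
    have hR := RR_pos b
    have h5 : |F (E (p + d + 1)) - F (E (p + d))| ≤ X := by
      rw [abs_le]
      unfold Tight.sg at h2 h3
      split_ifs at h2 h3 <;> constructor <;> omega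
    rw [show p + d - p = d by omega] at h1
    rw [show p + (d + 1) - p = d + 1 by omega, show p + (d + 1) = p + d + 1 from rfl]
    push_cast
    have h4 := abs_sub_le (F (E (p + d + 1))) (F (E (p + d))) (F (E p))
    linarith

lemma cc_tall {F : ℕ → ℤ} {b v : ℕ} {E : ℕ → ℕ} (hC : CC F b v E) {p q : ℕ} (hp : 1 ≤ p) (hpq : p < q) :
    ∃ r, p ≤ r ∧ r < q ∧ |F (E q) - F (E p)| ≤
      (q - p : ℕ) * (Tight.sg (v + r) (F (E (r + 1))) - Tight.sg (v + r) (F (E r))) := by
  obtain ⟨l, hl, hmax⟩ : ∃ l ∈ Ico p q, ∀ l' ∈ Ico p q, Tight.sg (v + l') (F (E (l' + 1))) - Tight.sg (v + l') (F (E l')) ≤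
      Tight.sg (v + l) (F (E (l + 1))) - Tight.sg (v + l) (F (E l)) :=
    (Ico p q).exists_max_image (fun l => Tight.sg (v + l) (F (E (l + 1))) - Tight.sg (v + l) (F (E l)))
      ⟨p, by rw [mem_Ico]; omega⟩
  rw [mem_Ico] at hl
  exact ⟨l, hl.1, hl.2, cc_ends hC hp hpq.le fun l' h1 h2 => hmax l' (by rw [mem_Ico]; omega)⟩

namespace Fw1

/-- numbers, merged leaf -/
lemma num1 {A P r G : ℤ} (hA : 10 ≤ A) (hP : 9 * A ^ 2 ≤ P) (h1 : 3 * P ≤ A * r) (h2 : r ≤ G) :
    3 * (4 * P) ≤ 8 * A ^ 2 * (G - 1) := by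
  have h3 : A * r ≤ A * G := by nlinarith
  have h4 : A * (3 * P) ≤ A * (A * G) := by nlinarith
  nlinarith

/-- numbers, fine leaf -/
lemma num2 {A P r G r' : ℤ} (hA : 10 ≤ A) (hP : 9 * A ^ 2 ≤ P) (h1 : 3 * P ≤ A * r) (h2 : r ≤ G) (h3 : G ≤ A * r') :
    3 * (4 * P) ≤ 8 * A ^ 2 * (r' - 1) := by
  have h4 : A * r ≤ A * (A * r') := by nlinarith
  nlinarith

end Fw1

open Fw1

/-- **many leaves at the scale k + 5, few at the scale k + 6**, seen from the bottom -/
theorem few_bot {k J M N m u m2 u2 τ : ℕ} {w : List Bool} {c : Bool} {e e2 : ℕ → ℕ} {H : ℤ} (hJ : 2 ≤ k + J)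
    (hbig : 36 * (2 * M + 10) ^ 2 ≤ 2 ^ (k + J)) (hH : 3 * 2 ^ (k + J - 2) ≤ H) (hs : w ++ [c] ∈ Cy N)
    (hB : BotW w H τ) (h : Fd (k + 5) w m u e) (hu : u % 2 = 1) (h0 : e 0 = 0) (hem : e m = w.length)
    (h2 : Fd (k + 6) w m2 u2 e2) (h20 : e2 0 = 0) (hm : 2 * M + 10 ≤ m) (hm2 : m2 < 2 * M + 10) :
    ∃ (a : ℕ) (w' : List Bool) (c' : Bool), (w ++ [c]).rotate a = w' ++ [c'] ∧ w' ∈ HRm k (RunTl k J M) := by
  obtain ⟨hmev, hC⟩ := cc_bot hs hB h hu h0 hem
  obtain ⟨s, hsd⟩ : ∃ s, s = w ++ [c] := ⟨_, rfl⟩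
  rw [← hsd] at hs hC ⊢
  have hN : w.length + 1 = N := by
    have := hs.1
    rw [hsd, List.length_append, List.length_singleton] at this
    exact this
  obtain ⟨E, hE⟩ : ∃ E, E = cyE N m e := ⟨_, rfl⟩
  rw [← hE] at hC
  have hper : ∀ j, 1 ≤ j → E (j + m) = E j + N := fun j hj => by rw [hE]; exact cyE_per (by omega) hj
  have hEs : ∀ j, 1 ≤ j → j ≤ m → E j = e j := fun j j1 j2 => by rw [hE]; exact cyE_small j1 j2
  have hFN : ∀ i, i ≤ w.length → lvF s (N + i) = lev w i := by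
    intro i hi
    have h1 := lvF_mul hs 1 i
    rw [Nat.mul_one] at h1
    rw [h1, hsd, lvF_eq hi]
  have hFN' : ∀ i, lvF s (i + N) = lvF s i := by
    intro i
    have h1 := lvF_mul hs 1 i
    rw [Nat.mul_one, Nat.add_comm] at h1
    exact h1
  -- the tall coarse leaf
  obtain ⟨L, hL, hLr⟩ := tall_ex h2 h20 hB.le le_rfl
  have hRL := fd_RG h2 hL
  have hRpos := RR_pos (k + 6)
  have hP4 : (2 : ℤ) ^ (k + J) = 4 * 2 ^ (k + J - 2) := by
    rw [show k + J = k + J - 2 + 2 by omega, pow_add, Nat.add_sub_cancel]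
    ring
  obtain ⟨A, hA⟩ : ∃ A : ℤ, A = 2 * M + 10 := ⟨_, rfl⟩
  have hA10 : 10 ≤ A := by omega
  have hPA : 9 * A ^ 2 ≤ 2 ^ (k + J - 2) := by
    have h3 : (36 * (2 * (M : ℤ) + 10) ^ 2) ≤ 2 ^ (k + J) := by exact_mod_cast hbig
    rw [← hA, hP4] at h3
    linarith
  have hLA : 3 * 2 ^ (k + J - 2) ≤ A * RG w u2 e2 L := by
    have h3 : (m2 : ℤ) ≤ A := by omega
    have h4 := hB.top
    have h5 := hB.last
    have h6 := le_abs_self (lev w τ - lev w w.length)
    nlinarith
  obtain ⟨l1, c1, c2, c3, c4⟩ := fd_sub0 (by omega) h h2 h0 h20 (L := L) hL.le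
  obtain ⟨l2, d1, d2, d3, d4⟩ := fd_sub0 (by omega) h h2 h0 h20 (L := L + 1) hL
  rw [Nat.even_iff, Nat.even_iff] at c4 d4
  have hl12 : l1 < l2 := by
    by_contra hc
    have h3 := fd_mono h (i := l2) (j := l1) (by omega) c2
    have h4 := h2.2.1.lt L hL
    omega
  have hL0 : 1 ≤ l1 → 1 ≤ L := by
    intro h3
    by_contra hc
    have h4 : L = 0 := by omega
    have h5 := fd_mono h (i := 0) (j := l1) (Nat.zero_le _) c2
    rw [h4, h20] at c3
    omega
  have hL0' : l1 = 0 → L = 0 := by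
    intro h3
    by_contra hc
    have h5 := fd_mono h2 (i := 0) (j := L) (Nat.zero_le _) hL.le
    rw [h3, h0] at c3
    omega
  have hle : ∀ j, j ≤ m → e j ≤ w.length := by
    intro j hj
    have := fd_mono h hj le_rfl
    omega
  have hEQ : E (m + l2) = N + e l2 := by
    rw [Nat.add_comm m l2, hper l2 (by omega), hEs l2 (by omega) d2]
    omega
  have hκ : ∀ x : ℤ, Tight.sg (u + (m + l1)) x = Tight.sg (u2 + L) x := fun x => sg_of_mod (by omega) x
  have hG2 := h2.2.1
  -- the levels between the folds E (m + l1) and E (m + l2)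
  have hEP : (1 ≤ l1 ∧ E (m + l1) = N + e l1) ∨ (l1 = 0 ∧ E (m + l1) + 1 = N ∧ lvF s (E (m + l1)) = -1 ∧
      ∀ x : ℤ, Tight.sg (u2 + L) x = x) := by
    rcases Nat.eq_zero_or_pos l1 with h3 | h3
    · right
      have h4 : E (m + l1) = w.length := by rw [h3, Nat.add_zero, hEs m (by omega) le_rfl, hem]
      refine ⟨h3, by omega, ?_, fun x => ?_⟩
      · rw [h4, hsd, lvF_eq le_rfl, hB.last]
      · rw [← hκ, h3]
        exact Tight.sg_odd (by rw [Nat.even_iff]; omega) x
    · left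
      refine ⟨h3, ?_⟩
      rw [Nat.add_comm m l1, hper l1 h3, hEs l1 h3 c2]
      omega
  have hlo0 : ∀ i, e2 L ≤ i → i ≤ e2 (L + 1) → Tight.sg (u2 + L) (lev w (e2 L)) ≤ Tight.sg (u2 + L) (lev w i) := by
    intro i i1 i2
    rcases Nat.eq_zero_or_pos L with h3 | h3
    · rw [h3] at i1 i2 ⊢
      exact hG2.lo0 i i1 i2
    · rcases Nat.lt_or_ge (e2 L) i with h4 | h4
      · exact (hG2.lo L h3 hL i h4 i2).le
      · rw [show i = e2 L by omega]
  have hM1 : ∀ i, E (m + l1) < i → i ≤ E (m + l2) →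
      Tight.sg (u2 + L) (lvF s (E (m + l1))) < Tight.sg (u2 + L) (lvF s i) := by
    intro i i1 i2
    have h3 := hle l2 d2
    rcases hEP with ⟨h4, h5⟩ | ⟨h4, h5, h6, h7⟩
    · obtain ⟨x, rfl⟩ : ∃ x, i = N + x := ⟨i - N, by omega⟩
      rw [h5, hFN _ (hle l1 c2), hFN _ (by omega), c3]
      exact hG2.lo L (hL0 h4) hL x (by omega) (by omega)
    · obtain ⟨x, rfl⟩ : ∃ x, i = N + x := ⟨i - N, by omega⟩
      rw [h6, hFN _ (by omega), h7, h7]
      have h9 : e2 L = 0 := by rw [← c3, h4, h0]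
      have h8 := hlo0 x (by omega) (by omega)
      rw [h7, h7, ← c3, h4, h0, lev_zero] at h8
      omega
  have hM2 : ∀ i, E (m + l1) ≤ i → i ≤ E (m + l2) →
      Tight.sg (u2 + L) (lvF s i) ≤ Tight.sg (u2 + L) (lvF s (E (m + l2))) := by
    intro i i1 i2
    have h3 := hle l2 d2
    rw [hEQ, hFN _ h3, d3]
    have hkey : ∀ x, N + x = i → Tight.sg (u2 + L) (lvF s i) ≤ Tight.sg (u2 + L) (lev w (e2 (L + 1))) := by
      intro x hx
      have h9 : e l1 ≤ x := by
        rcases hEP with ⟨h4, h5⟩ | ⟨h4, h5, h6, h7⟩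
        · omega
        · rw [h4, h0]
          omega
      rw [← hx, hFN _ (by omega)]
      exact hG2.hi L hL x (by omega) (by omega)
    rcases hEP with ⟨h4, h5⟩ | ⟨h4, h5, h6, h7⟩
    · exact hkey (i - N) (by omega)
    · rcases Nat.lt_or_ge i N with h8 | h8
      · have h9 : i = E (m + l1) := by omega
        rw [h9, h6, h7, h7]
        exact hB.lo _ (by rw [← d3]; exact h3)
      · exact hkey (i - N) (by omega)
  have hM3 : ∀ i i', E (m + l1) ≤ i → i ≤ i' → i' ≤ E (m + l2) →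
      Tight.sg (u2 + L) (lvF s i) - Tight.sg (u2 + L) (lvF s i') < RR (k + 6) := by
    intro i i' i1 i2 i3
    have h3 := hle l2 d2
    have hkey : ∀ x, N + x = i → Tight.sg (u2 + L) (lvF s i) - Tight.sg (u2 + L) (lvF s i') < RR (k + 6) := by
      intro x hx
      have h9 : e l1 ≤ x := by
        rcases hEP with ⟨h4, h5⟩ | ⟨h4, h5, h6, h7⟩
        · omega
        · rw [h4, h0]
          omega
      obtain ⟨x', rfl⟩ : ∃ x', i' = N + x' := ⟨i' - N, by omega⟩
      rw [← hx, hFN _ (by omega), hFN _ (by omega)]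
      exact h2.2.2.2.1 L hL x x' (by omega) (by omega) (by omega)
    rcases hEP with ⟨h4, h5⟩ | ⟨h4, h5, h6, h7⟩
    · exact hkey (i - N) (by omega)
    · rcases Nat.lt_or_ge i N with h8 | h8
      · have h9 : i = E (m + l1) := by omega
        rcases Nat.lt_or_ge i' N with h10 | h10
        · rw [show i' = i by omega]
          omega
        · have h11 := hM1 i' (by omega) i3
          rw [h9]
          omega
      · exact hkey (i - N) (by omega)
  have hGe : RG w u2 e2 L ≤ Tight.sg (u2 + L) (lvF s (E (m + l2))) - Tight.sg (u2 + L) (lvF s (E (m + l1))) := by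
    have h3 := hle l2 d2
    unfold RG
    rw [hEQ, hFN _ h3, d3]
    rcases hEP with ⟨h4, h5⟩ | ⟨h4, h5, h6, h7⟩
    · rw [h5, hFN _ (hle l1 c2), c3]
    · rw [h6, h7, h7, h7, ← c3, h4, h0, lev_zero]
      omega
  rcases Nat.lt_or_ge m (l2 - l1 + M + 3) with hcase | hcase
  · -- few leaves outside: a fine leaf
    obtain ⟨r, r1, r2, r3⟩ := cc_tall hC (p := m + l2) (q := m + l1 + m) (by omega) (by
      by_contra hc
      have h3 : l1 = 0 := by omega
      have h4 : l2 = m := by omega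
      have h5 : Tight.sg (u2 + L) (lvF s (E (m + l2))) = Tight.sg (u2 + L) (lvF s (E (m + l1))) := by
        rw [hEQ, hFN _ (hle l2 d2), h4, hem, hB.last]
        rcases hEP with ⟨h6, -⟩ | ⟨-, -, h6, -⟩
        · omega
        · rw [h6]
      omega)
    have h3 : lvF s (E (m + l1 + m)) = lvF s (E (m + l1)) := by rw [hper _ (by omega), hFN']
    rw [h3] at r3
    have h4 : Tight.sg (u2 + L) (lvF s (E (m + l2))) - Tight.sg (u2 + L) (lvF s (E (m + l1))) ≤
        |lvF s (E (m + l1)) - lvF s (E (m + l2))| := by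
      rw [abs_sub_comm]
      unfold Tight.sg
      split_ifs
      · have := neg_le_abs (lvF s (E (m + l2)) - lvF s (E (m + l1)))
        omega
      · exact le_abs_self _
    have h5 := hC.big r (by omega)
    have h6 := RR_pos (k + 5)
    refine run_at hs (by omega) hC hper (P := r) (Q := r + 1) (by omega) (by omega) (by omega) (by omega) ?_ ?_ ?_ ?_
    · exact hC.lo r (by omega)
    · exact hC.hi r (by omega)
    · intro i i' i1 i2 i3
      exact (hC.small r (by omega) i i' i1 i2 i3).trans_le (RR_mono (by omega))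
    · rw [hP4, ← hA]
      refine num2 hA10 hPA hLA hGe (h4.trans (r3.trans ?_))
      have h7 : ((m + l1 + m - (m + l2) : ℕ) : ℤ) ≤ A := by omega
      nlinarith
  · refine run_at hs (by omega) hC hper (P := m + l1) (Q := m + l2) (by omega) (by omega) (by omega) (by omega) ?_ ?_ ?_ ?_
    · intro i i1 i2
      rw [hκ, hκ]
      exact hM1 i i1 i2
    · intro i i1 i2
      rw [hκ, hκ]
      exact hM2 i i1 i2
    · intro i i' i1 i2 i3
      rw [hκ, hκ]
      exact hM3 i i' i1 i2 i3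
    · rw [hκ, hκ, hP4, ← hA]
      exact num1 hA10 hPA hLA hGe

/-- **row U4c** -/
theorem few_rot {k J M N m u m2 u2 τ : ℕ} {t X Y w : List Bool} {c : Bool} {e e2 : ℕ → ℕ} {H : ℤ} (hJ : 2 ≤ k + J)
    (hbig : 36 * (2 * M + 10) ^ 2 ≤ 2 ^ (k + J)) (hH : 3 * 2 ^ (k + J - 2) ≤ H) (ht : t ∈ WC N (k + J))
    (htX : t = X ++ Y) (htY : Y ++ X = w ++ [c]) (hB : BotW w H τ) (h : Fd (k + 5) w m u e) (hu : u % 2 = 1)
    (h0 : e 0 = 0) (hem : e m = w.length) (h2 : Fd (k + 6) w m2 u2 e2) (h20 : e2 0 = 0) (hm : 2 * M + 10 ≤ m)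
    (hm2 : m2 < 2 * M + 10) : t ∈ RotC N (k + J) (HRm k (RunTl k J M)) := by
  have hrot : t.rotate X.length = Y ++ X := by
    rw [htX, List.rotate_append_length_eq]
  have hs : w ++ [c] ∈ Cy N := by
    rw [← htY, ← hrot]
    exact Cy.rot ht.1 _
  obtain ⟨a, w', c', h3, h4⟩ := few_bot hJ hbig hH hs hB h hu h0 hem h2 h20 hm hm2
  refine ⟨ht, ?_⟩
  rw [← htY, ← hrot, List.rotate_rotate] at h3
  rw [← List.rotate_mod] at h3
  have h5 : (X.length + a) % t.length ≤ t.length := by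
    rcases Nat.eq_zero_or_pos t.length with h6 | h6
    · have := congrArg List.length h3
      rw [List.length_rotate, List.length_append, List.length_singleton] at this
      omega
    · exact (Nat.mod_lt _ h6).le
  refine ⟨t.take ((X.length + a) % t.length), t.drop ((X.length + a) % t.length), w', c', (List.take_append_drop _ _).symm, ?_, h4⟩
  rw [← h3, List.rotate_eq_drop_append_take h5]

end POL

end HexObs
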