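import Pool.Agent.JNT.BaseUp
import Pool.Agent.JNT.Marks
import Pool.Agent.NTA.LongCore

/-!
POL, U6: the tall leaves without backtracks of a coarse scale k + 5 + a are a class of small norm at the scale k, and the runs
of leaves with a given label one of which is such a tall leaf.
-/

set_option autoImplicit false

namespace HexObs

namespace POL

open Finset TS SDN NTW NTA EN NTm JNT

open scoped ENNReal

/-- countable unions of leaf classes -/
theorem smD_iUnion {k : ℕ} {S : ℕ → Set (List Bool)} {δ : ℕ → ℝ} {Δ : ℝ} (hδ : ∀ i, 0 ≤ δ i)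
    (hs : ∑' i, ENNReal.ofReal (δ i) ≤ ENNReal.ofReal Δ) (hΔ : 0 ≤ Δ) (h : ∀ i, SmD DmJ k (S i) (δ i)) :
    SmD DmJ k (⋃ i, S i) Δ := by
  classical
  have hsw : ∀ (T : ℕ → Set (List Bool)) (F : List Bool → ℝ≥0∞), Rec8.sw (⋃ i, T i) F ≤ ∑' i, Rec8.sw (T i) F := by
    intro T F
    rw [Rec8.sw_ind]
    simp only [Rec8.sw_ind]
    rw [ENNReal.tsum_comm]
    refine ENNReal.tsum_le_tsum fun t => ?_
    by_cases ht : t ∈ ⋃ i, T i
    · rw [if_pos ht]
      obtain ⟨i, hi⟩ := Set.mem_iUnion.1 ht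
      refine le_trans ?_ (ENNReal.le_tsum i)
      rw [if_pos hi]
    · rw [if_neg ht]
      exact zero_le
  refine ⟨fun x Φ hΦ => ?_, fun y x Ψ Φ hΨ hf hΦ => ?_⟩
  · have h1 : ∀ t, vA (2 ^ (k + 4)) (⋃ i, S i) Φ t ≤ ∑' i, vA (2 ^ (k + 4)) (S i) Φ t := by
      intro t
      unfold vA
      refine le_trans (Rec8.sw_mono ?_ fun _ _ => le_rfl) (hsw _ _)
      rintro g ⟨h1, h2⟩
      obtain ⟨i, hi⟩ := Set.mem_iUnion.1 h1
      exact Set.mem_iUnion.2 ⟨i, hi, h2⟩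
    refine (xT_mono h1).trans ((xT_tsum _ _ _).trans ((ENNReal.tsum_le_tsum fun i => (h i).near x Φ hΦ).trans ?_))
    rw [ENNReal.tsum_mul_right]
    exact mul_le_mul_left hs _
  · refine (hsw _ _).trans ((ENNReal.tsum_le_tsum fun i => (h i).free y x Ψ Φ hΨ hf hΦ).trans ?_)
    rw [ENNReal.tsum_mul_right]
    refine mul_le_mul_left ?_ _
    have h2 : ∀ i, ENNReal.ofReal (δ i * Ub k) = ENNReal.ofReal (δ i) * ENNReal.ofReal (Ub k) := fun i =>
      ENNReal.ofReal_mul (hδ i)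
    simp only [h2]
    rw [ENNReal.tsum_mul_right, ENNReal.ofReal_mul hΔ]
    exact mul_le_mul_left hs _

/-- a tall leaf without backtracks of a coarse scale is a clean leaf of an upper scale -/
lemma mem_GU {b kc h : ℕ} {g : List Bool} (hg : g ∈ Brd h) (hc : g ∈ CL (b + 5)) (h1 : 34 * 2 ^ kc ≤ h)
    (h2 : h ≤ 2 ^ (kc + 7)) : g ∈ GU b kc (2 ^ (kc + 7)) :=
  ⟨15, le_rfl, h, by omega, h2, hg, Win_of_CL hc⟩

/-- **U6: the tall leaves without backtracks of the scale k + 5 + a** -/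
theorem tall_coarse (a : ℕ) : ∃ (K : ℝ) (s : ℕ), 1 ≤ K ∧ ∀ k V : ℕ,
    SmD DmJ k {g | g ∈ CL (k + 5 + a) ∧ g ∈ HB (2 ^ (k + 4)) ∧ V * 2 ^ (k + s) ≤ hgt g} (K / 4 ^ V) := by
  classical
  obtain ⟨K0, s0, hK0, hgu⟩ := gu_base
  obtain ⟨Kb, hKb, hbox⟩ := smD_box
  obtain ⟨s, hs⟩ : ∃ s, s = a + s0 + 11 := ⟨_, rfl⟩
  obtain ⟨K1, hK1⟩ : ∃ K1 : ℝ, K1 = K0 * 8 ^ 7 * 2 ^ (a + s0 + 5) := ⟨_, rfl⟩
  have hK10 : 0 < K1 := by
    rw [hK1]
    positivity
  -- one positive V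
  have hpos : ∀ k V : ℕ, 1 ≤ V →
      SmD DmJ k {g | g ∈ CL (k + 5 + a) ∧ g ∈ HB (2 ^ (k + 4)) ∧ V * 2 ^ (k + s) ≤ hgt g} (K1 / 4 ^ V) := by
    intro k V hV
    obtain ⟨B, hB⟩ : ∃ B, B = k + a + s0 + 5 := ⟨_, rfl⟩
    obtain ⟨S, hS⟩ : ∃ S : ℕ → Set (List Bool), S = fun i =>
      {g | g ∈ GU (k + a) (B + i) (2 ^ (B + i + 7)) ∧ V ≤ 2 ^ (i + 1)} := ⟨_, rfl⟩
    have hU := Ub_pos k
    have hSi : ∀ i, SmD DmJ k (S i) (K1 / 4 ^ V * (1 / 2 * (1 / 2) ^ i)) := by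
      intro i
      rw [hS]
      rcases Nat.lt_or_ge (2 ^ (i + 1)) V with hi | hi
      · have he : {g | g ∈ GU (k + a) (B + i) (2 ^ (B + i + 7)) ∧ V ≤ 2 ^ (i + 1)} = ∅ :=
          Set.eq_empty_of_forall_notMem fun g hg => by
            have := hg.2
            omega
        simp only [he]
        refine LC.smd_mono subset_rfl (by positivity) LC.smd_empty
      · have h1 := (hgu k (B + i) 7 (k + a) (2 ^ (5 + i)) (by omega) (by omega) (by omega) (by
          rw [← pow_add]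
          exact Nat.pow_le_pow_right (by norm_num) (by omega)) (by omega)).1
        refine LC.smd_mono subset_rfl ?_ (smD_anti (fun g hg => hg.1) h1)
        have e1 : Ub (B + i) / Ub k ≤ 2 ^ (a + s0 + 5) * 2 ^ i := by
          rw [div_le_iff₀ hU]
          have := Fl.Ub_ratio (show k ≤ B + i by omega)
          rw [show B + i - k = a + s0 + 5 + i by omega, pow_add] at this
          exact this
        have e2 : (4 : ℝ) ^ V * 4 ^ (i + 1) ≤ 4 ^ (2 ^ (5 + i)) := by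
          rw [← pow_add]
          apply pow_le_pow_right₀ (by norm_num)
          have a1 : 2 ^ (5 + i) = 16 * 2 ^ (i + 1) := by
            rw [pow_add, pow_succ]
            ring
          have a2 : i + 1 < 2 ^ (i + 1) := Nat.lt_two_pow_self
          omega
        have e3 : (1 : ℝ) / 4 ^ (2 ^ (5 + i)) ≤ 1 / (4 ^ V * 4 ^ (i + 1)) :=
          one_div_le_one_div_of_le (by positivity) e2
        have e4 : (2 : ℝ) ^ i * (1 / 4 ^ (i + 1)) ≤ 1 / 2 * (1 / 2) ^ i := by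
          have h5 : (0 : ℝ) < 2 ^ i := by positivity
          have h6 : (4 : ℝ) ^ (i + 1) = 4 * (2 ^ i * 2 ^ i) := by
            rw [pow_succ, ← mul_pow]
            norm_num
            ring
          have h7 : (2 : ℝ) ^ i * (1 / (4 * (2 ^ i * 2 ^ i))) = 1 / 4 * (1 / 2 ^ i) := by
            field_simp
          have h8 : (0 : ℝ) < 1 / 2 ^ i := by positivity
          rw [one_div_pow, h6, h7]
          linarith
        have e0 : 0 ≤ Ub (B + i) / Ub k := div_nonneg (Ub_pos _).le hU.le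
        calc K0 * 8 ^ 7 / 4 ^ (2 ^ (5 + i)) * (Ub (B + i) / Ub k)
            = K0 * 8 ^ 7 * (1 / 4 ^ (2 ^ (5 + i))) * (Ub (B + i) / Ub k) := by ring
          _ ≤ K0 * 8 ^ 7 * (1 / (4 ^ V * 4 ^ (i + 1))) * (2 ^ (a + s0 + 5) * 2 ^ i) := by gcongr
          _ = K1 / 4 ^ V * (2 ^ i * (1 / 4 ^ (i + 1))) := by
              rw [hK1]
              field_simp
          _ ≤ K1 / 4 ^ V * (1 / 2 * (1 / 2) ^ i) := mul_le_mul_of_nonneg_left e4 (by positivity)
    have hsum : ∑' i : ℕ, ENNReal.ofReal (K1 / 4 ^ V * (1 / 2 * (1 / 2) ^ i)) ≤ ENNReal.ofReal (K1 / 4 ^ V) := by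
      have hsm : Summable fun i : ℕ => (1 / 2 : ℝ) ^ i := summable_geometric_of_lt_one (by norm_num) (by norm_num)
      rw [← ENNReal.ofReal_tsum_of_nonneg (fun i => by positivity) ((hsm.mul_left _).mul_left _), tsum_mul_left,
        tsum_mul_left, tsum_geometric_of_lt_one (by norm_num) (by norm_num)]
      apply ENNReal.ofReal_le_ofReal
      norm_num
    refine smD_anti ?_ (smD_iUnion (fun i => by positivity) hsum (by positivity) hSi)
    rintro g ⟨hc, ⟨h, h1, hh⟩, h2⟩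
    rw [hgt_eq hh] at h2
    have hBs : 2 ^ (k + s) = 64 * 2 ^ B := by
      rw [show k + s = 6 + B by omega, pow_add]
      norm_num
    have hB0 : 0 < 2 ^ B := Nat.two_pow_pos _
    obtain ⟨x, hx⟩ : ∃ x, x = h / 2 ^ B := ⟨_, rfl⟩
    have hx1 : x * 2 ^ B ≤ h := by
      rw [hx]
      exact Nat.div_mul_le_self h _
    have hx2 : h < (x + 1) * 2 ^ B := by
      rw [hx, add_mul, one_mul]
      have := Nat.div_add_mod h (2 ^ B)
      have := Nat.mod_lt h hB0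
      rw [mul_comm]
      omega
    have hx64 : V * 64 ≤ x := by
      rw [hx, Nat.le_div_iff_mul_le hB0]
      rw [hBs] at h2
      linarith
    have hx0 : x ≠ 0 := by omega
    have g1 := Nat.pow_log_le_self 2 hx0
    have g2 := Nat.lt_pow_succ_log_self (b := 2) (by norm_num) x
    have g3 : 6 ≤ Nat.log 2 x := (Nat.le_log_iff_pow_le (by norm_num) hx0).2 (by
      norm_num
      omega)
    obtain ⟨i, hi⟩ : ∃ i, Nat.log 2 x = i + 6 := ⟨Nat.log 2 x - 6, by omega⟩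
    rw [hi] at g1 g2
    have g4 : 2 ^ (i + 6) = 64 * 2 ^ i := by
      rw [pow_add]
      ring
    have g5 : 2 ^ (i + 6).succ = 128 * 2 ^ i := by
      rw [Nat.succ_eq_add_one, pow_succ, pow_add]
      ring
    rw [g4] at g1
    rw [g5] at g2
    have g6 : 2 ^ (B + i) = 2 ^ i * 2 ^ B := by
      rw [pow_add, mul_comm]
    have g7 : 2 ^ (B + i + 7) = 128 * 2 ^ i * 2 ^ B := by
      rw [pow_add, g6]
      ring
    refine Set.mem_iUnion.2 ⟨i, ?_⟩
    rw [hS]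
    refine ⟨mem_GU hh (by rw [show k + a + 5 = k + 5 + a by omega]; exact hc) ?_ ?_, ?_⟩
    · rw [g6]
      calc 34 * (2 ^ i * 2 ^ B) ≤ 64 * 2 ^ i * 2 ^ B := by
            rw [← mul_assoc]
            exact Nat.mul_le_mul_right _ (Nat.mul_le_mul_right _ (by norm_num))
        _ ≤ x * 2 ^ B := Nat.mul_le_mul_right _ g1
        _ ≤ h := hx1
    · rw [g7]
      refine hx2.le.trans (Nat.mul_le_mul_right _ ?_)
      omega
    · rw [pow_succ]
      omega
  -- V = 0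
  refine ⟨Kb * 2 ^ s + K1, s, ?_, fun k V => ?_⟩
  · have : (1 : ℝ) ≤ 2 ^ s := one_le_pow₀ (by norm_num)
    nlinarith
  rcases Nat.eq_zero_or_pos V with hV | hV
  · subst hV
    have h1 := hpos k 1 le_rfl
    have h2 := hbox k s
    refine LC.smd_mono subset_rfl ?_ (smD_anti ?_ (LC.smd_union (by positivity) (by positivity) h2 h1))
    · rw [pow_zero, div_one, pow_one]
      linarith
    · rintro g ⟨hc, hg, -⟩
      by_cases h3 : 1 * 2 ^ (k + s) ≤ hgt g
      · exact Or.inr ⟨hc, hg, h3⟩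
      · left
        obtain ⟨h, h4, h5⟩ := hg
        rw [hgt_eq h5] at h3
        have h6 : 2 ^ (k + s + 2) = 4 * 2 ^ (k + s) := by
          rw [pow_add]
          ring
        exact ⟨h, by omega, by omega, h5⟩
  · refine LC.smd_mono subset_rfl ?_ (hpos k V hV)
    gcongr
    have : 0 ≤ Kb * 2 ^ s := by positivity
    linarith

open Classical in
/-- **U6, the runs**: n leaves of the box, J0 + 1 of them for the label, and one tall leaf without backtracks of the scale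
k + 5 + a -/
theorem run_coarse {Λ : Type} {lab : List Bool → Λ} {a s : ℕ} {K : ℝ} (hK : 0 ≤ K) (hT : ∀ k V : ℕ,
    SmD DmJ k {g | g ∈ CL (k + 5 + a) ∧ g ∈ HB (2 ^ (k + 4)) ∧ V * 2 ^ (k + s) ≤ hgt g} (K / 4 ^ V)) {k mu J0 : ℕ} {E q : ℝ}
    (hq : 1 ≤ q) (hG : GBL lab DmJ k (BrR (2 ^ (k + 4)) (2 ^ (k + mu + 2))) J0 E)
    (hbox : SmD DmJ k (BrR (2 ^ (k + 4)) (2 ^ (k + mu + 2))) q) (V n : ℕ) (hn : J0 + 2 ≤ n) :
    SmRL lab DmJ k {gs | gs.length = n ∧ (∀ g ∈ gs, g ∈ BrR (2 ^ (k + 4)) (2 ^ (k + mu + 2))) ∧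
      ∃ g ∈ gs, g ∈ CL (k + 5 + a) ∧ V * 2 ^ (k + s) ≤ hgt g} ((4 * q) ^ n * (K / 4 ^ V * E)) := by
  have h1 := smRL_marks dmP inH_box (by positivity : 0 ≤ K / 4 ^ V) hq hG hbox (hT k V) n 1
  rw [pow_one] at h1
  refine h1.anti ?_
  rintro gs ⟨h2, h3, g, h4, h5, h6⟩
  refine ⟨h2, by omega, h3, ?_⟩
  exact List.length_pos_of_mem (a := g) (List.mem_filter.2 ⟨h4,
    @decide_eq_true _ (Classical.propDecidable _) ⟨h5, inH_box (h3 g h4), h6⟩⟩)

end POL

end HexObs
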