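import Pool.Agent.POL.Master2
import Pool.Agent.POL.RootRun
import Pool.Agent.POL.FewC
import Pool.Agent.POL.TallC
import Pool.Agent.SIM.Tall

/-!
POL, the closed words with a large extent, part 1: the leaves in the box, the reduction of the tall leaves, numbers.
-/

set_option autoImplicit false

namespace HexObs

namespace POL

open Finset TS SDN NTW NTA SIM JNT

open scoped ENNReal

/-- the interior leaves are leaves of the box -/
lemma leafB {w : List Bool} {kc J m u : ℕ} {e : ℕ → ℕ} (hw : w ∈ WL (kc + J)) (h : Fd (kc + 5) w m u e) {j : ℕ}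
    (h1 : 1 ≤ j) (h2 : j + 2 ≤ m) : lw w (e j) (e (j + 1)) ∈ BrR (2 ^ (kc + 4)) (2 ^ (kc + J + 2)) := by
  obtain ⟨M, hM, hr, -⟩ := mid_pos hw.1 h.2.1 h1 h2
  have h3 := h.2.2.1 j (by omega)
  have h4 : e j ≤ w.length := by
    have a1 := fd_mono h (i := j) (j := m) (by omega) le_rfl
    have a2 := h.2.1.le
    omega
  have h5 : e (j + 1) ≤ w.length := by
    have a1 := fd_mono h (i := j + 1) (j := m) (by omega) le_rfl
    have a2 := h.2.1.le
    omega
  have b1 := lev_box hw h4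
  have b2 := lev_box hw h5
  rw [abs_le] at b1 b2
  have e1 : (2 : ℤ) ^ (kc + 5) = 2 * 2 ^ (kc + 4) := by rw [pow_succ]; ring
  have e2 : (2 : ℤ) ^ (kc + J + 2) = 4 * 2 ^ (kc + J) := by rw [pow_add]; ring
  have p1 : (1 : ℤ) ≤ 2 ^ (kc + 4) := one_le_pow₀ (by norm_num)
  have p2 : (1 : ℤ) ≤ 2 ^ (kc + J) := one_le_pow₀ (by norm_num)
  have h6 : RR (kc + 5) = 3 * 2 ^ (kc + 5) - 2 := rfl
  have c1 : ((2 ^ (kc + 4) : ℕ) : ℤ) ≤ M := by
    push_cast
    omega
  have c2 : (M : ℤ) ≤ ((2 ^ (kc + J + 2) : ℕ) : ℤ) := by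
    push_cast
    unfold Tight.sg at hr
    split_ifs at hr <;> omega
  exact ⟨M, by exact_mod_cast c1, by exact_mod_cast c2, hM⟩

open Classical in
/-- only the leaves of the box of the scale matter -/
lemma smR_hb {k : ℕ} {S : Set (List Bool)} {δ : ℝ} (h : SmR DmJ k {gs | ∃ g ∈ S ∩ HB (2 ^ (k + 4)), gs = [g]} δ) :
    SmR DmJ k {gs | ∃ g ∈ S, gs = [g]} δ := by
  have key : ∀ (Φ : List Bool → ℝ≥0∞) (g : List Bool), g ∈ HB (2 ^ (k + 4)) → runF {gs | ∃ g ∈ S, gs = [g]} Φ g =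
      runF {gs | ∃ g ∈ S ∩ HB (2 ^ (k + 4)), gs = [g]} Φ g := by
    intro Φ g hg
    unfold runF
    refine tsum_congr fun ms => ?_
    have h1 : (g :: ms) ∈ {gs | ∃ g ∈ S, gs = [g]} ↔ (g :: ms) ∈ {gs | ∃ g ∈ S ∩ HB (2 ^ (k + 4)), gs = [g]} := by
      constructor
      · rintro ⟨g', h2, h3⟩
        obtain ⟨rfl, h4⟩ := List.cons_eq_cons.1 h3
        exact ⟨g, ⟨h2, hg⟩, h3⟩
      · rintro ⟨g', h2, h3⟩
        exact ⟨g', h2.1, h3⟩
    simp only [h1]
  refine ⟨fun x Φ hΦ => ?_, fun y x Ψ Φ hΨ hf hΦ => ?_⟩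
  · refine (xT_mono fun t => ?_).trans (h.near x Φ hΦ)
    unfold vA
    exact Rec8.sw_mono' fun g hg => (key Φ g hg.1).le
  · refine le_trans (Rec8.sw_mono' fun g hg => ?_) (h.free y x Ψ Φ hΨ hf hΦ)
    rw [key Φ g hg]

/-- a single leaf is a merged leaf -/
lemma mrg_one {b m u l : ℕ} {w : List Bool} {e : ℕ → ℕ} (h : Fd b w m u e) (h1 : 1 ≤ l) (h2 : l + 1 ≤ m) :
    Mrg w u e l (l + 1) := by
  refine ⟨by omega, by omega, fun i i1 i2 => ?_, fun i i1 i2 => ?_⟩
  · exact h.2.1.lo l h1 (by omega) i i1 i2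
  · exact h.2.1.hi l (by omega) i i1 i2

/-- **less plain leaves** -/
lemma hrm_shrink {kc n n' : ℕ} {RT : Set (List (List Bool))} (h1 : 1 ≤ n') (hn : n' ≤ n) :
    HRm kc (TlR n RT) ⊆ HRm kc (TlR n' RT) := by
  rintro w ⟨m, u, e, hF, l1, l2, d, hl1, hM, hm, hor⟩
  have h12 := hM.1
  rcases hor with ⟨h2, g, ms, h3, h4 | h4, h5⟩ | ⟨h2, g, ms, h3, h4 | h4, h5⟩
  · -- merged first, tall first
    obtain ⟨rfl, h6⟩ := List.cons_eq_cons.1 h4
    have hd : d = n := by
      rw [← h3, ← h6, lws_len]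
    refine ⟨m, u, e, hF, l1, l2, n', hl1, hM, hm, Or.inl ⟨by omega, _, lws w e l2 n', lws_len _ _ _ _, Or.inl rfl, h5⟩⟩
  · -- merged first, tall last
    have hd : d = n := by
      have := congrArg List.length h4
      rw [List.length_cons, List.length_append, List.length_singleton, lws_len, h3] at this
      omega
    subst hd
    have hg : g = lw w (e (l2 + (d - 1))) (e (l2 + (d - 1) + 1)) := by
      have h6 : (lw w (e l1) (e l2) :: lws w e l2 d)[d]'(by rw [List.length_cons, lws_len]; omega) = g := by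
        have : (ms ++ [g])[d]'(by rw [List.length_append, List.length_singleton, h3]; omega) = g := by
          rw [List.getElem_append_right (by omega)]
          simp [h3]
        rw [← this]
        simp only [h4]
      rw [← h6, List.getElem_cons, dif_neg (by omega)]
      exact lws_getE w e l2 d (d - 1) _
    refine ⟨m, u, e, hF, l2 + (d - 1), l2 + (d - 1) + 1, n', by omega, mrg_one hF (by omega) (by omega), by omega,
      Or.inr ⟨by omega, g, lws w e (l2 + (d - 1) - n') n', lws_len _ _ _ _, Or.inr ?_, h5⟩⟩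
    rw [hg]
  · -- merged last, tall first
    have hd : d = n := by
      have := congrArg List.length h4
      rw [List.length_cons, List.length_append, List.length_singleton, lws_len, h3] at this
      omega
    subst hd
    have hg : g = lw w (e (l1 - d)) (e (l1 - d + 1)) := by
      have h6 : (lws w e (l1 - d) d ++ [lw w (e l1) (e l2)])[0]'(by
          rw [List.length_append, List.length_singleton]; omega) = g := by
        simp only [h4, List.getElem_cons_zero]
      rw [← h6, List.getElem_append_left (by rw [lws_len]; omega)]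
      exact lws_getE w e (l1 - d) d 0 _
    refine ⟨m, u, e, hF, l1 - d, l1 - d + 1, n', by omega, mrg_one hF (by omega) (by omega), by omega,
      Or.inl ⟨by omega, g, lws w e (l1 - d + 1) n', lws_len _ _ _ _, Or.inl ?_, h5⟩⟩
    rw [hg]
  · -- merged last, tall last
    have hd : d = n := by
      have := congrArg List.length h4
      rw [List.length_append, List.length_append, List.length_singleton, List.length_singleton, lws_len, h3] at this
      omega
    have h6 : lw w (e l1) (e l2) = g := by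
      have := List.append_inj_right' h4 rfl
      exact (List.cons_eq_cons.1 this).1
    refine ⟨m, u, e, hF, l1, l2, n', hl1, hM, hm, Or.inr ⟨by omega, g, lws w e (l1 - n') n', lws_len _ _ _ _,
      Or.inr (by rw [h6]), h5⟩⟩

lemma hrm_mono {kc : ℕ} {R R' : Set (List (List Bool))} (h : R ⊆ R') : HRm kc R ⊆ HRm kc R' := by
  rintro w ⟨m, u, e, hF, l1, l2, d, hl1, hM, hm, hor⟩
  refine ⟨m, u, e, hF, l1, l2, d, hl1, hM, hm, ?_⟩
  rcases hor with ⟨h2, h3⟩ | ⟨h2, h3⟩
  · exact Or.inl ⟨h2, h h3⟩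
  · exact Or.inr ⟨h2, h h3⟩

/-- linear against exponential -/
lemma lin_exp (a j : ℕ) : a * j ≤ 2 ^ j + a * a := by
  have hp : 0 < 2 ^ j := Nat.two_pow_pos j
  rcases Nat.lt_or_ge j a with h | h
  · have : a * j ≤ a * a := Nat.mul_le_mul_left _ h.le
    omega
  · clear hp
    induction j, h using Nat.le_induction with
    | base =>
      have hp : 0 < 2 ^ a := Nat.two_pow_pos a
      omega
    | succ j hj ih =>
      have h1 : a < 2 ^ a := Nat.lt_two_pow_self
      have h2 : 2 ^ a ≤ 2 ^ j := Nat.pow_le_pow_right (by norm_num) hj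
      rw [pow_succ, mul_add, mul_one]
      omega

/-- **a power against a double exponential** -/
lemma dexp {x : ℝ} (hx : 1 ≤ x) {q c : ℕ} (hq : 1 ≤ q) (hc : 1 ≤ c) (s : ℕ) :
    ∃ A : ℝ, 1 ≤ A ∧ ∀ n : ℕ, x ^ n ≤ A * 4 ^ (2 ^ (n / q - s) / c) := by
  obtain ⟨L, hL⟩ : ∃ L : ℕ, x ≤ 4 ^ L := pow_unbounded_of_one_lt x (by norm_num : (1 : ℝ) < 4) |>.imp fun _ h => h.le
  obtain ⟨a, ha⟩ : ∃ a, a = L * q := ⟨_, rfl⟩
  refine ⟨4 ^ (a * (c * a + s + 1)), one_le_pow₀ (by norm_num), fun n => ?_⟩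
  obtain ⟨j, hj⟩ : ∃ j, j = n / q - s := ⟨_, rfl⟩
  have h1 : n ≤ q * (j + s + 1) := by
    have h2 : n < q * (n / q + 1) := Nat.lt_mul_div_succ n hq
    have h3 : n / q + 1 ≤ j + s + 1 := by omega
    exact h2.le.trans (Nat.mul_le_mul_left _ h3)
  have h4 : L * n ≤ 2 ^ j / c + a * (c * a + s + 1) := by
    have h5 : L * n ≤ a * (j + s + 1) := by
      calc L * n ≤ L * (q * (j + s + 1)) := Nat.mul_le_mul_left _ h1
        _ = a * (j + s + 1) := by rw [ha]; ring
    have h6 := lin_exp (c * a) j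
    rw [← Nat.sub_le_iff_le_add, Nat.le_div_iff_mul_le hc, Nat.sub_mul]
    have h7 : L * n * c ≤ c * a * j + c * a * (s + 1) := by
      calc L * n * c ≤ a * (j + s + 1) * c := Nat.mul_le_mul_right _ h5
        _ = c * a * j + c * a * (s + 1) := by ring
    have h8 : a * (c * a + s + 1) * c = c * a * (c * a) + c * a * (s + 1) := by ring
    have hp : 0 < 2 ^ j := Nat.two_pow_pos j
    omega
  calc x ^ n ≤ (4 ^ L) ^ n := pow_le_pow_left₀ (by linarith) hL n
    _ = 4 ^ (L * n) := by rw [← pow_mul]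
    _ ≤ 4 ^ (2 ^ j / c + a * (c * a + s + 1)) := pow_le_pow_right₀ (by norm_num) h4
    _ = 4 ^ (a * (c * a + s + 1)) * 4 ^ (2 ^ (n / q - s) / c) := by rw [pow_add, hj, mul_comm]

/-- a tall leaf of the chain -/
lemma er_tall {k J s V m u l : ℕ} {t : List Bool} {e : ℕ → ℕ} (ht : t ∈ WL (k + J)) (h : Fd (k + 5) t m u e)
    (hl : l < m) (hl2 : 3 * ((V : ℤ) * 2 ^ (k + s + 1)) ≤ |lev t (e (l + 1)) - lev t (e l)|) (hV : 1 ≤ V) (hs : 5 ≤ s) :
    t ∈ ER k J (RunT k s V) := by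
  have hp2 : (32 : ℤ) ≤ 2 ^ (k + s) := by
    calc (32 : ℤ) = 2 ^ 5 := by norm_num
      _ ≤ _ := pow_le_pow_right₀ (by norm_num) (by omega)
  have hVz : (1 : ℤ) ≤ V := by exact_mod_cast hV
  have hV2 : (2 : ℤ) ^ (k + s) ≤ V * 2 ^ (k + s) := le_mul_of_one_le_left (by positivity) hVz
  have e1 : (V : ℤ) * 2 ^ (k + s + 1) = 2 * (V * 2 ^ (k + s)) := by
    rw [pow_succ]
    ring
  refine ⟨ht, m, u, e, h, l, 1, le_rfl, by omega, fun ms hlen hpos _ _ hbox => ?_⟩
  obtain ⟨g, rfl⟩ : ∃ g, ms = [g] := List.length_eq_one_iff.1 hlen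
  have hg := hpos 0 (by simp)
  simp only [List.getElem_cons_zero, add_zero] at hg
  obtain ⟨h', h1, h2, h3⟩ := hbox g (by simp)
  obtain ⟨c1, c2, c3⟩ := fd_cl h hl hg h3
  refine ⟨g, rfl, c1, ⟨h', h1, h3⟩, ?_⟩
  rw [hgt_eq h3]
  have h4 := (abs_le.1 c3).1
  have h5 : (V : ℤ) * 2 ^ (k + s) ≤ h' := by
    rw [e1] at hl2
    linarith
  exact_mod_cast h5

end POL

end HexObs
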