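import Pool.Agent.POL.RepC
import Pool.Agent.EN.ExCover

/-!
POL (polygons): words whose first fold is their start and whose last fold is their end: the representation by a
chain of leaves behind a given leaf, and the cover.
-/

set_option autoImplicit false

namespace HexObs

namespace POL

open Finset TS SDN NTW NTA EN

open NTW.Rp

open scoped ENNReal

lemma tf_of_vxC {a b : List Bool} {L : ℕ} (h : ∀ i, i ≤ L → vx oo up a i = vx oo up b i) {k : ℕ} (hk : k + 2 ≤ L) :
    tf a k = tf b k := by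
  have hd : ∀ j, j + 1 ≤ L → dx up a j = dx up b j := by
    intro j hj
    have h1 := h (j + 1) hj
    have h2 := h j (by omega)
    rw [vx_succ, vx_succ, h2] at h1
    exact add_left_cancel h1
  have h3 := hd (k + 1) (by omega)
  have h4 := hd k (by omega)
  have e1 : dx up a (k + 1) = turn (tf a k) (dx up a k) := rfl
  have e2 : dx up b (k + 1) = turn (tf b k) (dx up b k) := rfl
  rw [e1, e2, h4] at h3
  have h5 : ∀ d ∈ dirs, ∀ b c : Bool, turn b d = turn c d → b = c := by decide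
  exact h5 _ (dx_mem upd b k) _ _ h3

lemma vis_congrC {P d : Pt} {x y : Bool} {r X : List Bool} (hl : r.length ≤ X.length)
    (h : ∀ i, i ≤ r.length → vx oo up r i = vx oo up X i) : vis P d (x :: y :: r) ⊆ vis P d (x :: y :: X) := by
  rintro p ⟨i, i1, i2, rfl⟩
  refine ⟨i, i1, by simp only [List.length_cons] at i2 ⊢; omega, ?_⟩
  simp only [List.length_cons] at i2
  refine vs_congr i fun k hk => ?_
  rcases k with _ | _ | k
  · rfl
  · rfl
  · exact (tf_of_vxC h (by omega)).symm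

/-- the fold relation sees only the vertices -/
lemma LFold_congrC {g r X : List Bool} (hl : r.length ≤ X.length)
    (h : ∀ i, i ≤ r.length → vx oo up r i = vx oo up X i) (hX : LFold g X) : LFold g r := by
  unfold LFold Hang at hX ⊢
  by_cases hb : lst g = true
  · rw [if_pos hb] at hX ⊢
    exact Disjoint.mono_left (vis_congrC hl h) hX
  · rw [if_neg hb] at hX ⊢
    exact Disjoint.mono_right (vis_congrC hl h) hX

lemma RT_congrC {D : ℕ} {t r X : List Bool} (hl : r.length ≤ X.length)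
    (h : ∀ i, i ≤ r.length → vx oo up r i = vx oo up X i) (hX : RT D LFold t X) : RT D LFold t r := by
  obtain ⟨Z, h1, h2, h3⟩ := hX
  exact ⟨Z, h1, h2, LFold_congrC hl h h3⟩

/-- **the representation of a word whose first fold is its start and whose last fold is its end** -/
theorem both_repC {X : List Bool} {m u : ℕ} {e : ℕ → ℕ} (hX : X ∈ SA) (h : FoldG X m u e) (hm : 1 ≤ m) (h0 : e 0 = 0)
    (h1 : e m = X.length) :
    ∃ (x : Bool) (y : Fin 3) (gs : List (List Bool)), RepG X m u e gs ∧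
      (∀ i, i ≤ (gs.headD []).length → vx oo up (gs.headD []) i = vx oo up X i) ∧ (gs.headD []).length ≤ X.length ∧
      X = endF x y none (unf gs) ∧ (unf gs).length ≤ X.length + 3 := by
  have S := stt_zero h hm h0
  obtain ⟨g, gs, o', x, y, b1, b2, b3, b4, b5, b6, b7, b8, b9, b10, b11⟩ :=
    tail_repC (N1 := 0) hX h (fun i hi1 hi2 => by omega) (m - 1) 0 0 X (by omega) S
  have ho : o' = none := by
    rcases o' with _ | W
    · rfl
    · have := (b6 W rfl).2.1
      omega
  subst ho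
  refine ⟨x, y, g :: gs, ⟨?_, b2, b3, ?_, ?_⟩, b11, by simpa using b10, b7, by simpa using b9⟩
  · rw [List.length_cons]
    omega
  · intro l hl
    have := b4 l hl
    rwa [Nat.zero_add] at this
  · intro l hl c1 c2
    have := b5 l hl (by omega) (by omega)
    rwa [Nat.zero_add] at this

open Classical in
/-- **the cover of the words whose first fold is their start and whose last fold is their end** -/
theorem cover_bothC : ∃ K : ℝ, 1 ≤ K ∧ ∀ (A : Set (List Bool)) (Q : List (List Bool) → Prop),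
    (∀ X ∈ A, X ∈ SA ∧ ∃ (m u : ℕ) (e : ℕ → ℕ), 1 ≤ m ∧ FoldG X m u e ∧ e 0 = 0 ∧ e m = X.length ∧
      ∀ gs, RepG X m u e gs → (∀ i, i ≤ (gs.headD []).length → vx oo up (gs.headD []) i = vx oo up X i) →
        (gs.headD []).length ≤ X.length → Q gs) →
    gf A ≤ ENNReal.ofReal K * ∑' gs : List (List Bool),
      (if gs ≠ [] ∧ gs.IsChain LFold ∧ (∀ g ∈ gs, ∃ k : ℕ, 1 ≤ k ∧ g ∈ Brd k) ∧ Q gs then SDN.wl gs else 0) := by
  have hx := xc_pos
  have hx1 := xc_bounds.2
  have hxx : 1 ≤ xc⁻¹ ^ 10 := one_le_pow₀ ((one_le_inv₀ hx).2 hx1)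
  refine ⟨6 * xc⁻¹ ^ 10, by linarith, ?_⟩
  intro A Q hA
  obtain ⟨F, hF⟩ : ∃ F : List (List Bool) → ℝ≥0∞, F = fun gs =>
      (if gs ≠ [] ∧ gs.IsChain LFold ∧ (∀ g ∈ gs, ∃ k : ℕ, 1 ≤ k ∧ g ∈ Brd k) ∧ Q gs then SDN.wl gs else 0) := ⟨_, rfl⟩
  have h1 : gf A ≤ ∑' x : (Bool × Fin 3) × List (List Bool), ENNReal.ofReal (xc⁻¹ ^ 10) * F x.2 := by
    rw [← Rec8.sw_one]
    refine Rec8.sw_cover A (fun _ => 1)
      (fun x : (Bool × Fin 3) × List (List Bool) => ENNReal.ofReal (xc⁻¹ ^ 10) * F x.2)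
      (fun x => endF x.1.1 x.1.2 none (unf x.2)) ?_
    intro X hXA
    obtain ⟨hX, m, u, e, hm, hG, e0, em, hQ⟩ := hA X hXA
    obtain ⟨x, y, gs, r1, r2, r3, r5, r6⟩ := both_repC hX hG hm e0 em
    refine ⟨((x, y), gs), r5.symm, ?_⟩
    have hne : ∀ g ∈ gs, g ≠ [] := by
      intro g hg
      obtain ⟨k, k1, k2⟩ := r1.brd g hg
      exact Brd_ne_nil k2 k1
    have hgs : gs ≠ [] := by
      rintro rfl
      have := r1.len
      simp at this
      omega
    rw [hF]
    simp only
    rw [if_pos ⟨hgs, r1.ch, r1.brd, hQ gs r1 r2 r3⟩, mul_one]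
    have h5 := CovA.wE_bound (t := X) (o := none) (o' := none) hne hgs (by
      show 0 + _ + 0 ≤ _
      omega)
    refine h5.trans (le_of_eq ?_)
    show _ * (1 * SDN.wl gs * 1) = _
    rw [one_mul, mul_one]
  refine h1.trans ?_
  rw [ENNReal.tsum_prod', tsum_fintype]
  have e1 : ∀ z : Bool × Fin 3, ∑' y : List (List Bool), ENNReal.ofReal (xc⁻¹ ^ 10) * F (z, y).2 =
      ENNReal.ofReal (xc⁻¹ ^ 10) * ∑' gs : List (List Bool),
        (if gs ≠ [] ∧ gs.IsChain LFold ∧ (∀ g ∈ gs, ∃ k : ℕ, 1 ≤ k ∧ g ∈ Brd k) ∧ Q gs then SDN.wl gs else 0) := by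
    intro z
    rw [ENNReal.tsum_mul_left, hF]
  rw [Finset.sum_congr rfl fun z _ => e1 z, Finset.sum_const, Finset.card_univ, Fintype.card_prod, Fintype.card_bool,
    Fintype.card_fin, nsmul_eq_mul, ← mul_assoc, ENNReal.ofReal_mul (by norm_num)]
  refine mul_le_mul_left (le_of_eq ?_) _
  rw [show (6 : ℝ) = ((6 : ℕ) : ℝ) by norm_num, ENNReal.ofReal_natCast]

end POL

end HexObs
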