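import Pool.Agent.POL.Defs
import Pool.Agent.NTA.RunDefs

/-!
POL (polygons): closed ends of a walk.
-/

set_option autoImplicit false

namespace HexObs

namespace POL

open Finset TS SDN SDN.CN NTm NTW NTA

open scoped ENNReal

/-- the end of t is an extremum behind a difference of at least ρ -/
def ClE (ρ : ℤ) (t : List Bool) : Prop := ∃ a k : ℕ, a ≤ t.length ∧
  ρ ≤ Tight.sg k (lev t t.length) - Tight.sg k (lev t a) ∧
  ∀ i, a ≤ i → i ≤ t.length → Tight.sg k (lev t i) ≤ Tight.sg k (lev t t.length)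

/-- the start of t is an extremum before a difference of at least ρ -/
def ClS (ρ : ℤ) (t : List Bool) : Prop := ∃ a k : ℕ, a ≤ t.length ∧
  ρ ≤ Tight.sg k (lev t 0) - Tight.sg k (lev t a) ∧
  ∀ i, i ≤ a → Tight.sg k (lev t i) ≤ Tight.sg k (lev t 0)

lemma Fw_of {b : ℕ} {t : List Bool} {m u : ℕ} {e : ℕ → ℕ} (h : Fd b t m u e) : Fw b t m u e :=
  ⟨h.1, h.2.1, h.2.2.1, h.2.2.2.2.1, h.2.2.2.2.2⟩

lemma ERw_of {kc J : ℕ} {R : Set (List (List Bool))} {t : List Bool} (h : t ∈ ER kc J R) : t ∈ ERw kc J R := by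
  obtain ⟨h1, m, u, e, h2, h3⟩ := h
  exact ⟨h1, m, u, e, Fw_of h2, h3⟩

lemma sgc_succ (k : ℕ) (x : ℤ) : Tight.sg (k + 1) x = -Tight.sg k x := by
  unfold Tight.sg
  by_cases h : Even k
  · rw [if_pos h, if_neg (by rw [Nat.even_add_one]; exact not_not.2 h)]
    ring
  · rw [if_neg h, if_pos (by rw [Nat.even_add_one]; exact h)]

lemma sgc_two (k : ℕ) (x : ℤ) : Tight.sg (k + 2) x = Tight.sg k x := by
  rw [show k + 2 = k + 1 + 1 from rfl, sgc_succ, sgc_succ, neg_neg]

/-- two signs -/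
lemma sgc_sg (a b : ℕ) (x : ℤ) : Tight.sg a (Tight.sg b x) = Tight.sg (a + b + 1) x := by
  unfold Tight.sg
  by_cases ha : Even a <;> by_cases hb : Even b <;>
    simp only [ha, hb, Nat.even_add_one, Nat.even_add, if_true, if_false, neg_neg, not_true, not_false_iff, iff_true,
      iff_false]

lemma sgc_sub (k : ℕ) (x y : ℤ) : Tight.sg k (x - y) = Tight.sg k x - Tight.sg k y := by
  unfold Tight.sg
  split_ifs <;> ring

/-- the same or the opposite sign -/
lemma sgc_or (a b : ℕ) : (∀ x, Tight.sg a x = Tight.sg b x) ∨ ∀ x, Tight.sg a x = -Tight.sg b x := by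
  unfold Tight.sg
  by_cases ha : Even a <;> by_cases hb : Even b
  · left; intro x; rw [if_pos ha, if_pos hb]
  · right; intro x; rw [if_pos ha, if_neg hb]
  · right; intro x; rw [if_neg ha, if_pos hb, neg_neg]
  · left; intro x; rw [if_neg ha, if_neg hb]

lemma sgc_abs (k : ℕ) (x : ℤ) : Tight.sg k x = x ∨ Tight.sg k x = -x := by
  unfold Tight.sg
  split_ifs
  · exact Or.inr rfl
  · exact Or.inl rfl

lemma ClE.mono {ρ ρ' : ℤ} {t : List Bool} (h : ClE ρ t) (hρ : ρ' ≤ ρ) : ClE ρ' t := by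
  obtain ⟨a, k, h1, h2, h3⟩ := h
  exact ⟨a, k, h1, by linarith, h3⟩

/-- the walks with first and last fold at the start and at the end -/
lemma two_closed {b K : ℕ} {t : List Bool} (h : t ∈ SIM.TwoF b K) : ClS (RR b) t ∧ ClE (RR b) t := by
  obtain ⟨-, m, u, e, hF, he0, hem⟩ := h
  obtain ⟨h1, hG, h2, -⟩ := hF
  constructor
  · have h3 := h2 0 (by omega)
    rw [add_zero, zero_add] at h3
    have h4 : e 1 ≤ t.length := Rp.e_le hG h1
    refine ⟨e 1, u + 1, h4, ?_, fun i hi => ?_⟩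
    · rw [sgc_succ, sgc_succ, ← he0]
      linarith
    · have h5 := hG.lo0 i (by omega) hi
      rw [he0] at h5
      rw [sgc_succ, sgc_succ]
      linarith
  · obtain ⟨m', rfl⟩ : ∃ m', m = m' + 1 := ⟨m - 1, by omega⟩
    have h3 := h2 m' (by omega)
    rw [hem] at h3
    refine ⟨e m', u + m', Rp.e_le hG (by omega), h3, fun i i1 i2 => ?_⟩
    have h4 := hG.hi m' (by omega) i i1 (by rw [hem]; exact i2)
    rwa [hem] at h4

/-- **the last fold of a closed walk is its end** -/
theorem cl_last {b : ℕ} {t : List Bool} {m u : ℕ} {e : ℕ → ℕ} (hF : Fd b t m u e) (hC : ClE (RR b) t) :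
    e m = t.length := by
  obtain ⟨h1, hG, h2, -, -, h5⟩ := hF
  obtain ⟨a, k, a1, a2, a3⟩ := hC
  obtain ⟨m', rfl⟩ : ∃ m', m = m' + 1 := ⟨m - 1, by omega⟩
  by_contra hne
  have hle := hG.le
  have hlt : e (m' + 1) < t.length := by omega
  have hfin := hG.fin t.length hlt le_rfl
  rw [show u + (m' + 1 - 1) = u + m' by omega] at hfin
  have hb1 := h2 m' (by omega)
  have hlt' := hG.lt m' (by omega)
  have key : ∀ i i', e (m' + 1) ≤ i → i ≤ t.length → e (m' + 1) ≤ i' → i' ≤ t.length →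
      Tight.sg k (lev t i) - Tight.sg k (lev t i') < RR b := by
    intro i i' i1 i2 i3 i4
    have c1 := h5 i i' i1 i2 i3 i4
    have c2 := h5 i' i i3 i4 i1 i2
    rcases sgc_abs k (lev t i) with h | h <;> rcases sgc_abs k (lev t i') with h' | h' <;>
      unfold Tight.sg at h h' ⊢ <;> split_ifs at h h' ⊢ <;> omega
  have ha : a < e (m' + 1) := by
    by_contra hc
    have := key t.length a hle le_rfl (by omega) a1
    omega
  have hE := a3 (e (m' + 1)) ha.le hle
  rcases sgc_or (u + m') k with hs | hs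
  · rw [hs, hs] at hfin
    omega
  · rw [hs, hs] at hfin hb1
    have c1 := key t.length (e (m' + 1)) hle le_rfl le_rfl hle
    have c2 : e m' < a := by
      by_contra hc
      have := a3 (e m') (by omega) (by omega)
      omega
    have c3 := hG.hi m' (by omega) a c2.le ha.le
    rw [hs, hs] at c3
    omega

/-- words on one side of their start (the level of the start allowed) -/
def NSt (N : ℕ) : Set (List Bool) := {t | t ∈ SA ∧ ∀ i, i ≤ t.length → 0 ≤ lev t i ∧ lev t i ≤ 3 * (N : ℤ)}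

lemma NSt_of {N : ℕ} {t : List Bool} (h1 : ∀ i, i ≤ t.length → 0 ≤ lev t i ∧ lev t i ≤ 3 * (N : ℤ))
    (h2 : ∀ i k, i < k → k ≤ t.length → vx oo up t i ≠ vx oo up t k) : t ∈ NSt N :=
  ⟨⟨fun _ _ _ => Set.mem_univ _, h2⟩, h1⟩

/-- the first fold of a half plane word is its start -/
theorem ss_first {b N : ℕ} {t : List Bool} {m u : ℕ} {e : ℕ → ℕ} (hF : Fd b t m u e) (hS : t ∈ NSt N) : e 0 = 0 := by
  obtain ⟨h1, hG, h2, -, h4, -⟩ := hF
  by_contra hne
  have hlt := hG.lt 0 (by omega)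
  have hle : e 1 ≤ t.length := Rp.e_le hG h1
  rw [zero_add] at hlt
  have p0 := (hS.2 (e 0) (by omega)).1
  have p1 := (hS.2 (e 1) (by omega)).1
  have hbeg := hG.beg 0 (by omega)
  have hb := h2 0 (by omega)
  rw [add_zero, zero_add] at hb
  have hs := h4 (e 0) 0 le_rfl (by omega)
  rw [lev_zero] at hbeg hs
  unfold Tight.sg at hbeg hb
  split_ifs at hbeg hb
  · omega
  · omega

end POL

end HexObs
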