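import Pool.Agent.POL.ClDefs

/-!
POL (polygons): a closed end is inherited by the free end behind the last fold (in front of the first fold) of a chain.
-/

set_option autoImplicit false

namespace HexObs

namespace POL

open Finset TS SDN SDN.CN NTm NTW NTA

open scoped ENNReal

variable {t : List Bool} {m u : ℕ} {e : ℕ → ℕ} {ρ : ℤ}

lemma sgc_even (k n : ℕ) (x : ℤ) : Tight.sg (k + (n + n)) x = Tight.sg k x := by
  induction n with
  | zero => simp
  | succ n ih =>
    rw [show k + (n + 1 + (n + 1)) = k + (n + n) + 2 by ring, sgc_two, ih]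

lemma sgc_step (t : List Bool) (i k : ℕ) : |Tight.sg k (lev t (i + 1)) - Tight.sg k (lev t i)| ≤ 2 := by
  have e2 := lev_succ t i
  have e3 : ∀ d ∈ dirs, |ip d up| ≤ 2 := by decide
  have e4 := e3 _ (dx_mem upd t i)
  rw [← sgc_sub, e2]
  rw [show lev t i + ip (dx up t i) up - lev t i = ip (dx up t i) up by ring]
  rcases sgc_abs k (ip (dx up t i) up) with h | h
  · rw [h]
    exact e4
  · rw [h, abs_neg]
    exact e4

/-- the end -/
lemma right_cl (h : FoldG t m u e) (hm : 1 ≤ m) (hR : ρ ≤ RG t u e (m - 1)) (hC : ClE ρ t) (hlt : e m < t.length) :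
    ∃ a k : ℕ, e m ≤ a ∧ a ≤ t.length ∧ ρ ≤ Tight.sg k (lev t t.length) - Tight.sg k (lev t a) ∧
      ∀ i, a ≤ i → i ≤ t.length → Tight.sg k (lev t i) ≤ Tight.sg k (lev t t.length) := by
  obtain ⟨a, k, a1, a2, a3⟩ := hC
  rcases Nat.lt_or_ge a (e m) with ha | ha
  · obtain ⟨m', rfl⟩ : ∃ m', m = m' + 1 := ⟨m - 1, by omega⟩
    refine ⟨e (m' + 1), k, le_rfl, hlt.le, ?_, fun i i1 i2 => a3 i (by omega) i2⟩
    unfold RG at hR
    rw [show m' + 1 - 1 = m' by omega] at hR
    have hE := a3 (e (m' + 1)) ha.le hlt.le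
    have hfin := h.fin t.length hlt le_rfl
    rw [show u + (m' + 1 - 1) = u + m' by omega] at hfin
    have hlt' := h.lt m' (by omega)
    rcases sgc_or (u + m') k with hs | hs
    · rw [hs, hs] at hfin
      omega
    · rw [hs, hs] at hR
      rcases Nat.lt_or_ge a (e m') with hb | hb
      · have := a3 (e m') hb.le (by omega)
        omega
      · have h3 := h.hi m' (by omega) a hb ha.le
        rw [hs, hs] at h3
        omega
  · exact ⟨a, k, ha, a1, a2, a3⟩

/-- the start -/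
lemma left_cl (h : FoldG t m u e) (hm : 1 ≤ m) (hR : ρ ≤ RG t u e 0) (hC : ClS ρ t) (hlt : 0 < e 0) :
    ∃ a k : ℕ, a ≤ e 0 ∧ ρ ≤ Tight.sg k (lev t 0) - Tight.sg k (lev t a) ∧
      ∀ i, i ≤ a → Tight.sg k (lev t i) ≤ Tight.sg k (lev t 0) := by
  obtain ⟨a, k, a1, a2, a3⟩ := hC
  rcases Nat.lt_or_ge (e 0) a with ha | ha
  · refine ⟨e 0, k, le_rfl, ?_, fun i i1 => a3 i (by omega)⟩
    unfold RG at hR
    rw [add_zero, zero_add] at hR
    have hE := a3 (e 0) ha.le
    have hbeg := h.beg 0 hlt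
    have hlt' := h.lt 0 (by omega)
    rw [zero_add] at hlt'
    rcases sgc_or u k with hs | hs
    · rw [hs, hs] at hR
      rcases Nat.lt_or_ge (e 1) a with hb | hb
      · have := a3 (e 1) hb.le
        omega
      · have h3 := h.lo0 a ha.le hb
        rw [hs, hs] at h3
        omega
    · rw [hs, hs] at hbeg
      omega
  · exact ⟨a, k, ha, a2, a3⟩

/-- levels of a word with one more letter -/
lemma lev_snocC (W : List Bool) (x : Bool) {j : ℕ} (hj : j ≤ W.length + 1) : lev (W ++ [x]) j = lev W j := by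
  unfold lev
  rw [vx_append hj]

/-- **the free end behind the last fold is closed** -/
theorem end_cl (h : FoldG t m u e) (hm : 1 ≤ m) (hR : ρ ≤ RG t u e (m - 1)) (hC : ClE ρ t) {W : List Bool}
    (hl : W.length + 1 + (e m + 1) = t.length)
    (hW : ∀ j, j ≤ W.length + 1 → lev W j = Tight.sg (u + (m - 1)) (lev t (e m + 1)) -
      Tight.sg (u + (m - 1)) (lev t (e m + 1 + j))) (x : Bool) : ClE (ρ - 2) (W ++ [x]) := by
  obtain ⟨a0, k, b1, b2, b3, b4⟩ := right_cl h hm hR hC (by omega)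
  -- the start of the difference behind the fold
  obtain ⟨a, a1, a2, a3, a4⟩ : ∃ a, e m + 1 ≤ a ∧ a ≤ t.length ∧
      ρ - 2 ≤ Tight.sg k (lev t t.length) - Tight.sg k (lev t a) ∧
      ∀ i, a ≤ i → i ≤ t.length → Tight.sg k (lev t i) ≤ Tight.sg k (lev t t.length) := by
    rcases Nat.eq_or_lt_of_le b1 with h0 | h0
    · refine ⟨e m + 1, le_rfl, by omega, ?_, fun i i1 i2 => b4 i (by omega) i2⟩
      rw [← h0] at b3
      have := sgc_step t (e m) k
      rw [abs_le] at this
      omega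
    · exact ⟨a0, h0, b2, by omega, b4⟩
  have hlen : (W ++ [x]).length = W.length + 1 := by simp
  obtain ⟨s, hs⟩ : ∃ s, s = u + (m - 1) := ⟨_, rfl⟩
  rw [← hs] at hW
  obtain ⟨c, hc⟩ : ∃ c, c = Tight.sg (k + s) (Tight.sg s (lev t (e m + 1))) := ⟨_, rfl⟩
  have key : ∀ j, j ≤ W.length + 1 → Tight.sg (k + s) (lev (W ++ [x]) j) = c + Tight.sg k (lev t (e m + 1 + j)) := by
    intro j hj
    rw [lev_snocC W x hj, hW j hj, sgc_sub, ← hc, sgc_sg (k + s) s, show k + s + s + 1 = k + (s + s) + 1 by ring,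
      sgc_succ, sgc_even]
    ring
  have eL : e m + 1 + (W.length + 1) = t.length := by omega
  refine ⟨a - (e m + 1), k + s, by rw [hlen]; omega, ?_, fun i i1 i2 => ?_⟩
  · rw [hlen, key _ le_rfl, key _ (by omega), eL, show e m + 1 + (a - (e m + 1)) = a by omega]
    linarith
  · rw [hlen] at i2 ⊢
    rw [key _ i2, key _ le_rfl, eL]
    have := a4 (e m + 1 + i) (by omega) (by omega)
    linarith

/-- **the free end in front of the first fold is closed** -/
theorem start_cl (h : FoldG t m u e) (hm : 1 ≤ m) (hR : ρ ≤ RG t u e 0) (hC : ClS ρ t) {W : List Bool}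
    (hl : W.length + 2 = e 0)
    (hW : ∀ j, j ≤ W.length + 1 → lev W j = Tight.sg u (lev t (W.length + 1 - j)) -
      Tight.sg u (lev t (W.length + 1))) (x : Bool) : ClE (ρ - 2) (W ++ [x]) := by
  obtain ⟨a0, k, b1, b3, b4⟩ := left_cl h hm hR hC (by omega)
  obtain ⟨a, a1, a3, a4⟩ : ∃ a, a ≤ W.length + 1 ∧
      ρ - 2 ≤ Tight.sg k (lev t 0) - Tight.sg k (lev t a) ∧
      ∀ i, i ≤ a → Tight.sg k (lev t i) ≤ Tight.sg k (lev t 0) := by
    rcases Nat.eq_or_lt_of_le b1 with h0 | h0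
    · refine ⟨W.length + 1, le_rfl, ?_, fun i i1 => b4 i (by omega)⟩
      rw [h0, ← hl] at b3
      have := sgc_step t (W.length + 1) k
      rw [abs_le, show W.length + 1 + 1 = W.length + 2 from rfl] at this
      omega
    · exact ⟨a0, by omega, by omega, b4⟩
  have hlen : (W ++ [x]).length = W.length + 1 := by simp
  obtain ⟨c, hc⟩ : ∃ c, c = Tight.sg (k + u + 1) (Tight.sg u (lev t (W.length + 1))) := ⟨_, rfl⟩
  have key : ∀ j, j ≤ W.length + 1 → Tight.sg (k + u + 1) (lev (W ++ [x]) j) =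
      Tight.sg k (lev t (W.length + 1 - j)) - c := by
    intro j hj
    rw [lev_snocC W x hj, hW j hj, sgc_sub, ← hc, sgc_sg (k + u + 1) u,
      show k + u + 1 + u + 1 = k + (u + 1 + (u + 1)) by ring, sgc_even]
  refine ⟨W.length + 1 - a, k + u + 1, by rw [hlen]; omega, ?_, fun i i1 i2 => ?_⟩
  · rw [hlen, key _ le_rfl, key _ (by omega), Nat.sub_self, show W.length + 1 - (W.length + 1 - a) = a by omega]
    linarith
  · rw [hlen] at i2 ⊢
    rw [key _ i2, key _ le_rfl, Nat.sub_self]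
    have := a4 (W.length + 1 - i) (by omega)
    linarith

end POL

end HexObs
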