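import Pool.Agent.NTW.FoldCl
import Pool.Agent.SDN.AltLe

/-!
POL, row U4c: a confirmed extremum of a word is a fold; the folds of a coarser scale are folds of the finer scale.
-/

set_option autoImplicit false

namespace HexObs

namespace POL

open Finset TS SDN NTW

namespace Co

lemma loc {e : ℕ → ℕ} {m x : ℕ} (h0 : e 0 < x) (hm : x ≤ e m) : ∃ l, l < m ∧ e l < x ∧ x ≤ e (l + 1) := by
  induction m with
  | zero => omega
  | succ m ih =>
    by_cases h : x ≤ e m
    · obtain ⟨l, h1, h2, h3⟩ := ih h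
      exact ⟨l, by omega, h2, h3⟩
    · exact ⟨m, by omega, by omega, hm⟩

lemma mono {e : ℕ → ℕ} {m : ℕ} (h : ∀ j, j < m → e j < e (j + 1)) : ∀ i j, i ≤ j → j ≤ m → e i + (j - i) ≤ e j := by
  intro i j hij hjm
  obtain ⟨d, rfl⟩ := Nat.exists_eq_add_of_le hij
  induction d with
  | zero => simp
  | succ d ih =>
    have h1 := ih (by omega) (by omega)
    have h2 := h (i + d) (by omega)
    rw [show i + (d + 1) = i + d + 1 from rfl]
    omega

lemma sg_two (k w : ℕ) : ((Even k ↔ Even w) ∧ ∀ x : ℤ, Tight.sg k x = Tight.sg w x) ∨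
    ((Even k ↔ ¬ Even w) ∧ ∀ x : ℤ, Tight.sg k x = -Tight.sg w x) := by
  by_cases h : (Even k ↔ Even w)
  · exact Or.inl ⟨h, sg_par h⟩
  · exact Or.inr ⟨by tauto, sg_opp h⟩

end Co

open Co

lemma RR_mono {b b2 : ℕ} (h : b ≤ b2) : RR b ≤ RR b2 := by
  have h1 : (2 : ℤ) ^ b ≤ 2 ^ b2 := pow_le_pow_right₀ (by norm_num) h
  unfold RR
  linarith

lemma RR_pos (b : ℕ) : 1 ≤ RR b := by
  have h1 : (1 : ℤ) ≤ 2 ^ b := one_le_pow₀ (by norm_num)
  unfold RR
  linarith

/-- the folds are ordered -/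
lemma fd_mono {b m u : ℕ} {t : List Bool} {e : ℕ → ℕ} (h : Fd b t m u e) {i j : ℕ} (hij : i ≤ j) (hj : j ≤ m) : e i + (j - i) ≤ e j :=
  mono h.2.1.lt i j hij hj

/-- **a confirmed extremum is a fold**: from w to x the word t rises by RR b, x is the last highest point up to y -/
theorem fd_conf {b m u : ℕ} {t : List Bool} {e : ℕ → ℕ} (h : Fd b t m u e) {κ w x y : ℕ} (hx1 : w < x)
    (hx2 : x ≤ t.length) (A1 : ∀ i, w ≤ i → i ≤ x → Tight.sg κ (lev t i) ≤ Tight.sg κ (lev t x))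
    (A2 : RR b ≤ Tight.sg κ (lev t x) - Tight.sg κ (lev t w)) (y1 : x ≤ y)
    (y3 : ∀ i, x < i → i ≤ y → Tight.sg κ (lev t i) < Tight.sg κ (lev t x))
    (y4 : y = t.length ∨ RR b ≤ Tight.sg κ (lev t x) - Tight.sg κ (lev t y)) :
    ∃ l, 1 ≤ l ∧ l ≤ m ∧ e l = x ∧ (Even (u + l) ↔ Even (κ + 1)) := by
  obtain ⟨hm, hG, hbig, hsm, hst, hfin⟩ := h
  have hR1 := RR_pos b
  obtain ⟨f, hf⟩ : ∃ f : ℕ → ℤ, ∀ i, f i = Tight.sg κ (lev t i) := ⟨_, fun _ => rfl⟩
  simp only [← hf] at A1 A2 y3 y4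
  have hfabs : ∀ i i', lev t i - lev t i' < RR b → lev t i' - lev t i < RR b → f i - f i' < RR b := by
    intro i i' h3 h4
    rw [hf, hf]
    unfold Tight.sg
    split_ifs <;> omega
  have hle : e m ≤ t.length := hG.le
  -- not in the first part
  have hx0 : e 0 < x := by
    by_contra hc
    have := hfabs x w (hst x w (by omega) (by omega)) (hst w x (by omega) (by omega))
    omega
  -- the signs of the leaf number j
  have hsg : ∀ j, ((Even (u + j) ↔ Even κ) ∧ ∀ i, Tight.sg (u + j) (lev t i) = f i) ∨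
      ((Even (u + j) ↔ ¬ Even κ) ∧ ∀ i, Tight.sg (u + j) (lev t i) = - f i) := by
    intro j
    rcases sg_two (u + j) κ with ⟨h3, h4⟩ | ⟨h3, h4⟩
    · exact Or.inl ⟨h3, fun i => by rw [h4, hf]⟩
    · exact Or.inr ⟨h3, fun i => by rw [h4, hf]⟩
  have hlo : ∀ j, j < m → ∀ i, e j ≤ i → i ≤ e (j + 1) → Tight.sg (u + j) (lev t (e j)) ≤ Tight.sg (u + j) (lev t i) := by
    intro j hj i i1 i2
    rcases Nat.eq_zero_or_pos j with rfl | h0
    · exact hG.lo0 i i1 i2
    · rcases Nat.lt_or_ge (e j) i with h3 | h3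
      · exact (hG.lo j h0 hj i h3 i2).le
      · rw [show i = e j by omega]
  -- not behind the last fold
  have hxm : x ≤ e m := by
    by_contra hc
    have hwm : w < e m := by
      by_contra hc2
      have := hfabs x w (hfin x w (by omega) hx2 (by omega) (by omega)) (hfin w x (by omega) (by omega) (by omega) hx2)
      omega
    have hlt := hG.lt (m - 1) (by omega)
    have h3 := hG.fin x (by omega) hx2
    have h4 := A1 (e m) hwm.le (by omega)
    rw [show m - 1 + 1 = m by omega] at hlt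
    rcases hsg (m - 1) with ⟨-, h5⟩ | ⟨-, h5⟩
    · rw [h5, h5] at h3
      omega
    · rw [h5, h5] at h3
      have h6 := hfabs x (e m) (hfin x (e m) (by omega) hx2 le_rfl hle) (hfin (e m) x le_rfl hle (by omega) hx2)
      rcases Nat.lt_or_ge w (e (m - 1)) with h7 | h7
      · have h8 := hbig (m - 1) (by omega)
        rw [h5, h5, show m - 1 + 1 = m by omega] at h8
        have h9 := A1 (e (m - 1)) h7.le (by omega)
        omega
      · have h8 := hG.hi (m - 1) (by omega) w h7 (by rw [show m - 1 + 1 = m by omega]; omega)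
        rw [h5, h5, show m - 1 + 1 = m by omega] at h8
        omega
  obtain ⟨l, l1, l2, l3⟩ := loc hx0 hxm
  rcases Nat.lt_or_ge x (e (l + 1)) with h3 | h3
  · -- inside a leaf
    exfalso
    rcases hsg l with ⟨-, h5⟩ | ⟨-, h5⟩
    · -- the leaf goes up
      have h4 := hG.hi l l1 x l2.le l3
      rw [h5, h5] at h4
      rcases Nat.lt_or_ge y (e (l + 1)) with h6 | h6
      · rcases y4 with y4 | y4
        · have := mono hG.lt (l + 1) m (by omega) le_rfl
          omega
        · have h7 := hsm l l1 x y l2.le y1 h6.le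
          rw [h5, h5] at h7
          omega
      · have h7 := y3 (e (l + 1)) h3 h6
        omega
    · -- the leaf goes down
      rcases Nat.lt_or_ge w (e l) with h6 | h6
      · have h7 := A1 (e l) h6.le l2.le
        rcases Nat.eq_zero_or_pos l with rfl | h0
        · have h8 := hlo 0 l1 x l2.le l3
          rw [h5, h5] at h8
          have h9 := hfabs (e 0) w (hst _ _ le_rfl h6.le) (hst _ _ h6.le le_rfl)
          omega
        · have h8 := hG.lo l h0 l1 x l2 l3
          rw [h5, h5] at h8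
          omega
      · have h7 := hsm l l1 w x h6 hx1.le l3
        rw [h5, h5] at h7
        omega
  · -- a fold
    have hxe : x = e (l + 1) := by omega
    refine ⟨l + 1, by omega, by omega, hxe.symm, ?_⟩
    rcases hsg l with ⟨h4, -⟩ | ⟨-, h5⟩
    · rw [← add_assoc, Nat.even_add_one, Nat.even_add_one, h4]
    · exfalso
      have hb := hbig l l1
      rw [h5, h5, ← hxe] at hb
      rcases Nat.lt_or_ge w (e l) with h6 | h6
      · have h7 := A1 (e l) h6.le l2.le
        omega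
      · have h7 := hG.hi l l1 w h6 (by omega)
        rw [h5, h5, ← hxe] at h7
        omega

/-- a fold followed by a large move is not the last one -/
theorem fd_not_last {b m u : ℕ} {t : List Bool} {e : ℕ → ℕ} (h : Fd b t m u e) {κ x y : ℕ} (y1 : x ≤ y) (y2 : y ≤ t.length)
    (y4 : RR b ≤ Tight.sg κ (lev t x) - Tight.sg κ (lev t y)) {l : ℕ} (hl : l ≤ m) (hx : e l = x) : l + 1 ≤ m := by
  by_contra hc
  have h1 : l = m := by omega
  subst h1
  have h2 := h.2.2.2.2.2 x y (by omega) (by omega) (by omega) y2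
  have h3 := h.2.2.2.2.2 y x (by omega) y2 (by omega) (by omega)
  unfold Tight.sg at y4
  split_ifs at y4 <;> omega

/-- **the folds of a coarser scale are folds of the finer scale** -/
theorem fd_sub {b b2 m u m2 u2 : ℕ} {t : List Bool} {e e2 : ℕ → ℕ} (hbb : b ≤ b2) (h : Fd b t m u e)
    (h2 : Fd b2 t m2 u2 e2) {L : ℕ} (hL : 1 ≤ L) (hL2 : L ≤ m2) :
    ∃ l, 1 ≤ l ∧ l ≤ m ∧ e l = e2 L ∧ (Even (u + l) ↔ Even (u2 + L)) := by
  obtain ⟨L, rfl⟩ : ∃ L', L = L' + 1 := ⟨L - 1, by omega⟩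
  obtain ⟨hm2, hG2, hbig2, hsm2, hst2, hfin2⟩ := h2
  have hR := RR_mono hbb
  have hx2 : e2 (L + 1) ≤ t.length := by
    have h3 := mono hG2.lt (L + 1) m2 (by omega) le_rfl
    have := hG2.le
    omega
  obtain ⟨y, y1, y3, y4⟩ : ∃ y, e2 (L + 1) ≤ y ∧
      (∀ i, e2 (L + 1) < i → i ≤ y → Tight.sg (u2 + L) (lev t i) < Tight.sg (u2 + L) (lev t (e2 (L + 1)))) ∧
      (y = t.length ∨ RR b ≤ Tight.sg (u2 + L) (lev t (e2 (L + 1))) - Tight.sg (u2 + L) (lev t y)) := by
    have hs : ∀ x : ℤ, Tight.sg (u2 + (L + 1)) x = - Tight.sg (u2 + L) x := fun x => Tight.sg_succ (u2 + L) x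
    rcases Nat.lt_or_ge (L + 1) m2 with h3 | h3
    · refine ⟨e2 (L + 1 + 1), (hG2.lt (L + 1) h3).le, ?_, Or.inr ?_⟩
      · intro i i1 i2
        have h4 := hG2.lo (L + 1) (by omega) h3 i i1 i2
        rw [hs, hs] at h4
        omega
      · have h4 := hbig2 (L + 1) h3
        rw [hs, hs] at h4
        omega
    · refine ⟨t.length, hx2, ?_, Or.inl rfl⟩
      intro i i1 i2
      have h5 : m2 = L + 1 := by omega
      have h4 := hG2.fin i (by rw [h5]; exact i1) i2
      rw [h5, Nat.add_sub_cancel] at h4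
      exact h4
  obtain ⟨l, l1, l2, l3, l4⟩ := fd_conf h (κ := u2 + L) (hG2.lt L (by omega)) hx2 (hG2.hi L (by omega))
    (hR.trans (hbig2 L (by omega))) y1 y3 y4
  exact ⟨l, l1, l2, l3, l4⟩

/-- the case of words that start with their first fold -/
theorem fd_sub0 {b b2 m u m2 u2 : ℕ} {t : List Bool} {e e2 : ℕ → ℕ} (hbb : b ≤ b2) (h : Fd b t m u e)
    (h2 : Fd b2 t m2 u2 e2) (h0 : e 0 = 0) (h20 : e2 0 = 0) {L : ℕ} (hL2 : L ≤ m2) :
    ∃ l, L ≤ l ∧ l ≤ m ∧ e l = e2 L ∧ (Even (u + l) ↔ Even (u2 + L)) := by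
  induction L with
  | zero =>
    refine ⟨0, le_rfl, Nat.zero_le _, by rw [h0, h20], ?_⟩
    obtain ⟨l, l1, l2, l3, l4⟩ := fd_sub hbb h h2 (L := 1) le_rfl h2.1
    have h3 := fd_mono h (i := 1) (j := l) l1 l2
    have h4 := h2.2.1.lo0 (e 1) (by omega) (by omega)
    have h5 := h.2.2.1 0 h.1
    rw [h0, Nat.add_zero] at h5
    rw [h20] at h4
    rw [Nat.add_zero, Nat.add_zero]
    have hR1 := RR_pos b
    rcases sg_two u u2 with ⟨h6, -⟩ | ⟨-, h7⟩
    · exact h6
    · exfalso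
      rw [h7, h7] at h5
      simp only [Nat.zero_add] at h5
      omega
  | succ L ih =>
    obtain ⟨l, l1, l2, l3, l4⟩ := fd_sub hbb h h2 (L := L + 1) (by omega) hL2
    obtain ⟨l', l1', l2', l3', l4'⟩ := ih (by omega)
    refine ⟨l, ?_, l2, l3, l4⟩
    by_contra hc
    have h5 := fd_mono h (i := l) (j := l') (by omega) l2'
    have h6 := h2.2.1.lt L (by omega)
    omega

end POL

end HexObs
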