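import Pool.Agent.JNT.JoBM
import Pool.Agent.JNT.Good

/-!
POL, L4: one additional cut in a pair of bridges with a given displacement and a given number of letters (helper59).
-/

set_option autoImplicit false

namespace HexObs

namespace POL

open Finset TS NTA JNT

open scoped ENNReal

open scoped Classical in
/-- the number of cuts of a word into two bridges -/
noncomputable def nc (Z : List Bool) : ℕ := ((range (Z.length + 1)).filter fun i => Z.take i ∈ BU ∧ Z.drop i ∈ BU).card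

open scoped Classical in
/-- the number of cuts as a sum over the two parts -/
lemma nc_le (Z : List Bool) : (nc Z : ℝ≥0∞) ≤ ∑' y1 : List Bool, ∑' y2 : List Bool,
    (if y1 ∈ BU ∧ y2 ∈ BU ∧ y1 ++ y2 = Z then 1 else 0) := by
  rw [← ENNReal.tsum_prod]
  obtain ⟨s, hs⟩ : ∃ s, s = (range (Z.length + 1)).filter fun i => Z.take i ∈ BU ∧ Z.drop i ∈ BU := ⟨_, rfl⟩
  obtain ⟨g, hg⟩ : ∃ g : List Bool × List Bool → ℝ≥0∞, g = fun p => if p.1 ∈ BU ∧ p.2 ∈ BU ∧ p.1 ++ p.2 = Z then 1 else 0 :=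
    ⟨_, rfl⟩
  have hinj : Set.InjOn (fun i : ℕ => (Z.take i, Z.drop i)) (s : Set ℕ) := by
    intro i hi j hj hij
    rw [hs, Finset.mem_coe, mem_filter, mem_range] at hi hj
    have h1 : (Z.take i).length = (Z.take j).length := by rw [(Prod.mk.inj hij).1]
    rw [List.length_take, List.length_take] at h1
    omega
  have h1 : (nc Z : ℝ≥0∞) = ∑ i ∈ s, g (Z.take i, Z.drop i) := by
    have h2 : ∀ i ∈ s, g (Z.take i, Z.drop i) = 1 := by
      intro i hi
      rw [hs, mem_filter] at hi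
      rw [hg]
      exact if_pos ⟨hi.2.1, hi.2.2, List.take_append_drop i Z⟩
    rw [Finset.sum_congr rfl h2]
    unfold nc
    rw [← hs]
    simp
  have h2 : ∑ i ∈ s, g (Z.take i, Z.drop i) = ∑ p ∈ s.image (fun i : ℕ => (Z.take i, Z.drop i)), g p :=
    (Finset.sum_image hinj).symm
  rw [h1, h2]
  refine (ENNReal.sum_le_tsum _).trans (le_of_eq ?_)
  rw [hg]

open scoped Classical in
/-- one additional cut -/
lemma nc_sum (F : List Bool → ℝ≥0∞) : ∑' Z : List Bool, wE Z * nc Z * F Z ≤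
    ∑' y1 : List Bool, ∑' y2 : List Bool, (if y1 ∈ BU ∧ y2 ∈ BU then wE y1 * wE y2 * F (y1 ++ y2) else 0) := by
  calc ∑' Z : List Bool, wE Z * nc Z * F Z ≤ ∑' Z : List Bool, ∑' y1 : List Bool, ∑' y2 : List Bool,
        (if y1 ∈ BU ∧ y2 ∈ BU ∧ y1 ++ y2 = Z then wE y1 * wE y2 * F (y1 ++ y2) else 0) := by
        refine ENNReal.tsum_le_tsum fun Z => ?_
        calc wE Z * nc Z * F Z ≤ wE Z * (∑' y1 : List Bool, ∑' y2 : List Bool,
              (if y1 ∈ BU ∧ y2 ∈ BU ∧ y1 ++ y2 = Z then 1 else 0)) * F Z :=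
              mul_le_mul' (mul_le_mul' le_rfl (nc_le Z)) le_rfl
          _ = ∑' y1 : List Bool, ∑' y2 : List Bool,
              (if y1 ∈ BU ∧ y2 ∈ BU ∧ y1 ++ y2 = Z then wE y1 * wE y2 * F (y1 ++ y2) else 0) := by
              rw [mul_comm (wE Z), mul_assoc, ← ENNReal.tsum_mul_right]
              refine tsum_congr fun y1 => ?_
              rw [← ENNReal.tsum_mul_right]
              refine tsum_congr fun y2 => ?_
              by_cases h : y1 ∈ BU ∧ y2 ∈ BU ∧ y1 ++ y2 = Z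
              · rw [if_pos h, if_pos h, ← h.2.2, wE_append, one_mul]
              · rw [if_neg h, if_neg h, zero_mul]
    _ = ∑' y1 : List Bool, ∑' y2 : List Bool, (if y1 ∈ BU ∧ y2 ∈ BU then wE y1 * wE y2 * F (y1 ++ y2) else 0) := by
        rw [ENNReal.tsum_comm]
        refine tsum_congr fun y1 => ?_
        rw [ENNReal.tsum_comm]
        refine tsum_congr fun y2 => ?_
        rw [tsum_eq_single (y1 ++ y2)]
        · by_cases h : y1 ∈ BU ∧ y2 ∈ BU
          · rw [if_pos h, if_pos ⟨h.1, h.2, rfl⟩]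
          · rw [if_neg h, if_neg fun h' => h ⟨h'.1, h'.2.1⟩]
        · intro Z hZ
          rw [if_neg fun h' => hZ h'.2.2.symm]

/-- the free bridge -/
lemma UU_s (k s : ℕ) : UU (2 ^ (k + s)) ≤ 2 ^ s * Ub k := UU_ratio_up k s

open scoped Classical in
/-- **one additional cut in the first of two bridges** with a given displacement and a given number of letters -/
theorem extra_of {m : ℕ → ℝ} (hm : ∀ k, 0 < m k) (hu : MUp m) (hJ : JoB m) : ∃ C : ℝ, 0 < C ∧ ∀ (k s : ℕ) (v : Pt) (b : ℕ),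
    ∑' Z : List Bool, ∑' Z' : List Bool, (if (Z ∈ HB (2 ^ k) ∧ hgt Z ≤ 2 ^ (k + s)) ∧ Z' ∈ HB (2 ^ k) ∧ en Z + en Z' = v ∧
      Z.length + Z'.length = b then wE Z * wE Z' * nc Z else 0) ≤
      ENNReal.ofReal (C * 2 ^ s * Ub k * (Ub k ^ 2 / (4 ^ k * m k))) := by
  obtain ⟨C, hC, hJ⟩ := hJ
  obtain ⟨Cm, hCm, hmu⟩ := hu
  refine ⟨2 * (C * (4 * Cm)), by positivity, fun k s v b => ?_⟩
  have hU := Ub_pos k
  have hmk := hm k
  -- the function of the first bridge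
  obtain ⟨F, hF⟩ : ∃ F : List Bool → ℝ≥0∞, F = fun Z => if Z ∈ HB (2 ^ k) ∧ hgt Z ≤ 2 ^ (k + s) then
      ∑' Z' : List Bool, (if Z' ∈ HB (2 ^ k) ∧ en Z + en Z' = v ∧ Z.length + Z'.length = b then wE Z' else 0) else 0 := ⟨_, rfl⟩
  have e1 : ∑' Z : List Bool, ∑' Z' : List Bool, (if (Z ∈ HB (2 ^ k) ∧ hgt Z ≤ 2 ^ (k + s)) ∧ Z' ∈ HB (2 ^ k) ∧
      en Z + en Z' = v ∧ Z.length + Z'.length = b then wE Z * wE Z' * nc Z else 0) = ∑' Z : List Bool, wE Z * nc Z * F Z := by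
    refine tsum_congr fun Z => ?_
    rw [hF]
    by_cases h1 : Z ∈ HB (2 ^ k) ∧ hgt Z ≤ 2 ^ (k + s)
    · simp only [if_pos h1]
      rw [← ENNReal.tsum_mul_left]
      refine tsum_congr fun Z' => ?_
      by_cases h2 : Z' ∈ HB (2 ^ k) ∧ en Z + en Z' = v ∧ Z.length + Z'.length = b
      · rw [if_pos ⟨h1, h2⟩, if_pos h2]
        ring
      · rw [if_neg fun h => h2 h.2, if_neg h2, mul_zero]
    · simp only [if_neg h1, mul_zero]
      refine ENNReal.tsum_eq_zero.2 fun Z' => if_neg fun h => h1 h.1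
  rw [e1]
  refine (nc_sum F).trans ?_
  -- the bound of the pairs at the scale k - 1
  obtain ⟨x, hx⟩ : ∃ x : ℝ, x = C * (4 * Cm) * (Ub k ^ 2 / (4 ^ k * m k)) := ⟨_, rfl⟩
  have hx0 : 0 ≤ x := by rw [hx]; positivity
  have hk1 : ∀ (v' : Pt) (b' : ℕ), pairs (2 ^ (k - 1)) v' b' ≤ ENNReal.ofReal x := by
    intro v' b'
    refine (hJ (k - 1) v' b').trans (ENNReal.ofReal_le_ofReal ?_)
    rw [hx]
    have hm1 := hm (k - 1)
    have hU1 := Ub_pos (k - 1)
    have hU2 : Ub (k - 1) ≤ Ub k := Ub_mono (by omega)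
    have h1 : m k ≤ Cm * m (k - 1) := by
      rcases Nat.eq_zero_or_pos k with h0 | h0
      · rw [h0, Nat.zero_sub]
        exact le_mul_of_one_le_left (hm 0).le hCm
      · have h2 := hmu (k - 1)
        rwa [Nat.sub_add_cancel h0] at h2
    have h3 : (4 : ℝ) ^ k ≤ 4 * 4 ^ (k - 1) := by
      rw [← pow_succ']
      exact pow_le_pow_right₀ (by norm_num) (by omega)
    have h4 : 4 ^ k * m k ≤ 4 * Cm * (4 ^ (k - 1) * m (k - 1)) := by
      calc (4 : ℝ) ^ k * m k ≤ (4 * 4 ^ (k - 1)) * (Cm * m (k - 1)) := mul_le_mul h3 h1 hmk.le (by positivity)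
        _ = _ := by ring
    have h5 : Ub (k - 1) ^ 2 / (4 ^ (k - 1) * m (k - 1)) ≤ 4 * Cm * (Ub k ^ 2 / (4 ^ k * m k)) := by
      rw [div_le_iff₀ (by positivity), mul_assoc (4 * Cm), div_mul_eq_mul_div, mul_div_assoc', le_div_iff₀ (by positivity)]
      have h6 : Ub (k - 1) ^ 2 ≤ Ub k ^ 2 := pow_le_pow_left₀ hU1.le hU2 2
      calc Ub (k - 1) ^ 2 * (4 ^ k * m k) ≤ Ub k ^ 2 * (4 * Cm * (4 ^ (k - 1) * m (k - 1))) :=
            mul_le_mul h6 h4 (by positivity) (by positivity)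
        _ = _ := by ring
    calc C * (Ub (k - 1) ^ 2 / (4 ^ (k - 1) * m (k - 1))) ≤ C * (4 * Cm * (Ub k ^ 2 / (4 ^ k * m k))) :=
          mul_le_mul_of_nonneg_left h5 hC.le
      _ = _ := by ring
  -- the free bridge
  obtain ⟨r, hr⟩ : ∃ r : List Bool → ℝ≥0∞, r = fun y => if y ∈ {Z | ∃ h, h ≤ 2 ^ (k + s) ∧ Z ∈ Brd h} then wE y else 0 := ⟨_, rfl⟩
  have hrs : ∑' y, r y ≤ ENNReal.ofReal (2 ^ s * Ub k) := by
    refine (le_of_eq ?_).trans ((NTm.low_mass (2 ^ (k + s))).trans (ENNReal.ofReal_le_ofReal (UU_s k s)))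
    unfold gf
    rw [hr, _root_.tsum_subtype _ (fun t => wE t)]
    exact tsum_congr fun t => by rw [Set.indicator_apply]
  -- split
  have hsplit : ∀ y1 y2 : List Bool, (if y1 ∈ BU ∧ y2 ∈ BU then wE y1 * wE y2 * F (y1 ++ y2) else 0) ≤
      (r y2 * (∑' Z' : List Bool, (if y1 ∈ HB (2 ^ (k - 1)) ∧ Z' ∈ HB (2 ^ (k - 1)) ∧ en y1 + en Z' = v - en y2 ∧
        y1.length + Z'.length = b - y2.length then wE y1 * wE Z' else 0))) +
      (r y1 * (∑' Z' : List Bool, (if y2 ∈ HB (2 ^ (k - 1)) ∧ Z' ∈ HB (2 ^ (k - 1)) ∧ en y2 + en Z' = v - en y1 ∧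
        y2.length + Z'.length = b - y1.length then wE y2 * wE Z' else 0))) := by
    intro y1 y2
    by_cases hc : (y1 ∈ BU ∧ y2 ∈ BU) ∧ (y1 ++ y2 ∈ HB (2 ^ k) ∧ hgt (y1 ++ y2) ≤ 2 ^ (k + s))
    swap
    · refine le_trans (le_of_eq ?_) zero_le
      by_cases h1 : y1 ∈ BU ∧ y2 ∈ BU
      · rw [if_pos h1, hF]
        simp only [if_neg fun h2 => hc ⟨h1, h2⟩, mul_zero]
      · rw [if_neg h1]
    obtain ⟨hb, hh1, hh2⟩ := id hc
    have hgt12 : hgt (y1 ++ y2) = hgt y1 + hgt y2 := SIM.CS.happ hb.1 hb.2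
    have hh3 : 2 ^ k ≤ hgt y1 + hgt y2 := by
      obtain ⟨h0, h1, h2⟩ := hh1
      rw [← hgt12, TS.hgt_eq h2]
      exact h1
    have hpk : 2 * 2 ^ (k - 1) ≤ 2 ^ k + 1 := by
      rcases Nat.eq_zero_or_pos k with h0 | h0
      · rw [h0]
        norm_num
      · rw [← pow_succ', Nat.sub_add_cancel h0]
        exact Nat.le_succ _
    have hHB1 : ∀ {Z' : List Bool}, Z' ∈ HB (2 ^ k) → Z' ∈ HB (2 ^ (k - 1)) := by
      rintro Z' ⟨h0, h1, h2⟩
      exact ⟨h0, (Nat.pow_le_pow_right (by norm_num) (by omega : k - 1 ≤ k)).trans h1, h2⟩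
    have hen : en (y1 ++ y2) = en y1 + en y2 := en_app hb.1
    rw [if_pos hb, hF]
    simp only [if_pos hc.2]
    rcases le_or_gt (2 ^ (k - 1)) (hgt y1) with h1 | h1
    · refine le_trans ?_ le_self_add
      have hr2 : r y2 = wE y2 := by
        rw [hr]
        exact if_pos ⟨hgt y2, by omega, TS.BU_hgt hb.2⟩
      rw [hr2, ← ENNReal.tsum_mul_left, ← ENNReal.tsum_mul_left]
      refine ENNReal.tsum_le_tsum fun Z' => ?_
      by_cases h2 : Z' ∈ HB (2 ^ k) ∧ en (y1 ++ y2) + en Z' = v ∧ (y1 ++ y2).length + Z'.length = b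
      · obtain ⟨h3, h4, h5⟩ := h2
        rw [List.length_append] at h5
        rw [hen] at h4
        rw [if_pos ⟨h3, by rw [hen]; exact h4, by rw [List.length_append]; exact h5⟩,
          if_pos ⟨⟨hgt y1, h1, TS.BU_hgt hb.1⟩, hHB1 h3, by rw [← h4]; abel, by omega⟩]
        refine le_of_eq ?_
        ring
      · rw [if_neg h2, mul_zero]
        exact zero_le
    · refine le_trans ?_ le_add_self
      have hr1 : r y1 = wE y1 := by
        rw [hr]
        exact if_pos ⟨hgt y1, by omega, TS.BU_hgt hb.1⟩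
      rw [hr1, ← ENNReal.tsum_mul_left, ← ENNReal.tsum_mul_left]
      refine ENNReal.tsum_le_tsum fun Z' => ?_
      by_cases h2 : Z' ∈ HB (2 ^ k) ∧ en (y1 ++ y2) + en Z' = v ∧ (y1 ++ y2).length + Z'.length = b
      · obtain ⟨h3, h4, h5⟩ := h2
        rw [List.length_append] at h5
        rw [hen] at h4
        rw [if_pos ⟨h3, by rw [hen]; exact h4, by rw [List.length_append]; exact h5⟩,
          if_pos ⟨⟨hgt y2, by omega, TS.BU_hgt hb.2⟩, hHB1 h3, by rw [← h4]; abel, by omega⟩]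
        refine le_of_eq ?_
        ring
      · rw [if_neg h2, mul_zero]
        exact zero_le
  refine (ENNReal.tsum_le_tsum fun y1 => ENNReal.tsum_le_tsum fun y2 => hsplit y1 y2).trans ?_
  simp only [ENNReal.tsum_add]
  have hA : ∑' y1 : List Bool, ∑' y2 : List Bool, r y2 * (∑' Z' : List Bool, (if y1 ∈ HB (2 ^ (k - 1)) ∧
      Z' ∈ HB (2 ^ (k - 1)) ∧ en y1 + en Z' = v - en y2 ∧ y1.length + Z'.length = b - y2.length then wE y1 * wE Z' else 0)) ≤
      ENNReal.ofReal (2 ^ s * Ub k) * ENNReal.ofReal x := by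
    rw [ENNReal.tsum_comm]
    refine le_trans (ENNReal.tsum_le_tsum fun y2 => ?_) ((le_of_eq ENNReal.tsum_mul_right).trans (mul_le_mul' hrs le_rfl))
    rw [ENNReal.tsum_mul_left]
    exact mul_le_mul' le_rfl (hk1 (v - en y2) (b - y2.length))
  have hB : ∑' y1 : List Bool, ∑' y2 : List Bool, r y1 * (∑' Z' : List Bool, (if y2 ∈ HB (2 ^ (k - 1)) ∧
      Z' ∈ HB (2 ^ (k - 1)) ∧ en y2 + en Z' = v - en y1 ∧ y2.length + Z'.length = b - y1.length then wE y2 * wE Z' else 0)) ≤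
      ENNReal.ofReal (2 ^ s * Ub k) * ENNReal.ofReal x := by
    refine le_trans (ENNReal.tsum_le_tsum fun y1 => ?_) ((le_of_eq ENNReal.tsum_mul_right).trans (mul_le_mul' hrs le_rfl))
    rw [ENNReal.tsum_mul_left]
    exact mul_le_mul' le_rfl (hk1 (v - en y1) (b - y1.length))
  refine (add_le_add hA hB).trans (le_of_eq ?_)
  rw [← two_mul, show (2 : ℝ≥0∞) = ENNReal.ofReal 2 by simp, ← ENNReal.ofReal_mul (by positivity),
    ← ENNReal.ofReal_mul (by norm_num), hx]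
  congr 1
  ring

open scoped Classical in
/-- one additional cut, mean length of the bridges, no hypothesis -/
theorem extra_M : ∃ C : ℝ, 0 < C ∧ ∀ (k s : ℕ) (v : Pt) (b : ℕ),
    ∑' Z : List Bool, ∑' Z' : List Bool, (if (Z ∈ HB (2 ^ k) ∧ hgt Z ≤ 2 ^ (k + s)) ∧ Z' ∈ HB (2 ^ k) ∧ en Z + en Z' = v ∧
      Z.length + Z'.length = b then wE Z * wE Z' * nc Z else 0) ≤
      ENNReal.ofReal (C * 2 ^ s * Ub k * (Ub k ^ 2 / (4 ^ k * PW.mZ (2 ^ k)))) :=
  extra_of (fun k => mlow_M.pos k) mup_M joB_M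

end POL

end HexObs
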