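import Pool.Agent.POL.Defs
import Pool.Agent.POL.ExtraM
import Pool.Agent.NTW.HookA

/-!
POL, L4: the markings of the closed words t = Z' ++ (T1 ++ (D ++ (T2 ++ Z))): the up strand Z, Z' with the root between, the
top arc T1, the down strand D, the bottom arc T2. AT is the class of the arcs (helper59).
-/

set_option autoImplicit false

namespace HexObs

namespace POL

open Finset TS NTA JNT

open scoped ENNReal

/-- the five parts of a marked closed word -/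
def Tup (AT : Set (List Bool)) (k : ℕ) (Z' T1 D T2 Z : List Bool) : Prop :=
  (Z' ∈ HB (2 ^ k) ∧ hgt Z' ≤ 2 ^ (k + 1)) ∧ T1 ∈ AT ∧ (D ∈ BU ∧ hgt D ≤ 2 ^ (k + 2)) ∧ T2 ∈ AT ∧
    (Z ∈ HB (2 ^ k) ∧ hgt Z ≤ 2 ^ (k + 1))

/-- the word is closed and has N letters -/
def Cl (N : ℕ) (Z' T1 D T2 Z : List Bool) : Prop :=
  en Z' + en Z = en D + en T2 - en T1 ∧ Z'.length + Z.length + (T1.length + D.length + T2.length) = N

/-- the mass of two bridges of the same height, at most M -/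
noncomputable def U2 (M : ℕ) : ℝ := ∑ h ∈ range (M + 1), uu h ^ 2

/-- another arc inside of the arc T -/
def NA (AT : Set (List Bool)) (k : ℕ) (T : List Bool) (c : ℕ) : Prop := ∃ P T' Q : List Bool, T = P ++ (T' ++ Q) ∧
  P.length = c ∧ (P ∈ BU ∧ Q ∈ BU) ∧ (hgt P = hgt Q ∧ hgt P ≤ 2 ^ k) ∧ T' ∈ AT

/-- another arc around the top arc -/
def NB1 (k : ℕ) (Z' D : List Bool) (c : ℕ) : Prop := ∃ Z'' P Q D' : List Bool, Z' = Z'' ++ P ∧ D = Q ++ D' ∧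
  P.length = c ∧ (P ∈ BU ∧ Q ∈ BU) ∧ (hgt P = hgt Q ∧ hgt P ≤ 2 ^ k) ∧ Z'' ∈ HB (2 ^ (k - 1)) ∧ D' ∈ BU

/-- another arc around the bottom arc -/
def NB4 (k : ℕ) (D Z : List Bool) (c : ℕ) : Prop := ∃ D' P Q Z'' : List Bool, D = D' ++ P ∧ Z = Q ++ Z'' ∧
  Q.length = c ∧ (P ∈ BU ∧ Q ∈ BU) ∧ (hgt P = hgt Q ∧ hgt P ≤ 2 ^ k) ∧ Z'' ∈ HB (2 ^ (k - 1)) ∧ D' ∈ BU

open scoped Classical in
/-- the number of the lengths c ≤ n with the property p -/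
noncomputable def cnt (n : ℕ) (p : ℕ → Prop) : ℕ := ((range (n + 1)).filter p).card

open scoped Classical in
/-- the sum over the five parts with a weight -/
noncomputable def S5 (AT : Set (List Bool)) (k N : ℕ) (g : List Bool → List Bool → List Bool → List Bool → List Bool → ℝ≥0∞) :
    ℝ≥0∞ := ∑' Z' : List Bool, ∑' T1 : List Bool, ∑' D : List Bool, ∑' T2 : List Bool, ∑' Z : List Bool,
  (if Tup AT k Z' T1 D T2 Z ∧ Cl N Z' T1 D T2 Z then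
    wE Z' * wE T1 * wE D * wE T2 * wE Z * g Z' T1 D T2 Z else 0)

/-- the sums with one additional mark (all with the same constant) -/
def Sums5 (m : ℕ → ℝ) : Prop := ∃ C : ℝ, 0 < C ∧ ∀ (AT : Set (List Bool)) (x : ℝ) (k N : ℕ), 0 ≤ x → gf AT ≤ ENNReal.ofReal x →
  S5 AT k N (fun Z' _ _ _ Z => (nc Z' : ℝ≥0∞) + nc Z) ≤
    ENNReal.ofReal (C * Ub k * (x ^ 2 * Ub k * (Ub k ^ 2 / (4 ^ k * m k)))) ∧
  S5 AT k N (fun _ T1 _ _ _ => (cnt T1.length (NA AT k T1) : ℝ≥0∞)) ≤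
    ENNReal.ofReal (C * U2 (2 ^ k) * (x ^ 2 * Ub k * (Ub k ^ 2 / (4 ^ k * m k)))) ∧
  S5 AT k N (fun Z' _ D _ _ => (cnt Z'.length (NB1 k Z' D) : ℝ≥0∞)) ≤
    ENNReal.ofReal (C * U2 (2 ^ k) * (x ^ 2 * Ub k * (Ub k ^ 2 / (4 ^ k * m k)))) ∧
  S5 AT k N (fun _ _ _ T2 _ => (cnt T2.length (NA AT k T2) : ℝ≥0∞)) ≤
    ENNReal.ofReal (C * U2 (2 ^ k) * (x ^ 2 * Ub k * (Ub k ^ 2 / (4 ^ k * m k)))) ∧
  S5 AT k N (fun _ _ D _ Z => (cnt Z.length (NB4 k D Z) : ℝ≥0∞)) ≤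
    ENNReal.ofReal (C * U2 (2 ^ k) * (x ^ 2 * Ub k * (Ub k ^ 2 / (4 ^ k * m k))))

end POL

end HexObs
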