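import Pool.Agent.POL.RotW
import Pool.Agent.POL.L4Defs

/-!
POL, L4: two markings of the same closed word: the second top arc is inside of the first one or around it, the same for the
bottom arcs, the second root is a cut of the first up strand (helper59).
-/

set_option autoImplicit false

namespace HexObs

namespace POL

open Finset TS

/-- levels with shifted indices -/
lemma Mr.tr {F G : ℤ → ℤ} {N j b1 b2 b3 b4 n τ a c : ℤ} (hG : ∀ i, G i = F (a + i) - c)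
    (h : Mr G N j b1 b2 b3 b4 n τ) : Mr F N (a + j) (a + b1) (a + b2) (a + b3) (a + b4) n τ := by
  have hF : ∀ i, F i = G (i - a) + c := fun i => by
    rw [hG, add_sub_cancel]
    ring
  refine ⟨by linarith [h.o1], by linarith [h.o2], by linarith [h.o3], by linarith [h.o4], by linarith [h.o5], ?_, ?_, ?_, ?_, ?_, ?_,
    ?_, ?_, ?_⟩
  · intro i h1 h2
    have := h.z1 (i - a) (by linarith) (by linarith)
    rw [hF i, hF (a + j), hF (a + b1), add_sub_cancel_left, add_sub_cancel_left]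
    constructor <;> linarith [this.1, this.2]
  · intro i h1 h2
    have := h.t1 (i - a) (by linarith) (by linarith)
    rw [hF i, hF (a + b1), add_sub_cancel_left]
    constructor <;> linarith [this.1, this.2]
  · rw [hF (a + b1), hF (a + b2), add_sub_cancel_left, add_sub_cancel_left]
    linarith [h.t1e]
  · intro i h1 h2
    have := h.d (i - a) (by linarith) (by linarith)
    rw [hF i, hF (a + b1), hF (a + b3), add_sub_cancel_left, add_sub_cancel_left]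
    constructor <;> linarith [this.1, this.2]
  · intro i h1 h2
    have := h.t2 (i - a) (by linarith) (by linarith)
    rw [hF i, hF (a + b4), add_sub_cancel_left]
    constructor <;> linarith [this.1, this.2]
  · rw [hF (a + b3), hF (a + b4), add_sub_cancel_left, add_sub_cancel_left]
    linarith [h.t2e]
  · intro i h1 h2
    have := h.z (i - a) (by linarith) (by linarith)
    rw [hF i, hF (a + b4), hF (a + j), add_sub_cancel_left, add_sub_cancel_left]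
    constructor <;> linarith [this.1, this.2]
  · rw [hF (a + b1), hF (a + j), add_sub_cancel_left, add_sub_cancel_left]
    linarith [h.n1]
  · rw [hF (a + j), hF (a + b4), add_sub_cancel_left, add_sub_cancel_left]
    linarith [h.n2]

variable {s : List Bool} {N : ℕ} {j b1 b2 b3 b4 j' b1' b2' b3' b4' n τ : ℤ}

lemma Mw.rot (hs : s ∈ Cy N) (hN : 0 < N) {a : ℕ} (ha : pd s a = up) (h : Mw (s.rotate a) N j b1 b2 b3 b4 n τ) :
    Mw s N (a + j) (a + b1) (a + b2) (a + b3) (a + b4) n τ := by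
  have h1 := rot_Vx hs hN ha
  refine ⟨Mr.tr (fun i => (h1 i).1) h.mr, ?_, ?_, ?_, ?_, ?_⟩
  · rw [← (h1 _).2, h.h0]
  · rw [← (h1 _).2, h.h1]
  · rw [← (h1 _).2, h.h2]
  · rw [← (h1 _).2, h.h3]
  · rw [← (h1 _).2, h.h4]

lemma Mw.shift (h : Mw s N j b1 b2 b3 b4 n τ) (q : ℤ) :
    Mw s N (j + q * N) (b1 + q * N) (b2 + q * N) (b3 + q * N) (b4 + q * N) n τ := by
  refine ⟨h.mr.shift (fun i => Fl_add i) q, ?_, ?_, ?_, ?_, ?_⟩
  · rw [Hd_mul, h.h0]
  · rw [Hd_mul, h.h1]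
  · rw [Hd_mul, h.h2]
  · rw [Hd_mul, h.h3]
  · rw [Hd_mul, h.h4]

/-! ### 1. Segments -/

/-- the letters between two periodic positions -/
def sg (s : List Bool) (N : ℕ) (x y : ℤ) : List Bool := sb s N x (y - x).toNat

lemma sg_len (hs : s ∈ Cy N) (hN : 0 < N) {x y : ℤ} (h2 : y ≤ x + N) :
    (sg s N x y).length = (y - x).toNat := sb_len' hs.1 hN x (by omega)

lemma sg_add (hs : s ∈ Cy N) (hN : 0 < N) {x y z : ℤ} (h1 : x ≤ y) (h2 : y ≤ z) (h3 : z ≤ x + N) :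
    sg s N x z = sg s N x y ++ sg s N y z := by
  unfold sg
  have h4 := sb_add hs.1 hN x (l := (y - x).toNat) (m := (z - y).toNat) (by omega)
  rw [show (y - x).toNat + (z - y).toNat = (z - x).toNat by omega, show x + ((y - x).toNat : ℤ) = y by omega] at h4
  exact h4

lemma sg_mul (x y q : ℤ) : sg s N (x + q * N) (y + q * N) = sg s N x y := by
  unfold sg
  rw [sb_mul, show y + q * N - (x + q * N) = y - x by ring]

lemma sg_up (hs : s ∈ Cy N) (hN : 0 < N) {x y : ℤ} (h1 : x ≤ y) (h2 : y < x + N) (hx : Hd s N x = up)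
    (hy : Hd s N y = up) (h : ∀ i : ℤ, x < i → i ≤ y → Fl s N x < Fl s N i ∧ Fl s N i ≤ Fl s N y) :
    ∃ T : ℕ, sg s N x y ∈ Brd T ∧ 3 * (T : ℤ) = Fl s N y - Fl s N x := by
  have e : x + ((y - x).toNat : ℤ) = y := by omega
  have := brd_up hs hN (x := x) (l := (y - x).toNat) (by omega) hx (by rw [e]; exact hy) (fun i h3 h4 => by
    rw [e]
    exact h (x + i) (by omega) (by omega))
  rw [e] at this
  exact this

lemma sg_dn (hs : s ∈ Cy N) (hN : 0 < N) {x y : ℤ} (h1 : x ≤ y) (h2 : y < x + N) (hx : Hd s N x = -up)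
    (hy : Hd s N y = -up) (h : ∀ i : ℤ, x < i → i ≤ y → Fl s N i < Fl s N x ∧ Fl s N y ≤ Fl s N i) :
    ∃ T : ℕ, sg s N x y ∈ Brd T ∧ 3 * (T : ℤ) = Fl s N x - Fl s N y := by
  have e : x + ((y - x).toNat : ℤ) = y := by omega
  have := brd_dn hs hN (x := x) (l := (y - x).toNat) (by omega) hx (by rw [e]; exact hy) (fun i h3 h4 => by
    rw [e]
    exact h (x + i) (by omega) (by omega))
  rw [e] at this
  exact this

/-! ### 2. The arcs -/

/-- the second top arc inside of the first one -/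
lemma code_a (hs : s ∈ Cy N) (hN : 0 < N) {k : ℕ} (hn : 2 ≤ n) (hτk : τ ≤ 3 * 2 ^ k)
    (h : Mw s N j b1 b2 b3 b4 n τ) (h' : Mw s N j' b1' b2' b3' b4' n τ) (h1 : b1 ≤ b1') (h2 : b2' ≤ b2) :
    ∃ P Q : List Bool, sg s N b1 b2 = P ++ (sg s N b1' b2' ++ Q) ∧ P.length = (b1' - b1).toNat ∧ (P ∈ BU ∧ Q ∈ BU) ∧
      (hgt P = hgt Q ∧ hgt P ≤ 2 ^ k) := by
  have hF : ∀ i, Fl s N (i + N) = Fl s N i := fun i => Fl_add i
  have o1 := h.mr.o1
  have o2 := h.mr.o2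
  have o3 := h.mr.o3
  have o4 := h.mr.o4
  have o5 := h.mr.o5
  have p2 := h'.mr.o2
  obtain ⟨k1, k2, k3, k4⟩ := case_a hF hn h.mr h'.mr h1 h2
  obtain ⟨T, hT1, hT2⟩ := sg_up hs hN h1 (by linarith) h.h1 h'.h1 k1
  obtain ⟨T', hT3, hT4⟩ := sg_dn hs hN h2 (by linarith) h'.h2 h.h2 k2
  have hTT : T = T' := by omega
  have hTk : T ≤ 2 ^ k := by
    have h5 : (3 : ℤ) * T ≤ 3 * 2 ^ k := by
      rcases eq_or_lt_of_le h1 with h6 | h6
      · rw [← h6, sub_self] at hT2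
        rw [hT2]
        positivity
      · linarith [k4 h6]
    have h6 : (T : ℤ) ≤ 2 ^ k := by linarith
    exact_mod_cast h6
  refine ⟨sg s N b1 b1', sg s N b2' b2, ?_, sg_len hs hN (by linarith), ⟨⟨T, hT1⟩, ⟨T', hT3⟩⟩, ?_, ?_⟩
  · rw [sg_add hs hN (x := b1) (y := b1') (z := b2) h1 (by linarith) (by linarith),
      sg_add hs hN (x := b1') (y := b2') (z := b2) p2.le h2 (by linarith)]
  · rw [TS.hgt_eq hT1, TS.hgt_eq hT3, hTT]
  · rw [TS.hgt_eq hT1]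
    exact hTk

/-- the second top arc around the first one -/
lemma code_b (hs : s ∈ Cy N) (hN : 0 < N) {k : ℕ} (hn : n = 3 * 2 ^ k) (hτ0 : 0 ≤ τ) (hτ : 2 * τ ≤ 3 * 2 ^ k)
    (h : Mw s N j b1 b2 b3 b4 n τ) (h' : Mw s N j' b1' b2' b3' b4' n τ) (h1 : b1' ≤ b1) (h2 : b2 ≤ b2') :
    NB1 k (sg s N j b1) (sg s N b2 b3) (b1 - b1').toNat := by
  have hF : ∀ i, Fl s N (i + N) = Fl s N i := fun i => Fl_add i
  have o1 := h.mr.o1
  have o2 := h.mr.o2
  have o3 := h.mr.o3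
  have o4 := h.mr.o4
  have o5 := h.mr.o5
  have p2 := h'.mr.o2
  have n1 := h.mr.n1
  have hk0 : (1 : ℤ) ≤ 2 ^ k := by exact_mod_cast Nat.one_le_two_pow
  obtain ⟨⟨r1, r2⟩, k1, k2, k3, k4, k5, k6⟩ := case_b hF (by linarith) (by linarith) hτ0 h.mr h'.mr h1 h2
  obtain ⟨T, hT1, hT2⟩ := sg_up hs hN h1 (by linarith) h'.h1 h.h1 k2
  obtain ⟨T', hT3, hT4⟩ := sg_dn hs hN h2 (by linarith) h.h2 h'.h2 k3
  obtain ⟨T2, hT5, hT6⟩ := sg_up hs hN r1 (by linarith) h.h0 h'.h1 k1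
  obtain ⟨T3, hT7, -⟩ := sg_dn hs hN r2 (by linarith) h'.h2 h.h3 k4
  have hTT : T = T' := by omega
  have hTk : T ≤ 2 ^ k := by
    have h6 : (T : ℤ) ≤ 2 ^ k := by linarith
    exact_mod_cast h6
  have hTk' : 2 ^ (k - 1) ≤ T2 := by
    have h6 : (2 : ℤ) ^ k ≤ 2 * T2 := by linarith
    have h7 : 2 ^ k ≤ 2 * T2 := by exact_mod_cast h6
    rcases Nat.eq_zero_or_pos k with h0 | h0
    · rw [h0] at h7 ⊢
      simp only [Nat.zero_sub, pow_zero] at h7 ⊢
      omega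
    · rw [show k = (k - 1) + 1 by omega, pow_succ] at h7
      omega
  refine ⟨sg s N j b1', sg s N b1' b1, sg s N b2 b2', sg s N b2' b3, sg_add hs hN r1 h1 (by linarith),
    sg_add hs hN h2 r2 (by linarith), sg_len hs hN (by linarith), ⟨⟨T, hT1⟩, ⟨T', hT3⟩⟩, ⟨?_, ?_⟩, ⟨T2, hTk', hT5⟩, ⟨T3, hT7⟩⟩
  · rw [TS.hgt_eq hT1, TS.hgt_eq hT3, hTT]
  · rw [TS.hgt_eq hT1]
    exact hTk

/-- the second bottom arc inside of the first one -/
lemma code_a4 (hs : s ∈ Cy N) (hN : 0 < N) {k : ℕ} (hn : 2 ≤ n) (hτk : τ ≤ 3 * 2 ^ k)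
    (h : Mw s N j b1 b2 b3 b4 n τ) (h' : Mw s N j' b1' b2' b3' b4' n τ) (h1 : b3 ≤ b3') (h2 : b4' ≤ b4) :
    ∃ P Q : List Bool, sg s N b3 b4 = P ++ (sg s N b3' b4' ++ Q) ∧ P.length = (b3' - b3).toNat ∧ (P ∈ BU ∧ Q ∈ BU) ∧
      (hgt P = hgt Q ∧ hgt P ≤ 2 ^ k) := by
  have hF : ∀ i, Fl s N (i + N) = Fl s N i := fun i => Fl_add i
  have o1 := h.mr.o1
  have o2 := h.mr.o2
  have o3 := h.mr.o3
  have o4 := h.mr.o4
  have o5 := h.mr.o5
  have p4 := h'.mr.o4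
  obtain ⟨k1, k2, k3, k4⟩ := case_a4 hF hn h.mr h'.mr h1 h2
  obtain ⟨T, hT1, hT2⟩ := sg_dn hs hN h1 (by linarith) h.h3 h'.h3 k1
  obtain ⟨T', hT3, hT4⟩ := sg_up hs hN h2 (by linarith) h'.h4 h.h4 k2
  have hTT : T = T' := by omega
  have hTk : T ≤ 2 ^ k := by
    have h5 : (3 : ℤ) * T ≤ 3 * 2 ^ k := by
      rcases eq_or_lt_of_le h2 with h6 | h6
      · rw [h6, sub_self] at hT4
        rw [hTT, hT4]
        positivity
      · have := k4 h6
        linarith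
    have h6 : (T : ℤ) ≤ 2 ^ k := by linarith
    exact_mod_cast h6
  refine ⟨sg s N b3 b3', sg s N b4' b4, ?_, sg_len hs hN (by linarith), ⟨⟨T, hT1⟩, ⟨T', hT3⟩⟩, ?_, ?_⟩
  · rw [sg_add hs hN (x := b3) (y := b3') (z := b4) h1 (by linarith) (by linarith),
      sg_add hs hN (x := b3') (y := b4') (z := b4) p4.le h2 (by linarith)]
  · rw [TS.hgt_eq hT1, TS.hgt_eq hT3, hTT]
  · rw [TS.hgt_eq hT1]
    exact hTk

/-- the second bottom arc around the first one -/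
lemma code_b4 (hs : s ∈ Cy N) (hN : 0 < N) {k : ℕ} (hn : n = 3 * 2 ^ k) (hτ0 : 0 ≤ τ) (hτ : 2 * τ ≤ 3 * 2 ^ k)
    (h : Mw s N j b1 b2 b3 b4 n τ) (h' : Mw s N j' b1' b2' b3' b4' n τ) (h1 : b3' ≤ b3) (h2 : b4 ≤ b4') :
    NB4 k (sg s N b2 b3) (sg s N b4 (j + N)) (b4' - b4).toNat := by
  have hF : ∀ i, Fl s N (i + N) = Fl s N i := fun i => Fl_add i
  have o1 := h.mr.o1
  have o2 := h.mr.o2
  have o3 := h.mr.o3
  have o4 := h.mr.o4
  have o5 := h.mr.o5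
  have p4 := h'.mr.o4
  have n2 := h.mr.n2
  have hk0 : (1 : ℤ) ≤ 2 ^ k := by exact_mod_cast Nat.one_le_two_pow
  obtain ⟨⟨r1, r2⟩, k1, k2, k3, k4, k5, k6⟩ := case_b4 hF (by linarith) (by linarith) hτ0 h.mr h'.mr h1 h2
  have hj : Hd s N (j + N) = up := by
    have := Hd_mul (s := s) (N := N) j 1
    rw [one_mul] at this
    rw [this, h.h0]
  obtain ⟨T0, hT0, -⟩ := sg_dn hs hN r1 (by linarith) h.h2 h'.h3 k1
  obtain ⟨T, hT1, hT2⟩ := sg_dn hs hN h1 (by linarith) h'.h3 h.h3 k2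
  obtain ⟨T', hT3, hT4⟩ := sg_up hs hN h2 (by linarith) h.h4 h'.h4 k3
  obtain ⟨T2, hT5, hT6⟩ := sg_up hs hN r2 (by linarith) h'.h4 hj (fun i h5 h6 => by
    rw [hF j]
    exact k4 i h5 h6)
  rw [hF j] at hT6
  have hTT : T = T' := by omega
  have hTk : T ≤ 2 ^ k := by
    have h6 : (T : ℤ) ≤ 2 ^ k := by linarith
    exact_mod_cast h6
  have hTk' : 2 ^ (k - 1) ≤ T2 := by
    have h6 : (2 : ℤ) ^ k ≤ 2 * T2 := by linarith
    have h7 : 2 ^ k ≤ 2 * T2 := by exact_mod_cast h6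
    rcases Nat.eq_zero_or_pos k with h0 | h0
    · rw [h0] at h7 ⊢
      simp only [Nat.zero_sub, pow_zero] at h7 ⊢
      omega
    · rw [show k = (k - 1) + 1 by omega, pow_succ] at h7
      omega
  refine ⟨sg s N b2 b3', sg s N b3' b3, sg s N b4 b4', sg s N b4' (j + N), sg_add hs hN r1 h1 (by linarith),
    sg_add hs hN h2 r2 (by linarith), sg_len hs hN (by linarith), ⟨⟨T, hT1⟩, ⟨T', hT3⟩⟩, ⟨?_, ?_⟩, ⟨T2, hTk', hT5⟩, ⟨T0, hT0⟩⟩
  · rw [TS.hgt_eq hT1, TS.hgt_eq hT3, hTT]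
  · rw [TS.hgt_eq hT1]
    exact hTk

/-- the second root is a cut of the first up strand -/
lemma code_c (hs : s ∈ Cy N) (hN : 0 < N) (hn : 2 ≤ n) (hτ : τ < n) (hτ0 : 0 ≤ τ)
    (h : Mw s N j b1 b2 b3 b4 n τ) (h' : Mw s N j' b1' b2' b3' b4' n τ)
    (hne : (b1 ≤ b1' ∧ b2' ≤ b2) ∨ (b1' ≤ b1 ∧ b2 ≤ b2')) :
    (j ≤ j' ∧ j' ≤ b1 ∧ sg s N j j' ∈ BU ∧ sg s N j' b1 ∈ BU) ∨
      (b4 ≤ j' + N ∧ j' < j ∧ sg s N b4 (j' + N) ∈ BU ∧ sg s N (j' + N) (j + N) ∈ BU) := by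
  have hF : ∀ i, Fl s N (i + N) = Fl s N i := fun i => Fl_add i
  have o1 := h.mr.o1
  have o2 := h.mr.o2
  have o3 := h.mr.o3
  have o4 := h.mr.o4
  have o5 := h.mr.o5
  have hj : Hd s N (j + N) = up := by
    have := Hd_mul (s := s) (N := N) j 1
    rw [one_mul] at this
    rw [this, h.h0]
  have hj' : Hd s N (j' + N) = up := by
    have := Hd_mul (s := s) (N := N) j' 1
    rw [one_mul] at this
    rw [this, h'.h0]
  obtain ⟨⟨k1, k2⟩, k3, k4⟩ := case_c hF hn hτ hτ0 h.mr h'.mr hne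
  rcases le_or_gt j j' with h1 | h1
  · left
    obtain ⟨T, hT, -⟩ := sg_up hs hN h1 (by linarith) h.h0 h'.h0 (fun i h5 h6 =>
      ⟨(h.mr.z1 i h5 (by linarith)).1, k4 i (by linarith) h6⟩)
    obtain ⟨T', hT', -⟩ := sg_up hs hN k2 (by linarith) h'.h0 h.h1 (fun i h5 h6 =>
      ⟨k3 i h5 h6, (h.mr.z1 i (by linarith) h6).2⟩)
    exact ⟨h1, k2, ⟨T, hT⟩, ⟨T', hT'⟩⟩
  · right
    have e : ∀ i, Fl s N i = Fl s N (i - N) := fun i => by rw [← hF (i - N), sub_add_cancel]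
    obtain ⟨T, hT, -⟩ := sg_up hs hN (x := b4) (y := j' + N) (by linarith) (by linarith) h.h4 hj' (fun i h5 h6 => by
      constructor
      · have := (h.mr.z i h5 (by linarith)).1
        linarith
      · rw [hF j', e i]
        exact k4 (i - N) (by linarith) (by linarith))
    obtain ⟨T', hT', -⟩ := sg_up hs hN (x := j' + N) (y := j + N) (by linarith) (by linarith) hj' hj (fun i h5 h6 => by
      rw [hF j', hF j]
      constructor
      · rw [e i]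
        exact k3 (i - N) (by linarith) (by linarith)
      · exact (h.mr.z i (by linarith) h6).2)
    exact ⟨by linarith, h1, ⟨T, hT⟩, ⟨T', hT'⟩⟩

end POL

end HexObs
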