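import Pool.Agent.POL.Codes

/-!
POL, L4: the number of the markings of a closed word (helper59).
-/

set_option autoImplicit false

namespace HexObs

namespace POL

open Finset TS

/-! ### 1. Uniqueness of the second end of an arc -/

lemma Mr.u2 {F : ℤ → ℤ} {N j b1 b2 b3 b4 b2' b3' b4' n τ : ℤ} (h : Mr F N j b1 b2 b3 b4 n τ)
    (h' : Mr F N j b1 b2' b3' b4' n τ) : b2 = b2' := by
  have o2 := h.o2
  have o3 := h.o3
  have p2 := h'.o2
  have p3 := h'.o3
  rcases lt_trichotomy b2 b2' with h1 | h1 | h1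
  · have k1 := (h'.t1 (b2 + 1) (by linarith) (by linarith)).1
    have k2 := (h.d (b2 + 1) (by linarith) (by linarith)).1
    linarith
  · exact h1
  · have k1 := (h.t1 (b2' + 1) (by linarith) (by linarith)).1
    have k2 := (h'.d (b2' + 1) (by linarith) (by linarith)).1
    linarith

lemma Mr.u4 {F : ℤ → ℤ} {N j b1 b2 b3 b4 b2' b4' n τ : ℤ} (h : Mr F N j b1 b2 b3 b4 n τ)
    (h' : Mr F N j b1 b2' b3 b4' n τ) : b4 = b4' := by
  have o5 := h.o5
  have p5 := h'.o5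
  have o4 := h.o4
  have p4 := h'.o4
  have e := h.t2e
  have e' := h'.t2e
  rcases lt_trichotomy b4 b4' with h1 | h1 | h1
  · have k1 := (h'.t2 (b4 + 1) (by linarith) (by linarith)).1
    have k2 := (h.z (b4 + 1) (by linarith) (by linarith)).1
    linarith
  · exact h1
  · have k1 := (h.t2 (b4' + 1) (by linarith) (by linarith)).1
    have k2 := (h'.z (b4' + 1) (by linarith) (by linarith)).1
    linarith

lemma Mr.u3 {F : ℤ → ℤ} {N j b1 b2 b3 b4 b2' b3' n τ : ℤ} (h : Mr F N j b1 b2 b3 b4 n τ)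
    (h' : Mr F N j b1 b2' b3' b4 n τ) : b3 = b3' := by
  have o4 := h.o4
  have p4 := h'.o4
  have e := h.t2e
  have e' := h'.t2e
  rcases lt_trichotomy b3 b3' with h1 | h1 | h1
  · have k1 := (h.t2 b3' h1 (by linarith)).1
    linarith
  · exact h1
  · have k1 := (h'.t2 b3 h1 (by linarith)).1
    linarith

/-! ### 2. Marked closed words -/

/-- five parts -/
abbrev P5 := List Bool × List Bool × List Bool × List Bool × List Bool

/-- the word of the five parts -/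
def cat5 (p : P5) : List Bool := p.1 ++ (p.2.1 ++ (p.2.2.1 ++ (p.2.2.2.1 ++ p.2.2.2.2)))

/-- a marked closed word -/
def MkG (AT : Set (List Bool)) (k N : ℕ) (p : P5) : Prop :=
  Tup AT k p.1 p.2.1 p.2.2.1 p.2.2.2.1 p.2.2.2.2 ∧ cat5 p ∈ Cy N

/-- the ends of the parts -/
def q1 (p : P5) : ℤ := p.1.length
def q2 (p : P5) : ℤ := p.1.length + p.2.1.length
def q3 (p : P5) : ℤ := p.1.length + p.2.1.length + p.2.2.1.length
def q4 (p : P5) : ℤ := p.1.length + p.2.1.length + p.2.2.1.length + p.2.2.2.1.length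

variable {AT : Set (List Bool)} {k N : ℕ} {τ : ℤ} {p : P5}

lemma MkG.mw (hA : ∀ X ∈ AT, ArcW τ X) (h : MkG AT k N p) : Mw (cat5 p) N 0 (q1 p) (q2 p) (q3 p) (q4 p) (3 * 2 ^ k) τ := by
  obtain ⟨⟨⟨⟨a, ha1, ha2⟩, -⟩, hT1, ⟨⟨d, hd⟩, -⟩, hT2, ⟨⟨c, hc1, hc2⟩, -⟩⟩, hcy⟩ := h
  have h1 : ((2 ^ k : ℕ) : ℤ) = 2 ^ k := by push_cast; rfl
  have h2 : ((2 ^ k : ℕ) : ℤ) ≤ a := by exact_mod_cast ha1
  have h3 : ((2 ^ k : ℕ) : ℤ) ≤ c := by exact_mod_cast hc1
  exact mw_of hcy rfl ha2 hc2 hd (hA _ hT1) (hA _ hT2) (by positivity) (by linarith) (by linarith)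

lemma MkG.N0 (hA : ∀ X ∈ AT, ArcW τ X) (h : MkG AT k N p) : 0 < N := by
  have h1 := (h.mw hA).mr
  have := h1.o1
  have := h1.o2
  have := h1.o3
  have := h1.o4
  have := h1.o5
  omega

lemma MkG.len (h : MkG AT k N p) : (q4 p + p.2.2.2.2.length : ℤ) = N := by
  have h1 := h.2.1
  unfold cat5 at h1
  rw [List.length_append, List.length_append, List.length_append, List.length_append] at h1
  unfold q4
  omega

lemma MkG.parts (hN : 0 < N) (h : MkG AT k N p) : sg (cat5 p) N 0 (q1 p) = p.1 ∧ sg (cat5 p) N (q1 p) (q2 p) = p.2.1 ∧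
    sg (cat5 p) N (q2 p) (q3 p) = p.2.2.1 ∧ sg (cat5 p) N (q3 p) (q4 p) = p.2.2.2.1 ∧ sg (cat5 p) N (q4 p) N = p.2.2.2.2 := by
  have hl := h.2.1
  have hN5 := h.len
  have e0 : ∀ i, q1 p = i → i = q1 p := fun i h => h.symm
  unfold sg
  refine ⟨?_, ?_, ?_, ?_, ?_⟩
  · have := sb_mid (A := []) (B := p.1) (C := p.2.1 ++ (p.2.2.1 ++ (p.2.2.2.1 ++ p.2.2.2.2))) hl hN rfl (x := 0) (by simp)
    rw [show (q1 p - 0).toNat = p.1.length by unfold q1; omega]
    exact this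
  · have := sb_mid (A := p.1) (B := p.2.1) (C := p.2.2.1 ++ (p.2.2.2.1 ++ p.2.2.2.2)) hl hN rfl (x := q1 p) rfl
    rw [show (q2 p - q1 p).toNat = p.2.1.length by unfold q1 q2; omega]
    exact this
  · have := sb_mid (A := p.1 ++ p.2.1) (B := p.2.2.1) (C := p.2.2.2.1 ++ p.2.2.2.2) hl hN (by unfold cat5; simp) (x := q2 p)
      (by unfold q2; rw [List.length_append]; push_cast; rfl)
    rw [show (q3 p - q2 p).toNat = p.2.2.1.length by unfold q3 q2; omega]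
    exact this
  · have := sb_mid (A := p.1 ++ p.2.1 ++ p.2.2.1) (B := p.2.2.2.1) (C := p.2.2.2.2) hl hN (by unfold cat5; simp) (x := q3 p)
      (by unfold q3; rw [List.length_append, List.length_append]; push_cast; rfl)
    rw [show (q4 p - q3 p).toNat = p.2.2.2.1.length by unfold q3 q4; omega]
    exact this
  · have := sb_mid (A := p.1 ++ p.2.1 ++ p.2.2.1 ++ p.2.2.2.1) (B := p.2.2.2.2) (C := []) hl hN (by unfold cat5; simp)
      (x := q4 p) (by unfold q4; rw [List.length_append, List.length_append, List.length_append]; push_cast; rfl)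
    rw [show (N - q4 p).toNat = p.2.2.2.2.length by omega]
    exact this

/-- the ends determine the marking -/
lemma P5.ext' {p p' : P5} (h0 : cat5 p = cat5 p') (h1 : q1 p = q1 p') (h2 : q2 p = q2 p') (h3 : q3 p = q3 p')
    (h4 : q4 p = q4 p') : p = p' := by
  obtain ⟨a, b, c, d, e⟩ := p
  obtain ⟨a', b', c', d', e'⟩ := p'
  unfold cat5 at h0
  unfold q1 at h1
  unfold q2 at h2
  unfold q3 at h3
  unfold q4 at h4
  simp only at h0 h1 h2 h3 h4
  obtain ⟨g1, h0⟩ := List.append_inj h0 (by omega)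
  obtain ⟨g2, h0⟩ := List.append_inj h0 (by omega)
  obtain ⟨g3, h0⟩ := List.append_inj h0 (by omega)
  obtain ⟨g4, h0⟩ := List.append_inj h0 (by omega)
  rw [g1, g2, g3, g4, h0]

/-! ### 3. The codes -/

open scoped Classical in
/-- the codes of the roots -/
noncomputable def CU (p : P5) : Finset (ℕ ⊕ ℕ) :=
  ((range (p.1.length + 1)).filter fun i => p.1.take i ∈ BU ∧ p.1.drop i ∈ BU).disjSum
    ((range (p.2.2.2.2.length + 1)).filter fun i => p.2.2.2.2.take i ∈ BU ∧ p.2.2.2.2.drop i ∈ BU)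

open scoped Classical in
/-- the codes of the top arcs -/
noncomputable def C1 (AT : Set (List Bool)) (k : ℕ) (p : P5) : Finset (ℕ ⊕ ℕ) :=
  ((range (p.2.1.length + 1)).filter (NA AT k p.2.1)).disjSum ((range (p.1.length + 1)).filter (NB1 k p.1 p.2.2.1))

open scoped Classical in
/-- the codes of the bottom arcs -/
noncomputable def C4 (AT : Set (List Bool)) (k : ℕ) (p : P5) : Finset (ℕ ⊕ ℕ) :=
  ((range (p.2.2.2.1.length + 1)).filter (NA AT k p.2.2.2.1)).disjSum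
    ((range (p.2.2.2.2.length + 1)).filter (NB4 k p.2.2.1 p.2.2.2.2))

/-- the number of the codes -/
noncomputable def cod (AT : Set (List Bool)) (k : ℕ) (p : P5) : ℕ := (nc p.1 + nc p.2.2.2.2) *
  (cnt p.2.1.length (NA AT k p.2.1) + cnt p.1.length (NB1 k p.1 p.2.2.1)) *
  (cnt p.2.2.2.1.length (NA AT k p.2.2.2.1) + cnt p.2.2.2.2.length (NB4 k p.2.2.1 p.2.2.2.2))

lemma cod_eq : cod AT k p = (CU p).card * (C1 AT k p).card * (C4 AT k p).card := by
  unfold cod CU C1 C4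
  rw [Finset.card_disjSum, Finset.card_disjSum, Finset.card_disjSum]
  rfl

/-- the positions of the roots -/
def pu (p : P5) : ℕ ⊕ ℕ → ℤ
  | Sum.inl i => i
  | Sum.inr i => q4 p + i

/-- the positions of the top arcs -/
def p1 (p : P5) : ℕ ⊕ ℕ → ℤ
  | Sum.inl i => q1 p + i
  | Sum.inr i => q1 p - i

/-- the code of the bottom arc -/
def r4 (N : ℕ) (p p' : P5) (y : ℕ) : ℕ ⊕ ℕ → Prop
  | Sum.inl i => (N : ℤ) ∣ y + q3 p' - (q3 p + i)
  | Sum.inr i => (N : ℤ) ∣ y + q4 p' - (q4 p + i)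

/-- the marking p' of the rotation at y has the code c -/
def Rc (N : ℕ) (p : P5) (x : P5 × ℕ) (c : (ℕ ⊕ ℕ) × (ℕ ⊕ ℕ) × (ℕ ⊕ ℕ)) : Prop :=
  (N : ℤ) ∣ x.2 - pu p c.1 ∧ (N : ℤ) ∣ x.2 + q1 x.1 - p1 p c.2.1 ∧ r4 N p x.1 x.2 c.2.2

/-- another marking of the closed word of p -/
def Oth (AT : Set (List Bool)) (k N : ℕ) (p : P5) (x : P5 × ℕ) : Prop :=
  MkG AT k N x.1 ∧ x.2 < N ∧ cat5 x.1 = (cat5 p).rotate x.2 ∧ pd (cat5 p) x.2 = up

lemma Oth.mw (hA : ∀ X ∈ AT, ArcW τ X) (hN : 0 < N) (hp : cat5 p ∈ Cy N) {x : P5 × ℕ} (h : Oth AT k N p x) :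
    Mw (cat5 p) N x.2 (x.2 + q1 x.1) (x.2 + q2 x.1) (x.2 + q3 x.1) (x.2 + q4 x.1) (3 * 2 ^ k) τ := by
  obtain ⟨h1, h2, h3, h4⟩ := h
  have h5 := h1.mw hA
  rw [h3] at h5
  have h6 := Mw.rot hp hN h4 h5
  rwa [add_zero] at h6

lemma dvd_small (N : ℕ) {x y : ℤ} (h : (N : ℤ) ∣ x - y) (h1 : x - y < N) (h2 : y - x < N) : x = y := by
  have h3 := Int.eq_zero_of_abs_lt_dvd h (by rw [abs_lt]; constructor <;> linarith)
  linarith

/-- the code determines the marking -/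
lemma code_inj (hA : ∀ X ∈ AT, ArcW τ X) (hN : 0 < N) (hp : cat5 p ∈ Cy N) {x x' : P5 × ℕ}
    (h : Oth AT k N p x) (h' : Oth AT k N p x') {c : (ℕ ⊕ ℕ) × (ℕ ⊕ ℕ) × (ℕ ⊕ ℕ)} (hc : Rc N p x c) (hc' : Rc N p x' c) :
    x = x' := by
  obtain ⟨c1, c2, c3⟩ := hc
  obtain ⟨d1, d2, d3⟩ := hc'
  have m := h.mw hA hN hp
  have m' := h'.mw hA hN hp
  have hx := h.2.1
  have hx' := h'.2.1
  have e1 : (x.2 : ℤ) = x'.2 := by
    refine dvd_small N ?_ (by omega) (by omega)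
    have := dvd_sub c1 d1
    rwa [show ((x.2 : ℤ) - pu p c.1) - (x'.2 - pu p c.1) = x.2 - x'.2 by ring] at this
  have e1' : x.2 = x'.2 := by exact_mod_cast e1
  have m1 := m.mr
  have m1' := m'.mr
  rw [← e1] at m1'
  have o1 := m1.o1
  have o2 := m1.o2
  have o3 := m1.o3
  have o4 := m1.o4
  have o5 := m1.o5
  have p1' := m1'.o1
  have p2' := m1'.o2
  have p3' := m1'.o3
  have p4' := m1'.o4
  have p5' := m1'.o5
  have e2 : q1 x.1 = q1 x'.1 := by
    have h1 : (x.2 : ℤ) + q1 x.1 = x.2 + q1 x'.1 := by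
      refine dvd_small N ?_ (by linarith) (by linarith)
      have := dvd_sub c2 d2
      rwa [← e1, show ((x.2 : ℤ) + q1 x.1 - p1 p c.2.1) - (x.2 + q1 x'.1 - p1 p c.2.1) = x.2 + q1 x.1 - (x.2 + q1 x'.1) by ring]
        at this
    linarith
  rw [← e2] at m1'
  have e3 : q2 x.1 = q2 x'.1 := by
    have := m1.u2 m1'
    linarith
  have e4 : q3 x.1 = q3 x'.1 ∧ q4 x.1 = q4 x'.1 := by
    obtain ⟨ca, cb, cc⟩ := c
    rcases cc with i | i
    · have c4 : (N : ℤ) ∣ x.2 + q3 x.1 - (q3 p + i) := c3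
      have d4 : (N : ℤ) ∣ x'.2 + q3 x'.1 - (q3 p + i) := d3
      have h1 : (x.2 : ℤ) + q3 x.1 = x.2 + q3 x'.1 := by
        refine dvd_small N ?_ (by linarith) (by linarith)
        have := dvd_sub c4 d4
        rwa [← e1, show ((x.2 : ℤ) + q3 x.1 - (q3 p + i)) - (x.2 + q3 x'.1 - (q3 p + i)) = x.2 + q3 x.1 - (x.2 + q3 x'.1) by ring]
          at this
      have h2 : q3 x.1 = q3 x'.1 := by linarith
      rw [← h2] at m1'
      have := m1.u4 m1'
      exact ⟨h2, by linarith⟩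
    · have c4 : (N : ℤ) ∣ x.2 + q4 x.1 - (q4 p + i) := c3
      have d4 : (N : ℤ) ∣ x'.2 + q4 x'.1 - (q4 p + i) := d3
      have h1 : (x.2 : ℤ) + q4 x.1 = x.2 + q4 x'.1 := by
        refine dvd_small N ?_ (by linarith) (by linarith)
        have := dvd_sub c4 d4
        rwa [← e1, show ((x.2 : ℤ) + q4 x.1 - (q4 p + i)) - (x.2 + q4 x'.1 - (q4 p + i)) = x.2 + q4 x.1 - (x.2 + q4 x'.1) by ring]
          at this
      have h2 : q4 x.1 = q4 x'.1 := by linarith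
      rw [← h2] at m1'
      have := m1.u3 m1'
      exact ⟨by linarith, h2⟩
  have e5 : x.1 = x'.1 := P5.ext' (by rw [h.2.2.1, h'.2.2.1, e1']) e2 e3 e4.1 e4.2
  exact Prod.ext e5 e1'

end POL

end HexObs
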