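import Pool.Agent.POL.Count

/-!
POL, L4: every other marking has a code; the number of the markings and the roots (helper59).
-/

set_option autoImplicit false

namespace HexObs

namespace POL

open Finset TS

variable {AT : Set (List Bool)} {k N : ℕ} {τ : ℤ} {p : P5}

open scoped Classical in
lemma cut_of {Z A B : List Bool} (h : Z = A ++ B) (hA : A ∈ BU) (hB : B ∈ BU) :
    A.length ∈ (range (Z.length + 1)).filter fun i => Z.take i ∈ BU ∧ Z.drop i ∈ BU := by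
  rw [mem_filter, mem_range, h, List.length_append, List.take_left, List.drop_left]
  exact ⟨by omega, hA, hB⟩

/-- every other marking has a code -/
lemma code_ex (hA : ∀ X ∈ AT, ArcW τ X) (hτ0 : 0 ≤ τ) (hτ : 2 * τ ≤ 3 * 2 ^ k) (hp : MkG AT k N p) {x : P5 × ℕ}
    (h : Oth AT k N p x) : ∃ c : (ℕ ⊕ ℕ) × (ℕ ⊕ ℕ) × (ℕ ⊕ ℕ), (c.1 ∈ CU p ∧ c.2.1 ∈ C1 AT k p ∧ c.2.2 ∈ C4 AT k p) ∧
      Rc N p x c := by
  classical
  have hN := hp.N0 hA
  have m := hp.mw hA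
  have m' := h.mw hA hN hp.2
  have hcy := hp.2
  obtain ⟨z1, z2, z3, z4, z5⟩ := hp.parts hN
  have hx4 := h.2.2.1
  obtain ⟨w1, w2, w3, w4, w5⟩ := h.1.parts hN
  rw [hx4] at w2 w4
  have hF : ∀ i, Fl (cat5 p) N (i + N) = Fl (cat5 p) N i := fun i => Fl_add i
  have hk0 : (1 : ℤ) ≤ 2 ^ k := by exact_mod_cast Nat.one_le_two_pow
  have hn2 : (2 : ℤ) ≤ 3 * 2 ^ k := by linarith
  have hτn : τ < 3 * 2 ^ k := by linarith
  have o1 := m.mr.o1
  have o2 := m.mr.o2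
  have o3 := m.mr.o3
  have o4 := m.mr.o4
  have o5 := m.mr.o5
  have p2' := m'.mr.o2
  have p4' := m'.mr.o4
  have p1' := m'.mr.o1
  have p3' := m'.mr.o3
  have p5' := m'.mr.o5
  -- the arcs of the other marking as segments
  have s2 : ∀ q : ℤ, sg (cat5 p) N (x.2 + q1 x.1 + q * N) (x.2 + q2 x.1 + q * N) = x.1.2.1 := by
    intro q
    rw [sg_mul, ← w2]
    unfold sg
    rw [show (x.2 : ℤ) + q2 x.1 - (x.2 + q1 x.1) = q2 x.1 - q1 x.1 by ring, sb_rot hcy.1 hN x.2 _ (by omega)]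
  have s4 : ∀ q : ℤ, sg (cat5 p) N (x.2 + q3 x.1 + q * N) (x.2 + q4 x.1 + q * N) = x.1.2.2.2.1 := by
    intro q
    rw [sg_mul, ← w4]
    unfold sg
    rw [show (x.2 : ℤ) + q4 x.1 - (x.2 + q3 x.1) = q4 x.1 - q3 x.1 by ring, sb_rot hcy.1 hN x.2 _ (by omega)]
  have hT1' : x.1.2.1 ∈ AT := h.1.1.2.1
  have hT2' : x.1.2.2.2.1 ∈ AT := h.1.1.2.2.2.1
  -- the top arcs are nested
  have top : ∃ q : ℤ, (q1 p ≤ x.2 + q1 x.1 + q * N ∧ x.2 + q2 x.1 + q * N ≤ q2 p) ∨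
      (x.2 + q1 x.1 + q * N ≤ q1 p ∧ q2 p ≤ x.2 + q2 x.1 + q * N) := by
    rcases le_total (Fl (cat5 p) N (q1 p)) (Fl (cat5 p) N (x.2 + q1 x.1)) with h1 | h1
    · obtain ⟨q, hq1, hq2⟩ := nest_top hF hn2 m.mr m'.mr h1
      exact ⟨q, Or.inl ⟨hq1, hq2⟩⟩
    · obtain ⟨q, hq1, hq2⟩ := nest_top hF hn2 m'.mr m.mr h1
      exact ⟨-q, Or.inr ⟨by linarith, by linarith⟩⟩
  obtain ⟨q, hq⟩ := top
  have m'' := m'.shift q
  -- the root
  have hu : ∃ u, u ∈ CU p ∧ (N : ℤ) ∣ x.2 - pu p u := by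
    rcases code_c hcy hN hn2 hτn hτ0 m m'' hq with ⟨h1, h2, h3, h4⟩ | ⟨h1, h2, h3, h4⟩
    · refine ⟨Sum.inl (sg (cat5 p) N 0 (x.2 + q * N)).length, ?_, ?_⟩
      · unfold CU
        rw [Finset.inl_mem_disjSum]
        refine cut_of ?_ h3 h4
        have h5 := sg_add hcy hN (x := 0) (y := x.2 + q * N) (z := q1 p) h1 h2 (by linarith)
        rw [z1] at h5
        exact h5
      · show (N : ℤ) ∣ x.2 - ((sg (cat5 p) N 0 (x.2 + q * N)).length : ℕ)
        rw [sg_len hcy hN (by linarith)]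
        refine ⟨-q, ?_⟩
        rw [show (((x.2 + q * N - 0 : ℤ).toNat : ℕ) : ℤ) = x.2 + q * N by omega]
        ring
    · rw [zero_add] at h4
      refine ⟨Sum.inr (sg (cat5 p) N (q4 p) (x.2 + q * N + N)).length, ?_, ?_⟩
      · unfold CU
        rw [Finset.inr_mem_disjSum]
        refine cut_of ?_ h3 h4
        have h5 := sg_add hcy hN (x := q4 p) (y := x.2 + q * N + N) (z := N) h1 (by linarith) (by linarith)
        rw [z5] at h5
        exact h5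
      · show (N : ℤ) ∣ x.2 - (q4 p + ((sg (cat5 p) N (q4 p) (x.2 + q * N + N)).length : ℕ))
        rw [sg_len hcy hN (by linarith)]
        refine ⟨-q - 1, ?_⟩
        rw [show (((x.2 + q * N + N - q4 p : ℤ).toNat : ℕ) : ℤ) = x.2 + q * N + N - q4 p by omega]
        ring
  -- the top arc
  have hv : ∃ v, v ∈ C1 AT k p ∧ (N : ℤ) ∣ x.2 + q1 x.1 - p1 p v := by
    rcases hq with ⟨h1, h2⟩ | ⟨h1, h2⟩
    · obtain ⟨P, Q, h3, h4, h5, h6⟩ := code_a hcy hN hn2 (by linarith) m m'' h1 h2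
      rw [z2, s2] at h3
      refine ⟨Sum.inl P.length, ?_, ?_⟩
      · unfold C1
        rw [Finset.inl_mem_disjSum, mem_filter, mem_range]
        refine ⟨?_, P, x.1.2.1, Q, h3, rfl, h5, h6, hT1'⟩
        rw [h3, List.length_append]
        omega
      · show (N : ℤ) ∣ x.2 + q1 x.1 - (q1 p + (P.length : ℕ))
        rw [h4]
        refine ⟨-q, ?_⟩
        rw [show (((x.2 + q1 x.1 + q * N - q1 p : ℤ).toNat : ℕ) : ℤ) = x.2 + q1 x.1 + q * N - q1 p by omega]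
        ring
    · have h3 := code_b hcy hN rfl hτ0 hτ m m'' h1 h2
      rw [z1, z3] at h3
      refine ⟨Sum.inr (q1 p - (x.2 + q1 x.1 + q * N)).toNat, ?_, ?_⟩
      · unfold C1
        rw [Finset.inr_mem_disjSum, mem_filter, mem_range]
        refine ⟨?_, h3⟩
        obtain ⟨Z'', P, Q, D', g1, g2, g3, -⟩ := h3
        rw [g1, List.length_append]
        omega
      · show (N : ℤ) ∣ x.2 + q1 x.1 - (q1 p - ((q1 p - (x.2 + q1 x.1 + q * N)).toNat : ℕ))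
        refine ⟨-q, ?_⟩
        rw [show (((q1 p - (x.2 + q1 x.1 + q * N) : ℤ).toNat : ℕ) : ℤ) = q1 p - (x.2 + q1 x.1 + q * N) by omega]
        ring
  -- the bottom arc
  have hw : ∃ v, v ∈ C4 AT k p ∧ r4 N p x.1 x.2 v := by
    rcases le_total (Fl (cat5 p) N (x.2 + q4 x.1)) (Fl (cat5 p) N (q4 p)) with h1 | h1
    · obtain ⟨q, hq1, hq2⟩ := nest_bot hF hn2 m.mr m'.mr h1
      obtain ⟨P, Q, h3, h4, h5, h6⟩ := code_a4 hcy hN hn2 (by linarith) m (m'.shift q) hq1 hq2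
      rw [z4, s4] at h3
      refine ⟨Sum.inl P.length, ?_, ?_⟩
      · unfold C4
        rw [Finset.inl_mem_disjSum, mem_filter, mem_range]
        refine ⟨?_, P, x.1.2.2.2.1, Q, h3, rfl, h5, h6, hT2'⟩
        rw [h3, List.length_append]
        omega
      · show (N : ℤ) ∣ x.2 + q3 x.1 - (q3 p + P.length)
        rw [h4]
        refine ⟨-q, ?_⟩
        rw [show (((x.2 + q3 x.1 + q * N - q3 p : ℤ).toNat : ℕ) : ℤ) = x.2 + q3 x.1 + q * N - q3 p by omega]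
        ring
    · obtain ⟨q0, hq1, hq2⟩ := nest_bot hF hn2 m'.mr m.mr h1
      obtain ⟨q, rfl⟩ : ∃ q, q0 = -q := ⟨-q0, by ring⟩
      have h3 := code_b4 hcy hN rfl hτ0 hτ m (m'.shift q) (by linarith) (by linarith)
      rw [zero_add, z3, z5] at h3
      refine ⟨Sum.inr (x.2 + q4 x.1 + q * N - q4 p).toNat, ?_, ?_⟩
      · unfold C4
        rw [Finset.inr_mem_disjSum, mem_filter, mem_range]
        refine ⟨?_, h3⟩
        obtain ⟨D', P, Q, Z'', g1, g2, g3, -⟩ := h3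
        rw [g2, List.length_append]
        omega
      · show (N : ℤ) ∣ x.2 + q4 x.1 - (q4 p + ((x.2 + q4 x.1 + q * N - q4 p : ℤ).toNat : ℕ))
        refine ⟨-q, ?_⟩
        rw [show (((x.2 + q4 x.1 + q * N - q4 p : ℤ).toNat : ℕ) : ℤ) = x.2 + q4 x.1 + q * N - q4 p by
          have : -q * (N : ℤ) = -(q * N) := by ring
          omega]
        ring
  obtain ⟨u, hu1, hu2⟩ := hu
  obtain ⟨v, hv1, hv2⟩ := hv
  obtain ⟨w, hw1, hw2⟩ := hw
  exact ⟨(u, v, w), ⟨hu1, hv1, hw1⟩, hu2, hv2, hw2⟩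

/-- the number of the other markings -/
theorem oth_card (hA : ∀ X ∈ AT, ArcW τ X) (hτ0 : 0 ≤ τ) (hτ : 2 * τ ≤ 3 * 2 ^ k) (hp : MkG AT k N p)
    (M : Finset (P5 × ℕ)) (hM : ∀ x ∈ M, Oth AT k N p x) : M.card ≤ cod AT k p := by
  classical
  have hN := hp.N0 hA
  have h1 : ∀ x : P5 × ℕ, ∃ c : (ℕ ⊕ ℕ) × (ℕ ⊕ ℕ) × (ℕ ⊕ ℕ), x ∈ M → (c.1 ∈ CU p ∧ c.2.1 ∈ C1 AT k p ∧
      c.2.2 ∈ C4 AT k p) ∧ Rc N p x c := by
    intro x
    by_cases hx : x ∈ M
    · obtain ⟨c, hc⟩ := code_ex hA hτ0 hτ hp (hM x hx)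
      exact ⟨c, fun _ => hc⟩
    · exact ⟨(Sum.inl 0, Sum.inl 0, Sum.inl 0), fun h => absurd h hx⟩
  choose f hf using h1
  have h2 : M.card ≤ (CU p ×ˢ (C1 AT k p ×ˢ C4 AT k p)).card := by
    refine Finset.card_le_card_of_injOn f (fun x hx => ?_) fun x hx x' hx' hxx => ?_
    · have := (hf x hx).1
      rw [Finset.mem_coe, Finset.mem_product, Finset.mem_product]
      exact ⟨this.1, this.2.1, this.2.2⟩
    · have g1 := (hf x hx).2
      have g2 := (hf x' hx').2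
      rw [← hxx] at g2
      exact code_inj hA hN hp.2 (hM x hx) (hM x' hx') g1 g2
  rw [Finset.card_product, Finset.card_product, ← mul_assoc, ← cod_eq] at h2
  exact h2

end POL

end HexObs
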