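import Pool.Agent.POL.CountB

/-!
POL, L4: the roots (helper59).
-/

set_option autoImplicit false

namespace HexObs

namespace POL

open Finset TS

open scoped ENNReal

variable {AT : Set (List Bool)} {k N B : ℕ} {τ : ℤ} {G : Set P5} {s : List Bool}

lemma Cy_fin (N : ℕ) : (Cy N).Finite := (List.finite_length_eq Bool N).subset fun _ h => h.1

lemma pd_mod (h : Clo s) (i : ℕ) : pd s i = pd s (i % s.length) := by
  have h3 : ∀ q j : ℕ, pd s (s.length * q + j) = pd s j := by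
    intro q j
    induction q with
    | zero => rw [Nat.mul_zero, Nat.zero_add]
    | succ q ih => rw [show s.length * (q + 1) + j = s.length + (s.length * q + j) by ring, pd_per h, ih]
  conv_lhs => rw [← Nat.div_add_mod i s.length]
  rw [h3]

/-- the markings of the rotations with the direction d at the new root -/
lemma fib_dir (hA : ∀ X ∈ AT, ArcW τ X) (hτ0 : 0 ≤ τ) (hτ : 2 * τ ≤ 3 * 2 ^ k)
    (hG : ∀ p ∈ G, MkG AT k N p ∧ cod AT k p ≤ B) (hs : s ∈ Cy N) (d : Pt) (M : Finset (P5 × ℕ))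
    (hM : ∀ x ∈ M, x.1 ∈ G ∧ x.2 < N ∧ cat5 x.1 = s.rotate x.2 ∧ pd s x.2 = d) : M.card ≤ B := by
  classical
  rcases M.eq_empty_or_nonempty with h0 | ⟨x0, hx0⟩
  · rw [h0, Finset.card_empty]
    exact Nat.zero_le _
  obtain ⟨h1, h2, h3, h4⟩ := hM x0 hx0
  have hN : 0 < N := by omega
  have hc := Cy.clo hs
  have hlen := hs.1
  obtain ⟨f, hf⟩ : ∃ f : P5 × ℕ → P5 × ℕ, f = fun x => (x.1, (x.2 + (N - x0.2)) % N) := ⟨_, rfl⟩
  have hmod : ∀ x : P5 × ℕ, (x0.2 + (x.2 + (N - x0.2)) % N) % N = x.2 % N := by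
    intro x
    rw [Nat.add_mod_mod, show x0.2 + (x.2 + (N - x0.2)) = x.2 + N by omega, Nat.add_mod_right]
  have hinj : Set.InjOn f (M : Set (P5 × ℕ)) := by
    intro x hx x' hx' hxx
    rw [hf] at hxx
    obtain ⟨g1, g2⟩ := Prod.mk.inj hxx
    have g3 := hmod x
    rw [g2, hmod x', Nat.mod_eq_of_lt (hM x hx).2.1, Nat.mod_eq_of_lt (hM x' hx').2.1] at g3
    exact Prod.ext g1 g3.symm
  rw [← Finset.card_image_of_injOn hinj]
  refine (oth_card hA hτ0 hτ (hG _ h1).1 _ fun y hy => ?_).trans (hG _ h1).2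
  rw [Finset.mem_image] at hy
  obtain ⟨x, hx, rfl⟩ := hy
  obtain ⟨g1, g2, g3, g4⟩ := hM x hx
  rw [hf]
  have hy := Nat.mod_lt (x.2 + (N - x0.2)) hN
  refine ⟨(hG _ g1).1, hy, ?_, ?_⟩
  · show cat5 x.1 = (cat5 x0.1).rotate ((x.2 + (N - x0.2)) % N)
    rw [g3, h3, List.rotate_rotate, ← List.rotate_mod s x.2, ← List.rotate_mod s (x0.2 + (x.2 + (N - x0.2)) % N), hlen, hmod]
  · show pd (cat5 x0.1) ((x.2 + (N - x0.2)) % N) = up
    have g5 : (s.rotate x0.2).length = N := by rw [List.length_rotate, hlen]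
    rw [h3, pd_eq (by omega), rot_dx (by omega), pd_mod hc (x0.2 + (x.2 + (N - x0.2)) % N), hlen, hmod,
      Nat.mod_eq_of_lt g2, g4, ← h4]
    exact rotTo_pd s x0.2

/-- the markings of the rotations -/
lemma fib_all (hA : ∀ X ∈ AT, ArcW τ X) (hτ0 : 0 ≤ τ) (hτ : 2 * τ ≤ 3 * 2 ^ k)
    (hG : ∀ p ∈ G, MkG AT k N p ∧ cod AT k p ≤ B) (hs : s ∈ Cy N) (M : Finset (P5 × ℕ))
    (hM : ∀ x ∈ M, x.1 ∈ G ∧ x.2 < N ∧ cat5 x.1 = s.rotate x.2) : M.card ≤ B * 6 := by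
  classical
  have h1 : dirs.card = 6 := by decide
  rw [← h1]
  refine Finset.card_le_mul_card_image_of_maps_to (f := fun x : P5 × ℕ => pd s x.2) (fun x _ => pd_mem s x.2) B fun d _ => ?_
  refine fib_dir hA hτ0 hτ hG hs d _ fun x hx => ?_
  rw [Finset.mem_filter] at hx
  obtain ⟨g1, g2, g3⟩ := hM x hx.1
  exact ⟨g1, g2, g3, hx.2⟩

/-- the closed words with a rotation in the class -/
def Rts (G : Set P5) (N : ℕ) : Set (List Bool) := {t | t ∈ Cy N ∧ ∃ (c0 : ℕ) (p : P5), p ∈ G ∧ t.rotate c0 = cat5 p}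

lemma Rts_fin (G : Set P5) (N : ℕ) : (Rts G N).Finite := (Cy_fin N).subset fun _ h => h.1

/-- finitely many markings -/
lemma root_fin (hA : ∀ X ∈ AT, ArcW τ X) (hτ0 : 0 ≤ τ) (hτ : 2 * τ ≤ 3 * 2 ^ k)
    (hG : ∀ p ∈ G, MkG AT k N p ∧ cod AT k p ≤ B) (F : Finset P5) (hF : ∀ p ∈ F, p ∈ G) :
    F.card * N ≤ B * 6 * (Rts_fin G N).toFinset.card := by
  classical
  have h0 : (F ×ˢ range N).card = F.card * N := by rw [Finset.card_product, Finset.card_range]
  rw [← h0]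
  refine Finset.card_le_mul_card_image_of_maps_to (f := fun x : P5 × ℕ => (cat5 x.1).rotate (N - x.2)) (fun x hx => ?_) (B * 6)
    fun s hs => ?_
  · rw [Finset.mem_product, Finset.mem_range] at hx
    rw [Set.Finite.mem_toFinset]
    have g4 := (hG _ (hF _ hx.1)).1.2.1
    refine ⟨Cy.rot (hG _ (hF _ hx.1)).1.2 _, x.2, x.1, hF _ hx.1, ?_⟩
    rw [List.rotate_rotate, Nat.sub_add_cancel hx.2.le, ← g4, List.rotate_length]
  · rw [Set.Finite.mem_toFinset] at hs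
    refine fib_all hA hτ0 hτ hG hs.1 _ fun x hx => ?_
    rw [Finset.mem_filter, Finset.mem_product, Finset.mem_range] at hx
    obtain ⟨⟨g1, g2⟩, g3⟩ := hx
    have g4 := (hG _ (hF _ g1)).1.2.1
    refine ⟨hF _ g1, g2, ?_⟩
    rw [← g3, List.rotate_rotate, Nat.sub_add_cancel g2.le, ← g4, List.rotate_length]

open scoped Classical in
/-- **the roots**: N times the sum over the markings is at most 6 B times the mass of the closed words -/
theorem root_count (hA : ∀ X ∈ AT, ArcW τ X) (hτ0 : 0 ≤ τ) (hτ : 2 * τ ≤ 3 * 2 ^ k)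
    (hG : ∀ p ∈ G, MkG AT k N p ∧ cod AT k p ≤ B) :
    (N : ℝ≥0∞) * ∑' p : P5, (if p ∈ G then wE (cat5 p) else 0) ≤ 6 * (B : ℝ≥0∞) * gf (Rts G N) := by
  obtain ⟨w, hw⟩ : ∃ w : ℝ≥0∞, w = ENNReal.ofReal (xc ^ N) := ⟨_, rfl⟩
  have hC : gf (Rts G N) = (Rts_fin G N).toFinset.card * w := by
    have h1 : gf (Rts G N) = ∑ t ∈ (Rts_fin G N).toFinset, wE t := by
      unfold gf
      rw [_root_.tsum_subtype _ (fun t => wE t), tsum_eq_sum (s := (Rts_fin G N).toFinset)]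
      · refine Finset.sum_congr rfl fun t ht => ?_
        rw [Set.Finite.mem_toFinset] at ht
        rw [Set.indicator_of_mem ht]
      · intro t ht
        rw [Set.Finite.mem_toFinset] at ht
        rw [Set.indicator_of_notMem ht]
    rw [h1, Finset.sum_congr rfl (g := fun _ => w) fun t ht => ?_, Finset.sum_const, nsmul_eq_mul]
    rw [Set.Finite.mem_toFinset] at ht
    rw [hw, ← ht.1.1]
    rfl
  rw [← ENNReal.tsum_mul_left, ENNReal.tsum_eq_iSup_sum]
  refine iSup_le fun F => ?_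
  have h1 : ∑ p ∈ F, (N : ℝ≥0∞) * (if p ∈ G then wE (cat5 p) else 0) = (N : ℝ≥0∞) * ((F.filter fun p => p ∈ G).card * w) := by
    rw [← Finset.mul_sum, ← Finset.sum_filter]
    congr 1
    rw [Finset.sum_congr rfl (g := fun _ => w) fun p hp => ?_, Finset.sum_const, nsmul_eq_mul]
    rw [Finset.mem_filter] at hp
    rw [hw, ← (hG _ hp.2).1.2.1]
    rfl
  have h2 := root_fin hA hτ0 hτ hG (F.filter fun p => p ∈ G) fun p hp => (Finset.mem_filter.1 hp).2
  rw [h1, hC, ← mul_assoc, ← mul_assoc]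
  refine mul_le_mul' ?_ le_rfl
  have h3 : (((F.filter fun p => p ∈ G).card * N : ℕ) : ℝ≥0∞) ≤ ((B * 6 * (Rts_fin G N).toFinset.card : ℕ) : ℝ≥0∞) := by
    exact_mod_cast h2
  push_cast at h3
  rw [mul_comm (N : ℝ≥0∞), mul_comm (6 : ℝ≥0∞)]
  exact h3

end POL

end HexObs
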