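import Pool.Agent.POL.RepC
import Pool.Agent.JNT.Cover

/-!
POL (polygons): the sum over the representations of the walks with two closed ends.
-/

set_option autoImplicit false

namespace HexObs

namespace POL

open Finset TS SDN NTm NTW NTA EN JNT

open scoped ENNReal

open Classical in
/-- the weight of the closed free end o hanging at g -/
noncomputable def EoC (N lam : ℕ) (ρ : ℤ) (o : Option (List Bool)) (g : List Bool) : ℝ≥0∞ :=
  if ∀ W ∈ o, EnG N g W ∧ (∀ x, ClE ρ (W ++ [x])) ∧ W.length ≤ lam then wO o else 0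

lemma NSt_mo {N N' : ℕ} (h : N ≤ N') {t : List Bool} (ht : t ∈ NSt N) : t ∈ NSt N' :=
  ⟨ht.1, fun i hi => ⟨(ht.2 i hi).1, (ht.2 i hi).2.trans (by have : (N : ℤ) ≤ N' := by exact_mod_cast h
                                                             linarith)⟩⟩

lemma EnG_mo {N N' : ℕ} (h : N ≤ N') {g W : List Bool} (hW : EnG N g W) : EnG N' g W :=
  fun x => ⟨NSt_mo h (hW x).1, (hW x).2⟩

lemma EoC_mono {N N' lam : ℕ} {ρ : ℤ} (h : N ≤ N') (o : Option (List Bool)) (g : List Bool) :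
    EoC N lam ρ o g ≤ EoC N' lam ρ o g := by
  unfold EoC
  by_cases h1 : ∀ W ∈ o, EnG N g W ∧ (∀ x, ClE ρ (W ++ [x])) ∧ W.length ≤ lam
  · rw [if_pos h1, if_pos fun W hW => ⟨EnG_mo h (h1 W hW).1, (h1 W hW).2⟩]
  · rw [if_neg h1]
    exact zero_le

open Classical in
/-- **the cover, two closed ends** -/
theorem cover_twoC : ∃ K : ℝ, 1 ≤ K ∧ ∀ (T A : Set (List Bool)) (N0 N1 lam : ℕ) (ρ : ℤ) (Q : List (List Bool) → Prop),
    (∀ t ∈ A, t ∈ T ∧ t ∈ SAL lam ∧ ClS ρ t ∧ ClE ρ t ∧ ∃ (m u : ℕ) (e : ℕ → ℕ), 1 ≤ m ∧ FoldG t m u e ∧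
      ρ ≤ RG t u e 0 ∧ ρ ≤ RG t u e (m - 1) ∧
      (∀ i, i < e 0 → Tight.sg u (lev t i) - Tight.sg u (lev t (e 0)) ≤ 3 * N0) ∧
      (∀ i, e m < i → i ≤ t.length →
        Tight.sg (u + (m - 1)) (lev t (e m)) - Tight.sg (u + (m - 1)) (lev t i) ≤ 3 * N1) ∧
      ∀ gs, RepG t m u e gs → Q gs) →
    gf A ≤ ENNReal.ofReal K * ∑ c : Fin 16, ∑' gs : List (List Bool),
      (if gs ≠ [] ∧ gs.IsChain LFold ∧ (∀ g ∈ gs, ∃ k : ℕ, 1 ≤ k ∧ g ∈ Brd k) ∧ Q gs then
        cwL (Cw T c) (fun gs o => EoC N0 lam (ρ - 2) o (rev (gs.headD []))) (fun gs o => EoC N1 lam (ρ - 2) o (gs.getLastD [])) gs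
        else 0) := by
  have hx := xc_pos
  have hx1 := xc_bounds.2
  refine ⟨xc⁻¹ ^ 10, one_le_pow₀ ((one_le_inv₀ hx).2 hx1), ?_⟩
  intro T A N0 N1 lam ρ Q hA
  obtain ⟨F, hF⟩ : ∃ F : Fin 16 → List (List Bool) → Option (List Bool) → Option (List Bool) → ℝ≥0∞,
    F = fun c gs o o' => (if gs ≠ [] ∧ gs.IsChain LFold ∧ (∀ g ∈ gs, ∃ k : ℕ, 1 ≤ k ∧ g ∈ Brd k) ∧ Q gs then
        SDN.wl gs * (if Cw T c o o' gs then EoC N0 lam (ρ - 2) o (rev (gs.headD [])) * EoC N1 lam (ρ - 2) o' (gs.getLastD []) else 0)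
        else 0) := ⟨_, rfl⟩
  rw [← Rec8.sw_one]
  refine (Rec8.sw_cover A (fun _ => 1)
    (fun x : Fin 16 × (List (List Bool) × (Option (List Bool) × Option (List Bool))) =>
      ENNReal.ofReal (xc⁻¹ ^ 10) * F x.1 x.2.1 x.2.2.1 x.2.2.2)
    (fun x => Rp.asmF x.1 x.2.2.1 x.2.1 x.2.2.2) ?_).trans ?_
  · intro t ht
    obtain ⟨htT, h1, hcS, hcE, m, u, e, hm, hG, hr0, hr1, h0, h0', hQ⟩ := hA t ht
    obtain ⟨c, o, o', gs, r1, r2, r3, r4, r5, r6⟩ := rep_asmC t m u e N0 N1 h1.1 hm hG h0 h0'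
    refine ⟨(c, gs, o, o'), r4.symm, ?_⟩
    have hlt := h1.2
    have hne : ∀ g ∈ gs, g ≠ [] := by
      intro g hg
      obtain ⟨k, k1, k2⟩ := r1.brd g hg
      exact Brd_ne_nil k2 k1
    have hgs : gs ≠ [] := by
      rintro rfl
      have := r1.len
      simp at this
      omega
    have hhead : gs.headD [] ∈ gs := by
      cases gs with
      | nil => exact absurd rfl hgs
      | cons g gs => exact List.mem_cons_self
    have hlast : gs.getLastD [] ∈ gs := by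
      rw [List.getLastD_eq_getLast?, List.getLast?_eq_getLast_of_ne_nil hgs]
      exact List.getLast_mem hgs
    have l1 := length_le_unf hne hhead
    have l2 := length_le_unf hne hlast
    have hem := hG.le
    have e0 : EoC N0 lam (ρ - 2) o (rev (gs.headD [])) = wO o := by
      refine if_pos fun W hW => ?_
      obtain ⟨w1, w2, w3⟩ := r2 W hW
      have hx := Rp.e_le hG (Nat.zero_le m)
      exact ⟨w1, fun x => start_cl hG hm hr0 hcS w2 w3 x, by omega⟩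
    have e1 : EoC N1 lam (ρ - 2) o' (gs.getLastD []) = wO o' := by
      refine if_pos fun W hW => ?_
      obtain ⟨w1, w2, w3⟩ := r3 W hW
      exact ⟨w1, fun x => end_cl hG hm hr1 hcE w2 w3 x, by omega⟩
    have e2 : Cw T c o o' gs := by
      unfold Cw
      rw [← r4]
      exact htT
    rw [hF]
    simp only
    rw [if_pos ⟨hgs, r1.ch, r1.brd, hQ gs r1⟩, if_pos e2, e0, e1, mul_one]
    refine (CovA.wE_bound hne hgs r5).trans (le_of_eq ?_)
    ring
  · rw [ENNReal.tsum_prod', tsum_fintype, Finset.mul_sum]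
    refine le_of_eq (Finset.sum_congr rfl fun c _ => ?_)
    rw [ENNReal.tsum_prod', ← ENNReal.tsum_mul_left]
    refine tsum_congr fun gs => ?_
    rw [ENNReal.tsum_prod', hF]
    simp only
    by_cases hg : gs ≠ [] ∧ gs.IsChain LFold ∧ (∀ g ∈ gs, ∃ k : ℕ, 1 ≤ k ∧ g ∈ Brd k) ∧ Q gs
    · simp only [if_pos hg]
      unfold cwL
      simp only [ENNReal.tsum_mul_left]
    · simp only [if_neg hg, mul_zero, tsum_zero]

open NTW.CV in
open Classical in
/-- **the cover, the ends bounded by functions of the ranges of the first and of the last piece** -/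
theorem coverVC : ∃ K : ℝ, 1 ≤ K ∧ ∀ (T A : Set (List Bool)) (f0 f1 : ℕ → ℕ) (lam : ℕ) (ρ : ℤ)
    (Q : List (List Bool) → Prop), Monotone f0 → Monotone f1 →
    (∀ t ∈ A, t ∈ T ∧ t ∈ SAL lam ∧ ClS ρ t ∧ ClE ρ t ∧ ∃ (m u : ℕ) (e : ℕ → ℕ), 1 ≤ m ∧ FoldG t m u e ∧
      ρ ≤ RG t u e 0 ∧ ρ ≤ RG t u e (m - 1) ∧
      (∀ i, i < e 0 → Tight.sg u (lev t i) - Tight.sg u (lev t (e 0)) ≤ 3 * f0 (RG t u e 0).toNat) ∧
      (∀ i, e m < i → i ≤ t.length → Tight.sg (u + (m - 1)) (lev t (e m)) - Tight.sg (u + (m - 1)) (lev t i) ≤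
        3 * f1 (RG t u e (m - 1)).toNat) ∧
      ∀ gs, RepG t m u e gs → Q gs) →
    ∀ B : ℝ≥0∞, (∀ c : Fin 16, (∑' gs : List (List Bool),
      if gs ≠ [] ∧ gs.IsChain LFold ∧ (∀ g ∈ gs, ∃ k : ℕ, 1 ≤ k ∧ g ∈ Brd k) ∧ Q gs then
        cwL (Cw T c) (fun gs o => EoC (f0 (3 * hgt (gs.headD []) + 8)) lam (ρ - 2) o (rev (gs.headD [])))
          (fun gs o => EoC (f1 (3 * hgt (gs.getLastD []) + 8)) lam (ρ - 2) o (gs.getLastD [])) gs else 0) ≤ B) →
    gf A ≤ ENNReal.ofReal K * B := by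
  obtain ⟨K, hK, hC⟩ := cover_twoC
  refine ⟨K * (289 * 16), by linarith, ?_⟩
  intro T A f0 f1 lam ρ Q hf0 hf1 hA B hBB
  -- the classes
  obtain ⟨A', hA'⟩ : ∃ A' : ℕ → ℕ → Set (List Bool), A' = fun r0 r1 => {t | t ∈ A ∧ ∃ (m u : ℕ) (e : ℕ → ℕ), 1 ≤ m ∧
    FoldG t m u e ∧ ρ ≤ RG t u e 0 ∧ ρ ≤ RG t u e (m - 1) ∧ (∀ i, i < e 0 → Tight.sg u (lev t i) - Tight.sg u (lev t (e 0)) ≤ 3 * f0 (RG t u e 0).toNat) ∧
    (∀ i, e m < i → i ≤ t.length → Tight.sg (u + (m - 1)) (lev t (e m)) - Tight.sg (u + (m - 1)) (lev t i) ≤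
      3 * f1 (RG t u e (m - 1)).toNat) ∧ (∀ gs, RepG t m u e gs → Q gs) ∧ (RG t u e 0).toNat = r0 ∧
      (RG t u e (m - 1)).toNat = r1} := ⟨_, rfl⟩
  have hsub : A ⊆ ⋃ r0, ⋃ r1, A' r0 r1 := by
    intro t ht
    obtain ⟨-, -, -, -, m, u, e, h1, h2, hr0, hr1, h3, h4, h5⟩ := hA t ht
    rw [Set.mem_iUnion]
    refine ⟨(RG t u e 0).toNat, ?_⟩
    rw [Set.mem_iUnion]
    refine ⟨(RG t u e (m - 1)).toNat, ?_⟩
    rw [hA']
    exact ⟨ht, m, u, e, h1, h2, hr0, hr1, h3, h4, h5, rfl, rfl⟩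
  obtain ⟨P, hP⟩ : ∃ P : List (List Bool) → Prop, P = fun gs => gs ≠ [] ∧ gs.IsChain LFold ∧
    (∀ g ∈ gs, ∃ k : ℕ, 1 ≤ k ∧ g ∈ Brd k) ∧ Q gs := ⟨_, rfl⟩
  obtain ⟨I0, hI0⟩ : ∃ I0 : ℕ → List (List Bool) → ℝ≥0∞, I0 = fun r gs => if r ≤ 3 * hgt (gs.headD []) + 8 ∧
    3 * hgt (gs.headD []) ≤ r + 8 then 1 else 0 := ⟨_, rfl⟩
  obtain ⟨I1, hI1⟩ : ∃ I1 : ℕ → List (List Bool) → ℝ≥0∞, I1 = fun r gs => if r ≤ 3 * hgt (gs.getLastD []) + 8 ∧
    3 * hgt (gs.getLastD []) ≤ r + 8 then 1 else 0 := ⟨_, rfl⟩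
  obtain ⟨w, hw⟩ : ∃ w : Fin 16 → List (List Bool) → ℝ≥0∞, w = fun c gs =>
    cwL (Cw T c) (fun gs o => EoC (f0 (3 * hgt (gs.headD []) + 8)) lam (ρ - 2) o (rev (gs.headD [])))
      (fun gs o => EoC (f1 (3 * hgt (gs.getLastD []) + 8)) lam (ρ - 2) o (gs.getLastD [])) gs := ⟨_, rfl⟩
  have hBw : ∀ c, (∑' gs : List (List Bool), if P gs then w c gs else 0) ≤ B := by
    intro c
    refine le_trans (le_of_eq ?_) (hBB c)
    refine tsum_congr fun gs => ?_
    rw [hP, hw]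
    congr 1
  have hone : ∀ r0 r1, gf (A' r0 r1) ≤ ENNReal.ofReal K * ∑ c : Fin 16, ∑' gs : List (List Bool),
      (if P gs then I0 r0 gs * I1 r1 gs * w c gs else 0) := by
    intro r0 r1
    refine (hC T (A' r0 r1) (f0 r0) (f1 r1) lam ρ (fun gs => Q gs ∧ (r0 ≤ 3 * hgt (gs.headD []) + 8 ∧
      3 * hgt (gs.headD []) ≤ r0 + 8) ∧ (r1 ≤ 3 * hgt (gs.getLastD []) + 8 ∧ 3 * hgt (gs.getLastD []) ≤ r1 + 8)) ?_).trans
      (mul_le_mul_right (Finset.sum_le_sum fun c _ => ENNReal.tsum_le_tsum fun gs => ?_) _)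
    · intro t ht
      rw [hA'] at ht
      obtain ⟨htA, m, u, e, h1, h2, hr0, hr1, h3, h4, h5, h6, h7⟩ := ht
      refine ⟨(hA t htA).1, (hA t htA).2.1, (hA t htA).2.2.1, (hA t htA).2.2.2.1, m, u, e, h1, h2, hr0, hr1, ?_, ?_,
        fun gs hR => ⟨h5 gs hR, ?_, ?_⟩⟩
      · rw [← h6]
        exact h3
      · rw [← h7]
        exact h4
      · have hl : 0 < gs.length := by rw [hR.len]; omega
        obtain ⟨k, k1, k2⟩ := hR.brd _ (List.getElem_mem hl)
        have h8 := NTW.EX.leaf_hgt k2 k1 (hR.pos 0 hl)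
        have h9 : gs.headD [] = gs[0] := by
          cases gs with
          | nil => simp at hl
          | cons a gs => rfl
        rw [h9, hgt_eq k2]
        have h10 : RG t u e 0 = Tight.sg (u + 0) (lev t (e (0 + 1))) - Tight.sg (u + 0) (lev t (e 0)) := rfl
        have h11 := h2.gap 0 (by omega)
        rw [← h10, abs_le] at h8
        rw [← h10] at h11
        omega
      · have hl : m - 1 < gs.length := by rw [hR.len]; omega
        obtain ⟨k, k1, k2⟩ := hR.brd _ (List.getElem_mem hl)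
        have h8 := NTW.EX.leaf_hgt k2 k1 (hR.pos (m - 1) hl)
        have h9 : gs.getLastD [] = gs[m - 1] := by
          have hne : gs ≠ [] := by
            rintro rfl
            simp at hl
          rw [List.getLastD_eq_getLast?, List.getLast?_eq_getLast_of_ne_nil hne, Option.getD_some, List.getLast_eq_getElem]
          congr 1
          rw [hR.len]
        rw [h9, hgt_eq k2]
        have h10 : RG t u e (m - 1) = Tight.sg (u + (m - 1)) (lev t (e (m - 1 + 1))) -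
          Tight.sg (u + (m - 1)) (lev t (e (m - 1))) := rfl
        have h11 := h2.gap (m - 1) (by omega)
        rw [← h10, abs_le] at h8
        rw [← h10] at h11
        omega
    · by_cases hg : gs ≠ [] ∧ gs.IsChain LFold ∧ (∀ g ∈ gs, ∃ k : ℕ, 1 ≤ k ∧ g ∈ Brd k) ∧
        (Q gs ∧ (r0 ≤ 3 * hgt (gs.headD []) + 8 ∧ 3 * hgt (gs.headD []) ≤ r0 + 8) ∧
          (r1 ≤ 3 * hgt (gs.getLastD []) + 8 ∧ 3 * hgt (gs.getLastD []) ≤ r1 + 8))
      · rw [if_pos hg]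
        obtain ⟨g1, g2, g3, g4, g5, g6⟩ := hg
        have hPg : P gs := by
          rw [hP]
          exact ⟨g1, g2, g3, g4⟩
        have hi0 : I0 r0 gs = 1 := by
          rw [hI0]
          exact if_pos g5
        have hi1 : I1 r1 gs = 1 := by
          rw [hI1]
          exact if_pos g6
        rw [if_pos hPg, hi0, hi1, one_mul, one_mul, hw]
        exact cwL_mono (fun o => EoC_mono (hf0 g5.1) _ _) (fun o => EoC_mono (hf1 g6.1) _ _)
      · rw [if_neg hg]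
        exact zero_le
  have hsum0 : ∀ gs : List (List Bool), ∑' r, I0 r gs ≤ 17 := by
    intro gs
    have h := sum_near (hgt (gs.headD [])) (fun _ => 1) 1 (fun _ _ => le_rfl)
    rw [mul_one] at h
    rw [hI0]
    exact h
  have hsum1 : ∀ gs : List (List Bool), ∑' r, I1 r gs ≤ 17 := by
    intro gs
    have h := sum_near (hgt (gs.getLastD [])) (fun _ => 1) 1 (fun _ _ => le_rfl)
    rw [mul_one] at h
    rw [hI1]
    exact h
  -- the sum
  have hB1 : ∀ (c : Fin 16) (gs : List (List Bool)), (∑' (r0 : ℕ) (r1 : ℕ),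
      (if P gs then I0 r0 gs * I1 r1 gs * w c gs else 0)) ≤ 289 * (if P gs then w c gs else 0) := by
    intro c gs
    by_cases hg : P gs
    · simp only [if_pos hg]
      have e1 : (∑' (r0 : ℕ) (r1 : ℕ), I0 r0 gs * I1 r1 gs * w c gs) = (∑' r0, I0 r0 gs) * ((∑' r1, I1 r1 gs) * w c gs) := by
        rw [← ENNReal.tsum_mul_right]
        refine tsum_congr fun r0 => ?_
        rw [← ENNReal.tsum_mul_right, ← ENNReal.tsum_mul_left]
        exact tsum_congr fun r1 => mul_assoc _ _ _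
      rw [e1]
      have h289 : (289 : ℝ≥0∞) = 17 * 17 := by norm_num
      rw [h289, mul_assoc]
      exact mul_le_mul' (hsum0 gs) (mul_le_mul' (hsum1 gs) le_rfl)
    · simp only [if_neg hg, tsum_zero, mul_zero, le_refl]
  have h2 : ∀ c, (∑' (r0 : ℕ) (r1 : ℕ) (gs : List (List Bool)), (if P gs then I0 r0 gs * I1 r1 gs * w c gs else 0)) ≤
      289 * B := by
    intro c
    calc (∑' (r0 : ℕ) (r1 : ℕ) (gs : List (List Bool)), (if P gs then I0 r0 gs * I1 r1 gs * w c gs else 0)) =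
          ∑' (r0 : ℕ) (gs : List (List Bool)) (r1 : ℕ), (if P gs then I0 r0 gs * I1 r1 gs * w c gs else 0) :=
          tsum_congr fun r0 => ENNReal.tsum_comm
      _ = ∑' (gs : List (List Bool)) (r0 : ℕ) (r1 : ℕ), (if P gs then I0 r0 gs * I1 r1 gs * w c gs else 0) :=
          ENNReal.tsum_comm
      _ ≤ ∑' gs : List (List Bool), 289 * (if P gs then w c gs else 0) := ENNReal.tsum_le_tsum fun gs => hB1 c gs
      _ = 289 * ∑' gs : List (List Bool), (if P gs then w c gs else 0) := ENNReal.tsum_mul_left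
      _ ≤ _ := mul_le_mul' le_rfl (hBw c)
  refine (gf_mono hsub).trans ?_
  refine (ENNReal.tsum_iUnion_le_tsum (fun t => wE t) _).trans ?_
  refine (ENNReal.tsum_le_tsum fun r0 => (ENNReal.tsum_iUnion_le_tsum (fun t => wE t) _).trans
    (ENNReal.tsum_le_tsum fun r1 => hone r0 r1)).trans ?_
  simp only [ENNReal.tsum_mul_left]
  rw [ENNReal.ofReal_mul (by linarith), mul_assoc]
  refine mul_le_mul' le_rfl ?_
  have e3 : (∑' (r0 : ℕ) (r1 : ℕ), ∑ c : Fin 16, ∑' gs : List (List Bool),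
      (if P gs then I0 r0 gs * I1 r1 gs * w c gs else 0)) = ∑ c : Fin 16, ∑' (r0 : ℕ) (r1 : ℕ)
      (gs : List (List Bool)), (if P gs then I0 r0 gs * I1 r1 gs * w c gs else 0) := by
    rw [← Summable.tsum_finsetSum (fun _ _ => ENNReal.summable)]
    refine tsum_congr fun r0 => ?_
    rw [← Summable.tsum_finsetSum (fun _ _ => ENNReal.summable)]
  rw [e3]
  refine (Finset.sum_le_card_nsmul _ _ (289 * B) fun c _ => h2 c).trans ?_
  rw [nsmul_eq_mul, Finset.card_univ, Fintype.card_fin]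
  have h5 : ENNReal.ofReal (289 * 16) = 16 * 289 := by
    rw [show (289 * 16 : ℝ) = ((16 * 289 : ℕ) : ℝ) by norm_num, ENNReal.ofReal_natCast]
    norm_num
  rw [h5, mul_assoc]
  exact le_of_eq (by push_cast; ring)

end POL

end HexObs
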