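import Pool.Agent.POL.ArcA
import Pool.Agent.POL.Defs

/-!
POL, row L3, geometry: the word Zp ++ (X ++ (D ++ (Y ++ Zm))) is closed and self-avoiding (helper51).
-/

set_option autoImplicit false

namespace HexObs

namespace POL

open Finset TS JNT

lemma mneg (p : Pt) : mulE (-1, 0) p = -p := by
  unfold mulE
  ext <;> simp

/-- the walk with the first direction down is the walk turned by 180 degrees -/
lemma vx_neg (p : Pt) (t : List Bool) (j : ℕ) : vx p (-up) t j = p - vx oo up t j := by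
  have h := vx_mulE (-1, 0) oo p up t j
  rw [mneg, mneg] at h
  rw [h]
  have : (oo : Pt) = 0 := rfl
  rw [this]
  abel

lemma dx_neg (t : List Bool) (j : ℕ) : dx (-up) t j = -dx up t j := by
  have h := dx_mulE (-1, 0) up t j
  rwa [mneg, mneg] at h

/-- the second part after a first part that ends downwards -/
lemma vx_dn {s t : List Bool} (hs : dx up s s.length = -up) (j : ℕ) :
    vx oo up (s ++ t) (s.length + j) = vx oo up s s.length - vx oo up t j := by
  have h1 : vx oo up (s ++ t) (s.length + j) =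
      vx (vx oo up (s ++ t) s.length) (dx up (s ++ t) s.length) t j := by
    unfold vx dx
    rw [vs_shift]
    apply vs_congr
    intro k _
    exact tf_append_right k
  have e1 : vx oo up (s ++ t) s.length = vx oo up s s.length := vx_append (by omega)
  have e2 : dx up (s ++ t) s.length = -up := (dx_append le_rfl).trans hs
  rw [e1, e2, vx_neg] at h1
  exact h1

lemma dx_dn {s t : List Bool} (hs : dx up s s.length = -up) (j : ℕ) :
    dx up (s ++ t) (s.length + j) = -dx up t j := by
  have h1 : dx up (s ++ t) (s.length + j) = dx (dx up (s ++ t) s.length) t j := by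
    unfold dx
    rw [ds_shift]
    apply ds_congr
    intro k _
    exact tf_append_right k
  rw [h1, dx_append le_rfl, hs, dx_neg]

/-- the positions of the five parts -/
structure Pos5 (t Zp X D Y Zm : List Bool) : Prop where
  p1 : ∀ j, j ≤ Zp.length → vx oo up t j = vx oo up Zp j
  p2 : ∀ j, j ≤ X.length → vx oo up t (Zp.length + j) = en Zp + vx oo up X j
  p3 : ∀ j, j ≤ D.length → vx oo up t (Zp.length + (X.length + j)) = en Zp + (en X - vx oo up D j)
  p4 : ∀ j, j ≤ Y.length → vx oo up t (Zp.length + (X.length + (D.length + j))) = en Zp + (en X - (en D + vx oo up Y j))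
  p5 : ∀ j, j ≤ Zm.length → vx oo up t (Zp.length + (X.length + (D.length + (Y.length + j)))) =
    en Zp + (en X - (en D + (en Y - vx oo up Zm j)))
  d5 : dx up t t.length = up

theorem pos5 {Zp X D Y Zm : List Bool} (h1 : dx up Zp Zp.length = up) (h2 : dx up X X.length = -up)
    (h3 : dx up D D.length = up) (h4 : dx up Y Y.length = -up) (h5 : dx up Zm Zm.length = up) :
    Pos5 (Zp ++ (X ++ (D ++ (Y ++ Zm)))) Zp X D Y Zm where
  p1 j hj := vx_append (by omega)
  p2 j hj := by
    rw [vx_cat h1, vx_append (by omega)]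
    rfl
  p3 j hj := by
    rw [vx_cat h1, vx_dn h2, vx_append (by omega)]
    rfl
  p4 j hj := by
    rw [vx_cat h1, vx_dn h2, vx_cat h3, vx_append (by omega)]
    rfl
  p5 j hj := by
    rw [vx_cat h1, vx_dn h2, vx_cat h3, vx_dn h4]
    rfl
  d5 := by
    rw [List.length_append, List.length_append, List.length_append, List.length_append, dx_cat h1, dx_dn h2, dx_cat h3,
      dx_dn h4, neg_neg, h5]

lemma ip_add' (p q : Pt) : ip (p + q) up = ip p up + ip q up := by
  unfold ip up
  simp only [Prod.fst_add, Prod.snd_add]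
  ring

lemma ip_sub' (p q : Pt) : ip (p - q) up = ip p up - ip q up := by
  unfold ip up
  simp only [Prod.fst_sub, Prod.snd_sub]
  ring

/-- the lateral coordinate -/
def lt' (p : Pt) : ℤ := -(cross up p)

lemma lt_add (p q : Pt) : lt' (p + q) = lt' p + lt' q := by
  unfold lt' cross up
  simp only [Prod.fst_add, Prod.snd_add]
  ring

lemma lt_sub (p q : Pt) : lt' (p - q) = lt' p - lt' q := by
  unfold lt' cross up
  simp only [Prod.fst_sub, Prod.snd_sub]
  ring

lemma lt_vx (t : List Bool) (i : ℕ) : lt' (vx oo up t i) = lat t i := rfl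

lemma ip_vx (t : List Bool) (i : ℕ) : ip (vx oo up t i) up = lev t i := rfl

lemma m3 (t : List Bool) (i : ℕ) : lev t i % 3 = 0 ∨ lev t i % 3 = 2 := by
  have h := HexObs.lev_mod t i
  split_ifs at h <;> omega

/-- **the closed words** -/
theorem cy_of {S a c d : ℕ} {Zp X D Y Zm : List Bool} (hZp : Zp ∈ Brd a) (hX : X ∈ Ark S) (hD : D ∈ Brd d) (hY : Y ∈ Ark S)
    (hZm : Zm ∈ Brd c) (ha : 1 ≤ a) (hc : 1 ≤ c) (hcl : en Zp + en Zm = en D + en Y - en X) {v δ W : ℝ} (hv : 0 ≤ v)
    (hδ : 0 ≤ δ) (hW : 0 ≤ W) (t1 : ∀ i, i ≤ Zp.length → |(lat Zp i : ℝ)| ≤ v) (t3 : ∀ i, i ≤ D.length → |(lat D i : ℝ)| ≤ v)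
    (t5 : ∀ i, i ≤ Zm.length → |(lat Zm i : ℝ)| ≤ W) (hxy : |(latE X : ℝ) - latE Y| ≤ δ) (hx : 4 * v + δ + W < latE X) :
    Zp ++ (X ++ (D ++ (Y ++ Zm))) ∈ Cy (Zp ++ (X ++ (D ++ (Y ++ Zm)))).length := by
  obtain ⟨z1, z2, z3, z4⟩ := mem_Brd.1 hZp
  obtain ⟨x1, x2, x3, x4⟩ := hX
  obtain ⟨d1, d2, d3, d4⟩ := mem_Brd.1 hD
  obtain ⟨y1, y2, y3, y4⟩ := hY
  obtain ⟨w1, w2, w3, w4⟩ := mem_Brd.1 hZm
  obtain ⟨t, ht⟩ : ∃ t, t = Zp ++ (X ++ (D ++ (Y ++ Zm))) := ⟨_, rfl⟩
  have hP := pos5 z3 x4 d3 y4 w3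
  rw [← ht] at hP ⊢
  have hlen : t.length = Zp.length + (X.length + (D.length + (Y.length + Zm.length))) := by
    rw [ht, List.length_append, List.length_append, List.length_append, List.length_append]
  -- the levels of the ends
  have e1 : ip (en Zp) up = 3 * a := z4
  have e2 : ip (en X) up = 2 := x3
  have e3 : ip (en D) up = 3 * d := d4
  have e4 : ip (en Y) up = 2 := y3
  have e5 : ip (en Zm) up = 3 * c := w4
  have hdac : (d : ℤ) = a + c := by
    have h := congrArg (fun p => ip p up) hcl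
    simp only [ip_add', ip_sub'] at h
    rw [e1, e2, e3, e4, e5] at h
    omega
  have hend : vx oo up t t.length = oo := by
    rw [hlen, hP.p5 _ le_rfl]
    have h : en Zp + (en X - (en D + (en Y - en Zm))) = (en Zp + en Zm) - (en D + en Y - en X) := by abel
    show en Zp + (en X - (en D + (en Y - en Zm))) = oo
    rw [h, hcl, sub_self]
    rfl
  -- lateral ends
  have b1 := t1 Zp.length le_rfl
  have b3 := t3 D.length le_rfl
  have f1 : lt' (en Zp) = latE Zp := rfl
  have f2 : lt' (en X) = latE X := rfl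
  have f3 : lt' (en D) = latE D := rfl
  have f4 : lt' (en Y) = latE Y := rfl
  rw [abs_le] at b1 b3 hxy
  -- the coordinates of the parts
  obtain ⟨LV, hLV⟩ : ∃ LV : ℕ → ℤ, LV = fun i => ip (vx oo up t i) up := ⟨_, rfl⟩
  obtain ⟨LT, hLT⟩ : ∃ LT : ℕ → ℤ, LT = fun i => lt' (vx oo up t i) := ⟨_, rfl⟩
  have q1 : ∀ j, 1 ≤ j → j ≤ Zp.length → 0 < LV j ∧ LV j ≤ 3 * a ∧ (LT j : ℝ) ≤ v := by
    intro j hj1 hj2
    have h1 := z1 j hj1 hj2
    have h2 := t1 j hj2
    rw [hLV, hLT]
    simp only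
    rw [hP.p1 j hj2, ip_vx, lt_vx]
    exact ⟨h1.1, h1.2, (abs_le.1 h2).2⟩
  have q2 : ∀ j, 1 ≤ j → j ≤ X.length → 3 * (a : ℤ) < LV (Zp.length + j) := by
    intro j hj1 hj2
    have h1 := x1 j hj1 hj2
    rw [hLV]
    simp only
    rw [hP.p2 j hj2, ip_add', e1, ip_vx]
    omega
  have q3 : ∀ j, 1 ≤ j → j ≤ D.length → 3 * (a : ℤ) - 3 * d + 2 ≤ LV (Zp.length + (X.length + j)) ∧
      LV (Zp.length + (X.length + j)) ≤ 3 * a ∧ (latE X : ℝ) - 2 * v ≤ LT (Zp.length + (X.length + j)) := by
    intro j hj1 hj2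
    have h1 := d1 j hj1 hj2
    have h3 := m3 D j
    have h2 := t3 j hj2
    rw [hLV, hLT]
    simp only
    rw [hP.p3 j hj2, ip_add', ip_sub', e1, e2, ip_vx, lt_add, lt_sub, f1, f2, lt_vx]
    refine ⟨by omega, by omega, ?_⟩
    rw [abs_le] at h2
    push_cast
    unfold latE
    linarith
  have q4 : ∀ j, 1 ≤ j → j ≤ Y.length → LV (Zp.length + (X.length + (D.length + j))) ≤ 3 * (a : ℤ) - 3 * d := by
    intro j hj1 hj2
    have h1 := y1 j hj1 hj2
    have h3 := m3 Y j
    rw [hLV]
    simp only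
    rw [hP.p4 j hj2, ip_add', ip_sub', ip_add', e1, e2, e3, ip_vx]
    omega
  have q5 : ∀ j, 1 ≤ j → j ≤ Zm.length → 3 * (a : ℤ) - 3 * d < LV (Zp.length + (X.length + (D.length + (Y.length + j)))) ∧
      LV (Zp.length + (X.length + (D.length + (Y.length + j)))) ≤ 0 ∧
      (LT (Zp.length + (X.length + (D.length + (Y.length + j)))) : ℝ) ≤ 2 * v + δ + W := by
    intro j hj1 hj2
    have h1 := w1 j hj1 hj2
    have h2 := t5 j hj2
    rw [hLV, hLT]
    simp only
    rw [hP.p5 j hj2, ip_add', ip_sub', ip_add', ip_sub', e1, e2, e3, e4, ip_vx, lt_add, lt_sub, lt_add, lt_sub, f1, f2, f3,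
      f4, lt_vx]
    refine ⟨by omega, by omega, ?_⟩
    rw [abs_le] at h2
    push_cast
    unfold latE at hxy ⊢
    linarith
  -- injectivity on 1 .. N
  have inj : ∀ i j, 1 ≤ i → i < j → j ≤ t.length → vx oo up t i ≠ vx oo up t j := by
    intro i j hi hij hj heq
    have hv1 : LV i = LV j := by rw [hLV]; simp only; rw [heq]
    have hv2 : LT i = LT j := by rw [hLT]; simp only; rw [heq]
    have hv3 : (LT i : ℝ) = LT j := by rw [hv2]
    have cls : ∀ n, 1 ≤ n → n ≤ t.length → (n ≤ Zp.length) ∨ (∃ l, 1 ≤ l ∧ l ≤ X.length ∧ n = Zp.length + l) ∨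
        (∃ l, 1 ≤ l ∧ l ≤ D.length ∧ n = Zp.length + (X.length + l)) ∨
        (∃ l, 1 ≤ l ∧ l ≤ Y.length ∧ n = Zp.length + (X.length + (D.length + l))) ∨
        ∃ l, 1 ≤ l ∧ l ≤ Zm.length ∧ n = Zp.length + (X.length + (D.length + (Y.length + l))) := by
      intro n h1 h2
      rw [hlen] at h2
      by_cases c1 : n ≤ Zp.length
      · exact Or.inl c1
      by_cases c2 : n ≤ Zp.length + X.length
      · exact Or.inr (Or.inl ⟨n - Zp.length, by omega, by omega, by omega⟩)
      by_cases c3 : n ≤ Zp.length + X.length + D.length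
      · exact Or.inr (Or.inr (Or.inl ⟨n - Zp.length - X.length, by omega, by omega, by omega⟩))
      by_cases c4 : n ≤ Zp.length + X.length + D.length + Y.length
      · exact Or.inr (Or.inr (Or.inr (Or.inl ⟨n - Zp.length - X.length - D.length, by omega, by omega, by omega⟩)))
      · exact Or.inr (Or.inr (Or.inr (Or.inr ⟨n - Zp.length - X.length - D.length - Y.length, by omega, by omega,
          by omega⟩)))
    rcases cls i hi (by omega) with i1 | ⟨l, l1, l2, rfl⟩ | ⟨l, l1, l2, rfl⟩ | ⟨l, l1, l2, rfl⟩ | ⟨l, l1, l2, rfl⟩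
    · have A := q1 i hi i1
      rcases cls j (by omega) hj with j1 | ⟨l', k1, k2, rfl⟩ | ⟨l', k1, k2, rfl⟩ | ⟨l', k1, k2, rfl⟩ | ⟨l', k1, k2, rfl⟩
      · rw [hP.p1 i i1, hP.p1 j j1] at heq
        exact z2 i j hij j1 heq
      · have B := q2 l' k1 k2
        omega
      · have B := q3 l' k1 k2
        rw [hv3] at A
        linarith [A.2.2, B.2.2]
      · have B := q4 l' k1 k2
        omega
      · have B := q5 l' k1 k2
        omega
    · have A := q2 l l1 l2
      rcases cls j (by omega) hj with j1 | ⟨l', k1, k2, rfl⟩ | ⟨l', k1, k2, rfl⟩ | ⟨l', k1, k2, rfl⟩ | ⟨l', k1, k2, rfl⟩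
      · omega
      · rw [hP.p2 l l2, hP.p2 l' k2] at heq
        exact x2 l l' (by omega) k2 (add_left_cancel heq)
      · have B := q3 l' k1 k2
        omega
      · have B := q4 l' k1 k2
        omega
      · have B := q5 l' k1 k2
        omega
    · have A := q3 l l1 l2
      rcases cls j (by omega) hj with j1 | ⟨l', k1, k2, rfl⟩ | ⟨l', k1, k2, rfl⟩ | ⟨l', k1, k2, rfl⟩ | ⟨l', k1, k2, rfl⟩
      · omega
      · omega
      · rw [hP.p3 l l2, hP.p3 l' k2] at heq
        exact d2 l l' (by omega) k2 (sub_right_injective (add_left_cancel heq))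
      · have B := q4 l' k1 k2
        omega
      · have B := q5 l' k1 k2
        rw [hv3] at A
        linarith [A.2.2, B.2.2]
    · have A := q4 l l1 l2
      rcases cls j (by omega) hj with j1 | ⟨l', k1, k2, rfl⟩ | ⟨l', k1, k2, rfl⟩ | ⟨l', k1, k2, rfl⟩ | ⟨l', k1, k2, rfl⟩
      · omega
      · omega
      · omega
      · rw [hP.p4 l l2, hP.p4 l' k2] at heq
        exact y2 l l' (by omega) k2 (add_left_cancel (sub_right_injective (add_left_cancel heq)))
      · have B := q5 l' k1 k2
        omega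
    · have A := q5 l l1 l2
      rcases cls j (by omega) hj with j1 | ⟨l', k1, k2, rfl⟩ | ⟨l', k1, k2, rfl⟩ | ⟨l', k1, k2, rfl⟩ | ⟨l', k1, k2, rfl⟩
      · omega
      · omega
      · omega
      · omega
      · rw [hP.p5 l l2, hP.p5 l' k2] at heq
        exact w2 l l' (by omega) k2 (sub_right_injective (add_left_cancel (sub_right_injective (add_left_cancel heq))))
  have h0 : vx oo up t 0 = vx oo up t t.length := by
    rw [hend]
    rfl
  have hpos : 1 ≤ t.length := by
    rcases Nat.eq_zero_or_pos t.length with h | h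
    · have : Zp.length = 0 := by omega
      rw [this, lev_zero] at z4
      omega
    · exact h
  refine ⟨rfl, hend, hP.d5, fun i j hi hj heq => ?_⟩
  have key : ∀ i j, i < j → j < t.length → vx oo up t i = vx oo up t j → False := by
    intro i j hij hj heq
    rcases Nat.eq_zero_or_pos i with h | h
    · rw [h, h0] at heq
      exact inj j t.length (by omega) hj le_rfl heq.symm
    · exact inj i j h hij hj.le heq
  rcases lt_trichotomy i j with h | h | h
  · exact (key i j h hj heq).elim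
  · exact h
  · exact (key j i h hi heq.symm).elim

end POL

end HexObs
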