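import Pool.Agent.POL.Bot
import Pool.Agent.POL.Coarse

/-!
POL, row U4c: the cyclic chain of the folds of a closed word.
-/

set_option autoImplicit false

namespace HexObs

namespace POL

open Finset TS SDN NTW

/-- a chain of folds without end, from the number 1 on -/
structure CC (F : ℕ → ℤ) (b v : ℕ) (E : ℕ → ℕ) : Prop where
  lt : ∀ j, 1 ≤ j → E j < E (j + 1)
  lo : ∀ j, 1 ≤ j → ∀ i, E j < i → i ≤ E (j + 1) → Tight.sg (v + j) (F (E j)) < Tight.sg (v + j) (F i)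
  hi : ∀ j, 1 ≤ j → ∀ i, E j ≤ i → i ≤ E (j + 1) → Tight.sg (v + j) (F i) ≤ Tight.sg (v + j) (F (E (j + 1)))
  big : ∀ j, 1 ≤ j → RR b ≤ Tight.sg (v + j) (F (E (j + 1))) - Tight.sg (v + j) (F (E j))
  small : ∀ j, 1 ≤ j → ∀ i i', E j ≤ i → i ≤ i' → i' ≤ E (j + 1) → Tight.sg (v + j) (F i) - Tight.sg (v + j) (F i') < RR b

/-- the folds of the periodic continuation -/
def cyE (N m : ℕ) (e : ℕ → ℕ) (j : ℕ) : ℕ := N * ((j - 1) / m) + e ((j - 1) % m + 1)

lemma cyE_eq {N m q r : ℕ} {e : ℕ → ℕ} (hr : r < m) : cyE N m e (m * q + r + 1) = N * q + e (r + 1) := by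
  unfold cyE
  rw [Nat.add_sub_cancel, Nat.mul_add_mod, Nat.mod_eq_of_lt hr, Nat.mul_add_div (by omega), Nat.div_eq_of_lt hr, Nat.add_zero]

lemma cyE_small {N m j : ℕ} {e : ℕ → ℕ} (h1 : 1 ≤ j) (h2 : j ≤ m) : cyE N m e j = e j := by
  obtain ⟨r, rfl⟩ : ∃ r, j = r + 1 := ⟨j - 1, by omega⟩
  have := cyE_eq (N := N) (m := m) (q := 0) (r := r) (e := e) (by omega)
  simpa using this

lemma cyE_dec {m j : ℕ} (hm : 1 ≤ m) (hj : 1 ≤ j) : ∃ q r, r < m ∧ j = m * q + r + 1 := by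
  refine ⟨(j - 1) / m, (j - 1) % m, Nat.mod_lt _ hm, ?_⟩
  have := Nat.div_add_mod (j - 1) m
  omega

lemma cyE_per {N m j : ℕ} {e : ℕ → ℕ} (hm : 1 ≤ m) (hj : 1 ≤ j) : cyE N m e (j + m) = cyE N m e j + N := by
  obtain ⟨q, r, hr, rfl⟩ := cyE_dec hm hj
  rw [show m * q + r + 1 + m = m * (q + 1) + r + 1 by ring, cyE_eq hr, cyE_eq hr]
  ring

/-- the level function of a closed word -/
def lvF (s : List Bool) (i : ℕ) : ℤ := ip (pv s i) up

lemma lvF_eq {w : List Bool} {c : Bool} {i : ℕ} (hi : i ≤ w.length) : lvF (w ++ [c]) i = lev w i := by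
  unfold lvF
  rw [pv_eq (by rw [List.length_append, List.length_singleton]; omega), vx_append (by omega)]
  rfl

lemma lvF_mul {N : ℕ} {s : List Bool} (hs : s ∈ Cy N) (q i : ℕ) : lvF s (N * q + i) = lvF s i := by
  unfold lvF
  rw [← hs.1, pv_mul (Cy.clo hs)]

/-- **the cyclic chain of a closed word seen from the bottom** -/
theorem cc_bot {w : List Bool} {c : Bool} {N τ b m u : ℕ} {H : ℤ} {e : ℕ → ℕ} (hs : w ++ [c] ∈ Cy N)
    (hB : BotW w H τ) (h : Fd b w m u e) (hu : u % 2 = 1) (h0 : e 0 = 0) (hem : e m = w.length) :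
    m % 2 = 0 ∧ CC (lvF (w ++ [c])) b u (cyE N m e) := by
  have hN : w.length + 1 = N := by
    have := hs.1
    rw [List.length_append, List.length_singleton] at this
    exact this
  have hm := h.1
  have hG := h.2.1
  have hR1 := RR_pos b
  have hsg1 : ∀ k, k % 2 = 1 → ∀ x : ℤ, Tight.sg k x = x := fun k hk x =>
    Tight.sg_odd (by rw [Nat.even_iff]; omega) x
  -- the number of the leaves is even
  have hmev : m % 2 = 0 := by
    by_contra hc
    have h1 := h.2.2.1 (m - 1) (by omega)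
    rw [hsg1 _ (by omega), hsg1 _ (by omega), show m - 1 + 1 = m by omega, hem, hB.last] at h1
    have h2 := hB.lo (e (m - 1)) (by
      have := fd_mono h (i := m - 1) (j := m) (by omega) le_rfl
      omega)
    omega
  refine ⟨hmev, ?_⟩
  obtain ⟨F, hF⟩ : ∃ F, F = lvF (w ++ [c]) := ⟨_, rfl⟩
  rw [← hF]
  have hFl : ∀ q i, i ≤ w.length → F (N * q + i) = lev w i := by
    intro q i hi
    rw [hF, lvF_mul hs, lvF_eq hi]
  have hsg : ∀ (q r : ℕ) (x : ℤ), Tight.sg (u + (m * q + r + 1)) x = Tight.sg (u + (r + 1)) x := by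
    intro q r x
    refine sg_par ?_ x
    rw [Nat.even_iff, Nat.even_iff]
    have : (m * q) % 2 = 0 := by rw [Nat.mul_mod, hmev, Nat.zero_mul]
    omega
  have hle : ∀ j, j ≤ m → e j ≤ w.length := by
    intro j hj
    have := fd_mono h hj le_rfl
    omega
  -- a leaf of w or the leaf through the bottom
  have hcase : ∀ j, 1 ≤ j → ∃ q r, r < m ∧ j = m * q + r + 1 ∧ cyE N m e j = N * q + e (r + 1) ∧
      ((r + 1 < m ∧ cyE N m e (j + 1) = N * q + e (r + 1 + 1)) ∨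
        (r + 1 = m ∧ cyE N m e j + 1 = N * (q + 1) ∧ cyE N m e (j + 1) = N * (q + 1) + e 1)) := by
    intro j hj
    obtain ⟨q, r, hr, rfl⟩ := cyE_dec hm hj
    refine ⟨q, r, hr, rfl, cyE_eq hr, ?_⟩
    rcases Nat.lt_or_ge (r + 1) m with h1 | h1
    · left
      refine ⟨h1, ?_⟩
      rw [show m * q + r + 1 + 1 = m * q + (r + 1) + 1 by ring, cyE_eq h1]
    · right
      have h2 : r + 1 = m := by omega
      refine ⟨h2, ?_, ?_⟩
      · rw [cyE_eq hr, h2, hem, ← hN]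
        ring
      · have h3 : m * q + r + 1 + 1 = m * (q + 1) + 0 + 1 := by
          rw [Nat.mul_add]
          omega
        rw [h3]
        exact cyE_eq (q := q + 1) (r := 0) (by omega)
  have he1 := hG.lt 0 (by omega)
  rw [h0, Nat.zero_add] at he1
  have hbot : ∀ i, i ≤ e 1 → 0 ≤ lev w i ∧ lev w i ≤ lev w (e 1) := by
    intro i hi
    have h1 := hG.lo0 i (by omega) hi
    have h2 := hG.hi 0 (by omega) i (by omega) hi
    rw [h0, hsg1 _ hu, hsg1 _ hu, lev_zero] at h1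
    rw [Nat.add_zero, Nat.zero_add, hsg1 _ hu, hsg1 _ hu] at h2
    exact ⟨h1, h2⟩
  have hbig0 := h.2.2.1 0 (by omega)
  rw [Nat.add_zero, Nat.zero_add, hsg1 _ hu, hsg1 _ hu, h0, lev_zero] at hbig0
  have hsm0 : ∀ i i', e 0 ≤ i → i ≤ i' → i' ≤ e 1 → Tight.sg (u + 0) (lev w i) - Tight.sg (u + 0) (lev w i') < RR b :=
    h.2.2.2.1 0 (by omega)
  refine ⟨?_, ?_, ?_, ?_, ?_⟩
  · intro j hj
    obtain ⟨q, r, hr, rfl, h1, ⟨h2, h3⟩ | ⟨h2, h3, h4⟩⟩ := hcase j hj
    · rw [h1, h3]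
      have := hG.lt (r + 1) h2
      omega
    · omega
  · intro j hj i i1 i2
    obtain ⟨q, r, hr, rfl, h1, ⟨h2, h3⟩ | ⟨h2, h3, h4⟩⟩ := hcase j hj
    · rw [h1] at i1 ⊢
      rw [h3] at i2
      obtain ⟨x, rfl⟩ : ∃ x, i = N * q + x := ⟨i - N * q, by omega⟩
      have h4 := hle (r + 1 + 1) (by omega)
      rw [hFl _ _ (hle _ (by omega)), hFl _ _ (by omega), hsg, hsg]
      exact hG.lo (r + 1) (by omega) h2 x (by omega) (by omega)
    · obtain ⟨x, rfl⟩ : ∃ x, i = N * (q + 1) + x := ⟨i - N * (q + 1), by omega⟩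
      have h5 := hle 1 (by omega)
      rw [h1, hFl _ _ (hle _ (by omega)), hFl _ _ (by omega), hsg, hsg, hsg1 _ (by omega), hsg1 _ (by omega), h2, hem,
        hB.last]
      have := (hbot x (by omega)).1
      omega
  · intro j hj i i1 i2
    obtain ⟨q, r, hr, rfl, h1, ⟨h2, h3⟩ | ⟨h2, h3, h4⟩⟩ := hcase j hj
    · rw [h1] at i1
      rw [h3] at i2 ⊢
      obtain ⟨x, rfl⟩ : ∃ x, i = N * q + x := ⟨i - N * q, by omega⟩
      have h4 := hle (r + 1 + 1) (by omega)
      rw [hFl _ _ (by omega), hFl _ _ h4, hsg, hsg]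
      exact hG.hi (r + 1) h2 x (by omega) (by omega)
    · have h5 := hle 1 (by omega)
      rw [h4, hFl _ _ (by omega), hsg, hsg, hsg1 _ (by omega), hsg1 _ (by omega)]
      rcases Nat.lt_or_ge i (N * (q + 1)) with h6 | h6
      · have h7 : i = N * q + e (r + 1) := by omega
        rw [h7, hFl _ _ (hle _ (by omega)), h2, hem, hB.last]
        omega
      · obtain ⟨x, rfl⟩ : ∃ x, i = N * (q + 1) + x := ⟨i - N * (q + 1), by omega⟩
        rw [hFl _ _ (by omega)]
        exact (hbot x (by omega)).2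
  · intro j hj
    obtain ⟨q, r, hr, rfl, h1, ⟨h2, h3⟩ | ⟨h2, h3, h4⟩⟩ := hcase j hj
    · have h4 := hle (r + 1 + 1) (by omega)
      rw [h1, h3, hFl _ _ h4, hFl _ _ (hle _ (by omega)), hsg, hsg]
      exact h.2.2.1 (r + 1) h2
    · have h5 := hle 1 (by omega)
      rw [h1, h4, hFl _ _ (by omega), hFl _ _ (hle _ (by omega)), hsg, hsg, hsg1 _ (by omega), hsg1 _ (by omega), h2, hem,
        hB.last]
      omega
  · intro j hj i i' i1 i2 i3
    obtain ⟨q, r, hr, rfl, h1, ⟨h2, h3⟩ | ⟨h2, h3, h4⟩⟩ := hcase j hj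
    · rw [h1] at i1
      rw [h3] at i3
      obtain ⟨x, rfl⟩ : ∃ x, i = N * q + x := ⟨i - N * q, by omega⟩
      obtain ⟨x', rfl⟩ : ∃ x, i' = N * q + x := ⟨i' - N * q, by omega⟩
      have h4 := hle (r + 1 + 1) (by omega)
      rw [hFl _ _ (by omega), hFl _ _ (by omega), hsg, hsg]
      exact h.2.2.2.1 (r + 1) h2 x x' (by omega) (by omega) (by omega)
    · have h5 := hle 1 (by omega)
      rw [hsg, hsg, hsg1 _ (by omega), hsg1 _ (by omega)]
      rcases Nat.lt_or_ge i (N * (q + 1)) with h6 | h6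
      · have h7 : i = N * q + e (r + 1) := by omega
        rw [h7, hFl _ _ (hle _ (by omega)), h2, hem, hB.last]
        rcases Nat.lt_or_ge i' (N * (q + 1)) with h8 | h8
        · have h9 : i' = N * q + e (r + 1) := by omega
          rw [h9, hFl _ _ (hle _ (by omega)), h2, hem, hB.last]
          omega
        · obtain ⟨x, rfl⟩ : ∃ x, i' = N * (q + 1) + x := ⟨i' - N * (q + 1), by omega⟩
          rw [hFl _ _ (by omega)]
          have := (hbot x (by omega)).1
          omega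
      · obtain ⟨x, rfl⟩ : ∃ x, i = N * (q + 1) + x := ⟨i - N * (q + 1), by omega⟩
        obtain ⟨x', rfl⟩ : ∃ x, i' = N * (q + 1) + x := ⟨i' - N * (q + 1), by omega⟩
        rw [hFl _ _ (by omega), hFl _ _ (by omega)]
        have := hsm0 x x' (by omega) (by omega) (by omega)
        rw [hsg1 _ (by omega), hsg1 _ (by omega)] at this
        exact this

end POL

end HexObs
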