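import Pool.Agent.POL.CoverC
import Pool.Agent.JNT.EndL
import Pool.Agent.JNT.ChainF
import Pool.Agent.SIM.MidM
import Pool.Agent.POL.BothC

/-!
POL (polygons): the functional of the closed ends, its norm.
-/

set_option autoImplicit false

namespace HexObs

namespace POL

open Finset TS SDN SDN.CN NTm NTW NTA EN JNT SIM

open scoped ENNReal

open Classical in
/-- the closed free end o at words in relation to t -/
noncomputable def PoC (D N lam : ℕ) (ρ : ℤ) (o : Option (List Bool)) (t : List Bool) : ℝ≥0∞ :=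
  if ∀ W ∈ o, W ++ [true] ∈ NSt N ∧ ClE ρ (W ++ [true]) ∧ RT D LFold t (W ++ [true]) ∧ W.length ≤ lam then wO o else 0

lemma PoC_le {D N lam : ℕ} {ρ : ℤ} {o : Option (List Bool)} {s t : List Bool}
    (h : ∀ W ∈ o, RT D LFold s (W ++ [true]) → RT D LFold t (W ++ [true])) :
    PoC D N lam ρ o s ≤ PoC D N lam ρ o t := by
  unfold PoC
  by_cases h1 : ∀ W ∈ o, W ++ [true] ∈ NSt N ∧ ClE ρ (W ++ [true]) ∧ RT D LFold s (W ++ [true]) ∧ W.length ≤ lam
  · rw [if_pos h1, if_pos fun W hW => ⟨(h1 W hW).1, (h1 W hW).2.1, h W hW (h1 W hW).2.2.1, (h1 W hW).2.2.2⟩]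
  · rw [if_neg h1]
    exact zero_le

theorem flp_PoC {D : ℕ} (hD : 1 ≤ D) (N lam : ℕ) (ρ : ℤ) (o : Option (List Bool)) : Flp D (PoC D N lam ρ o) := by
  intro s t b hc _
  refine PoC_le fun W _ h2 => ?_
  obtain ⟨Z, h1, h2, h4⟩ := h2
  rw [← List.append_assoc] at h4
  exact RT_of hc (LFold_flip hc hD h4)

theorem her_PoC {D : ℕ} (hD : 1 ≤ D) (N lam : ℕ) (ρ : ℤ) (o : Option (List Bool)) : HerD D (PoC D N lam ρ o) := by
  refine ⟨fun s hs t => PoC_le fun W _ h2 => RT_her hs h2, fun s t ht _ => PoC_le fun W _ h2 => ?_⟩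
  obtain ⟨Z, h1, h2, h4⟩ := h2
  rw [← List.append_assoc] at h2 h4
  exact RT_of ht (LFold_suf ht h2 hD h4)

lemma EoC_le {D N N' lam : ℕ} {ρ ρ' : ℤ} {g : List Bool} (hg : g ∈ HB D) (hN : N ≤ N') (hρ : ρ' ≤ ρ)
    (o : Option (List Bool)) : EoC N lam ρ o g ≤ PoC D N' lam ρ' o g := by
  unfold EoC PoC
  by_cases h1 : ∀ W ∈ o, EnG N g W ∧ (∀ x, ClE ρ (W ++ [x])) ∧ W.length ≤ lam
  · rw [if_pos h1, if_pos fun W hW => ⟨NSt_mo hN ((h1 W hW).1 true).1, ((h1 W hW).2.1 true).mono hρ,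
      RT_of hg ((h1 W hW).1 true).2, (h1 W hW).2.2⟩]
  · rw [if_neg h1]
    exact zero_le

/-- the closed words in relation to t -/
def ClW (D N lam : ℕ) (ρ : ℤ) (t : List Bool) : Set (List Bool) :=
  {S | S ∈ NSt N ∧ ClE ρ S ∧ RT D LFold t S ∧ S.length ≤ lam + 1}

lemma tot_PoC (D N lam : ℕ) (ρ : ℤ) (t : List Bool) :
    ∑' o, PoC D N lam ρ o t ≤ 1 + ENNReal.ofReal xc⁻¹ * gf (ClW D N lam ρ t) := by
  classical
  have hx := xc_pos
  rw [tsum_option]
  have h0 : PoC D N lam ρ none t = 1 := by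
    unfold PoC
    rw [if_pos]
    · rfl
    · intro W hW
      simp at hW
  rw [h0]
  refine add_le_add le_rfl ?_
  have hinj : Function.Injective (fun W : List Bool => W ++ [true]) := fun a b h => by simpa using h
  have h1 : ∑' W : List Bool, ENNReal.ofReal xc⁻¹ * (if W ++ [true] ∈ ClW D N lam ρ t then wE (W ++ [true]) else 0) ≤
      ENNReal.ofReal xc⁻¹ * gf (ClW D N lam ρ t) := by
    rw [ENNReal.tsum_mul_left, ← Rec8.sw_one, Rec8.sw_ind]
    refine mul_le_mul_right ?_ _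
    refine le_trans (le_of_eq ?_) (ENNReal.tsum_comp_le_tsum_of_injective hinj _)
    refine tsum_congr fun W => ?_
    by_cases h : W ++ [true] ∈ ClW D N lam ρ t
    · rw [if_pos h, if_pos h, mul_one]
    · rw [if_neg h, if_neg h]
  refine le_trans (ENNReal.tsum_le_tsum fun W => ?_) h1
  unfold PoC
  by_cases h : ∀ W' ∈ some W, W' ++ [true] ∈ NSt N ∧ ClE ρ (W' ++ [true]) ∧ RT D LFold t (W' ++ [true]) ∧ W'.length ≤ lam
  · obtain ⟨a1, a2, a3, a4⟩ := h W rfl
    rw [if_pos h, if_pos ⟨a1, a2, a3, by simpa using a4⟩, wE_append]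
    show wE W ≤ _
    have e1 : wE [true] = ENNReal.ofReal xc := by
      unfold wE
      simp
    rw [e1, mul_comm (wE W), ← mul_assoc, ← ENNReal.ofReal_mul (by positivity), inv_mul_cancel₀ hx.ne', ENNReal.ofReal_one,
      one_mul]
  · rw [if_neg h]
    exact zero_le

end POL

end HexObs
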