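import Pool.Agent.POL.EndT

/-!
POL (polygons): the norm of the closed ends.
-/

set_option autoImplicit false

namespace HexObs

namespace POL

open Finset TS SDN SDN.CN NTm NTW NTA EN JNT SIM

open scoped ENNReal

/-- the numbers -/
lemma end_num {A Q K : ℝ} {V J : ℕ} (hA : 1 ≤ A) (hQ : 1 ≤ Q) (hK : 1 ≤ K) (hJ : 6 ≤ J) :
    2 + A * (2 ^ J * (Q ^ (V * (J + 2) + (J + 2) + 1) * (2 + K * 2 ^ J * 2))) ≤
      (3 * A * 2 * Q ^ (3 * V + 4) * (8 * K)) ^ J := by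
  have hA0 : 0 ≤ A := by linarith
  have hQ0 : 0 ≤ Q := by linarith
  have hK0 : 0 ≤ K := by linarith
  have h1 := mid_num (V := V) hA hQ hK hJ
  have a1 : 1 ≤ 2 ^ J * (A * (Q ^ (V * (J + 2) + (J + 2) + 1) * (2 + K * 2 ^ J * 2))) := by
    have b1 : (1 : ℝ) ≤ 2 ^ J := one_le_pow₀ (by norm_num)
    have b2 : 1 ≤ Q ^ (V * (J + 2) + (J + 2) + 1) := one_le_pow₀ hQ
    have b3 : 1 ≤ 2 + K * 2 ^ J * 2 := by
      have : 0 ≤ K * 2 ^ J * 2 := by positivity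
      linarith
    exact one_le_mul_of_one_le_of_one_le b1 (one_le_mul_of_one_le_of_one_le hA
      (one_le_mul_of_one_le_of_one_le b2 b3))
  have a2 : (3 : ℝ) ≤ 3 ^ J := by
    calc (3 : ℝ) = 3 ^ 1 := (pow_one _).symm
      _ ≤ _ := pow_le_pow_right₀ (by norm_num) (by omega)
  calc 2 + A * (2 ^ J * (Q ^ (V * (J + 2) + (J + 2) + 1) * (2 + K * 2 ^ J * 2)))
      = 2 + 2 ^ J * (A * (Q ^ (V * (J + 2) + (J + 2) + 1) * (2 + K * 2 ^ J * 2))) := by ring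
    _ ≤ 3 * (2 ^ J * (A * (Q ^ (V * (J + 2) + (J + 2) + 1) * (2 + K * 2 ^ J * 2)))) := by linarith
    _ ≤ 3 ^ J * (2 ^ J * (A * Q ^ (3 * V + 4) * (8 * K)) ^ J) := by gcongr
    _ = (3 * A * 2 * Q ^ (3 * V + 4) * (8 * K)) ^ J := by
        rw [← mul_pow, ← mul_pow]
        congr 1
        ring

/-- **the functional of the closed ends of the scale b + 5, sizes up to 2^(b + J + 1)** -/
theorem tot_cl : ∃ (C : ℝ) (k0 : ℕ), 1 ≤ C ∧ ∀ b J k lam : ℕ, k0 ≤ b → 6 ≤ J → b ≤ k → k + 5 ≤ b + J →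
    DmJ k (ENNReal.ofReal (C ^ J)) (fun t => ∑' o, PoC (2 ^ (k + 4)) (2 ^ (k + 6)) lam (RR (b + 5)) o t) := by
  obtain ⟨V, k0, hV, hwin⟩ := win_family
  obtain ⟨Q, hQ, hfun⟩ := uni_norm
  obtain ⟨K3, hK3, hX⟩ := domJ_xT
  obtain ⟨Kc, hKc, hcl⟩ := clw_chain
  obtain ⟨K, hK, hbox⟩ := smD_box
  have hx := xc_pos
  have hx1 : 1 ≤ xc⁻¹ := (one_le_inv₀ hx).2 xc_bounds.2
  obtain ⟨A, hA⟩ : ∃ A, A = xc⁻¹ * (Kc * (K3 * (K * 2))) := ⟨_, rfl⟩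
  have hA1 : 1 ≤ A := by
    have a1 : 1 ≤ K * 2 := by linarith
    rw [hA]
    exact one_le_mul_of_one_le_of_one_le hx1 (one_le_mul_of_one_le_of_one_le hKc (one_le_mul_of_one_le_of_one_le hK3 a1))
  refine ⟨3 * A * 2 * Q ^ (3 * V + 4) * (8 * K), max k0 1, ?_, ?_⟩
  · have a1 : 1 ≤ Q ^ (3 * V + 4) := one_le_pow₀ hQ
    have a2 : 1 ≤ 3 * A * 2 := by linarith
    exact one_le_mul_of_one_le_of_one_le (one_le_mul_of_one_le_of_one_le a2 a1) (by linarith)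
  intro b J k lam hkb hJ hbk hkJ
  have hk0 : k0 ≤ b := (le_max_left _ _).trans hkb
  obtain ⟨W, kp, idx, hW, hidx, hmem⟩ := hwin b (J + 2) hk0 (by omega)
  obtain ⟨n, hn⟩ : ∃ n, n = V * (J + 2) := ⟨_, rfl⟩
  rw [← hn] at hW hmem
  have hn1 : 0 < n := by
    rw [hn]
    exact Nat.mul_pos hV (by omega)
  obtain ⟨B, hB⟩ : ∃ B, B = BrR (2 ^ (b + 4)) (2 ^ (b + J + 2)) := ⟨_, rfl⟩
  obtain ⟨M, hM⟩ : ∃ M, M = lam + 1 := ⟨_, rfl⟩
  obtain ⟨G, hG⟩ : ∃ G, G = GB1 b B := ⟨_, rfl⟩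
  obtain ⟨g, hg⟩ : ∃ g : ℝ, g = 2 + K * 2 ^ J * 2 := ⟨_, rfl⟩
  have hg0 : 0 ≤ g := by rw [hg]; positivity
  have hGD : HerD (2 ^ (b + 4)) G := by
    rw [hG]
    have h2 := herD_vA (Nat.one_le_two_pow (n := b + 4)) B (fun _ => 1)
    exact ⟨fun s hs t => add_le_add le_rfl (h2.her s hs t), fun s t ht hs => add_le_add le_rfl (h2.suf s t ht hs)⟩
  have h1D : DmJ b 2 (fun _ => 1) :=
    (dmP.dm b _ (⟨fun _ _ _ => le_rfl, fun _ _ _ _ => le_rfl⟩ : HerD (2 ^ (b + 4)) (fun _ => (1 : ℝ≥0∞)))).mono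
      ((NTW.xT_const _ _ _).trans (by rw [mul_one]))
  have hGn : xT (2 ^ (b + 4)) b G ≤ ENNReal.ofReal g := by
    have e1 : G = fun s => (fun _ => (1 : ℝ≥0∞)) s + vA (2 ^ (b + 4)) B (fun _ => 1) s := hG
    rw [e1]
    refine (Ch.xT_add _ _ _ _).trans ?_
    have e2 : (2 : ℝ≥0∞) = ENNReal.ofReal 2 := by simp
    rw [hg, ENNReal.ofReal_add (by norm_num) (by positivity), ENNReal.ofReal_mul (by positivity), ← e2]
    refine add_le_add ((NTW.xT_const _ _ _).trans (by rw [mul_one])) ?_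
    rw [hB]
    exact (hbox b J).near _ _ h1D
  obtain ⟨hF1, hF2⟩ := hfun b (J + 2) n W kp G g hW hn1 hg0 hGD.her hGn M
  obtain ⟨y, hy⟩ : ∃ y, y = Q ^ (n + (J + 2) + 1) * g := ⟨_, rfl⟩
  rw [← hy] at hF1 hF2
  have hy0 : 0 ≤ y := by rw [hy]; positivity
  obtain ⟨Ξ, hΞ⟩ : ∃ Ξ, Ξ = FX W kp n (fun i => FL W kp G M i) M 0 := ⟨_, rfl⟩
  have hRx : HerD (2 ^ (b + 4)) (Rx W kp n (fun i => FL W kp G M i) M 0) := by
    have := QF.herD_Rx (W := W) (kp := kp) (n := n) (Φ := fun i => FL W kp G M i) M 0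
    rwa [hW.zero] at this
  have hFL := herD_FL0 hW hGD M
  have hΞD : HerD (2 ^ (b + 4)) Ξ := by
    rw [hΞ]
    exact ⟨fun s hs t => add_le_add (hFL.her s hs t) (hRx.her s hs t),
      fun s t ht hs => add_le_add (hFL.suf s t ht hs) (hRx.suf s t ht hs)⟩
  have hΞn : xT (2 ^ (b + 4)) b Ξ ≤ ENNReal.ofReal (2 * y) := by
    have e1 : Ξ = fun t => FL W kp G M 0 t + Rx W kp n (fun i => FL W kp G M i) M 0 t := hΞ
    rw [e1, two_mul, ENNReal.ofReal_add hy0 hy0]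
    exact (Ch.xT_add _ _ _ _).trans (add_le_add hF2 hF1)
  have hv : xT (2 ^ (b + 4)) b (vA (2 ^ (b + 4)) B Ξ) ≤ ENNReal.ofReal (K * 2 ^ J * (2 * y)) := by
    rw [hB, ENNReal.ofReal_mul (by positivity)]
    exact (hbox b J).near _ _ ((dmP.dm b Ξ hΞD).mono hΞn)
  have hd := (hX (2 ^ (b + 4)) b k (vA (2 ^ (b + 4)) B Ξ) (hered_vA _ _ _) le_rfl hbk).mono
    (mul_le_mul_right hv (ENNReal.ofReal K3))
  have hd2 := (DomJ_const k 1).add ((hd.smul (ENNReal.ofReal Kc)).smul (ENNReal.ofReal xc⁻¹))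
  have hher : HerD (2 ^ (k + 4)) (fun t => ∑' o, PoC (2 ^ (k + 4)) (2 ^ (k + 6)) lam (RR (b + 5)) o t) :=
    herD_ts fun o => her_PoC Nat.one_le_two_pow _ _ _ _
  refine ⟨hher, (hd2.le hher.her fun t => ?_).mono ?_⟩
  · refine (tot_PoC _ _ _ _ t).trans (add_le_add le_rfl (mul_le_mul_right ?_ _))
    have h1 := hcl b J n W kp idx hW hn1 hidx hmem (2 ^ (k + 4)) (2 ^ (k + 6)) lam t
      (Nat.pow_le_pow_right (by norm_num) (by omega)) (Nat.pow_le_pow_right (by norm_num) (by omega))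
    rw [← hB, ← hM, ← hG, ← hΞ] at h1
    exact h1
  · have e2 : (2 : ℝ≥0∞) * 1 = ENNReal.ofReal 2 := by simp
    rw [e2, ← ENNReal.ofReal_mul (by linarith), ← ENNReal.ofReal_mul (by linarith), ← ENNReal.ofReal_mul (by linarith),
      ← ENNReal.ofReal_add (by norm_num) (by positivity)]
    refine ENNReal.ofReal_le_ofReal (le_trans (le_of_eq ?_) (end_num (V := V) hA1 hQ hK hJ))
    rw [hA, hy, hg, hn]
    ring

end POL

end HexObs
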