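import Pool.Agent.POL.EndC

/-!
POL (polygons): the norm of the closed ends.
-/

set_option autoImplicit false

namespace HexObs

namespace POL

open Finset TS SDN SDN.CN NTm NTW NTA EN JNT SIM

open scoped ENNReal

lemma RT_anti {D D' : ℕ} (h : D ≤ D') {t W : List Bool} (hW : RT D' LFold t W) : RT D LFold t W := by
  obtain ⟨Z, h1, ⟨a, a1, a2⟩, h3⟩ := hW
  exact ⟨Z, h1, ⟨a, h.trans a1, a2⟩, h3⟩

lemma herD_FL0 {kc J n : ℕ} {W : ℕ → Set (List Bool)} {kp : ℕ → ℕ} (hW : Wnd kc J n W kp) {G : List Bool → ℝ≥0∞}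
    (hG : HerD (2 ^ (kc + 4)) G) (M : ℕ) : HerD (2 ^ (kc + 4)) (FL W kp G M 0) := by
  cases M with
  | zero => exact hG
  | succ M =>
    have e2 : (FL W kp G (M + 1) 0) = fun s => G s + vA (2 ^ (kp 0 + 4)) (W 0) (FL W kp G M 0) s := by
      funext s
      show G s + ∑ j ∈ range (0 + 1), vA (2 ^ (kp j + 4)) (W j) (FL W kp G M j) s = _
      rw [zero_add, Finset.sum_range_one]
    rw [e2, hW.zero]
    have h2 := herD_vA (Nat.one_le_two_pow (n := kc + 4)) (W 0) (FL W kp G M 0)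
    exact ⟨fun s hs t => add_le_add (hG.her s hs t) (h2.her s hs t),
      fun s t ht hs => add_le_add (hG.suf s t ht hs) (h2.suf s t ht hs)⟩

/-- the leaves of a unimodal chain, levels bounded -/
lemma uni_brr {t : List Bool} {m u kc J : ℕ} {e : ℕ → ℕ} {gs : List (List Bool)}
    (ht : ∀ i i', i ≤ t.length → i' ≤ t.length → lev t i - lev t i' ≤ 6 * 2 ^ (kc + J) + 2)
    (hF : FoldG t m u e) (hbig : ∀ q, q < m → RR (kc + 5) ≤ RG t u e q) (hR : RepG t m u e gs) :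
    ∀ g ∈ gs, g ∈ BrR (2 ^ (kc + 4)) (2 ^ (kc + J + 2)) := by
  intro g hg
  obtain ⟨l, hl, rfl⟩ := List.mem_iff_getElem.1 hg
  obtain ⟨h, hh, hb⟩ := hR.brd _ hg
  have hlm : l < m := by
    have := hR.len
    omega
  have h1 := EX.leaf_hgt hb hh (hR.pos l hl)
  have h2 := hbig l hlm
  have he1 : e (l + 1) ≤ t.length := Rp.e_le hF (by omega)
  have he0 : e l ≤ t.length := (hF.lt l hlm).le.trans he1
  have b1 := ht _ _ he1 he0
  have b0 := ht _ _ he0 he1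
  unfold RR RG at h2
  rw [abs_le] at h1
  have h3 : |(Tight.sg (u + l) (lev t (e (l + 1))) - Tight.sg (u + l) (lev t (e l)))| ≤ 6 * 2 ^ (kc + J) + 2 := by
    rw [← NTm.sg_sub, EX.sg_abs, abs_le]
    constructor <;> omega
  rw [abs_le] at h3
  have p1 : (2 : ℤ) ^ (kc + 5) = 2 * 2 ^ (kc + 4) := by ring
  have p2 : (2 : ℤ) ^ (kc + J + 2) = 4 * 2 ^ (kc + J) := by ring
  have p3 : (2 : ℤ) ^ 4 ≤ 2 ^ (kc + 4) := pow_le_pow_right₀ (by norm_num) (by omega)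
  have p4 : (1 : ℤ) ≤ 2 ^ (kc + J) := one_le_pow₀ (by norm_num)
  have h4 : (2 : ℤ) ^ (kc + 4) ≤ h := by omega
  have h5 : (h : ℤ) ≤ 2 ^ (kc + J + 2) := by
    omega
  exact ⟨h, by exact_mod_cast h4, by exact_mod_cast h5, hb⟩

open Classical in
/-- all chains, the first leaf in a smaller class -/
lemma all_sumB {kc J n : ℕ} {W : ℕ → Set (List Bool)} {kp : ℕ → ℕ} {B B' : Set (List Bool)} (hW : Wnd kc J n W kp)
    (hn : 0 < n) (hB : B' ⊆ HB (2 ^ (kc + 4))) (M : ℕ) :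
    (∑' gs : List (List Bool), if gs.length ≤ M ∧ gs.IsChain LFold ∧ (∃ x xs, gs = x :: xs ∧ x ∈ B' ∧ UniU W n B xs 0)
      then SDN.wl gs * 1 else 0) ≤ Rec8.sw B' (FX W kp n (fun i => FL W kp (GB1 kc B) M i) M 0) := by
  refine (CCh.tsum_list _ ?_).trans ?_
  · rw [if_neg]
    rintro ⟨-, -, x, xs, h, -⟩
    simp at h
  · refine (QF.sum_consW (range 1) (fun _ => B') (fun _ => FX W kp n (fun i => FL W kp (GB1 kc B) M i) M 0) (fun _ => 1)
      (fun gs => gs.length ≤ M ∧ gs.IsChain LFold ∧ (∃ x xs, gs = x :: xs ∧ x ∈ B' ∧ UniU W n B xs 0))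
      (fun _ g' gs => gs.length ≤ M ∧ (g' :: gs).IsChain LFold ∧ UniU W n B gs 0) ?_ ?_).trans ?_
    · rintro g' gs ⟨h1, h2, x, xs, h3, h4, h5⟩
      rw [List.cons.injEq] at h3
      obtain ⟨rfl, rfl⟩ := h3
      rw [List.length_cons] at h1
      exact ⟨0, Finset.mem_range.2 (by omega), h4, by omega, h2, h5⟩
    · rintro _ - g' hg'
      exact uni_sum hW M M 0 g' le_rfl hn (by rw [hW.zero]; exact hB hg')
    · rw [Finset.sum_range_one]

/-- no large difference: no closed end -/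
lemma not_cl {b : ℕ} {t : List Bool} (h : ∀ i i', i ≤ t.length → i' ≤ t.length → lev t i - lev t i' < RR b) :
    ¬ ClE (RR b) t := by
  rintro ⟨a, k, a1, a2, -⟩
  have c1 := h t.length a le_rfl a1
  have c2 := h a t.length a1 le_rfl
  unfold Tight.sg at a2
  split_ifs at a2 <;> omega

open Classical in
/-- the closed words in relation to t by the unimodal chains -/
theorem clw_chain : ∃ K : ℝ, 1 ≤ K ∧ ∀ (b J n : ℕ) (W : ℕ → Set (List Bool)) (kp idx : ℕ → ℕ),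
    Wnd b (J + 2) n W kp → 0 < n → (∀ h h' : ℕ, h ≤ h' → idx h ≤ idx h') →
    (∀ (g : List Bool) (h : ℕ), g ∈ Brd h → 2 ^ (b + 4) ≤ h → h ≤ 2 ^ (b + J + 2) → idx h < n ∧ g ∈ W (idx h)) →
    ∀ (D N lam : ℕ) (t : List Bool), 2 ^ (b + 4) ≤ D → N ≤ 2 ^ (b + J + 1) →
    gf (ClW D N lam (RR (b + 5)) t) ≤ ENNReal.ofReal K *
      vA (2 ^ (b + 4)) (BrR (2 ^ (b + 4)) (2 ^ (b + J + 2)))
        (FX W kp n (fun i => FL W kp (GB1 b (BrR (2 ^ (b + 4)) (2 ^ (b + J + 2)))) (lam + 1) i) (lam + 1) 0) t := by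
  obtain ⟨K, hK, hcov⟩ := cover_bothC
  refine ⟨K, hK, ?_⟩
  intro b J n W kp idx hW hn hidx hmem D N lam t hD hN
  obtain ⟨B, hB⟩ : ∃ B, B = BrR (2 ^ (b + 4)) (2 ^ (b + J + 2)) := ⟨_, rfl⟩
  rw [← hB]
  obtain ⟨B', hB'⟩ : ∃ B', B' = {x | x ∈ B ∧ RT (2 ^ (b + 4)) LFold t x} := ⟨_, rfl⟩
  have hBH : B' ⊆ HB (2 ^ (b + 4)) := by
    rw [hB', hB]
    exact fun x hx => inH_box hx.1
  obtain ⟨Qp, hQp⟩ : ∃ Qp : List (List Bool) → Prop,
    Qp = fun gs => gs.length ≤ lam + 1 ∧ ∃ x xs, gs = x :: xs ∧ x ∈ B' ∧ UniU W n B xs 0 := ⟨_, rfl⟩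
  refine (hcov (ClW D N lam (RR (b + 5)) t) Qp ?_).trans (mul_le_mul_right ?_ _)
  · rintro X ⟨hX, hC, hRT, hl⟩
    rcases fd_exists (b := b + 5) (by omega) hX.1 with hsm | ⟨m, u, e, hF⟩
    · exact absurd hC (not_cl hsm)
    · obtain ⟨r, p, E, hp, g2, gE0, gEr, g4, g5, g6⟩ := geoUni hF
      refine ⟨hX.1, r, u, E, by omega, g2, by rw [gE0]; exact ss_first hF hX, by rw [gEr]; exact cl_last hF hC,
        fun gs hR hv hlen => ?_⟩
      rw [hQp]
      refine ⟨?_, ?_⟩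
      · rw [hR.len]
        exact (QF.fold_card g2).trans hl
      · have hBr := uni_brr (kc := b) (J := J) (t := X) (by
          intro i i' hi hi'
          have c1 := (hX.2 i hi).2
          have c2 := (hX.2 i' hi').1
          have c3 : (N : ℤ) ≤ 2 ^ (b + J + 1) := by exact_mod_cast hN
          have c4 : (2 : ℤ) ^ (b + J + 1) = 2 * 2 ^ (b + J) := by ring
          linarith) g2 g4 hR
        obtain ⟨x, xs, h1, h2, h3⟩ := uni_class hidx hmem hX.1 g2 hp g5 g6 hR hBr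
        refine ⟨x, xs, h1, ?_, by rw [hB]; exact h3⟩
        rw [hB']
        have hx : gs.headD [] = x := by
          rw [h1]
          rfl
        rw [hx] at hv hlen
        exact ⟨by rw [hB]; exact h2, RT_anti hD (RT_congrC hlen hv hRT)⟩
  · have hall := all_sumB (B := B) (B' := B') hW hn hBH (lam + 1)
    have e1 : Rec8.sw B' (FX W kp n (fun i => FL W kp (GB1 b B) (lam + 1) i) (lam + 1) 0) =
      vA (2 ^ (b + 4)) B (FX W kp n (fun i => FL W kp (GB1 b B) (lam + 1) i) (lam + 1) 0) t := by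
      rw [hB']
      rfl
    rw [e1] at hall
    refine le_trans (ENNReal.tsum_le_tsum fun gs => ?_) hall
    by_cases hg : gs ≠ [] ∧ gs.IsChain LFold ∧ (∀ g ∈ gs, ∃ k : ℕ, 1 ≤ k ∧ g ∈ Brd k) ∧ Qp gs
    · have hq := hg.2.2.2
      rw [hQp] at hq
      rw [if_pos hg, if_pos ⟨hq.1, hg.2.1, hq.2⟩, mul_one]
    · rw [if_neg hg]
      exact zero_le

end POL

end HexObs
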