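import Pool.Agent.POL.Root
import Pool.Agent.NTA.RunX

/-!
POL: the trivial bounds: the event theorem for interior runs without a label, up to a power of the size of the box; the
closed words with a rotation in a given class.
-/

set_option autoImplicit false

namespace HexObs

namespace POL

open Finset TS SDN NTW NTA SIM JNT

open scoped ENNReal Classical

/-- an interior run of the canonical chain, in the form of the event theorem -/
lemma hrf_er {kc J : ℕ} {R : Set (List (List Bool))} : {w | w ∈ WL (kc + J) ∧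
    w ∈ HRf kc {gs | (∀ x ∈ gs, x ∈ BrR (2 ^ (kc + 4)) (2 ^ (kc + J + 2))) → gs ∈ R}} ⊆ ER kc J R := by
  rintro t ⟨ht, m, u, e, hF, l, d, h1, h2, h3, h4⟩
  refine ⟨ht, m, u, e, hF, l, d, h2, by omega, fun ms hms _ hmid _ hbox => ?_⟩
  have h5 : ms = lws t e l d := by
    apply List.ext_getElem
    · rw [hms]
      simp [lws]
    · intro i hi hi'
      rw [hmid i hi (by omega) (by omega)]
      simp [lws]
  rw [h5] at hbox ⊢
  exact h4 hbox

lemma hrf_mono {kc : ℕ} {R R' : Set (List (List Bool))} (h : R ⊆ R') : HRf kc R ⊆ HRf kc R' := by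
  rintro t ⟨m, u, e, hF, l, d, h1, h2, h3, h4⟩
  exact ⟨m, u, e, hF, l, d, h1, h2, h3, h h4⟩

/-- **the event theorem for interior runs, any length, up to a power of the box** -/
theorem unl : ∃ (C : ℝ) (k0 : ℕ), 1 ≤ C ∧ ∀ (kc J : ℕ) (R : Set (List (List Bool))) (δ : ℝ), k0 ≤ kc → 6 ≤ J → 0 < δ →
    SmR DmJ kc R δ → gf {w | w ∈ WL (kc + J) ∧
      w ∈ HRf kc {gs | (∀ x ∈ gs, x ∈ BrR (2 ^ (kc + 4)) (2 ^ (kc + J + 2))) → gs ∈ R}} ≤
        ENNReal.ofReal (C ^ (kc + J + 1) * δ) := by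
  obtain ⟨Ci, δi, hI⟩ := inp_exists
  obtain ⟨C0, k0, hC0, h0⟩ := eventRJ (ssA hI)
  obtain ⟨D, hD, hDX⟩ := Xb_pow
  obtain ⟨x, hx0, hx⟩ : ∃ x : ℝ, 0 < x ∧ Xb 0 = ENNReal.ofReal x :=
    ⟨(Xb 0).toReal, ENNReal.toReal_pos (Xb_ne_zero 0) (Xb_ne_top 0), (ENNReal.ofReal_toReal (Xb_ne_top 0)).symm⟩
  have hC00 : 0 < C0 := by linarith
  have hD0 : 0 < D := by linarith
  refine ⟨C0 * 2 * D ^ 2 * (D ^ 16 * (1 + x) ^ 2), k0, ?_, fun kc J R δ hk hJ hδ hS => ?_⟩
  · have a1 : 1 ≤ D ^ 2 := one_le_pow₀ hD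
    have a2 : 1 ≤ D ^ 16 := one_le_pow₀ hD
    have a3 : 1 ≤ (1 + x) ^ 2 := one_le_pow₀ (by linarith)
    refine one_le_mul_of_one_le_of_one_le (one_le_mul_of_one_le_of_one_le (by linarith) a1)
      (one_le_mul_of_one_le_of_one_le a2 a3)
  obtain ⟨lam', hQ⟩ := QL_exists (kc + J + 8)
  have hUp := Ub_pos (kc + J)
  have hU2 : Ub (kc + J) ≤ 2 ^ (kc + J + 1) := NTA.LQ.Ub_le (kc + J)
  have h1 : gf {t | t ∈ SA ∧ t ∈ ER kc J R} ≤ ENNReal.ofReal (C0 ^ J * δ * Ub (kc + J)) * (Xb (kc + J + 8)) ^ 2 := by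
    refine gf_SA_le fun lam => (h0 kc J lam lam' R δ hk hJ hδ hQ hS).trans ?_
    exact mul_le_mul_right (pow_le_pow_left' (bl_le_Xb _ _) 2) _
  have h2 : Xb (kc + J + 8) ≤ ENNReal.ofReal (D ^ (kc + J + 8) * x) := by
    have := hDX 0 (kc + J + 8)
    rw [Nat.zero_add, hx, ← ENNReal.ofReal_mul (by positivity)] at this
    exact this
  refine (gf_mono fun t ht => ?_).trans (h1.trans ?_)
  · exact ⟨ht.1.1, hrf_er ht⟩
  · refine (mul_le_mul' le_rfl (pow_le_pow_left' h2 2)).trans ?_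
    rw [← ENNReal.ofReal_pow (by positivity), ← ENNReal.ofReal_mul (by positivity)]
    refine ENNReal.ofReal_le_ofReal ?_
    have e1 : C0 ^ J ≤ C0 ^ (kc + J + 1) := pow_le_pow_right₀ hC0 (by omega)
    have e2 : (D ^ (kc + J + 8) * x) ^ 2 = (D ^ 2) ^ (kc + J + 1) * (D ^ 14 * x ^ 2) := by
      rw [← pow_mul, mul_pow, ← pow_mul, ← mul_assoc, ← pow_add]
      congr 2
      ring
    have e3 : D ^ 14 * x ^ 2 ≤ (D ^ 16 * (1 + x) ^ 2) ^ (kc + J + 1) := by
      have f1 : D ^ 14 ≤ D ^ 16 := pow_le_pow_right₀ hD (by norm_num)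
      have f2 : x ^ 2 ≤ (1 + x) ^ 2 := pow_le_pow_left₀ hx0.le (by linarith) 2
      have f3 : 1 ≤ D ^ 16 * (1 + x) ^ 2 :=
        one_le_mul_of_one_le_of_one_le (one_le_pow₀ hD) (one_le_pow₀ (by linarith))
      calc D ^ 14 * x ^ 2 ≤ D ^ 16 * (1 + x) ^ 2 := by gcongr
        _ = (D ^ 16 * (1 + x) ^ 2) ^ 1 := (pow_one _).symm
        _ ≤ _ := pow_le_pow_right₀ f3 (by omega)
    calc C0 ^ J * δ * Ub (kc + J) * (D ^ (kc + J + 8) * x) ^ 2
        ≤ C0 ^ (kc + J + 1) * δ * 2 ^ (kc + J + 1) * ((D ^ 2) ^ (kc + J + 1) * (D ^ 16 * (1 + x) ^ 2) ^ (kc + J + 1)) := by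
          rw [e2]
          gcongr
      _ = (C0 * 2 * D ^ 2 * (D ^ 16 * (1 + x) ^ 2)) ^ (kc + J + 1) * δ := by
          obtain ⟨Y, hY⟩ : ∃ Y, Y = D ^ 16 * (1 + x) ^ 2 := ⟨_, rfl⟩
          rw [← hY, mul_pow, mul_pow, mul_pow]
          ring

lemma xcle : xc ≤ 1 := by
  have h := xc_sq
  have h2 : (1 : ℝ) ≤ 2 + Real.sqrt 2 := by have := Real.sqrt_nonneg 2; linarith
  have h3 : xc ^ 2 ≤ 1 := by
    rw [h, div_le_one (by linarith)]
    exact h2
  have h4 := xc_pos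
  nlinarith

/-- closed words with a rotation in a given class: at most N rotations, 2 last letters -/
lemma rot_triv {N : ℕ} {E : Set (List Bool)} (B : Set (List Bool)) (hN : 1 ≤ N) (hE : ∀ t ∈ E, t ∈ Cy N ∧
    ∃ (X Y w : List Bool) (c : Bool), t = X ++ Y ∧ Y ++ X = w ++ [c] ∧ w ∈ B) :
    gf E ≤ 2 * (N : ℝ≥0∞) * gf B := by
  have h1 : E ⊆ ⋃ a ∈ range N, {t | t ∈ Cy N ∧ ∃ (w : List Bool) (c : Bool), w ∈ B ∧ t = (w ++ [c]).rotate a} := by
    intro t ht
    obtain ⟨hC, X, Y, w, c, he, hw, hB⟩ := hE t ht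
    rw [Set.mem_iUnion₂]
    have hlen : (Y ++ X).length = N := by
      have := hC.1
      rw [he, List.length_append] at this
      rw [List.length_append]
      omega
    refine ⟨Y.length % N, Finset.mem_range.2 (Nat.mod_lt _ (by omega)), hC, w, c, hB, ?_⟩
    rw [← hw, ← hlen, List.rotate_mod, rotate_app]
    exact he
  have h2 : ∀ a : ℕ, gf {t | t ∈ Cy N ∧ ∃ (w : List Bool) (c : Bool), w ∈ B ∧ t = (w ++ [c]).rotate a} ≤ 2 * gf B := by
    intro a
    have h3 : gf {t | t ∈ Cy N ∧ ∃ (w : List Bool) (c : Bool), w ∈ B ∧ t = (w ++ [c]).rotate a} ≤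
        ∑' p : B × Bool, wE p.1.1 := by
      have h4 : ∀ t : {t | t ∈ Cy N ∧ ∃ (w : List Bool) (c : Bool), w ∈ B ∧ t = (w ++ [c]).rotate a},
          ∃ p : B × Bool, t.1 = (p.1.1 ++ [p.2]).rotate a := by
        rintro ⟨t, -, w, c, hw, ht⟩
        exact ⟨(⟨w, hw⟩, c), ht⟩
      choose f hf using h4
      have hinj : Function.Injective f := by
        intro t t' h
        apply Subtype.ext
        rw [hf t, hf t', h]
      unfold gf
      refine le_trans (ENNReal.tsum_le_tsum fun t => ?_) (ENNReal.tsum_comp_le_tsum_of_injective hinj (fun p => wE p.1.1))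
      have h5 : wE t.1 = wE ((f t).1.1 ++ [(f t).2]) := by
        rw [hf t]
        unfold wE
        rw [List.length_rotate]
      rw [h5]
      unfold wE
      refine ENNReal.ofReal_le_ofReal ?_
      refine pow_le_pow_of_le_one xc_pos.le (xcle) ?_
      rw [List.length_append]
      omega
    refine h3.trans (le_of_eq ?_)
    rw [ENNReal.tsum_prod (f := fun (w : B) (_ : Bool) => wE w.1)]
    simp only [tsum_fintype, Fintype.sum_bool]
    unfold gf
    rw [← ENNReal.tsum_mul_left]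
    exact tsum_congr fun w => (two_mul _).symm
  calc gf E ≤ gf (⋃ a ∈ range N, {t | t ∈ Cy N ∧ ∃ (w : List Bool) (c : Bool), w ∈ B ∧ t = (w ++ [c]).rotate a}) :=
        gf_mono h1
    _ ≤ ∑ a ∈ range N, gf {t | t ∈ Cy N ∧ ∃ (w : List Bool) (c : Bool), w ∈ B ∧ t = (w ++ [c]).rotate a} :=
        ENNReal.tsum_biUnion_le wE _ _
    _ ≤ ∑ a ∈ range N, 2 * gf B := Finset.sum_le_sum fun a _ => h2 a
    _ = 2 * (N : ℝ≥0∞) * gf B := by
        rw [Finset.sum_const, Finset.card_range, nsmul_eq_mul]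
        ring

end POL

end HexObs
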