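import Pool.Agent.POL.EnsDefs
import Pool.Agent.POL.Unl
import Pool.Agent.NTA.RunCs
import Pool.Agent.NTA.RunFun
import Pool.Agent.NTA.TIInst
import Pool.Agent.SIM.AdjG

/-!
POL: **the closed words are an ensemble**: the event theorem for closed words with a window of leaves between two runs gives
the event theorem for the crowded and for the filled runs of the closed words without the last letter; the tail of the
lengths of the closed words in a small box.
-/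

set_option autoImplicit false

namespace HexObs

namespace POL

open Finset TS SDN NTW NTA

open scoped ENNReal

/-- the closed words without the last letter -/
def EC (N K : ℕ) : Set (List Bool) := {w | w ∈ WL K ∧ ∃ c : Bool, w ++ [c] ∈ WC N K}

/-- the main bound: closed words with a window between two runs -/
def MasterP (w : ℕ → ℝ) : Prop := ∃ (C : ℝ) (k0 M0 : ℕ), 1 ≤ C ∧
  ∀ (N kc J : ℕ) (R1 R2 : Set (List (List Bool))) (δ : ℝ), 1 ≤ N → k0 ≤ kc → 6 ≤ J → 0 < δ → [] ∉ R1 → [] ∉ R2 →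
    SmR DmJ kc R1 δ → SmR DmJ kc R2 δ →
    gf (RotC N (kc + J) (HRf kc (WinR kc J M0 R1 R2))) ≤ ENNReal.ofReal (C ^ J * δ * N / w (kc + J))

/-- a run of a word, in both directions, is an interior run of a rotation, canonical chain -/
def DirC : Prop := ∃ k1 : ℕ, ∀ (N K kc : ℕ) (dir : Bool) (R : Set (List (List Bool))) (t X Y w : List Bool) (c : Bool),
  k1 ≤ kc → t ∈ WC N K → t = X ++ Y → Y ++ X = w ++ [c] → HasRun dir kc R w →
  ∃ (X' Y' w' : List Bool) (c' : Bool), t = X' ++ Y' ∧ Y' ++ X' = w' ++ [c'] ∧ w' ∈ HRf kc R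

/-- the norm of the runs for the closed words -/
def SRC (w : ℕ → ℝ) (C : ℝ) (kc : ℕ) (R : Set (List (List Bool))) (δ : ℝ) : Prop :=
  ∀ ε : ℝ, δ < ε → ∀ (N : ℕ) (dir : Bool) (J : ℕ), 1 ≤ N → 6 ≤ J →
    gf {t | t ∈ EC N (kc + J) ∧ HasRun dir kc R t} ≤ ENNReal.ofReal (C ^ J * ε) * ENNReal.ofReal (N / w (kc + J))

/-! ### closed words and their last letter -/

lemma sa_of_cy {N : ℕ} {w : List Bool} {c : Bool} (h : w ++ [c] ∈ Cy N) : w ∈ SA := by
  obtain ⟨h1, -, -, h4⟩ := h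
  rw [List.length_append, List.length_singleton] at h1
  refine ⟨fun _ _ _ => trivial, fun i k hik hk he => ?_⟩
  have h5 := h4 i k (by omega) (by omega) (by rw [vx_append (by omega), vx_append (by omega)]; exact he)
  omega

lemma wl_of_wc {N K : ℕ} {w : List Bool} {c : Bool} (h : w ++ [c] ∈ WC N K) : w ∈ WL K := by
  refine ⟨sa_of_cy h.1, fun i hi dir => ?_⟩
  have h1 : (w ++ [c]).length = N := h.1.1
  rw [List.length_append, List.length_singleton] at h1
  have h2 := h.2 [] (w ++ [c]) rfl i (by omega) dir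
  rwa [List.append_nil, vx_append (by omega)] at h2

lemma xc_half : 1 / 2 ≤ xc := by
  have h := xc_sq
  have h2 : Real.sqrt 2 ≤ 2 := by
    rw [Real.sqrt_le_left (by norm_num)]
    norm_num
  have h3 : (0 : ℝ) ≤ Real.sqrt 2 := Real.sqrt_nonneg 2
  have h4 : 1 / 4 ≤ xc ^ 2 := by
    rw [h]
    exact one_div_le_one_div_of_le (by linarith) (by linarith)
  have h5 := xc_pos
  nlinarith

/-- adding the last letter -/
lemma add_letter {N K : ℕ} {P B : Set (List Bool)} (h : ∀ (w : List Bool) (c : Bool), w ∈ P → w ++ [c] ∈ WC N K →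
    w ++ [c] ∈ B) : gf {w | w ∈ EC N K ∧ w ∈ P} ≤ 2 * gf B := by
  classical
  obtain ⟨φ, hφ⟩ : ∃ φ : List Bool → List Bool, φ = fun w => w ++ [if w ++ [true] ∈ WC N K then true else false] :=
    ⟨_, rfl⟩
  refine gf_le_of_inj φ ?_ ?_ 2 ?_
  · rintro w ⟨⟨-, c, hc⟩, hP⟩
    rw [hφ]
    refine h w _ hP ?_
    split_ifs with h1
    · exact h1
    · cases c
      · exact hc
      · exact absurd hc h1
  · intro a _ b _ hab
    rw [hφ] at hab
    exact (List.append_inj' hab rfl).1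
  · intro w _
    rw [hφ]
    have h1 : (2 : ℝ≥0∞) = ENNReal.ofReal 2 := by norm_num
    unfold wE
    rw [h1, ← ENNReal.ofReal_mul (by norm_num)]
    refine ENNReal.ofReal_le_ofReal ?_
    rw [List.length_append, List.length_singleton, pow_succ]
    have h2 : 0 < xc ^ w.length := pow_pos xc_pos _
    have h3 := xc_half
    nlinarith

/-- removing the last letter -/
lemma rem_letter {N K : ℕ} {B : Set (List Bool)} (hN : 1 ≤ N) (h : ∀ (w : List Bool) (c : Bool), w ++ [c] ∈ WC N K → w ∈ B) :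
    gf (WC N K) ≤ 2 * gf B := by
  have h1 : gf (WC N K) ≤ gf B * gf (({[true], [false]} : Finset (List Bool)) : Set (List Bool)) := by
    refine gf_le_mul fun t ht => ?_
    have h2 : t.length = N := ht.1.1
    have h3 : t ≠ [] := by
      rintro rfl
      rw [List.length_nil] at h2
      omega
    refine ⟨t.dropLast, h _ (t.getLast h3) ?_, [t.getLast h3], ?_, (List.dropLast_append_getLast h3).symm⟩
    · rw [List.dropLast_append_getLast h3]
      exact ht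
    · cases t.getLast h3 <;> simp
  refine h1.trans ?_
  rw [mul_comm]
  refine mul_le_mul_left ?_ _
  rw [gf_finset, Finset.sum_pair (by decide)]
  have h1 : (2 : ℝ≥0∞) = ENNReal.ofReal 2 := by norm_num
  rw [h1]
  refine ENNReal.ofReal_le_ofReal ?_
  have := xcle
  simp only [List.length_singleton, pow_one]
  linarith

/-! ### the event theorem -/

/-- the leaves of a run of a word of the box -/
lemma run_all {dir : Bool} {kc J : ℕ} {R : Set (List (List Bool))} {t : List Bool} (ht : t ∈ WL (kc + J)) (hJ : 6 ≤ J)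
    (h : HasRun dir kc R t) :
    HasRun dir kc {gs | gs ∈ R ∧ gs ≠ [] ∧ ∀ g ∈ gs, g ∈ BrR (2 ^ (kc + 4)) (2 ^ (kc + J + 2))} t := by
  obtain ⟨m, u, e, hF, l, d, h1, h2, h3, h4⟩ := h
  refine ⟨m, u, e, hF, l, d, h1, h2, h3, h4, ?_, ?_⟩
  · exact SIM.lws_ne h2
  · have hb : Bx (kc + 5 + (J - 3)) t 0 t.length := by
      rw [show kc + 5 + (J - 3) = kc + J + 2 by omega]
      exact bx_all ht
    have := run_box ht.1 hF hb (Nat.zero_le _) (lf_le hF (i := l + d) (by omega)) (by omega) h3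
    rwa [show kc + 5 + (J - 3) = kc + J + 2 by omega] at this

/-- the runs with a window between two runs of small norm -/
lemma src_of {w : ℕ → ℝ} {C : ℝ} {kc M0 : ℕ} (hC : 1 ≤ C) (hw : ∀ k, 0 < w k)
    (hM : ∀ (N J : ℕ) (R1 R2 : Set (List (List Bool))) (δ : ℝ), 1 ≤ N → 6 ≤ J → 0 < δ → [] ∉ R1 → [] ∉ R2 →
      SmR DmJ kc R1 δ → SmR DmJ kc R2 δ →
      gf (RotC N (kc + J) (HRf kc (WinR kc J M0 R1 R2))) ≤ ENNReal.ofReal (C ^ J * δ * N / w (kc + J)))
    (hD : ∀ (N K : ℕ) (dir : Bool) (R : Set (List (List Bool))) (t X Y w : List Bool) (c : Bool),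
      t ∈ WC N K → t = X ++ Y → Y ++ X = w ++ [c] → HasRun dir kc R w →
      ∃ (X' Y' w' : List Bool) (c' : Bool), t = X' ++ Y' ∧ Y' ++ X' = w' ++ [c'] ∧ w' ∈ HRf kc R)
    {R R1 R2 : Set (List (List Bool))} {δ : ℝ} (hδ : 0 ≤ δ) (h1 : [] ∉ R1) (h2 : [] ∉ R2) (hS1 : SmR DmJ kc R1 δ)
    (hS2 : SmR DmJ kc R2 δ) (hR : ∀ gs ∈ R, gs ≠ [] → ∃ r1 ps r2 : List (List Bool), gs = r1 ++ (ps ++ r2) ∧ r1 ∈ R1 ∧
      r2 ∈ R2 ∧ ps.length = M0) : SRC w (2 * C) kc R δ := by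
  intro ε hε N dir J hN hJ
  have hε0 : 0 < ε := by linarith
  have hmain := hM N J R1 R2 ε hN hJ hε0 h1 h2 (TI.SmR_mono hS1 hε.le) (TI.SmR_mono hS2 hε.le)
  have hsub : gf {t | t ∈ EC N (kc + J) ∧ HasRun dir kc R t} ≤
      2 * gf (RotC N (kc + J) (HRf kc (WinR kc J M0 R1 R2))) := by
    refine (gf_mono (Q := {t | t ∈ EC N (kc + J) ∧ t ∈ {t | t ∈ WL (kc + J) ∧ HasRun dir kc R t}}) ?_).trans
      (add_letter ?_)
    · rintro t ⟨ht1, ht2⟩
      exact ⟨ht1, ht1.1, ht2⟩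
    · rintro s c ⟨hs1, hs2⟩ hc
      obtain ⟨X, Y, s', c', e1, e2, e3⟩ := hD N (kc + J) dir _ (s ++ [c]) [] (s ++ [c]) s c hc rfl (List.append_nil _)
        (run_all hs1 hJ hs2)
      refine ⟨hc, X, Y, s', c', e1, e2, ?_⟩
      obtain ⟨m, u, e, hF, l, d, a1, a2, a3, a4, a5, a6⟩ := e3
      refine ⟨m, u, e, hF, l, d, a1, a2, a3, ?_⟩
      obtain ⟨r1, ps, r2, b1, b2, b3, b4⟩ := hR _ a4 a5
      refine ⟨r1, ps, r2, b1, b2, ?_, b3, ?_, b4⟩
      · rintro rfl
        exact h1 b2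
      · rintro rfl
        exact h2 b3
  refine hsub.trans ((mul_le_mul_right hmain 2).trans ?_)
  have h3 : (2 : ℝ≥0∞) = ENNReal.ofReal 2 := by norm_num
  rw [h3, ← ENNReal.ofReal_mul (by norm_num), ← ENNReal.ofReal_mul (by positivity)]
  refine ENNReal.ofReal_le_ofReal ?_
  have hwp := hw (kc + J)
  have h4 : (2 : ℝ) * C ^ J ≤ (2 * C) ^ J := by
    rw [mul_pow]
    have h5 : (2 : ℝ) ≤ 2 ^ J := by
      calc (2 : ℝ) = 2 ^ 1 := (pow_one 2).symm
        _ ≤ 2 ^ J := pow_le_pow_right₀ (by norm_num) (by omega)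
    gcongr
  calc 2 * (C ^ J * ε * N / w (kc + J)) = (2 * C ^ J) * ε * (N / w (kc + J)) := by ring
    _ ≤ (2 * C) ^ J * ε * (N / w (kc + J)) := by gcongr

/-! ### the crowded runs -/

/-- the norm of the runs of interior leaves in a box -/
theorem rbx_norm (mu : ℕ) : ∃ (k0 m0 : ℕ) (C0 : ℝ), 0 < C0 ∧ 1 ≤ m0 ∧ ∀ kc m : ℕ, k0 ≤ kc → m0 ≤ m →
    SmR DmJ kc (RBx kc mu m) (C0 / 4 ^ m) := by
  obtain ⟨k0, w0, Q, C0, hw, hC0, h⟩ := smR_crowd' mu
  obtain ⟨Cc, hCc, hcs⟩ := run_cs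
  refine ⟨k0, 6 + Q * (Cc * 2 ^ w0 * 4 ^ mu + 1), C0, hC0, by omega, fun kc m hk hm => ?_⟩
  refine NTA.SmR_mono ?_ (h kc m (Cc * 2 ^ w0 * 4 ^ mu) hk (by omega))
  rintro gs ⟨dir, t, m', u, e, l, x, y, ht, hF, hbx, hx, hy, hl, hm', rfl⟩
  exact hcs dir kc w0 mu m' u l m _ x y t e ht (by omega) hF hbx hx hy hl hm' (by omega) le_rfl

lemma rbx_len {kc mu m : ℕ} {gs : List (List Bool)} (h : gs ∈ RBx kc mu m) : gs.length = m := by
  obtain ⟨dir, t, m', u, e, l, x, y, ht, hF, hbx, hx, hy, hl, hm', rfl⟩ := h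
  exact PE.lws_length _ _ _ _

lemma rbx_split {kc mu a M0 b : ℕ} {gs : List (List Bool)} (h : gs ∈ RBx kc mu (a + (M0 + b))) :
    ∃ r1 ps r2 : List (List Bool), gs = r1 ++ (ps ++ r2) ∧ r1 ∈ RBx kc mu a ∧ r2 ∈ RBx kc mu b ∧ ps.length = M0 := by
  obtain ⟨dir, t, m', u, e, l, x, y, ht, hF, hbx, hx, hy, hl, hm', rfl⟩ := h
  refine ⟨lws t e l a, lws t e (l + a) M0, lws t e (l + a + M0) b, ?_, ?_, ?_, PE.lws_length _ _ _ _⟩
  · rw [SIM.lws_add, SIM.lws_add]
  · exact ⟨dir, t, m', u, e, l, x, y, ht, hF, hbx, hx, (lf_mono hF (by omega) (by omega)).trans hy, hl, by omega, rfl⟩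
  · refine ⟨dir, t, m', u, e, l + a + M0, x, y, ht, hF, hbx, hx.trans (lf_mono hF (by omega) (by omega)), ?_, by omega,
      by omega, rfl⟩
    rwa [show l + a + M0 + b = l + (a + (M0 + b)) by ring]

/-! ### the filled runs -/

lemma split_count {α : Type} (f : α → Bool) : ∀ (ts : List α) (J : ℕ), J ≤ (ts.filter f).length →
    ∃ p q : List α, ts = p ++ q ∧ (p.filter f).length = J := by
  intro ts
  induction ts with
  | nil =>
    intro J hJ
    rw [List.filter_nil, List.length_nil] at hJ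
    exact ⟨[], [], rfl, by rw [List.filter_nil, List.length_nil]; omega⟩
  | cons a ts ih =>
    intro J hJ
    rcases J with _ | J
    · exact ⟨[], a :: ts, rfl, by rw [List.filter_nil, List.length_nil]⟩
    by_cases ha : f a = true
    · rw [List.filter_cons_of_pos ha, List.length_cons] at hJ
      obtain ⟨p, q, h1, h2⟩ := ih J (by omega)
      refine ⟨a :: p, q, by rw [h1, List.cons_append], ?_⟩
      rw [List.filter_cons_of_pos ha, List.length_cons, h2]
    · rw [List.filter_cons_of_neg ha] at hJ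
      obtain ⟨p, q, h1, h2⟩ := ih (J + 1) hJ
      refine ⟨a :: p, q, by rw [h1, List.cons_append], ?_⟩
      rw [List.filter_cons_of_neg ha, h2]

lemma fill_split {kc mu m1 J M0 : ℕ} {S : Set (List Bool)} {gs : List (List Bool)}
    (h : gs ∈ RFill kc mu m1 (2 * J + (M0 + 3)) S) : ∃ r1 ps r2 : List (List Bool), gs = r1 ++ (ps ++ r2) ∧
      (r1 ∈ {r | r ∈ RFill kc mu m1 J S ∧ r ≠ []}) ∧ (r2 ∈ {r | r ∈ RFill kc mu m1 J S ∧ r ≠ []}) ∧ ps.length = M0 := by
  classical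
  obtain ⟨h1, h2, h3⟩ := h
  rcases gs with _ | ⟨g0, ts⟩
  · rw [List.tail_nil, List.filter_nil, List.length_nil] at h3
    omega
  rw [List.tail_cons] at h3
  obtain ⟨p, q, e1, e2⟩ := split_count (fun g => decide (g ∈ S)) ts J (by omega)
  have h4 : M0 + 3 + J ≤ (q.filter (fun g => decide (g ∈ S))).length := by
    rw [e1, List.filter_append, List.length_append, e2] at h3
    omega
  have h5 : q = q.take M0 ++ q.drop M0 := (List.take_append_drop M0 q).symm
  have h6 : M0 + 3 + J ≤ q.length := h4.trans (List.length_filter_le _ _)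
  have h7 : 3 + J ≤ ((q.drop M0).filter (fun g => decide (g ∈ S))).length := by
    have h8 : ((q.take M0).filter (fun g => decide (g ∈ S))).length ≤ M0 :=
      (List.length_filter_le _ _).trans (List.length_take_le _ _)
    rw [h5, List.filter_append, List.length_append] at h4
    omega
  have hl : (g0 :: ts).length = 1 + (p.length + ((q.take M0).length + (q.drop M0).length)) := by
    rw [List.length_cons, e1, List.length_append, List.length_take, List.length_drop]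
    omega
  refine ⟨g0 :: p, q.take M0, q.drop M0, ?_, ⟨⟨?_, ?_, ?_⟩, by simp⟩, ⟨⟨?_, ?_, ?_⟩, ?_⟩, ?_⟩
  · rw [← h5, e1, List.cons_append]
  · rw [List.length_cons]
    omega
  · intro g hg
    refine h2 g ?_
    rw [e1]
    rcases List.mem_cons.1 hg with h8 | h8
    · exact List.mem_cons.2 (Or.inl h8)
    · exact List.mem_cons.2 (Or.inr (List.mem_append.2 (Or.inl h8)))
  · rw [List.tail_cons]
    exact e2.ge
  · omega
  · intro g hg
    refine h2 g ?_
    rw [e1]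
    exact List.mem_cons.2 (Or.inr (List.mem_append.2 (Or.inr (List.mem_of_mem_drop hg))))
  · rcases hq : q.drop M0 with _ | ⟨a, rs⟩
    · rw [hq, List.filter_nil, List.length_nil] at h7
      omega
    · rw [hq] at h7
      rw [List.tail_cons]
      have h8 : ((a :: rs).filter (fun g => decide (g ∈ S))).length ≤ (rs.filter (fun g => decide (g ∈ S))).length + 1 := by
        rw [List.filter_cons]
        split_ifs
        · exact le_rfl
        · omega
      omega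
  · intro h8
    rw [h8, List.filter_nil, List.length_nil] at h7
    omega
  · rw [List.length_take]
    omega

/-! ### the normalisation -/

lemma w_pow {w : ℕ → ℝ} {Cw : ℝ} (hC : 1 ≤ Cw) (h : ∀ k, w (k + 1) ≤ Cw * w k) (K : ℕ) : w K ≤ Cw ^ K * w 0 := by
  induction K with
  | zero => rw [pow_zero, one_mul]
  | succ K ih =>
    calc w (K + 1) ≤ Cw * w K := h K
      _ ≤ Cw * (Cw ^ K * w 0) := mul_le_mul_of_nonneg_left ih (by linarith)
      _ = Cw ^ (K + 1) * w 0 := by ring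

lemma nu_low {w : ℕ → ℝ} (hw : ∀ k, 0 < w k) {Cw : ℝ} (hC : 1 ≤ Cw) (h : ∀ k, w (k + 1) ≤ Cw * w k) {N : ℕ} (hN : 1 ≤ N)
    (K : ℕ) : 1 / (Cw * (1 + w 0)) ^ (K + 1) ≤ N / w K := by
  have h0 := hw 0
  have hK := hw K
  have h1 := w_pow hC h K
  have h2 : w K ≤ (Cw * (1 + w 0)) ^ (K + 1) := by
    refine h1.trans ?_
    rw [mul_pow]
    refine mul_le_mul (pow_le_pow_right₀ hC (by omega)) ?_ h0.le (by positivity)
    calc w 0 ≤ 1 + w 0 := by linarith
      _ = (1 + w 0) ^ 1 := (pow_one _).symm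
      _ ≤ (1 + w 0) ^ (K + 1) := pow_le_pow_right₀ (by linarith) (by omega)
  have h3 : (1 : ℝ) ≤ N := by exact_mod_cast hN
  exact (one_div_le_one_div_of_le hK h2).trans (div_le_div_of_nonneg_right h3 hK.le)

lemma wl_crude : ∃ C : ℝ, 1 ≤ C ∧ ∀ K, gf (WL K) ≤ ENNReal.ofReal (C ^ (K + 1)) := by
  obtain ⟨C, hC, h⟩ := tot_WL
  obtain ⟨D, hD, hDX⟩ := Xb_pow
  obtain ⟨x, hx0, hx⟩ : ∃ x : ℝ, 0 < x ∧ Xb 0 = ENNReal.ofReal x :=
    ⟨(Xb 0).toReal, ENNReal.toReal_pos (Xb_ne_zero 0) (Xb_ne_top 0), (ENNReal.ofReal_toReal (Xb_ne_top 0)).symm⟩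
  refine ⟨C * 2 * (D ^ 2 * (1 + x) ^ 2), ?_, fun K => ?_⟩
  · exact one_le_mul_of_one_le_of_one_le (by linarith)
      (one_le_mul_of_one_le_of_one_le (one_le_pow₀ hD) (one_le_pow₀ (by linarith)))
  have h2 : Xb K ≤ ENNReal.ofReal (D ^ K * x) := by
    have := hDX 0 K
    rw [Nat.zero_add, hx, ← ENNReal.ofReal_mul (by positivity)] at this
    exact this
  have hU : Ub K ≤ 2 ^ (K + 1) := NTA.LQ.Ub_le K
  have hC0 : 0 ≤ C := by linarith
  have hD0 : 0 ≤ D := by linarith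
  refine (h K).trans ((mul_le_mul' le_rfl (mul_le_mul' (ENNReal.ofReal_le_ofReal hU) (pow_le_pow_left' h2 2))).trans ?_)
  rw [← ENNReal.ofReal_pow (by positivity), ← ENNReal.ofReal_mul (by positivity), ← ENNReal.ofReal_mul hC0]
  refine ENNReal.ofReal_le_ofReal ?_
  have e1 : C ≤ C ^ (K + 1) := by
    calc C = C ^ 1 := (pow_one C).symm
      _ ≤ C ^ (K + 1) := pow_le_pow_right₀ hC (by omega)
  have e2 : (D ^ K * x) ^ 2 ≤ (D ^ 2 * (1 + x) ^ 2) ^ (K + 1) := by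
    have f1 : D ^ K * x ≤ (D * (1 + x)) ^ (K + 1) := by
      rw [mul_pow]
      refine mul_le_mul (pow_le_pow_right₀ hD (by omega)) ?_ hx0.le (by positivity)
      calc x ≤ 1 + x := by linarith
        _ = (1 + x) ^ 1 := (pow_one _).symm
        _ ≤ (1 + x) ^ (K + 1) := pow_le_pow_right₀ (by linarith) (by omega)
    calc (D ^ K * x) ^ 2 ≤ ((D * (1 + x)) ^ (K + 1)) ^ 2 := pow_le_pow_left₀ (by positivity) f1 2
      _ = _ := by rw [← pow_mul, mul_comm (K + 1) 2, pow_mul, mul_pow]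
  calc C * (2 ^ (K + 1) * (D ^ K * x) ^ 2) ≤ C ^ (K + 1) * (2 ^ (K + 1) * (D ^ 2 * (1 + x) ^ 2) ^ (K + 1)) := by gcongr
    _ = (C * 2 * (D ^ 2 * (1 + x) ^ 2)) ^ (K + 1) := by rw [mul_pow (C * 2), mul_pow C]; ring

/-! ### the ensemble -/

/-- **the closed words without the last letter are an ensemble** -/
theorem ens_closed {w : ℕ → ℝ} (hw : ∀ k, 0 < w k) {Cw : ℝ} (hCw : 1 ≤ Cw) (hw1 : ∀ k, w (k + 1) ≤ Cw * w k)
    (hM : MasterP w) (hD : DirC) : ∃ C : ℝ, EnsQ (fun (a : {N : ℕ // 1 ≤ N}) K => EC a.1 K)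
      (fun a K => ENNReal.ofReal ((a.1 : ℕ) / w K)) (SRC w C) := by
  obtain ⟨C, k0, M0, hC, hM⟩ := hM
  obtain ⟨k1, hD⟩ := hD
  have hw0 := hw 0
  refine ⟨2 * C, fun a K t ht => ht.1, ?_, ?_, ?_, ?_, ?_, ?_⟩
  · -- the event theorem
    refine ⟨2 * (2 * C), 0, by linarith, fun a dir kc J R δ _ hJ hδ hS => ?_⟩
    refine (hS (2 * δ) (by linarith) a.1 dir J a.2 hJ).trans (mul_le_mul_left (ENNReal.ofReal_le_ofReal ?_) _)
    have h4 : (2 : ℝ) * (2 * C) ^ J ≤ (2 * (2 * C)) ^ J := by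
      rw [mul_pow 2 (2 * C)]
      have h5 : (2 : ℝ) ≤ 2 ^ J := by
        calc (2 : ℝ) = 2 ^ 1 := (pow_one 2).symm
          _ ≤ 2 ^ J := pow_le_pow_right₀ (by norm_num) (by omega)
      gcongr
    calc (2 * C) ^ J * (2 * δ) = (2 * (2 * C) ^ J) * δ := by ring
      _ ≤ (2 * (2 * C)) ^ J * δ := mul_le_mul_of_nonneg_right h4 hδ.le
  · -- monotone
    exact fun kc R δ δ' h hd ε hε N dir J hN hJ => h ε (by linarith) N dir J hN hJ
  · -- the crowds
    intro mu
    obtain ⟨k2, m0, C0, hC0, hm0, h⟩ := rbx_norm mu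
    refine ⟨k0 + k1 + k2, 2 * m0 + M0 + 2, C0 * 2 ^ (M0 + 1), by positivity, fun kc m hk hm => ?_⟩
    obtain ⟨a, b, hab, ha, hb, hm2⟩ : ∃ a b : ℕ, m = a + (M0 + b) ∧ m0 ≤ a ∧ m0 ≤ b ∧ m ≤ 2 * a + (M0 + 1) ∧ a ≤ b :=
      ⟨(m - M0) / 2, m - M0 - (m - M0) / 2, by omega, by omega, by omega, by omega, by omega⟩
    have hne : ∀ n, m0 ≤ n → [] ∉ RBx kc mu n := by
      intro n hn hcon
      have := rbx_len hcon
      rw [List.length_nil] at this
      omega
    have hnum : ∀ n, a ≤ n → C0 / 4 ^ n ≤ C0 * 2 ^ (M0 + 1) / 2 ^ m := by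
      intro n hn
      rw [div_le_div_iff₀ (by positivity) (by positivity)]
      have h3 : (2 : ℝ) ^ m ≤ 2 ^ (M0 + 1) * 4 ^ n := by
        have h4 : (4 : ℝ) ^ n = 2 ^ (2 * n) := by
          rw [pow_mul]
          norm_num
        rw [h4, ← pow_add]
        exact pow_le_pow_right₀ (by norm_num) (by omega)
      calc C0 * 2 ^ m ≤ C0 * (2 ^ (M0 + 1) * 4 ^ n) := mul_le_mul_of_nonneg_left h3 hC0.le
        _ = C0 * 2 ^ (M0 + 1) * 4 ^ n := by ring
    refine src_of (R1 := RBx kc mu a) (R2 := RBx kc mu b) hC hw (fun N J R1 R2 δ h1 h2 h3 h4 h5 h6 h7 =>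
      hM N kc J R1 R2 δ h1 (by omega) h2 h3 h4 h5 h6 h7)
      (fun N K dir R t X Y w c h1 h2 h3 h4 => hD N K kc dir R t X Y w c (by omega) h1 h2 h3 h4) (by positivity)
      (hne a ha) (hne b hb) (TI.SmR_mono (h kc a (by omega) ha) (hnum a le_rfl))
      (TI.SmR_mono (h kc b (by omega) hb) (hnum b hm2.2)) ?_
    intro gs hgs _
    rw [hab] at hgs
    exact rbx_split hgs
  · -- the fills
    obtain ⟨K, hK, h⟩ := smR_fill
    refine ⟨K, M0 + 3, 1, k0 + k1, hK, fun kc mu m1 J S δ hk hδ hS => ?_⟩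
    have h1 := h kc mu m1 J S δ hδ hS
    have h2 : SmR DmJ kc {r | r ∈ RFill kc mu m1 J S ∧ r ≠ []} ((K * 2 ^ mu) ^ (m1 + 1) * δ ^ J) :=
      NTA.SmR_mono (fun r hr => hr.1) h1
    have hne : [] ∉ {r | r ∈ RFill kc mu m1 J S ∧ r ≠ []} := fun hcon => hcon.2 rfl
    exact src_of hC hw (fun N J R1 R2 δ h1 h2 h3 h4 h5 h6 h7 => hM N kc J R1 R2 δ h1 (by omega) h2 h3 h4 h5 h6 h7)
      (fun N K dir R t X Y w c h1 h2 h3 h4 => hD N K kc dir R t X Y w c (by omega) h1 h2 h3 h4)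
      (by have : 0 ≤ K := by linarith
          positivity) hne hne h2 h2 (fun gs hgs _ => fill_split hgs)
  · -- the crude bound
    obtain ⟨D, hD', h⟩ := wl_crude
    refine ⟨D * (Cw * (1 + w 0)), one_le_mul_of_one_le_of_one_le hD' (one_le_mul_of_one_le_of_one_le hCw (by linarith)),
      fun a K => ?_⟩
    have h1 := nu_low hw hCw hw1 a.2 K
    have h3 : 0 < (Cw * (1 + w 0)) ^ (K + 1) := by positivity
    have h2 : gf (EC a.1 K) ≤ gf (WL K) := gf_mono fun t ht => ht.1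
    refine h2.trans ((h K).trans ?_)
    rw [← ENNReal.ofReal_mul (by positivity)]
    refine ENNReal.ofReal_le_ofReal ?_
    rw [mul_pow]
    have h4 : 0 ≤ D ^ (K + 1) := by positivity
    calc D ^ (K + 1) = D ^ (K + 1) * ((Cw * (1 + w 0)) ^ (K + 1) * (1 / (Cw * (1 + w 0)) ^ (K + 1))) := by
          rw [mul_one_div_cancel h3.ne', mul_one]
      _ ≤ D ^ (K + 1) * ((Cw * (1 + w 0)) ^ (K + 1) * ((a.1 : ℕ) / w K)) := by gcongr
      _ = _ := by ring
  · -- from below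
    refine ⟨Cw * (1 + w 0), one_le_mul_of_one_le_of_one_le hCw (by linarith), fun a K => ?_⟩
    exact ENNReal.ofReal_le_ofReal (nu_low hw hCw hw1 a.2 K)

/-- **the closed words in a small box** -/
theorem closed_small {m w : ℕ → ℝ} (hw : ∀ k, 0 < w k) {Cw : ℝ} (hCw : 1 ≤ Cw) (hw1 : ∀ k, w (k + 1) ≤ Cw * w k)
    (hT : TailQ m) (hM : MasterP w) (hD : DirC) : ∀ Q : ℕ, ∃ A : ℝ, 1 ≤ A ∧ ∀ (N K : ℕ) (lam : ℝ), 1 ≤ N → 1 ≤ lam →
      lam * m K + 1 ≤ N → gf (WC N K) ≤ ENNReal.ofReal (A / lam ^ Q * (N / w K)) := by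
  obtain ⟨C0, hE⟩ := ens_closed hw hCw hw1 hM hD
  obtain ⟨C, hC, h⟩ := hT _ _ _ hE
  intro Q
  obtain ⟨A, hA, h⟩ := h Q
  refine ⟨2 * A, by linarith, fun N K lam hN hlam hlen => ?_⟩
  have h1 := h ⟨N, hN⟩ K K lam le_rfl hlam
  have h2 : gf (WC N K) ≤ 2 * gf {t | t ∈ EC N K ∧ ∃ u z, Bx (K + 2) t u z ∧ lam * m K ≤ (z : ℝ) - u} := by
    refine rem_letter hN fun t c htc => ?_
    have ht := wl_of_wc htc
    refine ⟨⟨ht, c, htc⟩, 0, t.length, bx_all ht, ?_⟩
    have h3 : (t ++ [c]).length = N := htc.1.1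
    rw [List.length_append, List.length_singleton] at h3
    rw [← h3] at hlen
    push_cast at hlen ⊢
    linarith
  refine h2.trans ((mul_le_mul_right h1 2).trans ?_)
  have h3 : (2 : ℝ≥0∞) = ENNReal.ofReal 2 := by norm_num
  have h5 : 0 ≤ A / lam ^ Q * C ^ (K - K) := by
    have : 0 ≤ lam := by linarith
    positivity
  rw [h3, ← ENNReal.ofReal_mul h5, ← ENNReal.ofReal_mul (by norm_num), Nat.sub_self, pow_zero, mul_one]
  refine ENNReal.ofReal_le_ofReal (le_of_eq ?_)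
  show 2 * (A / lam ^ Q * ((N : ℝ) / w K)) = 2 * A / lam ^ Q * (N / w K)
  ring

end POL

end HexObs
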