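import Pool.Agent.POL.Fin
import Pool.Agent.POL.Low5

/-!
POL / FinA (helper32): the number of the self-avoiding polygons and the closing probability, every length.
-/

set_option autoImplicit false

namespace HexObs

namespace POL

open Finset TS SDN NTW NTA SIM JNT

open scoped ENNReal

/-- the number of the public polygons, both sides -/
theorem count : ∃ c C : ℝ, 0 < c ∧ 0 < C ∧ ∀ f : ℕ → Fin 3 → ℂ, MS.Hex f → ∀ n : ℕ, 9 ≤ n → ¬ Even n →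
    c * ((n : ℝ) ^ (-(3 / 2) : ℝ) * POLP.mu ^ n) ≤ ((PGX.Pol f n).card : ℝ) ∧
    ((PGX.Pol f n).card : ℝ) ≤ C * ((n : ℝ) ^ (-(3 / 2) : ℝ) * POLP.mu ^ n) := by
  obtain ⟨c, N1, hc, hlow⟩ := low_cy
  obtain ⟨C, N2, hC, hup⟩ := upper
  obtain ⟨c', hc', h1⟩ := POLP.pub_low hc hlow
  obtain ⟨C', hC', h2⟩ := POLP.pub_up hC fun N hN _ => (hup N hN).1
  exact ⟨c', C', hc', hC', fun f hf n hn ho => ⟨h1 f hf n hn ho, h2 f hf n hn ho⟩⟩

/-- the number of the polygons and the closing probability, from the number of the walks -/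
theorem finA_of (hA : ∃ a A : ℝ, 0 < a ∧ 0 < A ∧ ∀ n : ℕ, 1 ≤ n →
      a * (muB ^ n * (n : ℝ) ^ ((11 : ℝ) / 32)) ≤ (aB n : ℝ) ∧
      (aB n : ℝ) ≤ A * (muB ^ n * (n : ℝ) ^ ((11 : ℝ) / 32))) :
    ∃ c C : ℝ, 0 < c ∧ ∀ f : ℕ → Fin 3 → ℂ, MS.Hex f → ∀ n : ℕ, 9 ≤ n → ¬ Even n →
      (c * (n : ℝ) ^ (-(3 / 2) : ℝ) * POLP.mu ^ n ≤ ((PGX.Pol f n).card : ℝ) ∧
        ((PGX.Pol f n).card : ℝ) ≤ C * (n : ℝ) ^ (-(3 / 2) : ℝ) * POLP.mu ^ n) ∧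
      (c * (n : ℝ) ^ (-(59 / 32) : ℝ) ≤ ((PGX.Pol f n).card : ℝ) / ((MS.SW f n).card : ℝ) ∧
        ((PGX.Pol f n).card : ℝ) / ((MS.SW f n).card : ℝ) ≤ C * (n : ℝ) ^ (-(59 / 32) : ℝ)) := by
  obtain ⟨a, A, ha, -, hA⟩ := hA
  obtain ⟨c1, C1, hc1, hC1, h1⟩ := count
  obtain ⟨c2, C2, hc2, h2⟩ := POLP.closing hc1 ha hA h1
  have hmu := POLP.mu_pos
  refine ⟨min c1 c2, max C1 C2, by positivity, fun f hf n hn ho => ⟨⟨?_, ?_⟩, ?_, ?_⟩⟩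
  · refine le_trans ?_ (h1 f hf n hn ho).1
    rw [← mul_assoc]
    gcongr
    exact min_le_left _ _
  · refine (h1 f hf n hn ho).2.trans ?_
    rw [← mul_assoc]
    gcongr
    exact le_max_left _ _
  · refine le_trans ?_ (h2 f hf n hn ho).1
    gcongr
    exact min_le_right _ _
  · refine (h2 f hf n hn ho).2.trans ?_
    gcongr
    exact le_max_right _ _

end POL

end HexObs

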