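import Pool.Agent.POL.Norms
import Pool.Agent.EN.GBNum

/-!
POL, U5: the norms of all levels. Levels D_i = D0 * 2 ^ i; the first level at which three leaves of the window are good: one of
them is the root, one has the label, the others are bad at the level before; last level: no root, no label (helper25).
-/

set_option autoImplicit false

namespace HexObs

namespace POL

open Finset TS SDN NTW NTA EN JNT

open scoped ENNReal

/-- the box of the leaves -/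
abbrev Bx2 (k J : ℕ) : Set (List Bool) := BrR (2 ^ (k + 4)) (2 ^ (k + J + 2))

/-- at most M leaves, one of them in G, then a run of R2 -/
def NAg (k J M : ℕ) (R2 : Set (List (List Bool))) (G : Set (List Bool)) : Set (List (List Bool)) :=
  {gs | ∃ ps r : List (List Bool), gs = ps ++ r ∧ r ∈ R2 ∧ r ≠ [] ∧ (∀ x ∈ gs, x ∈ Bx2 k J) ∧ ps.length ≤ M ∧
    ∃ g ∈ ps, g ∈ G}

/-- a run of R1, then at most M leaves, one of them in G -/
def NAr (k J M : ℕ) (R1 : Set (List (List Bool))) (G : Set (List Bool)) : Set (List (List Bool)) :=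
  {gs | ∃ r ps : List (List Bool), gs = r ++ ps ∧ r ∈ R1 ∧ r ≠ [] ∧ (∀ x ∈ gs, x ∈ Bx2 k J) ∧ ps.length ≤ M ∧
    ∃ g ∈ ps, g ∈ G}

open scoped Classical in
/-- at most M leaves, one of them in G, about half of them not in G', and then a run of R2 or before them a run of R1 -/
def NBg (k J M : ℕ) (R1 R2 : Set (List (List Bool))) (G' G : Set (List Bool)) : Set (List (List Bool)) :=
  {gs | ∃ ps r : List (List Bool), r ≠ [] ∧ (∀ x ∈ gs, x ∈ Bx2 k J) ∧ ps.length ≤ M ∧ (∃ g ∈ ps, g ∈ G) ∧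
    M ≤ 2 * ((ps.filter (fun x => decide (x ∉ G'))).length + 5) ∧ ((r ∈ R2 ∧ gs = ps ++ r) ∨ (r ∈ R1 ∧ gs = r ++ ps))}

open scoped Classical in
/-- a run of R1 and then M leaves, all but two not in G -/
def NZ (k J M : ℕ) (R1 : Set (List (List Bool))) (G : Set (List Bool)) : Set (List (List Bool)) :=
  {gs | ∃ r ps : List (List Bool), gs = r ++ ps ∧ r ∈ R1 ∧ r ≠ [] ∧ (∀ x ∈ gs, x ∈ Bx2 k J) ∧ ps.length = M ∧
    M ≤ (ps.filter (fun x => decide (x ∉ G))).length + 2}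

/-- the last level -/
lemma last_level2 (s3 D0 k : ℕ) (hs : 1 ≤ s3) (hD : 1 ≤ D0) (hk : s3 * (D0 + 1) ≤ k) :
    ∃ I : ℕ, s3 * (D0 * 2 ^ I + 1) ≤ k ∧ k ≤ 4 * s3 * (D0 * 2 ^ I) := by
  classical
  have hex : ∃ i : ℕ, k < s3 * (D0 * 2 ^ (i + 1) + 1) := by
    refine ⟨k, ?_⟩
    have h1 := Nat.lt_two_pow_self (n := k)
    have h2 : 2 ^ (k + 1) ≤ D0 * 2 ^ (k + 1) := Nat.le_mul_of_pos_left _ hD
    have h3 : 2 ^ (k + 1) = 2 * 2 ^ k := by rw [pow_succ']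
    have h4 : D0 * 2 ^ (k + 1) + 1 ≤ s3 * (D0 * 2 ^ (k + 1) + 1) := Nat.le_mul_of_pos_left _ hs
    omega
  have h1 := Nat.find_spec hex
  obtain ⟨I, hI⟩ : ∃ I, I = Nat.find hex := ⟨_, rfl⟩
  rw [← hI] at h1
  refine ⟨I, ?_, ?_⟩
  · rcases Nat.eq_zero_or_pos I with h0 | h0
    · rw [h0, pow_zero, mul_one]
      exact hk
    · have h2 := Nat.find_min hex (m := I - 1) (by omega)
      rw [not_lt, show I - 1 + 1 = I by omega] at h2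
      exact h2
  · have h2 : 1 ≤ D0 * 2 ^ I := Nat.mul_pos hD (Nat.pos_of_ne_zero (by positivity))
    have e1 : D0 * 2 ^ (I + 1) = 2 * (D0 * 2 ^ I) := by rw [pow_succ]; ring
    rw [e1] at h1
    nlinarith

section

variable {Λ : Type} {lab : List Bool → Λ} {kc J M : ℕ} {G G' : Set (List Bool)}
  {R1 R2 : Set (List (List Bool))} {q b' a d d1 d2 : ℝ}

/-- the windows with at most M leaves -/
lemma smRL_WinB_le (ha : 0 ≤ a) (hb : 0 ≤ b') (hq : 1 ≤ q) (hd : 0 ≤ d)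
    (hG : SmDL lab DmJ kc {g | g ∈ Bx2 kc J ∧ g ∈ G} a) (hB : SmD DmJ kc (Bx2 kc J \ G') b')
    (hA : SmD DmJ kc (Bx2 kc J) q) (hR : SmR DmJ kc R1 d) (b : ℕ) :
    SmRL lab DmJ kc {gs | ∃ n, n < M + 1 ∧ gs ∈ WinB (Bx2 kc J) G G' R1 n b}
      (2 * (M + 1) * (4 * q) ^ M * (a * b' ^ b) * d) := by
  have hq0 : 0 ≤ q := by linarith
  refine SmRL.le (smRL_sum (Rf := fun n => WinB (Bx2 kc J) G G' R1 n b)
    (df := fun n => 2 * ((4 * q) ^ n * (a * b' ^ b) * d)) (M + 1) (fun i _ => by positivity)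
    (fun i _ => smRL_WinB dmP inH_box ha hb hq hd hG hB hA hR i b)) ?_
  have h1 : ∀ i ∈ range (M + 1), 2 * ((4 * q) ^ i * (a * b' ^ b) * d) ≤ 2 * ((4 * q) ^ M * (a * b' ^ b) * d) := by
    intro i hi
    rw [Finset.mem_range] at hi
    have h2 : (4 * q) ^ i ≤ (4 * q) ^ M := pow_le_pow_right₀ (by linarith) (by omega)
    gcongr
  refine (Finset.sum_le_sum h1).trans (le_of_eq ?_)
  rw [Finset.sum_const, Finset.card_range, nsmul_eq_mul]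
  push_cast
  ring

open scoped Classical in
lemma split_filter {ps : List (List Bool)} {g : List Bool} (hg : g ∈ ps) (X : Set (List Bool)) {b : ℕ}
    (hb : b + 1 ≤ (ps.filter (fun x => decide (x ∉ X))).length) :
    ∃ (ls rs : List (List Bool)) (b1 b2 : ℕ), ps = ls ++ g :: rs ∧ b ≤ b1 + b2 ∧
      (∃ l : List (List Bool), l.Sublist ls ∧ l.length = b1 ∧ ∀ x ∈ l, x ∉ X) ∧
      ∃ l : List (List Bool), l.Sublist rs ∧ l.length = b2 ∧ ∀ x ∈ l, x ∉ X := by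
  obtain ⟨ls, rs, rfl⟩ := List.append_of_mem hg
  refine ⟨ls, rs, (ls.filter (fun x => decide (x ∉ X))).length, (rs.filter (fun x => decide (x ∉ X))).length, rfl, ?_,
    ⟨_, List.filter_sublist, rfl, fun x hx => ?_⟩, ⟨_, List.filter_sublist, rfl, fun x hx => ?_⟩⟩
  · rw [List.filter_append, List.length_append] at hb
    have h1 : ((g :: rs).filter (fun x => decide (x ∉ X))).length ≤ (rs.filter (fun x => decide (x ∉ X))).length + 1 := by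
      rw [List.filter_cons]
      split_ifs
      · rw [List.length_cons]
      · omega
    omega
  · simpa using (List.mem_filter.1 hx).2
  · simpa using (List.mem_filter.1 hx).2

theorem smRL_NA (ha : 0 ≤ a) (hq : 1 ≤ q) (hd : 0 ≤ d)
    (hG : SmDL lab DmJ kc {g | g ∈ Bx2 kc J ∧ g ∈ G} a) (hA : SmD DmJ kc (Bx2 kc J) q) (hR : SmR DmJ kc R2 d) :
    SmRL lab DmJ kc (NAg kc J M R2 G) (2 * (M + 1) * (4 * q) ^ M * a * d) := by
  have h := smRL_WinB_le (M := M) (G' := ∅) ha (by linarith : (0 : ℝ) ≤ q) hq hd hG (QF.SmD_mono (fun g hg => hg.1) hA) hA hR 0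
  rw [pow_zero, mul_one] at h
  refine SmRL.anti h ?_
  rintro gs ⟨ps, r, rfl, h1, h2, h3, h4, g, h5, h6⟩
  obtain ⟨ls, rs, rfl⟩ := List.append_of_mem h5
  refine ⟨_, by omega, ls ++ g :: rs, r, ls, rs, g, 0, 0, Or.inl rfl, h1, h2, fun x hx => h3 x (by simp [hx]), rfl,
    fun x hx => h3 x (List.mem_append_left _ hx), rfl, h6, le_rfl, ⟨[], List.nil_sublist _, rfl, by simp⟩,
    ⟨[], List.nil_sublist _, rfl, by simp⟩⟩

theorem smRL_NAr (ha : 0 ≤ a) (hq : 1 ≤ q) (hd : 0 ≤ d)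
    (hG : SmDL lab DmJ kc {g | g ∈ Bx2 kc J ∧ g ∈ G} a) (hA : SmD DmJ kc (Bx2 kc J) q) (hR : SmR DmJ kc R1 d) :
    SmRL lab DmJ kc (NAr kc J M R1 G) (2 * (M + 1) * (4 * q) ^ M * a * d) := by
  have h := smRL_WinB_le (M := M) (G' := ∅) ha (by linarith : (0 : ℝ) ≤ q) hq hd hG (QF.SmD_mono (fun g hg => hg.1) hA) hA hR 0
  rw [pow_zero, mul_one] at h
  refine SmRL.anti h ?_
  rintro gs ⟨r, ps, rfl, h1, h2, h3, h4, g, h5, h6⟩
  obtain ⟨ls, rs, rfl⟩ := List.append_of_mem h5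
  refine ⟨_, by omega, ls ++ g :: rs, r, ls, rs, g, 0, 0, Or.inr rfl, h1, h2, fun x hx => h3 x (by simp [hx]), rfl,
    fun x hx => h3 x (List.mem_append_right _ hx), rfl, h6, le_rfl, ⟨[], List.nil_sublist _, rfl, by simp⟩,
    ⟨[], List.nil_sublist _, rfl, by simp⟩⟩

theorem smRL_NB (ha : 0 ≤ a) (hb : 0 ≤ b') (hq : 1 ≤ q) (hd1 : 0 ≤ d1) (hd2 : 0 ≤ d2)
    (hG : SmDL lab DmJ kc {g | g ∈ Bx2 kc J ∧ g ∈ G} a) (hB : SmD DmJ kc (Bx2 kc J \ G') b')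
    (hA : SmD DmJ kc (Bx2 kc J) q) (hR1 : SmR DmJ kc R1 d1) (hR2 : SmR DmJ kc R2 d2) (b : ℕ) (hM : 2 * b + 11 < M) :
    SmRL lab DmJ kc (NBg kc J M R1 R2 G' G) (2 * (M + 1) * (4 * q) ^ M * (a * b' ^ b) * (d1 + d2)) := by
  classical
  refine SmRL.anti (smRL_WinB_le (M := M) ha hb hq (add_nonneg hd1 hd2) hG hB hA (smR_union hd1 hd2 hR1 hR2) b) ?_
  rintro gs ⟨ps, r, h2, h3, h4, ⟨g, h5, h6⟩, h7, h1⟩
  obtain ⟨ls, rs, b1, b2, h8, h9, h10, h11⟩ := split_filter h5 G' (b := b) (by omega)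
  rcases h1 with ⟨hr, rfl⟩ | ⟨hr, rfl⟩
  · exact ⟨_, by omega, ps, r, ls, rs, g, b1, b2, Or.inl rfl, Or.inr hr, h2, fun x hx => h3 x (by simp [hx]), rfl,
      fun x hx => h3 x (by simp [hx]), h8, h6, h9, h10, h11⟩
  · exact ⟨_, by omega, ps, r, ls, rs, g, b1, b2, Or.inr rfl, Or.inl hr, h2, fun x hx => h3 x (by simp [hx]), rfl,
      fun x hx => h3 x (by simp [hx]), h8, h6, h9, h10, h11⟩

theorem smR_NZ (hb : 0 ≤ b') (hq : 1 ≤ q) (hd1 : 0 ≤ d1) (hB : SmD DmJ kc (Bx2 kc J \ G) b')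
    (hA : SmD DmJ kc (Bx2 kc J) q) (hR1 : SmR DmJ kc R1 d1) :
    SmR DmJ kc (NZ kc J M R1 G) (3 * ((3 * q) ^ M * b' ^ (M - 2) * d1)) := by
  classical
  refine smR_anti ?_ (smR_WinU dmP inH_box hb hq hd1 hB hA hR1 M (M - 2))
  rintro gs ⟨r, ps, rfl, h1, h2, h3, h4, h5⟩
  have h6 : M - 2 ≤ (ps.filter (fun x => decide (x ∉ G))).length := by omega
  refine ⟨ps, r, Or.inr rfl, h1, h2, fun x hx => h3 x (by simp [hx]), h4, fun x hx => h3 x (by simp [hx]),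
    (ps.filter (fun x => decide (x ∉ G))).take (M - 2), (List.take_sublist _ _).trans List.filter_sublist, ?_, fun x hx => ?_⟩
  · rw [List.length_take]
    omega
  · have h7 := (List.mem_filter.1 (List.mem_of_mem_take hx)).2
    simpa using h7

end

/-- the numbers -/
lemma num_all {B Cm Cx : ℝ} (hB : 1 ≤ B) (hCm : 1 ≤ Cm) (hCx : 1 ≤ Cx) (s3 : ℕ) :
    ∃ M : ℕ, 14 ≤ M ∧ ∀ (W w0 : ℝ) (k D0 I : ℕ), 0 < W → 0 < w0 → W ≤ Cm ^ k * w0 → 1 ≤ D0 → D0 ≤ k →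
      k ≤ 4 * s3 * (D0 * 2 ^ I) →
      (∑ i ∈ range I, (B * Cx) ^ (D0 * 2 ^ (i + 1)) * (1 / 2 ^ (D0 * 2 ^ i)) ^ ((M - 12) / 2) ≤ 1 / 2 ^ D0) ∧
      Cx ^ k * (1 / 2 ^ (D0 * 2 ^ I)) ^ (M - 2) ≤ w0 / (W * 2 ^ D0) := by
  obtain ⟨j1, hj1⟩ := pow_unbounded_of_one_lt (4 * (B * Cx) ^ 2) (show (1 : ℝ) < 2 by norm_num)
  obtain ⟨j2, hj2⟩ := pow_unbounded_of_one_lt ((2 * (Cx * Cm)) ^ (4 * s3)) (show (1 : ℝ) < 2 by norm_num)
  refine ⟨2 * j1 + j2 + 14, by omega, fun W w0 k D0 I hW hw0 hWk hD hDk hk => ⟨?_, ?_⟩⟩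
  · have hBC : 0 < B * Cx := by positivity
    have h1 : ∀ i ∈ range I, (B * Cx) ^ (D0 * 2 ^ (i + 1)) * (1 / 2 ^ (D0 * 2 ^ i)) ^ ((2 * j1 + j2 + 14 - 12) / 2) ≤
        1 / 2 ^ D0 * ((1 : ℝ) / 2) ^ (2 ^ i) := by
      intro i _
      obtain ⟨b, hb⟩ : ∃ b, b = (2 * j1 + j2 + 14 - 12) / 2 := ⟨_, rfl⟩
      rw [← hb]
      have hb1 : j1 ≤ b := by omega
      have e1 : (B * Cx) ^ (D0 * 2 ^ (i + 1)) * (1 / 2 ^ (D0 * 2 ^ i)) ^ b = ((B * Cx) ^ 2 / 2 ^ b) ^ (D0 * 2 ^ i) := by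
        have e2 : D0 * 2 ^ (i + 1) = 2 * (D0 * 2 ^ i) := by rw [pow_succ]; ring
        have e3 : ((2 : ℝ) ^ (D0 * 2 ^ i)) ^ b = (2 ^ b) ^ (D0 * 2 ^ i) := by rw [← pow_mul, ← pow_mul, mul_comm]
        rw [e2, pow_mul (B * Cx) 2, div_pow 1, one_pow, e3, div_pow, mul_one_div]
      rw [e1]
      have h2 : (B * Cx) ^ 2 / 2 ^ b ≤ 1 / 4 := by
        rw [div_le_div_iff₀ (by positivity) (by norm_num)]
        have h3 : (2 : ℝ) ^ j1 ≤ 2 ^ b := pow_le_pow_right₀ (by norm_num) hb1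
        linarith
      calc ((B * Cx) ^ 2 / 2 ^ b) ^ (D0 * 2 ^ i) ≤ (1 / 4) ^ (D0 * 2 ^ i) := pow_le_pow_left₀ (by positivity) h2 _
        _ = (1 / 2) ^ (D0 * 2 ^ i) * (1 / 2) ^ (D0 * 2 ^ i) := by
            rw [← mul_pow]
            norm_num
        _ ≤ (1 / 2) ^ D0 * (1 / 2) ^ (2 ^ i) := by
            apply mul_le_mul
            · exact pow_le_pow_of_le_one (by norm_num) (by norm_num) (Nat.le_mul_of_pos_right _ (by positivity))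
            · exact pow_le_pow_of_le_one (by norm_num) (by norm_num) (Nat.le_mul_of_pos_left _ hD)
            · positivity
            · positivity
        _ = _ := by rw [one_div_pow]
    refine (Finset.sum_le_sum h1).trans ?_
    rw [← Finset.mul_sum]
    exact mul_le_of_le_one_right (by positivity) (half_tower I)
  · obtain ⟨Mm, hMm⟩ : ∃ Mm, Mm = 2 * j1 + j2 + 14 - 2 := ⟨_, rfl⟩
    rw [← hMm]
    have hM2 : j2 ≤ Mm := by omega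
    have h1 : (2 * (Cx * Cm)) ^ k ≤ ((2 : ℝ) ^ (D0 * 2 ^ I)) ^ Mm := by
      calc (2 * (Cx * Cm)) ^ k ≤ (2 * (Cx * Cm)) ^ (4 * s3 * (D0 * 2 ^ I)) :=
            pow_le_pow_right₀ (by nlinarith [one_le_mul_of_one_le_of_one_le hCx hCm]) hk
        _ = ((2 * (Cx * Cm)) ^ (4 * s3)) ^ (D0 * 2 ^ I) := by rw [pow_mul]
        _ ≤ ((2 : ℝ) ^ Mm) ^ (D0 * 2 ^ I) := by
            apply pow_le_pow_left₀ (by positivity)
            exact hj2.le.trans (pow_le_pow_right₀ (by norm_num) hM2)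
        _ = _ := by rw [← pow_mul, ← pow_mul, mul_comm]
    have h2 : (2 : ℝ) ^ D0 ≤ 2 ^ k := pow_le_pow_right₀ (by norm_num) hDk
    rw [div_pow, one_pow, mul_one_div, div_le_div_iff₀ (by positivity) (by positivity)]
    have h3 : Cx ^ k * (W * 2 ^ D0) ≤ w0 * (2 * (Cx * Cm)) ^ k := by
      calc Cx ^ k * (W * 2 ^ D0) ≤ Cx ^ k * (Cm ^ k * w0 * 2 ^ k) := by gcongr
        _ = w0 * (2 * (Cx * Cm)) ^ k := by rw [mul_pow, mul_pow]; ring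
    exact h3.trans (mul_le_mul_of_nonneg_left h1 hw0.le)

/-- the norms of all classes of runs of the window, generic label -/
def NormG {Λ : Type} (lab : List Bool → Λ) (w : ℕ → ℝ) : Prop := ∃ s1 s2 s3 : ℕ, 1 ≤ s1 ∧ 1 ≤ s2 ∧ 2 * (s1 + s2) ≤ s3 ∧
  ∀ Cx : ℝ, 1 ≤ Cx → ∃ (M k0 : ℕ) (C : ℝ), 1 ≤ C ∧ 6 ≤ M ∧ ∀ k D0 : ℕ, k0 ≤ k → 1 ≤ D0 → s3 * (D0 + 1) ≤ k →
    ∃ (I : ℕ) (G : ℕ → Set (List Bool)), (∀ i ≤ I, s3 * (D0 * 2 ^ i + 1) ≤ k ∧ G i ⊆ RtS s1 s2 k (D0 * 2 ^ i)) ∧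
      ∀ (J : ℕ) (R1 R2 : Set (List (List Bool))) (d1 d2 : ℝ), 6 ≤ J → 0 < d1 → 0 < d2 →
      SmR DmJ k R1 d1 → SmR DmJ k R2 d2 → ∃ (x : ℕ → ℝ) (x1 y : ℝ), (∀ i ≤ I, 0 < x i) ∧ 0 < x1 ∧ 0 < y ∧
        SmRL lab DmJ k (NAg k J M R2 (G 0)) (x 0) ∧ SmRL lab DmJ k (NAr k J M R1 (G 0)) x1 ∧
        (∀ i, 1 ≤ i → i ≤ I → SmRL lab DmJ k (NBg k J M R1 R2 (G (i - 1)) (G i)) (x i)) ∧
        SmR DmJ k (NZ k J M R1 (G I)) y ∧
        Cx ^ D0 * x 0 ≤ C ^ (J + D0) * d2 / w k ∧ Cx ^ D0 * x1 ≤ C ^ (J + D0) * d1 / w k ∧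
        ∑ i ∈ Icc 1 I, Cx ^ (D0 * 2 ^ i) * x i + Cx ^ k * y ≤ C ^ (J + 1) / 2 ^ D0 * (d1 + d2) / w k

/-- **U5: the norms of all levels** -/
theorem normG_of {Λ : Type} {lab : List Bool → Λ} {w : ℕ → ℝ} (hlab : LabM lab) (hm : ∀ k, 0 < w k) (hu : MUp w)
    (hJ : JoG lab w) : NormG lab w := by
  classical
  obtain ⟨s1, s2, s3, C2, B, G, hs1, hs2, hC2, hB, hs3, hGR, hG⟩ := good_root hlab hm hu hJ
  obtain ⟨Cm, hCm, hup⟩ := hu
  obtain ⟨K, hK, hbox⟩ := smD_box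
  have hw0 := hm 0
  have hmk : ∀ k, w k ≤ Cm ^ k * w 0 := by
    intro k
    induction k with
    | zero => simp
    | succ k ih =>
      calc w (k + 1) ≤ Cm * w k := hup k
        _ ≤ Cm * (Cm ^ k * w 0) := by gcongr
        _ = Cm ^ (k + 1) * w 0 := by rw [pow_succ']; ring
  refine ⟨s1, s2, s3, hs1, hs2, by omega, fun Cx hCx => ?_⟩
  obtain ⟨M, hM, hnum⟩ := num_all hB hCm hCx s3
  obtain ⟨C3, hC3⟩ : ∃ C3 : ℝ, C3 = (4 * (M + 1)) * (8 * K) ^ M * C2 ^ M := ⟨_, rfl⟩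
  have hC3a : 1 ≤ (8 * K) ^ M := one_le_pow₀ (by linarith)
  have hC3b : 1 ≤ C2 ^ M := one_le_pow₀ hC2
  have hC3c : (1 : ℝ) ≤ 4 * (M + 1) := by
    have : (0 : ℝ) ≤ M := Nat.cast_nonneg _
    linarith
  have hC31 : 1 ≤ C3 := by
    rw [hC3]
    exact one_le_mul_of_one_le_of_one_le (one_le_mul_of_one_le_of_one_le hC3c hC3a) hC3b
  have hBC : 1 ≤ B * Cx := one_le_mul_of_one_le_of_one_le hB hCx
  obtain ⟨C, hC⟩ : ∃ C : ℝ, C = C3 * (B * Cx) * (1 + w 0) := ⟨_, rfl⟩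
  have hC1 : 1 ≤ C := by
    rw [hC]
    exact one_le_mul_of_one_le_of_one_le (one_le_mul_of_one_le_of_one_le hC31 hBC) (by linarith)
  have hCa : C3 * (B * Cx) ≤ C := by
    rw [hC]
    have : 0 ≤ C3 * (B * Cx) := by positivity
    nlinarith
  have hCb : C3 ≤ C := by
    have : C3 ≤ C3 * (B * Cx) := by nlinarith
    linarith
  have hCc : C3 * (1 + w 0) ≤ C := by
    rw [hC]
    have h1 : C3 ≤ C3 * (B * Cx) := by nlinarith
    nlinarith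
  have hCd : B * Cx ≤ C := by
    have : B * Cx ≤ C3 * (B * Cx) := by nlinarith
    linarith
  refine ⟨M, 0, C, hC1, by omega, fun k D0 _ hD0 hk => ?_⟩
  obtain ⟨I, hI, hkI⟩ := last_level2 s3 D0 k (by omega) hD0 hk
  have hDk : D0 ≤ k := by
    have h1 : D0 + 1 ≤ s3 * (D0 + 1) := Nat.le_mul_of_pos_left _ (by omega)
    omega
  have hwk := hm k
  obtain ⟨hsum, hlast⟩ := hnum (w k) (w 0) k D0 I hwk hw0 (hmk k) hD0 hDk hkI
  have hDI : ∀ i, i ≤ I → s3 * (D0 * 2 ^ i + 1) ≤ k := by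
    intro i hi
    have h1 : 2 ^ i ≤ 2 ^ I := Nat.pow_le_pow_right (by norm_num) hi
    have h2 : D0 * 2 ^ i ≤ D0 * 2 ^ I := Nat.mul_le_mul_left _ h1
    have h3 : s3 * (D0 * 2 ^ i + 1) ≤ s3 * (D0 * 2 ^ I + 1) := Nat.mul_le_mul_left _ (by omega)
    omega
  refine ⟨I, fun i => G k (D0 * 2 ^ i), fun i hi => ⟨hDI i hi, hGR _ _⟩, fun J R1 R2 d1 d2 _ hd1 hd2 hR1 hR2 => ?_⟩
  obtain ⟨q, hqd⟩ : ∃ q : ℝ, q = K * 2 ^ J := ⟨_, rfl⟩
  have hq1 : 1 ≤ q := by rw [hqd]; exact one_le_mul_of_one_le_of_one_le hK (one_le_pow₀ (by norm_num))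
  have hq0 : 0 < q := by linarith
  have hAq : SmD DmJ k (Bx2 k J) q := by rw [hqd]; exact hbox k J
  have hC20 : 0 < C2 := by linarith
  have hB0 : 0 < B := by linarith
  have hCx0 : 0 < Cx := by linarith
  -- the constant
  obtain ⟨E, hE⟩ : ∃ E : ℝ, E = 4 * (M + 1) * (4 * q) ^ M * (C2 ^ (J + 1)) ^ M := ⟨_, rfl⟩
  have hE0 : 0 < E := by rw [hE]; positivity
  have hEC : E ≤ C3 ^ (J + 1) := by
    have e1 : 4 * (M + 1 : ℝ) ≤ (4 * (M + 1)) ^ (J + 1) := by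
      calc 4 * (M + 1 : ℝ) = (4 * (M + 1)) ^ 1 := (pow_one _).symm
        _ ≤ _ := pow_le_pow_right₀ hC3c (by omega)
    have e2 : 4 * q ≤ (8 * K) ^ (J + 1) := by
      have h1 : K ≤ K ^ (J + 1) := by
        calc K = K ^ 1 := (pow_one K).symm
          _ ≤ K ^ (J + 1) := pow_le_pow_right₀ hK (by omega)
      have h2 : (4 : ℝ) * 2 ^ J ≤ 8 ^ (J + 1) := by
        have h3 : (2 : ℝ) ^ J ≤ 8 ^ J := pow_le_pow_left₀ (by norm_num) (by norm_num) _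
        have h4 : (0 : ℝ) < 2 ^ J := by positivity
        rw [pow_succ']
        linarith
      rw [hqd]
      calc 4 * (K * 2 ^ J) = K * (4 * 2 ^ J) := by ring
        _ ≤ K ^ (J + 1) * 8 ^ (J + 1) := by gcongr
        _ = (8 * K) ^ (J + 1) := by rw [← mul_pow, mul_comm]
    calc E ≤ (4 * (M + 1)) ^ (J + 1) * ((8 * K) ^ (J + 1)) ^ M * (C2 ^ (J + 1)) ^ M := by
          rw [hE]
          gcongr
      _ = C3 ^ (J + 1) := by
          have e5 : ((8 * K) ^ (J + 1)) ^ M = ((8 * K) ^ M) ^ (J + 1) := by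
            rw [← pow_mul, ← pow_mul, mul_comm (J + 1) M]
          have e6 : (C2 ^ (J + 1)) ^ M = (C2 ^ M) ^ (J + 1) := by rw [← pow_mul, ← pow_mul, mul_comm (J + 1) M]
          rw [hC3, e5, e6, ← mul_pow, ← mul_pow]
  obtain ⟨b, hb⟩ : ∃ b, b = (M - 12) / 2 := ⟨_, rfl⟩
  rw [← hb] at hsum
  have hbM : 2 * b + 11 < M := by omega
  obtain ⟨x, hx⟩ : ∃ x : ℕ → ℝ, x = fun i => if i = 0 then E * (B ^ (D0 * 2 ^ 0) / w k) * d2 else
      E * (B ^ (D0 * 2 ^ i) / w k * (1 / 2 ^ (D0 * 2 ^ (i - 1))) ^ b) * (d1 + d2) := ⟨_, rfl⟩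
  have hx0 : ∀ i, 0 < x i := by
    intro i
    rw [hx]
    simp only
    split_ifs <;> positivity
  have hfst : ∀ d : ℝ, 0 < d → 2 * (M + 1) * (4 * q) ^ M * (C2 ^ (J + 1) * B ^ (D0 * 2 ^ 0) / w k) * d ≤
      E * (B ^ (D0 * 2 ^ 0) / w k) * d := by
    intro d hd
    have h3 : C2 ^ (J + 1) ≤ (C2 ^ (J + 1)) ^ M := by
      calc C2 ^ (J + 1) = (C2 ^ (J + 1)) ^ 1 := (pow_one _).symm
        _ ≤ _ := pow_le_pow_right₀ (one_le_pow₀ hC2) (by omega)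
    calc 2 * (M + 1) * (4 * q) ^ M * (C2 ^ (J + 1) * B ^ (D0 * 2 ^ 0) / w k) * d =
        2 * (M + 1) * (4 * q) ^ M * C2 ^ (J + 1) * (B ^ (D0 * 2 ^ 0) / w k) * d := by ring
      _ ≤ 4 * (M + 1) * (4 * q) ^ M * (C2 ^ (J + 1)) ^ M * (B ^ (D0 * 2 ^ 0) / w k) * d := by
          gcongr
          norm_num
      _ = _ := by rw [hE]
  have hfst2 : ∀ d : ℝ, 0 < d → Cx ^ D0 * (E * (B ^ (D0 * 2 ^ 0) / w k) * d) ≤ C ^ (J + D0) * d / w k := by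
    intro d hd
    rw [pow_zero, mul_one]
    have h1 : E * (B * Cx) ^ D0 ≤ C ^ (J + D0) := by
      obtain ⟨D, rfl⟩ : ∃ D, D0 = D + 1 := ⟨D0 - 1, by omega⟩
      calc E * (B * Cx) ^ (D + 1) ≤ C3 ^ (J + 1) * (B * Cx) ^ (D + 1) := by gcongr
        _ = C3 ^ J * (C3 * (B * Cx)) * (B * Cx) ^ D := by ring
        _ ≤ C ^ J * C * C ^ D := by gcongr
        _ = C ^ (J + (D + 1)) := by ring
    calc Cx ^ D0 * (E * (B ^ D0 / w k) * d) = E * (B * Cx) ^ D0 * d / w k := by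
          rw [mul_pow]
          ring
      _ ≤ _ := by gcongr
  refine ⟨x, E * (B ^ (D0 * 2 ^ 0) / w k) * d1, E * (1 / 2 ^ (D0 * 2 ^ I)) ^ (M - 2) * d1, fun i _ => hx0 i, by positivity,
    by positivity, ?_, ?_, fun i hi1 hi => ?_, ?_, ?_, ?_, ?_⟩
  · -- the first level
    obtain ⟨-, h2⟩ := hG k J (D0 * 2 ^ 0) (hDI 0 (Nat.zero_le _))
    refine SmRL.le (smRL_NA (M := M) (by positivity) hq1 hd2.le h2 hAq hR2) ?_
    rw [hx]
    simp only [if_true]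
    exact hfst d2 hd2
  · obtain ⟨-, h2⟩ := hG k J (D0 * 2 ^ 0) (hDI 0 (Nat.zero_le _))
    exact SmRL.le (smRL_NAr (M := M) (by positivity) hq1 hd1.le h2 hAq hR1) (hfst d1 hd1)
  · -- the other levels
    obtain ⟨-, h2⟩ := hG k J (D0 * 2 ^ i) (hDI i hi)
    obtain ⟨h1, -⟩ := hG k J (D0 * 2 ^ (i - 1)) (hDI (i - 1) (by omega))
    refine SmRL.le (smRL_NB (by positivity) (by positivity) hq1 hd1.le hd2.le h2 h1 hAq hR1 hR2 b hbM) ?_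
    rw [hx]
    simp only
    rw [if_neg (by omega)]
    have h3 : C2 ^ (J + 1) * (C2 ^ (J + 1)) ^ b ≤ (C2 ^ (J + 1)) ^ M := by
      rw [← pow_succ']
      exact pow_le_pow_right₀ (one_le_pow₀ hC2) (by omega)
    have e1 : (C2 ^ (J + 1) * B ^ (D0 * 2 ^ i) / w k * (C2 ^ (J + 1) / 2 ^ (D0 * 2 ^ (i - 1))) ^ b) =
        C2 ^ (J + 1) * (C2 ^ (J + 1)) ^ b * (B ^ (D0 * 2 ^ i) / w k * (1 / 2 ^ (D0 * 2 ^ (i - 1))) ^ b) := by
      rw [div_pow (C2 ^ (J + 1)), div_pow 1, one_pow]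
      ring
    rw [e1]
    have h4 : 0 ≤ (B ^ (D0 * 2 ^ i) / w k * (1 / 2 ^ (D0 * 2 ^ (i - 1))) ^ b) := by positivity
    calc 2 * (M + 1) * (4 * q) ^ M * (C2 ^ (J + 1) * (C2 ^ (J + 1)) ^ b *
          (B ^ (D0 * 2 ^ i) / w k * (1 / 2 ^ (D0 * 2 ^ (i - 1))) ^ b)) * (d1 + d2) =
        2 * (M + 1) * (4 * q) ^ M * (C2 ^ (J + 1) * (C2 ^ (J + 1)) ^ b) *
          (B ^ (D0 * 2 ^ i) / w k * (1 / 2 ^ (D0 * 2 ^ (i - 1))) ^ b) * (d1 + d2) := by ring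
      _ ≤ 4 * (M + 1) * (4 * q) ^ M * (C2 ^ (J + 1)) ^ M *
          (B ^ (D0 * 2 ^ i) / w k * (1 / 2 ^ (D0 * 2 ^ (i - 1))) ^ b) * (d1 + d2) := by
          gcongr
          norm_num
      _ = _ := by rw [hE]
  · -- the last level
    obtain ⟨h1, -⟩ := hG k J (D0 * 2 ^ I) (hDI I le_rfl)
    refine SmR.up (smR_NZ (by positivity) hq1 hd1.le h1 hAq hR1) ?_
    have e1 : (C2 ^ (J + 1) / 2 ^ (D0 * 2 ^ I)) ^ (M - 2) =
        (C2 ^ (J + 1)) ^ (M - 2) * (1 / 2 ^ (D0 * 2 ^ I)) ^ (M - 2) := by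
      rw [div_pow (C2 ^ (J + 1)), div_pow 1, one_pow]
      ring
    rw [e1]
    have h3 : (C2 ^ (J + 1)) ^ (M - 2) ≤ (C2 ^ (J + 1)) ^ M := pow_le_pow_right₀ (one_le_pow₀ hC2) (by omega)
    have h4 : (3 * q) ^ M ≤ (4 * q) ^ M := pow_le_pow_left₀ (by positivity) (by linarith) _
    have h5 : (3 : ℝ) ≤ 4 * (M + 1) := by
      have : (0 : ℝ) ≤ M := Nat.cast_nonneg _
      linarith
    calc 3 * ((3 * q) ^ M * ((C2 ^ (J + 1)) ^ (M - 2) * (1 / 2 ^ (D0 * 2 ^ I)) ^ (M - 2)) * d1) =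
        3 * (3 * q) ^ M * (C2 ^ (J + 1)) ^ (M - 2) * (1 / 2 ^ (D0 * 2 ^ I)) ^ (M - 2) * d1 := by ring
      _ ≤ 4 * (M + 1) * (4 * q) ^ M * (C2 ^ (J + 1)) ^ M * (1 / 2 ^ (D0 * 2 ^ I)) ^ (M - 2) * d1 := by gcongr
      _ = _ := by rw [hE]
  · rw [hx]
    simp only [if_true]
    exact hfst2 d2 hd2
  · exact hfst2 d1 hd1
  · -- the sum
    have t1 : ∑ i ∈ Icc 1 I, Cx ^ (D0 * 2 ^ i) * x i ≤ E * (1 / 2 ^ D0) * (d1 + d2) / w k := by
      have e0 : ∑ i ∈ Icc 1 I, Cx ^ (D0 * 2 ^ i) * x i = ∑ i ∈ range I, Cx ^ (D0 * 2 ^ (i + 1)) * x (i + 1) := by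
        rw [← Finset.Ico_add_one_right_eq_Icc, Finset.sum_Ico_eq_sum_range, Nat.add_sub_cancel]
        refine Finset.sum_congr rfl fun i _ => ?_
        rw [add_comm 1 i]
      rw [e0]
      have e1 : ∀ i ∈ range I, Cx ^ (D0 * 2 ^ (i + 1)) * x (i + 1) =
          E * (d1 + d2) / w k * ((B * Cx) ^ (D0 * 2 ^ (i + 1)) * (1 / 2 ^ (D0 * 2 ^ i)) ^ b) := by
        intro i _
        rw [hx]
        simp only
        rw [if_neg (Nat.succ_ne_zero i), Nat.add_sub_cancel, mul_pow]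
        ring
      rw [Finset.sum_congr rfl e1, ← Finset.mul_sum]
      calc E * (d1 + d2) / w k * ∑ i ∈ range I, (B * Cx) ^ (D0 * 2 ^ (i + 1)) * (1 / 2 ^ (D0 * 2 ^ i)) ^ b ≤
          E * (d1 + d2) / w k * (1 / 2 ^ D0) := by gcongr
        _ = _ := by ring
    have t2 : Cx ^ k * (E * (1 / 2 ^ (D0 * 2 ^ I)) ^ (M - 2) * d1) ≤ E * w 0 * (1 / 2 ^ D0) * (d1 + d2) / w k := by
      calc Cx ^ k * (E * (1 / 2 ^ (D0 * 2 ^ I)) ^ (M - 2) * d1) =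
          E * d1 * (Cx ^ k * (1 / 2 ^ (D0 * 2 ^ I)) ^ (M - 2)) := by ring
        _ ≤ E * d1 * (w 0 / (w k * 2 ^ D0)) := by gcongr
        _ = E * w 0 * (1 / 2 ^ D0) * d1 / w k := by
            rw [one_div]
            field_simp
        _ ≤ _ := by
            gcongr
            linarith
    have t3 : E * (1 + w 0) ≤ C ^ (J + 1) := by
      have h1 : 1 ≤ C3 ^ J := one_le_pow₀ hC31
      calc E * (1 + w 0) ≤ C3 ^ (J + 1) * (1 + w 0) := by gcongr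
        _ = C3 ^ J * (C3 * (1 + w 0)) := by ring
        _ ≤ C ^ J * C := by gcongr
        _ = _ := by ring
    have t4 : E * (1 / 2 ^ D0) * (d1 + d2) / w k + E * w 0 * (1 / 2 ^ D0) * (d1 + d2) / w k ≤
        C ^ (J + 1) / 2 ^ D0 * (d1 + d2) / w k := by
      calc E * (1 / 2 ^ D0) * (d1 + d2) / w k + E * w 0 * (1 / 2 ^ D0) * (d1 + d2) / w k =
          E * (1 + w 0) * (1 / 2 ^ D0) * (d1 + d2) / w k := by ring
        _ ≤ C ^ (J + 1) * (1 / 2 ^ D0) * (d1 + d2) / w k := by gcongr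
        _ = _ := by ring
    linarith

end POL

end HexObs
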