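import Pool.Agent.POL.ClDefs
import Pool.Agent.NTA.GeoRun

/-!
POL (polygons): the monotone chain of leaves through a marked run, no hysteresis between the folds.
-/

set_option autoImplicit false

namespace HexObs

namespace POL

open Finset TS SDN SDN.ZZ NTm NTW NTA NTW.GM

/-- the monotone chain through the run of the leaves l, ..., l + d: the ranges decrease before the run and increase after
it -/
def GeoRunM : Prop := ∀ (b m u : ℕ) (t : List Bool) (e : ℕ → ℕ), 1 ≤ b → t ∈ SA → Fw b t m u e → ∀ l d, l + d < m →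
  ∃ (r u' p : ℕ) (E : ℕ → ℕ), p + d < r ∧ FoldG t r u' E ∧
    (∀ i, i ≤ d + 1 → E (p + i) = e (l + i)) ∧
    (∀ i, i ≤ d → ∀ g, PosL t u' E (p + i) g → PosL t u e (l + i) g) ∧
    (p = 0 → l = 0) ∧ (r = p + d + 1 → m = l + d + 1) ∧
    (∀ q, q < r → RR b ≤ RG t u' E q) ∧
    (∀ q, q + 1 < p → RG t u' E (q + 1) ≤ RG t u' E q) ∧
    (∀ q, p + d < q → q + 1 < r → RG t u' E q ≤ RG t u' E (q + 1)) ∧
    (∀ i, i < E 0 → Tight.sg u' (lev t i) - Tight.sg u' (lev t (E 0)) ≤ if p = 0 then RR b else RG t u' E 0) ∧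
    (∀ i, E r < i → i ≤ t.length → Tight.sg (u' + (r - 1)) (lev t (E r)) - Tight.sg (u' + (r - 1)) (lev t i) ≤
      if p + d + 1 = r then RR b else RG t u' E (r - 1))

/-- the folds of a walk as the folds of an integer function -/
lemma fg_ofM {b m u : ℕ} {t : List Bool} {e : ℕ → ℕ} (hb : 1 ≤ b) (h : Fw b t m u e) :
    FG (fun i => Tight.sg u (lev t i)) t.length m e (RR b) := by
  obtain ⟨h1, hG, h2, h4, h5⟩ := h
  have hR := RR_ge hb
  have hm : ∀ z : ℤ, Tight.sg m (Tight.sg u z) = Tight.sg (u + (m - 1)) z := by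
    intro z
    rw [sgu, Nat.sub_add_cancel h1]
  refine ⟨h1, by omega, hG.lt, hG.le, hG.lo0, ?_, ?_, ?_, ?_, ?_⟩
  · intro j j1 j2 i i1 i2
    have := hG.lo j j1 j2 i i1 i2
    rw [sgu u j, sgu u j] at this
    exact this
  · intro j j1 i i1 i2
    have := hG.hi j j1 i i1 i2
    rw [sgu u j, sgu u j] at this
    exact this
  · intro j j1
    have := h2 j j1
    unfold RG at this
    rw [sgu u j, sgu u j] at this
    exact this
  · intro i hi
    refine ⟨hG.beg i hi, ?_⟩
    have a1 := h4 i (e 0) hi.le le_rfl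
    have a2 := h4 (e 0) i le_rfl hi.le
    show Tight.sg u (lev t i) < Tight.sg u (lev t (e 0)) + RR b
    unfold Tight.sg
    split_ifs <;> omega
  · intro i i1 i2
    have a0 := hG.fin i i1 i2
    have a1 := h5 i (e m) i1.le i2 le_rfl hG.le
    have a2 := h5 (e m) i le_rfl hG.le i1.le i2
    simp only [hm]
    refine ⟨a0, ?_⟩
    clear a0
    unfold Tight.sg
    split_ifs <;> omega

theorem geoRunM : GeoRunM := by
  intro b m u t e hb _ht hFd l d hl
  have H := fg_ofM hb hFd
  obtain ⟨f, hf⟩ : ∃ f : ℕ → ℤ, f = fun i => Tight.sg u (lev t i) := ⟨_, rfl⟩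
  rw [← hf] at H
  have hR := RR_ge hb
  obtain ⟨F, p, EL, a1, a2, a3, a3', a4, a5, a6, a7, a8, a9, a10, a11⟩ := left_time H (l := l) (by omega)
  obtain ⟨s, ER, b0, b1, b2, b3, b4, b5, b6, b7, b8, b9⟩ := right_timeR H (l := l + d) hl
  -- signs
  have hsg : ∀ q i, Tight.sg (u + F + q) (lev t i) = Tight.sg (F + q + 1) (f i) := by
    intro q i
    rw [add_assoc, sgu, hf]
  have hpl : ∀ q z, Tight.sg (F + (p + d + 1 + q) + 1) z = Tight.sg (l + d + 1 + q + 1) z := by
    intro q z
    refine NTm.sg_par ?_ z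
    rw [show F + (p + d + 1 + q) + 1 = (F + p) + (d + q + 2) by ring, show l + d + 1 + q + 1 = l + (d + q + 2) by ring,
      Nat.even_add, Nat.even_add (m := l), a2]
  have hpp : ∀ q z, Tight.sg (F + (p + q) + 1) z = Tight.sg (l + q + 1) z := by
    intro q z
    refine NTm.sg_par ?_ z
    rw [show F + (p + q) + 1 = (F + p) + (q + 1) by ring, show l + q + 1 = l + (q + 1) by ring, Nat.even_add,
      Nat.even_add (m := l), a2]
  obtain ⟨E, hE⟩ : ∃ E : ℕ → ℕ, E = fun q => if q ≤ p then EL q else if q ≤ p + d then e (l + (q - p)) else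
    ER (q - (p + d + 1)) := ⟨_, rfl⟩
  have E1 : ∀ q, q ≤ p → E q = EL q := fun q hq => by
    rw [hE]
    exact if_pos hq
  have E2 : ∀ q, E (p + d + 1 + q) = ER q := by
    intro q
    rw [hE]
    show (if p + d + 1 + q ≤ p then EL (p + d + 1 + q) else if p + d + 1 + q ≤ p + d then e (l + (p + d + 1 + q - p)) else
      ER (p + d + 1 + q - (p + d + 1))) = ER q
    rw [if_neg (by omega), if_neg (by omega), show p + d + 1 + q - (p + d + 1) = q by omega]
  have E3 : ∀ q, q ≤ d + 1 → E (p + q) = e (l + q) := by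
    intro q hq
    rcases Nat.eq_zero_or_pos q with h0 | h0
    · subst h0
      rw [add_zero, add_zero, E1 p le_rfl, a1]
    · rcases Nat.lt_or_ge d q with h1 | h1
      · have h2 : q = d + 1 := by omega
        subst h2
        have := E2 0
        rw [add_zero] at this
        rw [← add_assoc, this, b1, ← add_assoc]
      · rw [hE]
        show (if p + q ≤ p then EL (p + q) else if p + q ≤ p + d then e (l + (p + q - p)) else _) = _
        rw [if_neg (by omega), if_pos (by omega), show p + q - p = q by omega]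
  -- the three cases
  have key : ∀ q, q < p + d + 1 + s → E q < E (q + 1) ∧
      (∀ i, E q ≤ i → i ≤ E (q + 1) → Tight.sg (F + q + 1) (f (E q)) ≤ Tight.sg (F + q + 1) (f i)) ∧
      (1 ≤ q → ∀ i, E q < i → i ≤ E (q + 1) → Tight.sg (F + q + 1) (f (E q)) < Tight.sg (F + q + 1) (f i)) ∧
      (∀ i, E q ≤ i → i ≤ E (q + 1) → Tight.sg (F + q + 1) (f i) ≤ Tight.sg (F + q + 1) (f (E (q + 1)))) ∧
      RR b ≤ Tight.sg (F + q + 1) (f (E (q + 1))) - Tight.sg (F + q + 1) (f (E q)) := by
    intro q hq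
    rcases Nat.lt_or_ge q p with h | h
    · rw [E1 q h.le, E1 (q + 1) (by omega)]
      refine ⟨a4 q h, ?_, fun h1 => a6 q h1 h, a7 q h, a8 q h⟩
      rcases Nat.eq_zero_or_pos q with h0 | h0
      · subst h0
        exact a5 (by omega)
      · intro i i1 i2
        rcases Nat.eq_or_lt_of_le i1 with h2 | h2
        · rw [h2]
        · exact (a6 q h0 h i h2 i2).le
    rcases Nat.lt_or_ge q (p + d + 1) with h' | h'
    · obtain ⟨q', rfl⟩ : ∃ q', q = p + q' := ⟨q - p, by omega⟩
      rw [add_assoc p q' 1, E3 q' (by omega), E3 (q' + 1) (by omega), ← add_assoc l q' 1]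
      simp only [hpp]
      refine ⟨H.lt (l + q') (by omega), ?_, ?_, H.hi (l + q') (by omega), H.big (l + q') (by omega)⟩
      · intro i i1 i2
        rcases Nat.eq_zero_or_pos (l + q') with h0 | h0
        · rw [h0, zero_add, Tight.sg_one, Tight.sg_one]
          rw [h0] at i1 i2
          exact H.lo0 i i1 i2
        · rcases Nat.eq_or_lt_of_le i1 with h2 | h2
          · rw [h2]
          · exact (H.lo (l + q') h0 (by omega) i h2 i2).le
      · intro h1 i i1 i2
        exact H.lo (l + q') (Nat.pos_of_ne_zero fun h0 => by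
          have := a3' (by omega)
          omega) (by omega) i i1 i2
    · obtain ⟨q', rfl⟩ : ∃ q', q = p + d + 1 + q' := ⟨q - (p + d + 1), by omega⟩
      rw [E2, show p + d + 1 + q' + 1 = p + d + 1 + (q' + 1) by ring, E2]
      simp only [hpl]
      refine ⟨b3 q' (by omega), ?_, fun _ => b4 q' (by omega), b5 q' (by omega), b6 q' (by omega)⟩
      intro i i1 i2
      rcases Nat.eq_or_lt_of_le i1 with h2 | h2
      · rw [h2]
      · exact (b4 q' (by omega) i h2 i2).le
  have hsr : ∀ z, Tight.sg (F + (p + d + s) + 1) z = Tight.sg (l + d + 1 + s) z := by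
    intro z
    refine NTm.sg_par ?_ z
    rw [show F + (p + d + s) + 1 = (F + p) + (d + s + 1) by ring, show l + d + 1 + s = l + (d + s + 1) by ring,
      Nat.even_add, Nat.even_add (m := l), a2]
  refine ⟨p + d + 1 + s, u + F, p, E, by omega, ⟨?_, ?_, ?_, ?_, ?_, ?_, ?_, ?_⟩, E3, ?_, a3, fun h => b0 (by omega), ?_,
    ?_, ?_, ?_, ?_⟩
  · exact fun q hq => (key q hq).1
  · rw [E2]
    exact b2
  · intro i i1 i2
    have := (key 0 (by omega)).2.1 i i1 i2
    have e0 : ∀ i, Tight.sg (u + F) (lev t i) = Tight.sg (F + 0 + 1) (f i) := fun i => hsg 0 i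
    rw [e0, e0]
    exact this
  · intro q q1 q2 i i1 i2
    rw [hsg, hsg]
    exact (key q q2).2.2.1 q1 i i1 i2
  · intro q q2 i i1 i2
    rw [hsg, hsg]
    exact (key q q2).2.2.2.1 i i1 i2
  · intro q q2
    rw [hsg, hsg]
    exact hR.trans (key q q2).2.2.2.2
  · intro i hi
    have e0 : ∀ i, Tight.sg (u + F) (lev t i) = Tight.sg (F + 0 + 1) (f i) := fun i => hsg 0 i
    rw [e0, e0]
    rw [E1 0 (Nat.zero_le _)] at hi ⊢
    exact a10 i hi
  · intro i i1 i2
    rw [show p + d + 1 + s - 1 = p + d + s by omega, hsg, hsg, hsr, hsr]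
    rw [E2] at i1 ⊢
    exact b8 i i1 i2
  · -- the leaves
    rintro i hi g ⟨x, x1, x2, x3, x4, x5⟩
    rw [E3 i (by omega)] at x1 x2
    rw [add_assoc p i 1, E3 (i + 1) (by omega), ← add_assoc l i 1] at x3 x4
    refine ⟨x, x1, x2, x3, x4, fun j i1 i2 => ?_⟩
    rw [x5 j i1 i2]
    refine NTm.sg_par ?_ _
    rw [show u + F + (p + i) = (F + p) + (u + i) by ring, show u + (l + i) = l + (u + i) by ring, Nat.even_add,
      Nat.even_add (m := l), a2]
  · intro q q2
    unfold RG
    rw [hsg, hsg]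
    exact (key q q2).2.2.2.2
  · intro q hq
    unfold RG
    rw [hsg, hsg, hsg, hsg, E1 q (by omega), E1 (q + 1) (by omega), show q + 1 + 1 = q + 2 from rfl,
      E1 (q + 2) (by omega)]
    exact a9 q hq
  · intro q q1 q2
    obtain ⟨q', rfl⟩ : ∃ q', q = p + d + 1 + q' := ⟨q - (p + d + 1), by omega⟩
    unfold RG
    rw [hsg, hsg, hsg, hsg, show p + d + 1 + q' + 1 = p + d + 1 + (q' + 1) by ring,
      show p + d + 1 + (q' + 1) + 1 = p + d + 1 + (q' + 2) by ring, E2, E2, E2]
    simp only [hpl]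
    exact b7 q' (by omega)
  · intro i hi
    have e0 : ∀ i, Tight.sg (u + F) (lev t i) = Tight.sg (F + 0 + 1) (f i) := fun i => hsg 0 i
    rw [e0, e0]
    rw [E1 0 (Nat.zero_le _)] at hi ⊢
    have h1 := a11 i hi
    rw [show F + 0 + 1 = F + 1 from rfl]
    refine h1.trans (le_of_eq ?_)
    split_ifs with h0
    · rfl
    · unfold RG
      rw [hsg, hsg, E1 0 (Nat.zero_le _), zero_add, E1 1 (by omega)]
  · intro i i1 i2
    rw [show p + d + 1 + s - 1 = p + d + s by omega, hsg, hsg, hsr, hsr]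
    rw [E2] at i1 ⊢
    refine (b9 i i1 i2).trans (le_of_eq ?_)
    rcases Nat.eq_zero_or_pos s with h0 | h0
    · rw [if_pos h0, if_pos (by omega)]
    · rw [if_neg (by omega), if_neg (by omega)]
      unfold RG
      obtain ⟨s', rfl⟩ : ∃ s', s = s' + 1 := ⟨s - 1, by omega⟩
      rw [Nat.add_sub_cancel, hsg, hsg, show p + d + (s' + 1) + 1 = p + d + 1 + (s' + 1) by ring, E2,
        show p + d + (s' + 1) = p + d + 1 + s' by ring, E2, hpl, hpl]
      rfl

end POL

end HexObs
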