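import Mathlib

/-!
POL, L4: the levels of a closed word with a top arc and a bottom arc (two levels crossed exactly twice), and the comparison
of two such structures of the same closed word. Integer indices, period N (helper59).
-/

set_option autoImplicit false

namespace HexObs

namespace POL

/-- the levels of a closed word: up strand from b4 - N over the root j to b1, top arc from b1 to b2, down strand from b2 to
b3, bottom arc from b3 to b4 -/
structure Mr (F : ℤ → ℤ) (N j b1 b2 b3 b4 n τ : ℤ) : Prop where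
  o1 : j < b1
  o2 : b1 < b2
  o3 : b2 < b3
  o4 : b3 < b4
  o5 : b4 < j + N
  z1 : ∀ i, j < i → i ≤ b1 → F j < F i ∧ F i ≤ F b1
  t1 : ∀ i, b1 < i → i ≤ b2 → F b1 + 2 ≤ F i ∧ F i ≤ F b1 + τ
  t1e : F b2 = F b1 + 2
  d : ∀ i, b2 < i → i ≤ b3 → F i ≤ F b1 ∧ F b3 ≤ F i
  t2 : ∀ i, b3 < i → i ≤ b4 → F i ≤ F b4 ∧ F b4 ≤ F i + τ
  t2e : F b3 = F b4 + 2
  z : ∀ i, b4 < i → i ≤ j + N → F b4 + 2 ≤ F i ∧ F i ≤ F j
  n1 : n ≤ F b1 - F j
  n2 : n ≤ F j - F b4

section

variable {F : ℤ → ℤ} {N j b1 b2 b3 b4 j' b1' b2' b3' b4' n τ : ℤ}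

/-- many periods -/
lemma per_mul (hF : ∀ i, F (i + N) = F i) (i q : ℤ) : F (i + q * N) = F i := by
  induction q using Int.induction_on with
  | zero => simp
  | succ q ih =>
    rw [show i + ((q : ℤ) + 1) * N = (i + (q : ℤ) * N) + N by ring, hF, ih]
  | pred q ih =>
    rw [← hF (i + (-(q : ℤ) - 1) * N), show i + (-(q : ℤ) - 1) * N + N = i + -(q : ℤ) * N by ring, ih]

lemma Mr.shift (hF : ∀ i, F (i + N) = F i) (h : Mr F N j b1 b2 b3 b4 n τ) (q : ℤ) :
    Mr F N (j + q * N) (b1 + q * N) (b2 + q * N) (b3 + q * N) (b4 + q * N) n τ := by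
  have hp := per_mul hF
  have hm : ∀ i, F (i - q * N) = F i := fun i => by
    have := hp (i - q * N) q
    rw [← this]
    congr 1
    ring
  refine ⟨by linarith [h.o1], by linarith [h.o2], by linarith [h.o3], by linarith [h.o4], by linarith [h.o5], ?_, ?_, ?_, ?_, ?_, ?_, ?_, ?_, ?_⟩
  · intro i h1 h2
    have := h.z1 (i - q * N) (by linarith) (by linarith)
    rwa [hm, ← hp j q, ← hp b1 q] at this
  · intro i h1 h2
    have := h.t1 (i - q * N) (by linarith) (by linarith)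
    rwa [hm, ← hp b1 q] at this
  · rw [hp, hp]
    exact h.t1e
  · intro i h1 h2
    have := h.d (i - q * N) (by linarith) (by linarith)
    rwa [hm, ← hp b1 q, ← hp b3 q] at this
  · intro i h1 h2
    have := h.t2 (i - q * N) (by linarith) (by linarith)
    rwa [hm, ← hp b4 q] at this
  · rw [hp, hp]
    exact h.t2e
  · intro i h1 h2
    have := h.z (i - q * N) (by linarith) (by linarith)
    rwa [hm, ← hp b4 q, ← hp j q] at this
  · rw [hp, hp]
    exact h.n1
  · rw [hp, hp]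
    exact h.n2

lemma loc (hN : 0 < N) (i : ℤ) : ∃ q : ℤ, j < i + q * N ∧ i + q * N ≤ j + N := by
  refine ⟨-((i - j - 1) / N), ?_⟩
  have h1 := Int.emod_nonneg (i - j - 1) hN.ne'
  have h2 := Int.emod_lt_of_pos (i - j - 1) hN
  have h3 := Int.mul_ediv_add_emod (i - j - 1) N
  have h4 : -((i - j - 1) / N) * N = -(N * ((i - j - 1) / N)) := by ring
  rw [h4]
  constructor <;> linarith

/-- outside of the top arc, before it -/
lemma Mr.off_top (hF : ∀ i, F (i + N) = F i) (h : Mr F N j b1 b2 b3 b4 n τ) (hn : 0 < n) {i : ℤ} (h1 : b2 - N < i)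
    (h2 : i ≤ b1) : F i ≤ F b1 := by
  have := h.n1
  have := h.n2
  have := h.o1
  have := h.o2
  have := h.o3
  have := h.o4
  have := h.o5
  rcases lt_or_ge j i with h3 | h3
  · exact (h.z1 i h3 h2).2
  · rw [← hF i]
    rcases le_or_gt (i + N) b3 with h4 | h4
    · exact (h.d (i + N) (by linarith) h4).1
    · rcases le_or_gt (i + N) b4 with h5 | h5
      · linarith [(h.t2 (i + N) h4 h5).1]
      · linarith [(h.z (i + N) h5 (by linarith)).2]

/-- outside of the top arc, behind it -/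
lemma Mr.off_top' (hF : ∀ i, F (i + N) = F i) (h : Mr F N j b1 b2 b3 b4 n τ) (hn : 0 < n) {i : ℤ} (h1 : b2 < i)
    (h2 : i ≤ b1 + N) : F i ≤ F b1 := by
  have h3 := h.off_top hF hn (i := i - N) (by linarith) (by linarith)
  rwa [← hF (i - N), sub_add_cancel] at h3

/-- outside of the bottom arc, before it -/
lemma Mr.off_bot (hF : ∀ i, F (i + N) = F i) (h : Mr F N j b1 b2 b3 b4 n τ) (hn : 2 ≤ n) {i : ℤ} (h1 : b4 - N < i)
    (h2 : i ≤ b3) : F b4 + 2 ≤ F i := by
  have := h.n1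
  have := h.n2
  have := h.o1
  have := h.o2
  have := h.o3
  have := h.o4
  have := h.o5
  rcases lt_or_ge j i with h3 | h3
  · rcases le_or_gt i b1 with h4 | h4
    · linarith [(h.z1 i h3 h4).1]
    · rcases le_or_gt i b2 with h5 | h5
      · linarith [(h.t1 i h4 h5).1]
      · linarith [(h.d i h5 h2).2, h.t2e]
  · rw [← hF i]
    exact (h.z (i + N) (by linarith) (by linarith)).1

/-- outside of the bottom arc, behind it -/
lemma Mr.off_bot' (hF : ∀ i, F (i + N) = F i) (h : Mr F N j b1 b2 b3 b4 n τ) (hn : 2 ≤ n) {i : ℤ} (h1 : b4 < i)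
    (h2 : i ≤ b3 + N) : F b4 + 2 ≤ F i := by
  have h3 := h.off_bot hF hn (i := i - N) (by linarith) (by linarith)
  rwa [← hF (i - N), sub_add_cancel] at h3

/-- the top arcs are nested -/
lemma nest_top (hF : ∀ i, F (i + N) = F i) (hn : 2 ≤ n) (h : Mr F N j b1 b2 b3 b4 n τ)
    (h' : Mr F N j' b1' b2' b3' b4' n τ) (hle : F b1 ≤ F b1') : ∃ q : ℤ, b1 ≤ b1' + q * N ∧ b2' + q * N ≤ b2 := by
  have o1 := h.o1
  have o2 := h.o2
  have o3 := h.o3
  have o4 := h.o4
  have o5 := h.o5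
  obtain ⟨q, hq1, hq2⟩ := loc (j := j) (N := N) (by linarith) (b1' + 1)
  have hs := h'.shift hF q
  have p2 := hs.o2
  have e1 : F (b1' + q * N) = F b1' := per_mul hF _ _
  have k1 : F b1 < F (b1' + 1 + q * N) := by
    have := (hs.t1 (b1' + 1 + q * N) (by linarith) (by linarith)).1
    linarith
  have k2 : b1 < b1' + 1 + q * N := by
    by_contra hcon
    have := (h.z1 _ hq1 (by linarith)).2
    linarith
  refine ⟨q, by linarith, ?_⟩
  by_contra hcon
  rw [not_le] at hcon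
  have k3 : b1' + 1 + q * N ≤ b2 := by
    by_contra hcon'
    rw [not_le] at hcon'
    have := h.off_top' hF (by linarith) hcon' (by linarith)
    linarith
  have k4 := (hs.t1 (b2 + 1) (by linarith) (by linarith)).1
  have k5 := h.off_top' hF (by linarith) (i := b2 + 1) (by linarith) (by linarith)
  linarith

/-- the bottom arcs are nested -/
lemma nest_bot (hF : ∀ i, F (i + N) = F i) (hn : 2 ≤ n) (h : Mr F N j b1 b2 b3 b4 n τ)
    (h' : Mr F N j' b1' b2' b3' b4' n τ) (hle : F b4' ≤ F b4) : ∃ q : ℤ, b3 ≤ b3' + q * N ∧ b4' + q * N ≤ b4 := by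
  have o1 := h.o1
  have o2 := h.o2
  have o3 := h.o3
  have o4 := h.o4
  have o5 := h.o5
  obtain ⟨q, hq1, hq2⟩ := loc (j := b4 - N) (N := N) (by linarith) (b3' + 1)
  have hs := h'.shift hF q
  have p4 := hs.o4
  have e1 : F (b4' + q * N) = F b4' := per_mul hF _ _
  have k1 : F (b3' + 1 + q * N) ≤ F b4 := by
    have := (hs.t2 (b3' + 1 + q * N) (by linarith) (by linarith)).1
    linarith
  have k2 : b3 < b3' + 1 + q * N := by
    by_contra hcon
    have := h.off_bot hF hn hq1 (by linarith)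
    linarith
  refine ⟨q, by linarith, ?_⟩
  by_contra hcon
  rw [not_le] at hcon
  have k4 := (hs.t2 (b4 + 1) (by linarith) (by linarith)).1
  have k5 := h.off_bot' hF hn (i := b4 + 1) (by linarith) (by linarith)
  linarith

/-- the second top arc inside of the first one -/
lemma case_a (hF : ∀ i, F (i + N) = F i) (hn : 2 ≤ n) (h : Mr F N j b1 b2 b3 b4 n τ)
    (h' : Mr F N j' b1' b2' b3' b4' n τ) (h1 : b1 ≤ b1') (h2 : b2' ≤ b2) :
    (∀ i, b1 < i → i ≤ b1' → F b1 < F i ∧ F i ≤ F b1') ∧ (∀ i, b2' < i → i ≤ b2 → F i < F b2' ∧ F b2 ≤ F i) ∧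
      F b1' - F b1 = F b2' - F b2 ∧ (b1 < b1' → F b1' ≤ F b1 + τ) := by
  have o1 := h.o1
  have o2 := h.o2
  have o3 := h.o3
  have o4 := h.o4
  have o5 := h.o5
  have p2 := h'.o2
  have e1 := h.t1e
  have e2 := h'.t1e
  refine ⟨fun i k1 k2 => ⟨?_, ?_⟩, fun i k1 k2 => ⟨?_, ?_⟩, by linarith, fun k => ?_⟩
  · linarith [(h.t1 i k1 (by linarith)).1]
  · exact h'.off_top hF (by linarith) (by linarith) k2
  · linarith [h'.off_top' hF (by linarith) k1 (by linarith)]
  · linarith [(h.t1 i (by linarith) k2).1]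
  · exact (h.t1 b1' k (by linarith)).2

/-- the first top arc inside of the second one -/
lemma case_b (hF : ∀ i, F (i + N) = F i) (hn : 2 ≤ n) (hτ : τ < n) (hτ0 : 0 ≤ τ) (h : Mr F N j b1 b2 b3 b4 n τ)
    (h' : Mr F N j' b1' b2' b3' b4' n τ) (h1 : b1' ≤ b1) (h2 : b2 ≤ b2') :
    (j ≤ b1' ∧ b2' ≤ b3) ∧ (∀ i, j < i → i ≤ b1' → F j < F i ∧ F i ≤ F b1') ∧
      (∀ i, b1' < i → i ≤ b1 → F b1' < F i ∧ F i ≤ F b1) ∧ (∀ i, b2 < i → i ≤ b2' → F i < F b2 ∧ F b2' ≤ F i) ∧
      (∀ i, b2' < i → i ≤ b3 → F i < F b2' ∧ F b3 ≤ F i) ∧ F b1 - F b1' = F b2 - F b2' ∧ F b1 ≤ F b1' + τ := by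
  have o1 := h.o1
  have o2 := h.o2
  have o3 := h.o3
  have o4 := h.o4
  have o5 := h.o5
  have p2 := h'.o2
  have e1 := h.t1e
  have e2 := h'.t1e
  have e3 := h.t2e
  have n1 := h.n1
  have n2 := h.n2
  have k0 : F b1 ≤ F b1' + τ ∧ F b1' ≤ F b1 := by
    rcases eq_or_lt_of_le h1 with k | k
    · rw [k]
      exact ⟨by linarith, le_rfl⟩
    · have := h'.t1 b1 k (by linarith)
      exact ⟨this.2, by linarith [this.1]⟩
  have kj : j ≤ b1' := by
    by_contra hcon
    rw [not_le] at hcon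
    have := (h'.t1 j hcon (by linarith)).1
    linarith
  have k3 : b2' ≤ b3 := by
    by_contra hcon
    rw [not_le] at hcon
    have := (h'.t1 b3 (by linarith) (by linarith)).1
    linarith
  refine ⟨⟨kj, k3⟩, fun i k1 k2 => ⟨?_, ?_⟩, fun i k1 k2 => ⟨?_, ?_⟩, fun i k1 k2 => ⟨?_, ?_⟩, fun i k1 k2 => ⟨?_, ?_⟩,
    by linarith, k0.1⟩
  · exact (h.z1 i k1 (by linarith)).1
  · exact h'.off_top hF (by linarith) (by linarith) k2
  · linarith [(h'.t1 i k1 (by linarith)).1]
  · exact (h.z1 i (by linarith) k2).2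
  · linarith [(h.d i k1 (by linarith)).1]
  · linarith [(h'.t1 i (by linarith) k2).1]
  · linarith [h'.off_top' hF (by linarith) k1 (by linarith)]
  · exact (h.d i (by linarith) k2).2

/-- the second bottom arc inside of the first one -/
lemma case_a4 (hF : ∀ i, F (i + N) = F i) (hn : 2 ≤ n) (h : Mr F N j b1 b2 b3 b4 n τ)
    (h' : Mr F N j' b1' b2' b3' b4' n τ) (h1 : b3 ≤ b3') (h2 : b4' ≤ b4) :
    (∀ i, b3 < i → i ≤ b3' → F i < F b3 ∧ F b3' ≤ F i) ∧ (∀ i, b4' < i → i ≤ b4 → F b4' < F i ∧ F i ≤ F b4) ∧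
      F b3 - F b3' = F b4 - F b4' ∧ (b4' < b4 → F b4 ≤ F b4' + τ) := by
  have o1 := h.o1
  have o2 := h.o2
  have o3 := h.o3
  have o4 := h.o4
  have o5 := h.o5
  have p4 := h'.o4
  have e1 := h.t2e
  have e2 := h'.t2e
  refine ⟨fun i k1 k2 => ⟨?_, ?_⟩, fun i k1 k2 => ⟨?_, ?_⟩, by linarith, fun k => ?_⟩
  · linarith [(h.t2 i k1 (by linarith)).1]
  · linarith [h'.off_bot hF hn (i := i) (by linarith) k2]
  · linarith [h'.off_bot' hF hn (i := i) k1 (by linarith)]
  · exact (h.t2 i (by linarith) k2).1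
  · exact (h.t2 b4' (by linarith) k.le).2

/-- the first bottom arc inside of the second one -/
lemma case_b4 (hF : ∀ i, F (i + N) = F i) (hn : 2 ≤ n) (hτ : τ < n) (hτ0 : 0 ≤ τ) (h : Mr F N j b1 b2 b3 b4 n τ)
    (h' : Mr F N j' b1' b2' b3' b4' n τ) (h1 : b3' ≤ b3) (h2 : b4 ≤ b4') :
    (b2 ≤ b3' ∧ b4' ≤ j + N) ∧ (∀ i, b2 < i → i ≤ b3' → F i < F b2 ∧ F b3' ≤ F i) ∧
      (∀ i, b3' < i → i ≤ b3 → F i < F b3' ∧ F b3 ≤ F i) ∧ (∀ i, b4 < i → i ≤ b4' → F b4 < F i ∧ F i ≤ F b4') ∧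
      (∀ i, b4' < i → i ≤ j + N → F b4' < F i ∧ F i ≤ F j) ∧ F b3' - F b3 = F b4' - F b4 ∧ F b4' ≤ F b4 + τ := by
  have o1 := h.o1
  have o2 := h.o2
  have o3 := h.o3
  have o4 := h.o4
  have o5 := h.o5
  have p4 := h'.o4
  have e1 := h.t2e
  have e2 := h'.t2e
  have e3 := h.t1e
  have n1 := h.n1
  have n2 := h.n2
  have k0 : F b4' ≤ F b4 + τ ∧ F b4 ≤ F b4' := by
    rcases eq_or_lt_of_le h2 with k | k
    · rw [k]
      exact ⟨by linarith, le_rfl⟩
    · have := h'.t2 b4 (by linarith) h2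
      exact ⟨by linarith [this.2], this.1⟩
  have k2' : b2 ≤ b3' := by
    by_contra hcon
    rw [not_le] at hcon
    have := (h'.t2 b2 hcon (by linarith)).1
    linarith
  have kj : b4' ≤ j + N := by
    by_contra hcon
    rw [not_le] at hcon
    have := (h'.t2 (j + N) (by linarith) hcon.le).1
    rw [hF] at this
    linarith
  refine ⟨⟨k2', kj⟩, fun i k1 k2 => ⟨?_, ?_⟩, fun i k1 k2 => ⟨?_, ?_⟩, fun i k1 k2 => ⟨?_, ?_⟩, fun i k1 k2 => ⟨?_, ?_⟩,
    by linarith, k0.1⟩
  · linarith [(h.d i k1 (by linarith)).1]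
  · linarith [h'.off_bot hF hn (i := i) (by linarith) k2]
  · linarith [(h'.t2 i k1 (by linarith)).1]
  · exact (h.d i (by linarith) k2).2
  · linarith [(h.z i k1 (by linarith)).1]
  · exact (h'.t2 i (by linarith) k2).1
  · linarith [h'.off_bot' hF hn (i := i) k1 (by linarith)]
  · exact (h.z i (by linarith) k2).2

/-- the second root is a cut of the first up strand -/
lemma case_c (hF : ∀ i, F (i + N) = F i) (hn : 2 ≤ n) (hτ : τ < n) (hτ0 : 0 ≤ τ) (h : Mr F N j b1 b2 b3 b4 n τ)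
    (h' : Mr F N j' b1' b2' b3' b4' n τ) (hne : (b1 ≤ b1' ∧ b2' ≤ b2) ∨ (b1' ≤ b1 ∧ b2 ≤ b2')) :
    (b4 - N ≤ j' ∧ j' ≤ b1) ∧ (∀ i, j' < i → i ≤ b1 → F j' < F i) ∧ (∀ i, b4 - N ≤ i → i ≤ j' → F i ≤ F j') := by
  have o1 := h.o1
  have o2 := h.o2
  have o3 := h.o3
  have o4 := h.o4
  have o5 := h.o5
  have p1 := h'.o1
  have p2 := h'.o2
  have p3 := h'.o3
  have p4 := h'.o4
  have p5 := h'.o5
  have e1 := h.t2e
  have e2 := h'.t2e
  have e3 := h.t1e
  have e4 := h'.t1e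
  have n1 := h.n1
  have n2 := h.n2
  have n1' := h'.n1
  have n2' := h'.n2
  -- the bottom levels are close
  have hb : F b4 ≤ F b4' + τ := by
    rcases le_or_gt (F b4) (F b4') with k | k
    · linarith
    · obtain ⟨q, q1, q2⟩ := nest_bot hF hn h h' k.le
      have r4 := (h'.shift hF q).o4
      have e5 : F (b4' + q * N) = F b4' := per_mul hF _ _
      have := (h.t2 (b4' + q * N) (by linarith) q2).2
      linarith
  have kj : j' ≤ b1 := by
    by_contra hcon
    rw [not_le] at hcon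
    rcases hne with ⟨k1, k2⟩ | ⟨k1, k2⟩
    · have m1 := (h.t1 j' hcon (by linarith)).1
      have m2 := (h.t1 b1' (by linarith) (by linarith)).2
      linarith
    · linarith
  have hup : ∀ i, j' < i → i ≤ b1 → F j' < F i := by
    intro i k1 k2
    rcases le_or_gt i b1' with k3 | k3
    · exact (h'.z1 i k1 k3).1
    · rcases hne with ⟨k4, k5⟩ | ⟨k4, k5⟩
      · linarith
      · have := (h'.t1 i k3 (by linarith)).1
        linarith
  have k4 : b4 - N ≤ j' := by
    by_contra hcon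
    rw [not_le] at hcon
    have m1 := hup (b4 - N) hcon (by linarith)
    rw [← hF (b4 - N), sub_add_cancel] at m1
    linarith
  refine ⟨⟨k4, kj⟩, hup, fun i m1 m2 => ?_⟩
  rcases lt_trichotomy (i + N) b4' with k5 | k5 | k5
  · -- inside of the second bottom arc
    have k6 : b3' < b4 := by
      by_contra hcon
      rw [not_lt] at hcon
      have k7 : b2' < b4 := by
        rcases hne with ⟨r1, r2⟩ | ⟨r1, r2⟩
        · linarith
        · have := (case_b hF hn hτ hτ0 h h' r1 r2).1.2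
          linarith
      have k8 := (h'.d b4 k7 hcon).2
      obtain ⟨q, q1, q2⟩ := nest_bot hF hn h h' (by linarith)
      have hN : 0 < N := by linarith
      have k9 : q < 0 := by
        by_contra hq
        rw [not_lt] at hq
        nlinarith
      have k10 : q * N ≤ -N := by nlinarith
      linarith
    have := (h'.t2 (i + N) (by linarith) k5.le).1
    rw [hF] at this
    linarith
  · have : F i = F b4' := by rw [← hF i, k5]
    linarith
  · have := (h'.z (i + N) k5 (by linarith)).2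
    rwa [hF] at this

end

end POL

end HexObs
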