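import Pool.Agent.POL.PerW
import Pool.Agent.POL.LevG

/-!
POL, L4: the levels of the closed word Zp ++ (X ++ (D ++ (Y ++ Zm))) (helper59).
-/

set_option autoImplicit false

namespace HexObs

namespace POL

open Finset TS

/-- arcs of the upper half plane, levels at most τ; the last vertex has the level 2 -/
structure ArcW (τ : ℤ) (X : List Bool) : Prop where
  pos : ∀ i, 1 ≤ i → i ≤ X.length → 2 ≤ lev X i ∧ lev X i ≤ τ
  dn : dx up X X.length = -up
  two : lev X X.length = 2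
  one : 1 ≤ X.length

/-- levels and directions of a closed word with two arcs -/
structure Mw (s : List Bool) (N : ℕ) (j b1 b2 b3 b4 n τ : ℤ) : Prop where
  mr : Mr (Fl s N) N j b1 b2 b3 b4 n τ
  h0 : Hd s N j = up
  h1 : Hd s N b1 = up
  h2 : Hd s N b2 = -up
  h3 : Hd s N b3 = -up
  h4 : Hd s N b4 = up

/-- levels at multiples of 3 with the direction up, 2 mod 3 with the direction down -/
lemma lev_mod3 (t : List Bool) (i : ℕ) : lev t i % 3 = 0 ∨ lev t i % 3 = 2 := by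
  have h := lev_mod t i
  split_ifs at h <;> omega

lemma brd_lev {T : ℕ} {Z : List Bool} (hZ : Z ∈ Brd T) {i : ℕ} (h1 : 1 ≤ i) (h2 : i ≤ Z.length) :
    2 ≤ lev Z i ∧ lev Z i ≤ 3 * T := by
  have h3 := (mem_Brd.1 hZ).1 i h1 h2
  have h4 := lev_mod3 Z i
  omega

lemma ip_up_neg : ip (-up) up = -2 := by decide

theorem mw_of {N : ℕ} {t Zp X D Y Zm : List Bool} {a c d : ℕ} {n τ : ℤ} (ht : t ∈ Cy N)
    (e : t = Zp ++ (X ++ (D ++ (Y ++ Zm)))) (hZp : Zp ∈ Brd a) (hZm : Zm ∈ Brd c) (hD : D ∈ Brd d) (hX : ArcW τ X)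
    (hY : ArcW τ Y) (hn : 0 < n) (ha : n ≤ 3 * a) (hc : n ≤ 3 * c) :
    Mw t N 0 Zp.length (Zp.length + X.length) (Zp.length + X.length + D.length)
      (Zp.length + X.length + D.length + Y.length) n τ := by
  obtain ⟨l1, hl1⟩ : ∃ l1, l1 = Zp.length := ⟨_, rfl⟩
  obtain ⟨l2, hl2⟩ : ∃ l2, l2 = X.length := ⟨_, rfl⟩
  obtain ⟨l3, hl3⟩ : ∃ l3, l3 = D.length := ⟨_, rfl⟩
  obtain ⟨l4, hl4⟩ : ∃ l4, l4 = Y.length := ⟨_, rfl⟩
  obtain ⟨l5, hl5⟩ : ∃ l5, l5 = Zm.length := ⟨_, rfl⟩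
  have hN : l1 + (l2 + (l3 + (l4 + l5))) = N := by
    rw [← ht.1, e, List.length_append, List.length_append, List.length_append, List.length_append]
    omega
  have z0 : lev Zp 0 = 0 := lev_zero _
  have p2 := hX.one
  have p4 := hY.one
  -- the words are not empty
  have q1 : 1 ≤ l1 := by
    by_contra hcon
    have h1 := (mem_Brd.1 hZp).2.2.2
    rw [← hl1, show l1 = 0 by omega, lev_zero] at h1
    omega
  have q5 : 1 ≤ l5 := by
    by_contra hcon
    have h1 := (mem_Brd.1 hZm).2.2.2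
    rw [← hl5, show l5 = 0 by omega, lev_zero] at h1
    omega
  -- levels and directions
  have f1 : ∀ i, i ≤ l1 → lev t i = lev Zp i := fun i hi => by
    rw [e]
    exact lev_append (by omega)
  have g1 : dx up t l1 = up := by
    rw [e, hl1, dx_append le_rfl]
    exact (mem_Brd.1 hZp).2.2.1
  have c1 : ∀ i, lev t (l1 + i) = 3 * a + lev (X ++ (D ++ (Y ++ Zm))) i := fun i => by
    rw [e, hl1, lev_cat (mem_Brd.1 hZp).2.2.1, (mem_Brd.1 hZp).2.2.2]
  have d1 : ∀ i, dx up t (l1 + i) = dx up (X ++ (D ++ (Y ++ Zm))) i := fun i => by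
    rw [e, hl1, dx_cat (mem_Brd.1 hZp).2.2.1]
  have f2 : ∀ i, i ≤ l2 → lev t (l1 + i) = 3 * a + lev X i := fun i hi => by
    rw [c1, lev_append (by omega)]
  have g2 : dx up t (l1 + l2) = -up := by
    rw [d1, hl2, dx_append le_rfl]
    exact hX.dn
  have c2 : ∀ i, lev t (l1 + (l2 + i)) = 3 * a + 2 - lev (D ++ (Y ++ Zm)) i := fun i => by
    rw [c1, hl2, NTW.lev_turn hX.dn, hX.two]
    ring
  have d2 : ∀ i, dx up t (l1 + (l2 + i)) = -dx up (D ++ (Y ++ Zm)) i := fun i => by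
    rw [d1, hl2, NTW.dx_turn hX.dn]
  have f3 : ∀ i, i ≤ l3 → lev t (l1 + (l2 + i)) = 3 * a + 2 - lev D i := fun i hi => by
    rw [c2, lev_append (by omega)]
  have g3 : dx up t (l1 + (l2 + l3)) = -up := by
    rw [d2, hl3, dx_append le_rfl, (mem_Brd.1 hD).2.2.1]
  have c3 : ∀ i, lev t (l1 + (l2 + (l3 + i))) = 3 * a + 2 - 3 * d - lev (Y ++ Zm) i := fun i => by
    rw [c2, hl3, lev_cat (mem_Brd.1 hD).2.2.1, (mem_Brd.1 hD).2.2.2]
    ring
  have d3 : ∀ i, dx up t (l1 + (l2 + (l3 + i))) = -dx up (Y ++ Zm) i := fun i => by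
    rw [d2, hl3, dx_cat (mem_Brd.1 hD).2.2.1]
  have f4 : ∀ i, i ≤ l4 → lev t (l1 + (l2 + (l3 + i))) = 3 * a + 2 - 3 * d - lev Y i := fun i hi => by
    rw [c3, lev_append (by omega)]
  have g4 : dx up t (l1 + (l2 + (l3 + l4))) = up := by
    rw [d3, hl4, dx_append le_rfl, hY.dn, neg_neg]
  have c4 : ∀ i, lev t (l1 + (l2 + (l3 + (l4 + i)))) = 3 * a - 3 * d + lev Zm i := fun i => by
    rw [c3, hl4, NTW.lev_turn hY.dn, hY.two]
    ring
  -- the closed word
  have hend : (3 * a - 3 * d + 3 * c : ℤ) = 0 := by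
    have h1 := c4 l5
    rw [hN] at h1
    have h2 : lev t N = 0 := by
      unfold lev
      rw [ht.2.1]
      rfl
    rw [h2, hl5, (mem_Brd.1 hZm).2.2.2] at h1
    linarith
  have q3 : 1 ≤ l3 := by
    by_contra hcon
    have h1 := (mem_Brd.1 hD).2.2.2
    rw [← hl3, show l3 = 0 by omega, lev_zero] at h1
    omega
  have hN0 : 0 < N := by omega
  -- periodic levels
  have F : ∀ (i : ℕ) (x : ℤ), x = i → i < N → Fl t N x = lev t i := fun i x hx hi => by
    unfold Fl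
    rw [rp_of hi hx]
  have F0 : Fl t N 0 = 0 := by
    rw [F 0 0 rfl hN0]
    exact lev_zero _
  have FN : ∀ x : ℤ, x = N → Fl t N x = 0 := fun x hx => by
    rw [hx]
    have := Fl_add (s := t) (N := N) 0
    rw [zero_add] at this
    rw [this, F0]
  have G : ∀ (i : ℕ) (x : ℤ), x = i → i < N → Hd t N x = dx up t i := fun i x hx hi => by
    unfold Hd
    rw [rp_of hi hx]
  have L1 : Fl t N (l1 : ℤ) = 3 * a := by
    rw [F l1 _ rfl (by omega), f1 l1 le_rfl, hl1]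
    exact (mem_Brd.1 hZp).2.2.2
  have L2 : Fl t N ((l1 : ℤ) + l2) = 3 * a + 2 := by
    rw [F (l1 + l2) _ (by push_cast; ring) (by omega), f2 l2 le_rfl, hl2, hX.two]
  have L3 : Fl t N ((l1 : ℤ) + l2 + l3) = 3 * a + 2 - 3 * d := by
    rw [F (l1 + (l2 + l3)) _ (by push_cast; ring) (by omega), f3 l3 le_rfl, hl3, (mem_Brd.1 hD).2.2.2]
  have L4 : Fl t N ((l1 : ℤ) + l2 + l3 + l4) = 3 * a - 3 * d := by
    rw [F (l1 + (l2 + (l3 + l4))) _ (by push_cast; ring) (by omega), f4 l4 le_rfl, hl4, hY.two]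
    ring
  rw [← hl1, ← hl2, ← hl3, ← hl4]
  refine ⟨⟨by omega, by omega, by omega, by omega, by omega, ?_, ?_, ?_, ?_, ?_, ?_, ?_, ?_, ?_⟩, ?_, ?_, ?_, ?_, ?_⟩
  · intro i h1 h2
    obtain ⟨i', rfl⟩ := Int.eq_ofNat_of_zero_le h1.le
    have := brd_lev hZp (i := i') (by omega) (by omega)
    rw [F0, L1, F i' _ rfl (by omega), f1 i' (by omega)]
    omega
  · intro i h1 h2
    obtain ⟨i', hi'⟩ := Int.eq_ofNat_of_zero_le (show 0 ≤ i - l1 by omega)
    have := hX.pos i' (by omega) (by omega)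
    rw [L1, F (l1 + i') i (by push_cast; omega) (by omega), f2 i' (by omega)]
    omega
  · rw [L2, L1]
  · intro i h1 h2
    obtain ⟨i', hi'⟩ := Int.eq_ofNat_of_zero_le (show 0 ≤ i - (l1 + l2) by omega)
    have := brd_lev hD (i := i') (by omega) (by omega)
    rw [L1, L3, F (l1 + (l2 + i')) i (by push_cast; omega) (by omega), f3 i' (by omega)]
    omega
  · intro i h1 h2
    obtain ⟨i', hi'⟩ := Int.eq_ofNat_of_zero_le (show 0 ≤ i - (l1 + l2 + l3) by omega)
    have := hY.pos i' (by omega) (by omega)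
    rw [L4, F (l1 + (l2 + (l3 + i'))) i (by push_cast; omega) (by omega), f4 i' (by omega)]
    omega
  · rw [L3, L4]
    ring
  · intro i h1 h2
    obtain ⟨i', hi'⟩ := Int.eq_ofNat_of_zero_le (show 0 ≤ i - (l1 + l2 + l3 + l4) by omega)
    have h3 := brd_lev hZm (i := i') (by omega) (by omega)
    rcases eq_or_ne i (N : ℤ) with h4 | h4
    · rw [L4, F0, FN i h4]
      omega
    · rw [L4, F0, F (l1 + (l2 + (l3 + (l4 + i')))) i (by push_cast; omega) (by omega), c4 i']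
      omega
  · rw [L1, F0]
    omega
  · rw [F0, L4]
    omega
  · rw [G 0 0 rfl hN0]
    rfl
  · rw [G l1 _ rfl (by omega), g1]
  · rw [G (l1 + l2) _ (by push_cast; ring) (by omega), g2]
  · rw [G (l1 + (l2 + l3)) _ (by push_cast; ring) (by omega), g3]
  · rw [G (l1 + (l2 + (l3 + l4))) _ (by push_cast; ring) (by omega), g4]

end POL

end HexObs
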