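import Pool.Agent.POL.CyOf
import Pool.Agent.POL.MassM
import Pool.Agent.POL.MrOf
import Pool.Agent.POL.L4Defs
import Pool.Agent.JNT.LowDefs2

/-!
POL, row L3: the weight of the marked closed words from below (helper51).
-/

set_option autoImplicit false

namespace HexObs

namespace POL

open Finset TS SDN NTA JNT RP

open scoped ENNReal

/-- the five parts of the closed words with N letters: Z' and D short and narrow, X and Y arcs, Z with the missing
displacement and number of letters -/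
def G5 (m : ℕ → ℝ) (A : Set (List Bool)) (k h1 h3 : ℕ) (e v w : ℝ) (N : ℕ) (Z' X D Y Z : List Bool) : Prop :=
  Z' ∈ TD m k h1 e v ∧ X ∈ A ∧ D ∈ TD m k h3 e v ∧ Y ∈ A ∧
    Z ∈ EndB (hgt D - hgt Z') (latE D + latE Y - latE X - latE Z') ∧
    Z.length = N - (Z'.length + X.length + D.length + Y.length) ∧ ∀ i, i ≤ Z.length → |(lat Z i : ℝ)| ≤ 20 * w * 2 ^ k

lemma pt_ext51 {p q : Pt} (h1 : ip p up = ip q up) (h2 : lt' p = lt' q) : p = q := by
  unfold ip up at h1
  unfold lt' cross up at h2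
  simp at h1 h2
  ext
  · exact h2
  · omega

lemma par_pt (p : Pt) : (lt' p - ip p up) % 2 = 0 := by
  unfold ip lt' cross up
  simp

lemma ev_len {t : List Bool} {a : ℕ} (h : t ∈ Brd a) : t.length % 2 = 0 := by
  have h1 := (mem_Brd.1 h).2.2.2
  have h2 := HexObs.lev_mod t t.length
  rw [h1] at h2
  by_contra hc
  have : ¬ Even t.length := by
    rw [Nat.even_iff]
    exact hc
  rw [if_neg this] at h2
  omega

lemma od_len {t : List Bool} {S : ℕ} (h : t ∈ Ark S) : t.length % 2 = 1 := by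
  have h1 := h.2.2.1
  have h2 := HexObs.lev_mod t t.length
  rw [h1] at h2
  by_contra hc
  have : Even t.length := by
    rw [Nat.even_iff]
    omega
  rw [if_pos this] at h2
  omega

/-- arcs with a foot: the lateral coordinate of the last vertex -/
lemma foot_lat {S a : ℕ} {t : List Bool} (h : t ∈ Arc (St S) ∅ oo up (foot oo up a)) : latE t = 2 * a := by
  have h0 := ark_of h
  have h1 : vx oo up t (t.length + 1) = foot oo up a := h.2
  have h2 : vx oo up t (t.length + 1) = vx oo up t t.length + dx up t t.length := rfl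
  rw [h2, h0.2.2.2] at h1
  have h3 : vx oo up t t.length = foot oo up a + up := by
    rw [← h1]
    abel
  show lt' (vx oo up t t.length) = _
  rw [h3]
  unfold lt' cross foot hz rotR up oo
  simp
  ring

lemma arkW {S : ℕ} {t : List Bool} (h : t ∈ Ark S) : ArcW (3 * S + 1) t where
  pos i h1 h2 := by
    have h3 := h.1 i h1 h2
    have h4 := m3 t i
    omega
  dn := h.2.2.2
  two := h.2.2.1
  one := by
    have := od_len h
    omega

lemma at_ark {m : ℕ → ℝ} {i d : ℕ} {δ L : ℝ} {t : List Bool} (h : t ∈ AT m i d δ L) : t ∈ Ark (2 * 2 ^ i) := by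
  obtain ⟨a, -, -, h1, -⟩ := h
  exact ark_of h1.1

/-- **the geometry: the five parts give a closed word** -/
theorem g5_cy {m : ℕ → ℝ} {k i s d N : ℕ} {v w δ η L : ℝ} (hk : 1 ≤ k) (hw : 0 < w) (hη : 0 < η) (hv : v = w / 4) (hv1 : v ≤ 1 / 2)
    (hδ : δ = η / 80) (hw2 : 20 * w * 2 ^ k = η * 2 ^ i) (hd : η * 2 ^ i ≤ d) (hik : i ≤ k)
    (hl : ∀ Z' X D Y : List Bool, Z' ∈ TD m k (2 ^ (k + s)) (1 / 8) v → X ∈ AT m i d δ L →
      D ∈ TD m k (2 ^ (k + s + 1) + 2 ^ (k + s - 1)) (1 / 8) v → Y ∈ AT m i d δ L →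
        Z'.length + X.length + D.length + Y.length ≤ N) {Z' X D Y Z : List Bool}
    (h : G5 m (AT m i d δ L) k (2 ^ (k + s)) (2 ^ (k + s + 1) + 2 ^ (k + s - 1)) (1 / 8) v w N Z' X D Y Z) :
    Tup (AT m i d δ L) (k + s) Z' X D Y Z ∧ Z' ++ (X ++ (D ++ (Y ++ Z))) ∈ Cy N := by
  obtain ⟨hZ', hX, hD, hY, hZ, hZl, hZt⟩ := h
  have hlen := hl Z' X D Y hZ' hX hD hY
  have hks : 1 ≤ k + s := by omega
  obtain ⟨q, hq⟩ : ∃ q : ℕ, q = 2 ^ (k + s - 1) := ⟨_, rfl⟩
  have hq1 : 2 ^ (k + s) = 2 * q := by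
    rw [hq, ← pow_succ']
    congr 1
    omega
  have hq2 : 2 ^ (k + s + 1) = 4 * q := by
    rw [pow_succ, hq1]
    ring
  have hq3 : 2 ^ (k + s + 2) = 8 * q := by
    rw [pow_succ, hq2]
    ring
  rw [hq2, ← hq] at hD
  rw [hq1] at hZ'
  obtain ⟨hZ1, hZ2, hZ3, hZ4, hZ5⟩ := hZ'
  obtain ⟨hD1, hD2, hD3, hD4, hD5⟩ := hD
  have hBZ' := BUb hZ1
  have hBD := BUb hD1
  -- the small error of the heights
  have hsm : v * 2 ^ k ≤ q := by
    have h1 : (2 : ℝ) ^ k ≤ 2 * q := by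
      have h2 : (2 : ℕ) ^ k ≤ 2 ^ (k + s) := Nat.pow_le_pow_right (by norm_num) (by omega)
      rw [hq1] at h2
      exact_mod_cast h2
    have h3 : (0 : ℝ) < 2 ^ k := by positivity
    nlinarith
  have hZ3' : hgt Z' ≤ 3 * q := by
    have h1 : (hgt Z' : ℝ) ≤ ((2 * q : ℕ) : ℝ) + q := by linarith
    have h2 : hgt Z' ≤ 2 * q + q := by exact_mod_cast h1
    omega
  have hD3' : hgt D ≤ 6 * q := by
    have h1 : (hgt D : ℝ) ≤ ((4 * q + q : ℕ) : ℝ) + q := by linarith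
    have h2 : hgt D ≤ 4 * q + q + q := by exact_mod_cast h1
    omega
  have hq0 : 1 ≤ q := by rw [hq]; exact Nat.one_le_two_pow
  obtain ⟨hh, hhd⟩ : ∃ hh : ℕ, hh = hgt D - hgt Z' := ⟨_, rfl⟩
  rw [← hhd] at hZ
  have hh1 : 2 * q ≤ hh ∧ hh ≤ 4 * q := by omega
  have hBZ := hZ.1
  have hAX := at_ark hX
  have hAY := at_ark hY
  refine ⟨⟨⟨⟨hgt Z', by rw [hq1]; exact hZ2, hBZ'⟩, by rw [hq2]; omega⟩, hX, ⟨hD1, by rw [hq3]; omega⟩, hY,
    ⟨hh, by rw [hq1]; exact hh1.1, hBZ⟩, by rw [hgt_eq hBZ, hq2]; exact hh1.2⟩, ?_⟩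
  obtain ⟨a, ha1, ha2, ha3, ha4⟩ := hX
  obtain ⟨b, hb1, hb2, hb3, hb4⟩ := hY
  have la := foot_lat ha3.1
  have lb := foot_lat hb3.1
  have hpk : (0 : ℝ) < 2 ^ k := by positivity
  have hpi : (0 : ℝ) < 2 ^ i := by positivity
  have hv0 : 0 ≤ v := by rw [hv]; positivity
  have hcy := cy_of (v := v * 2 ^ k) (δ := 2 * δ * 2 ^ i) (W := 20 * w * 2 ^ k) hBZ' hAX hBD hAY hBZ (by omega) (by omega)
    ?_ (by positivity) (by rw [hδ]; positivity) (by positivity) hZ4 hD4 hZt ?_ ?_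
  · have hlN : (Z' ++ (X ++ (D ++ (Y ++ Z)))).length = N := by
      rw [List.length_append, List.length_append, List.length_append, List.length_append, hZl]
      omega
    rw [hlN] at hcy
    exact hcy
  · -- closed
    have e1 : ip (en Z') up = 3 * (hgt Z' : ℤ) := (mem_Brd.1 hBZ').2.2.2
    have e3 : ip (en D) up = 3 * (hgt D : ℤ) := (mem_Brd.1 hBD).2.2.2
    have e5 : ip (en Z) up = 3 * (hh : ℤ) := (mem_Brd.1 hBZ).2.2.2
    have e2 : ip (en X) up = 2 := hAX.2.2.1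
    have e4 : ip (en Y) up = 2 := hAY.2.2.1
    refine pt_ext51 ?_ ?_
    · rw [ip_add', ip_sub', ip_add', e1, e2, e3, e4, e5]
      omega
    · rw [lt_add, lt_sub, lt_add]
      have f5 : lt' (en Z) = latE D + latE Y - latE X - latE Z' := hZ.2
      rw [f5]
      show latE Z' + _ = latE D + latE Y - latE X
      ring
  · rw [la, lb]
    push_cast
    have h1 : (a : ℝ) - b ≤ δ * 2 ^ i := by
      have : (d : ℝ) ≤ b := by exact_mod_cast hb1
      linarith
    have h2 : (b : ℝ) - a ≤ δ * 2 ^ i := by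
      have : (d : ℝ) ≤ a := by exact_mod_cast ha1
      linarith
    rw [abs_le]
    constructor <;> linarith
  · rw [la]
    push_cast
    have h1 : (d : ℝ) ≤ a := by exact_mod_cast ha1
    rw [hv, hδ]
    have h2 : w * 2 ^ k = η * 2 ^ i / 20 := by linarith
    have h3 : 0 < η * 2 ^ i := by positivity
    have h4 : 4 * (w / 4 * 2 ^ k) = w * 2 ^ k := by ring
    have h5 : 2 * (η / 80) * 2 ^ i = η * 2 ^ i / 40 := by ring
    rw [h4, h5, hw2, h2]
    linarith

end POL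

end HexObs
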