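import Pool.Agent.POL.L3Sum

/-!
POL, the radius of gyration of the polygons: short narrow bridges with a long last part (helper51).
-/

set_option autoImplicit false

namespace HexObs

namespace POL

open Finset TS SDN NTA EN RP JNT

open scoped ENNReal

/-- low narrow bridges with at least κ m i letters -/
def LN (m : ℕ → ℝ) (i : ℕ) (w κ : ℝ) : Set (List Bool) :=
  {Z | Z ∈ BU ∧ hgt Z ≤ 4 * 2 ^ i ∧ (∀ j, j ≤ Z.length → |(lat Z j : ℝ)| ≤ w * 2 ^ i) ∧ κ * m i ≤ Z.length ∧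
    (Z.length : ℝ) ≤ 2 * m i}

open scoped Classical in
/-- finitely many disjoint classes -/
lemma sum_cls {ι : Type} (F : Finset ι) (f : List Bool → ι) (S : Set (List Bool)) (Q : ι → Set (List Bool))
    (hQ : ∀ a ∈ F, ∀ t ∈ Q a, t ∈ S ∧ f t = a) {q : ℝ≥0∞} (hq : ∀ a ∈ F, q ≤ gf (Q a)) : (F.card : ℝ≥0∞) * q ≤ gf S := by
  calc (F.card : ℝ≥0∞) * q = ∑ _a ∈ F, q := by rw [Finset.sum_const, nsmul_eq_mul]
    _ ≤ ∑ a ∈ F, gf (Q a) := Finset.sum_le_sum hq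
    _ = ∑' t : List Bool, ∑ a ∈ F, (if t ∈ Q a then wE t else 0) := by
        rw [Summable.tsum_finsetSum fun _ _ => ENNReal.summable]
        exact Finset.sum_congr rfl fun a _ => gfi _
    _ ≤ ∑' t : List Bool, (if t ∈ S then wE t else 0) := by
        refine ENNReal.tsum_le_tsum fun t => ?_
        by_cases hS : t ∈ S
        · rw [if_pos hS]
          by_cases hf : f t ∈ F
          · rw [Finset.sum_eq_single_of_mem (f t) hf]
            · split_ifs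
              · exact le_rfl
              · exact zero_le
            · intro b hb hne
              rw [if_neg]
              intro hc
              exact hne (hQ b hb t hc).2.symm
          · rw [Finset.sum_eq_zero]
            · exact zero_le
            · intro b hb
              rw [if_neg]
              intro hc
              exact hf ((hQ b hb t hc).2 ▸ hb)
        · rw [if_neg hS, Finset.sum_eq_zero]
          intro b hb
          rw [if_neg]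
          intro hc
          exact hS (hQ b hb t hc).1
    _ = gf S := (gfi S).symm

lemma m_iter {m : ℕ → ℝ} {C : ℝ} (hC : 0 < C) (h : ∀ k, m (k + 1) ≤ C * m k) (k j : ℕ) : m (k + j) ≤ C ^ j * m k := by
  induction j with
  | zero => simp
  | succ j ih =>
    calc m (k + (j + 1)) ≤ C * m (k + j) := h (k + j)
      _ ≤ C * (C ^ j * m k) := mul_le_mul_of_nonneg_left ih hC.le
      _ = _ := by ring

/-- the mass of the low narrow bridges with at least κ m i letters -/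
theorem ln_low {m : ℕ → ℝ} (hm : MLow m) (hd : MUp m) (hN : LowNar m) {w : ℝ} (hw : 0 < w) : ∃ (c κ : ℝ) (i0 : ℕ),
    0 < c ∧ 0 < κ ∧ ∀ i : ℕ, i0 ≤ i → ENNReal.ofReal (c * Ub i) ≤ gf (LN m i w κ) := by
  obtain ⟨Cm, hCm, hu⟩ := hd
  have hCm0 : 0 < Cm := by linarith
  obtain ⟨H0, hH⟩ := hN (w / 20) 1 2 (by positivity) one_pos one_le_two
  obtain ⟨H, hHd⟩ : ∃ H, H = H0 + 1 := ⟨_, rfl⟩
  obtain ⟨c5, k5, hc5, h5⟩ := hH H (by omega)
  -- the scale
  obtain ⟨r, hr⟩ : ∃ r : ℕ, H ≤ 2 ^ r := ⟨H, Nat.lt_two_pow_self.le⟩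
  obtain ⟨k6, hk6, hk7⟩ : ∃ k6 : ℕ, 8 ≤ 2 ^ k6 * m 0 ∧ 80 ≤ w * 2 ^ k6 := by
    obtain ⟨a, ha⟩ := pow_unbounded_of_one_lt (8 / m 0 + 80 / w) (by norm_num : (1 : ℝ) < 2)
    have h0 := hm.pos 0
    have h1 : 0 < 8 / m 0 := by positivity
    have h2 : 0 < 80 / w := by positivity
    refine ⟨a, ?_, ?_⟩
    · have h3 : 8 / m 0 < 2 ^ a := by linarith
      rw [div_lt_iff₀ h0] at h3
      exact h3.le
    · have h3 : 80 / w < 2 ^ a := by linarith
      rw [div_lt_iff₀ hw] at h3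
      linarith
  refine ⟨c5 * w / (640 * 2 ^ r), 1 / Cm ^ r, max k5 k6 + r, by positivity, by positivity, fun i hi => ?_⟩
  obtain ⟨k, rfl⟩ : ∃ k, i = k + r := ⟨i - r, by omega⟩
  have hk5 : k5 ≤ k := by have := le_max_left k5 k6; omega
  have hkk6 : k6 ≤ k := by have := le_max_right k5 k6; omega
  have hmk := hm.pos k
  have hmi := hm.pos (k + r)
  have hUk := Ub_pos k
  have hpk : (0 : ℝ) < 2 ^ k := by positivity
  have hp6 : (2 : ℝ) ^ k6 ≤ 2 ^ k := pow_le_pow_right₀ (by norm_num) hkk6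
  have hm8 : 8 ≤ m k := by
    have h1 := hm.low 0 k
    rw [zero_add] at h1
    have h2 : (2 : ℝ) ^ k ≤ (2 : ℝ) ^ (5 / 4 * (k : ℝ)) := by
      rw [← Real.rpow_natCast]
      refine Real.rpow_le_rpow_of_exponent_le (by norm_num) ?_
      have : (0 : ℝ) ≤ k := Nat.cast_nonneg k
      linarith
    have h0 := hm.pos 0
    nlinarith
  have hw80 : 80 ≤ w * 2 ^ k := hk7.trans (mul_le_mul_of_nonneg_left hp6 hw.le)
  have hmr : m (k + r) ≤ Cm ^ r * m k := m_iter hCm0 hu k r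
  obtain ⟨Y, hY⟩ : ∃ Y : ℕ, Y = ⌊w / 40 * 2 ^ k⌋₊ := ⟨_, rfl⟩
  obtain ⟨B, hB⟩ : ∃ B : ℕ, B = ⌊m k / 4⌋₊ := ⟨_, rfl⟩
  obtain ⟨B0, hB0⟩ : ∃ B0 : ℕ, B0 = ⌈m k / 2⌉₊ := ⟨_, rfl⟩
  have hY1 : (Y : ℝ) ≤ w / 40 * 2 ^ k := by rw [hY]; exact Nat.floor_le (by positivity)
  have hY2 : w / 80 * 2 ^ k ≤ Y := by
    have h1 := Nat.lt_floor_add_one (w / 40 * 2 ^ k)
    rw [← hY] at h1
    linarith
  have hB1 : (B : ℝ) ≤ m k / 4 := by rw [hB]; exact Nat.floor_le (by positivity)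
  have hB2 : m k / 8 ≤ B := by
    have h1 := Nat.lt_floor_add_one (m k / 4)
    rw [← hB] at h1
    linarith
  have hB3 : m k / 2 ≤ B0 := by rw [hB0]; exact Nat.le_ceil _
  have hB4 : (B0 : ℝ) ≤ m k / 2 + 1 := by rw [hB0]; exact (Nat.ceil_lt_add_one (by positivity)).le
  obtain ⟨F, hF⟩ : ∃ F : Finset (ℕ × ℕ × ℕ), F = range (2 ^ k) ×ˢ (range Y ×ˢ range B) := ⟨_, rfl⟩
  obtain ⟨g, hg⟩ : ∃ g : ℕ × ℕ × ℕ → ℕ × ℤ × ℕ, g = fun a => (H * 2 ^ k + a.1, (((H * 2 ^ k + a.1) % 2 : ℕ) : ℤ) + 2 * a.2.1,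
    2 * (B0 + a.2.2)) := ⟨_, rfl⟩
  have hgi : Function.Injective g := by
    rintro ⟨a, b, c⟩ ⟨a', b', c'⟩ h
    rw [hg] at h
    simp only [Prod.mk.injEq] at h
    obtain ⟨h1, h2, h3⟩ := h
    have e1 : a = a' := by omega
    subst e1
    simp only [Prod.mk.injEq, true_and]
    omega
  have hcard : (F.image g).card = 2 ^ k * (Y * B) := by
    rw [Finset.card_image_of_injective _ hgi, hF]
    simp
  have hsum := sum_cls (F.image g) (fun Z => (hgt Z, latE Z, Z.length)) (LN m (k + r) w (1 / Cm ^ r))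
    (fun a => {Z | Z ∈ EndB a.1 a.2.1 ∧ Z.length = a.2.2 ∧ ∀ i, i ≤ Z.length → |(lat Z i : ℝ)| ≤ 20 * (w / 20) * 2 ^ k})
    (q := ENNReal.ofReal (c5 * (Ub k / (4 ^ k * m k)))) ?_ ?_
  · refine le_trans ?_ hsum
    rw [hcard, ← ENNReal.ofReal_natCast, ← ENNReal.ofReal_mul (by positivity)]
    apply ENNReal.ofReal_le_ofReal
    have h1 := Ub_iter k r
    have h4 : (4 : ℝ) ^ k = 2 ^ k * 2 ^ k := by
      rw [← mul_pow]
      norm_num
    have h2 : 2 ^ k * (w / 80 * 2 ^ k * (m k / 8)) ≤ ((2 ^ k * (Y * B) : ℕ) : ℝ) := by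
      push_cast
      exact mul_le_mul_of_nonneg_left (mul_le_mul hY2 hB2 (by positivity) (by positivity)) hpk.le
    calc c5 * w / (640 * 2 ^ r) * Ub (k + r) ≤ c5 * w / (640 * 2 ^ r) * (2 ^ r * Ub k) :=
          mul_le_mul_of_nonneg_left h1 (by positivity)
      _ = 2 ^ k * (w / 80 * 2 ^ k * (m k / 8)) * (c5 * (Ub k / (4 ^ k * m k))) := by
          rw [h4]
          field_simp
          norm_num
      _ ≤ _ := mul_le_mul_of_nonneg_right h2 (by positivity)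
  · rintro ⟨a1, a2, a3⟩ ha t ht
    obtain ⟨⟨h1, h2⟩, h3, h4⟩ := ht
    rw [Finset.mem_image] at ha
    obtain ⟨⟨b1, b2, b3⟩, hb, hb'⟩ := ha
    rw [hg] at hb'
    simp only [Prod.mk.injEq] at hb'
    obtain ⟨e1, e2, e3⟩ := hb'
    rw [hF, Finset.mem_product, Finset.mem_product, Finset.mem_range, Finset.mem_range, Finset.mem_range] at hb
    obtain ⟨r1, r2, r3⟩ := hb
    simp only at r1 r2 r3 h1 h2 h3
    have r3' : (b3 : ℝ) + 1 ≤ B := by exact_mod_cast r3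
    have hlen : (t.length : ℝ) = 2 * (B0 + b3) := by
      rw [h3, ← e3]
      push_cast
      ring
    have hmki : m k ≤ m (k + r) := by
      have h1 := hm.low k r
      have h2 : (1 : ℝ) ≤ (2 : ℝ) ^ (5 / 4 * (r : ℝ)) := Real.one_le_rpow (by norm_num) (by positivity)
      nlinarith
    refine ⟨⟨⟨_, h1⟩, ?_, fun j hj => (h4 j hj).trans ?_, ?_, ?_⟩, ?_⟩
    · rw [hgt_eq h1, ← e1, pow_add]
      have h6 : H * 2 ^ k ≤ 2 ^ r * 2 ^ k := Nat.mul_le_mul_right _ hr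
      have h7 : 2 ^ k ≤ 2 ^ r * 2 ^ k := Nat.le_mul_of_pos_left _ (by positivity)
      nlinarith
    · rw [pow_add]
      have h6 : (1 : ℝ) ≤ 2 ^ r := one_le_pow₀ (by norm_num)
      have h7 : 0 < w * 2 ^ k := by positivity
      nlinarith
    · rw [hlen, div_mul_eq_mul_div, one_mul, div_le_iff₀ (by positivity)]
      have h6 : m k ≤ 2 * (B0 + b3) := by
        have : (0 : ℝ) ≤ b3 := Nat.cast_nonneg b3
        linarith
      calc m (k + r) ≤ Cm ^ r * m k := hmr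
        _ ≤ Cm ^ r * (2 * (B0 + b3)) := mul_le_mul_of_nonneg_left h6 (by positivity)
        _ = _ := by ring
    · rw [hlen]
      linarith
    · rw [hgt_eq h1, h3]
      exact Prod.ext rfl (Prod.ext h2 rfl)
  · intro a ha
    rw [Finset.mem_image] at ha
    obtain ⟨⟨b1, b2, b3⟩, hb, hb'⟩ := ha
    rw [hF, Finset.mem_product, Finset.mem_product, Finset.mem_range, Finset.mem_range, Finset.mem_range] at hb
    obtain ⟨r1, r2, r3⟩ := hb
    simp only at r1 r2 r3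
    have r3' : (b3 : ℝ) + 1 ≤ B := by exact_mod_cast r3
    have r2' : (b2 : ℝ) + 1 ≤ Y := by exact_mod_cast r2
    rw [← hb', hg]
    simp only
    refine h5 k _ _ _ hk5 (by omega) ?_ ?_ ?_ ?_ ?_ ?_
    · have h6 : 1 * 2 ^ k ≤ H * 2 ^ k := Nat.mul_le_mul_right _ (by omega)
      omega
    · rw [Int.even_iff]
      omega
    · have h6 : (0 : ℤ) ≤ (((H * 2 ^ k + b1) % 2 : ℕ) : ℤ) + 2 * (b2 : ℤ) := by omega
      have h7 : (((H * 2 ^ k + b1) % 2 : ℕ) : ℤ) + 2 * (b2 : ℤ) ≤ 1 + 2 * (b2 : ℤ) := by omega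
      have h8 : (((((H * 2 ^ k + b1) % 2 : ℕ) : ℤ) + 2 * (b2 : ℤ) : ℤ) : ℝ) ≤ 1 + 2 * (b2 : ℝ) := by exact_mod_cast h7
      rw [abs_of_nonneg (by exact_mod_cast h6)]
      have h9 : w / 40 * 2 ^ k = w / 20 * 2 ^ k / 2 := by ring
      linarith
    · exact ⟨B0 + b3, by ring⟩
    · push_cast
      have : (0 : ℝ) ≤ b3 := Nat.cast_nonneg b3
      linarith
    · push_cast
      linarith

/-- a long last part -/
def LG (m : ℕ → ℝ) (κ : ℝ) (k : ℕ) (D : List Bool) : Prop := ∃ M Z1 : List Bool, D = M ++ Z1 ∧ M ∈ BU ∧ Z1 ∈ BU ∧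
  2 ^ k ≤ hgt M ∧ κ * m k ≤ Z1.length

/-- the class of the induction -/
def CLL (m : ℕ → ℝ) (i : ℕ) (w κ A A2 : ℝ) (n h : ℕ) : Set (List Bool) :=
  {D | D ∈ BU ∧ h ≤ hgt D ∧ hgt D ≤ h + 8 * 2 ^ i ∧ (∀ j, j ≤ D.length → |(lat D j : ℝ)| ≤ (n + 6) * (w * 2 ^ i)) ∧
    (D.length : ℝ) ≤ (n * A + A2) * m i ∧ ∃ M Z1 : List Bool, D = M ++ Z1 ∧ M ∈ BU ∧ Z1 ∈ BU ∧ hgt Z1 ≤ 4 * 2 ^ i ∧
      κ * m i ≤ Z1.length}

lemma cll_step {m : ℕ → ℝ} {i : ℕ} {w κ A A2 : ℝ} (hw : 0 < w) (hA : 0 ≤ A) (hmi : 0 < m i) {p v : ℝ} (hp : 0 ≤ p)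
    (hF : ENNReal.ofReal p ≤ gf (FN m i w A)) {n : ℕ}
    (ih : ∀ h, h ≤ (n + 2) * 2 ^ i → ENNReal.ofReal v ≤ gf (CLL m i w κ A A2 n h)) (h : ℕ) (hh : h ≤ (n + 1 + 2) * 2 ^ i)
    (h2 : 2 * 2 ^ i < h) : ENNReal.ofReal (p * v) ≤ gf (CLL m i w κ A A2 (n + 1) h) := by
  rw [ENNReal.ofReal_mul hp]
  refine (mul_le_mul_left hF _).trans (dep_ge (Q := fun a => CLL m i w κ A A2 n (h - hgt a)) ?_ ?_ ?_)
  · rintro a ⟨⟨j, ha⟩, a2, a3, a4⟩ D ⟨d1, d2, d3, d4, d5, M, Z1, e1, e2, e3, e4, e5⟩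
    have hj := hgt_eq ha.1
    have hs := ha.2.1
    have hD := BUb d1
    have hap := Brd_append ha.1 hD
    have ha3 := (mem_Brd.1 ha.1).2.2.1
    have hat : hgt a ≤ 2 * 2 ^ i := by rw [pow_succ] at a2; omega
    have hlw : 0 < w * 2 ^ i := by positivity
    refine ⟨⟨_, hap⟩, ?_, ?_, fun l hl => ?_, ?_, a ++ M, Z1, by rw [e1, List.append_assoc],
      ⟨_, Brd_append ha.1 (BUb e2)⟩, e3, e4, e5⟩
    · rw [hgt_eq hap]
      omega
    · rw [hgt_eq hap]
      omega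
    · rw [List.length_append] at hl
      rcases Nat.lt_or_ge a.length l with hl2 | hl2
      · obtain ⟨l', rfl⟩ : ∃ l', l = a.length + l' := ⟨l - a.length, by omega⟩
        rw [lat_cat ha3]
        have e1 := a3 a.length le_rfl
        have e2 := d4 l' (by omega)
        push_cast
        refine (abs_add_le _ _).trans ?_
        unfold latE
        linarith
      · rw [lat_append (by omega)]
        have e1 := a3 l hl2
        push_cast
        have : (0 : ℝ) ≤ n := Nat.cast_nonneg n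
        nlinarith
    · rw [List.length_append]
      push_cast
      linarith
  · rintro a ⟨⟨j, ha⟩, -⟩ D ⟨d1, -⟩ a' ⟨⟨j', ha'⟩, -⟩ D' ⟨d1', -⟩ he
    exact (FC_unique ha ha' (BUb d1) (BUb d1') he).1
  · rintro a ⟨⟨j, ha⟩, a2, -⟩
    have hj := hgt_eq ha.1
    have hs := ha.2.1
    refine ih _ ?_
    have e : (n + 1 + 2) * 2 ^ i = (n + 2) * 2 ^ i + 2 ^ i := by ring
    omega

lemma cll_all {m : ℕ → ℝ} {i : ℕ} {w κ A A2 : ℝ} (hw : 0 < w) (hA : 0 ≤ A) (hmi : 0 < m i) {p v : ℝ} (hp : 0 ≤ p)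
    (hp1 : p ≤ 1) (hv : 0 ≤ v) (hF : ENNReal.ofReal p ≤ gf (FN m i w A)) (h0 : ∀ h, h ≤ 2 * 2 ^ i →
      ENNReal.ofReal v ≤ gf (CLL m i w κ A A2 0 h)) (n : ℕ) :
    ∀ h, h ≤ (n + 2) * 2 ^ i → ENNReal.ofReal (p ^ n * v) ≤ gf (CLL m i w κ A A2 n h) := by
  have mono : ∀ n h, CLL m i w κ A A2 0 h ⊆ CLL m i w κ A A2 n h := by
    rintro n h D ⟨d1, d2, d3, d4, d5, d6⟩
    have hlw : 0 < w * 2 ^ i := by positivity
    have hn : (0 : ℝ) ≤ n := Nat.cast_nonneg n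
    refine ⟨d1, d2, d3, fun j hj => (d4 j hj).trans ?_, d5.trans ?_, d6⟩
    · push_cast
      nlinarith
    · push_cast
      have : 0 ≤ (n : ℝ) * A * m i := by positivity
      nlinarith
  induction n with
  | zero =>
    intro h hh
    rw [pow_zero, one_mul]
    exact h0 h (by simpa using hh)
  | succ n ih =>
    intro h hh
    rcases Nat.lt_or_ge (2 * 2 ^ i) h with h2 | h2
    · have := cll_step hw hA hmi hp hF (A2 := A2) (v := p ^ n * v) ih h (by simpa [add_assoc] using hh) h2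
      rw [pow_succ', mul_assoc]
      exact this
    · refine ((ENNReal.ofReal_le_ofReal ?_).trans (h0 h h2)).trans (gf_mono (mono _ h))
      have : p ^ (n + 1) ≤ 1 := pow_le_one₀ hp hp1
      nlinarith

/-- **short narrow bridges with a long last part** -/
theorem tdL {m : ℕ → ℝ} (hm : MLow m) (hd : MUp m) (hM : Mk m) (hL : LowNar m) : TDP m (LG m) := by
  intro H e v he hv
  obtain ⟨w, hw⟩ : ∃ w : ℝ, w = v / (H + 6) := ⟨_, rfl⟩
  have hH0 : (0 : ℝ) ≤ H := Nat.cast_nonneg H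
  have hw0 : 0 < w := by rw [hw]; positivity
  obtain ⟨c0, A, i0, hc0, hA, hN⟩ := fn_low hm hd hM hw0
  obtain ⟨cL, κ, iL, hcL, hκ, hLN⟩ := ln_low hm hd hL hw0
  obtain ⟨Cm, hCm, hu⟩ := id hd
  have hCm0 : 0 < Cm := by linarith
  obtain ⟨p, hp⟩ : ∃ p : ℝ, p = min c0 1 := ⟨_, rfl⟩
  have hp0 : 0 < p := by rw [hp]; exact lt_min hc0 one_pos
  have hp1 : p ≤ 1 := by rw [hp]; exact min_le_right _ _
  obtain ⟨G, hG⟩ : ∃ G : ℝ, G = H * A + (A * Cm + 2) := ⟨_, rfl⟩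
  have hG0 : 0 < G := by rw [hG]; positivity
  -- the scale of the pieces
  obtain ⟨j, hj1, hj2⟩ : ∃ j : ℕ, 8 ≤ v * 2 ^ j ∧ G ≤ e * (2 : ℝ) ^ ((j : ℝ) / 4) := by
    obtain ⟨j1, hj1⟩ := pow_unbounded_of_one_lt (8 / v) (by norm_num : (1 : ℝ) < 2)
    obtain ⟨j2, hj2⟩ := pow_unbounded_of_one_lt (G / e) (by norm_num : (1 : ℝ) < 2)
    refine ⟨max j1 (4 * j2), ?_, ?_⟩
    · have h1 : (2 : ℝ) ^ j1 ≤ 2 ^ (max j1 (4 * j2)) := pow_le_pow_right₀ (by norm_num) (le_max_left _ _)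
      rw [div_lt_iff₀ hv] at hj1
      nlinarith
    · have h1 : (2 : ℝ) ^ j2 ≤ (2 : ℝ) ^ ((max j1 (4 * j2) : ℕ) / 4 : ℝ) := by
        rw [← Real.rpow_natCast]
        apply Real.rpow_le_rpow_of_exponent_le (by norm_num)
        rw [le_div_iff₀ (by norm_num)]
        have : ((4 * j2 : ℕ) : ℝ) ≤ ((max j1 (4 * j2) : ℕ) : ℝ) := by exact_mod_cast le_max_right _ _
        push_cast at this ⊢
        linarith
      rw [div_lt_iff₀ he] at hj2
      calc G ≤ 2 ^ j2 * e := hj2.le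
        _ ≤ (2 : ℝ) ^ ((max j1 (4 * j2) : ℕ) / 4 : ℝ) * e := mul_le_mul_of_nonneg_right h1 he.le
        _ = _ := by ring
  obtain ⟨n, hn⟩ : ∃ n : ℕ, n = H * 2 ^ j := ⟨_, rfl⟩
  refine ⟨p ^ n * (c0 * cL) / 2 ^ j, κ / Cm ^ j, max i0 iL + j, by positivity, by positivity, fun k h hk hh8 hh => ?_⟩
  obtain ⟨i, rfl⟩ : ∃ i, k = i + j := ⟨k - j, by omega⟩
  have hi0 : i0 ≤ i := by have := le_max_left i0 iL; omega
  have hiL : iL ≤ i := by have := le_max_right i0 iL; omega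
  have hmi := hm.pos i
  have hUi := Ub_pos i
  have hnR : (n : ℝ) = H * 2 ^ j := by rw [hn]; push_cast; ring
  have hall := cll_all (A2 := A * Cm + 2) (κ := κ) hw0 hA.le hmi hp0.le hp1 (v := c0 * (cL * Ub i)) (by positivity)
    ((ENNReal.ofReal_le_ofReal (by rw [hp]; exact min_le_left _ _)).trans (hN i hi0).1) ?_ n h ?_
  · refine (ENNReal.ofReal_le_ofReal ?_).trans (hall.trans (gf_mono ?_))
    · have h1 := Ub_iter i j
      calc p ^ n * (c0 * cL) / 2 ^ j * Ub (i + j) ≤ p ^ n * (c0 * cL) / 2 ^ j * (2 ^ j * Ub i) :=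
            mul_le_mul_of_nonneg_left h1 (by positivity)
        _ = p ^ n * (c0 * (cL * Ub i)) := by field_simp
    · rintro D ⟨d1, d2, d3, d4, d5, M, Z1, q1, q2, q3, q4, q5⟩
      have e2 : (2 : ℝ) ^ (i + j) = 2 ^ i * 2 ^ j := pow_add _ _ _
      have hpi : (0 : ℝ) < 2 ^ i := by positivity
      have hpj : (1 : ℝ) ≤ 2 ^ j := one_le_pow₀ (by norm_num)
      refine ⟨⟨d1, d2, ?_, fun l hl => (d4 l hl).trans ?_, d5.trans ?_⟩, M, Z1, q1, q2, q3, ?_, ?_⟩
      · have h3 : (hgt D : ℝ) ≤ h + 8 * 2 ^ i := by exact_mod_cast d3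
        rw [e2]
        nlinarith
      · rw [e2, hnR, hw]
        have h3 : (H * 2 ^ j + 6 : ℝ) ≤ (H + 6) * 2 ^ j := by nlinarith
        calc ((H : ℝ) * 2 ^ j + 6) * (v / (H + 6) * 2 ^ i) ≤ ((H + 6) * 2 ^ j) * (v / (H + 6) * 2 ^ i) :=
              mul_le_mul_of_nonneg_right h3 (by positivity)
          _ = v * (2 ^ i * 2 ^ j) := by field_simp
      · have h3 := hm.low i j
        have h4 : (2 : ℝ) ^ (5 / 4 * (j : ℝ)) = 2 ^ j * (2 : ℝ) ^ ((j : ℝ) / 4) := by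
          rw [← Real.rpow_natCast, ← Real.rpow_add (by norm_num)]
          congr 1
          ring
        rw [h4] at h3
        have h5 : ((n : ℝ) * A + (A * Cm + 2)) ≤ 2 ^ j * G := by
          rw [hnR, hG]
          have : A * Cm + 2 ≤ 2 ^ j * (A * Cm + 2) := le_mul_of_one_le_left (by positivity) hpj
          nlinarith
        calc ((n : ℝ) * A + (A * Cm + 2)) * m i ≤ 2 ^ j * G * m i := mul_le_mul_of_nonneg_right h5 hmi.le
          _ ≤ 2 ^ j * (e * (2 : ℝ) ^ ((j : ℝ) / 4)) * m i := by gcongr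
          _ = e * (2 ^ j * (2 : ℝ) ^ ((j : ℝ) / 4) * m i) := by ring
          _ ≤ e * m (i + j) := mul_le_mul_of_nonneg_left h3 he.le
      · have h6 : hgt D = hgt M + hgt Z1 := by
          rw [q1]
          exact hgt_eq (Brd_append (BUb q2) (BUb q3))
        have h7 : 2 ^ i ≤ 2 ^ (i + j) := Nat.pow_le_pow_right (by norm_num) (by omega)
        have h8 : 2 ^ (i + j + 3) = 8 * 2 ^ (i + j) := by rw [pow_add]; ring
        omega
      · have h6 := m_iter hCm0 hu i j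
        rw [div_mul_eq_mul_div, div_le_iff₀ (by positivity)]
        calc κ * m (i + j) ≤ κ * (Cm ^ j * m i) := mul_le_mul_of_nonneg_left h6 hκ.le
          _ = κ * m i * Cm ^ j := by ring
          _ ≤ _ := mul_le_mul_of_nonneg_right q5 (by positivity)
  · -- the base
    intro h' hh'
    have h1 := (hN (i + 1) (by omega)).1
    have h2 := hLN i hiL
    rw [ENNReal.ofReal_mul hc0.le]
    refine (mul_le_mul_left h1 _).trans (dep_ge (Q := fun _ => LN m i w κ) ?_ ?_ fun _ _ => h2)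
    · rintro a ⟨⟨j', ha⟩, a2, a3, a4⟩ Z ⟨z1, z2, z3, z4, z5⟩
      have hj := hgt_eq ha.1
      have hs := ha.2.1
      have hZ := BUb z1
      have hap := Brd_append ha.1 hZ
      have ha3 := (mem_Brd.1 ha.1).2.2.1
      have e1 : 2 ^ (i + 1) = 2 * 2 ^ i := by ring
      have e3 : 2 ^ (i + 1 + 1) = 4 * 2 ^ i := by ring
      have e4 : (2 : ℝ) ^ (i + 1) = 2 * 2 ^ i := by ring
      have hlw : 0 < w * 2 ^ i := by positivity
      refine ⟨⟨_, hap⟩, ?_, ?_, fun l hl => ?_, ?_, a, Z, rfl, ⟨_, ha.1⟩, z1, z2, z4⟩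
      · rw [hgt_eq hap]
        omega
      · rw [hgt_eq hap]
        omega
      · rw [List.length_append] at hl
        rw [e4] at a3
        rcases Nat.lt_or_ge a.length l with hl2 | hl2
        · obtain ⟨l', rfl⟩ : ∃ l', l = a.length + l' := ⟨l - a.length, by omega⟩
          rw [lat_cat ha3]
          have f1 := a3 a.length le_rfl
          have f2 := z3 l' (by omega)
          push_cast
          refine (abs_add_le _ _).trans ?_
          unfold latE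
          linarith
        · rw [lat_append (by omega)]
          have f1 := a3 l hl2
          push_cast
          linarith
      · rw [List.length_append]
        push_cast
        have h3 := mul_le_mul_of_nonneg_left (hu i) hA.le
        have h4 : A * (Cm * m i) = A * Cm * m i := by ring
        linarith
    · rintro a ⟨⟨j', ha⟩, -⟩ D ⟨d1, -⟩ a' ⟨⟨j'', ha'⟩, -⟩ D' ⟨d1', -⟩ he
      exact (FC_unique ha ha' (BUb d1) (BUb d1') he).1
  · rw [hn]
    have : H * 2 ^ (i + j) = H * 2 ^ j * 2 ^ i := by ring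
    nlinarith [Nat.zero_le (2 ^ i)]

end POL

end HexObs
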