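import Pool.Agent.POL.Sel2
import Pool.Agent.SIM.RunB
import Pool.Agent.EN.Marks

/-!
POL, the MASTER theorem for runs with a tall merged leaf: **closed words with M + 2 plain leaves of the scale kc and a leaf of
the class RT before or behind them**.
-/

set_option autoImplicit false

namespace HexObs

namespace POL

open Finset TS SDN NTW NTA SIM JNT

open scoped ENNReal Classical

/-- a tall leaf (of the class RT) before or behind n plain leaves -/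
def TlR (n : ℕ) (RT : Set (List (List Bool))) : Set (List (List Bool)) :=
  {gs | ∃ (g : List Bool) (ms : List (List Bool)), ms.length = n ∧ (gs = g :: ms ∨ gs = ms ++ [g]) ∧ [g] ∈ RT}

/-- the last level -/
lemma last_le {Cu : ℝ} {ku : ℕ} (hCu : 1 ≤ Cu)
    (hunl : ∀ (kc J : ℕ) (R : Set (List (List Bool))) (δ : ℝ), ku ≤ kc → 6 ≤ J → 0 < δ → SmR DmJ kc R δ →
      gf {w | w ∈ WL (kc + J) ∧ w ∈ HRf kc {gs | (∀ x ∈ gs, x ∈ BrR (2 ^ (kc + 4)) (2 ^ (kc + J + 2))) → gs ∈ R}} ≤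
        ENNReal.ofReal (Cu ^ (kc + J + 1) * δ))
    {N kc J : ℕ} {R : Set (List (List Bool))} {y : ℝ} (hN : 1 ≤ N) (hk : ku ≤ kc) (hJ : 6 ≤ J) (hy : 0 < y)
    (hR : SmR DmJ kc R y) :
    gf {t | t ∈ Cy N ∧ ∃ (X Y w : List Bool) (c : Bool), t = X ++ Y ∧ Y ++ X = w ++ [c] ∧ w ∈ WL (kc + J) ∧
      w ∈ HRf kc {gs | (∀ x ∈ gs, x ∈ BrR (2 ^ (kc + 4)) (2 ^ (kc + J + 2))) → gs ∈ R}} ≤
      ENNReal.ofReal (N * ((2 * Cu ^ 2) ^ J * (Cu ^ kc * y))) := by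
  have hCu0 : 0 < Cu := by linarith
  refine (rot_triv {w | w ∈ WL (kc + J) ∧
    w ∈ HRf kc {gs | (∀ x ∈ gs, x ∈ BrR (2 ^ (kc + 4)) (2 ^ (kc + J + 2))) → gs ∈ R}} hN fun t ht => ht).trans ?_
  have h1 := hunl kc J R y hk hJ hy hR
  have h2 : (2 : ℝ≥0∞) * (N : ℝ≥0∞) = ENNReal.ofReal (2 * N) := by
    rw [ENNReal.ofReal_mul (by norm_num), ENNReal.ofReal_natCast]
    norm_num
  rw [h2]
  refine (mul_le_mul' le_rfl h1).trans ?_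
  rw [← ENNReal.ofReal_mul (by positivity)]
  refine ENNReal.ofReal_le_ofReal ?_
  have e1 : 2 * Cu ^ (J + 1) ≤ (2 * Cu ^ 2) ^ J := by
    rw [mul_pow, ← pow_mul]
    have f1 : (2 : ℝ) ≤ 2 ^ J := by
      calc (2 : ℝ) = 2 ^ 1 := (pow_one _).symm
        _ ≤ 2 ^ J := pow_le_pow_right₀ (by norm_num) (by omega)
    have f2 : Cu ^ (J + 1) ≤ Cu ^ (2 * J) := pow_le_pow_right₀ hCu (by omega)
    gcongr
  calc 2 * (N : ℝ) * (Cu ^ (kc + J + 1) * y) = N * ((2 * Cu ^ (J + 1)) * (Cu ^ kc * y)) := by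
        rw [show kc + J + 1 = kc + (J + 1) by ring, pow_add]
        ring
    _ ≤ N * ((2 * Cu ^ 2) ^ J * (Cu ^ kc * y)) := by gcongr

/-- **MASTER, tall leaves** -/
theorem master2 (hNA : NormAll2) (hRE : REq) (hRR : RootRun) (hRM : RootRunM) : ∃ (s3 M k0 : ℕ) (C : ℝ), 1 ≤ C ∧ 6 ≤ M ∧
    ∀ (N kc J D0 : ℕ) (RT : Set (List (List Bool))) (dT : ℝ), 1 ≤ N → k0 ≤ kc → 6 ≤ J → 1 ≤ D0 → s3 * (D0 + 1) ≤ kc →
      0 < dT → SmR DmJ kc RT dT →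
      gf (RotC N (kc + J) (HRm kc (TlR (M + 2) RT))) ≤
        ENNReal.ofReal ((C ^ (J + D0) * dT + C ^ (J + 1) / 2 ^ D0) * (N / w4 mM (kc + J))) := by
  obtain ⟨s1, s2, s3, hs1, hs2, hs3, hNA⟩ := hNA
  obtain ⟨Cr, ke, hCr, hRE⟩ := hRE
  obtain ⟨Kr, hKr, hroot⟩ := root_le
  obtain ⟨Cu, ku, hCu, hunl⟩ := unl
  obtain ⟨Cm, hCm, hup⟩ := TI.mup_pow (w4_up mup_M)
  obtain ⟨Kb, hKb, hbox⟩ := EN.smD_box
  have hCr0 : 0 < Cr := by linarith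
  have hCu0 : 0 < Cu := by linarith
  have hCm0 : 0 < Cm := by linarith
  have hKr0 : 0 < Kr := by linarith
  have hKb0 : 0 < Kb := by linarith
  obtain ⟨Cx, hCx⟩ : ∃ Cx, Cx = 2 ^ s1 * Cr ^ (s1 + s2) * Cu := ⟨_, rfl⟩
  have hp1 : (1 : ℝ) ≤ 2 ^ s1 := one_le_pow₀ (by norm_num)
  have hp2 : 1 ≤ Cr ^ (s1 + s2) := one_le_pow₀ hCr
  have hp3 : 1 ≤ 2 ^ s1 * Cr ^ (s1 + s2) := one_le_mul_of_one_le_of_one_le hp1 hp2
  have hCx1 : 1 ≤ Cx := by rw [hCx]; exact one_le_mul_of_one_le_of_one_le hp3 hCu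
  have hCxa : 2 ^ s1 * Cr ^ (s1 + s2) ≤ Cx := by
    rw [hCx]
    exact le_mul_of_one_le_right (by linarith) hCu
  have hCxb : Cu ≤ Cx := by
    rw [hCx]
    exact le_mul_of_one_le_left hCu0.le hp3
  obtain ⟨M, kn, C, hC, hM, hNA⟩ := hNA Cx hCx1
  have hC0 : 0 < C := by linarith
  obtain ⟨A1, hA1⟩ : ∃ A1, A1 = Kr * 2 ^ (4 + s1) * Cr ^ (10 + (s1 + s2)) * (2 * Cr) := ⟨_, rfl⟩
  have hA11 : 1 ≤ A1 := by
    rw [hA1]
    have a1 : (1 : ℝ) ≤ 2 ^ (4 + s1) := one_le_pow₀ (by norm_num)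
    have a2 : 1 ≤ Cr ^ (10 + (s1 + s2)) := one_le_pow₀ hCr
    exact one_le_mul_of_one_le_of_one_le (one_le_mul_of_one_le_of_one_le (one_le_mul_of_one_le_of_one_le hKr a1) a2)
      (by linarith)
  have hCu2 : 1 ≤ 2 * Cu ^ 2 := by
    have : 1 ≤ Cu ^ 2 := one_le_pow₀ hCu
    linarith
  obtain ⟨A, hAA⟩ : ∃ A, A = A1 * (2 * Cu ^ 2) := ⟨_, rfl⟩
  have hA1A : A1 ≤ A := by rw [hAA]; exact le_mul_of_one_le_right (by linarith) hCu2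
  have hA2A : 2 * Cu ^ 2 ≤ A := by rw [hAA]; exact le_mul_of_one_le_left (by linarith) hA11
  have hA0 : 1 ≤ A := hA11.trans hA1A
  have hA00 : 0 < A := by linarith
  have hB1 : 1 ≤ A * Cm * (4 * Kb) := by
    refine one_le_mul_of_one_le_of_one_le (one_le_mul_of_one_le_of_one_le hA0 hCm) (by linarith)
  refine ⟨s3, M, kn + ku + 2 * (ke + 10), A * Cm * (4 * Kb) * C, one_le_mul_of_one_le_of_one_le hB1 hC, hM,
    fun N kc J D0 RT dT hN hk hJ hD0 hDk hdT hRT => ?_⟩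
  obtain ⟨I, G, hG, hNA⟩ := hNA kc D0 (by omega) hD0 hDk
  have hS : SmR DmJ kc (Sgl kc J) (Kb * 2 ^ J) := by
    have h1 := smR_single (hbox kc J)
    refine NTA.SmR_mono ?_ h1
    rintro r ⟨g, rfl, hg⟩
    exact ⟨g, hg, rfl⟩
  obtain ⟨x, x1, -, hx, hx1, -, n1, n2, -, -, e1, e2, -⟩ := hNA J RT RT dT dT hJ hdT hdT hRT hRT
  obtain ⟨x', -, y, hx', -, hy, -, -, n3, n4, -, -, e3⟩ := hNA J (Sgl kc J) (Sgl kc J) (Kb * 2 ^ J) (Kb * 2 ^ J) hJ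
    (by positivity) (by positivity) hS hS
  have hwk := w4_pos mlow_M kc
  have hwK := w4_pos mlow_M (kc + J)
  have hNR : (0 : ℝ) < N := by exact_mod_cast hN
  have hDi : ∀ i ≤ I, ke + (s1 + s2) * (D0 * 2 ^ i + 1) + 10 ≤ kc := by
    intro i hi
    have h1 := (hG i hi).1
    have h2 : 2 * ((s1 + s2) * (D0 * 2 ^ i + 1)) ≤ kc := by
      calc 2 * ((s1 + s2) * (D0 * 2 ^ i + 1)) = 2 * (s1 + s2) * (D0 * 2 ^ i + 1) := by ring
        _ ≤ s3 * (D0 * 2 ^ i + 1) := Nat.mul_le_mul_right _ hs3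
        _ ≤ kc := h1
    omega
  have hlev : ∀ (i : ℕ) (R : Set (List (List Bool))) (z : ℝ), i ≤ I → 0 < z → SmRL labN DmJ kc R z →
      gf (RC N (2 ^ (kc - 4 - s1 * (D0 * 2 ^ i + 1))) (kc - 3)
        (TwoF (kc - 5 - (s1 + s2) * (D0 * 2 ^ i + 1)) (kc + J) ∩ ERw kc J R)) ≤
        ENNReal.ofReal (N * A ^ J * (Cx ^ (D0 * 2 ^ i) * z)) := by
    intro i R z hi hz hR
    refine (level_le hKr hCr hroot hRE (N := N) (hDi i hi) hJ hz hR).trans (ENNReal.ofReal_le_ofReal ?_)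
    rw [← hA1, mul_assoc (N : ℝ)]
    gcongr
  have hlast := last_le hCu hunl (N := N) hN (show ku ≤ kc by omega) hJ hy n4
  obtain ⟨E, hE⟩ : ∃ E : Set (List Bool), E = {t | t ∈ Cy N ∧ ∃ (X Y w : List Bool) (c : Bool), t = X ++ Y ∧
    Y ++ X = w ++ [c] ∧ w ∈ WL (kc + J) ∧
      w ∈ HRf kc {gs | (∀ x ∈ gs, x ∈ BrR (2 ^ (kc + 4)) (2 ^ (kc + J + 2))) → gs ∈ RZ kc J M (Sgl kc J) (G I)}} :=
    ⟨_, rfl⟩
  obtain ⟨T, hT⟩ : ∃ T : ℕ → Set (List (List Bool)) → Set (List Bool), T = fun i R =>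
    RC N (2 ^ (kc - 4 - s1 * (D0 * 2 ^ i + 1))) (kc - 3)
      (TwoF (kc - 5 - (s1 + s2) * (D0 * 2 ^ i + 1)) (kc + J) ∩ ERw kc J R) := ⟨_, rfl⟩
  have hcov : RotC N (kc + J) (HRm kc (TlR (M + 2) RT)) ⊆ (T 0 (RA kc J M RT (G 0)) ∪ T 0 (RAr kc J M RT (G 0))) ∪
      ((⋃ i ∈ Icc 1 I, T i (RB kc J M (Sgl kc J) (Sgl kc J) (G (i - 1)) (G i))) ∪ E) := by
    rintro t ⟨hWC, X, Y, w, c, ht, hw, hwm⟩
    have hWr : w ++ [c] ∈ WC N (kc + J) := by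
      have h1 := WC.rot hWC hN X.length
      rwa [ht, rotate_app, hw] at h1
    have hsel := selM (I := I) (D := fun i => D0 * 2 ^ i) (G := G) hRR hRM hs1 hs2 hWr
      (fun i hi => by have := hDi i hi; omega) (fun i hi => (hG i hi).2) hwm (by omega)
    rw [hT]
    rcases hsel with ⟨R, hR, h1⟩ | ⟨i, hi1, hi2, h1⟩ | h1
    · left
      rcases hR with rfl | rfl
      · left
        exact ⟨hWC.1, X, Y, ht, by rw [hw]; exact h1⟩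
      · right
        exact ⟨hWC.1, X, Y, ht, by rw [hw]; exact h1⟩
    · right
      left
      rw [Set.mem_iUnion₂]
      exact ⟨i, Finset.mem_Icc.2 ⟨hi1, hi2⟩, hWC.1, X, Y, ht, by rw [hw]; exact h1⟩
    · right
      right
      rw [hE]
      exact ⟨hWC.1, X, Y, w, c, ht, hw, WC.open_WL hWr, h1⟩
  refine (gf_mono hcov).trans ((gf_union_le _ _).trans ((add_le_add (gf_union_le _ _) (gf_union_le _ _)).trans ?_))
  have hx0 := hx 0 (Nat.zero_le _)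
  have g1 : gf (T 0 (RA kc J M RT (G 0))) ≤ ENNReal.ofReal (N * A ^ J * (Cx ^ D0 * x 0)) := by
    have := hlev 0 _ _ (Nat.zero_le _) hx0 n1
    rw [hT]
    simpa using this
  have g2 : gf (T 0 (RAr kc J M RT (G 0))) ≤ ENNReal.ofReal (N * A ^ J * (Cx ^ D0 * x1)) := by
    have := hlev 0 _ _ (Nat.zero_le _) hx1 n2
    rw [hT]
    simpa using this
  have g3 : gf (⋃ i ∈ Icc 1 I, T i (RB kc J M (Sgl kc J) (Sgl kc J) (G (i - 1)) (G i))) ≤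
      ∑ i ∈ Icc 1 I, ENNReal.ofReal (N * A ^ J * (Cx ^ (D0 * 2 ^ i) * x' i)) := by
    refine (ENNReal.tsum_biUnion_le wE _ _).trans (Finset.sum_le_sum fun i hi => ?_)
    have hi' := Finset.mem_Icc.1 hi
    rw [hT]
    exact hlev i _ _ hi'.2 (hx' i hi'.2) (n3 i hi'.1 hi'.2)
  have g4 : gf E ≤ ENNReal.ofReal (N * A ^ J * (Cx ^ kc * y)) := by
    rw [hE]
    refine hlast.trans (ENNReal.ofReal_le_ofReal ?_)
    rw [mul_assoc (N : ℝ)]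
    gcongr
  refine (add_le_add (add_le_add g1 g2) (add_le_add g3 g4)).trans ?_
  have hCx0 : 0 < Cx := by linarith
  have hxp : ∀ i ∈ Icc 1 I, 0 ≤ (N : ℝ) * A ^ J * (Cx ^ (D0 * 2 ^ i) * x' i) := by
    intro i hi
    have h2 := hx' i (Finset.mem_Icc.1 hi).2
    positivity
  rw [← ENNReal.ofReal_sum_of_nonneg hxp, ← ENNReal.ofReal_add (Finset.sum_nonneg hxp) (by positivity),
    ← ENNReal.ofReal_add (by positivity) (by positivity), ← ENNReal.ofReal_add (by positivity)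
    (add_nonneg (Finset.sum_nonneg hxp) (by positivity))]
  refine ENNReal.ofReal_le_ofReal ?_
  have f0 : (N : ℝ) * A ^ J * (Cx ^ D0 * x 0) + N * A ^ J * (Cx ^ D0 * x1) +
      (∑ i ∈ Icc 1 I, (N : ℝ) * A ^ J * (Cx ^ (D0 * 2 ^ i) * x' i) + N * A ^ J * (Cx ^ kc * y)) =
      N * A ^ J * (Cx ^ D0 * x 0 + Cx ^ D0 * x1 + (∑ i ∈ Icc 1 I, Cx ^ (D0 * 2 ^ i) * x' i + Cx ^ kc * y)) := by
    rw [← Finset.mul_sum]
    ring
  rw [f0]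
  have f1 : 1 / w4 mM kc ≤ Cm ^ J / w4 mM (kc + J) := by
    rw [div_le_div_iff₀ hwk hwK, one_mul]
    exact hup kc J
  have f2 : Cx ^ D0 * x 0 + Cx ^ D0 * x1 + (∑ i ∈ Icc 1 I, Cx ^ (D0 * 2 ^ i) * x' i + Cx ^ kc * y) ≤
      (2 * C ^ (J + D0) * dT + C ^ (J + 1) / 2 ^ D0 * (Kb * 2 ^ J + Kb * 2 ^ J)) * (1 / w4 mM kc) := by
    refine (add_le_add (add_le_add e1 e2) e3).trans (le_of_eq ?_)
    ring
  have f3 : (2 : ℝ) ≤ (4 * Kb) ^ J := by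
    calc (2 : ℝ) ≤ 4 * Kb := by linarith
      _ = (4 * Kb) ^ 1 := (pow_one _).symm
      _ ≤ (4 * Kb) ^ J := pow_le_pow_right₀ (by linarith) (by omega)
  have f4 : Kb * 2 ^ J + Kb * 2 ^ J ≤ (4 * Kb) ^ J := by
    have h1 : Kb ≤ Kb ^ J := by
      calc Kb = Kb ^ 1 := (pow_one _).symm
        _ ≤ Kb ^ J := pow_le_pow_right₀ hKb (by omega)
    have h2 : (2 : ℝ) * 2 ^ J ≤ 4 ^ J := by
      have h3 : (4 : ℝ) ^ J = 2 ^ J * 2 ^ J := by rw [← mul_pow]; norm_num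
      have h4 : (2 : ℝ) ≤ 2 ^ J := by
        calc (2 : ℝ) = 2 ^ 1 := (pow_one _).symm
          _ ≤ 2 ^ J := pow_le_pow_right₀ (by norm_num) (by omega)
      rw [h3]
      gcongr
    calc Kb * 2 ^ J + Kb * 2 ^ J = Kb * (2 * 2 ^ J) := by ring
      _ ≤ Kb ^ J * 4 ^ J := by gcongr
      _ = (4 * Kb) ^ J := by rw [mul_pow]; ring
  have f5 : (A * Cm) ^ J * ((4 * Kb) ^ J * C ^ (J + D0)) ≤ (A * Cm * (4 * Kb) * C) ^ (J + D0) := by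
    have h1 : (A * Cm * (4 * Kb)) ^ J ≤ (A * Cm * (4 * Kb)) ^ (J + D0) := pow_le_pow_right₀ hB1 (by omega)
    rw [mul_pow (A * Cm * (4 * Kb)) C]
    calc (A * Cm) ^ J * ((4 * Kb) ^ J * C ^ (J + D0)) = (A * Cm * (4 * Kb)) ^ J * C ^ (J + D0) := by
          rw [mul_pow (A * Cm) (4 * Kb)]
          ring
      _ ≤ _ := by gcongr
  have f6 : (A * Cm) ^ J * ((4 * Kb) ^ J * C ^ (J + 1)) ≤ (A * Cm * (4 * Kb) * C) ^ (J + 1) := by
    have h1 : (A * Cm * (4 * Kb)) ^ J ≤ (A * Cm * (4 * Kb)) ^ (J + 1) := pow_le_pow_right₀ hB1 (by omega)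
    rw [mul_pow (A * Cm * (4 * Kb)) C]
    calc (A * Cm) ^ J * ((4 * Kb) ^ J * C ^ (J + 1)) = (A * Cm * (4 * Kb)) ^ J * C ^ (J + 1) := by
          rw [mul_pow (A * Cm) (4 * Kb)]
          ring
      _ ≤ _ := by gcongr
  calc (N : ℝ) * A ^ J * (Cx ^ D0 * x 0 + Cx ^ D0 * x1 + (∑ i ∈ Icc 1 I, Cx ^ (D0 * 2 ^ i) * x' i + Cx ^ kc * y))
      ≤ N * A ^ J * ((2 * C ^ (J + D0) * dT + C ^ (J + 1) / 2 ^ D0 * (Kb * 2 ^ J + Kb * 2 ^ J)) * (1 / w4 mM kc)) := by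
        gcongr
    _ ≤ N * A ^ J * (((4 * Kb) ^ J * C ^ (J + D0) * dT + C ^ (J + 1) / 2 ^ D0 * (4 * Kb) ^ J) *
          (Cm ^ J / w4 mM (kc + J))) := by gcongr
    _ = ((A * Cm) ^ J * ((4 * Kb) ^ J * C ^ (J + D0)) * dT +
          (A * Cm) ^ J * ((4 * Kb) ^ J * C ^ (J + 1)) / 2 ^ D0) * (N / w4 mM (kc + J)) := by
        rw [mul_pow A Cm]
        ring
    _ ≤ _ := by gcongr

end POL

end HexObs
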