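import Pool.Agent.POL.Coarse
import Pool.Agent.POL.Defs2

/-!
POL, row U4c: the word of a merged leaf is a bridge.
-/

set_option autoImplicit false

namespace HexObs

namespace POL

open Finset TS SDN NTW

variable {b m u : ℕ} {t : List Bool} {e : ℕ → ℕ}

/-- the level in the direction of a leaf -/
lemma xD_lv (k : ℕ) (t : List Bool) (i : ℕ) : xD (dD false k) t i = Tight.sg k (lev t i) := by
  rw [xD_dD]
  rfl

/-- **the word of a merged leaf** -/
theorem mrg_lw (ht : t ∈ SA) (hb : 1 ≤ b) (h : Fd b t m u e) {l1 l2 : ℕ} (h1 : 1 ≤ l1) (hM : Mrg t u e l1 l2)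
    (h2 : l2 + 1 ≤ m) : ∃ n : ℕ, lw t (e l1) (e l2) ∈ Brd n ∧
      Tight.sg (u + l1) (lev t (e l2)) - Tight.sg (u + l1) (lev t (e l1)) = 3 * n + 1 ∧
      e l1 + 1 < e l2 ∧ (lw t (e l1) (e l2)).length = e l2 - (e l1 + 1) ∧
      ∀ i, i ≤ (lw t (e l1) (e l2)).length → lev (lw t (e l1) (e l2)) i =
        Tight.sg (u + l1) (lev t (e l1 + 1 + i)) - Tight.sg (u + l1) (lev t (e l1 + 1)) := by
  obtain ⟨hl, hpar, hM1, hM2⟩ := hM
  have hG := h.2.1
  have hR := RR_ge hb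
  obtain ⟨i, rfl⟩ : ∃ i, l1 = i + 1 := ⟨l1 - 1, by omega⟩
  have m1 := hG.lt i (by omega)
  have m2 := fd_mono h (i := i + 1 + 1) (j := l2) (by omega) (by omega)
  have m3 := hG.lt (i + 1) (by omega)
  have m4 := hG.lt l2 (by omega)
  have m5 := fd_mono h (i := l2 + 1) (j := m) (by omega) le_rfl
  have m6 := hG.le
  obtain ⟨a, ha⟩ : ∃ a, e (i + 1) = a + 1 := ⟨e (i + 1) - 1, by omega⟩
  obtain ⟨D, hDdef⟩ : ∃ D, D = dD false (u + (i + 1)) := ⟨_, rfl⟩
  have hD : D ∈ dirs := by rw [hDdef]; exact dD_mem _ _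
  have hx : ∀ l, xD D t l = Tight.sg (u + (i + 1)) (lev t l) := fun l => by rw [hDdef, xD_lv]
  have hx1 : ∀ l, Tight.sg (u + i) (lev t l) = - xD D t l := by
    intro l
    rw [hx, ← add_assoc, Tight.sg_succ, neg_neg]
  have hx2 : ∀ l, Tight.sg (u + l2) (lev t l) = -xD D t l := by
    intro l
    rw [hx]
    refine sg_opp ?_ _
    rw [Nat.even_iff, Nat.even_iff]
    omega
  have k0 : xD D t (a + 1) ≤ xD D t a := by
    have := hG.hi i (by omega) a (by omega) (by omega)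
    rw [hx1, hx1, ha] at this
    omega
  have k1 : ∀ l, a + 1 < l → l ≤ e l2 → xD D t (a + 1) < xD D t l ∧ xD D t l ≤ xD D t (e l2) := by
    intro l j1 j2
    rw [hx, hx, hx, ← ha]
    exact ⟨hM1 l (by omega) j2, hM2 l (by omega) j2⟩
  have k2 : xD D t (a + 1) + 4 ≤ xD D t (e l2) := by
    have h3 := h.2.2.1 (i + 1) (by omega)
    have h4 := hM2 (e (i + 1 + 1)) m3.le (by omega)
    rw [hx, hx, ← ha]
    omega
  have k3 : ∀ l, e l2 < l → l ≤ e (l2 + 1) → xD D t l < xD D t (e l2) := by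
    intro l j1 j2
    have := hG.lo l2 (by omega) (by omega) l j1 j2
    rw [hx2, hx2] at this
    omega
  have k4 : e l2 + 2 ≤ e (l2 + 1) := by
    by_contra hc
    have h3 : e (l2 + 1) = e l2 + 1 := by omega
    have h4 := h.2.2.1 l2 (by omega)
    rw [hx2, hx2, h3] at h4
    have h5 := xD_step_le (dirs_neg hD) t (e l2)
    have h6 : ∀ l, xD (-D) t l = -xD D t l := by
      intro l
      unfold xD
      rw [ip_neg_right]
    rw [h6, h6] at h5
    omega
  obtain ⟨c, M, r1, r2, r3, r4, r5, r6, r7, r8, r9, r10, r11, r12⟩ := leaf_core hD ht (e := a)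
    (e' := e l2) (by omega) (by omega) k0 k1 k2 (k3 _ (by omega) (by omega)) (k3 _ (by omega) (by omega))
  rw [ha]
  refine ⟨M, r6, ?_, r4, r7, ?_⟩
  · rw [← hx, ← hx, r5]
    ring
  · intro j hj
    rw [← hx, ← hx]
    show ip (vx oo up (lw t (a + 1) (e l2)) j) up = _
    unfold xD
    rw [r9 j hj, show a + 1 + 1 + j = a + 2 + j from rfl, r8, ip_add_left]
    have h3 : ip (mulE c (vx oo up (t.drop (a + 2)) j)) D = ip (vx oo up (t.drop (a + 2)) j) up := by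
      rw [← r2, ip_mulE, show nrm c = 1 from mem_dirs.1 r1, one_mul]
    rw [h3, show a + 1 + 1 = a + 2 from rfl]
    ring

/-- the word of a merged leaf without backtracks of the scale b2 -/
theorem mrg_cl {b2 : ℕ} (ht : t ∈ SA) (hb : 1 ≤ b) (h : Fd b t m u e) {l1 l2 : ℕ} (h1 : 1 ≤ l1) (hM : Mrg t u e l1 l2)
    (h2 : l2 + 1 ≤ m) (hs : ∀ i i', e l1 ≤ i → i ≤ i' → i' ≤ e l2 →
      Tight.sg (u + l1) (lev t i) - Tight.sg (u + l1) (lev t i') < RR b2) :
    lw t (e l1) (e l2) ∈ CL b2 ∧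
      Tight.sg (u + l1) (lev t (e l2)) - Tight.sg (u + l1) (lev t (e l1)) = 3 * (hgt (lw t (e l1) (e l2)) : ℤ) + 1 := by
  obtain ⟨n, a1, a2, a3, a4, a5⟩ := mrg_lw ht hb h h1 hM h2
  rw [hgt_eq a1]
  refine ⟨fun i i' i1 i2 => ?_, a2⟩
  rw [a5 i (by omega), a5 i' i2]
  have := hs (e l1 + 1 + i) (e l1 + 1 + i') (by omega) (by omega) (by omega)
  omega

end POL

end HexObs
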