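import Pool.Agent.JNT.Good
import Pool.Agent.JNT.Marks
import Pool.Agent.POL.Defs2

/-!
POL, U5: the norms of the windows. At the depth D a leaf is good if it is good for the label (JNT/Good) and has a cut in each
of two windows over its foot (RtS, the root of U4d). Labelled norm of the runs with a window of n leaves in front of (or
behind) a run of R, one leaf of the window good at the depth D, b others bad at the depth D' (helper25).
-/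

set_option autoImplicit false

namespace HexObs

namespace POL

open Finset TS SDN NTW NTA EN JNT

open scoped ENNReal

/-- good leaves of the depth D for the root, bad ones have a small norm -/
theorem rtS_norm : ∃ (K : ℝ) (s1 s2 : ℕ), 1 ≤ K ∧ 1 ≤ s1 ∧ 1 ≤ s2 ∧ ∀ k N D : ℕ, (s1 + s2) * (D + 1) + 5 ≤ k →
    SmD DmJ k {g | g ∈ BrR (2 ^ (k + 4)) N ∧ g ∉ RtS s1 s2 k D} (K * (1 + UU N / Ub k) ^ 2 / 2 ^ D) := by
  obtain ⟨K, c, hK, hc, h⟩ := SIM.tail_win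
  obtain ⟨c1, hc1⟩ := exists_nat_ge (1 / c)
  have hcc : 1 ≤ c * (c1 + 3 : ℕ) := by
    rw [div_le_iff₀ hc] at hc1
    push_cast
    nlinarith
  obtain ⟨s1, hs1⟩ : ∃ s1 : ℕ, s1 = c1 + 3 := ⟨_, rfl⟩
  obtain ⟨s2, hs2⟩ : ∃ s2 : ℕ, s2 = (2 * s1 + 1) * (c1 + 3) := ⟨_, rfl⟩
  have h1 : 1 ≤ c * (s1 : ℝ) := by rw [hs1]; exact hcc
  have h2 : (2 * s1 + 1 : ℝ) ≤ c * (s2 : ℝ) := by
    rw [hs2]
    push_cast at hcc ⊢
    have h3 : (0 : ℝ) ≤ 2 * (s1 : ℝ) + 1 := by positivity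
    nlinarith
  refine ⟨K * 4 ^ 5 * 2, s1, s2, by nlinarith, by omega, by rw [hs2]; nlinarith, fun k N D hk => ?_⟩
  have hU := Ub_pos k
  have hR0 : 0 ≤ (1 + UU N / Ub k) ^ 2 := by positivity
  have hK0 : 0 < K := by linarith
  have e0 : (s1 + s2) * (D + 1) = s1 * (D + 1) + s2 * (D + 1) := by ring
  have q1 : 3 ≤ s1 * (D + 1) := by
    have : 3 ≤ s1 := by omega
    nlinarith
  have q2 : 3 ≤ s2 * (D + 1) := by
    have h4 : 3 ≤ s2 := by rw [hs2]; nlinarith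
    nlinarith
  -- the upper window
  have a1 := h k N (k - 3 - s1 * (D + 1)) (s1 * (D + 1)) q1 (by omega)
  -- the lower window
  have a2 := h k N (k - 5 - (s1 + s2) * (D + 1)) (s2 * (D + 1)) q2 (by omega)
  have n1 : K * (1 + UU N / Ub k) ^ 2 * (4 ^ (k - (k - 3 - s1 * (D + 1) + s1 * (D + 1))) *
      (2 : ℝ) ^ (-(c * ((s1 * (D + 1) : ℕ) : ℝ)))) ≤ K * 4 ^ 5 * (1 + UU N / Ub k) ^ 2 / 2 ^ D := by
    have e1 : k - (k - 3 - s1 * (D + 1) + s1 * (D + 1)) = 3 := by omega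
    rw [e1]
    have h4 : (2 : ℝ) ^ (-(c * ((s1 * (D + 1) : ℕ) : ℝ))) ≤ 1 / 2 ^ D := by
      calc (2 : ℝ) ^ (-(c * ((s1 * (D + 1) : ℕ) : ℝ))) ≤ (2 : ℝ) ^ (-(D : ℝ)) := by
            apply Real.rpow_le_rpow_of_exponent_le (by norm_num)
            push_cast
            have : (0 : ℝ) ≤ D := Nat.cast_nonneg _
            nlinarith
        _ = 1 / 2 ^ D := by rw [Real.rpow_neg (by norm_num), Real.rpow_natCast, one_div]
    calc K * (1 + UU N / Ub k) ^ 2 * (4 ^ 3 * (2 : ℝ) ^ (-(c * ((s1 * (D + 1) : ℕ) : ℝ)))) ≤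
        K * (1 + UU N / Ub k) ^ 2 * (4 ^ 5 * (1 / 2 ^ D)) := by
          gcongr
          · norm_num
          · norm_num
      _ = _ := by ring
  have n2 : K * (1 + UU N / Ub k) ^ 2 * (4 ^ (k - (k - 5 - (s1 + s2) * (D + 1) + s2 * (D + 1))) *
      (2 : ℝ) ^ (-(c * ((s2 * (D + 1) : ℕ) : ℝ)))) ≤ K * 4 ^ 5 * (1 + UU N / Ub k) ^ 2 / 2 ^ D := by
    have e1 : k - (k - 5 - (s1 + s2) * (D + 1) + s2 * (D + 1)) = 5 + s1 * (D + 1) := by omega
    rw [e1]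
    have h4 : (4 : ℝ) ^ (s1 * (D + 1)) * (2 : ℝ) ^ (-(c * ((s2 * (D + 1) : ℕ) : ℝ))) ≤ 1 / 2 ^ D := by
      have e4 : (4 : ℝ) ^ (s1 * (D + 1)) = (2 : ℝ) ^ ((2 * (s1 * (D + 1)) : ℕ) : ℝ) := by
        rw [Real.rpow_natCast, pow_mul (2 : ℝ) 2]
        norm_num
      rw [e4, ← Real.rpow_add (by norm_num)]
      calc (2 : ℝ) ^ (((2 * (s1 * (D + 1)) : ℕ) : ℝ) + -(c * ((s2 * (D + 1) : ℕ) : ℝ))) ≤ (2 : ℝ) ^ (-(D : ℝ)) := by
            apply Real.rpow_le_rpow_of_exponent_le (by norm_num)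
            push_cast
            have : (0 : ℝ) ≤ D := Nat.cast_nonneg _
            nlinarith
        _ = 1 / 2 ^ D := by rw [Real.rpow_neg (by norm_num), Real.rpow_natCast, one_div]
    calc K * (1 + UU N / Ub k) ^ 2 * (4 ^ (5 + s1 * (D + 1)) * (2 : ℝ) ^ (-(c * ((s2 * (D + 1) : ℕ) : ℝ)))) =
        K * (1 + UU N / Ub k) ^ 2 * (4 ^ 5 * (4 ^ (s1 * (D + 1)) * (2 : ℝ) ^ (-(c * ((s2 * (D + 1) : ℕ) : ℝ))))) := by
          rw [pow_add]
          ring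
      _ ≤ K * (1 + UU N / Ub k) ^ 2 * (4 ^ 5 * (1 / 2 ^ D)) := by gcongr
      _ = _ := by ring
  have hX : 0 ≤ K * 4 ^ 5 * (1 + UU N / Ub k) ^ 2 / 2 ^ D := by positivity
  refine LQ.SmD_le (le_of_eq ?_) (QF.SmD_mono ?_ (LQ.SmD_union hX hX (LQ.SmD_le n1 a1) (LQ.SmD_le n2 a2)))
  · ring
  · rintro g ⟨hg, hn⟩
    by_cases g1 : g ∈ SIM.NoCutH (k - 5 - (s1 + s2) * (D + 1)) (s2 * (D + 1))
    · exact Or.inr ⟨hg, Or.inr g1⟩
    · by_cases g2 : g ∈ SIM.NoCutH (k - 3 - s1 * (D + 1)) (s1 * (D + 1))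
      · exact Or.inl ⟨hg, Or.inr g2⟩
      · exact absurd ⟨g1, g2⟩ hn

/-- the window of n leaves in front of or behind the run r, one of them in G, b others not in B -/
def WinB (A G B : Set (List Bool)) (R : Set (List (List Bool))) (n b : ℕ) : Set (List (List Bool)) :=
  {gs | ∃ (ps r ls rs : List (List Bool)) (g : List Bool) (b1 b2 : ℕ), (gs = ps ++ r ∨ gs = r ++ ps) ∧ r ∈ R ∧ r ≠ [] ∧
    (∀ x ∈ r, x ∈ A) ∧ ps.length = n ∧ (∀ x ∈ ps, x ∈ A) ∧ ps = ls ++ g :: rs ∧ g ∈ G ∧ b ≤ b1 + b2 ∧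
    (∃ l : List (List Bool), l.Sublist ls ∧ l.length = b1 ∧ ∀ x ∈ l, x ∉ B) ∧
    ∃ l : List (List Bool), l.Sublist rs ∧ l.length = b2 ∧ ∀ x ∈ l, x ∉ B}

/-- the window of n leaves in front of or behind the run r, b of them not in B -/
def WinU (A B : Set (List Bool)) (R : Set (List (List Bool))) (n b : ℕ) : Set (List (List Bool)) :=
  {gs | ∃ ps r : List (List Bool), (gs = ps ++ r ∨ gs = r ++ ps) ∧ r ∈ R ∧ r ≠ [] ∧ (∀ x ∈ r, x ∈ A) ∧ ps.length = n ∧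
    (∀ x ∈ ps, x ∈ A) ∧ ∃ l : List (List Bool), l.Sublist ps ∧ l.length = b ∧ ∀ x ∈ l, x ∉ B}

lemma mk_sub {S A : Set (List Bool)} {l rs : List (List Bool)} (h : l.Sublist rs) (hA : ∀ x ∈ rs, x ∈ A)
    (hS : ∀ x ∈ l, x ∈ S) : Mk S A A l.length 0 rs := by
  induction h with
  | slnil => exact Mk.nil
  | cons x _ ih => exact Mk.a (hA x List.mem_cons_self) (ih (fun y hy => hA y (List.mem_cons_of_mem _ hy)) hS)
  | cons_cons x _ ih =>
    exact Mk.s (hS x List.mem_cons_self) (ih (fun y hy => hA y (List.mem_cons_of_mem _ hy))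
      fun y hy => hS y (List.mem_cons_of_mem _ hy))

lemma mkX_sub {S A G : Set (List Bool)} {l ls : List (List Bool)} (h : l.Sublist ls) {rs : List (List Bool)}
    {g : List Bool} {b2 : ℕ} (hA : ∀ x ∈ ls, x ∈ A) (hS : ∀ x ∈ l, x ∈ S) (hg : g ∈ G) (h2 : Mk S A A b2 0 rs) :
    MkX G S A A (l.length + b2) 0 (ls ++ g :: rs) := by
  induction h with
  | slnil =>
    rw [List.length_nil, zero_add]
    exact MkX.g hg h2
  | cons x _ ih => exact MkX.a (hA x List.mem_cons_self) (ih (fun y hy => hA y (List.mem_cons_of_mem _ hy)) hS)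
  | cons_cons x _ ih =>
    rename_i l1 l2 _
    have e : (x :: l1).length + b2 = (l1.length + b2) + 1 := by
      rw [List.length_cons]
      omega
    rw [e]
    exact MkX.s (hS x List.mem_cons_self) (ih (fun y hy => hA y (List.mem_cons_of_mem _ hy))
      fun y hy => hS y (List.mem_cons_of_mem _ hy))

lemma Mk.drop {S A : Set (List Bool)} (hSA : S ⊆ A) {s r : ℕ} {gs : List (List Bool)} (h : Mk S A A s r gs) :
    ∀ s' ≤ s, Mk S A A s' r gs := by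
  induction h with
  | nil =>
    intro s' hs'
    obtain rfl : s' = 0 := by omega
    exact Mk.nil
  | s h1 _ ih =>
    intro s' hs'
    rcases Nat.eq_zero_or_pos s' with h0 | h0
    · subst h0
      exact Mk.a (hSA h1) (ih 0 (Nat.zero_le _))
    · obtain ⟨s'', rfl⟩ : ∃ s'', s' = s'' + 1 := ⟨s' - 1, by omega⟩
      exact Mk.s h1 (ih s'' (by omega))
  | b h1 _ ih =>
    intro s' hs'
    exact Mk.b h1 (ih s' hs')
  | a h1 _ ih =>
    intro s' hs'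
    exact Mk.a h1 (ih s' hs')

lemma MkX.drop {G S A : Set (List Bool)} (hSA : S ⊆ A) {s r : ℕ} {gs : List (List Bool)} (h : MkX G S A A s r gs) :
    ∀ s' ≤ s, MkX G S A A s' r gs := by
  induction h with
  | g h1 h2 =>
    intro s' hs'
    exact MkX.g h1 (Mk.drop hSA h2 s' hs')
  | s h1 _ ih =>
    intro s' hs'
    rcases Nat.eq_zero_or_pos s' with h0 | h0
    · subst h0
      exact MkX.a (hSA h1) (ih 0 (Nat.zero_le _))
    · obtain ⟨s'', rfl⟩ : ∃ s'', s' = s'' + 1 := ⟨s' - 1, by omega⟩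
      exact MkX.s h1 (ih s'' (by omega))
  | b h1 _ ih =>
    intro s' hs'
    exact MkX.b h1 (ih s' hs')
  | a h1 _ ih =>
    intro s' hs'
    exact MkX.a h1 (ih s' hs')

section

variable {Λ : Type} {lab : List Bool → Λ} {Dm : ℕ → ℝ≥0∞ → (List Bool → ℝ≥0∞) → Prop} {kc : ℕ} {A B G : Set (List Bool)}
  {R : Set (List (List Bool))} {q b' a d : ℝ}

theorem smRL_WinB (hDm : DmP Dm) (hAH : A ⊆ HB (2 ^ (kc + 4))) (ha : 0 ≤ a) (hb : 0 ≤ b') (hq : 1 ≤ q) (hd : 0 ≤ d)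
    (hG : SmDL lab Dm kc {g | g ∈ A ∧ g ∈ G} a) (hB : SmD Dm kc (A \ B) b') (hA : SmD Dm kc A q) (hR : SmR Dm kc R d)
    (n b : ℕ) : SmRL lab Dm kc (WinB A G B R n b) (2 * ((4 * q) ^ n * (a * b' ^ b) * d)) := by
  have h := smRL_Mk (G := {g | g ∈ A ∧ g ∈ G}) (S := A \ B) (B := A) (A := A) hDm (fun g hg => hAH hg.1)
    (fun g hg => hAH hg.1) hAH hAH ha hb (by linarith : (0 : ℝ) ≤ q) hq hG hB hA hA n b 0
  rw [pow_zero, mul_one] at h
  obtain ⟨P, hP⟩ : ∃ P : Set (List (List Bool)), P = {gs | gs.length = n ∧ MkX {g | g ∈ A ∧ g ∈ G} (A \ B) A A b 0 gs} :=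
    ⟨_, rfl⟩
  rw [← hP] at h
  have hPH : InH (2 ^ (kc + 4)) P := by
    rw [hP]
    exact fun gs hgs => inH_MkX (fun g hg => hAH hg.1) (fun g hg => hAH hg.1) hAH hAH hgs.2
  obtain ⟨R', hR'⟩ : ∃ R' : Set (List (List Bool)), R' = {r | r ∈ R ∧ ∀ x ∈ r, x ∈ A} := ⟨_, rfl⟩
  have hRH : InH (2 ^ (kc + 4)) R' := by
    rw [hR']
    exact fun gs hgs g hg => hAH (hgs.2 g hg)
  have hR2 : SmR Dm kc R' d := smR_anti (by rw [hR']; exact fun r hr => hr.1) hR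
  have hn : 0 ≤ (4 * q) ^ n * (a * b' ^ b) := by
    have : 0 ≤ q := by linarith
    positivity
  have h1 := smRL_right hDm hPH hRH hn hd h hR2
  have h2 := smRL_left hDm hRH hPH hd hn hR2 h
  refine SmRL.le (SmRL.anti (smRL_union (mul_nonneg hn hd) (mul_nonneg hd hn) h1 h2) ?_) (le_of_eq (by ring))
  rintro gs ⟨ps, r, ls, rs, g, b1, b2, h3, h4, h5, h6, h7, h8, h9, h10, h11, ⟨l1, h12, h13, h14⟩, ⟨l2, h15, h16, h17⟩⟩
  have hls : ∀ x ∈ ls, x ∈ A := fun x hx => h8 x (by rw [h9]; simp [hx])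
  have hrs : ∀ x ∈ rs, x ∈ A := fun x hx => h8 x (by rw [h9]; simp [hx])
  have hps : ps ∈ P := by
    rw [hP]
    refine ⟨h7, ?_⟩
    have k1 : MkX {g | g ∈ A ∧ g ∈ G} (A \ B) A A (l1.length + l2.length) 0 (ls ++ g :: rs) :=
      mkX_sub h12 hls (fun x hx => ⟨hls x (h12.subset hx), h14 x hx⟩) ⟨h8 g (by rw [h9]; simp), h10⟩
        (mk_sub h15 hrs fun x hx => ⟨hrs x (h15.subset hx), h17 x hx⟩)
    rw [h9]
    exact MkX.drop (fun g hg => hg.1) k1 b (by omega)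
  have hps0 : ps ≠ [] := by rw [h9]; simp
  have hr' : r ∈ R' := by rw [hR']; exact ⟨h4, h6⟩
  rcases h3 with h3 | h3
  · exact Or.inl ⟨ps, hps, r, hr', hps0, h5, h3⟩
  · exact Or.inr ⟨r, hr', ps, hps, h5, hps0, h3⟩

theorem smR_WinU (hDm : DmP Dm) (hAH : A ⊆ HB (2 ^ (kc + 4))) (hb : 0 ≤ b') (hq : 1 ≤ q) (hd : 0 ≤ d)
    (hB : SmD Dm kc (A \ B) b') (hA : SmD Dm kc A q) (hR : SmR Dm kc R d)
    (n b : ℕ) : SmR Dm kc (WinU A B R n b) (3 * ((3 * q) ^ n * b' ^ b * d)) := by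
  have h := smR_Mk (S := A \ B) (B := A) (A := A) hDm
    (fun g hg => hAH hg.1) hAH hAH hb (by linarith : (0 : ℝ) ≤ q) hq hB hA hA n b 0
  rw [pow_zero, mul_one] at h
  obtain ⟨P, hP⟩ : ∃ P : Set (List (List Bool)), P = {gs | gs.length = n ∧ Mk (A \ B) A A b 0 gs} := ⟨_, rfl⟩
  rw [← hP] at h
  have hPH : InH (2 ^ (kc + 4)) P := by
    rw [hP]
    exact fun gs hgs => inH_Mk (fun g hg => hAH hg.1) hAH hAH hgs.2
  obtain ⟨R', hR'⟩ : ∃ R' : Set (List (List Bool)), R' = {r | r ∈ R ∧ ∀ x ∈ r, x ∈ A} := ⟨_, rfl⟩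
  have hRH : InH (2 ^ (kc + 4)) R' := by
    rw [hR']
    exact fun gs hgs g hg => hAH (hgs.2 g hg)
  have hR2 : SmR Dm kc R' d := smR_anti (by rw [hR']; exact fun r hr => hr.1) hR
  have hn : 0 ≤ (3 * q) ^ n * b' ^ b := by
    have : 0 ≤ q := by linarith
    positivity
  have h1 := smR_app hDm hPH hRH hn hd h hR2
  have h2 := smR_app hDm hRH hPH hd hn hR2 h
  -- the empty window
  have h0 : SmR Dm kc {gs | gs ∈ R' ∧ n = 0 ∧ b = 0} ((3 * q) ^ n * b' ^ b * d) := by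
    by_cases hz : n = 0 ∧ b = 0
    · obtain ⟨rfl, rfl⟩ := hz
      rw [pow_zero, pow_zero, one_mul, one_mul]
      exact smR_anti (fun gs hgs => hgs.1) hR2
    · exact smR_empty fun g ms hgs => hz hgs.2
  have hnd := mul_nonneg hn hd
  have hdn := mul_nonneg hd hn
  refine SmR.up (smR_anti ?_ (smR_union hnd (add_nonneg hnd hdn) h0 (smR_union hnd hdn h1 h2))) (le_of_eq (by ring))
  rintro gs ⟨ps, r, h3, h4, h5, h6, h7, h8, l, h9, h10, h11⟩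
  have hr' : r ∈ R' := by rw [hR']; exact ⟨h4, h6⟩
  have hps : ps ∈ P := by
    rw [hP]
    refine ⟨h7, ?_⟩
    rw [← h10]
    exact mk_sub h9 h8 fun x hx => ⟨h8 x (h9.subset hx), h11 x hx⟩
  by_cases hz : ps = []
  · subst hz
    have hl : l = [] := List.sublist_nil.1 h9
    subst hl
    refine Or.inl ⟨?_, by simpa using h7.symm, by simpa using h10.symm⟩
    rcases h3 with rfl | rfl
    · simpa using hr'
    · simpa using hr'
  · rcases h3 with h3 | h3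
    · exact Or.inr (Or.inl ⟨ps, hps, r, hr', hz, h5, h3⟩)
    · exact Or.inr (Or.inr ⟨r, hr', ps, hps, h5, hz, h3⟩)

end

/-- the constant of the box -/
lemma q_box {C : ℝ} (hC : 1 ≤ C) (J : ℕ) : C * (1 + 2 ^ (J + 2)) ^ 2 ≤ (256 * C) ^ (J + 1) := by
  have h1 : (1 + (2 : ℝ) ^ (J + 2)) ^ 2 ≤ 64 * 4 ^ J := by
    have h2 : (1 : ℝ) ≤ 2 ^ (J + 2) := one_le_pow₀ (by norm_num)
    have h3 : (2 : ℝ) ^ (J + 2) * 2 ^ (J + 2) = 16 * 4 ^ J := by
      have e4 : (4 : ℝ) ^ J = 2 ^ J * 2 ^ J := by rw [← mul_pow]; norm_num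
      rw [e4, pow_add]
      ring
    nlinarith
  have h2 : (64 : ℝ) * 4 ^ J ≤ 256 ^ (J + 1) := by
    have h3 : (4 : ℝ) ^ J ≤ 256 ^ J := pow_le_pow_left₀ (by norm_num) (by norm_num) _
    have h4 : (0 : ℝ) < 4 ^ J := by positivity
    rw [pow_succ']
    linarith
  have h3 : C ≤ C ^ (J + 1) := by
    calc C = C ^ 1 := (pow_one C).symm
      _ ≤ C ^ (J + 1) := pow_le_pow_right₀ hC (by omega)
  have h4 : (1 + (2 : ℝ) ^ (J + 2)) ^ 2 ≤ 256 ^ (J + 1) := h1.trans h2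
  calc C * (1 + 2 ^ (J + 2)) ^ 2 ≤ C ^ (J + 1) * 256 ^ (J + 1) := by
        apply mul_le_mul h3 h4 (by positivity) (by positivity)
    _ = _ := by rw [← mul_pow, mul_comm]

/-- **good and bad leaves for the root and for the label** -/
theorem good_root {Λ : Type} {lab : List Bool → Λ} {w : ℕ → ℝ} (hlab : LabM lab) (hm : ∀ k, 0 < w k) (hu : MUp w)
    (hJ : JoG lab w) : ∃ (s1 s2 s3 : ℕ) (C B : ℝ) (G : ℕ → ℕ → Set (List Bool)), 1 ≤ s1 ∧ 1 ≤ s2 ∧ 1 ≤ C ∧ 1 ≤ B ∧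
    (2 * (s1 + s2) + 10 ≤ s3) ∧ (∀ kc D : ℕ, G kc D ⊆ RtS s1 s2 kc D) ∧
    (∀ kc J D : ℕ, s3 * (D + 1) ≤ kc → SmD DmJ kc (BrR (2 ^ (kc + 4)) (2 ^ (kc + J + 2)) \ G kc D) (C ^ (J + 1) / 2 ^ D) ∧
      SmDL lab DmJ kc {g | g ∈ BrR (2 ^ (kc + 4)) (2 ^ (kc + J + 2)) ∧ g ∈ G kc D} (C ^ (J + 1) * B ^ D / w kc)) := by
  obtain ⟨C0, B, s0, Gs, hC0, hB, hgb⟩ := good_bad_L hlab hm hu hJ
  obtain ⟨K1, s1, s2, hK1, hs1, hs2, hrt⟩ := rtS_norm
  obtain ⟨C1, hC1⟩ : ∃ C1 : ℝ, C1 = C0 + K1 := ⟨_, rfl⟩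
  have hC11 : 1 ≤ C1 := by linarith
  obtain ⟨C2, hC2⟩ : ∃ C2 : ℝ, C2 = 256 * C1 * B := ⟨_, rfl⟩
  have hC1B := one_le_mul_of_one_le_of_one_le hC11 hB
  have hC21 : 1 ≤ C2 := by
    rw [hC2]
    nlinarith
  obtain ⟨G, hG⟩ : ∃ G : ℕ → ℕ → Set (List Bool), G = fun kc D => RtS s1 s2 kc D ∩ Gs (D + 1) kc := ⟨_, rfl⟩
  refine ⟨s1, s2, 2 * (s1 + s2) + 10 + 2 * s0, C2, B, G, hs1, hs2, hC21, hB, by omega, fun kc D g hg => ?_, fun kc J D hk => ?_⟩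
  · rw [hG] at hg
    exact hg.1
  have e0 : (2 * (s1 + s2) + 10 + 2 * s0) * (D + 1) = (s1 + s2) * (D + 1) + (s1 + s2) * (D + 1) + 10 * (D + 1) +
      (s0 * (D + 1) + s0 * (D + 1)) := by
    ring
  have hs0 : s0 ≤ s0 * (D + 1) := Nat.le_mul_of_pos_right _ (Nat.succ_pos _)
  obtain ⟨h1, h2⟩ := hgb kc (2 ^ (kc + J + 2)) (D + 1) (by omega) (by omega)
  have h3 := hrt kc (2 ^ (kc + J + 2)) D (by omega)
  have hU := Ub_pos kc
  have hq : (1 + UU (2 ^ (kc + J + 2)) / Ub kc) ^ 2 ≤ (1 + 2 ^ (J + 2)) ^ 2 := by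
    have h4 : UU (2 ^ (kc + J + 2)) / Ub kc ≤ 2 ^ (J + 2) := by
      rw [div_le_iff₀ hU, show kc + J + 2 = kc + (J + 2) by ring]
      exact UU_box kc (J + 2)
    have h5 : 0 ≤ UU (2 ^ (kc + J + 2)) / Ub kc := div_nonneg (Num2Aux.UU_pos _).le hU.le
    exact pow_le_pow_left₀ (by linarith) (by linarith) 2
  have hq0 : 0 ≤ (1 + UU (2 ^ (kc + J + 2)) / Ub kc) ^ 2 := by positivity
  have hqb := q_box hC11 J
  have hC2b : (256 * C1) ^ (J + 1) ≤ C2 ^ (J + 1) := by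
    apply pow_le_pow_left₀ (by linarith)
    rw [hC2]
    nlinarith
  constructor
  · refine LQ.SmD_le ?_ (QF.SmD_mono ?_ (LQ.SmD_union (by positivity) (by positivity) h1 h3))
    · have h4 : C0 * (1 + UU (2 ^ (kc + J + 2)) / Ub kc) ^ 2 / 2 ^ (D + 1) ≤
          C0 * (1 + UU (2 ^ (kc + J + 2)) / Ub kc) ^ 2 / 2 ^ D := by
        apply div_le_div_of_nonneg_left (by positivity) (by positivity)
        exact pow_le_pow_right₀ (by norm_num) (by omega)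
      have h5 : C1 * (1 + UU (2 ^ (kc + J + 2)) / Ub kc) ^ 2 ≤ C2 ^ (J + 1) := by
        refine le_trans ?_ (hqb.trans hC2b)
        gcongr
      calc C0 * (1 + UU (2 ^ (kc + J + 2)) / Ub kc) ^ 2 / 2 ^ (D + 1) +
            K1 * (1 + UU (2 ^ (kc + J + 2)) / Ub kc) ^ 2 / 2 ^ D ≤
            C0 * (1 + UU (2 ^ (kc + J + 2)) / Ub kc) ^ 2 / 2 ^ D +
            K1 * (1 + UU (2 ^ (kc + J + 2)) / Ub kc) ^ 2 / 2 ^ D := by linarith
        _ = C1 * (1 + UU (2 ^ (kc + J + 2)) / Ub kc) ^ 2 / 2 ^ D := by rw [hC1]; ring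
        _ ≤ C2 ^ (J + 1) / 2 ^ D := by gcongr
    · rintro g ⟨hg, hn⟩
      by_cases h4 : g ∈ Gs (D + 1) kc
      · by_cases h5 : g ∈ RtS s1 s2 kc D
        · exact absurd (by rw [hG]; exact ⟨h5, h4⟩) hn
        · exact Or.inr ⟨hg, h5⟩
      · exact Or.inl ⟨hg, h4⟩
  · refine smDL_num (smDL_mono ?_ h2) ?_
    · rintro g ⟨hg, h4⟩
      rw [hG] at h4
      exact ⟨hg, h4.2⟩
    · have hw := (hm kc).le
      apply div_le_div_of_nonneg_right _ hw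
      have h6 : C0 * B ≤ C2 ^ (J + 1) := by
        calc C0 * B ≤ C2 := by
              rw [hC2, hC1]
              have h7 : 0 ≤ K1 * B := by positivity
              have h8 : 0 ≤ C0 * B := by positivity
              nlinarith
          _ = C2 ^ 1 := (pow_one _).symm
          _ ≤ C2 ^ (J + 1) := pow_le_pow_right₀ hC21 (by omega)
      calc C0 * B ^ (D + 1) = C0 * B * B ^ D := by ring
        _ ≤ C2 ^ (J + 1) * B ^ D := by gcongr

end POL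

end HexObs
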