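import Pool.Agent.POL.Defs
import Pool.Agent.NTW.HookA

/-!
POL, L4: closed words with periodic indices: levels, directions, the part of l letters from the position x (helper59).
-/

set_option autoImplicit false

namespace HexObs

namespace POL

open Finset TS

/-- position in the period -/
def rp (N : ℕ) (x : ℤ) : ℕ := (x % (N : ℤ)).toNat

/-- level at the periodic position x -/
noncomputable def Fl (s : List Bool) (N : ℕ) (x : ℤ) : ℤ := lev s (rp N x)

/-- direction at the periodic position x -/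
noncomputable def Hd (s : List Bool) (N : ℕ) (x : ℤ) : Pt := dx up s (rp N x)

/-- vertex at the periodic position x -/
noncomputable def Vx (s : List Bool) (N : ℕ) (x : ℤ) : Pt := vx oo up s (rp N x)

/-- the part of l letters from the position x -/
def sb (s : List Bool) (N : ℕ) (x : ℤ) (l : ℕ) : List Bool := ((s ++ s).drop (rp N x)).take l

variable {s : List Bool} {N : ℕ}

lemma rp_lt (hN : 0 < N) (x : ℤ) : rp N x < N := by
  unfold rp
  have h1 := Int.emod_lt_of_pos x (show (0 : ℤ) < N by exact_mod_cast hN)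
  have h2 := Int.emod_nonneg x (show (N : ℤ) ≠ 0 by exact_mod_cast hN.ne')
  omega

lemma rp_cast (hN : 0 < N) (x : ℤ) : ((rp N x : ℕ) : ℤ) = x % (N : ℤ) := by
  unfold rp
  exact Int.toNat_of_nonneg (Int.emod_nonneg x (by exact_mod_cast hN.ne'))

lemma rp_add (x : ℤ) : rp N (x + N) = rp N x := by
  unfold rp
  rw [Int.add_emod_right]

lemma rp_of {x : ℤ} {i : ℕ} (h : i < N) (hx : x = i) : rp N x = i := by
  unfold rp
  have h1 : x % (N : ℤ) = i := by
    rw [hx]
    exact Int.emod_eq_of_lt (by omega) (by exact_mod_cast h)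
  rw [h1]
  simp

/-- the position x + i from the position of x -/
lemma rp_shift (hN : 0 < N) (x : ℤ) (i : ℕ) : rp N (x + i) = rp N ((rp N x + i : ℕ) : ℤ) := by
  unfold rp
  congr 1
  push_cast
  rw [show ((x % (N : ℤ)).toNat : ℤ) = x % (N : ℤ) from rp_cast hN x, Int.emod_add_emod]

lemma Fl_add (x : ℤ) : Fl s N (x + N) = Fl s N x := by
  unfold Fl
  rw [rp_add]

/-- the double word: vertices and directions -/
lemma dbl (hs : s ∈ Cy N) (hN : 0 < N) {i : ℕ} (hi : i ≤ 2 * N) :
    vx oo up (s ++ s) i = Vx s N i ∧ dx up (s ++ s) i = Hd s N i := by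
  obtain ⟨h1, h2, h3, -⟩ := hs
  unfold Vx Hd
  have e0 : ∀ p : Pt, oo + p = p := fun p => zero_add p
  rcases lt_or_ge i N with h | h
  · rw [rp_of h rfl]
    exact ⟨vx_append (by omega), dx_append (by omega)⟩
  · obtain ⟨k, rfl⟩ : ∃ k, i = s.length + k := ⟨i - N, by omega⟩
    have h4 := vx_cat (t := s) (show dx up s s.length = up by rw [h1]; exact h3) k
    have h5 := dx_cat (t := s) (show dx up s s.length = up by rw [h1]; exact h3) k
    rw [h4, h5, h1, h2, e0]
    rcases lt_or_ge k N with h6 | h6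
    · have h7 : rp N (((N + k : ℕ) : ℤ)) = k := by
        push_cast
        rw [add_comm, rp_add]
        exact rp_of h6 rfl
      rw [h7]
      exact ⟨rfl, rfl⟩
    · have h8 : k = N := by omega
      have h7 : rp N (((N + k : ℕ) : ℤ)) = 0 := by
        rw [h8]
        push_cast
        rw [rp_add]
        have := rp_add (N := N) 0
        rw [zero_add] at this
        rw [this]
        exact rp_of hN rfl
      rw [h7, h8, h2, h3]
      exact ⟨rfl, rfl⟩

lemma dbl_sub (hs : s ∈ Cy N) (hN : 0 < N) (x : ℤ) {i : ℕ} (hi : i ≤ N) :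
    vx oo up (s ++ s) (rp N x + i) = Vx s N (x + i) ∧ dx up (s ++ s) (rp N x + i) = Hd s N (x + i) := by
  have h1 := rp_lt hN x
  have h2 := dbl hs hN (i := rp N x + i) (by omega)
  have h3 := rp_shift hN x i
  unfold Vx Hd at h2 ⊢
  rw [h3]
  exact h2

lemma sb_len (hs : s ∈ Cy N) (hN : 0 < N) (x : ℤ) {l : ℕ} (hl : l ≤ N) : (sb s N x l).length = l := by
  unfold sb
  have h1 := rp_lt hN x
  rw [List.length_take, List.length_drop, List.length_append, hs.1]
  omega

/-- the part from x: the double word is A ++ (part ++ B) -/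
lemma sb_split (hs : s ∈ Cy N) (hN : 0 < N) (x : ℤ) {l : ℕ} (_hl : l ≤ N) : ∃ A B : List Bool, A.length = rp N x ∧
    s ++ s = A ++ (sb s N x l ++ B) := by
  have h1 := rp_lt hN x
  refine ⟨(s ++ s).take (rp N x), ((s ++ s).drop (rp N x)).drop l, ?_, ?_⟩
  · rw [List.length_take, List.length_append, hs.1]
    omega
  · unfold sb
    rw [List.take_append_drop, List.take_append_drop]

/-- the vertices of the part, first direction up -/
lemma sb_up (hs : s ∈ Cy N) (hN : 0 < N) {x : ℤ} (hx : Hd s N x = up) {l : ℕ} (hl : l ≤ N) {i : ℕ} (hi : i ≤ l) :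
    vx oo up (sb s N x l) i = Vx s N (x + i) - Vx s N x ∧ dx up (sb s N x l) i = Hd s N (x + i) := by
  obtain ⟨A, B, hA, hW⟩ := sb_split hs hN x hl
  have hlen := sb_len hs hN x hl
  have h0 := dbl_sub hs hN x (i := 0) (by omega)
  have h1 := dbl_sub hs hN x (i := i) (by omega)
  simp only [Nat.cast_zero, add_zero] at h0
  rw [hW, ← hA] at h0 h1
  have hA1 : dx up A A.length = up := (dx_append le_rfl).symm.trans (h0.2.trans hx)
  have h2 := vx_cat (t := sb s N x l ++ B) hA1 i
  have h3 := dx_cat (t := sb s N x l ++ B) hA1 i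
  have h4 : vx oo up (A ++ (sb s N x l ++ B)) A.length = vx oo up A A.length := vx_append (by omega)
  have h5 : vx oo up (sb s N x l ++ B) i = vx oo up (sb s N x l) i := vx_append (by omega)
  have h6 : dx up (sb s N x l ++ B) i = dx up (sb s N x l) i := dx_append (by omega)
  rw [h2, h5] at h1
  rw [h3, h6] at h1
  rw [h4] at h0
  refine ⟨?_, h1.2⟩
  rw [← h1.1, ← h0.1]
  abel

/-- the vertices of the part, first direction down -/
lemma sb_dn (hs : s ∈ Cy N) (hN : 0 < N) {x : ℤ} (hx : Hd s N x = -up) {l : ℕ} (hl : l ≤ N) {i : ℕ} (hi : i ≤ l) :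
    vx oo up (sb s N x l) i = Vx s N x - Vx s N (x + i) ∧ dx up (sb s N x l) i = -Hd s N (x + i) := by
  obtain ⟨A, B, hA, hW⟩ := sb_split hs hN x hl
  have hlen := sb_len hs hN x hl
  have h0 := dbl_sub hs hN x (i := 0) (by omega)
  have h1 := dbl_sub hs hN x (i := i) (by omega)
  simp only [Nat.cast_zero, add_zero] at h0
  rw [hW, ← hA] at h0 h1
  have hA1 : dx up A A.length = -up := (dx_append le_rfl).symm.trans (h0.2.trans hx)
  have h2 := NTW.vx_turn hA1 (sb s N x l ++ B) i
  have h3 := NTW.dx_turn hA1 (sb s N x l ++ B) i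
  have h4 : vx oo up (A ++ (sb s N x l ++ B)) A.length = vx oo up A A.length := vx_append (by omega)
  have h5 : vx oo up (sb s N x l ++ B) i = vx oo up (sb s N x l) i := vx_append (by omega)
  have h6 : dx up (sb s N x l ++ B) i = dx up (sb s N x l) i := dx_append (by omega)
  rw [h2, h5] at h1
  rw [h3, h6] at h1
  rw [h4] at h0
  refine ⟨?_, ?_⟩
  · rw [← h1.1, ← h0.1]
    abel
  · rw [← h1.2, neg_neg]

lemma Fl_eq (x : ℤ) : Fl s N x = ip (Vx s N x) up := rfl

/-- the levels of the part, first direction up -/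
lemma lev_up (hs : s ∈ Cy N) (hN : 0 < N) {x : ℤ} (hx : Hd s N x = up) {l : ℕ} (hl : l ≤ N) {i : ℕ} (hi : i ≤ l) :
    lev (sb s N x l) i = Fl s N (x + i) - Fl s N x := by
  unfold lev
  rw [(sb_up hs hN hx hl hi).1, Fl_eq, Fl_eq]
  simp only [ip, Prod.fst_sub, Prod.snd_sub]
  ring

/-- the levels of the part, first direction down -/
lemma lev_dn (hs : s ∈ Cy N) (hN : 0 < N) {x : ℤ} (hx : Hd s N x = -up) {l : ℕ} (hl : l ≤ N) {i : ℕ} (hi : i ≤ l) :
    lev (sb s N x l) i = Fl s N x - Fl s N (x + i) := by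
  unfold lev
  rw [(sb_dn hs hN hx hl hi).1, Fl_eq, Fl_eq]
  simp only [ip, Prod.fst_sub, Prod.snd_sub]
  ring

/-- different positions have different vertices -/
lemma Vx_inj (hs : s ∈ Cy N) (hN : 0 < N) {x : ℤ} {i k : ℕ} (hik : i < k) (hk : k < N) : Vx s N (x + i) ≠ Vx s N (x + k) := by
  intro h
  have h1 := hs.2.2.2 _ _ (rp_lt hN (x + i)) (rp_lt hN (x + k)) h
  have h2 : (x + i) % (N : ℤ) = (x + k) % (N : ℤ) := by
    rw [← rp_cast hN, ← rp_cast hN, h1]
  have h3 : (N : ℤ) ∣ (x + k) - (x + i) := Int.ModEq.dvd h2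
  obtain ⟨c, hc⟩ := h3
  have h4 : (0 : ℤ) < (N : ℤ) * c := by rw [← hc]; omega
  have h5 : (N : ℤ) * c < N := by rw [← hc]; omega
  have hN' : (0 : ℤ) < N := by exact_mod_cast hN
  have h6 : 0 < c := by
    by_contra hcon
    nlinarith
  nlinarith

lemma even_up {t : List Bool} {i : ℕ} (h : dx up t i = up) : Even i := by
  by_contra hcon
  have h1 := cl_dx up t i
  rw [if_neg hcon, h] at h1
  exact absurd h1 (by decide)

/-- a part with first and last direction up between two levels is a bridge -/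
lemma brd_up (hs : s ∈ Cy N) (hN : 0 < N) {x : ℤ} {l : ℕ} (hl : l < N) (hx : Hd s N x = up) (hy : Hd s N (x + l) = up)
    (h : ∀ i : ℕ, 1 ≤ i → i ≤ l → Fl s N x < Fl s N (x + i) ∧ Fl s N (x + i) ≤ Fl s N (x + l)) :
    ∃ T : ℕ, sb s N x l ∈ Brd T ∧ 3 * (T : ℤ) = Fl s N (x + l) - Fl s N x := by
  have hlen := sb_len hs hN x hl.le
  have hd : dx up (sb s N x l) l = up := ((sb_up hs hN hx hl.le le_rfl).2).trans hy
  have hlev := lev_up hs hN hx hl.le (le_refl l)
  have hm := lev_mod (sb s N x l) l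
  rw [if_pos (even_up hd), sub_zero, hlev] at hm
  have h0 : 0 ≤ Fl s N (x + l) - Fl s N x := by
    rcases Nat.eq_zero_or_pos l with h1 | h1
    · rw [h1]
      simp
    · linarith [(h l h1 le_rfl).1]
  obtain ⟨c, hc⟩ := hm
  have hc0 : 0 ≤ c := by omega
  refine ⟨c.toNat, ?_, by omega⟩
  rw [mem_Brd, hlen]
  refine ⟨fun i h1 h2 => ?_, fun i k h1 h2 => ?_, hd, ?_⟩
  · rw [lev_up hs hN hx hl.le h2]
    have := h i h1 h2
    constructor
    · linarith [this.1]
    · have e : (3 : ℤ) * (c.toNat : ℤ) = Fl s N (x + l) - Fl s N x := by omega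
      rw [e]
      linarith [this.2]
  · rw [(sb_up hs hN hx hl.le (by omega)).1, (sb_up hs hN hx hl.le h2).1]
    intro h3
    exact Vx_inj hs hN h1 (by omega) (sub_left_inj.1 h3)
  · rw [hlev]
    omega

/-- a part with first and last direction down between two levels is a bridge -/
lemma brd_dn (hs : s ∈ Cy N) (hN : 0 < N) {x : ℤ} {l : ℕ} (hl : l < N) (hx : Hd s N x = -up) (hy : Hd s N (x + l) = -up)
    (h : ∀ i : ℕ, 1 ≤ i → i ≤ l → Fl s N (x + i) < Fl s N x ∧ Fl s N (x + l) ≤ Fl s N (x + i)) :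
    ∃ T : ℕ, sb s N x l ∈ Brd T ∧ 3 * (T : ℤ) = Fl s N x - Fl s N (x + l) := by
  have hlen := sb_len hs hN x hl.le
  have hd : dx up (sb s N x l) l = up := by
    rw [(sb_dn hs hN hx hl.le le_rfl).2, hy, neg_neg]
  have hlev := lev_dn hs hN hx hl.le (le_refl l)
  have hm := lev_mod (sb s N x l) l
  rw [if_pos (even_up hd), sub_zero, hlev] at hm
  have h0 : 0 ≤ Fl s N x - Fl s N (x + l) := by
    rcases Nat.eq_zero_or_pos l with h1 | h1
    · rw [h1]
      simp
    · linarith [(h l h1 le_rfl).1]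
  obtain ⟨c, hc⟩ := hm
  have hc0 : 0 ≤ c := by omega
  refine ⟨c.toNat, ?_, by omega⟩
  rw [mem_Brd, hlen]
  refine ⟨fun i h1 h2 => ?_, fun i k h1 h2 => ?_, hd, ?_⟩
  · rw [lev_dn hs hN hx hl.le h2]
    have := h i h1 h2
    constructor
    · linarith [this.1]
    · have e : (3 : ℤ) * (c.toNat : ℤ) = Fl s N x - Fl s N (x + l) := by omega
      rw [e]
      linarith [this.2]
  · rw [(sb_dn hs hN hx hl.le (by omega)).1, (sb_dn hs hN hx hl.le h2).1]
    intro h3
    exact Vx_inj hs hN h1 (by omega) (sub_right_inj.1 h3)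
  · rw [hlev]
    omega

end POL

end HexObs
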