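import Pool.Agent.POL.Cyc
import Pool.Agent.POL.MrgLw

/-!
POL, row U4c: a part of a chain of folds inside a word.
-/

set_option autoImplicit false

namespace HexObs

namespace POL

open Finset TS SDN NTW

lemma sg_sg (κ ε : ℕ) (x : ℤ) : Tight.sg κ (Tight.sg (ε + 1) x) = Tight.sg (κ + ε) x := by
  unfold Tight.sg
  simp only [Nat.even_iff]
  split_ifs <;> omega

lemma sg_of_mod {a b : ℕ} (h : a % 2 = b % 2) (x : ℤ) : Tight.sg a x = Tight.sg b x :=
  sg_par (by rw [Nat.even_iff, Nat.even_iff]; omega) x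

lemma sg_opp_mod {a b : ℕ} (h : a % 2 ≠ b % 2) (x : ℤ) : Tight.sg a x = - Tight.sg b x :=
  sg_opp (by rw [Nat.even_iff, Nat.even_iff]; omega) x

lemma sg_sb (k : ℕ) (x y : ℤ) : Tight.sg k (x - y) = Tight.sg k x - Tight.sg k y := by
  unfold Tight.sg
  split_ifs <;> ring

variable {F : ℕ → ℤ} {b v : ℕ} {E : ℕ → ℕ}

lemma CC.mono (hC : CC F b v E) {i j : ℕ} (hi : 1 ≤ i) (hij : i ≤ j) : E i + (j - i) ≤ E j := by
  obtain ⟨d, rfl⟩ := Nat.exists_eq_add_of_le hij
  induction d with
  | zero => simp
  | succ d ih =>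
    have h1 := ih (by omega)
    have h2 := hC.lt (i + d) (by omega)
    rw [show i + (d + 1) = i + d + 1 from rfl]
    omega

/-- **a part of the chain E inside the word t** -/
theorem place {t : List Bool} {a ε : ℕ} (hC : CC F b v E)
    (hF : ∀ i, i ≤ t.length → lev t i = Tight.sg (ε + 1) (F (a + i) - F a)) {m u : ℕ} {e : ℕ → ℕ} (h : Fd b t m u e)
    {p r : ℕ} (hp : 2 ≤ p) (hpr : p ≤ r) (ha : a ≤ E (p - 1)) (hr : E (r + 1) ≤ a + t.length) :
    ∃ l, 1 ≤ l ∧ l + (r - p) + 1 ≤ m ∧ ∀ i, i ≤ r - p → e (l + i) + a = E (p + i) ∧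
      (u + (l + i)) % 2 = (v + (p + i) + ε) % 2 := by
  have hR1 := RR_pos b
  -- the levels
  have hlv : ∀ (κ i : ℕ), i ≤ t.length → Tight.sg κ (lev t i) = Tight.sg (κ + ε) (F (a + i)) - Tight.sg (κ + ε) (F a) := by
    intro κ i hi
    rw [hF i hi, sg_sg, sg_sb]
  have hpos : ∀ j, p - 1 ≤ j → a ≤ E j := fun j hj => by
    have := hC.mono (i := p - 1) (j := j) (by omega) hj
    omega
  have hend : ∀ j, 1 ≤ j → j ≤ r + 1 → E j ≤ a + t.length := fun j hj hj2 => by
    have := hC.mono (i := j) (j := r + 1) hj hj2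
    omega
  -- one fold
  have hone : ∀ j, p ≤ j → j ≤ r → ∃ l, 1 ≤ l ∧ l + 1 ≤ m ∧ e l + a = E j ∧ (u + l) % 2 = (v + j + ε) % 2 := by
    intro j j1 j2
    obtain ⟨j, rfl⟩ : ∃ j', j = j' + 1 := ⟨j - 1, by omega⟩
    have b0 := hpos j (by omega)
    have b1 := hC.lt j (by omega)
    have b2 := hC.lt (j + 1) (by omega)
    have b3 := hend (j + 1 + 1) (by omega) (by omega)
    have e1 : ∀ j', a ≤ E j' → a + (E j' - a) = E j' := fun j' hj' => by omega
    have hκ : ∀ x : ℤ, Tight.sg (v + j + ε + ε) x = Tight.sg (v + j) x := fun x => sg_of_mod (by omega) x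
    have hop : ∀ x : ℤ, Tight.sg (v + (j + 1)) x = - Tight.sg (v + j) x := fun x => sg_opp_mod (by omega) x
    have hbig := hC.big j (by omega)
    have hbig2 := hC.big (j + 1) (by omega)
    rw [hop, hop] at hbig2
    obtain ⟨l, l1, l2, l3, l4⟩ := fd_conf h (κ := v + j + ε) (w := E j - a) (x := E (j + 1) - a) (y := E (j + 1 + 1) - a)
      (by omega) (by omega)
      (by
        intro i i1 i2
        rw [hlv _ _ (by omega), hlv _ _ (by omega), hκ, hκ, hκ, e1 _ (by omega)]
        have := hC.hi j (by omega) (a + i) (by omega) (by omega)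
        omega)
      (by
        rw [hlv _ _ (by omega), hlv _ _ (by omega), hκ, hκ, hκ, e1 _ (by omega), e1 _ (by omega)]
        omega)
      (by omega)
      (by
        intro i i1 i2
        rw [hlv _ _ (by omega), hlv _ _ (by omega), hκ, hκ, hκ, e1 _ (by omega)]
        have := hC.lo (j + 1) (by omega) (a + i) (by omega) (by omega)
        rw [hop, hop] at this
        omega)
      (by
        right
        rw [hlv _ _ (by omega), hlv _ _ (by omega), hκ, hκ, hκ, e1 _ (by omega), e1 _ (by omega)]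
        omega)
    have hl5 := fd_not_last h (κ := v + j + ε) (x := E (j + 1) - a) (y := E (j + 1 + 1) - a) (by omega) (by omega)
      (by
        rw [hlv _ _ (by omega), hlv _ _ (by omega), hκ, hκ, hκ, e1 _ (by omega), e1 _ (by omega)]
        omega) l2 l3
    refine ⟨l, l1, hl5, by omega, ?_⟩
    rw [Nat.even_iff, Nat.even_iff] at l4
    omega
  obtain ⟨l, l1, l2, l3, l4⟩ := hone p le_rfl hpr
  have hall : ∀ i, i ≤ r - p → l + i + 1 ≤ m ∧ e (l + i) + a = E (p + i) ∧ (u + (l + i)) % 2 = (v + (p + i) + ε) % 2 := by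
    intro i
    induction i with
    | zero => exact fun _ => ⟨l2, l3, l4⟩
    | succ i ih =>
      intro hi
      obtain ⟨c1, c2, c3⟩ := ih (by omega)
      obtain ⟨l', d1, d2, d3, d4⟩ := hone (p + i + 1) (by omega) (by omega)
      have h1 := hC.lt (p + i) (by omega)
      have h2 : l + i < l' := by
        by_contra hc
        have := fd_mono h (i := l') (j := l + i) (by omega) (by omega)
        omega
      have h3 : l' = l + i + 1 := by
        by_contra hc
        have h4 : l + i + 3 ≤ l' := by omega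
        have m1 := fd_mono h (i := l + i) (j := l + i + 1) (by omega) (by omega)
        have m2 := fd_mono h (i := l + i + 1) (j := l + i + 2) (by omega) (by omega)
        have m3 := fd_mono h (i := l + i + 2) (j := l') (by omega) (by omega)
        have m4 := fd_mono h (i := l') (j := m) (by omega) le_rfl
        have m5 := h.2.1.le
        have h5 := h.2.2.1 (l + i + 1) (by omega)
        have h6 := hC.small (p + i) (by omega) (a + e (l + i + 1)) (a + e (l + i + 2)) (by omega) (by omega) (by omega)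
        have hop2 : ∀ x : ℤ, Tight.sg (u + (l + i + 1) + ε) x = - Tight.sg (v + (p + i)) x := fun x =>
          sg_opp_mod (by omega) x
        rw [show l + i + 1 + 1 = l + i + 2 from rfl, hlv _ _ (by omega), hlv _ _ (by omega)] at h5
        simp only [hop2] at h5
        omega
      subst h3
      exact ⟨d2, d3, d4⟩
  exact ⟨l, l1, by have := (hall (r - p) le_rfl).1; omega, fun i hi => (hall i hi).2⟩

end POL

end HexObs
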