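import Pool.Agent.POL.Pub

/-!
POL / PubF (helper32): from the critical weights of the closed words to the numbers of the public polygons, the mean of the
squared radius of gyration and the closing probability.
-/

set_option autoImplicit false

open Finset ENNReal

namespace HexObs.POLP

open HexObs

/-- the connective constant -/
noncomputable def mu : ℝ := Real.sqrt (2 + Real.sqrt 2)

lemma one_le_mu : 1 ≤ mu := by
  unfold mu
  rw [Real.one_le_sqrt]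
  have := Real.sqrt_nonneg 2
  linarith

lemma mu_pos : 0 < mu := lt_of_lt_of_le one_pos one_le_mu

lemma mu_eq : xc⁻¹ = mu := by
  unfold xc mu
  rw [Real.cos_pi_div_eight, one_div, inv_inv]
  ring

lemma xc_mul_mu (N : ℕ) : xc ^ N * mu ^ N = 1 := by
  have h : xc * mu = 1 := by
    rw [← mu_eq]
    exact mul_inv_cancel₀ xc_pos.ne'
  rw [← mul_pow, h, one_pow]

lemma ncard_eq (N : ℕ) : ((PCy N).ncard : ℝ) = ((PCy N).ncard : ℝ) * xc ^ N * mu ^ N := by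
  rw [mul_assoc, xc_mul_mu, mul_one]

lemma card_Pol_R {f : ℕ → Fin 3 → ℂ} (hf : MS.Hex f) {n : ℕ} (hn : 3 ≤ n) (ho : ¬ Even n) :
    ((PGX.Pol f n).card : ℝ) = 3 * ((PCy (n + 1)).ncard * xc ^ (n + 1)) * mu ^ (n + 1) := by
  rw [card_Pol hf hn ho, Nat.cast_mul]
  conv_lhs => rw [ncard_eq]
  push_cast
  ring

/-- lower bound of the number of the public polygons -/
theorem pub_low {c : ℝ} (hc : 0 < c) {N0 : ℕ}
    (h : ∀ N : ℕ, N0 ≤ N → Even N → ENNReal.ofReal (c * (N : ℝ) ^ (-(3 / 2) : ℝ)) ≤ gf (PCy N)) :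
    ∃ c' : ℝ, 0 < c' ∧ ∀ f : ℕ → Fin 3 → ℂ, MS.Hex f → ∀ n : ℕ, 9 ≤ n → ¬ Even n →
      c' * ((n : ℝ) ^ (-(3 / 2) : ℝ) * mu ^ n) ≤ ((PGX.Pol f n).card : ℝ) := by
  have hm := mu_pos
  have h2 : (0 : ℝ) < 2 ^ (-(3 / 2) : ℝ) := Real.rpow_pos_of_pos (by norm_num) _
  refine ⟨min (3 * c * 2 ^ (-(3 / 2) : ℝ)) ((mu ^ N0)⁻¹), by positivity, ?_⟩
  intro f hf n hn ho
  have hn1 : (1 : ℝ) ≤ n := by exact_mod_cast (by omega : 1 ≤ n)
  have hn0 : (0 : ℝ) < n := by linarith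
  have hev : Even (n + 1) := by rw [Nat.even_add_one]; exact ho
  have hp : 0 ≤ (n : ℝ) ^ (-(3 / 2) : ℝ) * mu ^ n := by positivity
  rcases Nat.lt_or_ge (n + 1) N0 with hlt | hge
  · have h1 : (1 : ℝ) ≤ ((PGX.Pol f n).card : ℝ) := by
      exact_mod_cast PGX.card_Pol_pos hf hn ho
    refine le_trans ?_ h1
    have h3 : (n : ℝ) ^ (-(3 / 2) : ℝ) ≤ 1 := Real.rpow_le_one_of_one_le_of_nonpos hn1 (by norm_num)
    have h4 : mu ^ n ≤ mu ^ N0 := pow_le_pow_right₀ one_le_mu (by omega)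
    calc _ ≤ (mu ^ N0)⁻¹ * (1 * mu ^ N0) := by
          refine mul_le_mul (min_le_right _ _) ?_ hp (by positivity)
          exact mul_le_mul h3 h4 (by positivity) (by norm_num)
      _ = 1 := by rw [one_mul]; exact inv_mul_cancel₀ (by positivity)
  · have h1 := h (n + 1) hge hev
    rw [gf_PCy, ENNReal.ofReal_le_ofReal_iff (by have := xc_pos; positivity)] at h1
    rw [card_Pol_R hf (by omega) ho]
    have h3 : (2 : ℝ) ^ (-(3 / 2) : ℝ) * (n : ℝ) ^ (-(3 / 2) : ℝ) ≤ ((n + 1 : ℕ) : ℝ) ^ (-(3 / 2) : ℝ) := by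
      rw [← Real.mul_rpow (by norm_num) hn0.le]
      refine Real.rpow_le_rpow_of_nonpos (by positivity) ?_ (by norm_num)
      push_cast
      linarith
    have h4 : mu ^ n ≤ mu ^ (n + 1) := pow_le_pow_right₀ one_le_mu (by omega)
    calc _ ≤ 3 * c * 2 ^ (-(3 / 2) : ℝ) * ((n : ℝ) ^ (-(3 / 2) : ℝ) * mu ^ n) :=
          mul_le_mul_of_nonneg_right (min_le_left _ _) hp
      _ = 3 * (c * (2 ^ (-(3 / 2) : ℝ) * (n : ℝ) ^ (-(3 / 2) : ℝ))) * mu ^ n := by ring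
      _ ≤ 3 * ((PCy (n + 1)).ncard * xc ^ (n + 1)) * mu ^ (n + 1) := by
          have := xc_pos
          refine mul_le_mul ?_ h4 (by positivity) (by positivity)
          refine mul_le_mul_of_nonneg_left ?_ (by norm_num)
          exact (mul_le_mul_of_nonneg_left h3 hc.le).trans h1

/-- upper bound of the number of the public polygons -/
theorem pub_up {C : ℝ} (hC : 0 ≤ C) {N0 : ℕ}
    (h : ∀ N : ℕ, N0 ≤ N → Even N → gf (PCy N) ≤ ENNReal.ofReal (C * (N : ℝ) ^ (-(3 / 2) : ℝ))) :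
    ∃ C' : ℝ, 0 < C' ∧ ∀ f : ℕ → Fin 3 → ℂ, MS.Hex f → ∀ n : ℕ, 9 ≤ n → ¬ Even n →
      ((PGX.Pol f n).card : ℝ) ≤ C' * ((n : ℝ) ^ (-(3 / 2) : ℝ) * mu ^ n) := by
  have hm := mu_pos
  refine ⟨max (3 * C * mu + 1) (3 ^ N0 * ((N0 : ℝ) + 1) ^ (3 / 2 : ℝ)), by positivity, ?_⟩
  intro f hf n hn ho
  have hn1 : (1 : ℝ) ≤ n := by exact_mod_cast (by omega : 1 ≤ n)
  have hn0 : (0 : ℝ) < n := by linarith
  have hev : Even (n + 1) := by rw [Nat.even_add_one]; exact ho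
  have hp : 0 < (n : ℝ) ^ (-(3 / 2) : ℝ) * mu ^ n := by positivity
  rcases Nat.lt_or_ge (n + 1) N0 with hlt | hge
  · have h1 : ((PGX.Pol f n).card : ℝ) ≤ 3 ^ n := by
      have h2 : (PGX.Pol f n).card ≤ 3 ^ n := by
        refine (Finset.card_le_univ _).trans ?_
        simp
      exact_mod_cast h2
    have h3 : (3 : ℝ) ^ n ≤ 3 ^ N0 := pow_le_pow_right₀ (by norm_num) (by omega)
    have h4 : (1 : ℝ) ≤ ((N0 : ℝ) + 1) ^ (3 / 2 : ℝ) * ((n : ℝ) ^ (-(3 / 2) : ℝ) * mu ^ n) := by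
      have h5 : (n : ℝ) ^ (3 / 2 : ℝ) ≤ ((N0 : ℝ) + 1) ^ (3 / 2 : ℝ) := by
        refine Real.rpow_le_rpow hn0.le ?_ (by norm_num)
        have : (n : ℝ) ≤ N0 := by exact_mod_cast (by omega : n ≤ N0)
        linarith
      have h6 : (n : ℝ) ^ (3 / 2 : ℝ) * (n : ℝ) ^ (-(3 / 2) : ℝ) = 1 := by
        rw [← Real.rpow_add hn0]
        norm_num
      have h7 : (1 : ℝ) ≤ mu ^ n := one_le_pow₀ one_le_mu
      calc (1 : ℝ) = (n : ℝ) ^ (3 / 2 : ℝ) * (n : ℝ) ^ (-(3 / 2) : ℝ) * 1 := by rw [h6, one_mul]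
        _ ≤ ((N0 : ℝ) + 1) ^ (3 / 2 : ℝ) * (n : ℝ) ^ (-(3 / 2) : ℝ) * mu ^ n := by
            refine mul_le_mul ?_ h7 (by norm_num) (by positivity)
            exact mul_le_mul_of_nonneg_right h5 (by positivity)
        _ = _ := by ring
    calc ((PGX.Pol f n).card : ℝ) ≤ 3 ^ N0 * 1 := by rw [mul_one]; exact h1.trans h3
      _ ≤ 3 ^ N0 * (((N0 : ℝ) + 1) ^ (3 / 2 : ℝ) * ((n : ℝ) ^ (-(3 / 2) : ℝ) * mu ^ n)) :=
          mul_le_mul_of_nonneg_left h4 (by positivity)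
      _ = 3 ^ N0 * ((N0 : ℝ) + 1) ^ (3 / 2 : ℝ) * ((n : ℝ) ^ (-(3 / 2) : ℝ) * mu ^ n) := by ring
      _ ≤ _ := mul_le_mul_of_nonneg_right (le_max_right _ _) hp.le
  · have h1 := h (n + 1) hge hev
    rw [gf_PCy, ENNReal.ofReal_le_ofReal_iff (by positivity)] at h1
    rw [card_Pol_R hf (by omega) ho]
    have h3 : ((n + 1 : ℕ) : ℝ) ^ (-(3 / 2) : ℝ) ≤ (n : ℝ) ^ (-(3 / 2) : ℝ) := by
      refine Real.rpow_le_rpow_of_nonpos hn0 ?_ (by norm_num)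
      push_cast
      linarith
    calc 3 * ((PCy (n + 1)).ncard * xc ^ (n + 1)) * mu ^ (n + 1)
        ≤ 3 * (C * (n : ℝ) ^ (-(3 / 2) : ℝ)) * mu ^ (n + 1) := by
          refine mul_le_mul_of_nonneg_right ?_ (by positivity)
          refine mul_le_mul_of_nonneg_left ?_ (by norm_num)
          exact h1.trans (mul_le_mul_of_nonneg_left h3 hC)
      _ = 3 * C * mu * ((n : ℝ) ^ (-(3 / 2) : ℝ) * mu ^ n) := by rw [pow_succ]; ring
      _ ≤ _ := by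
          refine mul_le_mul_of_nonneg_right ?_ hp.le
          exact le_trans (by linarith) (le_max_left _ _)

/-! ## the radius of gyration -/

/-- the squared radius of gyration of a closed word with `N` letters -/
noncomputable def RgC (N : ℕ) (t : List Bool) : ℝ :=
  1 / (2 * (N : ℝ) ^ 2) * ∑ i ∈ range N, ∑ j ∈ range N, ((nrm (vx oo up t i - vx oo up t j) : ℤ) : ℝ)

/-- the squared radius of gyration of a coded walk -/
noncomputable def RgP (f : ℕ → Fin 3 → ℂ) {n : ℕ} (s : Fin n → Fin 3) : ℝ :=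
  1 / (2 * ((n : ℝ) + 1) ^ 2) * ∑ i ∈ range (n + 1), ∑ j ∈ range (n + 1), ‖MS.pw f s i - MS.pw f s j‖ ^ 2

lemma RgP_eq {f : ℕ → Fin 3 → ℂ} (hf : MS.Hex f) {n : ℕ} (hn : 1 ≤ n) {s : Fin n → Fin 3} (hs : s ∈ PGX.Pol f n) :
    RgP f s = RgC (n + 1) (cw s) := by
  have h1 := (Finset.mem_filter.1 hs).1
  unfold RgP RgC
  push_cast
  congr 1
  refine Finset.sum_congr rfl fun i hi => Finset.sum_congr rfl fun j hj => ?_
  rw [dist_cw hf hn h1 (by have := Finset.mem_range.1 hi; omega) (by have := Finset.mem_range.1 hj; omega)]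

lemma nrm_nonneg' (p : Pt) : 0 ≤ nrm p := by
  unfold nrm
  nlinarith [sq_nonneg (p.1 + p.2), sq_nonneg p.1, sq_nonneg p.2]

lemma RgC_nonneg (N : ℕ) (t : List Bool) : 0 ≤ RgC N t := by
  unfold RgC
  refine mul_nonneg (by positivity) (Finset.sum_nonneg fun i _ => Finset.sum_nonneg fun j _ => ?_)
  exact_mod_cast nrm_nonneg' _

/-- the radius of gyration is at most the diameter -/
lemma RgC_le {N : ℕ} (hN : 1 ≤ N) {t : List Bool} {D : ℝ}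
    (h : ∀ i j, i < N → j < N → ((nrm (vx oo up t i - vx oo up t j) : ℤ) : ℝ) ≤ D) : RgC N t ≤ D / 2 := by
  have hN0 : (0 : ℝ) < N := by exact_mod_cast hN
  unfold RgC
  have h1 : ∑ i ∈ range N, ∑ j ∈ range N, ((nrm (vx oo up t i - vx oo up t j) : ℤ) : ℝ) ≤ (N : ℝ) ^ 2 * D := by
    calc _ ≤ ∑ i ∈ range N, ∑ j ∈ range N, D :=
          Finset.sum_le_sum fun i hi => Finset.sum_le_sum fun j hj =>
            h i j (Finset.mem_range.1 hi) (Finset.mem_range.1 hj)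
      _ = (N : ℝ) ^ 2 * D := by
          rw [Finset.sum_const, Finset.sum_const, Finset.card_range, nsmul_eq_mul, nsmul_eq_mul]
          ring
  calc _ ≤ 1 / (2 * (N : ℝ) ^ 2) * ((N : ℝ) ^ 2 * D) := mul_le_mul_of_nonneg_left h1 (by positivity)
    _ = D / 2 := by field_simp

/-- the sums over the closed words with a weight, as sums over the finite set -/
lemma tsum_PCy (N : ℕ) (G : List Bool → ℝ) (hG : ∀ t ∈ PCy N, 0 ≤ G t) :
    ∑' t : PCy N, wE (t : List Bool) * ENNReal.ofReal (G t) =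
      ENNReal.ofReal (xc ^ N * ∑ t ∈ (PCy_fin N).toFinset, G t) := by
  classical
  have hx := xc_pos
  have := (PCy_fin N).fintype
  rw [tsum_fintype]
  have h2 : ∀ t : PCy N, wE (t : List Bool) * ENNReal.ofReal (G t) = ENNReal.ofReal (xc ^ N * G t) := by
    rintro ⟨t, ht⟩
    unfold wE
    rw [ht.1, ← ENNReal.ofReal_mul (by positivity)]
  rw [Finset.sum_congr rfl fun t _ => h2 t]
  have h3 : ∑ t : PCy N, ENNReal.ofReal (xc ^ N * G t) = ENNReal.ofReal (∑ t : PCy N, xc ^ N * G t) :=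
    (ENNReal.ofReal_sum_of_nonneg (fun (t : PCy N) _ => mul_nonneg (by positivity) (hG t.1 t.2))).symm
  rw [h3, ← Finset.mul_sum]
  congr 2
  rw [← Finset.sum_coe_sort ((PCy_fin N).toFinset)]
  refine Fintype.sum_equiv (Equiv.subtypeEquivRight fun t => ?_) _ _ fun t => rfl
  exact (Set.Finite.mem_toFinset (PCy_fin N)).symm

/-- the sum of the squared radius of gyration over the public polygons -/
theorem sum_RgP {f : ℕ → Fin 3 → ℂ} (hf : MS.Hex f) {n : ℕ} (hn : 3 ≤ n) (ho : ¬ Even n) :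
    ∑ s ∈ PGX.Pol f n, RgP f s = 3 * ∑ t ∈ (PCy_fin (n + 1)).toFinset, RgC (n + 1) t :=
  sum_Pol hf hn ho _ _ fun _ hs => RgP_eq hf (by omega) hs

lemma RgC_ge {N : ℕ} (hN : 2 ≤ N) (t : List Bool) : 1 / (2 * (N : ℝ) ^ 2) ≤ RgC N t := by
  unfold RgC
  have h0 : ∀ i j, (0 : ℝ) ≤ ((nrm (vx oo up t i - vx oo up t j) : ℤ) : ℝ) := fun i j => by
    exact_mod_cast nrm_nonneg' _
  have h1 : (1 : ℝ) ≤ ∑ i ∈ range N, ∑ j ∈ range N, ((nrm (vx oo up t i - vx oo up t j) : ℤ) : ℝ) := by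
    have e : nrm (vx oo up t 0 - vx oo up t 1) = 1 := rfl
    calc (1 : ℝ) = ((nrm (vx oo up t 0 - vx oo up t 1) : ℤ) : ℝ) := by rw [e]; norm_num
      _ ≤ ∑ j ∈ range N, ((nrm (vx oo up t 0 - vx oo up t j) : ℤ) : ℝ) :=
          Finset.single_le_sum (f := fun j => ((nrm (vx oo up t 0 - vx oo up t j) : ℤ) : ℝ))
            (fun j _ => h0 0 j) (Finset.mem_range.2 (by omega))
      _ ≤ _ := Finset.single_le_sum (f := fun i => ∑ j ∈ range N, ((nrm (vx oo up t i - vx oo up t j) : ℤ) : ℝ))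
            (fun i _ => Finset.sum_nonneg fun j _ => h0 i j) (Finset.mem_range.2 (by omega))
  calc 1 / (2 * (N : ℝ) ^ 2) = 1 / (2 * (N : ℝ) ^ 2) * 1 := by rw [mul_one]
    _ ≤ _ := mul_le_mul_of_nonneg_left h1 (by positivity)

/-- **upper bound of the mean** -/
theorem mean_up {c C : ℝ} (hc : 0 < c) (hC : 0 ≤ C) {N0 : ℕ}
    (hL : ∀ N : ℕ, N0 ≤ N → Even N → ENNReal.ofReal (c * (N : ℝ) ^ (-(3 / 2) : ℝ)) ≤ gf (PCy N))
    (hU : ∀ N : ℕ, N0 ≤ N → Even N → ∑' t : PCy N, wE (t : List Bool) * ENNReal.ofReal (RgC N t) ≤ ENNReal.ofReal C) :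
    ∃ C' : ℝ, 0 < C' ∧ ∀ f : ℕ → Fin 3 → ℂ, MS.Hex f → ∀ n : ℕ, 9 ≤ n → ¬ Even n →
      ∑ s ∈ PGX.Pol f n, RgP f s ≤ C' * (n : ℝ) ^ (3 / 2 : ℝ) * ((PGX.Pol f n).card : ℝ) := by
  obtain ⟨c', hc', hlow⟩ := pub_low hc hL
  have hm := mu_pos
  obtain ⟨M, hM⟩ : ∃ M : ℝ, M = ∑ N ∈ range N0, ∑ t ∈ (PCy_fin N).toFinset, RgC N t := ⟨_, rfl⟩
  have hM0 : 0 ≤ M := by
    rw [hM]
    exact Finset.sum_nonneg fun _ _ => Finset.sum_nonneg fun _ _ => RgC_nonneg _ _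
  refine ⟨max (3 * C * mu / c' + 1) (3 * M), by positivity, ?_⟩
  intro f hf n hn ho
  have hn1 : (1 : ℝ) ≤ n := by exact_mod_cast (by omega : 1 ≤ n)
  have hn0 : (0 : ℝ) < n := by linarith
  have hev : Even (n + 1) := by rw [Nat.even_add_one]; exact ho
  have hP : (1 : ℝ) ≤ ((PGX.Pol f n).card : ℝ) := by exact_mod_cast PGX.card_Pol_pos hf hn ho
  have hr : (1 : ℝ) ≤ (n : ℝ) ^ (3 / 2 : ℝ) := Real.one_le_rpow hn1 (by norm_num)
  rw [sum_RgP hf (by omega) ho]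
  rcases Nat.lt_or_ge (n + 1) N0 with hlt | hge
  · have h1 : ∑ t ∈ (PCy_fin (n + 1)).toFinset, RgC (n + 1) t ≤ M := by
      rw [hM]
      exact Finset.single_le_sum (f := fun N => ∑ t ∈ (PCy_fin N).toFinset, RgC N t)
        (fun _ _ => Finset.sum_nonneg fun _ _ => RgC_nonneg _ _) (Finset.mem_range.2 hlt)
    calc 3 * ∑ t ∈ (PCy_fin (n + 1)).toFinset, RgC (n + 1) t ≤ 3 * M := by linarith
      _ = 3 * M * 1 * 1 := by ring
      _ ≤ 3 * M * (n : ℝ) ^ (3 / 2 : ℝ) * ((PGX.Pol f n).card : ℝ) := by gcongr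
      _ ≤ _ := by
          gcongr
          exact le_max_right _ _
  · have h1 := hU (n + 1) hge hev
    rw [tsum_PCy _ _ fun t _ => RgC_nonneg _ t, ENNReal.ofReal_le_ofReal_iff hC] at h1
    have h2 := hlow f hf n hn ho
    have h3 : ∑ t ∈ (PCy_fin (n + 1)).toFinset, RgC (n + 1) t ≤ C * mu ^ (n + 1) := by
      have e : ∑ t ∈ (PCy_fin (n + 1)).toFinset, RgC (n + 1) t =
          (xc ^ (n + 1) * ∑ t ∈ (PCy_fin (n + 1)).toFinset, RgC (n + 1) t) * mu ^ (n + 1) := by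
        have := xc_mul_mu (n + 1)
        linear_combination (-(∑ t ∈ (PCy_fin (n + 1)).toFinset, RgC (n + 1) t)) * this
      rw [e]
      exact mul_le_mul_of_nonneg_right h1 (by positivity)
    have h4 : (n : ℝ) ^ (3 / 2 : ℝ) * (n : ℝ) ^ (-(3 / 2) : ℝ) = 1 := by
      rw [← Real.rpow_add hn0]
      norm_num
    calc 3 * ∑ t ∈ (PCy_fin (n + 1)).toFinset, RgC (n + 1) t ≤ 3 * (C * mu ^ (n + 1)) := by linarith
      _ = 3 * C * mu / c' * ((n : ℝ) ^ (3 / 2 : ℝ) * (c' * ((n : ℝ) ^ (-(3 / 2) : ℝ) * mu ^ n))) := by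
          have e : (n : ℝ) ^ (3 / 2 : ℝ) * (c' * ((n : ℝ) ^ (-(3 / 2) : ℝ) * mu ^ n)) = c' * mu ^ n := by
            linear_combination (c' * mu ^ n) * h4
          rw [e, pow_succ]
          field_simp
      _ ≤ 3 * C * mu / c' * ((n : ℝ) ^ (3 / 2 : ℝ) * ((PGX.Pol f n).card : ℝ)) := by gcongr
      _ ≤ (3 * C * mu / c' + 1) * ((n : ℝ) ^ (3 / 2 : ℝ) * ((PGX.Pol f n).card : ℝ)) := by
          gcongr
          linarith
      _ ≤ max (3 * C * mu / c' + 1) (3 * M) * ((n : ℝ) ^ (3 / 2 : ℝ) * ((PGX.Pol f n).card : ℝ)) := by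
          gcongr
          exact le_max_left _ _
      _ = _ := by ring

/-- **lower bound of the mean** -/
theorem mean_low {c C : ℝ} (hc : 0 < c) (hC : 0 ≤ C) {N0 : ℕ}
    (hU : ∀ N : ℕ, N0 ≤ N → Even N → gf (PCy N) ≤ ENNReal.ofReal (C * (N : ℝ) ^ (-(3 / 2) : ℝ)))
    (hL : ∀ N : ℕ, N0 ≤ N → Even N → ENNReal.ofReal c ≤ ∑' t : PCy N, wE (t : List Bool) * ENNReal.ofReal (RgC N t)) :
    ∃ c' : ℝ, 0 < c' ∧ ∀ f : ℕ → Fin 3 → ℂ, MS.Hex f → ∀ n : ℕ, 9 ≤ n → ¬ Even n →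
      c' * (n : ℝ) ^ (3 / 2 : ℝ) * ((PGX.Pol f n).card : ℝ) ≤ ∑ s ∈ PGX.Pol f n, RgP f s := by
  obtain ⟨C', hC', hup⟩ := pub_up hC hU
  have hm := mu_pos
  refine ⟨min (3 * c / C') (1 / (2 * ((N0 : ℝ) + 1) ^ 2) / ((N0 : ℝ) + 1) ^ (3 / 2 : ℝ)), by positivity, ?_⟩
  intro f hf n hn ho
  have hn1 : (1 : ℝ) ≤ n := by exact_mod_cast (by omega : 1 ≤ n)
  have hn0 : (0 : ℝ) < n := by linarith
  have hev : Even (n + 1) := by rw [Nat.even_add_one]; exact ho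
  have hP : (1 : ℝ) ≤ ((PGX.Pol f n).card : ℝ) := by exact_mod_cast PGX.card_Pol_pos hf hn ho
  have hr : (1 : ℝ) ≤ (n : ℝ) ^ (3 / 2 : ℝ) := Real.one_le_rpow hn1 (by norm_num)
  rcases Nat.lt_or_ge (n + 1) N0 with hlt | hge
  · have hN0 : (n : ℝ) + 1 ≤ N0 := by exact_mod_cast hlt.le
    have h1 : 1 / (2 * ((N0 : ℝ) + 1) ^ 2) * ((PGX.Pol f n).card : ℝ) ≤ ∑ s ∈ PGX.Pol f n, RgP f s := by
      rw [mul_comm, ← nsmul_eq_mul]
      refine Finset.card_nsmul_le_sum _ _ _ fun s hs => ?_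
      rw [RgP_eq hf (by omega) hs]
      refine le_trans ?_ (RgC_ge (by omega) _)
      push_cast
      gcongr
      linarith
    refine le_trans ?_ h1
    gcongr
    have h2 : (n : ℝ) ^ (3 / 2 : ℝ) ≤ ((N0 : ℝ) + 1) ^ (3 / 2 : ℝ) :=
      Real.rpow_le_rpow hn0.le (by linarith) (by norm_num)
    calc min (3 * c / C') (1 / (2 * ((N0 : ℝ) + 1) ^ 2) / ((N0 : ℝ) + 1) ^ (3 / 2 : ℝ)) * (n : ℝ) ^ (3 / 2 : ℝ)
        ≤ 1 / (2 * ((N0 : ℝ) + 1) ^ 2) / ((N0 : ℝ) + 1) ^ (3 / 2 : ℝ) * ((N0 : ℝ) + 1) ^ (3 / 2 : ℝ) := by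
          gcongr
          exact min_le_right _ _
      _ = _ := div_mul_cancel₀ _ (by positivity)
  · have h1 := hL (n + 1) hge hev
    have hx := xc_pos
    have hS : 0 ≤ ∑ t ∈ (PCy_fin (n + 1)).toFinset, RgC (n + 1) t := Finset.sum_nonneg fun _ _ => RgC_nonneg _ _
    rw [tsum_PCy _ _ fun t _ => RgC_nonneg _ t, ENNReal.ofReal_le_ofReal_iff (by positivity)] at h1
    have h2 := hup f hf n hn ho
    rw [sum_RgP hf (by omega) ho]
    have h3 : c * mu ^ (n + 1) ≤ ∑ t ∈ (PCy_fin (n + 1)).toFinset, RgC (n + 1) t := by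
      have e : ∑ t ∈ (PCy_fin (n + 1)).toFinset, RgC (n + 1) t =
          (xc ^ (n + 1) * ∑ t ∈ (PCy_fin (n + 1)).toFinset, RgC (n + 1) t) * mu ^ (n + 1) := by
        have := xc_mul_mu (n + 1)
        linear_combination (-(∑ t ∈ (PCy_fin (n + 1)).toFinset, RgC (n + 1) t)) * this
      rw [e]
      exact mul_le_mul_of_nonneg_right h1 (by positivity)
    have h4 : (n : ℝ) ^ (3 / 2 : ℝ) * (n : ℝ) ^ (-(3 / 2) : ℝ) = 1 := by
      rw [← Real.rpow_add hn0]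
      norm_num
    have h5 : mu ^ n ≤ mu ^ (n + 1) := pow_le_pow_right₀ one_le_mu (by omega)
    calc _ ≤ 3 * c / C' * (n : ℝ) ^ (3 / 2 : ℝ) * ((PGX.Pol f n).card : ℝ) := by
          gcongr
          exact min_le_left _ _
      _ ≤ 3 * c / C' * (n : ℝ) ^ (3 / 2 : ℝ) * (C' * ((n : ℝ) ^ (-(3 / 2) : ℝ) * mu ^ n)) := by gcongr
      _ = 3 * c * mu ^ n := by
          have e : (n : ℝ) ^ (3 / 2 : ℝ) * (C' * ((n : ℝ) ^ (-(3 / 2) : ℝ) * mu ^ n)) = C' * mu ^ n := by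
            linear_combination (C' * mu ^ n) * h4
          rw [mul_assoc, e]
          field_simp
      _ ≤ 3 * (c * mu ^ (n + 1)) := by
          have := mul_le_mul_of_nonneg_left h5 hc.le
          linarith
      _ ≤ _ := by linarith

/-! ## the closing probability -/

/-- the closing probability from the number of the walks -/
theorem closing {c C a A : ℝ} (hc : 0 < c) (ha : 0 < a)
    (hA : ∀ n : ℕ, 1 ≤ n → a * (muB ^ n * (n : ℝ) ^ ((11 : ℝ) / 32)) ≤ (aB n : ℝ) ∧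
      (aB n : ℝ) ≤ A * (muB ^ n * (n : ℝ) ^ ((11 : ℝ) / 32)))
    (hP : ∀ f : ℕ → Fin 3 → ℂ, MS.Hex f → ∀ n : ℕ, 9 ≤ n → ¬ Even n →
      c * ((n : ℝ) ^ (-(3 / 2) : ℝ) * mu ^ n) ≤ ((PGX.Pol f n).card : ℝ) ∧
      ((PGX.Pol f n).card : ℝ) ≤ C * ((n : ℝ) ^ (-(3 / 2) : ℝ) * mu ^ n)) :
    ∃ c' C' : ℝ, 0 < c' ∧ ∀ f : ℕ → Fin 3 → ℂ, MS.Hex f → ∀ n : ℕ, 9 ≤ n → ¬ Even n →
      c' * (n : ℝ) ^ (-(59 / 32) : ℝ) ≤ ((PGX.Pol f n).card : ℝ) / ((MS.SW f n).card : ℝ) ∧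
      ((PGX.Pol f n).card : ℝ) / ((MS.SW f n).card : ℝ) ≤ C' * (n : ℝ) ^ (-(59 / 32) : ℝ) := by
  have hm := mu_pos
  have hmu : muB = mu := by
    rw [← mu_eq, ← one_div]
    exact le_antisymm muB_le le_muB
  have hA1 := hA 1 le_rfl
  have hA0 : 0 < A := by
    have h1 : 0 < A * (muB ^ 1 * ((1 : ℕ) : ℝ) ^ ((11 : ℝ) / 32)) := by
      refine lt_of_lt_of_le ?_ (hA1.1.trans hA1.2)
      rw [hmu]
      positivity
    rw [hmu] at h1
    exact pos_of_mul_pos_left h1 (by positivity)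
  refine ⟨c / A, C / a, by positivity, ?_⟩
  intro f hf n hn ho
  have hn1 : (1 : ℝ) ≤ n := by exact_mod_cast (by omega : 1 ≤ n)
  have hn0 : (0 : ℝ) < n := by linarith
  obtain ⟨p1, p2⟩ := hP f hf n hn ho
  obtain ⟨a1, a2⟩ := hA n (by omega)
  rw [hmu] at a1 a2
  rw [MS.card_SW hf (by omega)]
  have hS : (0 : ℝ) < (aB n : ℝ) := lt_of_lt_of_le (by positivity) a1
  have hx : (n : ℝ) ^ (-(3 / 2) : ℝ) = (n : ℝ) ^ (-(59 / 32) : ℝ) * (n : ℝ) ^ ((11 : ℝ) / 32) := by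
    rw [← Real.rpow_add hn0]
    norm_num
  have hC0 : 0 < C := by
    have h1 : 0 < C * ((n : ℝ) ^ (-(3 / 2) : ℝ) * mu ^ n) := lt_of_lt_of_le (by positivity) (p1.trans p2)
    exact pos_of_mul_pos_left h1 (by positivity)
  constructor
  · rw [le_div_iff₀ hS]
    calc c / A * (n : ℝ) ^ (-(59 / 32) : ℝ) * (aB n : ℝ)
        ≤ c / A * (n : ℝ) ^ (-(59 / 32) : ℝ) * (A * (mu ^ n * (n : ℝ) ^ ((11 : ℝ) / 32))) := by gcongr
      _ = c * ((n : ℝ) ^ (-(3 / 2) : ℝ) * mu ^ n) := by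
          rw [hx]
          field_simp
      _ ≤ _ := p1
  · rw [div_le_iff₀ hS]
    calc ((PGX.Pol f n).card : ℝ) ≤ C * ((n : ℝ) ^ (-(3 / 2) : ℝ) * mu ^ n) := p2
      _ = C / a * (n : ℝ) ^ (-(59 / 32) : ℝ) * (a * (mu ^ n * (n : ℝ) ^ ((11 : ℝ) / 32))) := by
          rw [hx]
          field_simp
      _ ≤ _ := by gcongr

end HexObs.POLP
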