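import Pool.Agent.POL.PubF

/-!
POL / PubW (helper32): wrappers: a good set of closed words gives both lower bounds; layers by the extent give both upper
bounds; the final statement about the public polygons.
-/

set_option autoImplicit false

open Finset ENNReal

namespace HexObs.POLP

open HexObs

/-- a good set gives the two lower bounds -/
theorem good_of {c : ℝ} (hc : 0 < c) {N : ℕ} (hN : 1 ≤ N) {G : Set (List Bool)} (hG : G ⊆ PCy N)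
    (h1 : ENNReal.ofReal (c * (N : ℝ) ^ (-(3 / 2) : ℝ)) ≤ gf G) (h2 : ∀ t ∈ G, c * (N : ℝ) ^ (3 / 2 : ℝ) ≤ RgC N t) :
    ENNReal.ofReal (c * (N : ℝ) ^ (-(3 / 2) : ℝ)) ≤ gf (PCy N) ∧
      ENNReal.ofReal (c * c) ≤ ∑' t : PCy N, wE (t : List Bool) * ENNReal.ofReal (RgC N t) := by
  refine ⟨h1.trans (gf_mono hG), ?_⟩
  have hN0 : (0 : ℝ) < N := by exact_mod_cast hN
  have h4 : (N : ℝ) ^ (3 / 2 : ℝ) * (N : ℝ) ^ (-(3 / 2) : ℝ) = 1 := by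
    rw [← Real.rpow_add hN0]
    norm_num
  have e : c * c = c * (N : ℝ) ^ (-(3 / 2) : ℝ) * (c * (N : ℝ) ^ (3 / 2 : ℝ)) := by
    linear_combination (-(c * c)) * h4
  rw [e, ENNReal.ofReal_mul (by positivity)]
  calc ENNReal.ofReal (c * (N : ℝ) ^ (-(3 / 2) : ℝ)) * ENNReal.ofReal (c * (N : ℝ) ^ (3 / 2 : ℝ))
      ≤ gf G * ENNReal.ofReal (c * (N : ℝ) ^ (3 / 2 : ℝ)) := by gcongr
    _ = ∑' t : G, wE (t : List Bool) * ENNReal.ofReal (c * (N : ℝ) ^ (3 / 2 : ℝ)) := by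
        unfold gf
        rw [ENNReal.tsum_mul_right]
    _ ≤ ∑' t : G, wE (t : List Bool) * ENNReal.ofReal (RgC N t) :=
        ENNReal.tsum_le_tsum fun t => mul_le_mul_right (ENNReal.ofReal_le_ofReal (h2 t t.2)) _
    _ ≤ ∑' t : PCy N, wE (t : List Bool) * ENNReal.ofReal (RgC N t) :=
        ENNReal.tsum_mono_subtype (fun t => wE t * ENNReal.ofReal (RgC N t)) hG

/-- a sum over a set that is covered by layers -/
lemma tsum_layers {P : Set (List Bool)} {E : ℕ → Set (List Bool)} (hE : P ⊆ ⋃ K, E K) (F : List Bool → ℝ≥0∞) :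
    ∑' t : P, F t ≤ ∑' K, ∑' t : (P ∩ E K : Set (List Bool)), F t := by
  have h1 : P ⊆ ⋃ K, P ∩ E K := by
    intro t ht
    obtain ⟨K, hK⟩ := Set.mem_iUnion.1 (hE ht)
    exact Set.mem_iUnion.2 ⟨K, ht, hK⟩
  exact (ENNReal.tsum_mono_subtype F h1).trans (ENNReal.tsum_iUnion_le_tsum F _)

/-- layers by the extent: the sum of the squared radii of gyration -/
theorem layers_of {N : ℕ} (hN : 1 ≤ N) {E : ℕ → Set (List Bool)} (hE : PCy N ⊆ ⋃ K, E K) {B : ℝ} (hB : 0 ≤ B)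
    (hD : ∀ K, ∀ t ∈ PCy N ∩ E K, ∀ i j, i < N → j < N →
      ((nrm (vx oo up t i - vx oo up t j) : ℤ) : ℝ) ≤ B * 4 ^ K) :
    ∑' t : PCy N, wE (t : List Bool) * ENNReal.ofReal (RgC N t) ≤
      ENNReal.ofReal (B / 2) * ∑' K, (4 : ℝ≥0∞) ^ K * gf (PCy N ∩ E K) := by
  refine (tsum_layers hE (fun t => wE t * ENNReal.ofReal (RgC N t))).trans ?_
  rw [← ENNReal.tsum_mul_left]
  refine ENNReal.tsum_le_tsum fun K => ?_
  have h4 : (4 : ℝ≥0∞) ^ K = ENNReal.ofReal (4 ^ K) := by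
    rw [ENNReal.ofReal_pow (by norm_num)]
    norm_num
  unfold gf
  rw [← mul_assoc, h4, ← ENNReal.ofReal_mul (by positivity), ← ENNReal.tsum_mul_left]
  refine ENNReal.tsum_le_tsum fun t => ?_
  rw [mul_comm]
  refine mul_le_mul_left (ENNReal.ofReal_le_ofReal ?_) _
  have := RgC_le (D := B * 4 ^ K) hN (fun i j hi hj => hD K t t.2 i j hi hj)
  linarith

/-- **the final statement** from the two good sets -/
theorem final_of {c C a A : ℝ} (hc : 0 < c) (hC : 0 ≤ C) (ha : 0 < a) {N0 : ℕ}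
    (hA : ∀ n : ℕ, 1 ≤ n → a * (muB ^ n * (n : ℝ) ^ ((11 : ℝ) / 32)) ≤ (aB n : ℝ) ∧
      (aB n : ℝ) ≤ A * (muB ^ n * (n : ℝ) ^ ((11 : ℝ) / 32)))
    (hlow : ∀ N : ℕ, N0 ≤ N → Even N → ∃ G ⊆ PCy N, ENNReal.ofReal (c * (N : ℝ) ^ (-(3 / 2) : ℝ)) ≤ gf G ∧
      ∀ t ∈ G, c * (N : ℝ) ^ (3 / 2 : ℝ) ≤ RgC N t)
    (hup : ∀ N : ℕ, N0 ≤ N → Even N → gf (PCy N) ≤ ENNReal.ofReal (C * (N : ℝ) ^ (-(3 / 2) : ℝ)) ∧
      ∑' t : PCy N, wE (t : List Bool) * ENNReal.ofReal (RgC N t) ≤ ENNReal.ofReal C) :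
    ∃ c' C' : ℝ, 0 < c' ∧ ∀ f : ℕ → Fin 3 → ℂ, MS.Hex f → ∀ n : ℕ, 9 ≤ n → ¬ Even n →
      (c' * (n : ℝ) ^ (-(3 / 2) : ℝ) * mu ^ n ≤ ((PGX.Pol f n).card : ℝ) ∧
        ((PGX.Pol f n).card : ℝ) ≤ C' * (n : ℝ) ^ (-(3 / 2) : ℝ) * mu ^ n) ∧
      (c' * (n : ℝ) ^ (3 / 2 : ℝ) ≤ (∑ s ∈ PGX.Pol f n, RgP f s) / ((PGX.Pol f n).card : ℝ) ∧
        (∑ s ∈ PGX.Pol f n, RgP f s) / ((PGX.Pol f n).card : ℝ) ≤ C' * (n : ℝ) ^ (3 / 2 : ℝ)) ∧
      (c' * (n : ℝ) ^ (-(59 / 32) : ℝ) ≤ ((PGX.Pol f n).card : ℝ) / ((MS.SW f n).card : ℝ) ∧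
        ((PGX.Pol f n).card : ℝ) / ((MS.SW f n).card : ℝ) ≤ C' * (n : ℝ) ^ (-(59 / 32) : ℝ)) := by
  obtain ⟨M, hM⟩ : ∃ M, M = max N0 1 := ⟨_, rfl⟩
  have hL : ∀ N : ℕ, M ≤ N → Even N → ENNReal.ofReal (c * (N : ℝ) ^ (-(3 / 2) : ℝ)) ≤ gf (PCy N) := by
    intro N hN he
    obtain ⟨G, hG, h1, h2⟩ := hlow N (by omega) he
    exact (good_of hc (by omega) hG h1 h2).1
  have hR : ∀ N : ℕ, M ≤ N → Even N →
      ENNReal.ofReal (c * c) ≤ ∑' t : PCy N, wE (t : List Bool) * ENNReal.ofReal (RgC N t) := by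
    intro N hN he
    obtain ⟨G, hG, h1, h2⟩ := hlow N (by omega) he
    exact (good_of hc (by omega) hG h1 h2).2
  have hU1 : ∀ N : ℕ, M ≤ N → Even N → gf (PCy N) ≤ ENNReal.ofReal (C * (N : ℝ) ^ (-(3 / 2) : ℝ)) :=
    fun N hN he => (hup N (by omega) he).1
  have hU2 : ∀ N : ℕ, M ≤ N → Even N →
      ∑' t : PCy N, wE (t : List Bool) * ENNReal.ofReal (RgC N t) ≤ ENNReal.ofReal C :=
    fun N hN he => (hup N (by omega) he).2
  obtain ⟨c1, hc1, p1⟩ := pub_low hc hL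
  obtain ⟨C1, hC1, p2⟩ := pub_up hC hU1
  obtain ⟨C2, hC2, p3⟩ := mean_up hc hC hL hU2
  obtain ⟨c2, hc2, p4⟩ := mean_low (c := c * c) (by positivity) hC hU1 hR
  obtain ⟨c3, C3, hc3, p5⟩ := closing hc1 ha hA (fun f hf n hn ho => ⟨p1 f hf n hn ho, p2 f hf n hn ho⟩)
  have hmu := mu_pos
  refine ⟨min c1 (min c2 c3), max C1 (max C2 C3), by positivity, ?_⟩
  intro f hf n hn ho
  have hn0 : (0 : ℝ) < n := by exact_mod_cast (by omega : 0 < n)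
  have hP : (0 : ℝ) < ((PGX.Pol f n).card : ℝ) := by exact_mod_cast PGX.card_Pol_pos hf hn ho
  have q1 := p1 f hf n hn ho
  have q2 := p2 f hf n hn ho
  have q3 := p3 f hf n hn ho
  have q4 := p4 f hf n hn ho
  have q5 := p5 f hf n hn ho
  refine ⟨⟨?_, ?_⟩, ⟨?_, ?_⟩, ?_, ?_⟩
  · refine le_trans ?_ q1
    rw [← mul_assoc]
    gcongr
    exact min_le_left _ _
  · refine q2.trans ?_
    rw [← mul_assoc]
    gcongr
    exact le_max_left _ _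
  · rw [le_div_iff₀ hP]
    refine le_trans ?_ q4
    gcongr
    exact (min_le_right _ _).trans (min_le_left _ _)
  · rw [div_le_iff₀ hP]
    refine q3.trans ?_
    gcongr
    exact (le_max_left _ _).trans (le_max_right _ _)
  · refine le_trans ?_ q5.1
    gcongr
    exact (min_le_right _ _).trans (min_le_right _ _)
  · refine q5.2.trans ?_
    gcongr
    exact (le_max_right _ _).trans (le_max_right _ _)

end HexObs.POLP
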