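import Pool.Agent.POL.EndN
import Pool.Agent.POL.GeoM
import Pool.Agent.JNT.Event

/-!
POL (polygons): the event theorem for words with two closed ends of a finer scale, a given label.
-/

set_option autoImplicit false

namespace HexObs

namespace POL

open Finset TS SDN SDN.CN NTm NTW NTA EN JNT SIM

open scoped ENNReal

/-- the event theorem for words with two closed ends of a finer scale, a given label -/
def REc {Λ : Type} (lab : List Bool → Λ) : Prop := ∃ (C : ℝ) (k0 : ℕ), 1 ≤ C ∧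
  ∀ (kc J q : ℕ) (R : Set (List (List Bool))) (δ : ℝ) (la : Λ), k0 + q ≤ kc → 6 ≤ J → 0 < δ → SmRL lab DmJ kc R δ →
    gf {t | lab t = la ∧ ClS (RR (kc - q + 5)) t ∧ ClE (RR (kc - q + 5)) t ∧ t ∈ ERw kc J R} ≤
      ENNReal.ofReal (C ^ (J + q) * δ * Ub (kc + J))

open QF in
open Classical in
/-- **the words with two closed ends, a given label and a marked run in a class of small labelled norm** -/
theorem rec_of {Λ : Type} {lab : List Bool → Λ} (hG : GeoRunM) (hLA : LabA lab) (hfun : ChainL lab DmJ) : REc lab := by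
  obtain ⟨V, k0, hV1, hwin⟩ := win_family
  obtain ⟨Q, hQ, hfun⟩ := hfun
  obtain ⟨Kc, hKc, hcov⟩ := coverVC
  obtain ⟨Ke, ke, hKe, hE⟩ := tot_cl
  have hKc0 : 0 < Kc := by linarith
  have hKe0 : 0 < Ke := by linarith
  have hQ0 : 0 < Q := by linarith
  refine ⟨16 * Kc * Q ^ (2 * V + 2) * Ke ^ 18, max (max k0 ke + 1) 1, ?_, ?_⟩
  · have a1 : 1 ≤ 16 * Kc := by linarith
    have a2 : 1 ≤ Q ^ (2 * V + 2) := one_le_pow₀ hQ
    have a3 : 1 ≤ Ke ^ 18 := one_le_pow₀ hKe
    exact one_le_mul_of_one_le_of_one_le (one_le_mul_of_one_le_of_one_le a1 a2) a3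
  intro kc J q R δ la hkc hJ hδ hS
  have hkq : max k0 ke + 1 + q ≤ kc := le_trans (Nat.add_le_add_right (le_max_left _ _) q) hkc
  have hke : ke ≤ kc - q - 1 := by
    have := le_max_right k0 ke
    omega
  have hk0 : k0 ≤ kc := by
    have := le_max_left k0 ke
    omega
  have hk1 : 1 ≤ kc := by omega
  have hUL := Ub_pos (kc + J)
  obtain ⟨ρ, hρ⟩ : ∃ ρ, ρ = RR (kc - q + 5) := ⟨_, rfl⟩
  have hρ2 : RR (kc - q - 1 + 5) ≤ ρ - 2 := by
    have e2 : (2 : ℤ) ^ (kc - q + 5) = 2 ^ (kc - q - 1 + 5) * 2 := by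
      rw [← pow_succ]
      congr 1
      omega
    rw [hρ]
    unfold RR
    rw [e2]
    have : (1 : ℤ) ≤ 2 ^ (kc - q - 1 + 5) := one_le_pow₀ (by norm_num)
    linarith
  have hρk : ρ ≤ RR (kc + 5) := by
    rw [hρ]
    unfold RR
    have : (2 : ℤ) ^ (kc - q + 5) ≤ 2 ^ (kc + 5) := pow_le_pow_right₀ (by norm_num) (by omega)
    omega
  rw [← hρ]
  obtain ⟨lam, hlam⟩ : ∃ lam, lam = 100 * 4 ^ (kc + J) := ⟨_, rfl⟩
  obtain ⟨x, hx⟩ : ∃ x, x = Ke ^ (J + q + 8) := ⟨_, rfl⟩
  have hx0 : 0 ≤ x := by rw [hx]; positivity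
  obtain ⟨W, kp, idx, hW, hidx, hmem⟩ := hwin kc (J + 2) hk0 (by omega)
  obtain ⟨n, hn⟩ : ∃ n, n = V * (J + 2) := ⟨_, rfl⟩
  rw [← hn] at hW hmem
  have hn1 : 1 ≤ n := by
    rw [hn]
    exact Nat.mul_pos hV1 (by omega)
  obtain ⟨Φ, hΦ⟩ : ∃ Φ : ℕ → Option (List Bool) → List Bool → ℝ≥0∞,
    Φ = fun i => PoC (2 ^ (kp i + 4)) (2 ^ (kp i + 6)) lam (RR (kc - q - 1 + 5)) := ⟨_, rfl⟩
  have hDmi : ∀ i, i < n → DmJ (kp i) (ENNReal.ofReal x) (fun t => ∑' o, Φ i o t) := by
    intro i hi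
    have h0 : kc ≤ kp i := by
      rw [← hW.zero]
      exact hW.mono 0 i (Nat.zero_le i)
    have h1 := hW.top i hi
    rw [hΦ, hx]
    exact hE (kc - q - 1) (J + q + 8) (kp i) lam hke (by omega) (by omega) (by omega)
  have hDom : ∀ i, i < n → Dom (kp i) (ENNReal.ofReal x) (fun t => ∑' o, Φ i o t) := fun i hi => (hDmi i hi).dom
  have hD0 : DmJ kc (ENNReal.ofReal x) (fun t => ∑' o, Φ 0 o t) := by
    have := hDmi 0 (by omega)
    rwa [hW.zero] at this
  have hΦ0 : Φ 0 = PoC (2 ^ (kc + 4)) (2 ^ (kc + 6)) lam (RR (kc - q - 1 + 5)) := by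
    rw [hΦ]
    simp only [hW.zero]
  have hflp : ∀ c, Flp (2 ^ (kc + 4)) (Φ 0 c) := by
    rw [hΦ0]
    exact flp_PoC Nat.one_le_two_pow _ _ _
  have hΦh : ∀ c, HerD (2 ^ (kc + 4)) (Φ 0 c) := by
    rw [hΦ0]
    exact her_PoC Nat.one_le_two_pow _ _ _
  obtain ⟨R', hR'⟩ : ∃ R', R' = {gs : List (List Bool) | gs ∈ R ∧ ∀ g ∈ gs, g ∈ BrR (2 ^ (kc + 4)) (2 ^ (kc + J + 2))} :=
    ⟨_, rfl⟩
  have hR'S : SmRL lab DmJ kc R' δ := SmRL.anti hS (by rw [hR']; exact fun gs h => h.1)
  have hR'H : ∀ gs ∈ R', ∀ g ∈ gs, g ∈ HB (2 ^ (kc + 4)) := by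
    intro gs hgs g hg
    rw [hR'] at hgs
    exact (NTW.EX.Brd_HB le_rfl (hgs.2 g hg)).1
  obtain ⟨M, hM⟩ : ∃ M, M = 100 * 4 ^ (kc + J) := ⟨_, rfl⟩
  obtain ⟨T, hT⟩ : ∃ T, T = ENNReal.ofReal (Q ^ (n + (J + 2) + 1) * δ * Ub (kc + (J + 2)) * x ^ 2) := ⟨_, rfl⟩
  obtain ⟨Cr, hCr⟩ : ∃ Cr : Fin 16 → Option (List Bool) → Option (List Bool) → List (List Bool) → Prop,
    Cr = fun c o o' gs => (∀ g ∈ gs, g ∈ HB 16) ∧ lab (Rp.asmF c o gs o') = la := ⟨_, rfl⟩
  have hrig : ∀ c, RigR lab (Cr c) := by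
    intro c
    rw [hCr]
    exact hLA c la
  have hfun' := fun (c : Fin 16) w0 w1 h0 => hfun kc (J + 2) n W kp R' δ x _ Φ (Cr c) w0 w1 hW hn1 hδ.le hx0 hR'S
    (hrig c) hR'H hDom le_rfl hD0 hflp hΦh h0 M
  rw [← hT] at hfun'
  -- the classes
  obtain ⟨f, hf⟩ : ∃ f : Bool → ℕ → ℕ, f = fun a r => if a then 2 ^ (kc + 5) else r / 3 + 1 := ⟨_, rfl⟩
  have hfm : ∀ a, Monotone (f a) := by
    intro a x y hxy
    rw [hf]
    cases a
    · exact Nat.add_le_add_right (Nat.div_le_div_right hxy) 1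
    · exact le_rfl
  let A : Bool → Bool → Set (List Bool) := fun a a' => {t | lab t = la ∧ ClS ρ t ∧ ClE ρ t ∧ t ∈ WL (kc + J) ∧ ∃ (r u p d : ℕ) (E : ℕ → ℕ),
    p + d < r ∧ FoldG t r u E ∧ (∀ gs, RepG t r u E gs → (∀ g ∈ gs, g ∈ BrR (2 ^ (kc + 4)) (2 ^ (kc + J + 2))) →
      (gs.drop p).take (d + 1) ∈ R') ∧
    (∀ q, q < r → RR (kc + 5) ≤ RG t u E q) ∧ (∀ q, q + 1 < p → RG t u E (q + 1) ≤ RG t u E q) ∧
    (∀ q, p + d < q → q + 1 < r → RG t u E q ≤ RG t u E (q + 1)) ∧
    (∀ i, i < E 0 → Tight.sg u (lev t i) - Tight.sg u (lev t (E 0)) ≤ if p = 0 then RR (kc + 5) else RG t u E 0) ∧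
    (∀ i, E r < i → i ≤ t.length → Tight.sg (u + (r - 1)) (lev t (E r)) - Tight.sg (u + (r - 1)) (lev t i) ≤
      if p + d + 1 = r then RR (kc + 5) else RG t u E (r - 1)) ∧ (a = true ↔ p = 0) ∧ (a' = true ↔ p + d + 1 = r)}
  have hsub : {t | lab t = la ∧ ClS ρ t ∧ ClE ρ t ∧ t ∈ ERw kc J R} ⊆ ⋃ a ∈ (Finset.univ : Finset Bool), ⋃ a' ∈ (Finset.univ : Finset Bool),
      A a a' := by
    rintro t ⟨htn, htS, htE, htW, m, u, e, hF, l, d', hd', hl, hgS⟩
    obtain ⟨d, rfl⟩ : ∃ d, d' = d + 1 := ⟨d' - 1, by omega⟩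
    obtain ⟨r, u', p, E, g1, g2, gE, g3, gp, gr, g4, g5, g6, g7, g8⟩ :=
      hG (kc + 5) m u t e (by omega) htW.1 hF l d (by omega)
    rw [Set.mem_iUnion₂]
    refine ⟨decide (p = 0), Finset.mem_univ _, ?_⟩
    rw [Set.mem_iUnion₂]
    refine ⟨decide (p + d + 1 = r), Finset.mem_univ _, htn, htS, htE, htW, r, u', p, d, E, g1, g2, ?_, g4, g5, g6, g7, g8, ?_, ?_⟩
    · intro gs hR hB
      have hlen := hR.len
      have hml : ((gs.drop p).take (d + 1)).length = d + 1 := by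
        rw [List.length_take, List.length_drop]
        omega
      have hget : ∀ (i : ℕ) (hi : i < ((gs.drop p).take (d + 1)).length), ((gs.drop p).take (d + 1))[i] =
          gs[p + i]'(by omega) := by
        intro i hi
        rw [List.getElem_take, List.getElem_drop]
      have hmB : ∀ g ∈ (gs.drop p).take (d + 1), g ∈ BrR (2 ^ (kc + 4)) (2 ^ (kc + J + 2)) := fun g hg =>
        hB g (List.mem_of_mem_drop (List.mem_of_mem_take hg))
      rw [hR']
      refine ⟨hgS _ hml ?_ ?_ ?_ hmB, hmB⟩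
      · intro i hi
        rw [hget i hi]
        exact g3 i (by omega) _ (hR.pos (p + i) (by omega))
      · intro i hi h1 h2
        rw [hget i hi]
        have h3 : 1 ≤ p + i := by
          by_contra hc
          have h4 := gp (by omega)
          omega
        have h5 : p + i + 2 ≤ r := by
          by_contra hc
          have h4 := gr (by omega)
          omega
        rw [hR.mid (p + i) (by omega) h3 h5, gE i (by omega), add_assoc p i 1, gE (i + 1) (by omega),
          ← add_assoc l i 1]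
      · exact (hR.ch.drop p).take (d + 1)
    · simp
    · simp
  have hcl : ∀ a a', gf (A a a') ≤ ENNReal.ofReal Kc * T := by
    intro a a'
    refine hcov {t | lab t = la} (A a a') (f a) (f a') lam ρ (fun gs => gs.length ≤ M ∧ (∀ g ∈ gs, g ∈ HB 16) ∧
      TotL W n M R' Φ Φ gs (fun o => EoC (f a (3 * hgt (gs.headD []) + 8)) lam (ρ - 2) o (rev (gs.headD [])))
      (fun o => EoC (f a' (3 * hgt (gs.getLastD []) + 8)) lam (ρ - 2) o (gs.getLastD []))) (hfm a) (hfm a') ?_ T ?_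
    · rintro t ⟨htn, htS, htE, htW, r, u, p, d, E, g1, g2, g3, g4, g5, g6, g7, g8, g9, g10⟩
      have hRR0 : 0 < RR (kc + 5) := by
        unfold RR
        have : (1 : ℤ) ≤ 2 ^ (kc + 5) := one_le_pow₀ (by norm_num)
        omega
      refine ⟨htn, ⟨htW.1, by rw [hlam]; exact WL_length htW⟩, htS, htE, r, u, E, by omega, g2,
        hρk.trans (g4 0 (by omega)), hρk.trans (g4 (r - 1) (by omega)), fun i hi => ?_, fun i hi1 hi2 => ?_,
        fun gs hR => ?_⟩
      · refine (g7 i hi).trans ?_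
        have h4 := g4 0 (by omega)
        by_cases hp : p = 0
        · rw [if_pos hp, g9.2 hp, hf]
          simp only [if_true]
          unfold RR
          push_cast
          omega
        · have ha : a = false := by
            rw [← Bool.not_eq_true]
            exact fun h => hp (g9.1 h)
          rw [if_neg hp, ha, hf]
          simp only [Bool.false_eq_true, if_false]
          push_cast
          omega
      · refine (g8 i hi1 hi2).trans ?_
        have h4 := g4 (r - 1) (by omega)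
        by_cases hp : p + d + 1 = r
        · rw [if_pos hp, g10.2 hp, hf]
          simp only [if_true]
          unfold RR
          push_cast
          omega
        · have ha : a' = false := by
            rw [← Bool.not_eq_true]
            exact fun h => hp (g10.1 h)
          rw [if_neg hp, ha, hf]
          simp only [Bool.false_eq_true, if_false]
          push_cast
          omega
      · have hlen : gs.length ≤ M := by
          rw [hR.len, hM]
          exact (fold_card g2).trans (WL_length htW)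
        have hBr := rep_brr' htW g2 g4 hR
        have hne : gs ≠ [] := by
          intro h0
          have := hR.len
          rw [h0, List.length_nil] at this
          omega
        have hhd : gs.headD [] ∈ gs := by
          obtain ⟨a, gs', rfl⟩ := List.exists_cons_of_ne_nil hne
          simp
        have hla : gs.getLastD [] ∈ gs := by
          rw [List.getLastD_eq_getLast?, List.getLast?_eq_getLast_of_ne_nil hne, Option.getD_some]
          exact List.getLast_mem hne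
        -- weights of the ends
        have hw0 : ∀ g, g ∈ BrR (2 ^ (kc + 4)) (2 ^ (kc + J + 2)) → (∀ o, EoC (2 ^ (kc + 5)) lam (ρ - 2) o g ≤ Φ 0 o g) ∧
            ∀ o, EoC (2 ^ (kc + 5)) lam (ρ - 2) o (rev g) ≤ Φ 0 o (rev g) := by
          intro g hg
          obtain ⟨h1, h2⟩ := NTW.EX.Brd_HB le_rfl hg
          rw [hΦ0]
          have h5 : (2 : ℕ) ^ (kc + 5) ≤ 2 ^ (kc + 6) := Nat.pow_le_pow_right (by norm_num) (by omega)
          exact ⟨fun o => EoC_le h1 h5 hρ2 o, fun o => EoC_le h2 h5 hρ2 o⟩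
        have hw1 : ∀ g, g ∈ BrR (2 ^ (kc + 4)) (2 ^ (kc + J + 2)) →
            (∀ o, EoC ((3 * hgt g + 8) / 3 + 1) lam (ρ - 2) o g ≤ Φ (idx (hgt g)) o g) ∧
            ∀ o, EoC ((3 * hgt g + 8) / 3 + 1) lam (ρ - 2) o (rev g) ≤ Φ (idx (hgt g)) o (rev g) := by
          rintro g ⟨h, a1, a2, a3⟩
          obtain ⟨b1, b2⟩ := hmem g h a3 a1 a2
          have hh : hgt g = h := hgt_eq a3
          rw [hh]
          obtain ⟨h', c1, c2, c3⟩ := hW.sub _ b1 b2
          have e1 : h' = h := Brd_height c3 a3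
          rw [e1] at c1 c2
          have h5 : (3 * h + 8) / 3 + 1 ≤ 2 ^ (kp (idx h) + 6) := by
            have e2 : 2 ^ (kp (idx h) + 6) = 2 * 2 ^ (kp (idx h) + 5) := by ring
            have e3 : (2 : ℕ) ^ 2 ≤ 2 ^ (kp (idx h) + 5) := Nat.pow_le_pow_right (by norm_num) (by omega)
            omega
          obtain ⟨d1, d2⟩ := NTW.EX.Brd_HB le_rfl (hW.sub _ b1 b2)
          rw [hΦ]
          exact ⟨fun o => EoC_le d1 h5 hρ2 o, fun o => EoC_le d2 h5 hρ2 o⟩
        refine ⟨hlen, fun g hg => ?_, tot_ofL hidx (fun g h a1 a2 a3 => hmem g h a1 a2 a3) htW.1 g2 g1 g5 g6 hR hBr (g3 gs hR hBr) hlen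
          ?_ ?_ ?_ ?_⟩
        · obtain ⟨h, a1, a2⟩ := (NTW.EX.Brd_HB le_rfl (hBr g hg)).1
          exact ⟨h, le_trans (by rw [pow_add]; have := Nat.one_le_two_pow (n := kc); omega) a1, a2⟩
        · intro hp
          rw [g9.2 hp, hf]
          exact (hw0 _ (hBr _ hhd)).2
        · intro hp
          have ha : a = false := by
            rw [← Bool.not_eq_true]
            exact fun h => by have := g9.1 h; omega
          rw [ha, hf]
          exact (hw1 _ (hBr _ hhd)).2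
        · intro hp
          rw [g10.2 hp, hf]
          exact (hw0 _ (hBr _ hla)).1
        · intro hp
          have ha : a' = false := by
            rw [← Bool.not_eq_true]
            exact fun h => by have := g10.1 h; omega
          rw [ha, hf]
          exact (hw1 _ (hBr _ hla)).1
    · intro c
      refine le_trans ?_ (hfun' c (fun gs o => EoC (f a (3 * hgt (gs.headD []) + 8)) lam (ρ - 2) o (rev (gs.headD [])))
        (fun gs o => EoC (f a' (3 * hgt (gs.getLastD []) + 8)) lam (ρ - 2) o (gs.getLastD [])) (fun _ _ => rfl))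
      refine ENNReal.tsum_le_tsum fun gs => ?_
      split_ifs with h1 h2
      · unfold cwL
        refine mul_le_mul_right (ENNReal.tsum_le_tsum fun o => ENNReal.tsum_le_tsum fun o' => ?_) _
        by_cases hw : Cw {t | lab t = la} c o o' gs
        · have hw2 : Cr c o o' gs := by
            rw [hCr]
            exact ⟨h1.2.2.2.2.1, hw⟩
          rw [if_pos hw, if_pos hw2]
        · rw [if_neg hw]
          exact zero_le
      · exact absurd ⟨h1.2.2.2.1, h1.2.1, h1.2.2.2.2.2⟩ h2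
      · exact zero_le
      · exact le_rfl
  have h4 : gf {t | lab t = la ∧ ClS ρ t ∧ ClE ρ t ∧ t ∈ ERw kc J R} ≤ 4 * (ENNReal.ofReal Kc * T) := by
    refine (gf_mono hsub).trans ((BAR.gf_bi_le _ _).trans ?_)
    refine (Finset.sum_le_sum fun a _ => (BAR.gf_bi_le _ _).trans (Finset.sum_le_sum fun a' _ => hcl a a')).trans ?_
    simp only [Finset.sum_const, Finset.card_univ, Fintype.card_bool, nsmul_eq_mul]
    apply le_of_eq
    push_cast
    ring
  refine h4.trans ?_
  have e4 : (4 : ℝ≥0∞) = ENNReal.ofReal 4 := by simp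
  rw [hT, e4, ← ENNReal.ofReal_mul hKc0.le, ← ENNReal.ofReal_mul (by norm_num)]
  apply ENNReal.ofReal_le_ofReal
  have hU2 : Ub (kc + (J + 2)) ≤ 4 * Ub (kc + J) := by
    have := UU_ratio_up (kc + J) 2
    calc Ub (kc + (J + 2)) = UU (2 ^ (kc + J + 2)) := rfl
      _ ≤ 2 ^ 2 * Ub (kc + J) := this
      _ = _ := by norm_num
  have hQp : Q ^ (n + (J + 2) + 1) ≤ (Q ^ (2 * V + 2)) ^ (J + q) := by
    rw [← pow_mul]
    apply pow_le_pow_right₀ hQ
    have e5 : V * (J + 2) ≤ 2 * V * J := by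
      have : V * 2 ≤ V * J := Nat.mul_le_mul_left _ (by omega)
      calc V * (J + 2) = V * J + V * 2 := by ring
        _ ≤ V * J + V * J := by omega
        _ = _ := by ring
    have e6 : (2 * V + 2) * J = 2 * V * J + 2 * J := by ring
    have e7 : (2 * V + 2) * J ≤ (2 * V + 2) * (J + q) := Nat.mul_le_mul_left _ (by omega)
    omega
  have hKJ : 16 * Kc ≤ (16 * Kc) ^ (J + q) := by
    calc 16 * Kc = (16 * Kc) ^ 1 := (pow_one _).symm
      _ ≤ _ := pow_le_pow_right₀ (by linarith) (by omega)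
  have hxx : x ^ 2 ≤ (Ke ^ 18) ^ (J + q) := by
    rw [hx, ← pow_mul, ← pow_mul]
    exact pow_le_pow_right₀ hKe (by omega)
  have hUJ2 := Ub_pos (kc + (J + 2))
  calc 4 * (Kc * (Q ^ (n + (J + 2) + 1) * δ * Ub (kc + (J + 2)) * x ^ 2))
      ≤ 4 * (Kc * ((Q ^ (2 * V + 2)) ^ (J + q) * δ * (4 * Ub (kc + J)) * (Ke ^ 18) ^ (J + q))) := by gcongr
    _ = (16 * Kc) * (Q ^ (2 * V + 2)) ^ (J + q) * (Ke ^ 18) ^ (J + q) * δ * Ub (kc + J) := by ring
    _ ≤ (16 * Kc) ^ (J + q) * (Q ^ (2 * V + 2)) ^ (J + q) * (Ke ^ 18) ^ (J + q) * δ * Ub (kc + J) := by gcongr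
    _ = (16 * Kc * Q ^ (2 * V + 2) * Ke ^ 18) ^ (J + q) * δ * Ub (kc + J) := by rw [← mul_pow, ← mul_pow]

end POL

end HexObs
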