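import Pool.Agent.POL.ClIn
import Pool.Agent.EN.RepF

/-!
POL (polygons): the representation of a self-avoiding word by two free ends and a chain of leaves, with the levels of the
two free ends.
-/

set_option autoImplicit false

namespace HexObs

namespace POL

open Finset TS SDN NTW

open NTW.Rp

/-- the free end W with one more letter is a half plane word that hangs at g -/
def EnG (N : ℕ) (g W : List Bool) : Prop := ∀ x : Bool, W ++ [x] ∈ NSt N ∧ LFold g (W ++ [x])

/-- the start of the first leaf hangs at the reversed beginning -/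
lemma start_hangC {t : List Bool} {u l : ℕ} {c0 : Bool} {r : List Bool} (hrl : r.length ≤ l + 1)
    (hrv0 : ∀ k, k ≤ r.length → vx oo up r k = vx oo up (rev (t.take l)) k) (ht : t ∈ SA) (hl : l + 2 ≤ t.length)
    (hd : dx up t l = -(sgP u up)) (hd1 : dx up t (l + 1) = turn c0 (turn c0 (sgP u up))) {g : List Bool} {k : ℕ}
    (hg : g ∈ Brd k) (hk : 1 ≤ k) (hgl : l + 1 + g.length ≤ t.length)
    (hv : ∀ i, 1 ≤ i → i ≤ g.length → vx oo up t (l + 1 + i) = (vx oo up t (l + 2) - sgP u up) + sgP u (vx oo up g i))
    (hc : tf g 0 = c0) : LFold (rev g) r := by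
  obtain ⟨g1, g2, g3, g4⟩ := mem_Brd.1 hg
  have hgr := Brd_rev hg
  have hgr3 := (mem_Brd.1 hgr).2.2.1
  have hlen1 : 2 ≤ g.length := by
    by_contra hcon
    have h5 : g.length = 0 ∨ g.length = 1 := by omega
    rcases h5 with h5 | h5
    · rw [h5, lev_zero] at g4
      omega
    · rw [h5, lev_one] at g4
      omega
  have hlst : lst (rev g) = !c0 := by
    have h5 : tf (rev g) (g.length - 1) = !c0 := by
      rw [tf_rev (by omega), show g.length - 1 - (g.length - 1) = 0 by omega, hc]
    rw [← h5]
    unfold lst tf
    rw [List.getLastD_eq_getLast?, List.getLast?_eq_getElem?, rev_length, List.getD_eq_getElem?_getD]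
  -- the vertex before the leaf, in the frame of the leaf
  have hv0 : vx oo up t (l + 1) = (vx oo up t (l + 2) - sgP u up) + sgP u (up + turn (!c0) up) := by
    have e1 : vx oo up t (l + 2) = vx oo up t (l + 1) + turn c0 (turn c0 (sgP u up)) := by
      rw [show l + 2 = l + 1 + 1 from rfl, vx_succ, hd1]
    have e2 : turn c0 (turn c0 (sgP u up)) = -sgP u (turn (!c0) up) := by
      rw [sgP_turn, sgP_turn, ← sgP_neg]
      congr 1
      cases c0 <;> decide
    rw [e1, e2, sgP_add]
    abel
  unfold LFold
  rw [hlst]
  have hrv : ∀ j, 1 ≤ j → j ≤ (rev g).length → ∃ i, 1 ≤ i ∧ i ≤ g.length ∧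
      vx oo up (rev g) j = vx oo up g g.length + up - vx oo up g i := by
    intro j h1 h2
    rw [rev_length] at h2
    exact ⟨g.length + 1 - j, by omega, by omega, vx_rev_turned g3 (by omega)⟩
  have hend : vx oo up (rev g) (rev g).length = vx oo up g g.length := by
    have h5 := vx_rev_turned g3 (i := g.length) (by omega)
    rw [rev_length, h5, show g.length + 1 - g.length = 1 by omega, vx_one]
    abel
  apply hang_of hgr3
  · intro j h1 h2 heq
    obtain ⟨i, hi1, hi2, hi3⟩ := hrv j h1 h2
    rw [hi3, hend, Bool.not_not] at heq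
    -- the vertex number i of g is the neighbour of the foot
    have hx : vx oo up g i = turn (!c0) up + turn (!c0) up := by
      have e : vx oo up g i = up - turn c0 up - turn c0 (turn c0 up) := by
        linear_combination (-1 : Pt) * heq
      rw [e]
      cases c0 <;> decide
    have hlev : lev g i = 2 := by
      unfold lev
      rw [hx]
      cases c0 <;> decide
    have hi4 : i ≠ g.length := by
      rintro rfl
      rw [hlev] at g4
      omega
    have hodd : ¬ Even i := by
      intro he
      have h6 := lev_mod g i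
      rw [if_pos he, hlev] at h6
      omega
    obtain ⟨a, rfl⟩ : ∃ a, i = a + 1 := ⟨i - 1, by omega⟩
    have hea : Even a := by
      by_contra hh
      exact hodd (Nat.even_add_one.2 hh)
    have ha0 : a ≠ 0 := by
      rintro rfl
      rw [zero_add, vx_one] at hx
      revert hx
      cases c0 <;> decide
    have s1 := lev_succ g a
    have s2 := lev_succ g (a + 1)
    have p1 := vx_succ oo up g a
    have p2 := vx_succ oo up g (a + 1)
    have b1 := (g1 a (by omega) (by omega)).1
    have b2 := (g1 (a + 2) (by omega) (by omega)).1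
    have c1 : dx up g a = -rotR up ∨ dx up g a = -rotL up := by
      rcases step_even upd g hea with ⟨h, hip⟩ | ⟨h, hip⟩ | ⟨h, hip⟩
      · exfalso
        rw [hip, hlev] at s1
        omega
      · left
        rw [h]
        decide
      · right
        rw [h]
        decide
    have c2 : dx up g (a + 1) = rotL up ∨ dx up g (a + 1) = rotR up := by
      rcases step_odd upd g hodd with ⟨h, hip⟩ | ⟨h, hip⟩ | ⟨h, hip⟩
      · exfalso
        rw [hip, hlev] at s2
        have : lev g (a + 2) = lev g (a + 1 + 1) := rfl
        omega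
      · exact Or.inl h
      · exact Or.inr h
    -- none of the neighbours is the vertex before the leaf
    have n0 : ∀ i', 1 ≤ i' → i' ≤ g.length → vx oo up g i' ≠ up + turn (!c0) up := by
      intro i' h1' h2' heq'
      have h7 := hv i' h1' h2'
      rw [heq', ← hv0] at h7
      exact ht.inj (l + 1) (l + 1 + i') (by omega) (by omega) h7.symm
    have n1 := n0 a (by omega) (by omega)
    have n2 := n0 (a + 2) (by omega) (by omega)
    have n3 := g2 a (a + 2) (by omega) (by omega)
    rw [hx] at p1 p2
    have e1 : vx oo up g a = turn (!c0) up + turn (!c0) up - dx up g a := by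
      linear_combination (-1 : Pt) * p1
    have e2 : vx oo up g (a + 2) = turn (!c0) up + turn (!c0) up + dx up g (a + 1) := p2
    rw [e1] at n1 n3
    rw [e2] at n2 n3
    rcases c1 with c1 | c1 <;> rcases c2 with c2 | c2 <;> rw [c1] at n1 n3 <;> rw [c2] at n2 n3 <;>
      revert n1 n2 n3 <;> cases c0 <;> decide
  · intro j h1 h2 k' hk' heq
    obtain ⟨i, hi1, hi2, hi3⟩ := hrv j h1 h2
    rw [hrv0 k' hk'] at heq
    rw [hi3, hend, Bool.not_not] at heq
    have hx : vx oo up g i = up + turn (!c0) up + vx oo up (rev (t.take l)) k' := by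
      have e : vx oo up g i = up - turn c0 (turn c0 up) + vx oo up (rev (t.take l)) k' := by
        linear_combination (-1 : Pt) * heq
      rw [e]
      congr 1
      cases c0 <;> decide
    have h7 := hv i hi1 hi2
    have h8 := start_vx (t := t) (u := u) (l := l) (by omega) hd (k := k') (by omega)
    rw [hx, sgP_add, ← add_assoc, ← hv0, ← h8] at h7
    exact ht.inj (l + 1 - k') (l + 1 + i) (by omega) (by omega) h7.symm

/-- **the start** -/
theorem start_repC {t : List Bool} {m u : ℕ} {e : ℕ → ℕ} {N0 : ℕ} (ht : t ∈ SA) (hm : 1 ≤ m) (h : FoldG t m u e)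
    (h0 : ∀ i, i < e 0 → Tight.sg u (lev t i) - Tight.sg u (lev t (e 0)) ≤ 3 * N0) (he : 1 ≤ e 0) :
    ∃ (c0 : Bool) (W0 : List Bool), t = rev W0 ++ (!c0) :: (!c0) :: t.drop (e 0) ∧ W0.length + 2 = e 0 ∧
      Fr t u (e 0 - 1) (c0 :: t.drop (e 0)) ∧ (∀ x, W0 ++ [x] ∈ NSt N0) ∧
      (∀ j, j ≤ W0.length + 1 → lev W0 j = Tight.sg u (lev t (W0.length + 1 - j)) -
        Tight.sg u (lev t (W0.length + 1))) ∧
      ∀ (g : List Bool) (k : ℕ), g ∈ Brd k → 1 ≤ k → e 0 - 1 + g.length ≤ t.length →
        (∀ i, i ≤ g.length → vx oo up g i = vx oo up (c0 :: t.drop (e 0)) i) → ∀ x, LFold (rev g) (W0 ++ [x]) := by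
  have hD := sgP_mem u
  have hx : ∀ i, xD (sgP u up) t i = Tight.sg u (lev t i) := fun i => xD_false u t i
  have hlt := h.lt 0 (by omega)
  rw [zero_add] at hlt
  have hle : ∀ j, 1 ≤ j → j ≤ m → e 1 ≤ e j := by
    intro j h1 h2
    induction j with
    | zero => omega
    | succ j ih =>
      rcases Nat.eq_zero_or_pos j with hj | hj
      · rw [hj]
      · exact (ih hj (by omega)).trans (h.lt j (by omega)).le
  have het : e 1 ≤ t.length := (hle m hm le_rfl).trans h.le
  have h01 : xD (sgP u up) t 1 = xD (sgP u up) t 0 + 2 ∨ xD (sgP u up) t 1 = xD (sgP u up) t 0 - 2 := by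
    rw [hx, hx, lev_zero, lev_one]
    unfold Tight.sg
    split_ifs
    · right
      norm_num
    · left
      norm_num
  obtain ⟨c0, l, hf, d2, d1, d0, l1, l0, hlv⟩ := start_steps hD h01 he
    (fun i hi => by rw [hx, hx]; exact h.beg i hi) (by rw [hx, hx]; exact h.lo0 _ (by omega) (by omega))
  have hbeg := h.beg
  rw [hx, hx] at hlv
  rw [hf] at h0 hbeg hlt ⊢
  have hl2 : l + 2 ≤ t.length := by omega
  have hal : (t.take l).length = l := by
    rw [List.length_take]
    omega
  have hwl : (rev (t.take l)).length = l := by rw [rev_length, hal]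
  have hlev : ∀ k, k ≤ l + 1 → lev (rev (t.take l)) k = Tight.sg u (lev t (l + 1 - k)) -
      Tight.sg u (lev t (l + 1)) := fun k hk => start_lev (by omega) d0 hk
  have hFr : ∀ i, 1 ≤ i → vx oo up t (l + 1 + i) = (vx oo up t (l + 2) - sgP u up) +
      sgP u (vx oo up (c0 :: t.drop (l + 2)) i) := by
    intro i hi
    obtain ⟨j, rfl⟩ : ∃ j, i = j + 1 := ⟨i - 1, by omega⟩
    have e1 : l + 1 + (j + 1) = l + 2 + j := by omega
    rw [e1, vx_drop, d2]
    have e2 := vx_drop (c0 :: t.drop (l + 2)) 1 j
    have e3 : (c0 :: t.drop (l + 2)).drop 1 = t.drop (l + 2) := rfl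
    have e4 : dx up (c0 :: t.drop (l + 2)) 1 = turn c0 up := rfl
    rw [e3, e4, vx_one] at e2
    rw [add_comm j 1, e2, ← (vx_frame u _ _ _ _ _).1, sgP_turn, sub_add_cancel]
  refine ⟨c0, rev (t.take l), ?_, by rw [hwl], ⟨?_, vx oo up t (l + 2) - sgP u up, ?_⟩, fun x => NSt_of ?_ ?_, ?_, ?_⟩
  · rw [rev_rev, ← l0]
    have e5 : (!c0) = tf t l := l0.symm
    conv_rhs => rw [l0, e5]
    have e6 := drop_two hl2
    rw [l0] at e6
    rw [l1] at e6
    calc t = t.take l ++ t.drop l := (List.take_append_drop l t).symm
      _ = _ := by rw [e6, ← l0]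
  · rw [List.length_cons, List.length_drop]
    omega
  · intro i hi1 hi2
    rw [show l + 2 - 1 = l + 1 from rfl]
    exact hFr i hi1
  · intro k k2
    rw [List.length_append, hwl, List.length_singleton] at k2
    rw [lev_snocC _ x (by rw [hwl]; exact k2), hlev k (by omega)]
    have h5 := hbeg (l + 1 - k) (by omega)
    have h6 := h0 (l + 1 - k) (by omega)
    omega
  · intro a b hab hb heq
    rw [List.length_append, hwl, List.length_singleton] at hb
    rw [vx_append (by rw [hwl]; omega), vx_append (by rw [hwl]; omega)] at heq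
    have e1 := start_vx (t := t) (u := u) (l := l) (by omega) d0 (k := a) (by omega)
    have e2 := start_vx (t := t) (u := u) (l := l) (by omega) d0 (k := b) (by omega)
    rw [heq, ← e2] at e1
    exact ht.inj (l + 1 - b) (l + 1 - a) (by omega) (by omega) e1.symm
  · intro j hj
    rw [hwl] at hj ⊢
    exact hlev j hj
  · intro g k hg hk hgl hv x
    rw [show l + 2 - 1 = l + 1 from rfl] at hgl
    obtain ⟨g1, g2, g3, g4⟩ := mem_Brd.1 hg
    have hlen1 : 2 ≤ g.length := by
      by_contra hcon
      have h5 : g.length = 0 ∨ g.length = 1 := by omega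
      rcases h5 with h5 | h5
      · rw [h5, lev_zero] at g4
        omega
      · rw [h5, lev_one] at g4
        omega
    have htf : tf g 0 = c0 := by
      have h6 := hv 2 hlen1
      have e1 : vx oo up g 2 = up + turn (tf g 0) up := by
        rw [show (2 : ℕ) = 1 + 1 from rfl, vx_succ, vx_one]
        rfl
      have e2 : vx oo up (c0 :: t.drop (l + 2)) 2 = up + turn c0 up := by
        rw [show (2 : ℕ) = 1 + 1 from rfl, vx_succ, vx_one]
        rfl
      rw [e1, e2] at h6
      have h7 := add_left_cancel h6
      revert h7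
      cases tf g 0 <;> cases c0 <;> decide
    refine start_hangC (by rw [List.length_append, hwl, List.length_singleton]) (fun k hk => vx_append (by
      rw [List.length_append, List.length_singleton] at hk
      exact hk)) ht hl2 d0 d1 hg hk hgl (fun i hi1 hi2 => ?_) htf
    rw [hv i hi2]
    exact hFr i hi1

/-- **the last leaf and the free end** -/
theorem end_qC {q : List Bool} {E N1 : ℕ} (hE : 1 ≤ E) (hEq : E ≤ q.length)
    (hinj : ∀ i k, 1 ≤ i → i < k → k ≤ q.length → vx oo up q i ≠ vx oo up q k)
    (h1 : ∀ j, 1 ≤ j → j ≤ E → 0 < lev q j ∧ lev q j ≤ lev q E) (h3 : 3 ≤ lev q E)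
    (hfin : ∀ i, E < i → i ≤ q.length → lev q i < lev q E ∧ lev q E - lev q i ≤ 3 * N1) :
    ∃ (g : List Bool) (M : ℕ) (o' : Option (List Bool)) (x : Bool) (y : Fin 3), 1 ≤ M ∧ g ∈ Brd M ∧
      g.length ≤ E ∧ E ≤ g.length + 1 ∧ (∀ i, i ≤ g.length → vx oo up g i = vx oo up q i) ∧
      q = endF x y o' g ∧ (∀ W ∈ o', EnG N1 g W ∧ W.length + 1 + (E + 1) = q.length ∧
        ∀ j, j ≤ W.length + 1 → lev W j = lev q (E + 1) - lev q (E + 1 + j)) ∧
      q.length ≤ g.length + (o'.getD []).length + 3 ∧ g.length + (o'.getD []).length ≤ q.length + 3 := by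
  have hinjE : ∀ i k, 1 ≤ i → i < k → k ≤ E → vx oo up q i ≠ vx oo up q k := fun i k i1 i2 i3 =>
    hinj i k i1 i2 (i3.trans hEq)
  obtain ⟨m, hm⟩ : ∃ m, E = m + 1 := ⟨E - 1, by omega⟩
  rcases Nat.eq_or_lt_of_le hEq with hEl | hEl
  · by_cases hev : Even E
    · -- even end
      obtain ⟨c, M, hM1, hM, hc, hB, hgl, hvg⟩ := leaf_even hE hEq hinjE h1 hev
      refine ⟨q.take (E - 1) ++ [!c], M, none, tf q m, 0, hM1, hB, by rw [hgl], by rw [hgl]; omega, ?_, ?_, ?_, ?_, ?_⟩
      · intro i hi
        rw [hgl] at hi
        exact hvg i hi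
      · rw [endF_zero, List.dropLast_concat, show E - 1 = m by omega]
        exact concat_last (by omega)
      · intro W hW
        exact absurd hW (by simp)
      · rw [hgl]
        show q.length ≤ E + 0 + 3
        omega
      · rw [hgl]
        show E + 0 ≤ q.length + 3
        omega
    · -- odd end
      have h4 : 4 ≤ lev q E := by
        have := lev_mod q E
        rw [if_neg hev] at this
        omega
      obtain ⟨M, hM1, hM, -, hB, hgl⟩ := leaf_odd hEq h4 hinjE h1 hev
      refine ⟨q.take (E - 1), M, none, tf q m, 1, hM1, hB, by rw [hgl]; omega, by rw [hgl]; omega, ?_, ?_, ?_, ?_, ?_⟩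
      · intro i hi
        rw [hgl] at hi
        exact take_vx' (by omega) (by omega)
      · rw [endF_one, show E - 1 = m by omega]
        exact concat_last (by omega)
      · intro W hW
        exact absurd hW (by simp)
      · rw [hgl]
        show q.length ≤ E - 1 + 0 + 3
        omega
      · rw [hgl]
        show E - 1 + 0 ≤ q.length + 3
        omega
  · -- a fold
    have hev : Even E := even_top hE h1 (hfin (E + 1) (by omega) (by omega)).1
    obtain ⟨c, M, hM1, hM, hc, hB, hgl, hvg⟩ := leaf_even hE hEq hinjE h1 hev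
    rw [hm] at hM
    rw [show E - 1 = m by omega] at hc hB hgl hvg
    have hf1 := (hfin (E + 1) (by omega) (by omega)).1
    rw [show E + 1 = m + 2 by omega, hm] at hf1
    obtain ⟨l1, l2, l3, l4⟩ := fold_letters hM hc hf1
    rcases Nat.eq_or_lt_of_le (show E + 1 ≤ q.length by omega) with hq1 | hq1
    · -- one vertex behind the fold
      refine ⟨q.take m ++ [!c], M, none, tf q (m + 1), 2, hM1, hB, by rw [hgl], by rw [hgl]; omega, ?_, ?_, ?_, ?_, ?_⟩
      · intro i hi
        rw [hgl] at hi
        exact hvg i hi
      · rw [endF_two, List.dropLast_concat, lst_concat, Bool.not_not]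
        conv_lhs => rw [← List.take_append_drop m q]
        rw [drop_cons (show m < q.length by omega), drop_cons (show m + 1 < q.length by omega), l1,
          List.drop_eq_nil_of_le (show q.length ≤ m + 1 + 1 by omega)]
      · intro W hW
        exact absurd hW (by simp)
      · rw [hgl]
        show q.length ≤ E + 0 + 3
        omega
      · rw [hgl]
        show E + 0 ≤ q.length + 3
        omega
    · -- a free end
      have hf2 := (hfin (E + 2) (by omega) (by omega)).1
      rw [show E + 2 = m + 3 by omega, hm] at hf2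
      obtain ⟨l5, l6⟩ := l4 hf2
      obtain ⟨r, hr⟩ : ∃ r, r = q.drop (m + 2) := ⟨_, rfl⟩
      have hrl : r.length + (m + 2) = q.length := by
        rw [hr, List.length_drop]
        omega
      have hrne : r ≠ [] := by
        intro h
        rw [h] at hrl
        simp at hrl
        omega
      obtain ⟨W, hW⟩ : ∃ W, W = r.dropLast := ⟨_, rfl⟩
      have hWl : W.length + 1 = r.length := by
        rw [hW, List.length_dropLast]
        have : 1 ≤ r.length := List.length_pos_iff.2 hrne
        omega
      have hrW : r = W ++ [lst r] := by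
        have h5 : lst r = r.getLast hrne := by
          unfold lst
          rw [List.getLastD_eq_getLast?, List.getLast?_eq_some_getLast hrne]
          rfl
        rw [h5, hW]
        exact (List.dropLast_append_getLast hrne).symm
      -- vertices of W
      have hvW : ∀ j, j ≤ W.length + 1 → vx oo up W j = vx oo up q (m + 2) - vx oo up q (m + 2 + j) := by
        intro j hj
        have e1 : vx oo up r j = vx oo up q (m + 2) - vx oo up q (m + 2 + j) := by
          rw [hr]
          exact vx_down l6 j
        rw [← e1, hrW]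
        exact (vx_append hj).symm
      have hlW : ∀ j, j ≤ W.length + 1 → lev W j = 3 * M - 1 - lev q (m + 2 + j) := by
        intro j hj
        have e1 : lev W j = lev q (m + 2) - lev q (m + 2 + j) := by
          have e2 := congrArg (fun p => ip p up) (hvW j hj)
          have e3 : ip (vx oo up q (m + 2) - vx oo up q (m + 2 + j)) up =
              ip (vx oo up q (m + 2)) up - ip (vx oo up q (m + 2 + j)) up := by
            simp only [ip, Prod.fst_sub, Prod.snd_sub]
            ring
          simp only [e3] at e2
          exact e2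
        rw [e1, l3]
      have hnn : ∀ j, j ≤ W.length + 1 → 0 ≤ lev W j := by
        intro j hj
        rw [hlW j hj]
        rcases Nat.eq_zero_or_pos j with h0 | h0
        · rw [h0, add_zero, l3]
          simp
        · have := (hfin (m + 2 + j) (by omega) (by omega)).1
          rw [hm, hM] at this
          omega
      have hupp : ∀ j, j ≤ W.length + 1 → lev W j ≤ 3 * N1 := by
        intro j hj
        rw [hlW j (by omega)]
        have := (hfin (m + 2 + j) (by omega) (by omega)).2
        rw [hm, hM] at this
        omega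
      refine ⟨q.take m ++ [!c], M, some W, lst r, 0, hM1, hB, by rw [hgl], by rw [hgl]; omega, ?_, ?_, ?_, ?_, ?_⟩
      · intro i hi
        rw [hgl] at hi
        exact hvg i hi
      · show q = (q.take m ++ [!c]).dropLast ++ (!lst (q.take m ++ [!c])) :: (!lst (q.take m ++ [!c])) :: (W ++ [lst r])
        rw [List.dropLast_concat, lst_concat, Bool.not_not, ← hrW]
        conv_lhs => rw [← List.take_append_drop m q]
        rw [drop_cons (show m < q.length by omega), drop_cons (show m + 1 < q.length by omega), l1, l5, hr]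
      · intro W' hW'
        have e1 : W' = W := by
          have := Option.mem_def.1 hW'
          exact (Option.some.inj this).symm
        rw [e1]
        refine ⟨fun x => ⟨NSt_of ?_ ?_, ?_⟩, by omega, fun j hj => ?_⟩
        · intro i i2
          rw [List.length_append, List.length_singleton] at i2
          rw [lev_snocC W x i2]
          exact ⟨hnn i i2, hupp i i2⟩
        · intro i k hik hk heq
          rw [List.length_append, List.length_singleton] at hk
          rw [vx_append (by omega), vx_append (by omega), hvW i (by omega), hvW k (by omega)] at heq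
          refine hinj (m + 2 + i) (m + 2 + k) (by omega) (by omega) (by omega) ?_
          exact sub_right_injective heq
        · show Hang (q.take m ++ [!c]) (lst (q.take m ++ [!c])) (W ++ [x])
          rw [lst_concat]
          refine hang_fold' (M := M) ?_ hinj (by omega) hM hc l2 ?_
          · intro k k1 k2
            rw [← hM, ← hm]
            exact (h1 k k1 (by omega)).2
          · intro k hk
            rw [List.length_append, List.length_singleton] at hk
            exact ⟨by omega, by rw [vx_append (by omega)]; exact hvW k (by omega)⟩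
        · rw [hlW j hj, show E + 1 = m + 2 by omega, l3]
      · rw [hgl]
        show q.length ≤ E + W.length + 3
        omega
      · rw [hgl]
        show E + W.length ≤ q.length + 3
        omega

variable {t : List Bool} {m u : ℕ} {e : ℕ → ℕ} {N1 : ℕ}

/-- the chain of the leaves from the leaf number l on -/
theorem tail_repC (ht : t ∈ SA) (h : FoldG t m u e)
    (h1 : ∀ i, e m < i → i ≤ t.length → Tight.sg (u + (m - 1)) (lev t (e m)) - Tight.sg (u + (m - 1)) (lev t i) ≤ 3 * N1) :
    ∀ (d l s : ℕ) (q : List Bool), l + d + 1 = m → Stt t u e l s q →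
    ∃ (g : List Bool) (gs : List (List Bool)) (o' : Option (List Bool)) (x : Bool) (y : Fin 3),
      gs.length = d ∧ (g :: gs).IsChain LFold ∧ (∀ w ∈ g :: gs, ∃ k : ℕ, 1 ≤ k ∧ w ∈ Brd k) ∧
      (∀ (i : ℕ) (hi : i < (g :: gs).length), PosL t u e (l + i) (g :: gs)[i]) ∧
      (∀ (i : ℕ) (hi : i < (g :: gs).length), 1 ≤ l + i → l + i + 2 ≤ m → (g :: gs)[i] = lw t (e (l + i)) (e (l + i + 1))) ∧
      (∀ W ∈ o', EnG N1 ((g :: gs).getLastD []) W ∧ W.length + 1 + (e m + 1) = t.length ∧
        ∀ j, j ≤ W.length + 1 → lev W j = Tight.sg (u + (m - 1)) (lev t (e m + 1)) -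
          Tight.sg (u + (m - 1)) (lev t (e m + 1 + j))) ∧ q = endF x y o' (unf (g :: gs)) ∧
      q.length ≤ (unf (g :: gs)).length + (o'.getD []).length + 3 ∧
      (unf (g :: gs)).length + (o'.getD []).length ≤ q.length + 3 ∧
      s + g.length ≤ t.length ∧ (∀ i, i ≤ g.length → vx oo up g i = vx oo up q i) := by
  intro d
  induction d with
  | zero =>
    intro l s q hd S
    have hm : m = l + 1 := by omega
    subst hm
    have hle := e_le h (j := l + 1) le_rfl
    have hql := S.fr.1
    have hs3 := S.s3
    obtain ⟨E, hE⟩ : ∃ E, E = e (l + 1) - s := ⟨_, rfl⟩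
    have hsE : s + E = e (l + 1) := by omega
    have hpos := S.pos
    have h3 := S.h3
    rw [← hE] at hpos h3
    have hfin : ∀ i, E < i → i ≤ q.length → lev q i < lev q E ∧ lev q E - lev q i ≤ 3 * N1 := by
      intro i i1 i2
      have e1 := S.fr.lev (i := i) (by omega) i2
      have e2 := S.fr.lev (i := E) (by omega) (by omega)
      rw [hsE] at e2
      have e3 := h.fin (s + i) (by omega) (by omega)
      have e4 := h1 (s + i) (by omega) (by omega)
      rw [show u + (l + 1 - 1) = u + l by omega] at e3 e4
      constructor <;> omega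
    obtain ⟨g, M, o', x, y, k1, k2, k4, k5, k6, k7, k8, k10, k11⟩ :=
      end_qC (q := q) (E := E) (N1 := N1) (by omega) (by omega) (S.fr.inj ht) hpos h3 hfin
    refine ⟨g, [], o', x, y, rfl, List.isChain_singleton _, ?_, ?_, ?_, ?_, k7, k10, k11, by omega, k6⟩
    · intro w hw
      rw [List.mem_singleton] at hw
      rw [hw]
      exact ⟨M, k1, k2⟩
    · intro i hi
      have hi0 : i = 0 := by
        simp only [List.length_cons, List.length_nil] at hi
        omega
      subst hi0
      show PosL t u e l g
      exact S.posL k6 (by omega) (by omega) hle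
    · intro i hi a b
      exfalso
      omega
    · intro W hW
      obtain ⟨c1, c2, c3⟩ := k8 W hW
      refine ⟨c1, by omega, fun j hj => ?_⟩
      rw [c3 j hj]
      have e1 := S.fr.lev (i := E + 1) (by omega) (by omega)
      have e2 := S.fr.lev (i := E + 1 + j) (by omega) (by omega)
      rw [show s + (E + 1) = e (l + 1) + 1 by omega] at e1
      rw [show s + (E + 1 + j) = e (l + 1) + 1 + j by omega] at e2
      rw [e1, e2, show u + (l + 1 - 1) = u + l by omega]
      ring
  | succ d ih =>
    intro l s q hd S
    have hle := e_le h (j := l + 1) (by omega)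
    have hql := S.fr.1
    obtain ⟨g, M, a1, a2, a3, a4, a5, a6, a7, a8⟩ := S.next ht h (by omega)
    obtain ⟨g', gs', o', x, y, b1, b2, b3, b4, b5, b6, b7, b8, b9, b10, b11⟩ :=
      ih (l + 1) (e (l + 1) + 1) (t.drop (e (l + 1) + 1)) (by omega) a7
    have hne : unf (g' :: gs') ≠ [] := by
      apply unf_ne_nil _ (by simp)
      intro w hw hw0
      obtain ⟨k, k1, k2⟩ := b3 w hw
      have := Brd_two k2 k1
      rw [hw0] at this
      simp at this
    have hg2 := Brd_two a2 a1
    have hdl : (t.drop (e (l + 1) + 1)).length = t.length - (e (l + 1) + 1) := List.length_drop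
    have hul : (unf (g :: g' :: gs')).length = g.length + 1 + (unf (g' :: gs')).length := by
      show (g.dropLast ++ (!lst g) :: (!lst g) :: unf (g' :: gs')).length = _
      rw [List.length_append, List.length_dropLast, List.length_cons, List.length_cons]
      omega
    have hle2 := e_le h (j := l + 2) (by omega)
    have ha3 := a7.s3
    refine ⟨g, g' :: gs', o', x, y, by rw [List.length_cons, b1], ?_, ?_, ?_, ?_, ?_, ?_, ?_, ?_, by omega, a4⟩
    · rw [List.isChain_cons_cons]
      exact ⟨a8 g' (fun k hk => ⟨by omega, b11 k hk⟩), b2⟩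
    · intro w hw
      rcases List.mem_cons.1 hw with hw | hw
      · rw [hw]
        exact ⟨M, a1, a2⟩
      · exact b3 w hw
    · intro i hi
      rcases Nat.eq_zero_or_pos i with hi0 | hi0
      · subst hi0
        show PosL t u e l g
        exact S.posL a4 (by omega) (by omega) hle
      · obtain ⟨i', rfl⟩ : ∃ i', i = i' + 1 := ⟨i - 1, by omega⟩
        have hi' : i' < (g' :: gs').length := by
          rw [List.length_cons] at hi
          omega
        have := b4 i' hi'
        rw [show l + 1 + i' = l + (i' + 1) by omega] at this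
        exact this
    · intro i hi c1 c2
      rcases Nat.eq_zero_or_pos i with hi0 | hi0
      · subst hi0
        exact a5 c1
      · obtain ⟨i', rfl⟩ : ∃ i', i = i' + 1 := ⟨i - 1, by omega⟩
        have hi' : i' < (g' :: gs').length := by
          rw [List.length_cons] at hi
          omega
        have := b5 i' hi' (by omega) (by omega)
        rw [show l + 1 + i' = l + (i' + 1) by omega] at this
        exact this
    · intro W hW
      exact b6 W hW
    · show q = endF x y o' (g.dropLast ++ (!lst g) :: (!lst g) :: unf (g' :: gs'))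
      have e1 : g.dropLast ++ (!lst g) :: (!lst g) :: unf (g' :: gs') =
          (g.dropLast ++ [!lst g, !lst g]) ++ unf (g' :: gs') := by simp
      rw [e1, endF_append x y o' _ hne, ← b7]
      rw [a6]
      simp
    · rw [hul]
      omega
    · rw [hul]
      omega

/-- the representation with the explicit word -/
theorem rep_asmC (t : List Bool) (m u : ℕ) (e : ℕ → ℕ) (N0 N1 : ℕ) (ht : t ∈ SA) (hm : 1 ≤ m)
    (h : FoldG t m u e)
    (h0 : ∀ i, i < e 0 → Tight.sg u (lev t i) - Tight.sg u (lev t (e 0)) ≤ 3 * N0)
    (h1 : ∀ i, e m < i → i ≤ t.length →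
      Tight.sg (u + (m - 1)) (lev t (e m)) - Tight.sg (u + (m - 1)) (lev t i) ≤ 3 * N1) :
    ∃ (c : Fin 16) (o o' : Option (List Bool)) (gs : List (List Bool)), RepG t m u e gs ∧
      (∀ W ∈ o, EnG N0 (rev (gs.headD [])) W ∧ W.length + 2 = e 0 ∧
        ∀ j, j ≤ W.length + 1 → lev W j = Tight.sg u (lev t (W.length + 1 - j)) - Tight.sg u (lev t (W.length + 1))) ∧
      (∀ W ∈ o', EnG N1 (gs.getLastD []) W ∧ W.length + 1 + (e m + 1) = t.length ∧
        ∀ j, j ≤ W.length + 1 → lev W j = Tight.sg (u + (m - 1)) (lev t (e m + 1)) -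
          Tight.sg (u + (m - 1)) (lev t (e m + 1 + j))) ∧
      t = asmF c o gs o' ∧ (o.getD []).length + (unf gs).length + (o'.getD []).length ≤ t.length + 10 ∧
      t.length ≤ (o.getD []).length + (unf gs).length + (o'.getD []).length + 10 := by
  have h01 : e (0 + 1) = e 1 := rfl
  have hlt := h.lt 0 hm
  have hle1 := e_le h (j := 0 + 1) (by omega)
  -- the common end of the two cases
  have key : ∀ (s : ℕ) (q : List Bool) (o : Option (List Bool)), Stt t u e 0 s q →
      (∀ W ∈ o, ∀ x, W ++ [x] ∈ NSt N0) →
      (∀ W ∈ o, ∀ (g : List Bool) (k : ℕ), g ∈ Brd k → 1 ≤ k → s + g.length ≤ t.length →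
        (∀ i, i ≤ g.length → vx oo up g i = vx oo up q i) → ∀ x, LFold (rev g) (W ++ [x])) →
      (o = none → t = q) → (∀ W ∈ o, t = rev W ++ (!q.headD true) :: (!q.headD true) :: q.tail) →
      (∀ W ∈ o, W.length + 2 = e 0 ∧ ∀ j, j ≤ W.length + 1 → lev W j = Tight.sg u (lev t (W.length + 1 - j)) -
        Tight.sg u (lev t (W.length + 1))) →
      (o.getD []).length + q.length ≤ t.length + 3 → t.length ≤ (o.getD []).length + q.length + 3 →
      ∃ (c : Fin 16) (o o' : Option (List Bool)) (gs : List (List Bool)), RepG t m u e gs ∧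
        (∀ W ∈ o, EnG N0 (rev (gs.headD [])) W ∧ W.length + 2 = e 0 ∧
          ∀ j, j ≤ W.length + 1 → lev W j = Tight.sg u (lev t (W.length + 1 - j)) - Tight.sg u (lev t (W.length + 1))) ∧
        (∀ W ∈ o', EnG N1 (gs.getLastD []) W ∧ W.length + 1 + (e m + 1) = t.length ∧
          ∀ j, j ≤ W.length + 1 → lev W j = Tight.sg (u + (m - 1)) (lev t (e m + 1)) -
            Tight.sg (u + (m - 1)) (lev t (e m + 1 + j))) ∧
        t = asmF c o gs o' ∧ (o.getD []).length + (unf gs).length + (o'.getD []).length ≤ t.length + 10 ∧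
        t.length ≤ (o.getD []).length + (unf gs).length + (o'.getD []).length + 10 := by
    intro s q o S k1 k2 k3 k4 k5 k6 k7
    obtain ⟨g, gs, o', x, y, b1, b2, b3, b4, b5, b6, b7, b8, b9, b10, b11⟩ :=
      tail_repC ht h h1 (m - 1) 0 s q (by omega) S
    have hql := S.fr.1
    have r1 : (g :: gs).length = m := by
      rw [List.length_cons]
      omega
    have r2 : (o.getD []).length + (unf (g :: gs)).length + (o'.getD []).length ≤ t.length + 10 := by
      omega
    have r3 : t.length ≤ (o.getD []).length + (unf (g :: gs)).length + (o'.getD []).length + 10 := by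
      omega
    obtain ⟨c, hc1, hc2⟩ := code x y
    refine ⟨c, o, o', g :: gs, ⟨r1, b2, b3, ?_, ?_⟩, ?_, b6, ?_, r2, r3⟩
    · intro l hl
      have := b4 l hl
      rwa [Nat.zero_add] at this
    · intro l hl c1 c2
      have := b5 l hl (by omega) (by omega)
      rwa [Nat.zero_add] at this
    · intro W hW
      obtain ⟨k, a1, a2⟩ := b3 g (by simp)
      exact ⟨fun x => ⟨k1 W hW x, k2 W hW g k a2 a1 b10 b11 x⟩, k5 W hW⟩
    · cases o with
      | none =>
        show t = endF _ _ o' (unf (g :: gs))
        rw [hc1, hc2, ← b7]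
        exact k3 rfl
      | some W =>
        show t = rev W ++ (!(endF _ _ o' (unf (g :: gs))).headD true) :: (!(endF _ _ o' (unf (g :: gs))).headD true) ::
          (endF _ _ o' (unf (g :: gs))).tail
        rw [hc1, hc2, ← b7]
        exact k4 W rfl
  rcases Nat.eq_zero_or_pos (e 0) with he | he
  · have S := stt_zero h hm he
    exact key 0 t none S (by simp) (by simp) (fun _ => rfl) (by simp) (by simp) (by simp) (by simp)
  · obtain ⟨c0, W0, a1, a2, a3, a4, a5, a6⟩ := start_repC ht hm h h0 he
    have S := stt_pos h hm he a3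
    refine key (e 0 - 1) (c0 :: t.drop (e 0)) (some W0) S ?_ ?_ (fun hh => by simp at hh) ?_ ?_ ?_ ?_
    · intro W hW
      rw [Option.mem_some_iff] at hW
      rw [← hW]
      exact a4
    · intro W hW g k g1 g2 g3 g4
      rw [Option.mem_some_iff] at hW
      rw [← hW]
      exact a6 g k g1 g2 g3 g4
    · intro W hW
      rw [Option.mem_some_iff] at hW
      rw [← hW]
      exact a1
    · intro W hW
      rw [Option.mem_some_iff] at hW
      rw [← hW]
      exact ⟨a2, a5⟩
    · have := a3.1
      show W0.length + _ ≤ _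
      omega
    · have := a3.1
      show _ ≤ W0.length + _ + 3
      omega

end POL

end HexObs
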