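import Pool.Agent.POL.PubW

/-!
DRAFT of the hand-in PolygonCount (helper32): the definitions of PolygonSizes (public, self-contained) and the theorem from
the statement of `final_of`.

The self-avoiding polygons of the hexagonal lattice at every length, up to constants: for every odd `n ≥ 9` the number of the
polygons with `n + 1` sites (with a starting site and a direction) is between `c n ^ (- 3 / 2) μ ^ n` and `C n ^ (- 3 / 2) μ ^ n`,
`μ = √(2 + √2)`; their mean squared radius of gyration is between `c n ^ (3 / 2)` and `C n ^ (3 / 2)`; and the probability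
that the uniformly random `n`-step self-avoiding walk ends at a neighbour of its first site is between `c n ^ (- 59 / 32)` and
`C n ^ (- 59 / 32)`.
-/

set_option autoImplicit false
open scoped Classical

namespace HexObs.POLP.Draft

/-- The step number `i` (starting with `0`) in the direction `a`: the edges of the hexagonal lattice with unit steps. -/
noncomputable def step (i : ℕ) (a : Fin 3) : ℂ :=
  (-1 : ℂ) ^ i * Complex.exp (2 * (Real.pi : ℂ) * Complex.I * ((a : ℕ) : ℂ) / 3)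

/-- The position `w_k` after `k` steps of the walk with the directions `s`. -/
noncomputable def pos {n : ℕ} (s : Fin n → Fin 3) (k : ℕ) : ℂ :=
  ∑ i ∈ Finset.univ.filter (fun i : Fin n => (i : ℕ) < k), step (i : ℕ) (s i)

/-- The self-avoiding walks with `n` steps. -/
noncomputable def saw (n : ℕ) : Finset (Fin n → Fin 3) :=
  Finset.univ.filter (fun s => ∀ j k : ℕ, j ≤ n → k ≤ n → pos s j = pos s k → j = k)

/-- The self-avoiding walks with `n` steps that end at a neighbour of their first site: for `n ≥ 2` they are the polygons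
with the sites `w_0, ..., w_n` (with a starting site and a direction). -/
noncomputable def pol (n : ℕ) : Finset (Fin n → Fin 3) := (saw n).filter (fun s => ‖pos s n‖ = 1)

/-- The mean over the polygons with `n + 1` sites. -/
noncomputable def mean (n : ℕ) (R : (Fin n → Fin 3) → ℝ) : ℝ := (∑ s ∈ pol n, R s) / ((pol n).card : ℝ)

/-- The squared radius of gyration. -/
noncomputable def Rg {n : ℕ} (s : Fin n → Fin 3) : ℝ :=
  1 / (2 * ((n : ℝ) + 1) ^ 2) * ∑ i ∈ Finset.range (n + 1), ∑ j ∈ Finset.range (n + 1), ‖pos s i - pos s j‖ ^ 2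

theorem saw_eq (n : ℕ) : saw n = _root_.MS.SW step n := by
  ext s
  rw [_root_.MS.mem_SW]
  unfold saw
  rw [Finset.mem_filter]
  exact ⟨fun h => h.2, fun h => ⟨Finset.mem_univ _, h⟩⟩

theorem pol_eq (n : ℕ) : pol n = _root_.PGX.Pol step n := by
  ext s
  unfold pol _root_.PGX.Pol
  rw [Finset.mem_filter, Finset.mem_filter, saw_eq]
  exact Iff.rfl

theorem rg_eq {n : ℕ} (s : Fin n → Fin 3) : Rg s = HexObs.POLP.RgP step s := rfl

theorem result_of
    (h : ∃ c' C' : ℝ, 0 < c' ∧ ∀ f : ℕ → Fin 3 → ℂ, MS.Hex f → ∀ n : ℕ, 9 ≤ n → ¬ Even n →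
      (c' * (n : ℝ) ^ (-(3 / 2) : ℝ) * HexObs.POLP.mu ^ n ≤ ((PGX.Pol f n).card : ℝ) ∧
        ((PGX.Pol f n).card : ℝ) ≤ C' * (n : ℝ) ^ (-(3 / 2) : ℝ) * HexObs.POLP.mu ^ n) ∧
      (c' * (n : ℝ) ^ (3 / 2 : ℝ) ≤ (∑ s ∈ PGX.Pol f n, HexObs.POLP.RgP f s) / ((PGX.Pol f n).card : ℝ) ∧
        (∑ s ∈ PGX.Pol f n, HexObs.POLP.RgP f s) / ((PGX.Pol f n).card : ℝ) ≤ C' * (n : ℝ) ^ (3 / 2 : ℝ)) ∧
      (c' * (n : ℝ) ^ (-(59 / 32) : ℝ) ≤ ((PGX.Pol f n).card : ℝ) / ((MS.SW f n).card : ℝ) ∧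
        ((PGX.Pol f n).card : ℝ) / ((MS.SW f n).card : ℝ) ≤ C' * (n : ℝ) ^ (-(59 / 32) : ℝ))) :
    ∃ c C : ℝ, 0 < c ∧ ∀ n : ℕ, 9 ≤ n → ¬ Even n →
      (c * (n : ℝ) ^ (-(3 / 2) : ℝ) * Real.sqrt (2 + Real.sqrt 2) ^ n ≤ ((pol n).card : ℝ) ∧
        ((pol n).card : ℝ) ≤ C * (n : ℝ) ^ (-(3 / 2) : ℝ) * Real.sqrt (2 + Real.sqrt 2) ^ n) ∧
      (c * (n : ℝ) ^ (3 / 2 : ℝ) ≤ mean n Rg ∧ mean n Rg ≤ C * (n : ℝ) ^ (3 / 2 : ℝ)) ∧
      (c * (n : ℝ) ^ (-(59 / 32) : ℝ) ≤ ((pol n).card : ℝ) / ((saw n).card : ℝ) ∧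
        ((pol n).card : ℝ) / ((saw n).card : ℝ) ≤ C * (n : ℝ) ^ (-(59 / 32) : ℝ)) := by
  obtain ⟨c, C, hc, h1⟩ := h
  refine ⟨c, C, hc, fun n hn ho => ?_⟩
  have h2 := h1 step (fun i a => rfl) n hn ho
  have e : mean n Rg = (∑ s ∈ PGX.Pol step n, HexObs.POLP.RgP step s) / ((PGX.Pol step n).card : ℝ) := by
    unfold mean
    rw [pol_eq, funext rg_eq]
  rw [e, saw_eq, pol_eq]
  exact h2

end HexObs.POLP.Draft
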