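import Pool.Agent.POL.Bot
import Pool.Agent.POL.MrOf

/-!
POL, L4: rotations of a closed word and its parts with periodic positions (helper59).
-/

set_option autoImplicit false

namespace HexObs

namespace POL

open Finset TS

lemma ext_tf {a b : List Bool} (h : a.length = b.length) (h2 : ∀ i, i < a.length → tf a i = tf b i) : a = b := by
  refine List.ext_getElem h fun i h3 h4 => ?_
  have h5 := h2 i h3
  unfold tf at h5
  rwa [List.getD_eq_getElem _ _ h3, List.getD_eq_getElem _ _ h4] at h5

lemma tf_app_l {a b : List Bool} {i : ℕ} (h : i < a.length) : tf (a ++ b) i = tf a i := by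
  unfold tf
  rw [List.getD_eq_getElem _ _ (by rw [List.length_append]; omega), List.getD_eq_getElem _ _ h, List.getElem_append_left h]

lemma tf_app_r {a b : List Bool} (i : ℕ) : tf (a ++ b) (a.length + i) = tf b i := by
  unfold tf
  rw [List.getD_append_right _ _ _ _ (by omega), Nat.add_sub_cancel_left]

variable {s : List Bool} {N : ℕ}

/-- position of a natural number -/
lemma rp_nat (i : ℕ) : rp N (i : ℤ) = i % N := by
  unfold rp
  rw [← Int.natCast_mod]
  rfl

/-- many periods -/
lemma rp_mul (x q : ℤ) : rp N (x + q * N) = rp N x := by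
  unfold rp
  rw [Int.add_mul_emod_self_right]

lemma rp_congr {x y : ℤ} (h : (N : ℤ) ∣ x - y) : rp N x = rp N y := by
  obtain ⟨q, hq⟩ := h
  rw [show x = y + q * N by linarith, rp_mul]

lemma rp_dvd (hN : 0 < N) {x y : ℤ} (h : rp N x = rp N y) : (N : ℤ) ∣ x - y := by
  have h1 := rp_cast hN x
  have h2 := rp_cast hN y
  rw [h] at h1
  exact Int.ModEq.dvd (show y % (N : ℤ) = x % (N : ℤ) by rw [← h1, ← h2])

lemma Hd_mul (x q : ℤ) : Hd s N (x + q * N) = Hd s N x := by
  unfold Hd
  rw [rp_mul]

lemma Fl_mul (x q : ℤ) : Fl s N (x + q * N) = Fl s N x := by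
  unfold Fl
  rw [rp_mul]

lemma tf_dbl (hs : s.length = N) {i : ℕ} (hi : i < 2 * N) : tf (s ++ s) i = tf s (i % N) := by
  rcases lt_or_ge i N with h | h
  · rw [Nat.mod_eq_of_lt h, tf_app_l (by omega)]
  · obtain ⟨k, rfl⟩ : ∃ k, i = s.length + k := ⟨i - N, by omega⟩
    rw [tf_app_r, hs, Nat.add_mod_left, Nat.mod_eq_of_lt (by omega)]

/-- the letters of the part -/
lemma tf_sb (hs : s.length = N) (hN : 0 < N) (x : ℤ) {l i : ℕ} (hl : l ≤ N) (hi : i < l) :
    tf (sb s N x l) i = tf s (rp N (x + i)) := by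
  have h1 := rp_lt hN x
  have h2 : tf (sb s N x l) i = tf (s ++ s) (rp N x + i) := by
    unfold sb tf
    rw [List.getD_eq_getElem?_getD, List.getD_eq_getElem?_getD, List.getElem?_take, if_pos hi, List.getElem?_drop]
  rw [h2, tf_dbl hs (by omega), rp_shift hN x i, rp_nat]

lemma sb_len' (hs : s.length = N) (hN : 0 < N) (x : ℤ) {l : ℕ} (hl : l ≤ N) : (sb s N x l).length = l := by
  unfold sb
  have h1 := rp_lt hN x
  rw [List.length_take, List.length_drop, List.length_append, hs]
  omega

/-- many periods -/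
lemma sb_mul (x q : ℤ) (l : ℕ) : sb s N (x + q * N) l = sb s N x l := by
  unfold sb
  rw [rp_mul]

lemma sb_congr {x y : ℤ} (h : (N : ℤ) ∣ x - y) (l : ℕ) : sb s N x l = sb s N y l := by
  unfold sb
  rw [rp_congr h]

/-- two parts together -/
lemma sb_add (hs : s.length = N) (hN : 0 < N) (x : ℤ) {l m : ℕ} (hl : l + m ≤ N) :
    sb s N x (l + m) = sb s N x l ++ sb s N (x + l) m := by
  have e1 := sb_len' hs hN x hl
  have e2 := sb_len' hs hN x (show l ≤ N by omega)
  have e3 := sb_len' hs hN (x + l) (show m ≤ N by omega)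
  refine ext_tf (by rw [e1, List.length_append, e2, e3]) fun i hi => ?_
  rw [e1] at hi
  rw [tf_sb hs hN x hl hi]
  rcases lt_or_ge i l with h | h
  · rw [tf_app_l (by omega), tf_sb hs hN x (by omega) h]
  · obtain ⟨k, hk⟩ : ∃ k, i = (sb s N x l).length + k := ⟨i - l, by omega⟩
    rw [hk, tf_app_r, tf_sb hs hN (x + l) (by omega) (by omega), e2]
    congr 2
    push_cast
    ring

/-- the parts of a rotation -/
lemma sb_rot (hs : s.length = N) (hN : 0 < N) (a : ℕ) (x : ℤ) {l : ℕ} (hl : l ≤ N) :
    sb (s.rotate a) N x l = sb s N (a + x) l := by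
  have hs' : (s.rotate a).length = N := by rw [List.length_rotate, hs]
  have e1 := sb_len' hs' hN x hl
  have e2 := sb_len' hs hN (a + x) hl
  refine ext_tf (by rw [e1, e2]) fun i hi => ?_
  rw [e1] at hi
  have h1 := rp_lt hN (x + i)
  rw [tf_sb hs' hN x hl hi, tf_sb hs hN (a + x) hl hi, tf_rotate (by omega)]
  unfold pt
  rw [hs]
  congr 1
  have h2 : rp N (a + x + i) = rp N ((a + rp N (x + i) : ℕ) : ℤ) := by
    refine rp_congr ?_
    push_cast
    rw [rp_cast hN]
    have h3 := Int.mul_ediv_add_emod (x + i) (N : ℤ)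
    exact ⟨(x + i) / (N : ℤ), by linarith⟩
  rw [h2, rp_nat]

/-- a part in the middle -/
lemma sb_mid {A B C : List Bool} (hs : s.length = N) (hN : 0 < N) (e : s = A ++ (B ++ C)) {x : ℤ} (hx : x = A.length) :
    sb s N x B.length = B := by
  have h0 : A.length + (B.length + C.length) = N := by
    rw [← hs, e, List.length_append, List.length_append]
  refine ext_tf (sb_len' hs hN x (by omega)) fun i hi => ?_
  rw [sb_len' hs hN x (by omega)] at hi
  rw [tf_sb hs hN x (by omega) hi, show rp N (x + i) = A.length + i from rp_of (by omega) (by rw [hx]; push_cast; rfl), e,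
    tf_app_r, tf_app_l hi]

/-- the whole word -/
lemma sb_all (hs : s.length = N) (hN : 0 < N) : sb s N 0 N = s := by
  have h := sb_mid (A := []) (B := s) (C := []) hs hN (by simp) (x := 0) (by simp)
  rwa [hs] at h

/-- vertices of a rotation with the direction up at the new root -/
lemma rot_Vx (hs : s ∈ Cy N) (hN : 0 < N) {a : ℕ} (ha : pd s a = up) (x : ℤ) :
    Fl (s.rotate a) N x = Fl s N (a + x) - Fl s N a ∧ Hd (s.rotate a) N x = Hd s N (a + x) := by
  have hc := Cy.clo hs
  have hlen := hs.1
  have h1 := rp_lt hN x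
  have h2 : rp N (a + x) = (a + rp N x) % N := by
    rw [← rp_nat]
    refine rp_congr ?_
    push_cast
    rw [rp_cast hN]
    have h3 := Int.mul_ediv_add_emod x (N : ℤ)
    exact ⟨x / (N : ℤ), by linarith⟩
  have hpv : ∀ i : ℕ, pv s i = vx oo up s (i % N) := by
    intro i
    rw [pv_mod hc i, hlen, pv_eq (by have := Nat.mod_lt i hN; omega)]
  have hpd : ∀ i : ℕ, pd s i = dx up s (i % N) := by
    intro i
    have h3 : ∀ q j : ℕ, pd s (s.length * q + j) = pd s j := by
      intro q j
      induction q with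
      | zero => rw [Nat.mul_zero, Nat.zero_add]
      | succ q ih => rw [show s.length * (q + 1) + j = s.length + (s.length * q + j) by ring, pd_per hc, ih]
    conv_lhs => rw [← Nat.div_add_mod i s.length]
    rw [h3, hlen, pd_eq (by have := Nat.mod_lt i hN; omega)]
  constructor
  · unfold Fl
    rw [rot_lev (by omega), ha, hpv, hpv, h2, rp_nat]
    rfl
  · unfold Hd
    rw [rot_dx (by omega), ha, show rotTo up up = (1, 0) by decide, h2, hpd]
    simp [mulE]

end POL

end HexObs
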