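import Pool.Agent.POL.Unl
import Pool.Agent.JNT.EndM

/-!
POL: the choice of the root and of the label inside a window of M leaves, and the classes of the runs that are left.
-/

set_option autoImplicit false

namespace HexObs

namespace POL

open Finset TS SDN NTW NTA SIM JNT

open scoped ENNReal Classical

/-- the box of the leaves -/
abbrev Bxl (k J : ℕ) : Set (List Bool) := BrR (2 ^ (k + 4)) (2 ^ (k + J + 2))

/-- runs: a part of the window with a good leaf, then a run of R2 -/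
def RA (k J M : ℕ) (R2 : Set (List (List Bool))) (G : Set (List Bool)) : Set (List (List Bool)) :=
  {gs | ∃ ps r : List (List Bool), gs = ps ++ r ∧ r ∈ R2 ∧ r ≠ [] ∧ (∀ x ∈ gs, x ∈ BrR (2 ^ (k + 4)) (2 ^ (k + J + 2))) ∧
    ps.length ≤ M ∧ ∃ g ∈ ps, g ∈ G}

/-- runs: a part of the window with a good leaf of the class G and many leaves outside of G', behind it a run of R2 or before
it a run of R1 -/
def RB (k J M : ℕ) (R1 R2 : Set (List (List Bool))) (G' G : Set (List Bool)) : Set (List (List Bool)) :=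
  {gs | ∃ ps r : List (List Bool), r ≠ [] ∧ (∀ x ∈ gs, x ∈ BrR (2 ^ (k + 4)) (2 ^ (k + J + 2))) ∧ ps.length ≤ M ∧
    (∃ g ∈ ps, g ∈ G) ∧ M ≤ 2 * ((ps.filter fun g => decide (g ∉ G')).length + 5) ∧
    ((r ∈ R2 ∧ gs = ps ++ r) ∨ (r ∈ R1 ∧ gs = r ++ ps))}

/-- runs: the whole window with at most two good leaves -/
def RZ (k J M : ℕ) (R1 : Set (List (List Bool))) (G : Set (List Bool)) : Set (List (List Bool)) :=
  {gs | ∃ r ps : List (List Bool), gs = r ++ ps ∧ r ∈ R1 ∧ r ≠ [] ∧ (∀ x ∈ gs, x ∈ BrR (2 ^ (k + 4)) (2 ^ (k + J + 2))) ∧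
    ps.length = M ∧ M ≤ (ps.filter fun g => decide (g ∉ G)).length + 2}

/-- the norms of all classes of runs of the window -/
def NormAll : Prop := ∃ s1 s2 s3 : ℕ, 1 ≤ s1 ∧ 1 ≤ s2 ∧ 2 * (s1 + s2) ≤ s3 ∧ ∀ Cx : ℝ, 1 ≤ Cx → ∃ (M k0 : ℕ) (C : ℝ), 1 ≤ C ∧ 6 ≤ M ∧
  ∀ (k J D0 : ℕ) (R1 R2 : Set (List (List Bool))) (d1 d2 : ℝ), k0 ≤ k → 6 ≤ J → 1 ≤ D0 → s3 * (D0 + 1) ≤ k →
    0 < d1 → 0 < d2 → SmR DmJ k R1 d1 → SmR DmJ k R2 d2 →
    ∃ (I : ℕ) (G : ℕ → Set (List Bool)) (x : ℕ → ℝ) (y : ℝ),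
      (∀ i ≤ I, s3 * (D0 * 2 ^ i + 1) ≤ k ∧ G i ⊆ RtS s1 s2 k (D0 * 2 ^ i) ∧ 0 < x i) ∧ 0 < y ∧
      SmRL labN DmJ k (RA k J M R2 (G 0)) (x 0) ∧
      (∀ i, 1 ≤ i → i ≤ I → SmRL labN DmJ k (RB k J M R1 R2 (G (i - 1)) (G i)) (x i)) ∧
      SmR DmJ k (RZ k J M R1 (G I)) y ∧
      ∑ i ∈ range (I + 1), Cx ^ (D0 * 2 ^ i) * x i + Cx ^ k * y ≤
        (C ^ (J + D0) * d2 + C ^ (J + 1) / 2 ^ D0 * (d1 + d2)) / w4 mM k

/-- the event theorem for the words between two folds of a finer scale -/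
def REq : Prop := ∃ (C : ℝ) (k0 : ℕ), 1 ≤ C ∧
  ∀ (kc J q : ℕ) (R : Set (List (List Bool))) (δ : ℝ) (a : ℕ × Pt), k0 + q ≤ kc → 6 ≤ J → 0 < δ →
    SmRL labN DmJ kc R δ →
    gf {t | labN t = a ∧ t ∈ TwoF (kc - q + 5) (kc + J) ∧ t ∈ ERw kc J R} ≤ ENNReal.ofReal (C ^ (J + q) * δ * Ub (kc + J))

/-- the closed words cut at a root-good leaf -/
def RootRun : Prop := ∀ (s1 s2 N K kc D a m u l d : ℕ) (w : List Bool) (c : Bool) (e : ℕ → ℕ) (R : Set (List (List Bool))),
  1 ≤ s1 → 1 ≤ s2 → w ++ [c] ∈ WC N K → Fd (kc + 5) w m u e → (s1 + s2) * (D + 1) + 10 ≤ kc → kc ≤ K → 1 ≤ a →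
  a + 2 ≤ m → lw w (e a) (e (a + 1)) ∈ RtS s1 s2 kc D → 1 ≤ d → ((a + 2 ≤ l ∧ l + d + 1 ≤ m) ∨ (1 ≤ l ∧ l + d + 1 ≤ a)) →
  lws w e l d ∈ R →
  WinC (2 ^ (kc - 4 - s1 * (D + 1))) (kc - 3) (TwoF (kc - 5 - (s1 + s2) * (D + 1)) K ∩ ERw kc (K - kc) R) (w ++ [c])

/-! ### lists -/

lemma one_pos {α : Type} {p : α → Bool} : ∀ {l : List α}, 1 ≤ (l.filter p).length → ∃ (l1 : List α) (x : α) (l2 : List α),
    l = l1 ++ x :: l2 ∧ p x = true ∧ (l.filter p).length = (l2.filter p).length + 1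
  | [], h => by simp at h
  | y :: l, h => by
    by_cases hy : p y = true
    · exact ⟨[], y, l, rfl, hy, by rw [List.filter_cons_of_pos hy, List.length_cons]⟩
    · rw [List.filter_cons_of_neg hy] at h
      obtain ⟨l1, x, l2, h1, h2, h3⟩ := one_pos h
      refine ⟨y :: l1, x, l2, by rw [h1, List.cons_append], h2, ?_⟩
      rw [List.filter_cons_of_neg hy, h3]

/-- three good positions -/
lemma three_pos {α : Type} {p : α → Bool} {l : List α} (h : 3 ≤ (l.filter p).length) :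
    ∃ (j1 j3 : ℕ) (h1 : j1 < l.length) (h3 : j3 < l.length), j1 + 2 ≤ j3 ∧ p l[j1] = true ∧ p l[j3] = true := by
  obtain ⟨l1, x, l2, e1, hx, n1⟩ := one_pos (by omega : 1 ≤ (l.filter p).length)
  obtain ⟨l3, y, l4, e2, hy, n2⟩ := one_pos (by omega : 1 ≤ (l2.filter p).length)
  obtain ⟨l5, z, l6, e3, hz, n3⟩ := one_pos (by omega : 1 ≤ (l4.filter p).length)
  subst e3
  subst e2
  subst e1
  have hz' : (l1 ++ x :: (l3 ++ y :: (l5 ++ z :: l6)))[l1.length + (l3.length + (l5.length + 2))]? = some z := by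
    rw [List.getElem?_append_right (by omega), Nat.add_sub_cancel_left,
      show l3.length + (l5.length + 2) = (l3.length + (l5.length + 1)) + 1 by ring, List.getElem?_cons_succ,
      List.getElem?_append_right (by omega), Nat.add_sub_cancel_left, List.getElem?_cons_succ,
      List.getElem?_append_right (by omega), Nat.sub_self, List.getElem?_cons_zero]
  have hx' : (l1 ++ x :: (l3 ++ y :: (l5 ++ z :: l6)))[l1.length]? = some x := by
    rw [List.getElem?_append_right (by omega), Nat.sub_self, List.getElem?_cons_zero]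
  obtain ⟨b1, b2⟩ := List.getElem?_eq_some_iff.1 hz'
  obtain ⟨b3, b4⟩ := List.getElem?_eq_some_iff.1 hx'
  exact ⟨l1.length, l1.length + (l3.length + (l5.length + 2)), b3, b1, by omega, by rw [b4]; exact hx, by rw [b2]; exact hz⟩

/-- a part of a list with few good elements -/
lemma bad_part {α : Type} {G : Set α} {l s : List α} (hs : s.Sublist l)
    (h : (l.filter fun g => decide (g ∈ G)).length ≤ 2) :
    s.length ≤ (s.filter fun g => decide (g ∉ G)).length + 2 := by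
  have h1 : (s.filter fun g => decide (g ∈ G)).length ≤ 2 := (hs.filter _).length_le.trans h
  have h2 := List.length_eq_length_filter_add (l := s) (fun g => decide (g ∈ G))
  have h3 : (s.filter fun g => !(decide (g ∈ G))) = s.filter fun g => decide (g ∉ G) := by
    congr 1
    funext g
    simp
  rw [h3] at h2
  omega

lemma lws_len (w : List Bool) (e : ℕ → ℕ) (l d : ℕ) : (lws w e l d).length = d := by
  unfold lws
  simp

lemma lws_getE (w : List Bool) (e : ℕ → ℕ) (l d n : ℕ) (h : n < (lws w e l d).length) :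
    (lws w e l d)[n] = lw w (e (l + n)) (e (l + n + 1)) := by
  unfold lws
  simp

lemma lws_dropE (w : List Bool) (e : ℕ → ℕ) (l d n : ℕ) : (lws w e l d).drop n = lws w e (l + n) (d - n) := by
  apply List.ext_getElem
  · rw [List.length_drop, lws_len, lws_len]
  · intro i hi hi'
    rw [List.getElem_drop, lws_getE, lws_getE]
    rw [show l + (n + i) = l + n + i by ring]

lemma lws_takeE (w : List Bool) (e : ℕ → ℕ) (l d n : ℕ) (hn : n ≤ d) : (lws w e l d).take n = lws w e l n := by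
  apply List.ext_getElem
  · rw [List.length_take, lws_len, lws_len, Nat.min_eq_left hn]
  · intro i hi hi'
    rw [List.getElem_take, lws_getE, lws_getE]

/-- the box condition is for free in ERw -/
lemma erw_box {kc J : ℕ} {R : Set (List (List Bool))} :
    ERw kc J {gs | (∀ x ∈ gs, x ∈ BrR (2 ^ (kc + 4)) (2 ^ (kc + J + 2))) → gs ∈ R} ⊆ ERw kc J R := by
  rintro t ⟨ht, m, u, e, hF, l, d, h1, h2, h3⟩
  exact ⟨ht, m, u, e, hF, l, d, h1, h2, fun ms a1 a2 a3 a4 a5 => h3 ms a1 a2 a3 a4 a5 a5⟩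

lemma winC_mono {n1 b0 : ℕ} {T T' : Set (List Bool)} {t : List Bool} (h : T ⊆ T') (ht : WinC n1 b0 T t) :
    WinC n1 b0 T' t := by
  obtain ⟨X, H, Y, h1, he, hH, hn, hw⟩ := ht
  exact ⟨X, H, Y, h1, he, hH, hn, fun L P R a b c d => ⟨(hw L P R a b c d).1, h (hw L P R a b c d).2⟩⟩

section

variable {s1 s2 N kc J M D a0 m u l d : ℕ} {w : List Bool} {c : Bool} {e : ℕ → ℕ} {R1 R2 : Set (List (List Bool))}
  {G G' : Set (List Bool)} {r1 ps r2 : List (List Bool)}

/-- the root at the position j of the window, the run behind it -/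
lemma cut_after (hRR : RootRun) (hs1 : 1 ≤ s1) (hs2 : 1 ≤ s2) (hc : w ++ [c] ∈ WC N (kc + J)) (hF : Fd (kc + 5) w m u e)
    (hD : (s1 + s2) * (D + 1) + 10 ≤ kc) (hl : 1 ≤ l) (hm : l + d + 1 ≤ m) (he : lws w e l d = r1 ++ (ps ++ r2))
    (hG : G ⊆ RtS s1 s2 kc D) {j : ℕ} (hj : j + 2 < ps.length) (hg : ps[j] ∈ G) {R : Set (List (List Bool))}
    (hR : (∀ x ∈ ps.drop (j + 2) ++ r2, x ∈ BrR (2 ^ (kc + 4)) (2 ^ (kc + J + 2))) → ps.drop (j + 2) ++ r2 ∈ R) :
    WinC (2 ^ (kc - 4 - s1 * (D + 1))) (kc - 3) (TwoF (kc - 5 - (s1 + s2) * (D + 1)) (kc + J) ∩ ERw kc J R) (w ++ [c]) := by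
  have hlen : d = r1.length + (ps.length + r2.length) := by
    have := lws_len w e l d
    rw [he, List.length_append, List.length_append] at this
    omega
  have hleaf : lw w (e (l + (r1.length + j))) (e (l + (r1.length + j) + 1)) = ps[j] := by
    have h1 := lws_getE w e l d (r1.length + j) (by rw [lws_len]; omega)
    rw [← h1]
    have h2 : r1.length + j < (r1 ++ (ps ++ r2)).length := by
      simp only [List.length_append]
      omega
    have h3 : (lws w e l d)[r1.length + j]'(by rw [lws_len]; omega) = (r1 ++ (ps ++ r2))[r1.length + j] := by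
      simp only [he]
    rw [h3, List.getElem_append_right (by omega)]
    simp only [Nat.add_sub_cancel_left]
    rw [List.getElem_append_left]
  have hrun : lws w e (l + (r1.length + j) + 2) (d - (r1.length + j) - 2) = ps.drop (j + 2) ++ r2 := by
    have h1 := lws_dropE w e l d (r1.length + (j + 2))
    have h2 : (r1 ++ (ps ++ r2)).drop (r1.length + (j + 2)) = ps.drop (j + 2) ++ r2 := by
      rw [← List.drop_drop, List.drop_left, List.drop_append_of_le_length (by omega)]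
    rw [he, h2] at h1
    rw [h1]
    congr 1 <;> omega
  have hK : kc + J - kc = J := by omega
  have h1 := hRR s1 s2 N (kc + J) kc D (l + (r1.length + j)) m u (l + (r1.length + j) + 2) (d - (r1.length + j) - 2) w c e
    {gs | (∀ x ∈ gs, x ∈ BrR (2 ^ (kc + 4)) (2 ^ (kc + J + 2))) → gs ∈ R} hs1 hs2 hc hF hD (by omega) (by omega)
    (by omega) (by rw [hleaf]; exact hG hg) (by omega) (Or.inl ⟨by omega, by omega⟩) (by rw [hrun]; exact hR)
  rw [hK] at h1
  exact winC_mono (Set.inter_subset_inter_right _ erw_box) h1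

/-- the root at the position j of the window, the run before it -/
lemma cut_before (hRR : RootRun) (hs1 : 1 ≤ s1) (hs2 : 1 ≤ s2) (hc : w ++ [c] ∈ WC N (kc + J)) (hF : Fd (kc + 5) w m u e)
    (hD : (s1 + s2) * (D + 1) + 10 ≤ kc) (hl : 1 ≤ l) (hm : l + d + 1 ≤ m) (he : lws w e l d = r1 ++ (ps ++ r2))
    (hG : G ⊆ RtS s1 s2 kc D) {j : ℕ} (hj2 : 2 ≤ j) (hj : j < ps.length) (hg : ps[j] ∈ G) {R : Set (List (List Bool))}
    (hR : (∀ x ∈ r1 ++ ps.take (j - 1), x ∈ BrR (2 ^ (kc + 4)) (2 ^ (kc + J + 2))) → r1 ++ ps.take (j - 1) ∈ R) :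
    WinC (2 ^ (kc - 4 - s1 * (D + 1))) (kc - 3) (TwoF (kc - 5 - (s1 + s2) * (D + 1)) (kc + J) ∩ ERw kc J R) (w ++ [c]) := by
  have hlen : d = r1.length + (ps.length + r2.length) := by
    have := lws_len w e l d
    rw [he, List.length_append, List.length_append] at this
    omega
  have hleaf : lw w (e (l + (r1.length + j))) (e (l + (r1.length + j) + 1)) = ps[j] := by
    have h1 := lws_getE w e l d (r1.length + j) (by rw [lws_len]; omega)
    rw [← h1]
    have h3 : (lws w e l d)[r1.length + j]'(by rw [lws_len]; omega) = (r1 ++ (ps ++ r2))[r1.length + j]'(by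
        simp only [List.length_append]
        omega) := by
      simp only [he]
    rw [h3, List.getElem_append_right (by omega)]
    simp only [Nat.add_sub_cancel_left]
    rw [List.getElem_append_left]
  have hrun : lws w e l (r1.length + (j - 1)) = r1 ++ ps.take (j - 1) := by
    have h1 := lws_takeE w e l d (r1.length + (j - 1)) (by omega)
    have h2 : (r1 ++ (ps ++ r2)).take (r1.length + (j - 1)) = r1 ++ ps.take (j - 1) := by
      rw [List.take_append, List.take_of_length_le (by omega), Nat.add_sub_cancel_left,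
        List.take_append_of_le_length (by omega)]
    rw [he, h2] at h1
    exact h1.symm
  have hK : kc + J - kc = J := by omega
  have h1 := hRR s1 s2 N (kc + J) kc D (l + (r1.length + j)) m u l (r1.length + (j - 1)) w c e
    {gs | (∀ x ∈ gs, x ∈ BrR (2 ^ (kc + 4)) (2 ^ (kc + J + 2))) → gs ∈ R} hs1 hs2 hc hF hD (by omega) (by omega)
    (by omega) (by rw [hleaf]; exact hG hg) (by omega) (Or.inr ⟨by omega, by omega⟩) (by rw [hrun]; exact hR)
  rw [hK] at h1
  exact winC_mono (Set.inter_subset_inter_right _ erw_box) h1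

/-- the first level: three good leaves -/
lemma sel_first (hRR : RootRun) (hs1 : 1 ≤ s1) (hs2 : 1 ≤ s2) (hc : w ++ [c] ∈ WC N (kc + J)) (hF : Fd (kc + 5) w m u e)
    (hD : (s1 + s2) * (D + 1) + 10 ≤ kc) (hl : 1 ≤ l) (hm : l + d + 1 ≤ m) (he : lws w e l d = r1 ++ (ps ++ r2))
    (hG : G ⊆ RtS s1 s2 kc D) (hps : ps.length = M) (hr2 : r2 ∈ R2) (hr2n : r2 ≠ []) (h3 : 3 ≤ (ps.filter fun g => decide (g ∈ G)).length) :
    WinC (2 ^ (kc - 4 - s1 * (D + 1))) (kc - 3)
      (TwoF (kc - 5 - (s1 + s2) * (D + 1)) (kc + J) ∩ ERw kc J (RA kc J M R2 G)) (w ++ [c]) := by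
  obtain ⟨j1, j3, a1, a3, h13, g1, g3⟩ := three_pos h3
  refine cut_after hRR hs1 hs2 hc hF hD hl hm he hG (j := j1) (by omega) (of_decide_eq_true g1) fun hbox => ?_
  refine ⟨ps.drop (j1 + 2), r2, rfl, hr2, hr2n, hbox, ?_, ps[j3], ?_, of_decide_eq_true g3⟩
  · rw [List.length_drop]
    omega
  · rw [List.mem_iff_getElem]
    refine ⟨j3 - (j1 + 2), by rw [List.length_drop]; omega, ?_⟩
    rw [List.getElem_drop]
    congr 1
    omega

/-- the other levels: three good leaves, at most two good leaves of the level before -/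
lemma sel_next (hRR : RootRun) (hs1 : 1 ≤ s1) (hs2 : 1 ≤ s2) (hc : w ++ [c] ∈ WC N (kc + J)) (hF : Fd (kc + 5) w m u e)
    (hD : (s1 + s2) * (D + 1) + 10 ≤ kc) (hl : 1 ≤ l) (hm : l + d + 1 ≤ m) (he : lws w e l d = r1 ++ (ps ++ r2))
    (hG : G ⊆ RtS s1 s2 kc D) (hps : ps.length = M) (hr1 : r1 ∈ R1) (hr1n : r1 ≠ []) (hr2 : r2 ∈ R2) (hr2n : r2 ≠ [])
    (h3 : 3 ≤ (ps.filter fun g => decide (g ∈ G)).length)
    (h2 : (ps.filter fun g => decide (g ∈ G')).length ≤ 2) :
    WinC (2 ^ (kc - 4 - s1 * (D + 1))) (kc - 3)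
      (TwoF (kc - 5 - (s1 + s2) * (D + 1)) (kc + J) ∩ ERw kc J (RB kc J M R1 R2 G' G)) (w ++ [c]) := by
  obtain ⟨j1, j3, a1, a3, h13, g1, g3⟩ := three_pos h3
  rcases Nat.lt_or_ge (2 * j1) (M + 3) with hcase | hcase
  · refine cut_after hRR hs1 hs2 hc hF hD hl hm he hG (j := j1) (by omega) (of_decide_eq_true g1) fun hbox => ?_
    have hb := bad_part (List.drop_sublist (j1 + 2) ps) h2
    rw [List.length_drop] at hb
    refine ⟨ps.drop (j1 + 2), r2, hr2n, hbox, ?_, ⟨ps[j3], ?_, of_decide_eq_true g3⟩, by omega, Or.inl ⟨hr2, rfl⟩⟩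
    · rw [List.length_drop]
      omega
    · rw [List.mem_iff_getElem]
      refine ⟨j3 - (j1 + 2), by rw [List.length_drop]; omega, ?_⟩
      rw [List.getElem_drop]
      congr 1
      omega
  · refine cut_before hRR hs1 hs2 hc hF hD hl hm he hG (j := j3) (by omega) a3 (of_decide_eq_true g3) fun hbox => ?_
    have hb := bad_part (List.take_sublist (j3 - 1) ps) h2
    rw [List.length_take] at hb
    refine ⟨ps.take (j3 - 1), r1, hr1n, hbox, ?_, ⟨ps[j1], ?_, of_decide_eq_true g1⟩, by omega, Or.inr ⟨hr1, rfl⟩⟩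
    · rw [List.length_take]
      omega
    · rw [List.mem_iff_getElem]
      refine ⟨j1, by rw [List.length_take]; omega, ?_⟩
      rw [List.getElem_take]

end

end POL

end HexObs
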